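import Mathlib
import Pool.Agent.Lib_helper69.QG.Defs
import Pool.Agent.Lib_helper69.QG.Field

set_option autoImplicit false

namespace QG

open MeasureTheory

variable {A B : Type} [Fintype A] [DecidableEq A] [Fintype B] {w : (Fin 4 → ℝ) → ℝ}
  {G : Fin 4 → (Fin 4 → ℝ) → ℝ} {C : ℝ} {c : B → Fin 4 → A} {p : A} {R : ℝ}

instance fa_sf (p y : A) :
    SigmaFinite ((if y = p then Measure.dirac 0 else volume : Measure ℝ)) := by
  split_ifs <;> infer_instance

theorem fa_meas {N : ℕ} (e : Fin N ≃ {y : A // y ≠ p}) : Measurable (up e) := by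
  rw [measurable_pi_iff]
  intro y
  by_cases hy : y = p
  · have : (fun x : Fin N → ℝ => up e x y) = fun _ => 0 := by
      funext x; simp [up, hy]
    rw [this]; exact measurable_const
  · have : (fun x : Fin N → ℝ => up e x y) = fun x => x (e.symm ⟨y, hy⟩) := by
      funext x; simp [up, hy]
    rw [this]; exact measurable_pi_apply _

theorem fa_cont {N : ℕ} (e : Fin N ≃ {y : A // y ≠ p}) : Continuous (up e) := by
  rw [continuous_pi_iff]
  intro y
  by_cases hy : y = p
  · have : (fun x : Fin N → ℝ => up e x y) = fun _ => 0 := by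
      funext x; simp [up, hy]
    rw [this]; exact continuous_const
  · have : (fun x : Fin N → ℝ => up e x y) = fun x => x (e.symm ⟨y, hy⟩) := by
      funext x; simp [up, hy]
    rw [this]; exact continuous_apply _

theorem fa_p {N : ℕ} (e : Fin N ≃ {y : A // y ≠ p}) (x : Fin N → ℝ) : up e x p = 0 := by
  simp [up]

theorem fa_e {N : ℕ} (e : Fin N ≃ {y : A // y ≠ p}) (x : Fin N → ℝ) (k : Fin N) :
    up e x (e k) = x k := by
  have h := (e k).2
  unfold up
  rw [dif_neg h]
  congr 1
  rw [Equiv.symm_apply_eq]

theorem fa_inj {N : ℕ} (e : Fin N ≃ {y : A // y ≠ p}) : Function.Injective (up e) := by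
  intro x x' h
  funext k
  rw [← fa_e e x k, ← fa_e e x' k, h]

theorem up_mp {N : ℕ} (e : Fin N ≃ {y : A // y ≠ p}) : MeasurePreserving (up e) volume (bs p) := by
  refine ⟨fa_meas e, ?_⟩
  symm
  unfold bs
  apply Measure.pi_eq
  intro s hs
  rw [Measure.map_apply (fa_meas e) (MeasurableSet.univ_pi hs),
    Fintype.prod_eq_mul_prod_subtype_ne _ p, if_pos rfl]
  by_cases h0 : (0 : ℝ) ∈ s p
  · have h1 : up e ⁻¹' Set.univ.pi s = Set.univ.pi (fun k => s (e k)) := by
      ext x
      simp only [Set.mem_preimage, Set.mem_pi, Set.mem_univ, true_imp_iff]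
      constructor
      · intro h k
        have := h (e k)
        rwa [fa_e] at this
      · intro h y
        by_cases hy : y = p
        · rw [hy, fa_p]; exact h0
        · have := h (e.symm ⟨y, hy⟩)
          rw [Equiv.apply_symm_apply] at this
          unfold up
          rw [dif_neg hy]
          exact this
    rw [h1, volume_pi_pi, Measure.dirac_apply' _ (hs p), Set.indicator_of_mem h0, Pi.one_apply,
      one_mul, ← Equiv.prod_comp e]
    apply Finset.prod_congr rfl
    intro k _
    rw [if_neg (e k).2]
  · have h1 : up e ⁻¹' Set.univ.pi s = ∅ := by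
      ext x
      simp only [Set.mem_preimage, Set.mem_pi, Set.mem_univ, true_imp_iff, Set.mem_empty_iff_false,
        iff_false]
      intro h
      have := h p
      rw [fa_p] at this
      exact h0 this
    rw [h1, measure_empty, Measure.dirac_apply' _ (hs p), Set.indicator_of_notMem h0, zero_mul]

theorem up_emb {N : ℕ} (e : Fin N ≃ {y : A // y ≠ p}) : MeasurableEmbedding (up e) :=
  (fa_cont e).measurableEmbedding (fa_inj e)

theorem up_basic {N : ℕ} (e : Fin N ≃ {y : A // y ≠ p}) : (∀ x, up e x p = 0) ∧
    (∀ x k, up e x (e k) = x k) ∧ (∀ x, ∑ y, up e x y ^ 2 = ∑ k, x k ^ 2) ∧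
    (∀ x k r, up e (Function.update x k r) = Function.update (up e x) (e k) r) ∧
    ∀ a : A → ℝ, a p = 0 → ∃ x, up e x = a := by
  refine ⟨fa_p e, fa_e e, ?_, ?_, ?_⟩
  · intro x
    rw [Fintype.sum_eq_add_sum_subtype_ne _ p, fa_p, ← Equiv.sum_comp e]
    simp only [fa_e]
    ring
  · intro x k r
    funext y
    by_cases hy : y = p
    · rw [hy, fa_p, Function.update_of_ne (e k).2.symm, fa_p]
    · obtain ⟨j, hj⟩ : ∃ j, (e j : A) = y := ⟨e.symm ⟨y, hy⟩, by rw [Equiv.apply_symm_apply]⟩
      rw [← hj, fa_e]
      by_cases hjk : j = k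
      · rw [hjk, Function.update_self, Function.update_self]
      · have h2 : (e j : A) ≠ e k := fun h => hjk (e.injective (Subtype.ext h))
        rw [Function.update_of_ne hjk, Function.update_of_ne h2, fa_e]
  · intro a ha
    refine ⟨fun k => a (e k), ?_⟩
    funext y
    by_cases hy : y = p
    · rw [hy, fa_p, ha]
    · obtain ⟨j, hj⟩ : ∃ j, (e j : A) = y := ⟨e.symm ⟨y, hy⟩, by rw [Equiv.apply_symm_apply]⟩
      rw [← hj, fa_e]

theorem bs_p : ∀ᵐ a ∂bs p, a p = 0 := by
  obtain ⟨e⟩ : Nonempty (Fin (Fintype.card {y : A // y ≠ p}) ≃ {y : A // y ≠ p}) :=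
    ⟨(Fintype.equivFin _).symm⟩
  rw [← (up_mp e).map_eq, ae_map_iff (fa_meas e).aemeasurable]
  · exact Filter.Eventually.of_forall (fun x => fa_p e x)
  · exact measurableSet_eq_fun (measurable_pi_apply p) measurable_const

theorem bs_shift {g : A → ℝ} (hg : g p = 0) : MeasurePreserving (fun a : A → ℝ => a + g) (bs p) (bs p) := by
  unfold bs
  have h := measurePreserving_pi (fun y : A => (if y = p then Measure.dirac 0 else volume : Measure ℝ))
    (fun y : A => (if y = p then Measure.dirac 0 else volume : Measure ℝ))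
    (f := fun y r => r + g y) (fun y => by
      by_cases hy : y = p
      · rw [if_pos hy, hy, hg]
        simp only [add_zero]
        exact MeasurePreserving.id _
      · rw [if_neg hy]
        exact measurePreserving_add_right volume (g y))
  exact h

theorem bs_neg : MeasurePreserving (fun a : A → ℝ => -a) (bs p) (bs p) := by
  unfold bs
  have h := measurePreserving_pi (fun y : A => (if y = p then Measure.dirac 0 else volume : Measure ℝ))
    (fun y : A => (if y = p then Measure.dirac 0 else volume : Measure ℝ))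
    (f := fun _ r => -r) (fun y => by
      by_cases hy : y = p
      · rw [if_pos hy]
        refine ⟨measurable_neg, ?_⟩
        rw [Measure.map_dirac' measurable_neg, neg_zero]
      · rw [if_neg hy]
        exact Measure.measurePreserving_neg volume)
  exact h

end QG
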