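import Mathlib
import Pool.Agent.Lib_helper69.QG.Defs
import Pool.Agent.Lib_helper69.QG.Field
import Pool.Agent.Lib_helper69.QG.Geo

set_option autoImplicit false

namespace QG

open Finset

theorem cn_cc (n : ℕ) (z : Ev n) (i j : ℤ) : cn n (cc n z i j) =
    ![ch n z i j, ch n z (i + 1) (j + 1), ch n z (i + 1) j, ch n z i (j + 1)] := by
  funext k
  fin_cases k
  · refine Subtype.ext (Prod.ext ?_ ?_)
    · simp [cn, cc, ch, dir]; ring
    · simp [cn, cc, ch, dir]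
  · refine Subtype.ext (Prod.ext ?_ ?_)
    · simp [cn, cc, ch, dir]; ring
    · simp [cn, cc, ch, dir]
  · refine Subtype.ext (Prod.ext ?_ ?_)
    · simp [cn, cc, ch, dir]; ring
    · simp [cn, cc, ch, dir]; ring
  · refine Subtype.ext (Prod.ext ?_ ?_)
    · simp [cn, cc, ch, dir]; ring
    · simp [cn, cc, ch, dir]; ring

theorem q_cc (n : ℕ) (z : Ev n) (h : Ev n → ℝ) (i j : ℤ) :
    q (loc (cn n) h (cc n z i j)) = sq4 (fun i j => h (ch n z i j)) i j := by
  rw [sq4]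
  congr 1
  funext k
  simp only [loc, cn_cc]
  fin_cases k <;> rfl

theorem ch_eq_iff (n : ℕ) (z : Ev n) (i j i' j' : ℤ) : ch n z i j = ch n z i' j' ↔
    (2 * n : ℤ) ∣ (i - i') + (j - j') ∧ (2 * n : ℤ) ∣ (i - i') - (j - j') := by
  rw [Subtype.ext_iff, ch, ch, add_right_inj, Prod.ext_iff,
    ZMod.intCast_eq_intCast_iff_dvd_sub, ZMod.intCast_eq_intCast_iff_dvd_sub]
  push_cast
  rw [← dvd_neg (b := i' + j' - (i + j)), ← dvd_neg (b := i' - j' - (i - j))]
  rw [show -(i' + j' - (i + j)) = (i - i') + (j - j') by ring,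
    show -(i' - j' - (i - j)) = (i - i') - (j - j') by ring]

theorem cc_eq_iff (n : ℕ) (z : Ev n) (i j i' j' : ℤ) : cc n z i j = cc n z i' j' ↔
    (2 * n : ℤ) ∣ (i - i') + (j - j') ∧ (2 * n : ℤ) ∣ (i - i') - (j - j') := by
  rw [Subtype.ext_iff, cc, cc, add_right_inj, Prod.ext_iff,
    ZMod.intCast_eq_intCast_iff_dvd_sub, ZMod.intCast_eq_intCast_iff_dvd_sub]
  push_cast
  rw [← dvd_neg (b := i' + j' + 1 - (i + j + 1)), ← dvd_neg (b := i' - j' - (i - j))]
  rw [show -(i' + j' + 1 - (i + j + 1)) = (i - i') + (j - j') by ring,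
    show -(i' - j' - (i - j)) = (i - i') - (j - j') by ring]

theorem pd_small {n : ℕ} {i j i' j' : ℤ} (h1 : |i - i'| < n) (h2 : |j - j'| < n)
    (h : (2 * n : ℤ) ∣ (i - i') + (j - j') ∧ (2 * n : ℤ) ∣ (i - i') - (j - j')) :
    i = i' ∧ j = j' := by
  obtain ⟨⟨a, ha⟩, ⟨b, hb⟩⟩ := h
  have e1 : i - i' = n * (a + b) := by linarith
  have e2 : j - j' = n * (a - b) := by linarith
  constructor
  · have := Int.eq_zero_of_abs_lt_dvd (Dvd.intro _ e1.symm) h1
    linarith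
  · have := Int.eq_zero_of_abs_lt_dvd (Dvd.intro _ e2.symm) h2
    linarith

/-- different small coordinates give different sites and cells -/
theorem ch_inj (n : ℕ) (z : Ev n) {i j i' j' : ℤ} (h1 : |i - i'| < n) (h2 : |j - j'| < n) :
    (ch n z i j = ch n z i' j' → i = i' ∧ j = j') ∧
      (cc n z i j = cc n z i' j' → i = i' ∧ j = j') :=
  ⟨fun h => pd_small h1 h2 ((ch_eq_iff n z i j i' j').1 h),
    fun h => pd_small h1 h2 ((cc_eq_iff n z i j i' j').1 h)⟩

theorem lv_ch (n : ℕ) [NeZero n] (z : Ev n) {i j : ℤ} (hi : 2 * i.natAbs < n)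
    (hj : 2 * j.natAbs < n) : lv n z (ch n z i j) = max i.natAbs j.natAbs := by
  have hn := NeZero.pos n
  haveI : NeZero (2 * n) := ⟨by omega⟩
  have e1 : ((ch n z i j).1.1 - z.1.1).valMinAbs = i + j := by
    rw [ZMod.valMinAbs_spec]
    constructor
    · simp [ch]
    · rw [Set.mem_Ioc]; push_cast; omega
  have e2 : ((ch n z i j).1.2 - z.1.2).valMinAbs = i - j := by
    rw [ZMod.valMinAbs_spec]
    constructor
    · simp [ch]
    · rw [Set.mem_Ioc]; push_cast; omega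
  rw [lv, e1, e2]
  omega

theorem ch_surj (n : ℕ) [NeZero n] (z y : Ev n) :
    ∃ i j : ℤ, ch n z i j = y ∧ lv n z y = max i.natAbs j.natAbs := by
  have hn := NeZero.pos n
  haveI : NeZero (2 * n) := ⟨by omega⟩
  set s := (y.1.1 - z.1.1).valMinAbs with hs
  set t := (y.1.2 - z.1.2).valMinAbs with ht
  have hs1 : ((s : ℤ) : ZMod (2 * n)) = y.1.1 - z.1.1 := ZMod.coe_valMinAbs _
  have ht1 : ((t : ℤ) : ZMod (2 * n)) = y.1.2 - z.1.2 := ZMod.coe_valMinAbs _
  have hpar : ((s + t : ℤ) : ZMod 2) = 0 := by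
    rw [← par_int n s t, hs1, ht1]
    have e : (y.1.1 - z.1.1, y.1.2 - z.1.2) = y.1 + (-z.1) := by
      refine Prod.ext ?_ ?_ <;> simp [sub_eq_add_neg]
    have h2 : par n (-z.1) = 0 := by
      have h3 := par_add n z.1 (-z.1)
      rw [z.2, zero_add, add_neg_cancel] at h3
      rw [← h3]
      simp [par]
    rw [e, par_add, y.2, h2, add_zero]
  have hdvd : (2 : ℤ) ∣ s + t := by
    have := (ZMod.intCast_zmod_eq_zero_iff_dvd (s + t) 2).1 hpar
    exact_mod_cast this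
  obtain ⟨k, hk⟩ := hdvd
  refine ⟨k, k - t, ?_, ?_⟩
  · refine Subtype.ext (Prod.ext ?_ ?_)
    · show z.1.1 + ((k + (k - t) : ℤ) : ZMod (2 * n)) = y.1.1
      rw [show k + (k - t) = s by linarith, hs1]
      ring
    · show z.1.2 + ((k - (k - t) : ℤ) : ZMod (2 * n)) = y.1.2
      rw [show k - (k - t) = t by ring, ht1]
      ring
  · rw [lv, ← hs, ← ht]
    omega

theorem cc_surj (n : ℕ) [NeZero n] (z : Ev n) (v : Od n) :
    ∃ i j : ℤ, cc n z i j = v ∧ lv n z (cn n v 0) = max i.natAbs j.natAbs := by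
  obtain ⟨i, j, h1, h2⟩ := ch_surj n z (cn n v 0)
  refine ⟨i, j, ?_, h2⟩
  have h3 : z.1 + (((i + j : ℤ) : ZMod (2 * n)), ((i - j : ℤ) : ZMod (2 * n))) =
    v.1 + dir n 0 := congrArg Subtype.val h1
  have h4 := congrArg Prod.fst h3
  have h5 := congrArg Prod.snd h3
  simp only [Prod.fst_add, Prod.snd_add, dir, Matrix.cons_val_zero] at h4 h5
  refine Subtype.ext (Prod.ext ?_ ?_)
  · show z.1.1 + ((i + j + 1 : ℤ) : ZMod (2 * n)) = v.1.1
    have : ((i + j + 1 : ℤ) : ZMod (2 * n)) = ((i + j : ℤ) : ZMod (2 * n)) + 1 := by push_cast; ring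
    rw [this, ← add_assoc, h4]
    ring
  · show z.1.2 + ((i - j : ℤ) : ZMod (2 * n)) = v.1.2
    rw [h5, add_zero]

end QG
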