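import Mathlib
import Pool.Agent.Lib_helper69.QG.Defs
import Pool.Agent.Lib_helper69.QG.Field
import Pool.Agent.Lib_helper69.QG.Geo
import Pool.Agent.Lib_helper69.QG.W.pd

set_option autoImplicit false

namespace QG

open Finset

theorem pe_two_ne (n : ℕ) (hn : 2 ≤ n) : (2 : ZMod (2 * n)) ≠ 0 := by
  intro h
  have h1 : ((2 : ℕ) : ZMod (2 * n)) = 0 := by exact_mod_cast h
  have h2 := (ZMod.natCast_eq_zero_iff 2 (2 * n)).1 h1
  have := Nat.le_of_dvd (by norm_num) h2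
  omega

theorem pe_one_ne (n : ℕ) (hn : 2 ≤ n) : (1 : ZMod (2 * n)) ≠ 0 := by
  intro h
  apply pe_two_ne n hn
  have : (2 : ZMod (2 * n)) = 1 + 1 := by norm_num
  rw [this, h, add_zero]

theorem pe_neg_ne (n : ℕ) (hn : 2 ≤ n) : (-1 : ZMod (2 * n)) ≠ 1 := by
  intro h
  apply pe_two_ne n hn
  have : (2 : ZMod (2 * n)) = 1 - -1 := by norm_num
  rw [this, h, sub_self]

theorem pe_dir_inj (n : ℕ) (hn : 2 ≤ n) : Function.Injective (dir n) := by
  have h1 := pe_one_ne n hn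
  have h2 := pe_neg_ne n hn
  have h3 : (-1 : ZMod (2 * n)) ≠ 0 := by
    intro h
    exact h1 (neg_eq_zero.1 h)
  have h1' := h1.symm
  have h2' := h2.symm
  have h3' := h3.symm
  intro i j hij
  fin_cases i <;> fin_cases j <;> simp [dir, Prod.ext_iff] at hij ⊢ <;> tauto

theorem cn_inj (n : ℕ) (hn : 2 ≤ n) (v : Od n) : Function.Injective (cn n v) := by
  intro i j hij
  apply pe_dir_inj n hn
  have h := congrArg Subtype.val hij
  exact add_left_cancel h

theorem pe_par_sub (n : ℕ) (y : Ev n) (i : Fin 4) : par n (y.1 - dir n i) = 1 := by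
  have h := par_add n (y.1 - dir n i) (dir n i)
  rw [sub_add_cancel, y.2, par_dir] at h
  generalize par n (y.1 - dir n i) = x at h ⊢
  revert x
  decide

theorem cn_mult (n : ℕ) [NeZero n] (y : Ev n) :
    (univ.filter fun v : Od n => ∃ i, cn n v i = y).card ≤ 4 := by
  have hsub : (univ.filter fun v : Od n => ∃ i, cn n v i = y) ⊆
      (univ : Finset (Fin 4)).image fun i => (⟨y.1 - dir n i, pe_par_sub n y i⟩ : Od n) := by
    intro v hv
    obtain ⟨i, hi⟩ := (Finset.mem_filter.1 hv).2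
    refine Finset.mem_image.2 ⟨i, Finset.mem_univ _, Subtype.ext ?_⟩
    have h : v.1 + dir n i = y.1 := congrArg Subtype.val hi
    show y.1 - dir n i = v.1
    rw [← h, add_sub_cancel_right]
  refine (Finset.card_le_card hsub).trans (Finset.card_image_le.trans ?_)
  simp

/-- circular absolute value -/
def pe_ab {m : ℕ} (a : ZMod m) : ℕ := a.valMinAbs.natAbs

theorem pe_ab_add {m : ℕ} (a b : ZMod m) : pe_ab (a + b) ≤ pe_ab a + pe_ab b :=
  (ZMod.natAbs_valMinAbs_add_le a b).trans (Int.natAbs_add_le _ _)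

theorem pe_ab_neg {m : ℕ} (a : ZMod m) : pe_ab (-a) = pe_ab a := ZMod.natAbs_valMinAbs_neg a

theorem pe_ab_zero {m : ℕ} : pe_ab (0 : ZMod m) = 0 := by simp [pe_ab]

theorem pe_ab_nat (n a : ℕ) [NeZero n] (h : a ≤ n) : pe_ab ((a : ℕ) : ZMod (2 * n)) = a := by
  have hn := NeZero.pos n
  have : NeZero (2 * n) := ⟨by omega⟩
  have : (((a : ℕ) : ZMod (2 * n))).valMinAbs = (a : ℤ) := by
    rw [ZMod.valMinAbs_spec]
    constructor
    · simp
    · rw [Set.mem_Ioc]; push_cast; omega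
  rw [pe_ab, this, Int.natAbs_natCast]

theorem pe_lv (n : ℕ) (z y : Ev n) :
    lv n z y = (pe_ab (y.1.1 - z.1.1) + pe_ab (y.1.2 - z.1.2)) / 2 := rfl

theorem pe_even (n : ℕ) [NeZero n] (z y : Ev n) :
    2 ∣ pe_ab (y.1.1 - z.1.1) + pe_ab (y.1.2 - z.1.2) := by
  have hn := NeZero.pos n
  have : NeZero (2 * n) := ⟨by omega⟩
  unfold pe_ab
  set s := (y.1.1 - z.1.1).valMinAbs with hs
  set t := (y.1.2 - z.1.2).valMinAbs with ht
  have hs1 : ((s : ℤ) : ZMod (2 * n)) = y.1.1 - z.1.1 := ZMod.coe_valMinAbs _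
  have ht1 : ((t : ℤ) : ZMod (2 * n)) = y.1.2 - z.1.2 := ZMod.coe_valMinAbs _
  have hpar : ((s + t : ℤ) : ZMod 2) = 0 := by
    rw [← par_int n s t, hs1, ht1]
    have e : y.1 = z.1 + (y.1.1 - z.1.1, y.1.2 - z.1.2) := by
      refine Prod.ext ?_ ?_ <;> simp
    have h3 := par_add n z.1 (y.1.1 - z.1.1, y.1.2 - z.1.2)
    rw [← e, y.2, z.2, zero_add] at h3
    exact h3.symm
  have hdvd : (2 : ℤ) ∣ s + t := by
    have := (ZMod.intCast_zmod_eq_zero_iff_dvd (s + t) 2).1 hpar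
    exact_mod_cast this
  omega

theorem lv_tri (n : ℕ) [NeZero n] (x y z : Ev n) : lv n x z ≤ lv n x y + lv n y z ∧
    lv n x y = lv n y x ∧ lv n x x = 0 := by
  refine ⟨?_, ?_, ?_⟩
  · have h1 := pe_ab_add (y.1.1 - x.1.1) (z.1.1 - y.1.1)
    have h2 := pe_ab_add (y.1.2 - x.1.2) (z.1.2 - y.1.2)
    rw [show y.1.1 - x.1.1 + (z.1.1 - y.1.1) = z.1.1 - x.1.1 by ring] at h1
    rw [show y.1.2 - x.1.2 + (z.1.2 - y.1.2) = z.1.2 - x.1.2 by ring] at h2
    have e1 := pe_even n x y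
    have e2 := pe_even n y z
    have e3 := pe_even n x z
    rw [pe_lv, pe_lv, pe_lv]
    omega
  · rw [pe_lv, pe_lv, ← pe_ab_neg (y.1.1 - x.1.1), ← pe_ab_neg (y.1.2 - x.1.2), neg_sub, neg_sub]
  · rw [pe_lv, sub_self, sub_self, pe_ab_zero]

theorem pe_dir (n : ℕ) [NeZero n] (i : Fin 4) : pe_ab (dir n i).1 + pe_ab (dir n i).2 ≤ 1 := by
  have hn := NeZero.pos n
  have h1 : pe_ab (1 : ZMod (2 * n)) = 1 := by
    have := pe_ab_nat n 1 hn
    rwa [Nat.cast_one] at this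
  have h2 : pe_ab (-1 : ZMod (2 * n)) = 1 := by rw [pe_ab_neg, h1]
  have h0 : pe_ab (0 : ZMod (2 * n)) = 0 := pe_ab_zero
  fin_cases i <;> simp [dir, h0, h1, h2]

theorem lv_adj (n : ℕ) [NeZero n] (z : Ev n) (v : Od n) (i j : Fin 4) :
    lv n z (cn n v i) ≤ lv n z (cn n v j) + 1 := by
  have h := (lv_tri n z (cn n v j) (cn n v i)).1
  have h2 : lv n (cn n v j) (cn n v i) ≤ 1 := by
    rw [pe_lv]
    have e1 : (cn n v i).1.1 - (cn n v j).1.1 = (dir n i).1 + -(dir n j).1 := by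
      simp only [cn, Prod.fst_add]; ring
    have e2 : (cn n v i).1.2 - (cn n v j).1.2 = (dir n i).2 + -(dir n j).2 := by
      simp only [cn, Prod.snd_add]; ring
    have a1 := pe_ab_add (dir n i).1 (-(dir n j).1)
    have a2 := pe_ab_add (dir n i).2 (-(dir n j).2)
    rw [pe_ab_neg] at a1 a2
    have b1 := pe_dir n i
    have b2 := pe_dir n j
    rw [e1, e2]
    omega
  omega

theorem lv_dg (n : ℕ) [NeZero n] : lv n (dg n 0) (dg n n) = n ∧
    lv n (dg n 0) (dg n (n / 2)) = n / 2 ∧ lv n (dg n n) (dg n (n / 2)) = n - n / 2 := by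
  have h1 := pe_ab_nat n n le_rfl
  have h2 := pe_ab_nat n (n / 2) (Nat.div_le_self _ _)
  have h3 := pe_ab_nat n (n - n / 2) (Nat.sub_le _ _)
  refine ⟨?_, ?_, ?_⟩
  · rw [pe_lv]
    simp only [dg, Nat.cast_zero, sub_zero]
    omega
  · rw [pe_lv]
    simp only [dg, Nat.cast_zero, sub_zero]
    omega
  · rw [(lv_tri n (dg n n) (dg n (n / 2)) (dg n 0)).2.1, pe_lv]
    simp only [dg]
    rw [Nat.cast_sub (Nat.div_le_self _ _)] at h3
    omega

end QG
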