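import Mathlib
import Pool.Agent.Lib_helper69.QG.Defs

set_option autoImplicit false

namespace QG

open MeasureTheory

theorem ca_Vcont (t : Fin 4 → ℝ) : Continuous (V t) := by
  unfold V
  fun_prop

theorem ca_V'cont (t : Fin 4 → ℝ) : Continuous (V' t) := by
  unfold V'
  fun_prop

theorem ca_Vge (t : Fin 4 → ℝ) (x : ℝ) : (x - t 0) ^ 4 ≤ V t x := by
  unfold V
  exact Finset.single_le_sum (f := fun i => (x - t i) ^ 4) (fun i _ => by positivity)
    (Finset.mem_univ 0)

/-- integrability against the weight of a cell -/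
theorem int_pow_exp (t : Fin 4 → ℝ) (r : ℝ) (n : ℕ) :
    Integrable (fun x : ℝ => |x - r| ^ n * Real.exp (-V t x)) := by
  have h1 : Integrable (fun x : ℝ => Real.exp (-1 * (x - t 0) ^ 2)) :=
    (integrable_exp_neg_mul_sq one_pos).comp_sub_right (t 0)
  have h2 := h1.const_mul ((n.factorial : ℝ) * Real.exp (|t 0 - r| + 3 / 2))
  refine h2.mono' ?_ ?_
  · apply Continuous.aestronglyMeasurable
    exact ((continuous_id.sub continuous_const).abs.pow n).mul
      (Real.continuous_exp.comp (ca_Vcont t).neg)
  · refine Filter.Eventually.of_forall fun x => ?_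
    rw [Real.norm_of_nonneg (by positivity)]
    have h3 : |x - r| ^ n ≤ n.factorial * Real.exp |x - r| := by
      have := Real.pow_div_factorial_le_exp |x - r| (abs_nonneg _) n
      rw [div_le_iff₀ (by positivity)] at this
      linarith
    have h4 := ca_Vge t x
    have h5 : |x - r| ≤ |x - t 0| + |t 0 - r| := abs_sub_le _ _ _
    set y := |x - t 0| with hy
    have hy2 : (x - t 0) ^ 2 = y ^ 2 := (sq_abs _).symm
    have hy4 : (x - t 0) ^ 4 = y ^ 4 := by
      have : (x - t 0) ^ 4 = ((x - t 0) ^ 2) ^ 2 := by ring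
      rw [this, hy2]; ring
    have h6 : |x - r| - V t x ≤ |t 0 - r| + 3 / 2 + -1 * (x - t 0) ^ 2 := by
      rw [hy2]
      rw [hy4] at h4
      nlinarith [sq_nonneg (y ^ 2 - 1), sq_nonneg (y - 1)]
    calc |x - r| ^ n * Real.exp (-V t x)
        ≤ (n.factorial * Real.exp |x - r|) * Real.exp (-V t x) :=
          mul_le_mul_of_nonneg_right h3 (Real.exp_pos _).le
      _ = n.factorial * Real.exp (|x - r| - V t x) := by
          rw [mul_assoc, ← Real.exp_add, ← sub_eq_add_neg]
      _ ≤ n.factorial * Real.exp (|t 0 - r| + 3 / 2 + -1 * (x - t 0) ^ 2) := by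
          gcongr
      _ = _ := by
          rw [Real.exp_add]; ring

theorem ca_int_exp (t : Fin 4 → ℝ) : Integrable (fun x : ℝ => Real.exp (-V t x)) := by
  simpa using int_pow_exp t 0 0

theorem w4_pos (t : Fin 4 → ℝ) : 0 < w4 t := by
  unfold w4
  exact integral_exp_pos (ca_int_exp t)

theorem ca_Vderiv (t : Fin 4 → ℝ) (x : ℝ) : HasDerivAt (V t) (V' t x) x := by
  unfold V V'
  have := HasDerivAt.fun_sum (u := Finset.univ) (A := fun (i : Fin 4) (x : ℝ) => (x - t i) ^ 4)
    (A' := fun i => 4 * (x - t i) ^ 3) (x := x) (fun i _ => by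
      have h := ((hasDerivAt_id x).sub_const (t i)).fun_pow 4
      simpa using h)
  exact this

/-- the centre of a cell has a nice density -/
theorem gt_dens (t : Fin 4 → ℝ) : Dens (gt t) (gd t) := by
  have hw := w4_pos t
  have hgpos : ∀ x, 0 < gt t x := fun x => div_pos (Real.exp_pos _) hw
  have hgcont : Continuous (gt t) := by
    unfold gt
    exact (Real.continuous_exp.comp (ca_Vcont t).neg).div_const _
  refine ⟨hgpos, ?_, ?_, ?_, ?_, ?_⟩
  · unfold gd
    exact ((ca_V'cont t).mul hgcont).neg
  · intro x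
    have h := ((ca_Vderiv t x).neg.exp).div_const (w4 t)
    refine h.congr_deriv ?_
    unfold gd gt
    simp only [Pi.neg_apply]
    ring
  · unfold gt
    rw [integral_div]
    exact div_self hw.ne'
  · have h := (int_pow_exp t 0 2).div_const (w4 t)
    refine h.congr (Filter.Eventually.of_forall fun x => ?_)
    simp only [gt, sub_zero, sq_abs]
    ring
  · have h : Integrable (fun x : ℝ => ∑ i : Fin 4, 64 / w4 t *
        (|x - t i| ^ 6 * Real.exp (-V t x))) :=
      integrable_finsetSum _ fun i _ => (int_pow_exp t (t i) 6).const_mul _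
    refine h.mono' ?_ ?_
    · apply Continuous.aestronglyMeasurable
      apply Continuous.div
      · unfold gd
        exact ((ca_V'cont t).mul hgcont).neg.pow 2
      · exact hgcont
      · exact fun x => (hgpos x).ne'
    · refine Filter.Eventually.of_forall fun x => ?_
      rw [Real.norm_of_nonneg (div_nonneg (sq_nonneg _) (hgpos x).le)]
      have h1 : gd t x ^ 2 / gt t x = V' t x ^ 2 * gt t x := by
        unfold gd
        rw [div_eq_iff (hgpos x).ne']
        ring
      rw [h1]
      have h2 : V' t x ^ 2 ≤ 4 * ∑ i : Fin 4, (4 * (x - t i) ^ 3) ^ 2 := by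
        unfold V'
        have := sq_sum_le_card_mul_sum_sq (s := (Finset.univ : Finset (Fin 4)))
          (f := fun i => 4 * (x - t i) ^ 3)
        simpa using this
      have h3 : ∀ i : Fin 4, (4 * (x - t i) ^ 3) ^ 2 = 16 * |x - t i| ^ 6 := by
        intro i
        have : |x - t i| ^ 6 = (|x - t i| ^ 2) ^ 3 := by ring
        rw [this, sq_abs]; ring
      calc V' t x ^ 2 * gt t x ≤ (4 * ∑ i : Fin 4, (4 * (x - t i) ^ 3) ^ 2) * gt t x :=
            mul_le_mul_of_nonneg_right h2 (hgpos x).le
        _ = ∑ i : Fin 4, 64 / w4 t * (|x - t i| ^ 6 * Real.exp (-V t x)) := by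
            simp only [h3, gt, Finset.mul_sum, Finset.sum_mul]
            apply Finset.sum_congr rfl
            intro i _
            ring

end QG
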