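import Mathlib
import Pool.Agent.Lib_helper69.QG.Defs
import Pool.Agent.Lib_helper69.QG.Field
import Pool.Agent.Lib_helper69.QG.Geo
import Pool.Agent.Lib_helper69.QG.TorusDefs
import Pool.Agent.Lib_helper69.QG.W.ca
import Pool.Agent.Lib_helper69.QG.W.pe

set_option autoImplicit false

namespace QG

open MeasureTheory

theorem ra_z2 (a : ZMod 2) : a = 0 ∨ a = 1 := by
  revert a
  decide

theorem ra_odd (n : ℕ) (v : Tor n) : ¬ par n v = 0 ↔ par n v = 1 := by
  rcases ra_z2 (par n v) with h | h
  · rw [h]
    decide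
  · rw [h]
    decide

/-- a sum over the torus, split by parity, the even part shifted to the odd sites -/
theorem ra_shift (n : ℕ) [NeZero n] (e : Tor n) (he : par n e = 1) (F : Tor n → ℝ) :
    ∑ v, F v = ∑ v : Od n, (F v.1 + F (v.1 - e)) := by
  have h1 : ∑ v : Od n, F v.1 = ∑ v, if par n v = 1 then F v else 0 := by
    rw [← Finset.sum_filter]
    exact (Finset.sum_subtype (Finset.univ.filter fun v => par n v = 1) (fun v => by simp) F).symm
  have h2 : ∑ v : Od n, F (v.1 - e) = ∑ v, if par n v = 1 then F (v - e) else 0 := by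
    rw [← Finset.sum_filter]
    exact (Finset.sum_subtype (Finset.univ.filter fun v => par n v = 1) (fun v => by simp)
      (fun v => F (v - e))).symm
  have h3 : ∑ v, (if par n v = 1 then F (v - e) else 0) =
      ∑ v, if par n v = 0 then F v else 0 := by
    rw [← Equiv.sum_comp (Equiv.addRight e)]
    refine Finset.sum_congr rfl fun v _ => ?_
    simp only [Equiv.coe_addRight, add_sub_cancel_right]
    have h4 : par n (v + e) = 1 ↔ par n v = 0 := by
      rw [par_add, he]
      constructor
      · intro h
        exact by simpa using h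
      · intro h
        rw [h, zero_add]
    simp only [h4]
  rw [Finset.sum_add_distrib, h1, h2, h3, ← Finset.sum_add_distrib]
  refine Finset.sum_congr rfl fun v _ => ?_
  rcases ra_z2 (par n v) with h | h
  · simp [h]
  · simp [h]

/-- the energy as a sum over the odd sites -/
theorem enT_odd (n : ℕ) [NeZero n] (φ : Tor n → ℝ) :
    enT n φ = ∑ v : Od n, V (fun i => φ (cn n v i).1) (φ v.1) := by
  unfold enT
  rw [Finset.sum_add_distrib]
  have p1 : par n ((1, 0) : Tor n) = 1 := par_dir n 1
  have p2 : par n ((0, 1) : Tor n) = 1 := par_dir n 2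
  rw [ra_shift n (1, 0) p1 (fun v => (φ (v + (1, 0)) - φ v) ^ 4),
    ra_shift n (0, 1) p2 (fun v => (φ (v + (0, 1)) - φ v) ^ 4), ← Finset.sum_add_distrib]
  refine Finset.sum_congr rfl fun v _ => ?_
  unfold V
  rw [Fin.sum_univ_four]
  have e0 : (cn n v 0).1 = v.1 - (1, 0) := by
    change v.1 + (-1, 0) = v.1 - (1, 0)
    rw [sub_eq_add_neg]
    congr 1
    simp
  have e1 : (cn n v 1).1 = v.1 + (1, 0) := rfl
  have e2 : (cn n v 2).1 = v.1 + (0, 1) := rfl
  have e3 : (cn n v 3).1 = v.1 - (0, 1) := by
    change v.1 + (0, -1) = v.1 - (0, 1)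
    rw [sub_eq_add_neg]
    congr 1
    simp
  beta_reduce
  rw [e0, e1, e2, e3, sub_add_cancel, sub_add_cancel]
  ring

theorem ra_inner {W : Type} [Fintype W] (t : W → Fin 4 → ℝ) :
    ∫⁻ b : W → ℝ, ENNReal.ofReal (Real.exp (-∑ w, V (t w) (b w))) =
      ENNReal.ofReal (∏ w, w4 (t w)) := by
  have h1 : ∀ b : W → ℝ, Real.exp (-∑ w, V (t w) (b w)) = ∏ w, Real.exp (-V (t w) (b w)) := by
    intro b
    rw [← Real.exp_sum, Finset.sum_neg_distrib]
  simp only [h1]
  have hi : ∀ w, Integrable (fun x : ℝ => Real.exp (-V (t w) x)) := by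
    intro w
    have h := int_pow_exp (t w) 0 0
    simpa using h
  have hI : Integrable (fun b : W → ℝ => ∏ w, Real.exp (-V (t w) (b w))) := by
    rw [volume_pi]
    exact Integrable.fintype_prod (f := fun w x => Real.exp (-V (t w) x)) hi
  rw [← ofReal_integral_eq_lintegral_ofReal hI
    (Filter.Eventually.of_forall fun b => Finset.prod_nonneg fun w _ => (Real.exp_pos _).le)]
  congr 1
  exact integral_fintype_prod_volume_eq_prod (fun w x => Real.exp (-V (t w) x))

/-- integration of the heights at the odd sites -/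
theorem odd_integral (n : ℕ) [NeZero n] {H : (Ev n → ℝ) → ENNReal} (hH : Measurable H) :
    ∫⁻ φ, H (fun y => φ y.1) * ENNReal.ofReal (Real.exp (-enT n φ)) ∂bsT n =
      ∫⁻ a, H a * ENNReal.ofReal (wt w4 (cn n) 0 a) ∂bs (dg n 0) := by
  set μ : Tor n → Measure ℝ := fun v => if v = 0 then Measure.dirac 0 else volume with hμ
  have hσ : ∀ v, SigmaFinite (μ v) := by
    intro v
    rw [hμ]
    by_cases h : v = 0
    · simp only [h, if_true]
      infer_instance
    · simp only [h, if_false]
      infer_instance
  have hmp := measurePreserving_piEquivPiSubtypeProd (α := fun _ : Tor n => ℝ) μ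
    (fun y : Tor n => par n y = 0)
  set e : Od n ≃ {y : Tor n // ¬ par n y = 0} :=
    Equiv.subtypeEquivRight fun y => (ra_odd n y).symm with he
  set F' : ({y : Tor n // par n y = 0} → ℝ) × ({y : Tor n // ¬ par n y = 0} → ℝ) → ENNReal :=
    fun z => H z.1 * ENNReal.ofReal (Real.exp
      (-∑ w : {y : Tor n // ¬ par n y = 0}, V (fun i => z.1 (cn n (e.symm w) i)) (z.2 w))) with hF'
  have hcomp : ∀ φ : Tor n → ℝ, H (fun y => φ y.1) * ENNReal.ofReal (Real.exp (-enT n φ)) =
      F' (MeasurableEquiv.piEquivPiSubtypeProd (fun _ : Tor n => ℝ)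
        (fun y : Tor n => par n y = 0) φ) := by
    intro φ
    rw [hF', enT_odd]
    have h1 : ∑ w : {y : Tor n // ¬ par n y = 0}, V (fun i => φ (cn n (e.symm w) i).1) (φ w.1) =
        ∑ v : Od n, V (fun i => φ (cn n v i).1) (φ v.1) := by
      rw [← Equiv.sum_comp e]
      refine Finset.sum_congr rfl fun v _ => ?_
      rw [Equiv.symm_apply_apply]
      rfl
    rw [← h1]
    rfl
  have hmeas : Measurable F' := by
    rw [hF']
    refine (hH.comp measurable_fst).mul (ENNReal.measurable_ofReal.comp
      (Real.measurable_exp.comp (Measurable.neg (Finset.measurable_sum _ fun w _ => ?_))))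
    unfold V
    refine Finset.measurable_sum _ fun i _ => ?_
    refine Measurable.pow_const (Measurable.sub ?_ ?_) 4
    · exact (measurable_pi_apply w).comp measurable_snd
    · exact (measurable_pi_apply _).comp measurable_fst
  have hL : ∫⁻ φ, H (fun y => φ y.1) * ENNReal.ofReal (Real.exp (-enT n φ)) ∂bsT n =
      ∫⁻ z, F' z ∂((Measure.pi fun i : {y : Tor n // par n y = 0} => μ i).prod
        (Measure.pi fun i : {y : Tor n // ¬ par n y = 0} => μ i)) := by
    rw [← hmp.lintegral_comp_emb (MeasurableEquiv.measurableEmbedding _) F']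
    exact lintegral_congr fun φ => hcomp φ
  rw [hL, lintegral_prod _ hmeas.aemeasurable]
  have hμ1 : (Measure.pi fun i : {y : Tor n // par n y = 0} => μ i) = bs (dg n 0) := by
    unfold bs
    congr 1
    funext i
    rw [hμ]
    have h0 : (i.1 = 0) ↔ (i = dg n 0) := by
      rw [Subtype.ext_iff]
      unfold dg
      simp only [Nat.cast_zero]
      rfl
    by_cases h : i.1 = 0
    · have h' := h0.mp h
      simp only [h, if_true]
      rw [if_pos h']
    · have h' : ¬ i = dg n 0 := fun hc => h (h0.mpr hc)
      simp only [h, if_false]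
      rw [if_neg h']
  have hμ2 : (Measure.pi fun i : {y : Tor n // ¬ par n y = 0} => μ i) = volume := by
    rw [volume_pi]
    congr 1
    funext i
    rw [hμ]
    have h : ¬ i.1 = 0 := by
      intro h
      apply i.2
      rw [h]
      simp [par]
    simp only [h, if_false]
  rw [hμ1, hμ2]
  refine lintegral_congr fun a => ?_
  rw [hF']
  simp only
  rw [lintegral_const_mul]
  · congr 1
    rw [ra_inner (fun w : {y : Tor n // ¬ par n y = 0} => fun i => a (cn n (e.symm w) i))]
    congr 1
    unfold wt
    have h1 : dot (0 : Ev n → ℝ) a = 0 := by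
      unfold dot
      simp
    rw [h1, Real.exp_zero, mul_one, ← Equiv.prod_comp e]
    refine Finset.prod_congr rfl fun v _ => ?_
    rw [Equiv.symm_apply_apply]
    rfl
  · refine ENNReal.measurable_ofReal.comp
      (Real.measurable_exp.comp (Measurable.neg (Finset.measurable_sum _ fun w _ => ?_)))
    unfold V
    refine Finset.measurable_sum _ fun i _ => ?_
    exact Measurable.pow_const (Measurable.sub (measurable_pi_apply w) measurable_const) 4

end QG
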