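import Mathlib
import Pool.Agent.Lib_helper69.QG.Defs
import Pool.Agent.Lib_helper69.QG.Field

set_option autoImplicit false

namespace QG

open MeasureTheory

variable {A B : Type} [Fintype A] [DecidableEq A] [Fintype B] {w : (Fin 4 → ℝ) → ℝ}
  {G : Fin 4 → (Fin 4 → ℝ) → ℝ} {C : ℝ} {c : B → Fin 4 → A} {p : A} {R : ℝ}

theorem fb_q_nonneg (t : Fin 4 → ℝ) : 0 ≤ q t :=
  Finset.sum_nonneg fun _ _ => Finset.sum_nonneg fun _ _ => sq_nonneg _

/-- the logarithm of the weight of a cell -/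
theorem logw {w : (Fin 4 → ℝ) → ℝ} {G : Fin 4 → (Fin 4 → ℝ) → ℝ} {C : ℝ} (hw : Cell w G C) :
    ∃ K : ℝ, 1 ≤ K ∧ ∀ t, |Real.log (w t)| ≤ K * (1 + q t) ^ 2 := by
  refine ⟨C + |Real.log (w 0)|, by linarith [hw.one_le, abs_nonneg (Real.log (w 0))], ?_⟩
  intro t
  have hC := hw.one_le
  have hq := fb_q_nonneg t
  have hq1 : 1 ≤ (1 + q t) ^ 2 := by nlinarith
  have hlogC : Real.log C ≤ C := (Real.log_le_sub_one_of_pos (by linarith)).trans (by linarith)
  have hup : Real.log (w t) ≤ C := by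
    have h1 := hw.decay t
    have h2 : C * Real.exp (-(q t) ^ 2 / C) ≤ C := by
      have h3 : Real.exp (-(q t) ^ 2 / C) ≤ 1 := by
        rw [Real.exp_le_one_iff]
        apply div_nonpos_of_nonpos_of_nonneg _ (by linarith)
        nlinarith
      nlinarith
    exact (Real.log_le_log (hw.pos t) (h1.trans h2)).trans hlogC
  have hlow : Real.log (w 0) - C * (1 + q t) ^ 2 ≤ Real.log (w t) := by
    have h1 := hw.conv 0 t
    have h2 : (fun i => (0 : Fin 4 → ℝ) i + t i) = t := by funext i; simp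
    have h3 : (fun i => (0 : Fin 4 → ℝ) i - t i) = fun i => -t i := by funext i; simp
    have h4 : q (0 : Fin 4 → ℝ) = 0 := by simp [q]
    rw [h2, h3, hw.even t, h4] at h1
    nlinarith
  have h0 := abs_nonneg (Real.log (w 0))
  have h1 := neg_abs_le (Real.log (w 0))
  rw [abs_le]
  constructor
  · nlinarith
  · nlinarith

theorem wt_pos (hw : Cell w G C) (l a : A → ℝ) : 0 < wt w c l a :=
  mul_pos (Finset.prod_pos fun _ _ => hw.pos _) (Real.exp_pos _)

theorem fb_loc_cont (c : B → Fin 4 → A) (v : B) : Continuous (fun a : A → ℝ => loc c a v) :=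
  continuous_pi fun i => continuous_apply (c v i)

theorem wt_cont (hw : Cell w G C) (l : A → ℝ) : Continuous (wt w c l) := by
  unfold wt
  apply Continuous.mul
  · exact continuous_finsetProd _ fun v _ => hw.cont.comp (fb_loc_cont c v)
  · apply Real.continuous_exp.comp
    unfold dot
    exact continuous_finsetSum _ fun y _ => continuous_const.mul (continuous_apply y)

theorem Fo_cont (hw : Cell w G C) (y : A) : Continuous (fun a => Fo G c a y) := by
  unfold Fo
  apply continuous_finsetSum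
  intro v _
  apply continuous_finsetSum
  intro i _
  by_cases h : c v i = y
  · simp only [h, if_true]
    exact (hw.contG i).comp (fb_loc_cont c v)
  · simp only [h, if_false]
    exact continuous_const

/-- superexponential decay of the weight of a field -/
theorem wt_dom (hw : Cell w G C) (hN : Net c p R) (l : A → ℝ) (M : ℝ) :
    ∃ K : ℝ, 0 ≤ K ∧ ∀ a : A → ℝ, a p = 0 → wt w c l a ≤ K * Real.exp (-(M * ∑ y, a y ^ 2)) := by
  have hC := hw.one_le
  obtain ⟨R', hR'⟩ : ∃ R' : ℝ, R' = max R 1 := ⟨_, rfl⟩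
  have hR1 : 1 ≤ R' := by rw [hR']; exact le_max_right _ _
  have hRR : R ≤ R' := by rw [hR']; exact le_max_left _ _
  obtain ⟨b, hb⟩ : ∃ b : ℝ, b = (Fintype.card B : ℝ) + 1 := ⟨_, rfl⟩
  have hb1 : 1 ≤ b := by rw [hb]; linarith [Nat.cast_nonneg (α := ℝ) (Fintype.card B)]
  obtain ⟨κ, hκ⟩ : ∃ κ : ℝ, κ = C * R' ^ 2 * b := ⟨_, rfl⟩
  have hκ0 : 0 < κ := by rw [hκ]; positivity
  refine ⟨C ^ Fintype.card B * Real.exp ((∑ y, l y ^ 2) / 2 + κ * (M + 1 / 2) ^ 2 / 4),
    by positivity, ?_⟩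
  intro a ha
  obtain ⟨S, hS⟩ : ∃ S : ℝ, S = ∑ y, a y ^ 2 := ⟨_, rfl⟩
  have hS0 : 0 ≤ S := by rw [hS]; exact Finset.sum_nonneg fun _ _ => sq_nonneg _
  obtain ⟨Q, hQ⟩ : ∃ Q : ℝ, Q = ∑ v, q (loc c a v) ^ 2 := ⟨_, rfl⟩
  have hQ0 : 0 ≤ Q := by rw [hQ]; exact Finset.sum_nonneg fun _ _ => sq_nonneg _
  have hE0 : 0 ≤ En c a := Finset.sum_nonneg fun v _ => fb_q_nonneg _
  have hSE : S ≤ R' * En c a := by
    have h1 := hN.poin a ha
    rw [← hS] at h1
    exact h1.trans (mul_le_mul_of_nonneg_right hRR hE0)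
  have hEQ : En c a ^ 2 ≤ b * Q := by
    have h1 := sq_sum_le_card_mul_sum_sq (s := (Finset.univ : Finset B))
      (f := fun v => q (loc c a v))
    rw [Finset.card_univ, ← hQ] at h1
    have h2 : (Fintype.card B : ℝ) * Q ≤ b * Q :=
      mul_le_mul_of_nonneg_right (by linarith) hQ0
    exact h1.trans h2
  have hSQ : S ^ 2 ≤ R' ^ 2 * (b * Q) := by
    calc S ^ 2 ≤ (R' * En c a) ^ 2 := pow_le_pow_left₀ hS0 hSE 2
      _ = R' ^ 2 * En c a ^ 2 := by ring
      _ ≤ _ := mul_le_mul_of_nonneg_left hEQ (by positivity)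
  have hprod : ∏ v, w (loc c a v) ≤ C ^ Fintype.card B * Real.exp (-(Q / C)) := by
    calc ∏ v, w (loc c a v) ≤ ∏ v, C * Real.exp (-(q (loc c a v)) ^ 2 / C) :=
          Finset.prod_le_prod (fun v _ => (hw.pos _).le) (fun v _ => hw.decay _)
      _ = C ^ Fintype.card B * Real.exp (-(Q / C)) := by
          rw [Finset.prod_mul_distrib, Finset.prod_const, Finset.card_univ, ← Real.exp_sum]
          congr 2
          rw [hQ, Finset.sum_div, ← Finset.sum_neg_distrib]
          apply Finset.sum_congr rfl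
          intro v _
          ring
  have hdot : dot l a ≤ (∑ y, l y ^ 2) / 2 + S / 2 := by
    have h1 : dot l a ≤ ∑ y, (l y ^ 2 / 2 + a y ^ 2 / 2) := by
      unfold dot
      apply Finset.sum_le_sum
      intro y _
      nlinarith [sq_nonneg (l y - a y)]
    rw [Finset.sum_add_distrib, ← Finset.sum_div, ← Finset.sum_div, ← hS] at h1
    exact h1
  have hexp : -(Q / C) + dot l a ≤
      ((∑ y, l y ^ 2) / 2 + κ * (M + 1 / 2) ^ 2 / 4) + -(M * S) := by
    have h1 : S ^ 2 / κ ≤ Q / C := by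
      rw [div_le_div_iff₀ hκ0 (by linarith), hκ]
      nlinarith [mul_le_mul_of_nonneg_left hSQ (by linarith : (0 : ℝ) ≤ C)]
    have h2 : (M + 1 / 2) * S ≤ S ^ 2 / κ + κ * (M + 1 / 2) ^ 2 / 4 := by
      have h3 : S ^ 2 / κ + κ * (M + 1 / 2) ^ 2 / 4 - (M + 1 / 2) * S =
          (S - κ * (M + 1 / 2) / 2) ^ 2 / κ := by
        field_simp
        ring
      have h4 : 0 ≤ (S - κ * (M + 1 / 2) / 2) ^ 2 / κ := by positivity
      linarith
    linarith
  rw [← hS]
  calc wt w c l a = (∏ v, w (loc c a v)) * Real.exp (dot l a) := rfl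
    _ ≤ C ^ Fintype.card B * Real.exp (-(Q / C)) * Real.exp (dot l a) :=
        mul_le_mul_of_nonneg_right hprod (Real.exp_pos _).le
    _ = C ^ Fintype.card B * Real.exp (-(Q / C) + dot l a) := by rw [Real.exp_add]; ring
    _ ≤ C ^ Fintype.card B * Real.exp
        (((∑ y, l y ^ 2) / 2 + κ * (M + 1 / 2) ^ 2 / 4) + -(M * S)) :=
        mul_le_mul_of_nonneg_left (Real.exp_le_exp.mpr hexp) (by positivity)
    _ = _ := by rw [Real.exp_add]; ring

theorem fb_q_loc (c : B → Fin 4 → A) (a : A → ℝ) (v : B) :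
    q (loc c a v) ≤ 64 * ∑ x, a x ^ 2 := by
  have h1 : ∀ i, loc c a v i ^ 2 ≤ ∑ x, a x ^ 2 := fun i =>
    Finset.single_le_sum (f := fun x => a x ^ 2) (fun x _ => sq_nonneg (a x))
      (Finset.mem_univ (c v i))
  have h2 : ∀ i j, (loc c a v i - loc c a v j) ^ 2 ≤ 4 * ∑ x, a x ^ 2 := by
    intro i j
    nlinarith [h1 i, h1 j, sq_nonneg (loc c a v i + loc c a v j)]
  calc q (loc c a v) ≤ ∑ _i : Fin 4, ∑ _j : Fin 4, 4 * ∑ x, a x ^ 2 :=
        Finset.sum_le_sum fun i _ => Finset.sum_le_sum fun j _ => h2 i j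
    _ = 64 * ∑ x, a x ^ 2 := by
        simp only [Finset.sum_const, Finset.card_univ, Fintype.card_fin, nsmul_eq_mul]
        push_cast
        ring

/-- polynomial growth of the forces -/
theorem Fo_le (hw : Cell w G C) (c : B → Fin 4 → A) : ∃ K : ℝ, 0 ≤ K ∧ ∀ (a : A → ℝ) (y : A),
    |Fo G c a y| ≤ K * (1 + ∑ x, a x ^ 2) ^ 2 := by
  have hC := hw.one_le
  refine ⟨Fintype.card B * (4 * (C * 4096)), by positivity, ?_⟩
  intro a y
  have hS0 : 0 ≤ ∑ x, a x ^ 2 := Finset.sum_nonneg fun _ _ => sq_nonneg _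
  have h1 : ∀ v i, |if c v i = y then G i (loc c a v) else 0| ≤
      C * 4096 * (1 + ∑ x, a x ^ 2) ^ 2 := by
    intro v i
    have h2 : 0 ≤ C * 4096 * (1 + ∑ x, a x ^ 2) ^ 2 := by positivity
    split_ifs
    · have h3 := hw.grow i (loc c a v)
      have h4 := fb_q_loc c a v
      have h5 := fb_q_nonneg (loc c a v)
      have h6 : (1 + q (loc c a v)) ^ 2 ≤ (64 * (1 + ∑ x, a x ^ 2)) ^ 2 :=
        pow_le_pow_left₀ (by linarith) (by linarith) 2
      calc |G i (loc c a v)| ≤ C * (1 + q (loc c a v)) ^ 2 := h3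
        _ ≤ C * (64 * (1 + ∑ x, a x ^ 2)) ^ 2 := mul_le_mul_of_nonneg_left h6 (by linarith)
        _ = _ := by ring
    · rw [abs_zero]; exact h2
  calc |Fo G c a y| ≤ ∑ v, ∑ i, |if c v i = y then G i (loc c a v) else 0| := by
        unfold Fo
        exact (Finset.abs_sum_le_sum_abs _ _).trans
          (Finset.sum_le_sum fun v _ => Finset.abs_sum_le_sum_abs _ _)
    _ ≤ ∑ _v : B, ∑ _i : Fin 4, C * 4096 * (1 + ∑ x, a x ^ 2) ^ 2 :=
        Finset.sum_le_sum fun v _ => Finset.sum_le_sum fun i _ => h1 v i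
    _ = _ := by
        simp only [Finset.sum_const, Finset.card_univ, Fintype.card_fin, nsmul_eq_mul]
        push_cast
        ring

end QG
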