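import Mathlib
import Pool.Agent.Lib_helper69.QG.Defs
import Pool.Agent.Lib_helper69.QG.Field
import Pool.Agent.Lib_helper69.QG.W.fa
import Pool.Agent.Lib_helper69.QG.W.fb

set_option autoImplicit false

namespace QG

open MeasureTheory

variable {A B : Type} [Fintype A] [DecidableEq A] [Fintype B] {w : (Fin 4 → ℝ) → ℝ}
  {G : Fin 4 → (Fin 4 → ℝ) → ℝ} {C : ℝ} {c : B → Fin 4 → A} {p : A} {R : ℝ}

theorem fc_dot (l a : A → ℝ) (y : A) :
    HasDerivAt (fun r => dot l (Function.update a y r)) (l y) (a y) := by
  unfold dot
  have h : ∀ x ∈ (Finset.univ : Finset A),
      HasDerivAt (fun r => l x * Function.update a y r x) (if x = y then l x else 0) (a y) := by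
    intro x _
    by_cases hx : x = y
    · subst hx
      simp only [Function.update_self, if_true]
      simpa using (hasDerivAt_id (a x)).const_mul (l x)
    · simp only [Function.update_of_ne hx, if_neg hx]
      exact hasDerivAt_const _ _
  have h2 := HasDerivAt.fun_sum h
  simpa using h2

theorem fc_cell (hw : Cell w G C) (hN : Net c p R) (a : A → ℝ) (y : A) (v : B) :
    HasDerivAt (fun r => w (loc c (Function.update a y r) v))
      (-((∑ i, if c v i = y then G i (loc c a v) else 0) * w (loc c a v))) (a y) := by
  by_cases hy : ∃ i, c v i = y
  · obtain ⟨i, hi⟩ := hy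
    have h1 : ∀ r, loc c (Function.update a y r) v = Function.update (loc c a v) i r := by
      intro r
      funext j
      by_cases hj : j = i
      · subst hj
        rw [Function.update_self]
        show Function.update a y r (c v j) = r
        rw [hi, Function.update_self]
      · rw [Function.update_of_ne hj]
        show Function.update a y r (c v j) = a (c v j)
        refine Function.update_of_ne ?_ _ _
        intro h
        exact hj (hN.inj v (h.trans hi.symm))
    have h2 : (∑ j, if c v j = y then G j (loc c a v) else 0) = G i (loc c a v) := by
      rw [Finset.sum_eq_single i]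
      · rw [if_pos hi]
      · intro j _ hj
        refine if_neg ?_
        intro h
        exact hj (hN.inj v (h.trans hi.symm))
      · intro h
        exact absurd (Finset.mem_univ i) h
    rw [h2]
    simp only [h1]
    have h3 := hw.deriv i (loc c a v)
    have h4 : loc c a v i = a y := by
      show a (c v i) = a y
      rw [hi]
    rw [h4] at h3
    exact h3
  · have h1 : ∀ r, loc c (Function.update a y r) v = loc c a v := by
      intro r
      funext j
      show Function.update a y r (c v j) = a (c v j)
      refine Function.update_of_ne ?_ _ _
      intro h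
      exact hy ⟨j, h⟩
    have h2 : (∑ j, if c v j = y then G j (loc c a v) else 0) = 0 := by
      refine Finset.sum_eq_zero ?_
      intro j _
      refine if_neg ?_
      intro h
      exact hy ⟨j, h⟩
    rw [h2]
    simp only [h1, zero_mul, neg_zero]
    exact hasDerivAt_const _ _

theorem wt_deriv (hw : Cell w G C) (hN : Net c p R) (l a : A → ℝ) (y : A) :
    HasDerivAt (fun r => wt w c l (Function.update a y r)) ((l y - Fo G c a y) * wt w c l a) (a y) := by
  classical
  have h1 : HasDerivAt (fun r => ∏ v, w (loc c (Function.update a y r) v))
      (-(Fo G c a y) * ∏ v, w (loc c a v)) (a y) := by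
    have h := HasDerivAt.fun_finsetProd (u := (Finset.univ : Finset B))
      (fun v _ => fc_cell hw hN a y v)
    have hs : ∑ v ∈ (Finset.univ : Finset B),
        (∏ u ∈ Finset.univ.erase v, w (loc c (Function.update a y (a y)) u)) •
          (-((∑ i, if c v i = y then G i (loc c a v) else 0) * w (loc c a v)))
        = -(Fo G c a y) * ∏ v, w (loc c a v) := by
      rw [Function.update_eq_self, Fo, ← Finset.sum_neg_distrib, Finset.sum_mul]
      refine Finset.sum_congr rfl ?_
      intro v hv
      rw [← Finset.mul_prod_erase Finset.univ (fun u => w (loc c a u)) hv, smul_eq_mul]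
      ring
    rw [hs] at h
    exact h
  have h2 := (fc_dot l a y).exp
  have h3 := h1.mul h2
  unfold wt
  have h4 : (-(Fo G c a y) * ∏ v, w (loc c a v)) * Real.exp (dot l (Function.update a y (a y)))
      + (∏ v, w (loc c (Function.update a y (a y)) v)) *
        (Real.exp (dot l (Function.update a y (a y))) * l y)
      = (l y - Fo G c a y) * ((∏ v, w (loc c a v)) * Real.exp (dot l a)) := by
    rw [Function.update_eq_self]
    ring
  rw [← h4]
  exact h3

end QG
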