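import Mathlib
import Pool.Agent.Lib_helper69.QG.Defs

set_option autoImplicit false

namespace QG

open MeasureTheory

/-- the measurable equivalence -/
noncomputable def sa_e (N : ℕ) : (Fin N → ℝ) × ℝ ≃ᵐ (Fin (N + 1) → ℝ) :=
  MeasurableEquiv.prodComm.trans
    (MeasurableEquiv.piFinSuccAbove (fun _ : Fin (N + 1) => ℝ) (Fin.last N)).symm

theorem sa_e_apply (N : ℕ) (p : (Fin N → ℝ) × ℝ) :
    sa_e N p = (Fin.snoc (α := fun _ => ℝ) p.1 p.2 : Fin (N + 1) → ℝ) := by
  change (Fin.insertNth (α := fun _ => ℝ) (Fin.last N) p.2 p.1 : Fin (N + 1) → ℝ) = _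
  rw [Fin.insertNth_last']

theorem sa_e_mp (N : ℕ) : MeasurePreserving (sa_e N) := by
  have h1 := (volume_preserving_piFinSuccAbove (fun _ : Fin (N + 1) => ℝ) (Fin.last N)).symm
  have h2 : MeasurePreserving (Prod.swap : (Fin N → ℝ) × ℝ → ℝ × (Fin N → ℝ)) :=
    Measure.measurePreserving_swap
  exact h1.comp h2

/-- splitting off the last coordinate -/
theorem snoc_mp (N : ℕ) : MeasurePreserving
    (fun p : (Fin N → ℝ) × ℝ => (Fin.snoc (α := fun _ => ℝ) p.1 p.2 : Fin (N + 1) → ℝ)) := by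
  have h : (fun p : (Fin N → ℝ) × ℝ =>
      (Fin.snoc (α := fun _ => ℝ) p.1 p.2 : Fin (N + 1) → ℝ)) = sa_e N :=
    funext fun p => (sa_e_apply N p).symm
  rw [h]
  exact sa_e_mp N

theorem snoc_integral {N : ℕ} {F : (Fin (N + 1) → ℝ) → ℝ} (hF : Integrable F) :
    Integrable (fun x : Fin N → ℝ => ∫ r, F (Fin.snoc (α := fun _ => ℝ) x r)) ∧
      ∫ x, F x = ∫ x : Fin N → ℝ, ∫ r, F (Fin.snoc (α := fun _ => ℝ) x r) := by
  have h1 : Integrable (fun p : (Fin N → ℝ) × ℝ => F (Fin.snoc (α := fun _ => ℝ) p.1 p.2)) :=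
    (snoc_mp N).integrable_comp_of_integrable hF
  refine ⟨h1.integral_prod_left, ?_⟩
  rw [← (sa_e_mp N).integral_comp (sa_e N).measurableEmbedding F]
  have h2 : (fun p => F (sa_e N p)) =
      fun p : (Fin N → ℝ) × ℝ => F (Fin.snoc (α := fun _ => ℝ) p.1 p.2) :=
    funext fun p => by rw [sa_e_apply]
  rw [h2]
  exact integral_prod _ h1

/-- a Gaussian function is integrable -/
theorem gauss_int (N : ℕ) {c : ℝ} (hc : 0 < c) :
    Integrable (fun x : Fin N → ℝ => Real.exp (-(c * ∑ i, x i ^ 2))) := by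
  have h : (fun x : Fin N → ℝ => Real.exp (-(c * ∑ i, x i ^ 2))) =
      fun x => ∏ i, Real.exp (-c * x i ^ 2) := by
    funext x
    rw [← Real.exp_sum, ← Finset.mul_sum]
    congr 1
    ring
  rw [h]
  exact Integrable.fintype_prod (f := fun _ : Fin N => fun r : ℝ => Real.exp (-c * r ^ 2))
    fun _ => integrable_exp_neg_mul_sq hc

end QG
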