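import Mathlib
import Pool.Agent.Lib_helper69.QG.Defs
import Pool.Agent.Lib_helper69.QG.Field
import Pool.Agent.Lib_helper69.QG.W.fa
import Pool.Agent.Lib_helper69.QG.W.fb
import Pool.Agent.Lib_helper69.QG.W.fc
import Pool.Agent.Lib_helper69.QG.W.sa

set_option autoImplicit false

namespace QG

open MeasureTheory

variable {A B : Type} [Fintype A] [DecidableEq A] [Fintype B] {w : (Fin 4 → ℝ) → ℝ}
  {G : Fin 4 → (Fin 4 → ℝ) → ℝ} {C : ℝ} {c : B → Fin 4 → A} {p : A} {R : ℝ}

theorem fd_up_cont {N : ℕ} (e : Fin N ≃ {y : A // y ≠ p}) : Continuous (up e) := by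
  refine continuous_pi (fun y => ?_)
  by_cases hy : y = p
  · have h : (fun x : Fin N → ℝ => up e x y) = fun _ => 0 := by
      funext x
      simp [up, hy]
    rw [h]
    exact continuous_const
  · have h : (fun x : Fin N → ℝ => up e x y) = fun x => x (e.symm ⟨y, hy⟩) := by
      funext x
      simp [up, hy]
    rw [h]
    exact continuous_apply _

/-- the weight in coordinates is dominated by a Gaussian -/
theorem fd_dom (hw : Cell w G C) (hN : Net c p R) (l : A → ℝ) {N : ℕ}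
    (e : Fin N ≃ {y : A // y ≠ p}) (M : ℝ) :
    ∃ K : ℝ, 0 ≤ K ∧ ∀ x : Fin N → ℝ,
      wt w c l (up e x) ≤ K * Real.exp (-(M * ∑ k, x k ^ 2)) := by
  obtain ⟨K, hK, h⟩ := wt_dom hw hN l M
  refine ⟨K, hK, fun x => ?_⟩
  have h1 := h (up e x) ((up_basic e).1 x)
  rw [(up_basic e).2.2.1 x] at h1
  exact h1

theorem fd_int (hw : Cell w G C) (hN : Net c p R) (l : A → ℝ) {N : ℕ}
    (e : Fin N ≃ {y : A // y ≠ p}) : Integrable (fun x => wt w c l (up e x)) := by
  obtain ⟨K, hK, h⟩ := fd_dom hw hN l e 1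
  have hc : Continuous (fun x => wt w c l (up e x)) := (wt_cont hw l).comp (fd_up_cont e)
  refine Integrable.mono' ((gauss_int N one_pos).const_mul K) hc.aestronglyMeasurable ?_
  refine Filter.Eventually.of_forall (fun x => ?_)
  rw [Real.norm_of_nonneg (wt_pos hw l _).le]
  exact h x

theorem fd_Zt {N : ℕ} (e : Fin N ≃ {y : A // y ≠ p}) (l : A → ℝ) :
    Zt w c p l = ∫ x, wt w c l (up e x) := by
  unfold Zt
  exact ((up_mp e).integral_comp (up_emb e) _).symm

theorem Zt_pos (hw : Cell w G C) (hN : Net c p R) (l : A → ℝ) : 0 < Zt w c p l := by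
  have e : Fin (Fintype.card {y : A // y ≠ p}) ≃ {y : A // y ≠ p} := (Fintype.equivFin _).symm
  rw [fd_Zt e l]
  rw [integral_pos_iff_support_of_nonneg (fun x => (wt_pos hw l _).le) (fd_int hw hN l e)]
  have hs : Function.support (fun x => wt w c l (up e x)) = Set.univ := by
    ext x
    simp only [Function.mem_support, Set.mem_univ, iff_true]
    exact (wt_pos hw l _).ne'
  rw [hs]
  exact Measure.measure_univ_pos.2 (NeZero.ne _)

theorem fd_exp {S : ℝ} (hS : 0 ≤ S) : (1 + S) ^ 2 ≤ 4 * Real.exp S := by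
  have h1 := Real.add_one_le_exp (S / 2)
  have h2 : Real.exp S = Real.exp (S / 2) ^ 2 := by
    rw [← Real.exp_nat_mul]
    congr 1
    push_cast
    ring
  rw [h2]
  nlinarith [Real.exp_pos (S / 2)]

/-- the bound of the logarithmic derivative -/
theorem fd_force (hw : Cell w G C) (l : A → ℝ) {N : ℕ} (e : Fin N ≃ {y : A // y ≠ p}) :
    ∃ K : ℝ, 0 ≤ K ∧ ∀ (k : Fin N) (x : Fin N → ℝ),
      |l (e k) - Fo G c (up e x) (e k)| ≤ K * Real.exp (∑ i, x i ^ 2) := by
  obtain ⟨K, hK, h⟩ := Fo_le hw c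
  refine ⟨(∑ y, |l y|) + 4 * K, by positivity, fun k x => ?_⟩
  have h1 := h (up e x) (e k)
  rw [(up_basic e).2.2.1 x] at h1
  have hS : 0 ≤ ∑ i, x i ^ 2 := Finset.sum_nonneg (fun i _ => sq_nonneg _)
  have h2 := fd_exp hS
  have h3 : |l (e k)| ≤ ∑ y, |l y| :=
    Finset.single_le_sum (f := fun y => |l y|) (fun y _ => abs_nonneg _) (Finset.mem_univ _)
  have h4 : 1 ≤ Real.exp (∑ i, x i ^ 2) := Real.one_le_exp hS
  have h5 : 0 ≤ ∑ y, |l y| := Finset.sum_nonneg (fun y _ => abs_nonneg _)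
  calc |l (e k) - Fo G c (up e x) (e k)| ≤ |l (e k)| + |Fo G c (up e x) (e k)| := abs_sub _ _
    _ ≤ (∑ y, |l y|) + K * (1 + ∑ i, x i ^ 2) ^ 2 := add_le_add h3 h1
    _ ≤ (∑ y, |l y|) * Real.exp (∑ i, x i ^ 2) + K * (4 * Real.exp (∑ i, x i ^ 2)) :=
        add_le_add (le_mul_of_one_le_right h5 h4) (mul_le_mul_of_nonneg_left h2 hK)
    _ = ((∑ y, |l y|) + 4 * K) * Real.exp (∑ i, x i ^ 2) := by ring

/-- the density in coordinates is good -/
theorem fld_good (hw : Cell w G C) (hN : Net c p R) (l : A → ℝ) {N : ℕ}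
    (e : Fin N ≃ {y : A // y ≠ p}) :
    Good (fun x => wt w c l (up e x) / Zt w c p l)
      (fun k x => (l (e k) - Fo G c (up e x) (e k)) * (wt w c l (up e x) / Zt w c p l)) ∧
    ∫ x, wt w c l (up e x) / Zt w c p l = 1 ∧
    (lawN fun x => wt w c l (up e x) / Zt w c p l).map (up e) = mu w c p l := by
  have hZ : 0 < Zt w c p l := Zt_pos hw hN l
  have hcw : Continuous (fun x => wt w c l (up e x)) := (wt_cont hw l).comp (fd_up_cont e)
  have hcf : Continuous (fun x => wt w c l (up e x) / Zt w c p l) := hcw.div_const _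
  have hcD : ∀ k, Continuous (fun x => (l (e k) - Fo G c (up e x) (e k)) *
      (wt w c l (up e x) / Zt w c p l)) := fun k =>
    (continuous_const.sub ((Fo_cont hw _).comp (fd_up_cont e))).mul hcf
  have hpos : ∀ x, 0 < wt w c l (up e x) / Zt w c p l := fun x => div_pos (wt_pos hw l _) hZ
  obtain ⟨K, hK, hF⟩ := fd_force (c := c) hw l e
  refine ⟨⟨hpos, hcf, hcD, ?_, ?_, ?_⟩, ?_, ?_⟩
  · intro k x
    have h1 := wt_deriv hw hN l (up e x) (e k)
    rw [(up_basic e).2.1 x k] at h1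
    have h2 := h1.div_const (Zt w c p l)
    have h3 : (fun r => wt w c l (up e (Function.update x k r)) / Zt w c p l) =
        fun r => wt w c l (Function.update (up e x) (e k) r) / Zt w c p l := by
      funext r
      rw [(up_basic e).2.2.2.1 x k r]
    rw [h3, ← mul_div_assoc]
    exact h2
  · obtain ⟨K2, hK2, hD⟩ := fd_dom hw hN l e 2
    refine ⟨(1 + K) * (K2 / Zt w c p l), 1, one_pos, fun x => ?_, fun k x => ?_⟩
    · have hS : 0 ≤ ∑ i, x i ^ 2 := Finset.sum_nonneg (fun i _ => sq_nonneg _)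
      have h1 : wt w c l (up e x) / Zt w c p l ≤
          K2 / Zt w c p l * Real.exp (-(2 * ∑ i, x i ^ 2)) := by
        rw [div_mul_eq_mul_div]
        exact div_le_div_of_nonneg_right (hD x) hZ.le
      have h2 : Real.exp (-(2 * ∑ i, x i ^ 2)) ≤ Real.exp (-(1 * ∑ i, x i ^ 2)) :=
        Real.exp_le_exp.2 (by linarith)
      have h3 : 0 ≤ K2 / Zt w c p l := div_nonneg hK2 hZ.le
      calc wt w c l (up e x) / Zt w c p l
          ≤ K2 / Zt w c p l * Real.exp (-(2 * ∑ i, x i ^ 2)) := h1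
        _ ≤ K2 / Zt w c p l * Real.exp (-(1 * ∑ i, x i ^ 2)) := mul_le_mul_of_nonneg_left h2 h3
        _ ≤ (1 + K) * (K2 / Zt w c p l) * Real.exp (-(1 * ∑ i, x i ^ 2)) := by
            refine mul_le_mul_of_nonneg_right ?_ (Real.exp_pos _).le
            nlinarith
    · have h1 : wt w c l (up e x) / Zt w c p l ≤
          K2 / Zt w c p l * Real.exp (-(2 * ∑ i, x i ^ 2)) := by
        rw [div_mul_eq_mul_div]
        exact div_le_div_of_nonneg_right (hD x) hZ.le
      have h3 : 0 ≤ K2 / Zt w c p l := div_nonneg hK2 hZ.le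
      have h4 : Real.exp (∑ i, x i ^ 2) * Real.exp (-(2 * ∑ i, x i ^ 2)) =
          Real.exp (-(1 * ∑ i, x i ^ 2)) := by
        rw [← Real.exp_add]
        congr 1
        ring
      rw [abs_mul, abs_of_pos (hpos x)]
      calc |l (e k) - Fo G c (up e x) (e k)| * (wt w c l (up e x) / Zt w c p l)
          ≤ (K * Real.exp (∑ i, x i ^ 2)) *
            (K2 / Zt w c p l * Real.exp (-(2 * ∑ i, x i ^ 2))) :=
            mul_le_mul (hF k x) h1 (hpos x).le (by positivity)
        _ = K * (K2 / Zt w c p l) * (Real.exp (∑ i, x i ^ 2) *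
            Real.exp (-(2 * ∑ i, x i ^ 2))) := by ring
        _ = K * (K2 / Zt w c p l) * Real.exp (-(1 * ∑ i, x i ^ 2)) := by rw [h4]
        _ ≤ (1 + K) * (K2 / Zt w c p l) * Real.exp (-(1 * ∑ i, x i ^ 2)) := by
            refine mul_le_mul_of_nonneg_right ?_ (Real.exp_pos _).le
            nlinarith
  · intro k
    obtain ⟨K3, hK3, hD⟩ := fd_dom hw hN l e 3
    have hcont : Continuous (fun x => ((l (e k) - Fo G c (up e x) (e k)) *
        (wt w c l (up e x) / Zt w c p l)) ^ 2 / (wt w c l (up e x) / Zt w c p l)) :=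
      ((hcD k).pow 2).div hcf (fun x => (hpos x).ne')
    refine Integrable.mono' ((gauss_int N one_pos).const_mul (K ^ 2 * (K3 / Zt w c p l)))
      hcont.aestronglyMeasurable (Filter.Eventually.of_forall (fun x => ?_))
    have h0 : ((l (e k) - Fo G c (up e x) (e k)) *
        (wt w c l (up e x) / Zt w c p l)) ^ 2 / (wt w c l (up e x) / Zt w c p l) =
        |l (e k) - Fo G c (up e x) (e k)| ^ 2 * (wt w c l (up e x) / Zt w c p l) := by
      rw [sq_abs, mul_pow, mul_div_assoc, pow_two (wt w c l (up e x) / Zt w c p l),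
        mul_div_assoc, div_self (hpos x).ne', mul_one]
    have h00 : 0 ≤ |l (e k) - Fo G c (up e x) (e k)| ^ 2 * (wt w c l (up e x) / Zt w c p l) :=
      mul_nonneg (sq_nonneg _) (hpos x).le
    rw [h0, Real.norm_of_nonneg h00]
    have h1 : wt w c l (up e x) / Zt w c p l ≤
        K3 / Zt w c p l * Real.exp (-(3 * ∑ i, x i ^ 2)) := by
      rw [div_mul_eq_mul_div]
      exact div_le_div_of_nonneg_right (hD x) hZ.le
    have h3 : 0 ≤ K3 / Zt w c p l := div_nonneg hK3 hZ.le
    have h4 : Real.exp (∑ i, x i ^ 2) ^ 2 * Real.exp (-(3 * ∑ i, x i ^ 2)) =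
        Real.exp (-(1 * ∑ i, x i ^ 2)) := by
      rw [← Real.exp_nat_mul, ← Real.exp_add]
      congr 1
      push_cast
      ring
    calc |l (e k) - Fo G c (up e x) (e k)| ^ 2 * (wt w c l (up e x) / Zt w c p l)
        ≤ (K * Real.exp (∑ i, x i ^ 2)) ^ 2 *
          (K3 / Zt w c p l * Real.exp (-(3 * ∑ i, x i ^ 2))) :=
          mul_le_mul (pow_le_pow_left₀ (abs_nonneg _) (hF k x) 2) h1 (hpos x).le (by positivity)
      _ = K ^ 2 * (K3 / Zt w c p l) * (Real.exp (∑ i, x i ^ 2) ^ 2 *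
          Real.exp (-(3 * ∑ i, x i ^ 2))) := by ring
      _ = K ^ 2 * (K3 / Zt w c p l) * Real.exp (-(1 * ∑ i, x i ^ 2)) := by rw [h4]
  · rw [integral_div, ← fd_Zt e l, div_self hZ.ne']
  · have hg : Measurable (fun a => ENNReal.ofReal (wt w c l a / Zt w c p l)) :=
      ((wt_cont hw l).div_const _).measurable.ennreal_ofReal
    ext s hs
    rw [Measure.map_apply (up_emb e).measurable hs]
    unfold lawN mu
    rw [withDensity_apply _ ((up_emb e).measurable hs), withDensity_apply _ hs]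
    exact (up_mp e).setLIntegral_comp_preimage hs hg

end QG
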