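import Mathlib
import Pool.Agent.Lib_helper69.QG.Defs
import Pool.Agent.Lib_helper69.QG.Field
import Pool.Agent.Lib_helper69.QG.W.fa
import Pool.Agent.Lib_helper69.QG.W.fb
import Pool.Agent.Lib_helper69.QG.W.fd
import Pool.Agent.Lib_helper69.QG.W.sa

set_option autoImplicit false

namespace QG

open MeasureTheory

variable {A B : Type} [Fintype A] [DecidableEq A] [Fintype B] {w : (Fin 4 → ℝ) → ℝ}
  {G : Fin 4 → (Fin 4 → ℝ) → ℝ} {C : ℝ} {c : B → Fin 4 → A} {p : A} {R : ℝ}

theorem mu_prob (hw : Cell w G C) (hN : Net c p R) (l : A → ℝ) :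
    IsProbabilityMeasure (mu w c p l) := by
  classical
  obtain ⟨hg, hi, hm⟩ := fld_good hw hN l (Fintype.equivFin {y : A // y ≠ p}).symm
  rw [← hm]
  have hint : Integrable (fun x => wt w c l (up (Fintype.equivFin {y : A // y ≠ p}).symm x) /
      Zt w c p l) := by
    by_contra hcon
    rw [integral_undef hcon] at hi
    exact zero_ne_one hi
  have hl : IsProbabilityMeasure
      (lawN fun x => wt w c l (up (Fintype.equivFin {y : A // y ≠ p}).symm x) / Zt w c p l) := by
    constructor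
    unfold lawN
    rw [withDensity_apply _ MeasurableSet.univ, Measure.restrict_univ,
      ← ofReal_integral_eq_lintegral_ofReal hint (Filter.Eventually.of_forall fun x => (hg.pos x).le),
      hi, ENNReal.ofReal_one]
  exact Measure.isProbabilityMeasure_map (up_emb _).measurable.aemeasurable

theorem mu_p (w : (Fin 4 → ℝ) → ℝ) (c : B → Fin 4 → A) (p : A) (l : A → ℝ) :
    ∀ᵐ a ∂mu w c p l, a p = 0 :=
  (withDensity_absolutelyContinuous (bs p) _).ae_le bs_p

theorem fe_meas (hw : Cell w G C) (l : A → ℝ) :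
    Measurable fun a => wt w c l a / Zt w c p l :=
  ((wt_cont hw l).measurable).div_const _

theorem fe_nonneg (hw : Cell w G C) (hN : Net c p R) (l a : A → ℝ) :
    0 ≤ wt w c l a / Zt w c p l := (div_pos (wt_pos hw l a) (Zt_pos hw hN l)).le

/-- integrals with respect to `mu` -/
theorem mu_integral (hw : Cell w G C) (hN : Net c p R) (l : A → ℝ) (F : (A → ℝ) → ℝ) :
    (∫ a, F a ∂mu w c p l = ∫ a, F a * (wt w c l a / Zt w c p l) ∂bs p) ∧
      (Integrable F (mu w c p l) ↔ Integrable (fun a => F a * (wt w c l a / Zt w c p l)) (bs p)) := by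
  have hm : Measurable fun a => ENNReal.ofReal (wt w c l a / Zt w c p l) :=
    (fe_meas (c := c) (p := p) hw l).ennreal_ofReal
  have hfin : ∀ᵐ a ∂bs p, ENNReal.ofReal (wt w c l a / Zt w c p l) < ⊤ :=
    Filter.Eventually.of_forall fun a => ENNReal.ofReal_lt_top
  have heq : (fun a => (ENNReal.ofReal (wt w c l a / Zt w c p l)).toReal • F a) =
      fun a => F a * (wt w c l a / Zt w c p l) := by
    funext a
    rw [ENNReal.toReal_ofReal (fe_nonneg hw hN l a), smul_eq_mul, mul_comm]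
  constructor
  · unfold mu
    rw [integral_withDensity_eq_integral_toReal_smul hm hfin, heq]
  · unfold mu
    rw [integrable_withDensity_iff_integrable_smul' hm hfin, heq]

theorem fe_gauss (p : A) : Integrable (fun a : A → ℝ => Real.exp (-(∑ y, a y ^ 2))) (bs p) := by
  have h1 := up_mp (p := p) (Fintype.equivFin {y : A // y ≠ p}).symm
  have h2 := up_emb (p := p) (Fintype.equivFin {y : A // y ≠ p}).symm
  rw [← h1.integrable_comp_emb h2]
  refine (gauss_int (Fintype.card {y : A // y ≠ p}) one_pos).congr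
    (Filter.Eventually.of_forall fun x => ?_)
  simp only [Function.comp, one_mul]
  rw [(up_basic (p := p) (Fintype.equivFin {y : A // y ≠ p}).symm).2.2.1 x]

/-- all functions of at most exponential growth are integrable -/
theorem mu_int (hw : Cell w G C) (hN : Net c p R) (l : A → ℝ) {F : (A → ℝ) → ℝ}
    (hF : Measurable F) (h : ∃ K : ℝ, ∀ a, |F a| ≤ K * Real.exp (K * ∑ y, |a y|)) :
    Integrable F (mu w c p l) := by
  obtain ⟨K, hK⟩ := h
  obtain ⟨K1, hK1, hdom⟩ := wt_dom hw hN l 2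
  rw [(mu_integral hw hN l F).2]
  have hZ := Zt_pos hw hN l
  refine Integrable.mono' ((fe_gauss p).const_mul
    (|K| * Real.exp (Fintype.card A * K ^ 2) * (K1 / Zt w c p l)))
    (hF.mul (fe_meas hw l)).aestronglyMeasurable ?_
  filter_upwards [bs_p (p := p)] with a ha
  rw [Real.norm_eq_abs, abs_mul, abs_of_nonneg (fe_nonneg hw hN l a)]
  have hs : 0 ≤ ∑ y, |a y| := Finset.sum_nonneg fun y _ => abs_nonneg _
  have h1 : |F a| ≤ |K| * Real.exp (|K| * ∑ y, |a y|) := by
    refine (hK a).trans ?_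
    have : Real.exp (K * ∑ y, |a y|) ≤ Real.exp (|K| * ∑ y, |a y|) :=
      Real.exp_le_exp.2 (mul_le_mul_of_nonneg_right (le_abs_self K) hs)
    calc K * Real.exp (K * ∑ y, |a y|) ≤ |K| * Real.exp (K * ∑ y, |a y|) :=
          mul_le_mul_of_nonneg_right (le_abs_self K) (Real.exp_pos _).le
      _ ≤ _ := mul_le_mul_of_nonneg_left this (abs_nonneg K)
  have h2 : |K| * ∑ y, |a y| ≤ Fintype.card A * K ^ 2 + ∑ y, a y ^ 2 := by
    have : ∀ y, |K| * |a y| ≤ K ^ 2 + a y ^ 2 := by
      intro y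
      have h3 : 0 ≤ (|K| - |a y|) ^ 2 := sq_nonneg _
      have h4 : |K| ^ 2 = K ^ 2 := sq_abs K
      have h5 : |a y| ^ 2 = a y ^ 2 := sq_abs (a y)
      have h6 : 0 ≤ |K| * |a y| := mul_nonneg (abs_nonneg _) (abs_nonneg _)
      nlinarith
    calc |K| * ∑ y, |a y| = ∑ y, |K| * |a y| := Finset.mul_sum _ _ _
      _ ≤ ∑ y, (K ^ 2 + a y ^ 2) := Finset.sum_le_sum fun y _ => this y
      _ = Fintype.card A * K ^ 2 + ∑ y, a y ^ 2 := by
          rw [Finset.sum_add_distrib, Finset.sum_const, Finset.card_univ, nsmul_eq_mul]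
  have h3 : wt w c l a / Zt w c p l ≤ (K1 / Zt w c p l) * Real.exp (-(2 * ∑ y, a y ^ 2)) := by
    rw [div_mul_eq_mul_div]
    exact div_le_div_of_nonneg_right (hdom a ha) hZ.le
  calc |F a| * (wt w c l a / Zt w c p l)
      ≤ (|K| * Real.exp (|K| * ∑ y, |a y|)) *
        ((K1 / Zt w c p l) * Real.exp (-(2 * ∑ y, a y ^ 2))) :=
        mul_le_mul h1 h3 (fe_nonneg hw hN l a) (mul_nonneg (abs_nonneg _) (Real.exp_pos _).le)
    _ ≤ (|K| * Real.exp (Fintype.card A * K ^ 2 + ∑ y, a y ^ 2)) *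
        ((K1 / Zt w c p l) * Real.exp (-(2 * ∑ y, a y ^ 2))) := by
        refine mul_le_mul_of_nonneg_right ?_
          (mul_nonneg (div_nonneg hK1 hZ.le) (Real.exp_pos _).le)
        exact mul_le_mul_of_nonneg_left (Real.exp_le_exp.2 h2) (abs_nonneg _)
    _ = |K| * Real.exp (Fintype.card A * K ^ 2) * (K1 / Zt w c p l) *
        Real.exp (-(∑ y, a y ^ 2)) := by
        have : Real.exp (-(∑ y, a y ^ 2)) =
            Real.exp (∑ y, a y ^ 2) * Real.exp (-(2 * ∑ y, a y ^ 2)) := by
          rw [← Real.exp_add]; ring_nf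
        rw [Real.exp_add, this]
        ring

theorem fe_exp_int (hw : Cell w G C) (hN : Net c p R) (l : A → ℝ) {K : ℝ} (hK : 0 ≤ K) :
    Integrable (fun a : A → ℝ => Real.exp (K * ∑ y, |a y|)) (mu w c p l) := by
  refine mu_int hw hN l (by fun_prop) ⟨max K 1, fun a => ?_⟩
  have hs : 0 ≤ ∑ y, |a y| := Finset.sum_nonneg fun y _ => abs_nonneg _
  rw [abs_of_pos (Real.exp_pos _)]
  calc Real.exp (K * ∑ y, |a y|) ≤ Real.exp (max K 1 * ∑ y, |a y|) :=
        Real.exp_le_exp.2 (mul_le_mul_of_nonneg_right (le_max_left _ _) hs)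
    _ ≤ max K 1 * Real.exp (max K 1 * ∑ y, |a y|) :=
        le_mul_of_one_le_left (Real.exp_pos _).le (le_max_right _ _)

/-- the same for couplings -/
theorem cpl_int (hw : Cell w G C) (hN : Net c p R) {l : A → ℝ} {π : Measure ((A → ℝ) × (A → ℝ))}
    (hπ : Cpl w c p l π) {F : (A → ℝ) × (A → ℝ) → ℝ} (hF : Measurable F)
    (h : ∃ K : ℝ, ∀ z, |F z| ≤ K * Real.exp (K * (∑ y, |z.1 y| + ∑ y, |z.2 y|))) :
    Integrable F π := by
  obtain ⟨K, hK⟩ := h
  have hmE : Measurable (fun a : A → ℝ => Real.exp ((2 * |K|) * ∑ y, |a y|)) := by fun_prop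
  have hK2 : 0 ≤ 2 * |K| := by positivity
  have i1 : Integrable (fun z : (A → ℝ) × (A → ℝ) => Real.exp ((2 * |K|) * ∑ y, |z.1 y|)) π := by
    have := fe_exp_int hw hN (c := c) (0 : A → ℝ) hK2
    rw [← hπ.fst, integrable_map_measure hmE.aestronglyMeasurable measurable_fst.aemeasurable]
      at this
    exact this
  have i2 : Integrable (fun z : (A → ℝ) × (A → ℝ) => Real.exp ((2 * |K|) * ∑ y, |z.2 y|)) π := by
    have := fe_exp_int hw hN (c := c) l hK2
    rw [← hπ.snd, integrable_map_measure hmE.aestronglyMeasurable measurable_snd.aemeasurable]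
      at this
    exact this
  refine Integrable.mono' ((i1.add i2).const_mul |K|) hF.aestronglyMeasurable
    (Filter.Eventually.of_forall fun z => ?_)
  rw [Real.norm_eq_abs]
  refine (hK z).trans ?_
  set x : ℝ := ∑ y, |z.1 y| with hx
  set x' : ℝ := ∑ y, |z.2 y| with hx'
  have hx0 : 0 ≤ x := Finset.sum_nonneg fun y _ => abs_nonneg _
  have hx0' : 0 ≤ x' := Finset.sum_nonneg fun y _ => abs_nonneg _
  have e1 : Real.exp (K * (x + x')) ≤ Real.exp ((2 * |K|) * x) + Real.exp ((2 * |K|) * x') := by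
    have e2 : K * (x + x') ≤ |K| * (x + x') :=
      mul_le_mul_of_nonneg_right (le_abs_self K) (add_nonneg hx0 hx0')
    rcases le_total x x' with hle | hle
    · refine le_trans (Real.exp_le_exp.2 (e2.trans ?_)) (le_add_of_nonneg_left (Real.exp_pos _).le)
      nlinarith [abs_nonneg K]
    · refine le_trans (Real.exp_le_exp.2 (e2.trans ?_)) (le_add_of_nonneg_right (Real.exp_pos _).le)
      nlinarith [abs_nonneg K]
  calc K * Real.exp (K * (x + x')) ≤ |K| * Real.exp (K * (x + x')) :=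
        mul_le_mul_of_nonneg_right (le_abs_self K) (Real.exp_pos _).le
    _ ≤ |K| * (Real.exp ((2 * |K|) * x) + Real.exp ((2 * |K|) * x')) :=
        mul_le_mul_of_nonneg_left e1 (abs_nonneg K)
    _ = _ := rfl

/-- integrals of functions of one of the two fields -/
theorem cpl_fst {l : A → ℝ} {π : Measure ((A → ℝ) × (A → ℝ))} (hπ : Cpl w c p l π)
    {F : (A → ℝ) → ℝ} (hF : Measurable F) :
    ∫ z, F z.1 ∂π = ∫ a, F a ∂mu w c p 0 ∧ ∫ z, F z.2 ∂π = ∫ a, F a ∂mu w c p l := by
  constructor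
  · rw [← hπ.fst, integral_map measurable_fst.aemeasurable hF.aestronglyMeasurable]
  · rw [← hπ.snd, integral_map measurable_snd.aemeasurable hF.aestronglyMeasurable]

end QG
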