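import Mathlib
import Pool.Agent.Lib_helper69.QG.Defs
import Pool.Agent.Lib_helper69.QG.Field
import Pool.Agent.Lib_helper69.QG.W.fa
import Pool.Agent.Lib_helper69.QG.W.fd
import Pool.Agent.Lib_helper69.QG.W.fe

set_option autoImplicit false

namespace QG

open MeasureTheory

variable {A B : Type} [Fintype A] [DecidableEq A] [Fintype B] {w : (Fin 4 → ℝ) → ℝ}
  {G : Fin 4 → (Fin 4 → ℝ) → ℝ} {C : ℝ} {c : B → Fin 4 → A} {p : A} {R : ℝ}

theorem fi_wt (hw : Cell w G C) (c : B → Fin 4 → A) (l a : A → ℝ) :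
    wt w c (-l) (-a) = wt w c l a := by
  unfold wt
  have h1 : ∀ v, w (loc c (-a) v) = w (loc c a v) := fun v => hw.even (loc c a v)
  have h2 : dot (-l) (-a) = dot l a := by
    unfold dot
    refine Finset.sum_congr rfl (fun y _ => ?_)
    rw [Pi.neg_apply, Pi.neg_apply]
    ring
  rw [h2]
  congr 1
  exact Finset.prod_congr rfl (fun v _ => h1 v)

theorem fi_emb : MeasurableEmbedding (fun a : A → ℝ => -a) :=
  (MeasurableEquiv.neg (A → ℝ)).measurableEmbedding

theorem fi_Zt (hw : Cell w G C) (c : B → Fin 4 → A) (p : A) (l : A → ℝ) :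
    Zt w c p (-l) = Zt w c p l := by
  unfold Zt
  have h := (bs_neg (p := p)).integral_comp fi_emb (fun a => wt w c (-l) a)
  rw [← h]
  refine integral_congr_ae (Filter.Eventually.of_forall (fun a => ?_))
  exact fi_wt hw c l a

theorem mu_neg (hw : Cell w G C) (hN : Net c p R) (l : A → ℝ) :
    (mu w c p l).map (fun a => -a) = mu w c p (-l) := by
  ext s hs
  rw [Measure.map_apply fi_emb.measurable hs]
  unfold mu
  rw [withDensity_apply _ (fi_emb.measurable hs), withDensity_apply _ hs]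
  have h := (bs_neg (p := p)).setLIntegral_comp_preimage_emb fi_emb
    (fun a => ENNReal.ofReal (wt w c (-l) a / Zt w c p (-l))) s
  rw [← h]
  refine lintegral_congr (fun a => ?_)
  rw [fi_wt hw c l a, fi_Zt hw c p l]

/-- reflection of the field without tilt -/
theorem fi_sym (hw : Cell w G C) (hN : Net c p R) {F : (A → ℝ) → ℝ} (hF : Measurable F) :
    ∫ a, F (-a) ∂mu w c p 0 = ∫ a, F a ∂mu w c p 0 := by
  have h := mu_neg hw hN 0
  rw [neg_zero] at h
  have h2 : ∫ a, F a ∂((mu w c p 0).map (fun a => -a)) = ∫ a, F (-a) ∂mu w c p 0 :=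
    integral_map fi_emb.measurable.aemeasurable hF.aestronglyMeasurable
  rw [← h2, h]

/-- without tilt odd functions have integral zero -/
theorem mu_odd (hw : Cell w G C) (hN : Net c p R) {F : (A → ℝ) → ℝ} (hF : Measurable F)
    (h : ∀ a, F (-a) = -F a) : ∫ a, F a ∂mu w c p 0 = 0 := by
  have h1 := fi_sym hw hN hF
  simp only [h] at h1
  rw [integral_neg] at h1
  linarith

/-- reflection of the field without tilt -/
theorem mu_sym (hw : Cell w G C) (hN : Net c p R) {F : (A → ℝ) → ℝ} (hF : Measurable F) :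
    ∫ a, F (-a) ∂mu w c p 0 = ∫ a, F a ∂mu w c p 0 := fi_sym hw hN hF

end QG
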