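import Mathlib
import Pool.Agent.Lib_helper69.QG.Defs
import Pool.Agent.Lib_helper69.QG.Field
import Pool.Agent.Lib_helper69.QG.Geo

set_option autoImplicit false

namespace QG

open MeasureTheory

/-- integrating out a set of sites keeps the shift invariance -/
theorem rb_shift {A : Type} [DecidableEq A] (S : Finset A) {H : (A → ℝ) → ENNReal}
    (hs : ∀ (a : A → ℝ) (r : ℝ), H (fun y => a y + r) = H a) (x : A → ℝ) (r : ℝ) :
    lmarginal (fun _ : A => (volume : Measure ℝ)) S H (fun y => x y + r) =
      lmarginal (fun _ : A => (volume : Measure ℝ)) S H x := by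
  have e1 : lmarginal (fun _ : A => (volume : Measure ℝ)) S H (fun y => x y + r) =
      ∫⁻ y : (∀ _ : S, ℝ), (fun z : (∀ _ : S, ℝ) => H (Function.updateFinset x S z))
        (y - fun _ => r) ∂Measure.pi fun _ : S => (volume : Measure ℝ) := by
    unfold lmarginal
    congr 1
    funext y
    have : Function.updateFinset (fun y => x y + r) S y =
        fun z => Function.updateFinset x S (y - fun _ => r) z + r := by
      funext z
      by_cases hz : z ∈ S
      · simp [Function.updateFinset, hz]
      · simp [Function.updateFinset, hz]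
    rw [this, hs]
  rw [e1]
  exact lintegral_sub_right_eq_self (μ := (Measure.pi fun _ : S => (volume : Measure ℝ)))
    (fun z : (∀ _ : S, ℝ) => H (Function.updateFinset x S z)) (fun _ => r)

/-- the integral over the fields that vanish at `p` as a marginal -/
theorem rb_marg {A : Type} [Fintype A] [DecidableEq A] (p : A) {H : (A → ℝ) → ENNReal}
    (hH : Measurable H) :
    ∫⁻ a, H a ∂bs p =
      lmarginal (fun _ : A => (volume : Measure ℝ)) (Finset.univ.erase p) H (fun _ => 0) := by
  have hfin : ∀ i : A, SigmaFinite
      ((fun y => if y = p then Measure.dirac (0 : ℝ) else volume) i : Measure ℝ) := by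
    intro i
    by_cases hi : i = p
    · simp only [hi, if_true]
      infer_instance
    · simp only [hi, if_false]
      infer_instance
  unfold bs
  rw [lintegral_eq_lmarginal_univ (fun _ => (0 : ℝ)),
    lmarginal_erase H hH (Finset.mem_univ p)]
  simp only [if_true]
  rw [lintegral_dirac']
  · have hu : Function.update (fun _ : A => (0 : ℝ)) p 0 = fun _ => 0 := by
      funext y
      by_cases hy : y = p
      · subst hy
        simp
      · simp [hy]
    rw [hu]
    unfold lmarginal
    congr 1
    congr 1
    funext i
    have : (i : A) ≠ p := Finset.ne_of_mem_erase i.2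
    simp [this]
  · exact (hH.lmarginal _).comp (measurable_update _)

/-- the integral of a shift invariant function does not depend on the pinned site -/
theorem pin_change {A : Type} [Fintype A] [DecidableEq A] (p p' : A) {H : (A → ℝ) → ENNReal}
    (hH : Measurable H) (hs : ∀ (a : A → ℝ) (r : ℝ), H (fun y => a y + r) = H a) :
    ∫⁻ a, H a ∂bs p = ∫⁻ a, H a ∂bs p' := by
  by_cases hpp : p = p'
  · rw [hpp]
  rw [rb_marg p hH, rb_marg p' hH]
  have h1 : p' ∈ Finset.univ.erase p := Finset.mem_erase.2 ⟨Ne.symm hpp, Finset.mem_univ _⟩
  have h2 : p ∈ Finset.univ.erase p' := Finset.mem_erase.2 ⟨hpp, Finset.mem_univ _⟩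
  rw [lmarginal_erase H hH h1, lmarginal_erase H hH h2, Finset.erase_right_comm,
    ← lintegral_neg_eq_self]
  congr 1
  funext t
  rw [← rb_shift _ hs (Function.update (fun _ => 0) p' (-t)) t]
  apply lmarginal_congr
  intro i hi
  by_cases h3 : i = p
  · subst h3
    simp [Function.update_of_ne hpp]
  · by_cases h4 : i = p'
    · subst h4
      simp [Function.update_of_ne h3]
    · exact absurd (Finset.mem_erase.2 ⟨h3, Finset.mem_erase.2 ⟨h4, Finset.mem_univ _⟩⟩) hi

end QG
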