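import Mathlib
import Pool.Agent.Lib_helper69.QG.Defs
import Pool.Agent.Lib_helper69.QG.Field
import Pool.Agent.Lib_helper69.QG.Geo

set_option autoImplicit false

namespace QG

open Finset

/-- sums over an interval of integers -/
theorem pa_sum (F : ℤ → ℝ) (a : ℤ) (M : ℕ) :
    ∑ i ∈ Ico a (a + M), F i = ∑ s ∈ range M, F (a + s) := by
  refine Finset.sum_nbij' (fun i => (i - a).toNat) (fun s => a + (s : ℤ)) ?_ ?_ ?_ ?_ ?_
  · intro i hi
    have := Finset.mem_Ico.1 hi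
    exact Finset.mem_range.2 (by omega)
  · intro s hs
    have := Finset.mem_range.1 hs
    exact Finset.mem_Ico.2 (by omega)
  · intro i hi
    have := Finset.mem_Ico.1 hi
    omega
  · intro s _
    omega
  · intro i hi
    have := Finset.mem_Ico.1 hi
    have h : a + (((i - a).toNat : ℕ) : ℤ) = i := by omega
    simp only [h]

theorem pa_row_le (g : ℕ → ℝ) (M s t : ℕ) (hst : s ≤ t) (ht : t < M) :
    (g s - g t) ^ 2 ≤ M * ∑ m ∈ range (M - 1), (g (m + 1) - g m) ^ 2 := by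
  have h1 : g t - g s = ∑ m ∈ Ico s t, (g (m + 1) - g m) := by
    rw [Finset.sum_Ico_eq_sub _ hst, Finset.sum_range_sub, Finset.sum_range_sub]
    ring
  have h2 : (g s - g t) ^ 2 = (∑ m ∈ Ico s t, (g (m + 1) - g m)) ^ 2 := by
    rw [← h1]; ring
  rw [h2]
  have h3 : ∑ m ∈ Ico s t, (g (m + 1) - g m) ^ 2 ≤ ∑ m ∈ range (M - 1), (g (m + 1) - g m) ^ 2 := by
    refine Finset.sum_le_sum_of_subset_of_nonneg ?_ (fun _ _ _ => sq_nonneg _)
    intro m hm
    have := Finset.mem_Ico.1 hm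
    exact Finset.mem_range.2 (by omega)
  have h4 : ((Ico s t).card : ℝ) ≤ M := by
    rw [Nat.card_Ico]
    exact_mod_cast (by omega : t - s ≤ M)
  have h5 : 0 ≤ ∑ m ∈ Ico s t, (g (m + 1) - g m) ^ 2 := Finset.sum_nonneg fun _ _ => sq_nonneg _
  calc (∑ m ∈ Ico s t, (g (m + 1) - g m)) ^ 2
      ≤ ((Ico s t).card : ℝ) * ∑ m ∈ Ico s t, (g (m + 1) - g m) ^ 2 :=
        sq_sum_le_card_mul_sum_sq
    _ ≤ M * ∑ m ∈ range (M - 1), (g (m + 1) - g m) ^ 2 := by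
        refine mul_le_mul h4 h3 h5 (Nat.cast_nonneg M)

theorem pa_row (g : ℕ → ℝ) (M s t : ℕ) (hs : s < M) (ht : t < M) :
    (g s - g t) ^ 2 ≤ M * ∑ m ∈ range (M - 1), (g (m + 1) - g m) ^ 2 := by
  rcases le_total s t with h | h
  · exact pa_row_le g M s t h ht
  · have h2 := pa_row_le g M t s h hs
    have h3 : (g s - g t) ^ 2 = (g t - g s) ^ 2 := by ring
    rw [h3]
    exact h2

/-- every edge belongs to one of the squares -/
theorem pa_edge (h : ℕ → ℝ) (hh : ∀ t, 0 ≤ h t) (L : ℕ) (hL : 2 ≤ L) :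
    ∑ t ∈ range L, h t ≤ ∑ t ∈ range (L - 1), (h t + h (t + 1)) := by
  obtain ⟨K, rfl⟩ : ∃ K, L = K + 2 := ⟨L - 2, by omega⟩
  rw [Finset.sum_range_succ' h (K + 1), Finset.sum_add_distrib]
  have h1 : h 0 ≤ ∑ t ∈ range (K + 2 - 1), h t :=
    Finset.single_le_sum (f := h) (fun t _ => hh t) (Finset.mem_range.2 (by omega))
  have h2 : K + 2 - 1 = K + 1 := rfl
  rw [h2] at h1 ⊢
  linarith

theorem pa_q (x0 x1 x2 x3 : ℝ) :
    (x2 - x0) ^ 2 + (x1 - x3) ^ 2 ≤ q ![x0, x1, x2, x3] ∧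
    (x3 - x0) ^ 2 + (x1 - x2) ^ 2 ≤ q ![x0, x1, x2, x3] := by
  have h : q ![x0, x1, x2, x3] = 2 * ((x0 - x1) ^ 2 + (x0 - x2) ^ 2 + (x0 - x3) ^ 2 +
      (x1 - x2) ^ 2 + (x1 - x3) ^ 2 + (x2 - x3) ^ 2) := by
    unfold q
    simp only [Fin.sum_univ_four, Matrix.cons_val_zero, Matrix.cons_val_one, Matrix.cons_val]
    ring
  rw [h]
  constructor
  · nlinarith [sq_nonneg (x0 - x1), sq_nonneg (x0 - x2), sq_nonneg (x0 - x3), sq_nonneg (x1 - x2),
      sq_nonneg (x1 - x3), sq_nonneg (x2 - x3)]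
  · nlinarith [sq_nonneg (x0 - x1), sq_nonneg (x0 - x2), sq_nonneg (x0 - x3), sq_nonneg (x1 - x2),
      sq_nonneg (x1 - x3), sq_nonneg (x2 - x3)]

theorem pa_nat (F : ℕ → ℕ → ℝ) (M L : ℕ) (hM : 2 ≤ M) (hL : 2 ≤ L) :
    ∑ s ∈ range M, ∑ t ∈ range L, ∑ s' ∈ range M, ∑ t' ∈ range L, (F s t - F s' t') ^ 2 ≤
    2 * M * L * (M ^ 2 + L ^ 2) * ∑ s ∈ range (M - 1), ∑ t ∈ range (L - 1),
      q ![F s t, F (s + 1) (t + 1), F (s + 1) t, F s (t + 1)] := by
  set E := ∑ s ∈ range (M - 1), ∑ t ∈ range (L - 1),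
      q ![F s t, F (s + 1) (t + 1), F (s + 1) t, F s (t + 1)] with hE
  set H : ℕ → ℝ := fun t => ∑ m ∈ range (M - 1), (F (m + 1) t - F m t) ^ 2 with hH
  set W : ℕ → ℝ := fun s => ∑ m ∈ range (L - 1), (F s (m + 1) - F s m) ^ 2 with hW
  have hHE : ∑ t ∈ range L, H t ≤ E := by
    simp only [hH]
    rw [Finset.sum_comm]
    refine Finset.sum_le_sum ?_
    intro s _
    refine le_trans (pa_edge (fun t => (F (s + 1) t - F s t) ^ 2) (fun _ => sq_nonneg _) L hL) ?_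
    refine Finset.sum_le_sum ?_
    intro t _
    exact (pa_q (F s t) (F (s + 1) (t + 1)) (F (s + 1) t) (F s (t + 1))).1
  have hWE : ∑ s ∈ range M, W s ≤ E := by
    rw [hE]
    simp only [hW]
    rw [Finset.sum_comm, Finset.sum_comm (s := range (M - 1))]
    refine Finset.sum_le_sum ?_
    intro t _
    refine le_trans (pa_edge (fun s => (F s (t + 1) - F s t) ^ 2) (fun _ => sq_nonneg _) M hM) ?_
    refine Finset.sum_le_sum ?_
    intro s _
    exact (pa_q (F s t) (F (s + 1) (t + 1)) (F (s + 1) t) (F s (t + 1))).2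
  have hpt : ∀ s ∈ range M, ∀ t ∈ range L, ∀ s' ∈ range M, ∀ t' ∈ range L,
      (F s t - F s' t') ^ 2 ≤ 2 * (M * H t) + 2 * (L * W s') := by
    intro s hs t ht s' hs' t' ht'
    have h1 := pa_row (fun m => F m t) M s s' (Finset.mem_range.1 hs) (Finset.mem_range.1 hs')
    have h2 := pa_row (fun m => F s' m) L t t' (Finset.mem_range.1 ht) (Finset.mem_range.1 ht')
    have h3 : (F s t - F s' t') ^ 2 ≤ 2 * (F s t - F s' t) ^ 2 + 2 * (F s' t - F s' t') ^ 2 := by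
      nlinarith [sq_nonneg ((F s t - F s' t) - (F s' t - F s' t'))]
    simp only [hH, hW]
    linarith
  calc ∑ s ∈ range M, ∑ t ∈ range L, ∑ s' ∈ range M, ∑ t' ∈ range L, (F s t - F s' t') ^ 2
      ≤ ∑ s ∈ range M, ∑ t ∈ range L, ∑ s' ∈ range M, ∑ t' ∈ range L,
        (2 * (M * H t) + 2 * (L * W s')) := by
        refine Finset.sum_le_sum fun s hs => Finset.sum_le_sum fun t ht =>
          Finset.sum_le_sum fun s' hs' => Finset.sum_le_sum fun t' ht' => hpt s hs t ht s' hs' t' ht'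
    _ = 2 * M ^ 3 * L * (∑ t ∈ range L, H t) + 2 * M * L ^ 3 * ∑ s ∈ range M, W s := by
        simp only [Finset.sum_const, Finset.card_range, nsmul_eq_mul, Finset.sum_add_distrib,
          ← Finset.mul_sum]
        ring
    _ ≤ 2 * M ^ 3 * L * E + 2 * M * L ^ 3 * E := by
        refine add_le_add ?_ ?_
        · exact mul_le_mul_of_nonneg_left hHE (by positivity)
        · exact mul_le_mul_of_nonneg_left hWE (by positivity)
    _ = 2 * M * L * (M ^ 2 + L ^ 2) * E := by ring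

/-- Poincare inequality in a rectangle -/
theorem box_poincare (f : ℤ → ℤ → ℝ) (a b : ℤ) (M L : ℕ) (hM : 2 ≤ M) (hL : 2 ≤ L) :
    ∑ i ∈ Ico a (a + M), ∑ j ∈ Ico b (b + L), ∑ i' ∈ Ico a (a + M), ∑ j' ∈ Ico b (b + L),
      (f i j - f i' j') ^ 2 ≤
    2 * M * L * (M ^ 2 + L ^ 2) *
      ∑ i ∈ Ico a (a + M - 1), ∑ j ∈ Ico b (b + L - 1), sq4 f i j := by
  have h := pa_nat (fun s t => f (a + s) (b + t)) M L hM hL
  have hM1 : a + (M : ℤ) - 1 = a + ((M - 1 : ℕ) : ℤ) := by omega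
  have hL1 : b + (L : ℤ) - 1 = b + ((L - 1 : ℕ) : ℤ) := by omega
  rw [hM1, hL1]
  simp only [pa_sum]
  have hsq : ∀ s t : ℕ, sq4 f (a + s) (b + t) = q ![f (a + s) (b + t),
      f (a + ((s + 1 : ℕ) : ℤ)) (b + ((t + 1 : ℕ) : ℤ)), f (a + ((s + 1 : ℕ) : ℤ)) (b + t),
      f (a + s) (b + ((t + 1 : ℕ) : ℤ))] := by
    intro s t
    unfold sq4
    push_cast
    rw [add_assoc, add_assoc]
  simp only [hsq]
  exact h

end QG
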