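import Mathlib
import Pool.Agent.Lib_helper69.QG.Defs
import Pool.Agent.Lib_helper69.QG.Field
import Pool.Agent.Lib_helper69.QG.Geo
import Pool.Agent.Lib_helper69.QG.W.pa

set_option autoImplicit false

namespace QG

open Finset

theorem pb_sq4_nonneg (f : ℤ → ℤ → ℝ) (i j : ℤ) : 0 ≤ sq4 f i j := by
  unfold sq4 q
  exact Finset.sum_nonneg fun i _ => Finset.sum_nonneg fun j _ => sq_nonneg _

theorem Phi_zero (f : ℤ → ℤ → ℝ) : (f 0 0 - Phi f 0) ^ 2 ≤ sq4 f 0 0 + sq4 f 1 0 := by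
  have h : Phi f 0 = f 2 0 := by
    unfold Phi
    have h1 : Ico (2 * 2 ^ 0 : ℤ) (3 * 2 ^ 0) = {2} := by decide
    have h2 : Ico (0 : ℤ) (2 ^ 0) = {0} := by decide
    rw [h1, h2]
    simp
  rw [h]
  have e1 : (1 : ℤ) + 1 = 2 := by norm_num
  have e2 : (0 : ℤ) + 1 = 1 := by norm_num
  simp only [sq4, q, Fin.sum_univ_four, e1, e2, Matrix.cons_val]
  nlinarith [sq_nonneg (f 0 0 - 2 * f 1 0 + f 2 0), sq_nonneg (f 0 0 - f 1 1),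
    sq_nonneg (f 0 0 - f 0 1), sq_nonneg (f 1 1 - f 1 0), sq_nonneg (f 1 1 - f 0 1),
    sq_nonneg (f 1 0 - f 0 1), sq_nonneg (f 1 0 - f 2 1), sq_nonneg (f 2 1 - f 2 0),
    sq_nonneg (f 2 1 - f 1 1), sq_nonneg (f 2 0 - f 1 1)]

/-- difference of averages -/
theorem pb_avg (S T : Finset (ℤ × ℤ)) (g : ℤ × ℤ → ℝ) (a b : ℝ) (ha : 0 < a) (hb : 0 < b)
    (hS : (S.card : ℝ) = a) (hT : (T.card : ℝ) = b) :
    ((∑ x ∈ S, g x) / a - (∑ y ∈ T, g y) / b) ^ 2 ≤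
      (∑ x ∈ S, ∑ y ∈ T, (g x - g y) ^ 2) / (a * b) := by
  have h1 : (∑ x ∈ S, g x) / a - (∑ y ∈ T, g y) / b =
      (∑ p ∈ S ×ˢ T, (g p.1 - g p.2)) / (a * b) := by
    rw [Finset.sum_sub_distrib, Finset.sum_product, Finset.sum_product]
    simp only [Finset.sum_const, nsmul_eq_mul]
    rw [← Finset.mul_sum, hS, hT]
    field_simp
  have h2 := sq_sum_le_card_mul_sum_sq (s := S ×ˢ T) (f := fun p : (ℤ × ℤ) × (ℤ × ℤ) => g p.1 - g p.2)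
  have h3 : ((S ×ˢ T).card : ℝ) = a * b := by
    rw [Finset.card_product]
    push_cast
    rw [hS, hT]
  rw [h3, Finset.sum_product (f := fun p : (ℤ × ℤ) × (ℤ × ℤ) => (g p.1 - g p.2) ^ 2)] at h2
  rw [h1, div_pow, div_le_div_iff₀ (by positivity) (by positivity)]
  have hab : 0 < a * b := mul_pos ha hb
  nlinarith [mul_le_mul_of_nonneg_right h2 hab.le]

theorem Phi_step (f : ℤ → ℤ → ℝ) (k : ℕ) : (Phi f k - Phi f (k + 1)) ^ 2 ≤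
    80 * ∑ i ∈ Ico (2 * 2 ^ k : ℤ) (6 * 2 ^ k - 1), ∑ j ∈ Ico (0 : ℤ) (2 * 2 ^ k - 1),
      sq4 f i j := by
  have hk : 1 ≤ 2 ^ k := Nat.one_le_two_pow
  have hkz : (1 : ℤ) ≤ 2 ^ k := by exact_mod_cast hk
  have hp := box_poincare f (2 * 2 ^ k) 0 (4 * 2 ^ k) (2 * 2 ^ k) (by omega) (by omega)
  have e1 : (2 * 2 ^ k : ℤ) + ((4 * 2 ^ k : ℕ) : ℤ) = 6 * 2 ^ k := by push_cast; ring
  have e2 : (0 : ℤ) + ((2 * 2 ^ k : ℕ) : ℤ) = 2 * 2 ^ k := by push_cast; ring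
  rw [e1, e2] at hp
  set E := ∑ i ∈ Ico (2 * 2 ^ k : ℤ) (6 * 2 ^ k - 1), ∑ j ∈ Ico (0 : ℤ) (2 * 2 ^ k - 1),
      sq4 f i j with hE
  set g : ℤ × ℤ → ℝ := fun x => f x.1 x.2 with hg
  set S : Finset (ℤ × ℤ) := Ico (2 * 2 ^ k : ℤ) (3 * 2 ^ k) ×ˢ Ico (0 : ℤ) (2 ^ k) with hS
  set T : Finset (ℤ × ℤ) :=
    Ico (2 * 2 ^ (k + 1) : ℤ) (3 * 2 ^ (k + 1)) ×ˢ Ico (0 : ℤ) (2 ^ (k + 1)) with hT
  set R : Finset (ℤ × ℤ) := Ico (2 * 2 ^ k : ℤ) (6 * 2 ^ k) ×ˢ Ico (0 : ℤ) (2 * 2 ^ k) with hR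
  have c1 : (S.card : ℝ) = 4 ^ k := by
    rw [hS, Finset.card_product, Int.card_Ico, Int.card_Ico]
    have a1 : (3 * 2 ^ k - 2 * 2 ^ k : ℤ).toNat = 2 ^ k := by
      have : (3 * 2 ^ k - 2 * 2 ^ k : ℤ) = ((2 ^ k : ℕ) : ℤ) := by push_cast; ring
      rw [this, Int.toNat_natCast]
    have a2 : (2 ^ k - 0 : ℤ).toNat = 2 ^ k := by
      have : (2 ^ k - 0 : ℤ) = ((2 ^ k : ℕ) : ℤ) := by push_cast; ring
      rw [this, Int.toNat_natCast]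
    rw [a1, a2]
    push_cast
    rw [← mul_pow]
    norm_num
  have c2 : (T.card : ℝ) = 4 ^ (k + 1) := by
    rw [hT, Finset.card_product, Int.card_Ico, Int.card_Ico]
    have a1 : (3 * 2 ^ (k + 1) - 2 * 2 ^ (k + 1) : ℤ).toNat = 2 ^ (k + 1) := by
      have : (3 * 2 ^ (k + 1) - 2 * 2 ^ (k + 1) : ℤ) = ((2 ^ (k + 1) : ℕ) : ℤ) := by
        push_cast; ring
      rw [this, Int.toNat_natCast]
    have a2 : (2 ^ (k + 1) - 0 : ℤ).toNat = 2 ^ (k + 1) := by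
      have : (2 ^ (k + 1) - 0 : ℤ) = ((2 ^ (k + 1) : ℕ) : ℤ) := by push_cast; ring
      rw [this, Int.toNat_natCast]
    rw [a1, a2]
    push_cast
    rw [← mul_pow]
    norm_num
  have hphi : ∀ m : ℕ, Phi f m =
      (∑ x ∈ Ico (2 * 2 ^ m : ℤ) (3 * 2 ^ m) ×ˢ Ico (0 : ℤ) (2 ^ m), g x) / 4 ^ m := by
    intro m
    unfold Phi
    rw [Finset.sum_product]
  have hSR : S ⊆ R := by
    intro x hx
    rw [hS, Finset.mem_product, Finset.mem_Ico, Finset.mem_Ico] at hx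
    rw [hR, Finset.mem_product, Finset.mem_Ico, Finset.mem_Ico]
    refine ⟨⟨hx.1.1, ?_⟩, ⟨hx.2.1, ?_⟩⟩
    · linarith [hx.1.2]
    · linarith [hx.2.2]
  have hTR : T ⊆ R := by
    intro x hx
    rw [hT, Finset.mem_product, Finset.mem_Ico, Finset.mem_Ico, pow_succ] at hx
    rw [hR, Finset.mem_product, Finset.mem_Ico, Finset.mem_Ico]
    refine ⟨⟨?_, ?_⟩, ⟨hx.2.1, ?_⟩⟩
    · linarith [hx.1.1]
    · linarith [hx.1.2]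
    · linarith [hx.2.2]
  have h4 : ∑ x ∈ S, ∑ y ∈ T, (g x - g y) ^ 2 ≤ ∑ x ∈ R, ∑ y ∈ R, (g x - g y) ^ 2 := by
    refine (Finset.sum_le_sum fun x _ => Finset.sum_le_sum_of_subset_of_nonneg hTR
      fun y _ _ => sq_nonneg _).trans ?_
    exact Finset.sum_le_sum_of_subset_of_nonneg hSR
      fun x _ _ => Finset.sum_nonneg fun y _ => sq_nonneg _
  have h5 : ∑ x ∈ R, ∑ y ∈ R, (g x - g y) ^ 2 =
      ∑ i ∈ Ico (2 * 2 ^ k : ℤ) (6 * 2 ^ k), ∑ j ∈ Ico (0 : ℤ) (2 * 2 ^ k),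
        ∑ i' ∈ Ico (2 * 2 ^ k : ℤ) (6 * 2 ^ k), ∑ j' ∈ Ico (0 : ℤ) (2 * 2 ^ k),
          (f i j - f i' j') ^ 2 := by
    rw [hR, Finset.sum_product]
    refine Finset.sum_congr rfl fun i _ => Finset.sum_congr rfl fun j _ => ?_
    rw [Finset.sum_product]
  have h6 := pb_avg S T g (4 ^ k) (4 ^ (k + 1)) (by positivity) (by positivity) c1 c2
  rw [hphi k, hphi (k + 1)]
  refine h6.trans ?_
  rw [div_le_iff₀ (by positivity)]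
  refine (h4.trans (h5.le.trans hp)).trans ?_
  have h7 : (2 : ℝ) * ((4 * 2 ^ k : ℕ) : ℝ) * ((2 * 2 ^ k : ℕ) : ℝ) *
      (((4 * 2 ^ k : ℕ) : ℝ) ^ 2 + ((2 * 2 ^ k : ℕ) : ℝ) ^ 2) = 80 * (4 ^ k * 4 ^ (k + 1)) := by
    push_cast
    have : (4 : ℝ) ^ k = 2 ^ k * 2 ^ k := by rw [← mul_pow]; norm_num
    rw [pow_succ (4 : ℝ) k, this]
    ring
  rw [h7]
  apply le_of_eq
  ring

theorem pb_region (g : ℤ × ℤ → ℝ) (hg : ∀ x, 0 ≤ g x) (k : ℕ) (m : ℕ) (h : k ≤ m) :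
    ∑ n ∈ Ico k m, ∑ x ∈ Ico (2 * 2 ^ n : ℤ) (6 * 2 ^ n - 1) ×ˢ Ico (0 : ℤ) (2 * 2 ^ n - 1), g x ≤
      ∑ x ∈ Ico (0 : ℤ) (3 * 2 ^ m - 1) ×ˢ Ico (0 : ℤ) (2 ^ m - 1), g x +
      ∑ x ∈ Ico (0 : ℤ) (3 * 2 ^ (m - 1) - 1) ×ˢ Ico (0 : ℤ) (2 ^ (m - 1) - 1), g x := by
  induction m, h using Nat.le_induction with
  | base =>
    rw [Finset.Ico_self, Finset.sum_empty]
    exact add_nonneg (Finset.sum_nonneg fun x _ => hg x) (Finset.sum_nonneg fun x _ => hg x)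
  | succ m hm ih =>
    rw [Finset.sum_Ico_succ_top hm, Nat.add_sub_cancel]
    have hpos : (1 : ℤ) ≤ 2 ^ m := by exact_mod_cast Nat.one_le_two_pow
    have hm1 : (3 * 2 ^ (m - 1) - 1 : ℤ) ≤ 2 * 2 ^ m ∧ (2 ^ (m - 1) : ℤ) ≤ 2 ^ m := by
      rcases Nat.eq_zero_or_pos m with h0 | h0
      · subst h0
        norm_num
      · obtain ⟨n, rfl⟩ : ∃ n, m = n + 1 := ⟨m - 1, by omega⟩
        rw [Nat.add_sub_cancel, pow_succ]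
        have : (1 : ℤ) ≤ 2 ^ n := by exact_mod_cast Nat.one_le_two_pow
        constructor <;> linarith
    have hdis : Disjoint (Ico (2 * 2 ^ m : ℤ) (6 * 2 ^ m - 1) ×ˢ Ico (0 : ℤ) (2 * 2 ^ m - 1))
        (Ico (0 : ℤ) (3 * 2 ^ (m - 1) - 1) ×ˢ Ico (0 : ℤ) (2 ^ (m - 1) - 1)) := by
      rw [Finset.disjoint_left]
      intro x hx hy
      rw [Finset.mem_product, Finset.mem_Ico, Finset.mem_Ico] at hx hy
      linarith [hx.1.1, hy.1.2, hm1.1]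
    have hsub : (Ico (2 * 2 ^ m : ℤ) (6 * 2 ^ m - 1) ×ˢ Ico (0 : ℤ) (2 * 2 ^ m - 1)) ∪
        (Ico (0 : ℤ) (3 * 2 ^ (m - 1) - 1) ×ˢ Ico (0 : ℤ) (2 ^ (m - 1) - 1)) ⊆
        Ico (0 : ℤ) (3 * 2 ^ (m + 1) - 1) ×ˢ Ico (0 : ℤ) (2 ^ (m + 1) - 1) := by
      intro x hx
      rw [Finset.mem_union, Finset.mem_product, Finset.mem_Ico, Finset.mem_Ico,
        Finset.mem_product, Finset.mem_Ico, Finset.mem_Ico] at hx
      rw [Finset.mem_product, Finset.mem_Ico, Finset.mem_Ico, pow_succ]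
      rcases hx with hx | hx
      · refine ⟨⟨?_, ?_⟩, ⟨hx.2.1, ?_⟩⟩
        · linarith [hx.1.1]
        · linarith [hx.1.2]
        · linarith [hx.2.2]
      · refine ⟨⟨hx.1.1, ?_⟩, ⟨hx.2.1, ?_⟩⟩
        · linarith [hx.1.2, hm1.1]
        · linarith [hx.2.2, hm1.2]
    have h1 := Finset.sum_le_sum_of_subset_of_nonneg hsub (f := g) fun x _ _ => hg x
    rw [Finset.sum_union hdis] at h1
    linarith

theorem Phi_diff (f : ℤ → ℤ → ℝ) {k k' : ℕ} (h : k ≤ k') : (Phi f k - Phi f k') ^ 2 ≤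
    160 * ((k' : ℝ) - k) * ∑ i ∈ Ico (0 : ℤ) (3 * 2 ^ k' - 1), ∑ j ∈ Ico (0 : ℤ) (2 ^ k' - 1),
      sq4 f i j := by
  have h1 : Phi f k - Phi f k' = ∑ n ∈ Ico k k', (Phi f n - Phi f (n + 1)) := by
    have h0 := Finset.sum_Ico_sub (fun n => Phi f n) h
    have h00 : ∑ n ∈ Ico k k', (Phi f n - Phi f (n + 1)) =
        -∑ n ∈ Ico k k', (Phi f (n + 1) - Phi f n) := by
      rw [← Finset.sum_neg_distrib]
      exact Finset.sum_congr rfl fun n _ => by ring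
    rw [h00, h0]
    ring
  have h2 := sq_sum_le_card_mul_sum_sq (s := Ico k k') (f := fun n => Phi f n - Phi f (n + 1))
  rw [Nat.card_Ico, Nat.cast_sub h] at h2
  rw [h1]
  refine h2.trans ?_
  have hkk : (0 : ℝ) ≤ (k' : ℝ) - k := by
    rw [sub_nonneg]
    exact_mod_cast h
  have h3 : ∑ n ∈ Ico k k', (Phi f n - Phi f (n + 1)) ^ 2 ≤ 80 * ∑ n ∈ Ico k k',
      ∑ x ∈ Ico (2 * 2 ^ n : ℤ) (6 * 2 ^ n - 1) ×ˢ Ico (0 : ℤ) (2 * 2 ^ n - 1),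
        sq4 f x.1 x.2 := by
    rw [Finset.mul_sum]
    refine Finset.sum_le_sum fun n _ => ?_
    rw [Finset.sum_product]
    exact Phi_step f n
  have h4 := pb_region (fun x => sq4 f x.1 x.2) (fun x => pb_sq4_nonneg f x.1 x.2) k k' h
  have h5 : ∑ x ∈ Ico (0 : ℤ) (3 * 2 ^ (k' - 1) - 1) ×ˢ Ico (0 : ℤ) (2 ^ (k' - 1) - 1),
      sq4 f x.1 x.2 ≤ ∑ x ∈ Ico (0 : ℤ) (3 * 2 ^ k' - 1) ×ˢ Ico (0 : ℤ) (2 ^ k' - 1),
      sq4 f x.1 x.2 := by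
    refine Finset.sum_le_sum_of_subset_of_nonneg ?_ fun x _ _ => pb_sq4_nonneg f x.1 x.2
    have hle : (2 ^ (k' - 1) : ℤ) ≤ 2 ^ k' := pow_le_pow_right₀ (by norm_num) (Nat.sub_le _ _)
    exact Finset.product_subset_product (Finset.Ico_subset_Ico le_rfl (by linarith))
      (Finset.Ico_subset_Ico le_rfl (by linarith))
  rw [Finset.sum_product (s := Ico (0 : ℤ) (3 * 2 ^ k' - 1))] at h4 h5
  have h6 : ∑ n ∈ Ico k k', (Phi f n - Phi f (n + 1)) ^ 2 ≤ 160 *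
      ∑ i ∈ Ico (0 : ℤ) (3 * 2 ^ k' - 1), ∑ j ∈ Ico (0 : ℤ) (2 ^ k' - 1), sq4 f i j := by
    linarith
  calc ((k' : ℝ) - k) * ∑ n ∈ Ico k k', (Phi f n - Phi f (n + 1)) ^ 2
      ≤ ((k' : ℝ) - k) * (160 *
        ∑ i ∈ Ico (0 : ℤ) (3 * 2 ^ k' - 1), ∑ j ∈ Ico (0 : ℤ) (2 ^ k' - 1), sq4 f i j) :=
      mul_le_mul_of_nonneg_left h6 hkk
    _ = _ := by ring

end QG
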