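import Mathlib
import Pool.Agent.Lib_helper69.QG.Defs
import Pool.Agent.Lib_helper69.QG.Field
import Pool.Agent.Lib_helper69.QG.Geo

set_option autoImplicit false

namespace QG

open MeasureTheory

theorem tb_dot_meas {A : Type} [Fintype A] (l : A → ℝ) :
    Measurable (fun a : A → ℝ => dot l a) := by
  unfold dot
  exact Finset.measurable_sum _ fun y _ => (measurable_pi_apply y).const_mul _

theorem tb_int {α : Type} [MeasurableSpace α] {μ : Measure α} [IsProbabilityMeasure μ]
    {f : α → ℝ} (hf : Measurable f) (hb : ∀ a, |f a| ≤ 1) : Integrable f μ :=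
  Integrable.of_bound hf.aestronglyMeasurable 1 (Filter.Eventually.of_forall fun a => by
    rw [Real.norm_eq_abs]; exact hb a)

theorem tb_exp {α : Type} [MeasurableSpace α] {μ : Measure α} [IsProbabilityMeasure μ]
    {f : α → ℝ} (hf : Measurable f) :
    ∫ a, Complex.exp ((f a : ℝ) * Complex.I) ∂μ =
      ((∫ a, Real.cos (f a) ∂μ : ℝ) : ℂ) + ((∫ a, Real.sin (f a) ∂μ : ℝ) : ℂ) * Complex.I := by
  have hc : Integrable (fun a => Real.cos (f a)) μ :=
    tb_int (Real.measurable_cos.comp hf) fun a => Real.abs_cos_le_one _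
  have hs : Integrable (fun a => Real.sin (f a)) μ :=
    tb_int (Real.measurable_sin.comp hf) fun a => Real.abs_sin_le_one _
  have h : ∀ a, Complex.exp ((f a : ℝ) * Complex.I) =
      ((Real.cos (f a) : ℝ) : ℂ) + ((Real.sin (f a) : ℝ) : ℂ) * Complex.I := by
    intro a
    rw [Complex.exp_mul_I, Complex.ofReal_cos, Complex.ofReal_sin]
  simp_rw [h]
  rw [integral_add hc.ofReal (hs.ofReal.mul_const _), integral_mul_const]
  have e1 : ∫ a, ((Real.cos (f a) : ℝ) : ℂ) ∂μ = ((∫ a, Real.cos (f a) ∂μ : ℝ) : ℂ) :=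
    integral_ofReal
  have e2 : ∫ a, ((Real.sin (f a) : ℝ) : ℂ) ∂μ = ((∫ a, Real.sin (f a) ∂μ : ℝ) : ℂ) :=
    integral_ofReal
  rw [e1, e2]

theorem tb_norm {α : Type} [MeasurableSpace α] {μ : Measure α} [IsProbabilityMeasure μ]
    (f : α → ℝ) : ‖∫ a, Complex.exp ((f a : ℝ) * Complex.I) ∂μ‖ ≤ 1 := by
  refine (norm_integral_le_of_norm_le_const (C := 1) (Filter.Eventually.of_forall fun a => ?_)).trans
    ?_
  · rw [Complex.norm_exp_ofReal_mul_I]
  · simp

theorem peel {A : Type} [Fintype A] {μ : Measure (A → ℝ)} [IsProbabilityMeasure μ] (M : ℕ)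
    (l : Fin M → A → ℝ) (S : Fin M → Set A) (η : ℝ)
    (hdec : ∀ i : Fin M, ∀ U : (A → ℝ) → ℝ, Measurable U → (∀ a, |U a| ≤ 1) →
      (∀ a b : A → ℝ, (∀ y ∈ S i, a y = b y) → U a = U b) →
      ∀ F : ℝ → ℝ, (∀ s, |F s| ≤ 1) → (∀ s t, |F s - F t| ≤ |s - t|) →
      |∫ a, U a * F (dot (l i) a) ∂μ - (∫ a, U a ∂μ) * ∫ a, F (dot (l i) a) ∂μ| ≤ η)
    (hsupp : ∀ i j : Fin M, i < j → ∀ y, l j y ≠ 0 → y ∈ S i) :
    ‖∫ a, Complex.exp ((∑ i, dot (l i) a : ℝ) * Complex.I) ∂μ -
      ∏ i, ∫ a, Complex.exp ((dot (l i) a : ℝ) * Complex.I) ∂μ‖ ≤ 4 * M * η := by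
  induction M with
  | zero => simp
  | succ M ih =>
    have ih' := ih (fun i => l i.succ) (fun i => S i.succ) (fun i => hdec i.succ)
      (fun i j hij => hsupp i.succ j.succ (Fin.succ_lt_succ_iff.2 hij))
    set U : (A → ℝ) → ℝ := fun a => ∑ i : Fin M, dot (l i.succ) a with hU
    set V : (A → ℝ) → ℝ := fun a => dot (l 0) a with hV
    have hUm : Measurable U := Finset.measurable_sum _ fun i _ => tb_dot_meas _
    have hVm : Measurable V := tb_dot_meas _
    have hUS : ∀ a b : A → ℝ, (∀ y ∈ S 0, a y = b y) → U a = U b := by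
      intro a b hab
      refine Finset.sum_congr rfl fun i _ => Finset.sum_congr rfl fun y _ => ?_
      by_cases hy : l i.succ y = 0
      · rw [hy, zero_mul, zero_mul]
      · rw [hab y (hsupp 0 i.succ (Fin.succ_pos i) y hy)]
    have cm : Measurable fun a => Real.cos (U a) := Real.measurable_cos.comp hUm
    have sm : Measurable fun a => Real.sin (U a) := Real.measurable_sin.comp hUm
    have cmV : Measurable fun a => Real.cos (V a) := Real.measurable_cos.comp hVm
    have smV : Measurable fun a => Real.sin (V a) := Real.measurable_sin.comp hVm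
    have lipc : ∀ s t : ℝ, |Real.cos s - Real.cos t| ≤ |s - t| := by
      intro s t
      rw [Real.cos_sub_cos]
      have h1 : |Real.sin ((s + t) / 2)| ≤ 1 := Real.abs_sin_le_one _
      have h2 : |Real.sin ((s - t) / 2)| ≤ |(s - t) / 2| := by
        have := Real.abs_sin_le_abs (x := (s - t) / 2)
        exact this
      rw [abs_mul, abs_mul, abs_neg, abs_two]
      have h3 : |(s - t) / 2| = |s - t| / 2 := by rw [abs_div, abs_two]
      rw [h3] at h2
      nlinarith [abs_nonneg (Real.sin ((s - t) / 2)), abs_nonneg (Real.sin ((s + t) / 2))]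
    have lips : ∀ s t : ℝ, |Real.sin s - Real.sin t| ≤ |s - t| := by
      intro s t
      rw [Real.sin_sub_sin]
      have h1 : |Real.cos ((s + t) / 2)| ≤ 1 := Real.abs_cos_le_one _
      have h2 : |Real.sin ((s - t) / 2)| ≤ |(s - t) / 2| := by
        have := Real.abs_sin_le_abs (x := (s - t) / 2)
        exact this
      rw [abs_mul, abs_mul, abs_two]
      have h3 : |(s - t) / 2| = |s - t| / 2 := by rw [abs_div, abs_two]
      rw [h3] at h2
      nlinarith [abs_nonneg (Real.sin ((s - t) / 2)), abs_nonneg (Real.cos ((s + t) / 2))]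
    have d1 := hdec 0 (fun a => Real.cos (U a)) cm (fun a => Real.abs_cos_le_one _)
      (fun a b hab => by rw [hUS a b hab]) Real.cos Real.abs_cos_le_one lipc
    have d2 := hdec 0 (fun a => Real.sin (U a)) sm (fun a => Real.abs_sin_le_one _)
      (fun a b hab => by rw [hUS a b hab]) Real.sin Real.abs_sin_le_one lips
    have d3 := hdec 0 (fun a => Real.cos (U a)) cm (fun a => Real.abs_cos_le_one _)
      (fun a b hab => by rw [hUS a b hab]) Real.sin Real.abs_sin_le_one lips
    have d4 := hdec 0 (fun a => Real.sin (U a)) sm (fun a => Real.abs_sin_le_one _)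
      (fun a b hab => by rw [hUS a b hab]) Real.cos Real.abs_cos_le_one lipc
    have icc : Integrable (fun a => Real.cos (U a) * Real.cos (V a)) μ :=
      tb_int (cm.mul cmV) fun a => by
        rw [abs_mul]
        exact mul_le_one₀ (Real.abs_cos_le_one _) (abs_nonneg _) (Real.abs_cos_le_one _)
    have iss : Integrable (fun a => Real.sin (U a) * Real.sin (V a)) μ :=
      tb_int (sm.mul smV) fun a => by
        rw [abs_mul]
        exact mul_le_one₀ (Real.abs_sin_le_one _) (abs_nonneg _) (Real.abs_sin_le_one _)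
    have ics : Integrable (fun a => Real.cos (U a) * Real.sin (V a)) μ :=
      tb_int (cm.mul smV) fun a => by
        rw [abs_mul]
        exact mul_le_one₀ (Real.abs_cos_le_one _) (abs_nonneg _) (Real.abs_sin_le_one _)
    have isc : Integrable (fun a => Real.sin (U a) * Real.cos (V a)) μ :=
      tb_int (sm.mul cmV) fun a => by
        rw [abs_mul]
        exact mul_le_one₀ (Real.abs_sin_le_one _) (abs_nonneg _) (Real.abs_cos_le_one _)
    have e0 : ∫ a, Complex.exp ((∑ i, dot (l i) a : ℝ) * Complex.I) ∂μ =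
        (((∫ a, Real.cos (U a) * Real.cos (V a) ∂μ) -
          ∫ a, Real.sin (U a) * Real.sin (V a) ∂μ : ℝ) : ℂ) +
        (((∫ a, Real.cos (U a) * Real.sin (V a) ∂μ) +
          ∫ a, Real.sin (U a) * Real.cos (V a) ∂μ : ℝ) : ℂ) * Complex.I := by
      have hsum : ∀ a, (∑ i, dot (l i) a : ℝ) = V a + U a := fun a => Fin.sum_univ_succ _
      simp_rw [hsum]
      have r1 : ∫ a, Real.cos (V a + U a) ∂μ = (∫ a, Real.cos (U a) * Real.cos (V a) ∂μ) -
          ∫ a, Real.sin (U a) * Real.sin (V a) ∂μ := by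
        rw [← integral_sub icc iss]
        refine integral_congr_ae (Filter.Eventually.of_forall fun a => ?_)
        simp only [Real.cos_add]
        ring
      have r2 : ∫ a, Real.sin (V a + U a) ∂μ = (∫ a, Real.cos (U a) * Real.sin (V a) ∂μ) +
          ∫ a, Real.sin (U a) * Real.cos (V a) ∂μ := by
        rw [← integral_add ics isc]
        refine integral_congr_ae (Filter.Eventually.of_forall fun a => ?_)
        simp only [Real.sin_add]
        ring
      rw [tb_exp (f := fun a => V a + U a) (hVm.add hUm), r1, r2]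
    have eU : ∫ a, Complex.exp ((∑ i : Fin M, dot (l i.succ) a : ℝ) * Complex.I) ∂μ =
        ((∫ a, Real.cos (U a) ∂μ : ℝ) : ℂ) + ((∫ a, Real.sin (U a) ∂μ : ℝ) : ℂ) * Complex.I :=
      tb_exp hUm
    have eV : ∫ a, Complex.exp ((dot (l 0) a : ℝ) * Complex.I) ∂μ =
        ((∫ a, Real.cos (V a) ∂μ : ℝ) : ℂ) + ((∫ a, Real.sin (V a) ∂μ : ℝ) : ℂ) * Complex.I :=
      tb_exp hVm
    have nV : ‖∫ a, Complex.exp ((dot (l 0) a : ℝ) * Complex.I) ∂μ‖ ≤ 1 := tb_norm _
    have step1 : ‖∫ a, Complex.exp ((∑ i, dot (l i) a : ℝ) * Complex.I) ∂μ -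
        (∫ a, Complex.exp ((dot (l 0) a : ℝ) * Complex.I) ∂μ) *
          ∫ a, Complex.exp ((∑ i : Fin M, dot (l i.succ) a : ℝ) * Complex.I) ∂μ‖ ≤ 4 * η := by
      rw [e0, eU, eV]
      set a1 := (∫ a, Real.cos (U a) * Real.cos (V a) ∂μ) -
        (∫ a, Real.cos (U a) ∂μ) * ∫ a, Real.cos (V a) ∂μ with ha1
      set a2 := (∫ a, Real.sin (U a) * Real.sin (V a) ∂μ) -
        (∫ a, Real.sin (U a) ∂μ) * ∫ a, Real.sin (V a) ∂μ with ha2
      set a3 := (∫ a, Real.cos (U a) * Real.sin (V a) ∂μ) -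
        (∫ a, Real.cos (U a) ∂μ) * ∫ a, Real.sin (V a) ∂μ with ha3
      set a4 := (∫ a, Real.sin (U a) * Real.cos (V a) ∂μ) -
        (∫ a, Real.sin (U a) ∂μ) * ∫ a, Real.cos (V a) ∂μ with ha4
      have hid : (((∫ a, Real.cos (U a) * Real.cos (V a) ∂μ) -
          ∫ a, Real.sin (U a) * Real.sin (V a) ∂μ : ℝ) : ℂ) +
        (((∫ a, Real.cos (U a) * Real.sin (V a) ∂μ) +
          ∫ a, Real.sin (U a) * Real.cos (V a) ∂μ : ℝ) : ℂ) * Complex.I -
        (((∫ a, Real.cos (V a) ∂μ : ℝ) : ℂ) + ((∫ a, Real.sin (V a) ∂μ : ℝ) : ℂ) * Complex.I) *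
        (((∫ a, Real.cos (U a) ∂μ : ℝ) : ℂ) + ((∫ a, Real.sin (U a) ∂μ : ℝ) : ℂ) * Complex.I) =
        ((a1 - a2 : ℝ) : ℂ) + ((a3 + a4 : ℝ) : ℂ) * Complex.I := by
        rw [ha1, ha2, ha3, ha4]
        push_cast
        ring_nf
        rw [Complex.I_sq]
        ring
      rw [hid]
      refine (norm_add_le _ _).trans ?_
      rw [norm_mul, Complex.norm_I, mul_one, Complex.norm_real, Complex.norm_real,
        Real.norm_eq_abs, Real.norm_eq_abs]
      have b1 := abs_sub a1 a2
      have b2 := abs_add_le a3 a4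
      linarith
    rw [Fin.prod_univ_succ]
    set X := ∫ a, Complex.exp ((∑ i, dot (l i) a : ℝ) * Complex.I) ∂μ
    set B := ∫ a, Complex.exp ((dot (l 0) a : ℝ) * Complex.I) ∂μ
    set Y := ∫ a, Complex.exp ((∑ i : Fin M, dot (l i.succ) a : ℝ) * Complex.I) ∂μ
    set P := ∏ i : Fin M, ∫ a, Complex.exp ((dot (l i.succ) a : ℝ) * Complex.I) ∂μ
    have hdecomp : X - B * P = (X - B * Y) + B * (Y - P) := by ring
    rw [hdecomp]
    refine (norm_add_le _ _).trans ?_
    rw [norm_mul]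
    have h2 : ‖B‖ * ‖Y - P‖ ≤ 1 * (4 * M * η) :=
      mul_le_mul nV ih' (norm_nonneg _) zero_le_one
    push_cast
    linarith

end QG
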