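import Mathlib
import Pool.Agent.Lib_helper69.QG.Defs
import Pool.Agent.Lib_helper69.QG.Field
import Pool.Agent.Lib_helper69.QG.Geo

set_option autoImplicit false

namespace QG

open MeasureTheory

theorem prod_sub_prod {ι : Type} (s : Finset ι) (z w : ι → ℂ) (hz : ∀ i ∈ s, ‖z i‖ ≤ 1)
    (hw : ∀ i ∈ s, ‖w i‖ ≤ 1) : ‖∏ i ∈ s, z i - ∏ i ∈ s, w i‖ ≤ ∑ i ∈ s, ‖z i - w i‖ := by
  classical
  induction s using Finset.induction_on with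
  | empty => simp
  | insert a s ha ih =>
    rw [Finset.prod_insert ha, Finset.prod_insert ha, Finset.sum_insert ha]
    have h1 := ih (fun i hi => hz i (Finset.mem_insert_of_mem hi))
      (fun i hi => hw i (Finset.mem_insert_of_mem hi))
    have h2 : ‖z a‖ ≤ 1 := hz a (Finset.mem_insert_self a s)
    have h3 : ‖∏ i ∈ s, w i‖ ≤ 1 := by
      rw [norm_prod]
      exact Finset.prod_le_one (fun i _ => norm_nonneg _)
        (fun i hi => hw i (Finset.mem_insert_of_mem hi))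
    have h4 : z a * ∏ i ∈ s, z i - w a * ∏ i ∈ s, w i
        = z a * (∏ i ∈ s, z i - ∏ i ∈ s, w i) + (z a - w a) * ∏ i ∈ s, w i := by ring
    rw [h4]
    refine le_trans (norm_add_le _ _) ?_
    rw [norm_mul, norm_mul]
    have h5 : ‖z a‖ * ‖∏ i ∈ s, z i - ∏ i ∈ s, w i‖ ≤ 1 * ‖∏ i ∈ s, z i - ∏ i ∈ s, w i‖ :=
      mul_le_mul_of_nonneg_right h2 (norm_nonneg _)
    have h6 : ‖z a - w a‖ * ‖∏ i ∈ s, w i‖ ≤ ‖z a - w a‖ * 1 :=
      mul_le_mul_of_nonneg_left h3 (norm_nonneg _)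
    linarith

/-- pointwise expansion -/
theorem ta_exp (y : ℝ) :
    ‖Complex.exp ((y : ℝ) * Complex.I) - 1 - (y : ℝ) * Complex.I + ((y ^ 2 / 2 : ℝ) : ℂ)‖
      ≤ 4 * |y| ^ 3 := by
  have hI : Complex.I ^ 2 = -1 := Complex.I_sq
  by_cases hy : |y| ≤ 1
  · have hn : ‖((y : ℝ) * Complex.I : ℂ)‖ ≤ 1 := by
      rw [norm_mul, Complex.norm_I, mul_one, Complex.norm_real, Real.norm_eq_abs]
      exact hy
    have h := Complex.exp_bound hn (n := 3) (by norm_num)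
    have h1 : Complex.exp ((y : ℝ) * Complex.I) - 1 - (y : ℝ) * Complex.I + ((y ^ 2 / 2 : ℝ) : ℂ)
        = Complex.exp ((y : ℝ) * Complex.I) -
          ∑ m ∈ Finset.range 3, ((y : ℝ) * Complex.I : ℂ) ^ m / (m.factorial : ℂ) := by
      simp only [Finset.sum_range_succ, Finset.sum_range_zero, Nat.factorial, pow_zero, pow_one,
        mul_pow, hI]
      push_cast
      ring
    rw [h1]
    refine le_trans h ?_
    rw [norm_mul, Complex.norm_I, mul_one, Complex.norm_real, Real.norm_eq_abs]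
    have h2 : ((Nat.succ 3 : ℕ) : ℝ) * ((Nat.factorial 3 : ℕ) * (3 : ℕ) : ℝ)⁻¹ ≤ 4 := by
      norm_num [Nat.factorial]
    have h3 : 0 ≤ |y| ^ 3 := by positivity
    calc |y| ^ 3 * (((Nat.succ 3 : ℕ) : ℝ) * ((Nat.factorial 3 : ℕ) * (3 : ℕ) : ℝ)⁻¹)
        ≤ |y| ^ 3 * 4 := mul_le_mul_of_nonneg_left h2 h3
      _ = 4 * |y| ^ 3 := by ring
  · push Not at hy
    have h1 : ‖Complex.exp ((y : ℝ) * Complex.I)‖ = 1 := Complex.norm_exp_ofReal_mul_I y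
    have h2 : ‖((y : ℝ) * Complex.I : ℂ)‖ = |y| := by
      rw [norm_mul, Complex.norm_I, mul_one, Complex.norm_real, Real.norm_eq_abs]
    have h3 : ‖((y ^ 2 / 2 : ℝ) : ℂ)‖ = |y| ^ 2 / 2 := by
      rw [Complex.norm_real, Real.norm_eq_abs, abs_of_nonneg (by positivity), sq_abs]
    have h4 : ‖Complex.exp ((y : ℝ) * Complex.I) - 1 - (y : ℝ) * Complex.I + ((y ^ 2 / 2 : ℝ) : ℂ)‖
        ≤ 1 + 1 + |y| + |y| ^ 2 / 2 := by
      refine le_trans (norm_add_le _ _) ?_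
      rw [h3]
      refine add_le_add ?_ le_rfl
      refine le_trans (norm_sub_le _ _) ?_
      rw [h2]
      refine add_le_add ?_ le_rfl
      refine le_trans (norm_sub_le _ _) ?_
      rw [h1, norm_one]
    refine le_trans h4 ?_
    have h5 : 1 ≤ |y| ^ 2 := by nlinarith
    nlinarith [abs_nonneg y]

section
variable {Ω : Type} [MeasurableSpace Ω] {μ : Measure Ω} [IsProbabilityMeasure μ] {Y : Ω → ℝ}

theorem ta_int2 (hY : Measurable Y) (h4 : Integrable (fun ω => Y ω ^ 4) μ) :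
    Integrable (fun ω => Y ω ^ 2) μ := by
  refine Integrable.mono' ((integrable_const (1 : ℝ)).add h4) (hY.pow_const 2).aestronglyMeasurable ?_
  refine Filter.Eventually.of_forall fun ω => ?_
  rw [Real.norm_eq_abs, abs_of_nonneg (sq_nonneg _)]
  show Y ω ^ 2 ≤ 1 + Y ω ^ 4
  nlinarith [sq_nonneg (Y ω ^ 2 - 1), sq_nonneg (Y ω)]

theorem ta_int3 (hY : Measurable Y) (h4 : Integrable (fun ω => Y ω ^ 4) μ) :
    Integrable (fun ω => |Y ω| ^ 3) μ := by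
  refine Integrable.mono' ((integrable_const (1 : ℝ)).add h4)
    (hY.abs.pow_const 3).aestronglyMeasurable ?_
  refine Filter.Eventually.of_forall fun ω => ?_
  have h0 := abs_nonneg (Y ω)
  rw [Real.norm_eq_abs, abs_of_nonneg (by positivity)]
  show |Y ω| ^ 3 ≤ 1 + Y ω ^ 4
  have h1 : Y ω ^ 4 = |Y ω| ^ 4 := by
    rw [show (4 : ℕ) = 2 * 2 from rfl, pow_mul, pow_mul, sq_abs]
  rw [h1]
  rcases le_total |Y ω| 1 with h | h
  · have h2 : |Y ω| ^ 3 ≤ 1 := pow_le_one₀ h0 h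
    have h3 : 0 ≤ |Y ω| ^ 4 := by positivity
    linarith
  · have h2 : |Y ω| ^ 3 ≤ |Y ω| ^ 4 := pow_le_pow_right₀ h (by norm_num)
    linarith

theorem ta_int1 (hY : Measurable Y) (h4 : Integrable (fun ω => Y ω ^ 4) μ) :
    Integrable Y μ := by
  refine Integrable.mono' ((integrable_const (1 : ℝ)).add (ta_int2 hY h4)) hY.aestronglyMeasurable ?_
  refine Filter.Eventually.of_forall fun ω => ?_
  rw [Real.norm_eq_abs]
  show |Y ω| ≤ 1 + Y ω ^ 2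
  have h1 : Y ω ^ 2 = |Y ω| ^ 2 := (sq_abs _).symm
  rw [h1]
  nlinarith [sq_nonneg (|Y ω| - 1), abs_nonneg (Y ω)]

theorem ta_cs (hY : Measurable Y) (h4 : Integrable (fun ω => Y ω ^ 4) μ) :
    ∫ ω, |Y ω| ^ 3 ∂μ ≤ Real.sqrt ((∫ ω, Y ω ^ 2 ∂μ) * ∫ ω, Y ω ^ 4 ∂μ) := by
  have h2 := ta_int2 hY h4
  have h3 := ta_int3 hY h4
  have hdis : discrim (∫ ω, Y ω ^ 2 ∂μ) (2 * ∫ ω, |Y ω| ^ 3 ∂μ) (∫ ω, Y ω ^ 4 ∂μ) ≤ 0 := by
    refine discrim_le_zero fun x => ?_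
    have h5 : (∫ ω, Y ω ^ 2 ∂μ) * (x * x) + 2 * (∫ ω, |Y ω| ^ 3 ∂μ) * x + ∫ ω, Y ω ^ 4 ∂μ
        = ∫ ω, (x * |Y ω| + Y ω ^ 2) ^ 2 ∂μ := by
      have h6 : ∀ ω, (x * |Y ω| + Y ω ^ 2) ^ 2
          = (x * x) * Y ω ^ 2 + (2 * x) * |Y ω| ^ 3 + Y ω ^ 4 := by
        intro ω
        have h7 : |Y ω| ^ 2 = Y ω ^ 2 := sq_abs _
        have h8 : |Y ω| ^ 3 = |Y ω| * Y ω ^ 2 := by
          rw [← h7]; ring
        rw [h8]
        linear_combination (x ^ 2) * h7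
      have e1 : ∫ ω, ((x * x) * Y ω ^ 2 + (2 * x) * |Y ω| ^ 3 + Y ω ^ 4) ∂μ
          = ∫ ω, ((x * x) * Y ω ^ 2 + (2 * x) * |Y ω| ^ 3) ∂μ + ∫ ω, Y ω ^ 4 ∂μ :=
        integral_add (show Integrable (fun ω => (x * x) * Y ω ^ 2 + (2 * x) * |Y ω| ^ 3) μ from
          (h2.const_mul _).add (h3.const_mul _)) h4
      have e2 : ∫ ω, ((x * x) * Y ω ^ 2 + (2 * x) * |Y ω| ^ 3) ∂μ
          = ∫ ω, (x * x) * Y ω ^ 2 ∂μ + ∫ ω, (2 * x) * |Y ω| ^ 3 ∂μ :=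
        integral_add (h2.const_mul _) (h3.const_mul _)
      simp only [h6]
      rw [e1, e2, integral_const_mul, integral_const_mul]
      ring
    rw [h5]
    exact integral_nonneg fun ω => sq_nonneg _
  rw [discrim] at hdis
  refine Real.le_sqrt_of_sq_le ?_
  nlinarith

/-- second order expansion of a characteristic function -/
theorem ta_taylor (hY : Measurable Y) (h4 : Integrable (fun ω => Y ω ^ 4) μ)
    (h0 : ∫ ω, Y ω ∂μ = 0) (t : ℝ) :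
    ‖∫ ω, Complex.exp ((t * Y ω : ℝ) * Complex.I) ∂μ - (1 - t ^ 2 * (∫ ω, Y ω ^ 2 ∂μ) / 2 : ℝ)‖ ≤
      4 * |t| ^ 3 * Real.sqrt ((∫ ω, Y ω ^ 2 ∂μ) * ∫ ω, Y ω ^ 4 ∂μ) := by
  have hint1 := ta_int1 hY h4
  have hint2 := ta_int2 hY h4
  have hint3 := ta_int3 hY h4
  have hmexp : Measurable (fun ω => Complex.exp ((t * Y ω : ℝ) * Complex.I)) := by
    refine Complex.measurable_exp.comp ?_
    exact (Complex.measurable_ofReal.comp (hY.const_mul t)).mul_const _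
  have hexp : Integrable (fun ω => Complex.exp ((t * Y ω : ℝ) * Complex.I)) μ := by
    refine Integrable.mono' (integrable_const (1 : ℝ)) hmexp.aestronglyMeasurable ?_
    refine Filter.Eventually.of_forall fun ω => ?_
    rw [Complex.norm_exp_ofReal_mul_I]
  have hYI : Integrable (fun ω => ((t * Y ω : ℝ) : ℂ) * Complex.I) μ :=
    ((hint1.const_mul t).ofReal).mul_const _
  have hfun : (fun ω => (t * Y ω) ^ 2 / 2) = fun ω => (t ^ 2 / 2) * Y ω ^ 2 := by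
    funext ω; ring
  have hY2' : Integrable (fun ω => (t * Y ω) ^ 2 / 2) μ := by
    rw [hfun]
    exact hint2.const_mul _
  have hY2 : Integrable (fun ω => (((t * Y ω) ^ 2 / 2 : ℝ) : ℂ)) μ := hY2'.ofReal
  have hA : ∫ ω, ((t * Y ω : ℝ) : ℂ) * Complex.I ∂μ = 0 := by
    have e1 : ∫ ω, ((t * Y ω : ℝ) : ℂ) ∂μ = ((∫ ω, t * Y ω ∂μ : ℝ) : ℂ) := integral_complex_ofReal
    rw [integral_mul_const, e1, integral_const_mul, h0]
    simp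
  have hB : ∫ ω, (((t * Y ω) ^ 2 / 2 : ℝ) : ℂ) ∂μ = ((t ^ 2 * (∫ ω, Y ω ^ 2 ∂μ) / 2 : ℝ) : ℂ) := by
    have e1 : ∫ ω, (((t * Y ω) ^ 2 / 2 : ℝ) : ℂ) ∂μ = ((∫ ω, (t * Y ω) ^ 2 / 2 ∂μ : ℝ) : ℂ) :=
      integral_complex_ofReal
    rw [e1, hfun, integral_const_mul]
    congr 1
    ring
  have hmain : ∫ ω, Complex.exp ((t * Y ω : ℝ) * Complex.I) ∂μ
      - ((1 - t ^ 2 * (∫ ω, Y ω ^ 2 ∂μ) / 2 : ℝ) : ℂ)
      = ∫ ω, (Complex.exp ((t * Y ω : ℝ) * Complex.I) - 1 - ((t * Y ω : ℝ) : ℂ) * Complex.I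
        + (((t * Y ω) ^ 2 / 2 : ℝ) : ℂ)) ∂μ := by
    have hone : Integrable (fun _ : Ω => (1 : ℂ)) μ := integrable_const _
    have e1 : ∫ ω, (Complex.exp ((t * Y ω : ℝ) * Complex.I) - 1 - ((t * Y ω : ℝ) : ℂ) * Complex.I
        + (((t * Y ω) ^ 2 / 2 : ℝ) : ℂ)) ∂μ
        = ∫ ω, (Complex.exp ((t * Y ω : ℝ) * Complex.I) - 1 - ((t * Y ω : ℝ) : ℂ) * Complex.I) ∂μ
          + ∫ ω, (((t * Y ω) ^ 2 / 2 : ℝ) : ℂ) ∂μ :=
      integral_add (show Integrable (fun ω => Complex.exp ((t * Y ω : ℝ) * Complex.I) - 1 -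
        ((t * Y ω : ℝ) : ℂ) * Complex.I) μ from (hexp.sub hone).sub hYI) hY2
    have e2 : ∫ ω, (Complex.exp ((t * Y ω : ℝ) * Complex.I) - 1 - ((t * Y ω : ℝ) : ℂ) * Complex.I) ∂μ
        = ∫ ω, (Complex.exp ((t * Y ω : ℝ) * Complex.I) - 1) ∂μ
          - ∫ ω, ((t * Y ω : ℝ) : ℂ) * Complex.I ∂μ :=
      integral_sub (show Integrable (fun ω => Complex.exp ((t * Y ω : ℝ) * Complex.I) - 1) μ from
        hexp.sub hone) hYI
    have e3 : ∫ ω, (Complex.exp ((t * Y ω : ℝ) * Complex.I) - 1) ∂μ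
        = ∫ ω, Complex.exp ((t * Y ω : ℝ) * Complex.I) ∂μ - ∫ _ω, (1 : ℂ) ∂μ :=
      integral_sub hexp hone
    rw [e1, e2, e3, hA, hB]
    simp
    ring
  rw [hmain]
  refine le_trans (norm_integral_le_integral_norm _) ?_
  have hle : ∫ ω, ‖Complex.exp ((t * Y ω : ℝ) * Complex.I) - 1 - ((t * Y ω : ℝ) : ℂ) * Complex.I
        + (((t * Y ω) ^ 2 / 2 : ℝ) : ℂ)‖ ∂μ ≤ ∫ ω, (4 * |t| ^ 3) * |Y ω| ^ 3 ∂μ := by
    refine integral_mono_of_nonneg (Filter.Eventually.of_forall fun ω => norm_nonneg _)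
      (hint3.const_mul _) (Filter.Eventually.of_forall fun ω => ?_)
    have h := ta_exp (t * Y ω)
    have h7 : 4 * |t * Y ω| ^ 3 = (4 * |t| ^ 3) * |Y ω| ^ 3 := by
      rw [abs_mul]; ring
    rw [h7] at h
    exact h
  refine le_trans hle ?_
  rw [integral_const_mul]
  exact mul_le_mul_of_nonneg_left (ta_cs hY h4) (by positivity)

end

/-- second order expansion of a characteristic function -/
theorem char_taylor {Ω : Type} [MeasurableSpace Ω] {μ : Measure Ω} [IsProbabilityMeasure μ]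
    {Y : Ω → ℝ} (hY : Measurable Y) (h4 : Integrable (fun ω => Y ω ^ 4) μ)
    (h0 : ∫ ω, Y ω ∂μ = 0) (t : ℝ) :
    ‖∫ ω, Complex.exp ((t * Y ω : ℝ) * Complex.I) ∂μ - (1 - t ^ 2 * (∫ ω, Y ω ^ 2 ∂μ) / 2 : ℝ)‖ ≤
      4 * |t| ^ 3 * Real.sqrt ((∫ ω, Y ω ^ 2 ∂μ) * ∫ ω, Y ω ^ 4 ∂μ) :=
  ta_taylor hY h4 h0 t

theorem ta_real (s : ℝ) (hs : 0 ≤ s) : |(1 - s) - Real.exp (-s)| ≤ s ^ 2 := by
  have h1 : -s + 1 ≤ Real.exp (-s) := Real.add_one_le_exp (-s)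
  have h2 : s + 1 ≤ Real.exp s := Real.add_one_le_exp s
  have h3 : Real.exp (-s) * (s + 1) ≤ 1 := by
    have h4 : Real.exp (-s) * Real.exp s = 1 := by
      rw [← Real.exp_add]; simp
    calc Real.exp (-s) * (s + 1) ≤ Real.exp (-s) * Real.exp s :=
          mul_le_mul_of_nonneg_left h2 (Real.exp_pos _).le
      _ = 1 := h4
  have h5 : Real.exp (-s) ≤ 1 - s + s ^ 2 := by
    have h6 : 1 ≤ (1 - s + s ^ 2) * (s + 1) := by
      have h7 : (1 - s + s ^ 2) * (s + 1) = 1 + s ^ 3 := by ring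
      have h8 : 0 ≤ s ^ 3 := by positivity
      linarith
    have h9 : Real.exp (-s) * (s + 1) ≤ (1 - s + s ^ 2) * (s + 1) := le_trans h3 h6
    exact le_of_mul_le_mul_right h9 (by linarith)
  rw [abs_le]
  constructor <;> nlinarith

/-- comparison with the Gaussian -/
theorem char_gauss {Ω : Type} [MeasurableSpace Ω] {μ : Measure Ω} [IsProbabilityMeasure μ]
    {Y : Ω → ℝ} (hY : Measurable Y) (h4 : Integrable (fun ω => Y ω ^ 4) μ)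
    (h0 : ∫ ω, Y ω ∂μ = 0) (t : ℝ) :
    ‖∫ ω, Complex.exp ((t * Y ω : ℝ) * Complex.I) ∂μ -
        (Real.exp (-(t ^ 2 * (∫ ω, Y ω ^ 2 ∂μ) / 2)) : ℝ)‖ ≤
      4 * |t| ^ 3 * Real.sqrt ((∫ ω, Y ω ^ 2 ∂μ) * ∫ ω, Y ω ^ 4 ∂μ) +
        t ^ 4 * (∫ ω, Y ω ^ 2 ∂μ) ^ 2 := by
  have hA : 0 ≤ ∫ ω, Y ω ^ 2 ∂μ := integral_nonneg fun ω => sq_nonneg _
  have h1 := char_taylor hY h4 h0 t
  have h2 := ta_real (t ^ 2 * (∫ ω, Y ω ^ 2 ∂μ) / 2) (by positivity)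
  have h3 : ‖(((1 - t ^ 2 * (∫ ω, Y ω ^ 2 ∂μ) / 2 : ℝ) : ℂ)
      - ((Real.exp (-(t ^ 2 * (∫ ω, Y ω ^ 2 ∂μ) / 2)) : ℝ) : ℂ))‖
      ≤ t ^ 4 * (∫ ω, Y ω ^ 2 ∂μ) ^ 2 := by
    rw [← Complex.ofReal_sub, Complex.norm_real, Real.norm_eq_abs]
    refine le_trans h2 ?_
    have h5 : (t ^ 2 * (∫ ω, Y ω ^ 2 ∂μ) / 2) ^ 2 = (t ^ 4 * (∫ ω, Y ω ^ 2 ∂μ) ^ 2) / 4 := by ring
    have h6 : 0 ≤ t ^ 4 * (∫ ω, Y ω ^ 2 ∂μ) ^ 2 := by positivity
    rw [h5]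
    linarith
  calc ‖∫ ω, Complex.exp ((t * Y ω : ℝ) * Complex.I) ∂μ -
        ((Real.exp (-(t ^ 2 * (∫ ω, Y ω ^ 2 ∂μ) / 2)) : ℝ) : ℂ)‖
      = ‖(∫ ω, Complex.exp ((t * Y ω : ℝ) * Complex.I) ∂μ
          - ((1 - t ^ 2 * (∫ ω, Y ω ^ 2 ∂μ) / 2 : ℝ) : ℂ))
        + (((1 - t ^ 2 * (∫ ω, Y ω ^ 2 ∂μ) / 2 : ℝ) : ℂ)
          - ((Real.exp (-(t ^ 2 * (∫ ω, Y ω ^ 2 ∂μ) / 2)) : ℝ) : ℂ))‖ := by
        congr 1
        ring
    _ ≤ _ := le_trans (norm_add_le _ _) (add_le_add h1 h3)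

end QG
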