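import Mathlib
import Pool.Agent.Lib_helper69.QG.Defs
import Pool.Agent.Lib_helper69.QG.Field
import Pool.Agent.Lib_helper69.QG.Geo
import Pool.Agent.Lib_helper69.QG.W.ta

set_option autoImplicit false

namespace QG

open MeasureTheory

theorem tc_lip (a b : ℝ) : ‖Complex.exp ((a : ℝ) * Complex.I) - Complex.exp ((b : ℝ) * Complex.I)‖ ≤
    |a - b| := by
  have h1 : Complex.exp ((a : ℝ) * Complex.I) - Complex.exp ((b : ℝ) * Complex.I) =
      Complex.exp ((b : ℝ) * Complex.I) * (Complex.exp (Complex.I * ((a - b : ℝ) : ℂ)) - 1) := by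
    rw [mul_sub, ← Complex.exp_add, mul_one]
    congr 2
    push_cast
    ring
  rw [h1, norm_mul, Complex.norm_exp_ofReal_mul_I, one_mul]
  exact Real.norm_exp_I_mul_ofReal_sub_one_le

theorem tc_meas {Ω : Type} [MeasurableSpace Ω] {Y : Ω → ℝ} (hY : Measurable Y) :
    Measurable fun ω => Complex.exp ((Y ω : ℝ) * Complex.I) := by
  fun_prop

theorem tc_int {Ω : Type} [MeasurableSpace Ω] {μ : Measure Ω} [IsProbabilityMeasure μ] {Y : Ω → ℝ}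
    (hY : Measurable Y) : Integrable (fun ω => Complex.exp ((Y ω : ℝ) * Complex.I)) μ := by
  refine Integrable.of_bound (tc_meas hY).aestronglyMeasurable 1 ?_
  refine Filter.Eventually.of_forall fun ω => ?_
  rw [Complex.norm_exp_ofReal_mul_I]

theorem tc_l1 {Ω : Type} [MeasurableSpace Ω] {μ : Measure Ω} [IsProbabilityMeasure μ] {Y : Ω → ℝ}
    (hY : MemLp Y 2 μ) : ∫ ω, |Y ω| ∂μ ≤ Real.sqrt (∫ ω, Y ω ^ 2 ∂μ) := by
  apply Real.le_sqrt_of_sq_le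
  have hint : Integrable (fun ω => |Y ω|) μ := (hY.integrable one_le_two).abs
  have hsq : Integrable (fun ω => Y ω ^ 2) μ := hY.integrable_sq
  set c := ∫ ω, |Y ω| ∂μ with hc
  have h0 : 0 ≤ ∫ ω, (|Y ω| - c) ^ 2 ∂μ := integral_nonneg fun ω => sq_nonneg _
  have h1 : ∫ ω, (|Y ω| - c) ^ 2 ∂μ = ∫ ω, Y ω ^ 2 ∂μ - 2 * c * c + c ^ 2 := by
    have e : ∀ ω, (|Y ω| - c) ^ 2 = Y ω ^ 2 - 2 * c * |Y ω| + c ^ 2 := by
      intro ω
      have := sq_abs (Y ω)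
      nlinarith
    simp only [e]
    have J : Integrable (fun ω => Y ω ^ 2 - 2 * c * |Y ω|) μ := hsq.sub (hint.const_mul (2 * c))
    rw [integral_add J (integrable_const _),
      integral_sub hsq (hint.const_mul (2 * c)), integral_const_mul, ← hc]
    simp
  rw [h1] at h0
  nlinarith

theorem tc_memLp {Ω : Type} [MeasurableSpace Ω] {μ : Measure Ω} [IsProbabilityMeasure μ] {Y : Ω → ℝ}
    (hY : Measurable Y) (h4 : Integrable (fun ω => Y ω ^ 4) μ) : MemLp Y 2 μ := by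
  rw [memLp_two_iff_integrable_sq hY.aestronglyMeasurable]
  refine Integrable.mono' ((integrable_const (1 : ℝ)).add h4) (by fun_prop) ?_
  refine Filter.Eventually.of_forall fun ω => ?_
  rw [Real.norm_eq_abs, abs_of_nonneg (sq_nonneg _)]
  show Y ω ^ 2 ≤ 1 + Y ω ^ 4
  nlinarith [sq_nonneg (Y ω ^ 2 - 1), sq_nonneg (Y ω)]

/-- comparison of a characteristic function with that of a Gaussian -/
theorem clt_compare {Ω : Type} [MeasurableSpace Ω] {μ : Measure Ω} [IsProbabilityMeasure μ]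
    {X : Ω → ℝ} {M : ℕ} {D : Fin M → Ω → ℝ} (hX : Measurable X) (hD : ∀ i, Measurable (D i))
    (hX4 : Integrable (fun ω => X ω ^ 4) μ) (hD4 : ∀ i, Integrable (fun ω => D i ω ^ 4) μ)
    (h0 : ∀ i, ∫ ω, D i ω ∂μ = 0) {v2 v4 r ε : ℝ} (h2 : ∀ i, ∫ ω, D i ω ^ 2 ∂μ ≤ v2)
    (h4 : ∀ i, ∫ ω, D i ω ^ 4 ∂μ ≤ v4) (hr : ∫ ω, (X ω - ∑ i, D i ω) ^ 2 ∂μ ≤ r) (t : ℝ)
    (hε : ‖∫ ω, Complex.exp ((t * ∑ i, D i ω : ℝ) * Complex.I) ∂μ -
      ∏ i, ∫ ω, Complex.exp ((t * D i ω : ℝ) * Complex.I) ∂μ‖ ≤ ε) :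
    ‖∫ ω, Complex.exp ((t * X ω : ℝ) * Complex.I) ∂μ -
        (Real.exp (-(t ^ 2 * (∑ i, ∫ ω, D i ω ^ 2 ∂μ) / 2)) : ℝ)‖ ≤
      |t| * Real.sqrt r + ε + M * (4 * |t| ^ 3 * Real.sqrt (v2 * v4) + t ^ 4 * v2 ^ 2) := by
  have hS : Measurable fun ω => ∑ i, D i ω := Finset.measurable_sum _ fun i _ => hD i
  have hXL := tc_memLp hX hX4
  have hSL : MemLp (fun ω => ∑ i, D i ω) 2 μ :=
    memLp_finsetSum _ fun i _ => tc_memLp (hD i) (hD4 i)
  have hYL : MemLp (fun ω => X ω - ∑ i, D i ω) 2 μ := hXL.sub hSL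
  -- step 1
  have s1 : ‖∫ ω, Complex.exp ((t * X ω : ℝ) * Complex.I) ∂μ -
      ∫ ω, Complex.exp ((t * ∑ i, D i ω : ℝ) * Complex.I) ∂μ‖ ≤ |t| * Real.sqrt r := by
    rw [← integral_sub (tc_int (hX.const_mul t)) (tc_int (hS.const_mul t))]
    refine (norm_integral_le_integral_norm _).trans ?_
    have hm : ∫ ω, ‖Complex.exp ((t * X ω : ℝ) * Complex.I) -
        Complex.exp ((t * ∑ i, D i ω : ℝ) * Complex.I)‖ ∂μ ≤ ∫ ω, |t| * |X ω - ∑ i, D i ω| ∂μ := by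
      refine integral_mono ((tc_int (hX.const_mul t)).sub (tc_int (hS.const_mul t))).norm
        ((hYL.integrable one_le_two).abs.const_mul |t|) fun ω => ?_
      refine (tc_lip _ _).trans ?_
      rw [← mul_sub, abs_mul]
    refine hm.trans ?_
    rw [integral_const_mul]
    exact mul_le_mul_of_nonneg_left ((tc_l1 hYL).trans (Real.sqrt_le_sqrt hr)) (abs_nonneg t)
  -- step 3
  have hprod : ((Real.exp (-(t ^ 2 * (∑ i, ∫ ω, D i ω ^ 2 ∂μ) / 2)) : ℝ) : ℂ) =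
      ∏ i, ((Real.exp (-(t ^ 2 * (∫ ω, D i ω ^ 2 ∂μ) / 2)) : ℝ) : ℂ) := by
    rw [← Complex.ofReal_prod, ← Real.exp_sum]
    congr 2
    rw [Finset.mul_sum, Finset.sum_div, ← Finset.sum_neg_distrib]
  have s3 : ‖∏ i, ∫ ω, Complex.exp ((t * D i ω : ℝ) * Complex.I) ∂μ -
      (Real.exp (-(t ^ 2 * (∑ i, ∫ ω, D i ω ^ 2 ∂μ) / 2)) : ℝ)‖ ≤
      M * (4 * |t| ^ 3 * Real.sqrt (v2 * v4) + t ^ 4 * v2 ^ 2) := by
    rw [hprod]
    refine (prod_sub_prod Finset.univ _ _ (fun i _ => ?_) (fun i _ => ?_)).trans ?_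
    · refine (norm_integral_le_integral_norm _).trans ?_
      have h1 : (fun ω => ‖Complex.exp ((t * D i ω : ℝ) * Complex.I)‖) = fun _ => (1 : ℝ) :=
        funext fun ω => Complex.norm_exp_ofReal_mul_I _
      rw [h1]
      simp
    · rw [Complex.norm_real, Real.norm_eq_abs, abs_of_pos (Real.exp_pos _)]
      apply Real.exp_le_one_iff.mpr
      have : 0 ≤ ∫ ω, D i ω ^ 2 ∂μ := integral_nonneg fun ω => sq_nonneg _
      have : 0 ≤ t ^ 2 * (∫ ω, D i ω ^ 2 ∂μ) / 2 := by positivity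
      linarith
    · have hb : ∀ i ∈ (Finset.univ : Finset (Fin M)),
          ‖∫ ω, Complex.exp ((t * D i ω : ℝ) * Complex.I) ∂μ -
            ((Real.exp (-(t ^ 2 * (∫ ω, D i ω ^ 2 ∂μ) / 2)) : ℝ) : ℂ)‖ ≤
          4 * |t| ^ 3 * Real.sqrt (v2 * v4) + t ^ 4 * v2 ^ 2 := by
        intro i _
        refine (char_gauss (hD i) (hD4 i) (h0 i) t).trans ?_
        have n2 : 0 ≤ ∫ ω, D i ω ^ 2 ∂μ := integral_nonneg fun ω => sq_nonneg _
        have n4 : 0 ≤ ∫ ω, D i ω ^ 4 ∂μ := integral_nonneg fun ω => by positivity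
        have a1 : Real.sqrt ((∫ ω, D i ω ^ 2 ∂μ) * ∫ ω, D i ω ^ 4 ∂μ) ≤ Real.sqrt (v2 * v4) :=
          Real.sqrt_le_sqrt (mul_le_mul (h2 i) (h4 i) n4 (n2.trans (h2 i)))
        have a2 : (∫ ω, D i ω ^ 2 ∂μ) ^ 2 ≤ v2 ^ 2 := pow_le_pow_left₀ n2 (h2 i) 2
        have a3 : 0 ≤ 4 * |t| ^ 3 := by positivity
        have a4 : 0 ≤ t ^ 4 := by positivity
        exact add_le_add (mul_le_mul_of_nonneg_left a1 a3) (mul_le_mul_of_nonneg_left a2 a4)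
      refine (Finset.sum_le_sum hb).trans ?_
      rw [Finset.sum_const, Finset.card_univ, Fintype.card_fin, nsmul_eq_mul]
  -- together
  have key := norm_sub_le_norm_sub_add_norm_sub
    (∫ ω, Complex.exp ((t * X ω : ℝ) * Complex.I) ∂μ)
    (∫ ω, Complex.exp ((t * ∑ i, D i ω : ℝ) * Complex.I) ∂μ)
    ((Real.exp (-(t ^ 2 * (∑ i, ∫ ω, D i ω ^ 2 ∂μ) / 2)) : ℝ) : ℂ)
  have key2 := norm_sub_le_norm_sub_add_norm_sub
    (∫ ω, Complex.exp ((t * ∑ i, D i ω : ℝ) * Complex.I) ∂μ)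
    (∏ i, ∫ ω, Complex.exp ((t * D i ω : ℝ) * Complex.I) ∂μ)
    ((Real.exp (-(t ^ 2 * (∑ i, ∫ ω, D i ω ^ 2 ∂μ) / 2)) : ℝ) : ℂ)
  linarith

end QG
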