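import Mathlib
import Pool.Agent.Lib_helper69.QG.Defs
import Pool.Agent.Lib_helper69.QG.Field
import Pool.Agent.Lib_helper69.QG.Geo
import Pool.Agent.Lib_helper69.QG.W.ta
import Pool.Agent.Lib_helper69.QG.W.tc

set_option autoImplicit false

namespace QG

open MeasureTheory

theorem td_exp1 {x : ℝ} (hx : 0 ≤ x) : |Real.exp (-x) - (1 - x)| ≤ x ^ 2 := by
  have h0 : 0 ≤ Real.exp (-x) - (1 - x) := by
    have := Real.add_one_le_exp (-x)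
    linarith
  rw [abs_of_nonneg h0]
  rcases le_or_gt x 1 with h | h
  · have h1 := Real.abs_exp_sub_one_sub_id_le (x := -x) (by rw [abs_neg, abs_of_nonneg hx]; exact h)
    have h2 := (abs_le.1 h1).2
    nlinarith
  · have h1 : Real.exp (-x) ≤ 1 := Real.exp_le_one_iff.2 (by linarith)
    nlinarith

theorem td_exp2 {a b : ℝ} (ha : 0 ≤ a) (hb : 0 ≤ b) :
    |Real.exp (-a) - Real.exp (-b)| ≤ |a - b| := by
  have key : ∀ a b : ℝ, 0 ≤ a → a ≤ b → |Real.exp (-a) - Real.exp (-b)| ≤ b - a := by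
    intro a b ha hab
    have h0 : Real.exp (-b) ≤ Real.exp (-a) := Real.exp_le_exp.2 (by linarith)
    rw [abs_of_nonneg (by linarith)]
    have h1 : Real.exp (-b) = Real.exp (-a) * Real.exp (-(b - a)) := by
      rw [← Real.exp_add]; congr 1; ring
    have h2 := Real.add_one_le_exp (-(b - a))
    have h3 : Real.exp (-a) ≤ 1 := Real.exp_le_one_iff.2 (by linarith)
    have h4 := Real.exp_pos (-a)
    rw [h1]
    nlinarith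
  rcases le_total a b with h | h
  · rw [abs_sub_comm a b, abs_of_nonneg (by linarith : 0 ≤ b - a)]
    exact key a b ha h
  · rw [abs_sub_comm, abs_of_nonneg (by linarith : 0 ≤ a - b)]
    exact key b a hb h

/-- the numerical part of the error -/
theorem td_num {C T sk sj s2C t k j : ℝ} (hC : 1 ≤ C) (hT0 : 0 < T) (hsk0 : 0 < sk)
    (hsj1 : 1 ≤ sj) (hsk2 : sk ^ 2 = k) (hsj2 : sj ^ 2 = j) (hs2C0 : 0 ≤ s2C)
    (hs2C2 : s2C ^ 2 = 2 * C) (hkj : j ^ 3 ≤ k) (ht : |t| ≤ T / sk) :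
    |t| * Real.sqrt (C * (k / j ^ 3 + j ^ 2)) + 1 / j + 2 * j * (4 * |t| ^ 3 *
      Real.sqrt (C * (k / j) * (C * (k / j) ^ 2)) + t ^ 4 * (C * (k / j)) ^ 2) ≤
      (T * s2C + 1 + 8 * T ^ 3 * C + 2 * T ^ 4 * C ^ 2) / sj := by
  have hC0 : 0 < C := by linarith
  have hsj0 : 0 < sj := by linarith
  have hj0 : 0 < j := by rw [← hsj2]; positivity
  have hk0 : 0 < k := by rw [← hsk2]; positivity
  have hj1 : 1 ≤ j := by rw [← hsj2]; nlinarith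
  have hTs : 0 ≤ T / sk := by positivity
  have e1 : |t| * Real.sqrt (C * (k / j ^ 3 + j ^ 2)) ≤ T * s2C / sj := by
    have h1 : Real.sqrt (C * (k / j ^ 3 + j ^ 2)) ≤ s2C * sk / sj := by
      refine Real.sqrt_le_iff.2 ⟨by positivity, ?_⟩
      have h2 : (s2C * sk / sj) ^ 2 = 2 * C * (k / j) := by
        rw [div_pow, mul_pow, hs2C2, hsk2, hsj2]; ring
      rw [h2]
      have h3 : k / j ^ 3 ≤ k / j := by
        refine div_le_div_of_nonneg_left hk0.le hj0 ?_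
        calc j = j ^ 1 := (pow_one j).symm
          _ ≤ j ^ 3 := pow_le_pow_right₀ hj1 (by norm_num)
      have h4 : j ^ 2 ≤ k / j := by
        rw [le_div_iff₀ hj0]
        calc j ^ 2 * j = j ^ 3 := by ring
          _ ≤ k := hkj
      nlinarith
    calc |t| * Real.sqrt (C * (k / j ^ 3 + j ^ 2))
        ≤ (T / sk) * (s2C * sk / sj) := mul_le_mul ht h1 (Real.sqrt_nonneg _) hTs
      _ = T * s2C / sj := by field_simp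
  have e2 : 1 / j ≤ 1 / sj := by
    refine one_div_le_one_div_of_le hsj0 ?_
    rw [← hsj2]; nlinarith
  have hv24 : Real.sqrt (C * (k / j) * (C * (k / j) ^ 2)) = C * (sk / sj) ^ 3 := by
    rw [← hsk2, ← hsj2]
    rw [show C * (sk ^ 2 / sj ^ 2) * (C * (sk ^ 2 / sj ^ 2) ^ 2) = (C * (sk / sj) ^ 3) ^ 2 by
      field_simp]
    exact Real.sqrt_sq (by positivity)
  have ht3 : |t| ^ 3 ≤ (T / sk) ^ 3 := pow_le_pow_left₀ (abs_nonneg t) ht 3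
  have ht4 : t ^ 4 ≤ (T / sk) ^ 4 := by
    rw [← (show Even 4 by decide).pow_abs t]
    exact pow_le_pow_left₀ (abs_nonneg t) ht 4
  have e3 : 2 * j * (4 * |t| ^ 3 *
      Real.sqrt (C * (k / j) * (C * (k / j) ^ 2)) + t ^ 4 * (C * (k / j)) ^ 2) ≤
      (8 * T ^ 3 * C + 2 * T ^ 4 * C ^ 2) / sj := by
    rw [hv24]
    have hX : 0 ≤ C * (sk / sj) ^ 3 := by positivity
    have hY : 0 ≤ (C * (k / j)) ^ 2 := sq_nonneg _
    have a1 : 4 * |t| ^ 3 * (C * (sk / sj) ^ 3) ≤ 4 * (T / sk) ^ 3 * (C * (sk / sj) ^ 3) :=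
      mul_le_mul_of_nonneg_right (mul_le_mul_of_nonneg_left ht3 (by norm_num)) hX
    have a2 : t ^ 4 * (C * (k / j)) ^ 2 ≤ (T / sk) ^ 4 * (C * (k / j)) ^ 2 :=
      mul_le_mul_of_nonneg_right ht4 hY
    have a3 : 4 * (T / sk) ^ 3 * (C * (sk / sj) ^ 3) = 4 * T ^ 3 * C / sj ^ 3 := by
      field_simp
    have a4 : (T / sk) ^ 4 * (C * (k / j)) ^ 2 = T ^ 4 * C ^ 2 / sj ^ 4 := by
      rw [← hsk2, ← hsj2]; field_simp
    have hj2 : 0 ≤ 2 * sj ^ 2 := by positivity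
    have a5 : 2 * sj ^ 2 * (4 * T ^ 3 * C / sj ^ 3 + T ^ 4 * C ^ 2 / sj ^ 4) =
        8 * T ^ 3 * C / sj + 2 * T ^ 4 * C ^ 2 / sj * (1 / sj) := by
      field_simp
      ring
    have a6 : 2 * T ^ 4 * C ^ 2 / sj * (1 / sj) ≤ 2 * T ^ 4 * C ^ 2 / sj * 1 :=
      mul_le_mul_of_nonneg_left ((div_le_one hsj0).2 hsj1) (by positivity)
    have a7 : 2 * j * (4 * |t| ^ 3 * (C * (sk / sj) ^ 3) + t ^ 4 * (C * (k / j)) ^ 2) ≤
        2 * sj ^ 2 * (4 * T ^ 3 * C / sj ^ 3 + T ^ 4 * C ^ 2 / sj ^ 4) := by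
      rw [← a3, ← a4, ← hsj2] at *
      exact mul_le_mul_of_nonneg_left (add_le_add a1 a2) hj2
    calc _ ≤ _ := a7
      _ = _ := a5
      _ ≤ 8 * T ^ 3 * C / sj + 2 * T ^ 4 * C ^ 2 / sj * 1 := add_le_add le_rfl a6
      _ = _ := by ring
  calc _ ≤ T * s2C / sj + 1 / sj + (8 * T ^ 3 * C + 2 * T ^ 4 * C ^ 2) / sj :=
        add_le_add (add_le_add e1 e2) e3
    _ = _ := by ring

/-- the estimate of the variance -/
theorem td_var {C κ sC τ1 v er : ℝ} (hκ : 0 < κ) (hτ10 : 0 < τ1)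
    (hv0 : 0 ≤ v) (hvle : v ≤ 2 * C / κ)
    (h5 : |Real.exp (-(τ1 ^ 2 * v / 2)) - (1 - τ1 ^ 2 / 2)| ≤ er + 4 * τ1 ^ 3 * (sC / κ)) :
    |v - 1| ≤ 2 * er / τ1 ^ 2 + 8 * τ1 * sC / κ + 2 * τ1 ^ 2 * C ^ 2 / κ ^ 2 := by
  have h6 := td_exp1 (x := τ1 ^ 2 * v / 2) (by positivity)
  have a1 : |τ1 ^ 2 * (v - 1) / 2| ≤ er + 4 * τ1 ^ 3 * (sC / κ) + (τ1 ^ 2 * v / 2) ^ 2 := by
    have a2 : τ1 ^ 2 * (v - 1) / 2 =
        (Real.exp (-(τ1 ^ 2 * v / 2)) - (1 - τ1 ^ 2 * v / 2)) -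
        (Real.exp (-(τ1 ^ 2 * v / 2)) - (1 - τ1 ^ 2 / 2)) := by ring
    rw [a2]
    refine (abs_sub _ _).trans ?_
    linarith
  have a3 : (τ1 ^ 2 * v / 2) ^ 2 ≤ τ1 ^ 4 * (C ^ 2 / κ ^ 2) := by
    have : v ^ 2 ≤ (2 * C / κ) ^ 2 := pow_le_pow_left₀ hv0 hvle 2
    calc (τ1 ^ 2 * v / 2) ^ 2 = τ1 ^ 4 / 4 * v ^ 2 := by ring
      _ ≤ τ1 ^ 4 / 4 * (2 * C / κ) ^ 2 := mul_le_mul_of_nonneg_left this (by positivity)
      _ = τ1 ^ 4 * (C ^ 2 / κ ^ 2) := by field_simp; ring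
  have a4 : |τ1 ^ 2 * (v - 1) / 2| = τ1 ^ 2 / 2 * |v - 1| := by
    rw [show τ1 ^ 2 * (v - 1) / 2 = τ1 ^ 2 / 2 * (v - 1) by ring, abs_mul,
      abs_of_pos (by positivity : 0 < τ1 ^ 2 / 2)]
  rw [a4] at a1
  have a5 : τ1 ^ 2 / 2 * |v - 1| ≤ τ1 ^ 2 / 2 *
      (2 * er / τ1 ^ 2 + 8 * τ1 * sC / κ + 2 * τ1 ^ 2 * C ^ 2 / κ ^ 2) := by
    refine (a1.trans (add_le_add le_rfl a3)).trans (le_of_eq ?_)
    field_simp
    ring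
  exact le_of_mul_le_mul_left a5 (by positivity)

theorem td_end {C κ sC τ τ1 v er : ℝ} (hκ : 0 < κ) (hτ10 : 0 < τ1) (hτ11 : τ1 ≤ 1)
    (h7 : |v - 1| ≤ 2 * er / τ1 ^ 2 + 8 * τ1 * sC / κ + 2 * τ1 ^ 2 * C ^ 2 / κ ^ 2) :
    τ ^ 2 / 2 * |v - 1| ≤ er * (τ ^ 2 / τ1 ^ 2) +
      τ ^ 2 / 2 * (8 * sC / κ + 2 * C ^ 2 / κ ^ 2) * τ1 := by
  have a0 : τ1 ^ 2 ≤ τ1 := by nlinarith
  have a1 : 2 * τ1 ^ 2 * C ^ 2 / κ ^ 2 ≤ 2 * τ1 * C ^ 2 / κ ^ 2 := by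
    have h1 : 0 ≤ 2 * C ^ 2 / κ ^ 2 := by positivity
    have h2 := mul_le_mul_of_nonneg_left a0 h1
    calc 2 * τ1 ^ 2 * C ^ 2 / κ ^ 2 = 2 * C ^ 2 / κ ^ 2 * τ1 ^ 2 := by ring
      _ ≤ 2 * C ^ 2 / κ ^ 2 * τ1 := h2
      _ = _ := by ring
  have h8 : |v - 1| ≤ 2 * er / τ1 ^ 2 + 8 * τ1 * sC / κ + 2 * τ1 * C ^ 2 / κ ^ 2 := by linarith
  have h9 : 0 ≤ τ ^ 2 / 2 := by positivity
  calc τ ^ 2 / 2 * |v - 1| ≤ τ ^ 2 / 2 * (2 * er / τ1 ^ 2 + 8 * τ1 * sC / κ +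
        2 * τ1 * C ^ 2 / κ ^ 2) := mul_le_mul_of_nonneg_left h8 h9
    _ = _ := by field_simp; ring

/-- the central limit theorem from a block decomposition, in finite form -/
theorem clt_limit {C κ : ℝ} (hC : 1 ≤ C) (hκ : 0 < κ) (τ : ℝ) {δ : ℝ} (hδ : 0 < δ) :
    ∃ (J : ℕ) (ε T : ℝ) (K0 : ℕ), 2 ≤ J ∧ 0 < ε ∧ 0 ≤ T ∧
      ∀ {Ω : Type} [MeasurableSpace Ω] {μ : Measure Ω} [IsProbabilityMeasure μ]
      (X : Ω → ℝ) (D : Fin (2 * J) → Ω → ℝ) (K : ℕ), K0 ≤ K → 1 ≤ K → Measurable X →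
      (∀ i, Measurable (D i)) → Integrable (fun ω => X ω ^ 4) μ →
      (∀ i, Integrable (fun ω => D i ω ^ 4) μ) → ∫ ω, X ω ∂μ = 0 → (∀ i, ∫ ω, D i ω ∂μ = 0) →
      κ * K ≤ ∫ ω, X ω ^ 2 ∂μ → ∫ ω, X ω ^ 4 ∂μ ≤ C * (K : ℝ) ^ 2 →
      (∀ i, ∫ ω, D i ω ^ 2 ∂μ ≤ C * (K / J)) → (∀ i, ∫ ω, D i ω ^ 4 ∂μ ≤ C * ((K : ℝ) / J) ^ 2) →
      ∫ ω, (X ω - ∑ i, D i ω) ^ 2 ∂μ ≤ C * ((K : ℝ) / J ^ 3 + (J : ℝ) ^ 2) →
      (∀ t : ℝ, |t| ≤ T / Real.sqrt K →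
        ‖∫ ω, Complex.exp ((t * ∑ i, D i ω : ℝ) * Complex.I) ∂μ -
          ∏ i, ∫ ω, Complex.exp ((t * D i ω : ℝ) * Complex.I) ∂μ‖ ≤ ε) →
      ‖∫ ω, Complex.exp ((τ / Real.sqrt (∫ ω, X ω ^ 2 ∂μ) * X ω : ℝ) * Complex.I) ∂μ -
          (Real.exp (-(τ ^ 2 / 2)) : ℝ)‖ ≤ δ := by
  have hC0 : 0 < C := by linarith
  set sκ := Real.sqrt κ with hsκ
  have hsκ0 : 0 < sκ := Real.sqrt_pos.2 hκ
  have hsκ2 : sκ ^ 2 = κ := Real.sq_sqrt hκ.le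
  set sC := Real.sqrt C with hsC
  have hsC0 : 0 < sC := Real.sqrt_pos.2 hC0
  have hsC2 : sC ^ 2 = C := Real.sq_sqrt hC0.le
  set s2C := Real.sqrt (2 * C) with hs2C
  have hs2C0 : 0 ≤ s2C := Real.sqrt_nonneg _
  have hs2C2 : s2C ^ 2 = 2 * C := Real.sq_sqrt (by linarith)
  set T := (|τ| + 1) / sκ with hT
  have hT0 : 0 < T := by have := abs_nonneg τ; positivity
  set cc0 := T * s2C + 1 + 8 * T ^ 3 * C + 2 * T ^ 4 * C ^ 2 with hcc0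
  have hcc0p : 0 < cc0 := by positivity
  set B0 := τ ^ 2 / 2 * (8 * sC / κ + 2 * C ^ 2 / κ ^ 2) with hB0
  have hB00 : 0 ≤ B0 := by positivity
  set τ1 := min 1 (δ / (2 * (B0 + 1))) with hτ1
  have hτ10 : 0 < τ1 := lt_min one_pos (by positivity)
  have hτ11 : τ1 ≤ 1 := min_le_left _ _
  have hτ12 : B0 * τ1 ≤ δ / 2 := by
    have h1 : τ1 ≤ δ / (2 * (B0 + 1)) := min_le_right _ _
    calc B0 * τ1 ≤ B0 * (δ / (2 * (B0 + 1))) := mul_le_mul_of_nonneg_left h1 hB00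
      _ = (δ / 2) * (B0 / (B0 + 1)) := by field_simp
      _ ≤ (δ / 2) * 1 := mul_le_mul_of_nonneg_left ((div_le_one (by linarith)).2 (by linarith))
          (by linarith)
      _ = δ / 2 := mul_one _
  set Q := 1 + τ ^ 2 / τ1 ^ 2 with hQ
  have hQ0 : 0 < Q := by positivity
  obtain ⟨J0, hJ0⟩ := exists_nat_ge ((2 * cc0 * Q / δ) ^ 2)
  set J := max 2 J0 with hJ
  have hJ2 : 2 ≤ J := le_max_left _ _
  have hJj : (2 : ℝ) ≤ (J : ℝ) := by exact_mod_cast hJ2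
  set sj := Real.sqrt (J : ℝ) with hsj
  have hsj2 : sj ^ 2 = (J : ℝ) := Real.sq_sqrt (by linarith)
  have hsj1 : 1 ≤ sj := by
    rw [hsj]; exact Real.one_le_sqrt.2 (by linarith)
  have hcJ : cc0 / sj * Q ≤ δ / 2 := by
    have h1 : 2 * cc0 * Q / δ ≤ sj := by
      rw [hsj]
      refine Real.le_sqrt_of_sq_le (hJ0.trans ?_)
      have : J0 ≤ J := le_max_right _ _
      exact_mod_cast this
    rw [div_le_iff₀ hδ] at h1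
    rw [div_mul_eq_mul_div, div_le_iff₀ (by linarith)]
    linarith
  refine ⟨J, 1 / J, T, J ^ 3, hJ2, by positivity, hT0.le, ?_⟩
  intro Ω _ μ _ X D K hK0 hK1 hX hD hX4 hD4 hX0 hD0 hv hX4b hD2 hD4b hr hchar
  have hk1 : (1 : ℝ) ≤ (K : ℝ) := by exact_mod_cast hK1
  have hkj : (J : ℝ) ^ 3 ≤ (K : ℝ) := by exact_mod_cast hK0
  set sk := Real.sqrt (K : ℝ) with hsk
  have hsk2 : sk ^ 2 = (K : ℝ) := Real.sq_sqrt (by linarith)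
  have hsk0 : 0 < sk := Real.sqrt_pos.2 (by linarith)
  have hsj0 : 0 < sj := by linarith
  have hJ0' : (0 : ℝ) < J := by linarith
  -- the error
  have herr : ∀ t : ℝ, |t| ≤ T / sk →
      ‖∫ ω, Complex.exp ((t * X ω : ℝ) * Complex.I) ∂μ -
        (Real.exp (-(t ^ 2 * (∑ i, ∫ ω, D i ω ^ 2 ∂μ) / 2)) : ℝ)‖ ≤ cc0 / sj := by
    intro t ht
    have h := clt_compare hX hD hX4 hD4 hD0 hD2 hD4b hr t (hchar t ht)
    have hJc : ((2 * J : ℕ) : ℝ) = 2 * (J : ℝ) := by push_cast; ring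
    rw [hJc] at h
    exact h.trans (td_num hC hT0 hsk0 hsj1 hsk2 hsj2 hs2C0 hs2C2 hkj ht)
  -- the variance
  set m2 := ∫ ω, X ω ^ 2 ∂μ with hm2
  set D2 := ∑ i, ∫ ω, D i ω ^ 2 ∂μ with hD2d
  have hm20 : 0 < m2 := lt_of_lt_of_le (by positivity) hv
  set s := Real.sqrt m2 with hs
  have hs0 : 0 < s := Real.sqrt_pos.2 hm20
  have hs2 : s ^ 2 = m2 := Real.sq_sqrt hm20.le
  have hsge : sκ * sk ≤ s := by
    rw [hs]
    refine Real.le_sqrt_of_sq_le ?_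
    rw [mul_pow, hsκ2, hsk2]; exact hv
  have hTt : ∀ τ' : ℝ, |τ'| ≤ |τ| + 1 → |τ' / s| ≤ T / sk := by
    intro τ' h
    rw [abs_div, abs_of_pos hs0, hT, div_div]
    exact div_le_div₀ (by positivity) h (by positivity) hsge
  have hD20 : 0 ≤ D2 := Finset.sum_nonneg fun i _ => integral_nonneg fun ω => sq_nonneg _
  set v := D2 / m2 with hvd
  have hv0 : 0 ≤ v := div_nonneg hD20 hm20.le
  have hD2le : D2 ≤ 2 * C * K := by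
    calc D2 ≤ ∑ _i : Fin (2 * J), C * ((K : ℝ) / J) := Finset.sum_le_sum fun i _ => hD2 i
      _ = 2 * C * K := by
          rw [Finset.sum_const, Finset.card_univ, Fintype.card_fin, nsmul_eq_mul]
          push_cast
          field_simp
  have hvle : v ≤ 2 * C / κ := by
    rw [hvd, div_le_div_iff₀ hm20 hκ]
    calc D2 * κ ≤ 2 * C * K * κ := mul_le_mul_of_nonneg_right hD2le hκ.le
      _ = 2 * C * (κ * K) := by ring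
      _ ≤ 2 * C * m2 := mul_le_mul_of_nonneg_left hv (by linarith)
  have hxv : ∀ τ' : ℝ, (τ' / s) ^ 2 * D2 / 2 = τ' ^ 2 * v / 2 := by
    intro τ'
    rw [div_pow, hs2, hvd]; ring
  -- Taylor for X at τ1
  have h1 := herr (τ1 / s) (hTt τ1 (by
    rw [abs_of_pos hτ10]; have := abs_nonneg τ; linarith))
  rw [hxv] at h1
  have h2 := char_taylor hX hX4 hX0 (τ1 / s)
  rw [← hm2] at h2
  have h3 : (τ1 / s) ^ 2 * m2 / 2 = τ1 ^ 2 / 2 := by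
    rw [div_pow, hs2]; field_simp
  rw [h3] at h2
  have h4 : 4 * |τ1 / s| ^ 3 * Real.sqrt (m2 * ∫ ω, X ω ^ 4 ∂μ) ≤ 4 * τ1 ^ 3 * (sC / κ) := by
    have a1 : Real.sqrt (m2 * ∫ ω, X ω ^ 4 ∂μ) ≤ s * (sC * K) := by
      refine Real.sqrt_le_iff.2 ⟨by positivity, ?_⟩
      calc m2 * ∫ ω, X ω ^ 4 ∂μ ≤ m2 * (C * (K : ℝ) ^ 2) :=
            mul_le_mul_of_nonneg_left hX4b hm20.le
        _ = (s * (sC * K)) ^ 2 := by rw [← hs2, ← hsC2]; ring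
    rw [abs_of_pos (div_pos hτ10 hs0)]
    calc 4 * (τ1 / s) ^ 3 * Real.sqrt (m2 * ∫ ω, X ω ^ 4 ∂μ)
        ≤ 4 * (τ1 / s) ^ 3 * (s * (sC * K)) := mul_le_mul_of_nonneg_left a1 (by positivity)
      _ = 4 * τ1 ^ 3 * (sC * (K / s ^ 2)) := by field_simp
      _ ≤ 4 * τ1 ^ 3 * (sC * (1 / κ)) := by
          have : (K : ℝ) / s ^ 2 ≤ 1 / κ := by
            rw [hs2, div_le_div_iff₀ hm20 hκ]; linarith
          gcongr
      _ = 4 * τ1 ^ 3 * (sC / κ) := by ring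
  have h5 : |Real.exp (-(τ1 ^ 2 * v / 2)) - (1 - τ1 ^ 2 / 2)| ≤
      cc0 / sj + 4 * τ1 ^ 3 * (sC / κ) := by
    set Z := ∫ ω, Complex.exp ((τ1 / s * X ω : ℝ) * Complex.I) ∂μ
    have a1 : ((Real.exp (-(τ1 ^ 2 * v / 2)) - (1 - τ1 ^ 2 / 2) : ℝ) : ℂ) =
        (Z - ((1 - τ1 ^ 2 / 2 : ℝ) : ℂ)) - (Z - ((Real.exp (-(τ1 ^ 2 * v / 2)) : ℝ) : ℂ)) := by
      push_cast; ring
    rw [← Real.norm_eq_abs, ← Complex.norm_real, a1]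
    calc _ ≤ _ := norm_sub_le _ _
      _ ≤ 4 * τ1 ^ 3 * (sC / κ) + cc0 / sj := add_le_add (h2.trans h4) h1
      _ = _ := add_comm _ _
  have h7 : |v - 1| ≤ 2 * (cc0 / sj) / τ1 ^ 2 + 8 * τ1 * sC / κ + 2 * τ1 ^ 2 * C ^ 2 / κ ^ 2 :=
    td_var hκ hτ10 hv0 hvle h5
  -- the end
  have h8 := herr (τ / s) (hTt τ (by linarith))
  rw [hxv] at h8
  have h9 := td_exp2 (a := τ ^ 2 * v / 2) (b := τ ^ 2 / 2) (by positivity) (by positivity)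
  have h10 : |τ ^ 2 * v / 2 - τ ^ 2 / 2| = τ ^ 2 / 2 * |v - 1| := by
    rw [show τ ^ 2 * v / 2 - τ ^ 2 / 2 = τ ^ 2 / 2 * (v - 1) by ring, abs_mul,
      abs_of_nonneg (by positivity : 0 ≤ τ ^ 2 / 2)]
  rw [h10] at h9
  have h11 : τ ^ 2 / 2 * |v - 1| ≤ (cc0 / sj) * (τ ^ 2 / τ1 ^ 2) + B0 * τ1 :=
    td_end hκ hτ10 hτ11 h7
  set Z := ∫ ω, Complex.exp ((τ / s * X ω : ℝ) * Complex.I) ∂μ
  have h12 : Z - ((Real.exp (-(τ ^ 2 / 2)) : ℝ) : ℂ) =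
      (Z - ((Real.exp (-(τ ^ 2 * v / 2)) : ℝ) : ℂ)) +
        ((Real.exp (-(τ ^ 2 * v / 2)) - Real.exp (-(τ ^ 2 / 2)) : ℝ) : ℂ) := by
    push_cast; ring
  rw [h12]
  have h13 : ‖((Real.exp (-(τ ^ 2 * v / 2)) - Real.exp (-(τ ^ 2 / 2)) : ℝ) : ℂ)‖ ≤
      (cc0 / sj) * (τ ^ 2 / τ1 ^ 2) + B0 * τ1 := by
    rw [Complex.norm_real, Real.norm_eq_abs]; exact h9.trans h11
  have h14 : cc0 / sj * Q = cc0 / sj + (cc0 / sj) * (τ ^ 2 / τ1 ^ 2) := by rw [hQ]; ring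
  calc _ ≤ _ := norm_add_le _ _
    _ ≤ cc0 / sj + ((cc0 / sj) * (τ ^ 2 / τ1 ^ 2) + B0 * τ1) := add_le_add h8 h13
    _ = cc0 / sj * Q + B0 * τ1 := by rw [h14]; ring
    _ ≤ δ / 2 + δ / 2 := add_le_add hcJ hτ12
    _ = δ := by ring

end QG
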