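import Mathlib
import Pool.Agent.Lib_helper69.QG.Defs

set_option autoImplicit false

namespace QG

open MeasureTheory

theorem cb_q (t : Fin 4 → ℝ) : q t = 2 * ((t 0 - t 1) ^ 2 + (t 0 - t 2) ^ 2 + (t 0 - t 3) ^ 2 +
    (t 1 - t 2) ^ 2 + (t 1 - t 3) ^ 2 + (t 2 - t 3) ^ 2) := by
  unfold q
  simp only [Fin.sum_univ_four]
  ring

theorem cb_abs {a s : ℝ} (h : |a| ≤ s) : a ^ 2 ≤ s ^ 2 := by
  rw [← sq_abs a]
  exact pow_le_pow_left₀ (abs_nonneg _) h 2

/-- `|t i - t j| ≤ √q`, and `q ≤ 12 s ^ 2` if all differences are at most `s` -/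
theorem q_bounds (t : Fin 4 → ℝ) :
    0 ≤ q t ∧ (∀ i j, |t i - t j| ≤ Real.sqrt (q t)) ∧
      ∀ s : ℝ, 0 ≤ s → (∀ i j, |t i - t j| ≤ s) → q t ≤ 12 * s ^ 2 := by
  have h0 : 0 ≤ q t := by
    unfold q
    exact Finset.sum_nonneg fun i _ => Finset.sum_nonneg fun j _ => sq_nonneg _
  refine ⟨h0, fun i j => ?_, fun s hs h => ?_⟩
  · apply Real.abs_le_sqrt
    unfold q
    have h1 : (t i - t j) ^ 2 ≤ ∑ j, (t i - t j) ^ 2 :=
      Finset.single_le_sum (f := fun j => (t i - t j) ^ 2) (fun j _ => sq_nonneg _)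
        (Finset.mem_univ j)
    have h2 : ∑ j, (t i - t j) ^ 2 ≤ ∑ i, ∑ j, (t i - t j) ^ 2 :=
      Finset.single_le_sum (f := fun i => ∑ j, (t i - t j) ^ 2)
        (fun i _ => Finset.sum_nonneg fun j _ => sq_nonneg _) (Finset.mem_univ i)
    exact h1.trans h2
  · rw [cb_q]
    have h1 := cb_abs (h 0 1)
    have h2 := cb_abs (h 0 2)
    have h3 := cb_abs (h 0 3)
    have h4 := cb_abs (h 1 2)
    have h5 := cb_abs (h 1 3)
    have h6 := cb_abs (h 2 3)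
    linarith

theorem cb_four (a b : ℝ) : (|a| + |b|) ^ 4 ≤ 8 * (a ^ 4 + b ^ 4) := by
  have h1 : a ^ 4 = |a| ^ 4 := by
    rw [← abs_pow, abs_of_nonneg (by positivity)]
  have h2 : b ^ 4 = |b| ^ 4 := by
    rw [← abs_pow, abs_of_nonneg (by positivity)]
  rw [h1, h2]
  set x := |a|
  set y := |b|
  have h3 : (x + y) ^ 2 ≤ 2 * (x ^ 2 + y ^ 2) := by nlinarith [sq_nonneg (x - y)]
  have h4 : (x ^ 2 + y ^ 2) ^ 2 ≤ 2 * (x ^ 4 + y ^ 4) := by nlinarith [sq_nonneg (x ^ 2 - y ^ 2)]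
  calc (x + y) ^ 4 = ((x + y) ^ 2) ^ 2 := by ring
    _ ≤ (2 * (x ^ 2 + y ^ 2)) ^ 2 := pow_le_pow_left₀ (sq_nonneg _) h3 2
    _ = 4 * (x ^ 2 + y ^ 2) ^ 2 := by ring
    _ ≤ 4 * (2 * (x ^ 4 + y ^ 4)) := by linarith
    _ = 8 * (x ^ 4 + y ^ 4) := by ring

theorem cb_exp (t : Fin 4 → ℝ) {x₀ : ℝ} (h : V' t x₀ = 0) (u : ℝ) :
    V t (x₀ + u) = V t x₀ + ∑ i, (6 * (x₀ - t i) ^ 2 * u ^ 2 + 4 * (x₀ - t i) * u ^ 3 + u ^ 4) := by
  have h1 : V t (x₀ + u) - V t x₀ - u * V' t x₀ =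
      ∑ i, (6 * (x₀ - t i) ^ 2 * u ^ 2 + 4 * (x₀ - t i) * u ^ 3 + u ^ 4) := by
    unfold V V'
    rw [Finset.mul_sum, ← Finset.sum_sub_distrib, ← Finset.sum_sub_distrib]
    refine Finset.sum_congr rfl fun i _ => ?_
    ring
  rw [h, mul_zero, sub_zero] at h1
  linarith

/-- the minimiser of `V t` -/
theorem V_min (t : Fin 4 → ℝ) : ∃ x₀ : ℝ, (∀ i, |x₀ - t i| ≤ Real.sqrt (q t)) ∧
    q t ^ 2 / 1152 ≤ V t x₀ ∧ (∀ u, V t x₀ + 4 / 3 * u ^ 4 ≤ V t (x₀ + u)) ∧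
    ∀ u, |u| ≤ 1 → V t (x₀ + u) ≤ V t x₀ + 24 * (1 + Real.sqrt (q t)) ^ 2 * u ^ 2 := by
  obtain ⟨hq0, hq1, hq2⟩ := q_bounds t
  obtain ⟨a, ha⟩ := Finite.exists_min t
  obtain ⟨b, hb⟩ := Finite.exists_max t
  have hcont : Continuous (V' t) := by
    unfold V'
    fun_prop
  have hVa : V' t (t a) ≤ 0 := by
    unfold V'
    apply Finset.sum_nonpos
    intro i _
    have h1 : t a - t i ≤ 0 := by linarith [ha i]
    have h2 : (t a - t i) ^ 3 ≤ 0 := by
      have : 0 ≤ (t i - t a) ^ 3 := pow_nonneg (by linarith) 3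
      nlinarith
    linarith
  have hVb : 0 ≤ V' t (t b) := by
    unfold V'
    apply Finset.sum_nonneg
    intro i _
    have h1 : 0 ≤ t b - t i := by linarith [hb i]
    positivity
  obtain ⟨x₀, ⟨hx1, hx2⟩, hx3⟩ := intermediate_value_Icc (ha b) hcont.continuousOn ⟨hVa, hVb⟩
  have he : ∀ i, |x₀ - t i| ≤ Real.sqrt (q t) := by
    intro i
    rw [abs_le]
    have h1 := (abs_le.1 (hq1 b i)).2
    have h2 := (abs_le.1 (hq1 a i)).1
    constructor <;> linarith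
  refine ⟨x₀, he, ?_, fun u => ?_, fun u hu => ?_⟩
  · have hV0 : 0 ≤ V t x₀ := by
      unfold V
      positivity
    set s : ℝ := Real.sqrt (Real.sqrt (8 * V t x₀)) with hs
    have hs0 : 0 ≤ s := Real.sqrt_nonneg _
    have hs4 : s ^ 4 = 8 * V t x₀ := by
      have h1 : s ^ 2 = Real.sqrt (8 * V t x₀) := Real.sq_sqrt (Real.sqrt_nonneg _)
      calc s ^ 4 = (s ^ 2) ^ 2 := by ring
        _ = 8 * V t x₀ := by rw [h1, Real.sq_sqrt (by positivity)]
    have h1 := hq2 s hs0 (by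
      intro i j
      by_cases hij : i = j
      · rw [hij, sub_self, abs_zero]
        exact hs0
      · have h2 : |t i - t j| ≤ |x₀ - t i| + |x₀ - t j| := by
          have h3 : t i - t j = (x₀ - t j) - (x₀ - t i) := by ring
          rw [h3]
          have h4 := abs_sub (x₀ - t j) (x₀ - t i)
          linarith
        refine h2.trans ?_
        apply le_of_pow_le_pow_left₀ (n := 4) (by norm_num) hs0
        rw [hs4]
        refine (cb_four _ _).trans ?_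
        have h5 : (x₀ - t i) ^ 4 + (x₀ - t j) ^ 4 ≤ V t x₀ := by
          unfold V
          have h6 : ∑ k ∈ ({i, j} : Finset (Fin 4)), (x₀ - t k) ^ 4 ≤ ∑ k, (x₀ - t k) ^ 4 :=
            Finset.sum_le_sum_of_subset_of_nonneg (Finset.subset_univ _)
              (fun k _ _ => by positivity)
          rw [Finset.sum_pair hij] at h6
          exact h6
        linarith)
    have h7 : q t ^ 2 ≤ (12 * s ^ 2) ^ 2 := pow_le_pow_left₀ hq0 h1 2
    have h8 : (12 * s ^ 2) ^ 2 = 144 * s ^ 4 := by ring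
    rw [h8, hs4] at h7
    linarith
  · rw [cb_exp t hx3]
    have h1 : ∑ i : Fin 4, (1 / 3 * u ^ 4) ≤
        ∑ i, (6 * (x₀ - t i) ^ 2 * u ^ 2 + 4 * (x₀ - t i) * u ^ 3 + u ^ 4) := by
      apply Finset.sum_le_sum
      intro i _
      nlinarith [mul_nonneg (sq_nonneg u) (sq_nonneg ((x₀ - t i) + u / 3))]
    rw [Finset.sum_const, Finset.card_univ, Fintype.card_fin, nsmul_eq_mul] at h1
    push_cast at h1
    linarith
  · rw [cb_exp t hx3]
    have h1 : ∑ i, (6 * (x₀ - t i) ^ 2 * u ^ 2 + 4 * (x₀ - t i) * u ^ 3 + u ^ 4) ≤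
        ∑ i : Fin 4, 6 * (1 + Real.sqrt (q t)) ^ 2 * u ^ 2 := by
      apply Finset.sum_le_sum
      intro i _
      have h2 := he i
      set e := x₀ - t i
      set r := Real.sqrt (q t)
      have hr : 0 ≤ r := Real.sqrt_nonneg _
      have h3 : e ^ 2 ≤ r ^ 2 := cb_abs h2
      have h4 : e * u ≤ r := by
        calc e * u ≤ |e * u| := le_abs_self _
          _ = |e| * |u| := abs_mul _ _
          _ ≤ r * 1 := mul_le_mul h2 hu (abs_nonneg _) hr
          _ = r := mul_one _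
      have h5 : u ^ 2 ≤ 1 := by
        have := cb_abs hu
        linarith
      have h6 : 6 * e ^ 2 * u ^ 2 + 4 * e * u ^ 3 + u ^ 4 =
          (6 * e ^ 2 + 4 * (e * u) + u ^ 2) * u ^ 2 := by ring
      rw [h6]
      apply mul_le_mul_of_nonneg_right _ (sq_nonneg u)
      nlinarith
    rw [Finset.sum_const, Finset.card_univ, Fintype.card_fin, nsmul_eq_mul] at h1
    push_cast at h1
    linarith

end QG
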