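import Mathlib
import Pool.Agent.Lib_helper69.QG.Defs
import Pool.Agent.Lib_helper69.QG.W.ca
import Pool.Agent.Lib_helper69.QG.W.cb

set_option autoImplicit false

namespace QG

open MeasureTheory

theorem cc_int (t : Fin 4 → ℝ) : Integrable (fun x : ℝ => Real.exp (-V t x)) := by
  have h := int_pow_exp t 0 0
  simpa using h

theorem cc_s_pos (t : Fin 4 → ℝ) : 1 ≤ 1 + Real.sqrt (q t) := by
  have := Real.sqrt_nonneg (q t)
  linarith

/-- lower bound for the normalising constant -/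
theorem w4_lower (t : Fin 4 → ℝ) {x₀ : ℝ}
    (h : ∀ u, |u| ≤ 1 → V t (x₀ + u) ≤ V t x₀ + 24 * (1 + Real.sqrt (q t)) ^ 2 * u ^ 2) :
    Real.exp (-V t x₀) / (9 * (1 + Real.sqrt (q t))) ≤ w4 t := by
  have hs := cc_s_pos t
  set s : ℝ := 1 + Real.sqrt (q t) with hsdef
  have hs0 : 0 < s := by linarith
  set a : ℝ := 1 / (5 * s) with hadef
  have ha0 : 0 < a := by positivity
  have has : a * s = 1 / 5 := by
    rw [hadef]
    field_simp
  have ha1 : a ≤ 1 := by
    nlinarith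
  have hlow : ∀ x ∈ Set.Icc (x₀ - a) (x₀ + a),
      Real.exp (-V t x₀) * Real.exp (-1) ≤ Real.exp (-V t x) := by
    intro x hx
    rw [← Real.exp_add]
    apply Real.exp_le_exp.mpr
    have hu : |x - x₀| ≤ a := by
      rw [abs_le]
      constructor <;> linarith [hx.1, hx.2]
    have h1 := h (x - x₀) (hu.trans ha1)
    have h2 : x₀ + (x - x₀) = x := by ring
    rw [h2] at h1
    have h3 : (x - x₀) ^ 2 ≤ a ^ 2 := by
      rw [← sq_abs (x - x₀)]
      exact pow_le_pow_left₀ (abs_nonneg _) hu 2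
    have h4 : 24 * s ^ 2 * (x - x₀) ^ 2 ≤ 24 * s ^ 2 * a ^ 2 := by
      have : 0 ≤ 24 * s ^ 2 := by positivity
      exact mul_le_mul_of_nonneg_left h3 this
    have h5 : 24 * s ^ 2 * a ^ 2 = 24 / 25 := by
      have : s ^ 2 * a ^ 2 = (a * s) ^ 2 := by ring
      rw [mul_assoc, this, has]
      norm_num
    linarith
  have h1 : Real.exp (-V t x₀) * Real.exp (-1) * volume.real (Set.Icc (x₀ - a) (x₀ + a))
      ≤ ∫ x in Set.Icc (x₀ - a) (x₀ + a), Real.exp (-V t x) := by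
    refine setIntegral_ge_of_const_le_real measurableSet_Icc ?_ hlow (cc_int t).integrableOn
    rw [Real.volume_Icc]
    exact ENNReal.ofReal_ne_top
  have hvol : volume.real (Set.Icc (x₀ - a) (x₀ + a)) = 2 * a := by
    rw [Real.volume_real_Icc_of_le (by linarith)]
    ring
  have h2 : ∫ x in Set.Icc (x₀ - a) (x₀ + a), Real.exp (-V t x) ≤ w4 t := by
    rw [w4]
    exact setIntegral_le_integral (cc_int t)
      (Filter.Eventually.of_forall (fun x => (Real.exp_pos _).le))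
  rw [hvol] at h1
  refine le_trans ?_ (h1.trans h2)
  have he : Real.exp 1 < 3.6 := lt_trans Real.exp_one_lt_d9 (by norm_num)
  have he' : 1 / 3.6 ≤ Real.exp (-1) := by
    rw [Real.exp_neg, ← one_div]
    exact one_div_le_one_div_of_le (Real.exp_pos 1) he.le
  have hE := Real.exp_pos (-V t x₀)
  have h6 : Real.exp (-V t x₀) / (9 * s) = Real.exp (-V t x₀) * (a * (5 / 9)) := by
    rw [hadef]
    field_simp
  rw [h6, mul_assoc]
  refine mul_le_mul_of_nonneg_left ?_ hE.le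
  nlinarith

theorem cc_dens_le (t : Fin 4 → ℝ) {x₀ : ℝ}
    (h : ∀ u, |u| ≤ 1 → V t (x₀ + u) ≤ V t x₀ + 24 * (1 + Real.sqrt (q t)) ^ 2 * u ^ 2)
    (h' : ∀ u, V t x₀ + 4 / 3 * u ^ 4 ≤ V t (x₀ + u)) (u : ℝ) :
    gt t (x₀ + u) ≤ 9 * (1 + Real.sqrt (q t)) * Real.exp (-(4 / 3 * u ^ 4)) := by
  have hw := w4_lower t h
  have hs := cc_s_pos t
  have hpos := w4_pos t
  set s : ℝ := 1 + Real.sqrt (q t) with hsdef
  have h9 : 0 < 9 * s := by linarith
  have h1 : Real.exp (-V t x₀) ≤ 9 * s * w4 t := by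
    rw [div_le_iff₀ h9] at hw
    linarith
  have h2 : Real.exp (-V t (x₀ + u)) ≤ Real.exp (-V t x₀) * Real.exp (-(4 / 3 * u ^ 4)) := by
    rw [← Real.exp_add]
    apply Real.exp_le_exp.mpr
    linarith [h' u]
  rw [gt, div_le_iff₀ hpos]
  have hE := Real.exp_pos (-(4 / 3 * u ^ 4))
  calc Real.exp (-V t (x₀ + u)) ≤ Real.exp (-V t x₀) * Real.exp (-(4 / 3 * u ^ 4)) := h2
    _ ≤ (9 * s * w4 t) * Real.exp (-(4 / 3 * u ^ 4)) :=
        mul_le_mul_of_nonneg_right h1 hE.le
    _ = 9 * s * Real.exp (-(4 / 3 * u ^ 4)) * w4 t := by ring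

/-- the density is bounded -/
theorem gt_le (t : Fin 4 → ℝ) (x : ℝ) : gt t x ≤ 9 * (1 + Real.sqrt (q t)) := by
  obtain ⟨x₀, _, _, h', h⟩ := V_min t
  have h1 := cc_dens_le t h h' (x - x₀)
  have h2 : x₀ + (x - x₀) = x := by ring
  rw [h2] at h1
  refine h1.trans ?_
  have hs := cc_s_pos t
  have h3 : Real.exp (-(4 / 3 * (x - x₀) ^ 4)) ≤ 1 := by
    apply Real.exp_le_one_iff.mpr
    have : 0 ≤ (x - x₀) ^ 4 := by positivity
    linarith
  have h9 : 0 ≤ 9 * (1 + Real.sqrt (q t)) := by linarith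
  calc 9 * (1 + Real.sqrt (q t)) * Real.exp (-(4 / 3 * (x - x₀) ^ 4))
      ≤ 9 * (1 + Real.sqrt (q t)) * 1 := mul_le_mul_of_nonneg_left h3 h9
    _ = 9 * (1 + Real.sqrt (q t)) := by ring

theorem cc_quart_int (n : ℕ) :
    Integrable (fun u : ℝ => |u| ^ n * Real.exp (-(4 / 3 * u ^ 4))) := by
  have h := int_pow_exp (fun _ => 0) 0 n
  have hV : ∀ x : ℝ, V (fun _ => (0 : ℝ)) x = 4 * x ^ 4 := by
    intro x
    simp [V]
  have h1 : Integrable (fun x : ℝ => |x| ^ n * Real.exp (-(4 * x ^ 4))) := by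
    refine h.congr (Filter.Eventually.of_forall (fun x => ?_))
    simp only [sub_zero]
    rw [hV]
  set a : ℝ := Real.sqrt (Real.sqrt (1 / 3)) with ha
  have ha0 : 0 < a := by
    rw [ha]
    positivity
  have ha4 : a ^ 4 = 1 / 3 := by
    have e1 : a ^ 2 = Real.sqrt (1 / 3) := Real.sq_sqrt (Real.sqrt_nonneg _)
    have e2 : (Real.sqrt (1 / 3)) ^ 2 = 1 / 3 := Real.sq_sqrt (by norm_num)
    have : a ^ 4 = (a ^ 2) ^ 2 := by ring
    rw [this, e1, e2]
  have h2 := (h1.comp_mul_left' ha0.ne').const_mul ((a ^ n)⁻¹)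
  refine h2.congr (Filter.Eventually.of_forall (fun u => ?_))
  simp only
  rw [abs_mul, abs_of_pos ha0, mul_pow, mul_pow, ha4]
  have hn : a ^ n ≠ 0 := (pow_pos ha0 n).ne'
  have e3 : -(4 * (1 / 3 * u ^ 4)) = -(4 / 3 * u ^ 4) := by ring
  rw [e3]
  field_simp

theorem cc_quart_le : ∫ u : ℝ, Real.exp (-(4 / 3 * u ^ 4)) ≤ 4 := by
  have hb : ∀ u : ℝ, Real.exp (-(4 / 3 * u ^ 4)) ≤ Real.exp (3 / 16) * Real.exp (-1 * u ^ 2) := by
    intro u
    rw [← Real.exp_add]
    apply Real.exp_le_exp.mpr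
    nlinarith [sq_nonneg (u ^ 2 - 3 / 8)]
  have hI0 : Integrable (fun u : ℝ => Real.exp (-(4 / 3 * u ^ 4))) := by
    simpa using cc_quart_int 0
  have hI1 : Integrable (fun u : ℝ => Real.exp (3 / 16) * Real.exp (-1 * u ^ 2)) :=
    (integrable_exp_neg_mul_sq one_pos).const_mul _
  have h1 := integral_mono hI0 hI1 hb
  rw [integral_const_mul, integral_gaussian] at h1
  refine h1.trans ?_
  have h2 : Real.exp (3 / 16) ≤ 2 := by
    have h3 : Real.exp (3 / 16) ^ 4 ≤ 2 ^ 4 := by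
      rw [← Real.exp_nat_mul]
      have : Real.exp (((4 : ℕ) : ℝ) * (3 / 16)) ≤ Real.exp 1 := by
        apply Real.exp_le_exp.mpr
        norm_num
      refine this.trans ?_
      refine Real.exp_one_lt_d9.le.trans ?_
      norm_num
    exact le_of_pow_le_pow_left₀ (by norm_num) (by norm_num) h3
  have h4 : Real.sqrt (Real.pi / 1) ≤ 2 := by
    rw [div_one]
    have : Real.sqrt Real.pi ≤ Real.sqrt 4 := Real.sqrt_le_sqrt Real.pi_le_four
    have h5 : Real.sqrt 4 = 2 := by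
      rw [show (4 : ℝ) = 2 ^ 2 by norm_num]
      exact Real.sqrt_sq (by norm_num)
    rw [h5] at this
    exact this
  have h6 := Real.sqrt_nonneg (Real.pi / 1)
  have h7 := Real.exp_pos (3 / 16)
  nlinarith

theorem w4_le (t : Fin 4 → ℝ) : w4 t ≤ 4 * Real.exp (-(q t) ^ 2 / 1152) := by
  obtain ⟨x₀, _, hq, h', _⟩ := V_min t
  have h1 : w4 t = ∫ u, Real.exp (-V t (x₀ + u)) := by
    rw [w4]
    exact (integral_add_left_eq_self (fun x => Real.exp (-V t x)) x₀).symm
  have hI : Integrable (fun u : ℝ => Real.exp (-(4 / 3 * u ^ 4))) := by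
    simpa using cc_quart_int 0
  have h2 : ∫ u, Real.exp (-V t (x₀ + u))
      ≤ ∫ u, Real.exp (-(q t) ^ 2 / 1152) * Real.exp (-(4 / 3 * u ^ 4)) := by
    refine integral_mono ((cc_int t).comp_add_left x₀) (hI.const_mul _) ?_
    intro u
    simp only
    rw [← Real.exp_add]
    apply Real.exp_le_exp.mpr
    have := h' u
    have e : -(q t) ^ 2 / 1152 = -((q t) ^ 2 / 1152) := by ring
    rw [e]
    linarith
  rw [h1]
  refine h2.trans ?_
  rw [integral_const_mul, mul_comm]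
  exact mul_le_mul_of_nonneg_right cc_quart_le (Real.exp_pos _).le

theorem cc_gt_nonneg (t : Fin 4 → ℝ) (x : ℝ) : 0 ≤ gt t x := ((gt_dens t).pos x).le

theorem cc_gt_int (t : Fin 4 → ℝ) : Integrable (gt t) := by
  by_contra h
  have := (gt_dens t).int
  rw [integral_undef h] at this
  exact zero_ne_one this

theorem cc_mom_int (t : Fin 4 → ℝ) (r : ℝ) (n : ℕ) :
    Integrable (fun x : ℝ => |x - r| ^ n * gt t x) := by
  have h := (int_pow_exp t r n).div_const (w4 t)
  refine h.congr (Filter.Eventually.of_forall (fun x => ?_))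
  simp only [gt]
  ring

theorem cc_mom_le (t : Fin 4 → ℝ) {x₀ : ℝ}
    (h : ∀ u, |u| ≤ 1 → V t (x₀ + u) ≤ V t x₀ + 24 * (1 + Real.sqrt (q t)) ^ 2 * u ^ 2)
    (h' : ∀ u, V t x₀ + 4 / 3 * u ^ 4 ≤ V t (x₀ + u)) (n : ℕ) :
    ∫ x, |x - x₀| ^ n * gt t x ≤
      9 * (1 + Real.sqrt (q t)) * ∫ u : ℝ, |u| ^ n * Real.exp (-(4 / 3 * u ^ 4)) := by
  have h1 : ∫ x, |x - x₀| ^ n * gt t x = ∫ u, |u| ^ n * gt t (x₀ + u) := by
    rw [← integral_add_left_eq_self (fun x => |x - x₀| ^ n * gt t x) x₀]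
    refine integral_congr_ae (Filter.Eventually.of_forall (fun u => ?_))
    simp
  rw [h1, ← integral_const_mul]
  refine integral_mono ?_ ((cc_quart_int n).const_mul _) ?_
  · have h2 := (cc_mom_int t x₀ n).comp_add_left x₀
    refine h2.congr (Filter.Eventually.of_forall (fun u => ?_))
    simp
  · intro u
    simp only
    have h3 := cc_dens_le t h h' u
    have h4 : 0 ≤ |u| ^ n := by positivity
    calc |u| ^ n * gt t (x₀ + u)
        ≤ |u| ^ n * (9 * (1 + Real.sqrt (q t)) * Real.exp (-(4 / 3 * u ^ 4))) :=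
          mul_le_mul_of_nonneg_left h3 h4
      _ = 9 * (1 + Real.sqrt (q t)) * (|u| ^ n * Real.exp (-(4 / 3 * u ^ 4))) := by ring

/-- moments of the distance to a neighbour -/
theorem gt_moment : ∃ C : ℝ, 1 ≤ C ∧ ∀ (t : Fin 4 → ℝ) (i : Fin 4),
    ∫ x, (x - t i) ^ 2 * gt t x ≤ C * (1 + q t) ∧
      ∫ x, |x - t i| ^ 3 * gt t x ≤ C * (1 + q t) ^ 2 := by
  set K2 : ℝ := ∫ u : ℝ, |u| ^ 2 * Real.exp (-(4 / 3 * u ^ 4)) with hK2
  set K3 : ℝ := ∫ u : ℝ, |u| ^ 3 * Real.exp (-(4 / 3 * u ^ 4)) with hK3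
  have hK2n : 0 ≤ K2 := integral_nonneg (fun u => by positivity)
  have hK3n : 0 ≤ K3 := integral_nonneg (fun u => by positivity)
  refine ⟨4 + 36 * K2 + 72 * K3, by linarith, ?_⟩
  intro t i
  obtain ⟨hq0, _, _⟩ := q_bounds t
  obtain ⟨x₀, hx, _, h', h⟩ := V_min t
  set r : ℝ := Real.sqrt (q t) with hr
  have hr0 : 0 ≤ r := Real.sqrt_nonneg _
  have hr2 : r ^ 2 = q t := Real.sq_sqrt hq0
  have hone := (gt_dens t).int
  have hM2 := cc_mom_le t h h' 2
  have hM3 := cc_mom_le t h h' 3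
  rw [← hK2] at hM2
  rw [← hK3] at hM3
  have hs : 1 + r ≤ 2 * (1 + q t) := by
    nlinarith [sq_nonneg (r - 1)]
  have habs : ∀ x : ℝ, |x - t i| ≤ |x - x₀| + r := by
    intro x
    have e : x - t i = (x - x₀) + (x₀ - t i) := by ring
    rw [e]
    exact (abs_add_le _ _).trans (by linarith [hx i])
  constructor
  · have h1 : ∫ x, (x - t i) ^ 2 * gt t x ≤
        ∫ x, (2 * (|x - x₀| ^ 2 * gt t x) + 2 * q t * gt t x) := by
      refine integral_mono ?_ (((cc_mom_int t x₀ 2).const_mul 2).add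
        ((cc_gt_int t).const_mul (2 * q t))) ?_
      · have := cc_mom_int t (t i) 2
        refine this.congr (Filter.Eventually.of_forall (fun x => ?_))
        simp only [sq_abs]
      · intro x
        simp only
        have h2 := habs x
        have h3 : (x - t i) ^ 2 ≤ 2 * |x - x₀| ^ 2 + 2 * q t := by
          rw [← sq_abs (x - t i), ← hr2]
          have h4 : |x - t i| ^ 2 ≤ (|x - x₀| + r) ^ 2 :=
            pow_le_pow_left₀ (abs_nonneg _) h2 2
          nlinarith [sq_nonneg (|x - x₀| - r)]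
        have h5 := cc_gt_nonneg t x
        nlinarith
    rw [integral_add ((cc_mom_int t x₀ 2).const_mul 2) ((cc_gt_int t).const_mul (2 * q t)),
      integral_const_mul, integral_const_mul, hone] at h1
    have h6 : 9 * (1 + r) * K2 ≤ 18 * (1 + q t) * K2 := by
      have : 9 * (1 + r) ≤ 18 * (1 + q t) := by linarith
      exact mul_le_mul_of_nonneg_right this hK2n
    have h7 : 0 ≤ K3 * (1 + q t) := by positivity
    nlinarith
  · have h1 : ∫ x, |x - t i| ^ 3 * gt t x ≤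
        ∫ x, (4 * (|x - x₀| ^ 3 * gt t x) + 4 * r ^ 3 * gt t x) := by
      refine integral_mono (cc_mom_int t (t i) 3) (((cc_mom_int t x₀ 3).const_mul 4).add
        ((cc_gt_int t).const_mul (4 * r ^ 3))) ?_
      intro x
      simp only
      have h2 := habs x
      have h3 : |x - t i| ^ 3 ≤ 4 * |x - x₀| ^ 3 + 4 * r ^ 3 := by
        have h4 : |x - t i| ^ 3 ≤ (|x - x₀| + r) ^ 3 :=
          pow_le_pow_left₀ (abs_nonneg _) h2 3
        have hA := abs_nonneg (x - x₀)
        have h8 : 0 ≤ (|x - x₀| + r) * (|x - x₀| - r) ^ 2 := by positivity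
        nlinarith
      have h5 := cc_gt_nonneg t x
      nlinarith
    rw [integral_add ((cc_mom_int t x₀ 3).const_mul 4) ((cc_gt_int t).const_mul (4 * r ^ 3)),
      integral_const_mul, integral_const_mul, hone] at h1
    have h6 : 9 * (1 + r) * K3 ≤ 18 * (1 + q t) * K3 := by
      have : 9 * (1 + r) ≤ 18 * (1 + q t) := by linarith
      exact mul_le_mul_of_nonneg_right this hK3n
    have h8 : r ^ 3 ≤ (1 + q t) ^ 2 := by
      rw [← hr2]
      nlinarith [sq_nonneg (r - 1), sq_nonneg (r ^ 2 - r), mul_nonneg hr0 (sq_nonneg (r - 1)),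
        sq_nonneg (r ^ 2), hr0]
    have h9 : (1 + q t) ≤ (1 + q t) ^ 2 := by nlinarith
    have h10 : (1 + q t) * K3 ≤ (1 + q t) ^ 2 * K3 := mul_le_mul_of_nonneg_right h9 hK3n
    have h11 : 0 ≤ K2 * (1 + q t) ^ 2 := by positivity
    nlinarith

/-- anti-concentration at the neighbours -/
theorem gt_anti (t : Fin 4 → ℝ) :
    1 / 2 ≤ ∫ x in {x | ∀ i, 1 / (144 * (1 + Real.sqrt (q t))) ≤ |x - t i|}, gt t x := by
  have hs := cc_s_pos t
  set s : ℝ := 1 + Real.sqrt (q t) with hsdef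
  have hs0 : 0 < s := by linarith
  set r : ℝ := 1 / (144 * s) with hr
  have hr0 : 0 < r := by positivity
  set A : Set ℝ := {x | ∀ i, r ≤ |x - t i|} with hA
  have hAm : MeasurableSet A := by
    have : A = ⋂ i, {x | r ≤ |x - t i|} := by
      ext x
      simp [hA]
    rw [this]
    refine MeasurableSet.iInter (fun i => ?_)
    exact (isClosed_le continuous_const (continuous_abs.comp (continuous_id.sub continuous_const))).measurableSet
  have hsub : Aᶜ ⊆ ⋃ i, Set.Ioo (t i - r) (t i + r) := by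
    intro x hx
    simp only [hA, Set.mem_compl_iff, Set.mem_setOf_eq, not_forall, not_le] at hx
    obtain ⟨i, hi⟩ := hx
    rw [Set.mem_iUnion]
    refine ⟨i, ?_⟩
    rw [abs_lt] at hi
    exact ⟨by linarith [hi.1], by linarith [hi.2]⟩
  have hvol : volume Aᶜ ≤ ENNReal.ofReal (8 * r) := by
    calc volume Aᶜ ≤ volume (⋃ i, Set.Ioo (t i - r) (t i + r)) := measure_mono hsub
      _ ≤ ∑ i : Fin 4, volume (Set.Ioo (t i - r) (t i + r)) := measure_iUnion_fintype_le _ _
      _ = ∑ i : Fin 4, ENNReal.ofReal (2 * r) := by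
          refine Finset.sum_congr rfl (fun i _ => ?_)
          rw [Real.volume_Ioo]
          congr 1
          ring
      _ = ENNReal.ofReal (8 * r) := by
          rw [← ENNReal.ofReal_sum_of_nonneg (fun i _ => by positivity)]
          congr 1
          simp
          ring
  have hfin : volume Aᶜ < ⊤ := lt_of_le_of_lt hvol ENNReal.ofReal_lt_top
  have hreal : volume.real Aᶜ ≤ 8 * r := by
    rw [Measure.real]
    exact ENNReal.toReal_le_of_le_ofReal (by positivity) hvol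
  have h1 : ‖∫ x in Aᶜ, gt t x‖ ≤ (9 * s) * volume.real Aᶜ := by
    refine norm_setIntegral_le_of_norm_le_const hfin ?_
    intro x _
    rw [Real.norm_eq_abs, abs_of_nonneg (cc_gt_nonneg t x)]
    exact gt_le t x
  have h2 : ∫ x in Aᶜ, gt t x ≤ 1 / 2 := by
    have h3 : (9 * s) * volume.real Aᶜ ≤ (9 * s) * (8 * r) :=
      mul_le_mul_of_nonneg_left hreal (by positivity)
    have h4 : (9 * s) * (8 * r) = 1 / 2 := by
      rw [hr]
      field_simp
      norm_num
    have h5 := (le_abs_self (∫ x in Aᶜ, gt t x))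
    rw [Real.norm_eq_abs] at h1
    linarith
  have h3 := integral_add_compl hAm (cc_gt_int t)
  rw [(gt_dens t).int] at h3
  linarith

end QG
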