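import Mathlib
import Pool.Agent.Lib_helper69.QG.Defs
import Pool.Agent.Lib_helper69.QG.W.ca

set_option autoImplicit false

namespace QG

open MeasureTheory

theorem cd_V_update (t : Fin 4 → ℝ) (i : Fin 4) (r x : ℝ) :
    V (Function.update t i r) x = (x - r) ^ 4 + ∑ j ∈ Finset.univ.erase i, (x - t j) ^ 4 := by
  unfold V
  rw [← Finset.add_sum_erase _ _ (Finset.mem_univ i)]
  congr 1
  · rw [Function.update_self]
  · refine Finset.sum_congr rfl fun j hj => ?_
    rw [Function.update_of_ne (Finset.ne_of_mem_erase hj)]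

theorem cd_V_cont : Continuous (fun p : (Fin 4 → ℝ) × ℝ => V p.1 p.2) := by
  unfold V
  fun_prop

theorem cd_bound0 (S : ℝ) (t : Fin 4 → ℝ) (ht : ∀ i, |t i| ≤ S) (x : ℝ) :
    Real.exp (-V t x) ≤ Real.exp (S ^ 4 + 1 / 8) * Real.exp (-(1 / 4) * x ^ 2) := by
  rw [← Real.exp_add]
  refine Real.exp_le_exp.2 ?_
  have h1 : (x - t 0) ^ 4 ≤ V t x := by
    unfold V
    refine Finset.single_le_sum (f := fun i => (x - t i) ^ 4) (fun i _ => ?_) (Finset.mem_univ 0)
    positivity
  have h2 : (t 0) ^ 4 ≤ S ^ 4 := by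
    have h3 : (t 0) ^ 4 = |t 0| ^ 4 := by
      rw [← abs_pow, abs_of_nonneg (by positivity)]
    rw [h3]
    exact pow_le_pow_left₀ (abs_nonneg _) (ht 0) 4
  have h4 : x ^ 4 ≤ 8 * ((x - t 0) ^ 4 + (t 0) ^ 4) := by
    have h5 : x ^ 2 ≤ 2 * ((x - t 0) ^ 2 + (t 0) ^ 2) := by
      nlinarith [sq_nonneg (x - t 0 - t 0)]
    have h6 : (x ^ 2) ^ 2 ≤ (2 * ((x - t 0) ^ 2 + (t 0) ^ 2)) ^ 2 :=
      pow_le_pow_left₀ (sq_nonneg _) h5 2
    nlinarith [sq_nonneg ((x - t 0) ^ 2 - (t 0) ^ 2)]
  nlinarith [sq_nonneg (x ^ 2 - 1)]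

theorem cd_bound3 (S : ℝ) (t : Fin 4 → ℝ) (ht : ∀ i, |t i| ≤ S) (i : Fin 4) (x : ℝ) :
    |x - t i| ^ 3 * Real.exp (-V t x) ≤
      48 * Real.exp (S / 2 + 1 / 2) * Real.exp (S ^ 4 + 1 / 8) * Real.exp (-(1 / 8) * x ^ 2) := by
  have hS : 0 ≤ S := (abs_nonneg _).trans (ht 0)
  have h1 : |x - t i| ≤ |x| + S := (abs_sub _ _).trans (add_le_add le_rfl (ht i))
  have h2 : |x - t i| ^ 3 ≤ (|x| + S) ^ 3 := pow_le_pow_left₀ (abs_nonneg _) h1 3
  have h3 : (|x| + S) ^ 3 ≤ 48 * Real.exp ((|x| + S) / 2) := by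
    have h4 := Real.pow_div_factorial_le_exp ((|x| + S) / 2) (by positivity) 3
    have h5 : ((Nat.factorial 3 : ℕ) : ℝ) = 6 := by norm_num [Nat.factorial]
    rw [h5] at h4
    nlinarith
  have h6 : Real.exp ((|x| + S) / 2) ≤
      Real.exp (S / 2 + 1 / 2) * Real.exp ((1 / 8) * x ^ 2) := by
    rw [← Real.exp_add]
    refine Real.exp_le_exp.2 ?_
    nlinarith [sq_nonneg (|x| - 2), sq_abs x]
  have h7 := cd_bound0 S t ht x
  calc |x - t i| ^ 3 * Real.exp (-V t x)
      ≤ (48 * (Real.exp (S / 2 + 1 / 2) * Real.exp ((1 / 8) * x ^ 2))) *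
        (Real.exp (S ^ 4 + 1 / 8) * Real.exp (-(1 / 4) * x ^ 2)) := by
        refine mul_le_mul ((h2.trans h3).trans ?_) h7 (Real.exp_pos _).le (by positivity)
        exact mul_le_mul_of_nonneg_left h6 (by norm_num)
    _ = 48 * Real.exp (S / 2 + 1 / 2) * Real.exp (S ^ 4 + 1 / 8) *
        (Real.exp ((1 / 8) * x ^ 2) * Real.exp (-(1 / 4) * x ^ 2)) := by ring
    _ = _ := by
        rw [← Real.exp_add]
        congr 2
        ring

theorem cd_near (t : Fin 4 → ℝ) : ∃ S : ℝ, ∀ᶠ s in nhds t, ∀ i, |s i| ≤ S := by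
  refine ⟨‖t‖ + 1, ?_⟩
  filter_upwards [Metric.ball_mem_nhds t one_pos] with s hs
  intro i
  have h1 : ‖s‖ ≤ ‖t‖ + 1 := by
    have h2 : ‖s - t‖ < 1 := by rwa [mem_ball_iff_norm] at hs
    have h3 : ‖s‖ ≤ ‖s - t‖ + ‖t‖ := by
      simpa using norm_add_le (s - t) t
    linarith
  exact (norm_le_pi_norm s i).trans h1

theorem w4_cont : Continuous w4 := by
  rw [continuous_iff_continuousAt]
  intro t
  obtain ⟨S, hS⟩ := cd_near t
  unfold w4
  refine continuousAt_of_dominated
    (bound := fun x => Real.exp (S ^ 4 + 1 / 8) * Real.exp (-(1 / 4) * x ^ 2)) ?_ ?_ ?_ ?_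
  · refine Filter.Eventually.of_forall fun s => Continuous.aestronglyMeasurable ?_
    have h := cd_V_cont.comp (Continuous.prodMk (continuous_const (y := s)) continuous_id)
    exact Real.continuous_exp.comp h.neg
  · filter_upwards [hS] with s hs
    refine Filter.Eventually.of_forall fun x => ?_
    rw [Real.norm_eq_abs, abs_of_pos (Real.exp_pos _)]
    exact cd_bound0 S s hs x
  · exact (integrable_exp_neg_mul_sq (by norm_num : (0 : ℝ) < 1 / 4)).const_mul _
  · refine Filter.Eventually.of_forall fun x => Continuous.continuousAt ?_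
    have h := cd_V_cont.comp (Continuous.prodMk continuous_id (continuous_const (y := x)))
    exact Real.continuous_exp.comp h.neg

theorem cd_G4_eq (i : Fin 4) (t : Fin 4 → ℝ) :
    G4 i t = -((∫ x, 4 * (x - t i) ^ 3 * Real.exp (-V t x)) / w4 t) := by
  unfold G4 gt
  rw [← integral_div]
  congr 1
  refine integral_congr_ae (Filter.Eventually.of_forall fun x => ?_)
  show 4 * (x - t i) ^ 3 * (Real.exp (-V t x) / w4 t) =
    4 * (x - t i) ^ 3 * Real.exp (-V t x) / w4 t
  ring

theorem cd_abs (t : Fin 4 → ℝ) (i : Fin 4) (x : ℝ) :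
    ‖4 * (x - t i) ^ 3 * Real.exp (-V t x)‖ = 4 * (|x - t i| ^ 3 * Real.exp (-V t x)) := by
  rw [Real.norm_eq_abs, abs_mul, abs_mul, abs_pow, abs_of_pos (Real.exp_pos _),
    abs_of_pos (by norm_num : (0 : ℝ) < 4)]
  ring

theorem cd_num_cont (i : Fin 4) :
    Continuous (fun t : Fin 4 → ℝ => ∫ x, 4 * (x - t i) ^ 3 * Real.exp (-V t x)) := by
  rw [continuous_iff_continuousAt]
  intro t
  obtain ⟨S, hS⟩ := cd_near t
  refine continuousAt_of_dominated
    (bound := fun x => 4 * (48 * Real.exp (S / 2 + 1 / 2) * Real.exp (S ^ 4 + 1 / 8) *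
      Real.exp (-(1 / 8) * x ^ 2))) ?_ ?_ ?_ ?_
  · refine Filter.Eventually.of_forall fun s => Continuous.aestronglyMeasurable ?_
    have h := cd_V_cont.comp (Continuous.prodMk (continuous_const (y := s)) continuous_id)
    exact (by fun_prop : Continuous fun x : ℝ => 4 * (x - s i) ^ 3).mul
      (Real.continuous_exp.comp h.neg)
  · filter_upwards [hS] with s hs
    refine Filter.Eventually.of_forall fun x => ?_
    rw [cd_abs]
    exact mul_le_mul_of_nonneg_left (cd_bound3 S s hs i x) (by norm_num)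
  · exact ((integrable_exp_neg_mul_sq (by norm_num : (0 : ℝ) < 1 / 8)).const_mul _).const_mul _
  · refine Filter.Eventually.of_forall fun x => Continuous.continuousAt ?_
    have h := cd_V_cont.comp (Continuous.prodMk continuous_id (continuous_const (y := x)))
    exact (by fun_prop : Continuous fun s : Fin 4 → ℝ => 4 * (x - s i) ^ 3).mul
      (Real.continuous_exp.comp h.neg)

theorem G4_cont (i : Fin 4) : Continuous (G4 i) := by
  have h : G4 i = fun t => -((∫ x, 4 * (x - t i) ^ 3 * Real.exp (-V t x)) / w4 t) := by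
    funext t
    exact cd_G4_eq i t
  rw [h]
  exact ((cd_num_cont i).div w4_cont (fun t => (w4_pos t).ne')).neg

theorem w4_deriv (i : Fin 4) (t : Fin 4 → ℝ) :
    HasDerivAt (fun r => w4 (Function.update t i r)) (-(G4 i t * w4 t)) (t i) := by
  have e : -(G4 i t * w4 t) = ∫ x, 4 * (x - t i) ^ 3 * Real.exp (-V t x) := by
    rw [cd_G4_eq]
    field_simp [(w4_pos t).ne']
  rw [e]
  have hupd : ∀ r ∈ Metric.ball (t i) 1, ∀ j, |Function.update t i r j| ≤ ‖t‖ + 1 := by
    intro r hr j
    by_cases hj : j = i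
    · subst hj
      rw [Function.update_self]
      have h1 : |r - t j| < 1 := by rwa [Metric.mem_ball, Real.dist_eq] at hr
      have h2 : |t j| ≤ ‖t‖ := norm_le_pi_norm t j
      have h3 : |r| ≤ |r - t j| + |t j| := by
        simpa using abs_add_le (r - t j) (t j)
      linarith
    · rw [Function.update_of_ne hj]
      have h2 : |t j| ≤ ‖t‖ := norm_le_pi_norm t j
      linarith
  have hmeas : ∀ s : Fin 4 → ℝ, Continuous (fun x : ℝ => Real.exp (-V s x)) := by
    intro s
    have h := cd_V_cont.comp (Continuous.prodMk (continuous_const (y := s)) continuous_id)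
    exact Real.continuous_exp.comp h.neg
  have key := hasDerivAt_integral_of_dominated_loc_of_deriv_le (μ := volume)
    (F := fun r x => Real.exp (-V (Function.update t i r) x))
    (F' := fun r x => 4 * (x - Function.update t i r i) ^ 3 *
      Real.exp (-V (Function.update t i r) x))
    (x₀ := t i) (s := Metric.ball (t i) 1)
    (bound := fun x => 4 * (48 * Real.exp ((‖t‖ + 1) / 2 + 1 / 2) *
      Real.exp ((‖t‖ + 1) ^ 4 + 1 / 8) * Real.exp (-(1 / 8) * x ^ 2)))
    (Metric.ball_mem_nhds _ one_pos)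
    (Filter.Eventually.of_forall fun r => (hmeas _).aestronglyMeasurable)
    (by
      have h := int_pow_exp (Function.update t i (t i)) 0 0
      simpa using h)
    (by
      refine Continuous.aestronglyMeasurable ?_
      exact (by fun_prop : Continuous fun x : ℝ => 4 * (x - Function.update t i (t i) i) ^ 3).mul
        (hmeas _))
    (by
      refine Filter.Eventually.of_forall fun x r hr => ?_
      rw [cd_abs]
      exact mul_le_mul_of_nonneg_left (cd_bound3 _ _ (hupd r hr) i x) (by norm_num))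
    (((integrable_exp_neg_mul_sq (by norm_num : (0 : ℝ) < 1 / 8)).const_mul _).const_mul _)
    (by
      refine Filter.Eventually.of_forall fun x r _ => ?_
      have h1 : HasDerivAt (fun r : ℝ => -V (Function.update t i r) x)
          (4 * (x - r) ^ 3) r := by
        have h2 : (fun r : ℝ => -V (Function.update t i r) x) =
            fun r => -((x - r) ^ 4 + ∑ j ∈ Finset.univ.erase i, (x - t j) ^ 4) := by
          funext r
          rw [cd_V_update]
        rw [h2]
        have h3 : HasDerivAt (fun r : ℝ => (x - r) ^ 4) (((4 : ℕ) : ℝ) * (x - r) ^ 3 * (-1)) r :=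
          ((hasDerivAt_id r).const_sub x).pow 4
        have h4 := (h3.add_const (∑ j ∈ Finset.univ.erase i, (x - t j) ^ 4)).neg
        refine h4.congr_deriv ?_
        push_cast
        ring
      have h5 := h1.exp
      refine h5.congr_deriv ?_
      rw [Function.update_self]
      ring)
  have h := key.2
  simp only [Function.update_eq_self] at h
  exact h

end QG
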