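import Mathlib
import Pool.Agent.Lib_helper69.QG.Defs

set_option autoImplicit false

namespace QG

open MeasureTheory

theorem qa_g_cont {g d : ℝ → ℝ} (h : Dens g d) : Continuous g :=
  continuous_iff_continuousAt.2 fun x => (h.deriv x).continuousAt

theorem qa_g_int {g d : ℝ → ℝ} (h : Dens g d) : Integrable g :=
  integrable_of_integral_eq_one h.int

theorem qa_F_deriv {g d : ℝ → ℝ} (h : Dens g d) (x : ℝ) :
    HasDerivAt (fun x => ∫ y in Set.Iic x, g y) (g x) x := by
  have h1 : (fun x => ∫ y in Set.Iic x, g y) =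
      fun x => (∫ y in Set.Iic 0, g y) + ∫ y in (0:ℝ)..x, g y := by
    funext x
    rw [← intervalIntegral.integral_Iic_sub_Iic (qa_g_int h).integrableOn
      (qa_g_int h).integrableOn]
    ring
  rw [h1]
  have h2 := intervalIntegral.integral_hasDerivAt_right (a := 0) (b := x) (f := g)
    ((qa_g_int h).intervalIntegrable)
    ((qa_g_cont h).stronglyMeasurableAtFilter _ _) ((qa_g_cont h).continuousAt)
  exact h2.const_add _

theorem qa_F_mono {g d : ℝ → ℝ} (h : Dens g d) :
    StrictMono (fun x => ∫ y in Set.Iic x, g y) := by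
  apply strictMono_of_deriv_pos
  intro x
  rw [(qa_F_deriv h x).deriv]
  exact h.pos x

theorem qa_F_cont {g d : ℝ → ℝ} (h : Dens g d) :
    Continuous (fun x => ∫ y in Set.Iic x, g y) :=
  continuous_iff_continuousAt.2 fun x => (qa_F_deriv h x).continuousAt

theorem qa_F_top {g d : ℝ → ℝ} (h : Dens g d) :
    Filter.Tendsto (fun x => ∫ y in Set.Iic x, g y) Filter.atTop (nhds 1) := by
  have h1 := (aecover_Iic (μ := (volume : Measure ℝ)) (Filter.tendsto_id (α := ℝ)
    (x := Filter.atTop))).integral_tendsto_of_countably_generated (qa_g_int h)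
  rw [h.int] at h1
  exact h1

theorem qa_F_bot {g d : ℝ → ℝ} (h : Dens g d) :
    Filter.Tendsto (fun x => ∫ y in Set.Iic x, g y) Filter.atBot (nhds 0) := by
  have h1 := (aecover_Ioi (μ := (volume : Measure ℝ)) (Filter.tendsto_id (α := ℝ)
    (x := Filter.atBot))).integral_tendsto_of_countably_generated (qa_g_int h)
  rw [h.int] at h1
  have h2 : (fun x => ∫ y in Set.Iic x, g y) = fun x => 1 - ∫ y in Set.Ioi (id x), g y := by
    funext x
    have := integral_add_compl (s := Set.Iic x) (μ := volume) measurableSet_Iic (qa_g_int h)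
    rw [h.int, Set.compl_Iic] at this
    simp only [id]
    linarith
  rw [h2]
  have h3 := h1.const_sub 1
  simpa using h3

theorem qa_F_mem {g d : ℝ → ℝ} (h : Dens g d) (x : ℝ) :
    (∫ y in Set.Iic x, g y) ∈ Set.Ioo (0 : ℝ) 1 := by
  have hm := qa_F_mono h
  constructor
  · have h1 : (0:ℝ) ≤ ∫ y in Set.Iic (x - 1), g y :=
      setIntegral_nonneg measurableSet_Iic fun y _ => (h.pos y).le
    have h2 : (∫ y in Set.Iic (x - 1), g y) < ∫ y in Set.Iic x, g y := hm (by linarith)
    linarith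
  · have h1 : (∫ y in Set.Iic (x + 1), g y) ≤ 1 := by
      rw [← h.int]
      exact setIntegral_le_integral (qa_g_int h) (Filter.Eventually.of_forall fun y => (h.pos y).le)
    have h2 : (∫ y in Set.Iic x, g y) < ∫ y in Set.Iic (x + 1), g y := hm (by linarith)
    linarith

/-- the quantile at the distribution function -/
theorem qa_of_cdf {g d : ℝ → ℝ} (h : Dens g d) (x : ℝ) :
    qt g (∫ y in Set.Iic x, g y) = x := by
  unfold qt
  rw [if_pos (qa_F_mem h x)]
  have h1 : {z | (∫ y in Set.Iic x, g y) ≤ ∫ y in Set.Iic z, g y} = Set.Ici x := by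
    ext z
    exact (qa_F_mono h).le_iff_le
  rw [h1, csInf_Ici]

theorem qa_surj {g d : ℝ → ℝ} (h : Dens g d) {u : ℝ} (hu : u ∈ Set.Ioo (0 : ℝ) 1) :
    ∃ x, ∫ y in Set.Iic x, g y = u := by
  have h1 : ∃ a, (∫ y in Set.Iic a, g y) ≤ u := by
    have := (qa_F_bot h).eventually (gt_mem_nhds hu.1)
    obtain ⟨a, ha⟩ := this.exists
    exact ⟨a, ha.le⟩
  have h2 : ∃ b, u ≤ ∫ y in Set.Iic b, g y := by
    have := (qa_F_top h).eventually (lt_mem_nhds hu.2)
    obtain ⟨a, ha⟩ := this.exists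
    exact ⟨a, ha.le⟩
  exact mem_range_of_exists_le_of_exists_ge (qa_F_cont h) h1 h2

/-- the distribution function at the quantile -/
theorem qt_cdf {g d : ℝ → ℝ} (h : Dens g d) {u : ℝ} (hu : u ∈ Set.Ioo (0 : ℝ) 1) :
    ∫ y in Set.Iic (qt g u), g y = u := by
  obtain ⟨x, hx⟩ := qa_surj h hu
  have h1 := qa_of_cdf h x
  rw [hx] at h1
  rw [h1, hx]

/-- the quantile at the distribution function -/
theorem qt_of_cdf {g d : ℝ → ℝ} (h : Dens g d) (x : ℝ) :
    (∫ y in Set.Iic x, g y) ∈ Set.Ioo (0 : ℝ) 1 ∧ qt g (∫ y in Set.Iic x, g y) = x :=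
  ⟨qa_F_mem h x, qa_of_cdf h x⟩

theorem qt_deriv {g d : ℝ → ℝ} (h : Dens g d) {u : ℝ} (hu : u ∈ Set.Ioo (0 : ℝ) 1) :
    HasDerivAt (qt g) (1 / g (qt g u)) u := by
  have hcont : ContinuousAt (qt g) u := by
    rw [Metric.continuousAt_iff']
    intro ε hε
    have hm := qa_F_mono h
    have e0 := qt_cdf h hu
    have e1 : (∫ y in Set.Iic (qt g u - ε), g y) < u := by
      rw [← e0]
      have : (∫ y in Set.Iic (qt g u - ε), g y) < ∫ y in Set.Iic (qt g u), g y :=
        hm (by linarith)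
      rwa [e0] at this ⊢
    have e2 : u < (∫ y in Set.Iic (qt g u + ε), g y) := by
      have : (∫ y in Set.Iic (qt g u), g y) < ∫ y in Set.Iic (qt g u + ε), g y :=
        hm (by linarith)
      rwa [e0] at this
    filter_upwards [lt_mem_nhds e1, gt_mem_nhds e2, isOpen_Ioo.mem_nhds hu] with v h1 h2 h3
    have e3 := qt_cdf h h3
    rw [← e3] at h1 h2
    have h1' : qt g u - ε < qt g v := hm.lt_iff_lt.1 h1
    have h2' : qt g v < qt g u + ε := hm.lt_iff_lt.1 h2
    rw [Real.dist_eq, abs_lt]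
    constructor <;> linarith
  have h3 := HasDerivAt.of_local_left_inverse (f := fun x => ∫ y in Set.Iic x, g y) (g := qt g)
    hcont (qa_F_deriv h (qt g u)) (h.pos _).ne' (by
      filter_upwards [isOpen_Ioo.mem_nhds hu] with v hv
      exact qt_cdf h hv)
  rw [one_div]
  exact h3

end QG
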