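import Mathlib
import Pool.Agent.Lib_helper69.QG.Defs
import Pool.Agent.Lib_helper69.QG.W.qa

set_option autoImplicit false

namespace QG

open MeasureTheory

theorem qb_integrable {g : ℝ → ℝ} (hi : ∫ x, g x = 1) : Integrable g := by
  by_contra h
  rw [integral_undef h] at hi
  exact zero_ne_one hi

theorem qb_F_eq {g : ℝ → ℝ} (hg : Integrable g) (r : ℝ) :
    ∫ y in Set.Iic r, g y = (∫ y in Set.Iic (0 : ℝ), g y) + ∫ y in (0 : ℝ)..r, g y := by
  have := intervalIntegral.integral_Iic_sub_Iic (a := 0) (b := r) (μ := volume) (f := g)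
    hg.integrableOn hg.integrableOn
  linarith

theorem qb_F_cont {g : ℝ → ℝ} (hg : Integrable g) :
    Continuous (fun r : ℝ => ∫ y in Set.Iic r, g y) := by
  have h : (fun r : ℝ => ∫ y in Set.Iic r, g y)
      = fun r => (∫ y in Set.Iic (0 : ℝ), g y) + ∫ y in (0 : ℝ)..r, g y := by
    funext r
    exact qb_F_eq hg r
  rw [h]
  refine continuous_const.add ?_
  exact intervalIntegral.continuous_primitive (fun a b => hg.intervalIntegrable) 0

theorem qb_F_bot {g : ℝ → ℝ} (hg : Integrable g) :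
    Filter.Tendsto (fun r : ℝ => ∫ y in Set.Iic r, g y) Filter.atBot (nhds 0) := by
  have h1 := intervalIntegral_tendsto_integral_Iic (μ := volume) (f := g) (0 : ℝ)
    hg.integrableOn (Filter.tendsto_id (α := ℝ) (x := Filter.atBot))
  have h2 : (fun r : ℝ => ∫ y in Set.Iic r, g y)
      = fun r => (∫ y in Set.Iic (0 : ℝ), g y) - ∫ y in r..(0 : ℝ), g y := by
    funext r
    rw [qb_F_eq hg r, intervalIntegral.integral_symm]
    ring
  rw [h2]
  have h3 := (tendsto_const_nhds (x := ∫ y in Set.Iic (0 : ℝ), g y)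
    (f := (Filter.atBot : Filter ℝ))).sub h1
  simpa using h3

theorem qb_F_top {g : ℝ → ℝ} (hg : Integrable g) :
    Filter.Tendsto (fun r : ℝ => ∫ y in Set.Iic r, g y) Filter.atTop (nhds (∫ y, g y)) := by
  have h1 := intervalIntegral_tendsto_integral_Ioi (μ := volume) (f := g) (0 : ℝ)
    hg.integrableOn (Filter.tendsto_id (α := ℝ) (x := Filter.atTop))
  have h2 : (fun r : ℝ => ∫ y in Set.Iic r, g y)
      = fun r => (∫ y in Set.Iic (0 : ℝ), g y) + ∫ y in (0 : ℝ)..r, g y := by
    funext r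
    exact qb_F_eq hg r
  rw [h2]
  have h3 := (tendsto_const_nhds (x := ∫ y in Set.Iic (0 : ℝ), g y)
    (f := (Filter.atTop : Filter ℝ))).add h1
  rw [intervalIntegral.integral_Iic_add_Ioi hg.integrableOn hg.integrableOn] at h3
  simpa using h3

theorem qb_F_mono {g : ℝ → ℝ} (hg : Integrable g) (hp : ∀ x, 0 < g x) {r s : ℝ} (h : r ≤ s) :
    ∫ y in Set.Iic r, g y ≤ ∫ y in Set.Iic s, g y := by
  refine setIntegral_mono_set hg.integrableOn ?_ ?_
  · exact Filter.Eventually.of_forall (fun x => (hp x).le)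
  · exact (Set.Iic_subset_Iic.mpr h).eventuallyLE

theorem qb_F_nonneg {g : ℝ → ℝ} (hp : ∀ x, 0 < g x) (r : ℝ) :
    0 ≤ ∫ y in Set.Iic r, g y :=
  integral_nonneg (fun x => (hp x).le)

theorem qb_F_le_one {g : ℝ → ℝ} (hp : ∀ x, 0 < g x) (hi : ∫ x, g x = 1) (r : ℝ) :
    ∫ y in Set.Iic r, g y ≤ 1 := by
  rw [← hi]
  exact setIntegral_le_integral (qb_integrable hi)
    (Filter.Eventually.of_forall (fun x => (hp x).le))

theorem qb_qt_le {g : ℝ → ℝ} (hp : ∀ x, 0 < g x) (hi : ∫ x, g x = 1) {u r : ℝ}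
    (hu : u ∈ Set.Ioo (0 : ℝ) 1) : qt g u ≤ r ↔ u ≤ ∫ y in Set.Iic r, g y := by
  have hg := qb_integrable hi
  have hq : qt g u = sInf {x | u ≤ ∫ y in Set.Iic x, g y} := by
    simp only [qt]
    rw [if_pos hu]
  have hbdd : BddBelow {x | u ≤ ∫ y in Set.Iic x, g y} := by
    have hev : ∀ᶠ r : ℝ in Filter.atBot, ∫ y in Set.Iic r, g y < u :=
      (qb_F_bot hg).eventually (gt_mem_nhds hu.1)
    obtain ⟨b, hb⟩ := hev.exists
    refine ⟨b, ?_⟩
    intro x hx
    by_contra hlt
    have := qb_F_mono hg hp (le_of_lt (not_le.mp hlt))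
    have hx' : u ≤ ∫ y in Set.Iic x, g y := hx
    linarith
  have hne : {x | u ≤ ∫ y in Set.Iic x, g y}.Nonempty := by
    have hev : ∀ᶠ r : ℝ in Filter.atTop, u < ∫ y in Set.Iic r, g y := by
      refine (qb_F_top hg).eventually (lt_mem_nhds ?_)
      rw [hi]
      exact hu.2
    obtain ⟨b, hb⟩ := hev.exists
    exact ⟨b, hb.le⟩
  have hcl : IsClosed {x | u ≤ ∫ y in Set.Iic x, g y} :=
    isClosed_le continuous_const (qb_F_cont hg)
  rw [hq]
  constructor
  · intro h
    have hmem : u ≤ ∫ y in Set.Iic (sInf {x | u ≤ ∫ y in Set.Iic x, g y}), g y :=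
      hcl.csInf_mem hne hbdd
    exact hmem.trans (qb_F_mono hg hp h)
  · intro h
    exact csInf_le hbdd h

/-- joint measurability of the quantile function -/
theorem qt_meas2 {X : Type} [MeasurableSpace X] {f : X → ℝ → ℝ}
    (hf : Measurable (fun p : X × ℝ => f p.1 p.2)) (hp : ∀ x r, 0 < f x r)
    (hi : ∀ x, ∫ r, f x r = 1) : Measurable (fun p : X × ℝ => qt (f p.1) p.2) := by
  refine measurable_of_Iic ?_
  intro r
  have hset : (fun p : X × ℝ => qt (f p.1) p.2) ⁻¹' Set.Iic r
      = ({p : X × ℝ | p.2 ∈ Set.Ioo (0 : ℝ) 1} ∩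
          {p : X × ℝ | p.2 ≤ ∫ y in Set.Iic r, f p.1 y}) ∪
        ({p : X × ℝ | p.2 ∉ Set.Ioo (0 : ℝ) 1} ∩ {_p : X × ℝ | 0 ≤ r}) := by
    ext p
    simp only [Set.mem_preimage, Set.mem_Iic, Set.mem_union, Set.mem_inter_iff, Set.mem_setOf_eq]
    by_cases hu : p.2 ∈ Set.Ioo (0 : ℝ) 1
    · rw [qb_qt_le (hp p.1) (hi p.1) hu]
      simp [hu]
    · have : qt (f p.1) p.2 = 0 := by
        simp only [qt]
        rw [if_neg hu]
      rw [this]
      simp [hu]
  rw [hset]
  have hF : Measurable (fun x : X => ∫ y in Set.Iic r, f x y) := by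
    have h1 : StronglyMeasurable (fun p : X × ℝ => f p.1 p.2) := hf.stronglyMeasurable
    exact (h1.integral_prod_right' (ν := volume.restrict (Set.Iic r))).measurable
  refine MeasurableSet.union (MeasurableSet.inter ?_ ?_) (MeasurableSet.inter ?_ ?_)
  · exact measurable_snd measurableSet_Ioo
  · exact measurableSet_le measurable_snd (hF.comp measurable_fst)
  · exact (measurable_snd measurableSet_Ioo).compl
  · exact MeasurableSet.const _

theorem qb_meas0 {g : ℝ → ℝ} (hm : Measurable g) (hp : ∀ x, 0 < g x) (hi : ∫ x, g x = 1) :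
    Measurable (qt g) := by
  have h := qt_meas2 (X := Unit) (f := fun _ => g) (hm.comp measurable_snd)
    (fun _ => hp) (fun _ => hi)
  exact h.comp (measurable_const.prodMk measurable_id : Measurable (fun u : ℝ => ((), u)))

theorem qb_cont {g d : ℝ → ℝ} (h : Dens g d) : Continuous g :=
  continuous_iff_continuousAt.mpr (fun x => (h.deriv x).continuousAt)

theorem qt_meas {g d : ℝ → ℝ} (h : Dens g d) : Measurable (qt g) :=
  qb_meas0 (qb_cont h).measurable h.pos h.int

theorem qb_vol {c : ℝ} (h0 : 0 ≤ c) (h1 : c ≤ 1) :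
    volume (Set.Iic c ∩ Set.Ioo (0 : ℝ) 1) = ENNReal.ofReal c := by
  refine le_antisymm ?_ ?_
  · calc volume (Set.Iic c ∩ Set.Ioo (0 : ℝ) 1) ≤ volume (Set.Ioc (0 : ℝ) c) := by
          refine measure_mono ?_
          rintro x ⟨hx1, hx2⟩
          exact ⟨hx2.1, hx1⟩
      _ = ENNReal.ofReal c := by rw [Real.volume_Ioc]; simp
  · calc ENNReal.ofReal c = volume (Set.Ioo (0 : ℝ) c) := by rw [Real.volume_Ioo]; simp
      _ ≤ volume (Set.Iic c ∩ Set.Ioo (0 : ℝ) 1) := by
          refine measure_mono ?_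
          rintro x ⟨hx1, hx2⟩
          exact ⟨hx2.le, hx1, lt_of_lt_of_le hx2 h1⟩

/-- the general version for a continuous positive integrable function of integral one -/
theorem qt_map0 {g : ℝ → ℝ} (hc : Continuous g) (hp : ∀ x, 0 < g x) (hi : ∫ x, g x = 1) :
    uni.map (qt g) = law1 g := by
  have hg := qb_integrable hi
  have hm := qb_meas0 hc.measurable hp hi
  have hfin : IsFiniteMeasure (uni.map (qt g)) := inferInstance
  refine Measure.ext_of_Iic _ _ ?_
  intro x
  rw [Measure.map_apply hm measurableSet_Iic]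
  have h1 : uni (qt g ⁻¹' Set.Iic x)
      = volume (Set.Iic (∫ y in Set.Iic x, g y) ∩ Set.Ioo (0 : ℝ) 1) := by
    rw [uni, Measure.restrict_apply (hm measurableSet_Iic)]
    congr 1
    ext u
    simp only [Set.mem_inter_iff, Set.mem_preimage, Set.mem_Iic]
    constructor
    · rintro ⟨ha, hu⟩
      exact ⟨(qb_qt_le hp hi hu).mp ha, hu⟩
    · rintro ⟨ha, hu⟩
      exact ⟨(qb_qt_le hp hi hu).mpr ha, hu⟩
  rw [h1, qb_vol (qb_F_nonneg hp x) (qb_F_le_one hp hi x), law1,
    withDensity_apply _ measurableSet_Iic,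
    ofReal_integral_eq_lintegral_ofReal hg.integrableOn
      (Filter.Eventually.of_forall (fun x => (hp x).le))]

/-- the quantile of a uniform variable has the density `g` -/
theorem qt_map {g d : ℝ → ℝ} (h : Dens g d) : uni.map (qt g) = law1 g :=
  qt_map0 (qb_cont h) h.pos h.int

/-- the same as a change of variables, for all functions -/
theorem qt_integral {g d : ℝ → ℝ} (h : Dens g d) {F : ℝ → ℝ} (hF : Measurable F) :
    (∫ u, F (qt g u) ∂uni = ∫ x, F x * g x) ∧
      (Integrable (fun u => F (qt g u)) uni ↔ Integrable (fun x => F x * g x)) := by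
  have hm := qt_meas h
  have hgm : Measurable (fun x => ENNReal.ofReal (g x)) :=
    (qb_cont h).measurable.ennreal_ofReal
  have htop : ∀ᵐ x ∂(volume : Measure ℝ), ENNReal.ofReal (g x) < ⊤ :=
    Filter.Eventually.of_forall (fun x => ENNReal.ofReal_lt_top)
  constructor
  · have h1 : ∫ u, F (qt g u) ∂uni = ∫ x, F x ∂(uni.map (qt g)) :=
      (integral_map hm.aemeasurable hF.aestronglyMeasurable).symm
    rw [h1, qt_map h, law1, integral_withDensity_eq_integral_toReal_smul hgm htop]
    refine integral_congr_ae (Filter.Eventually.of_forall (fun x => ?_))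
    simp only [smul_eq_mul]
    rw [ENNReal.toReal_ofReal (h.pos x).le, mul_comm]
  · have h1 : Integrable (fun u => F (qt g u)) uni ↔ Integrable F (uni.map (qt g)) :=
      (integrable_map_measure hF.aestronglyMeasurable hm.aemeasurable).symm
    rw [h1, qt_map h, law1, integrable_withDensity_iff hgm htop]
    refine integrable_congr (Filter.Eventually.of_forall (fun x => ?_))
    simp only
    rw [ENNReal.toReal_ofReal (h.pos x).le]

end QG
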