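import Mathlib
import Pool.Agent.Lib_helper69.QG.Defs
import Pool.Agent.Lib_helper69.QG.W.qa
import Pool.Agent.Lib_helper69.QG.W.qb

set_option autoImplicit false

namespace QG

open MeasureTheory

/-- Cauchy-Schwarz on an interval -/
theorem qk_cs {s : ℝ → ℝ} {a b : ℝ} (hab : a < b) (hs : IntervalIntegrable s volume a b)
    (hs2 : IntervalIntegrable (fun u => s u ^ 2) volume a b) :
    (∫ u in a..b, s u) ^ 2 ≤ (b - a) * ∫ u in a..b, s u ^ 2 := by
  have hba : 0 < b - a := sub_pos.2 hab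
  set m : ℝ := (∫ u in a..b, s u) / (b - a) with hm
  have hI : ∫ u in a..b, s u = m * (b - a) := by rw [hm]; field_simp
  have h0 : 0 ≤ ∫ u in a..b, (s u - m) ^ 2 :=
    intervalIntegral.integral_nonneg hab.le (fun u _ => sq_nonneg _)
  have h1 : ∫ u in a..b, (s u - m) ^ 2 =
      (∫ u in a..b, s u ^ 2) - 2 * m * (∫ u in a..b, s u) + m ^ 2 * (b - a) := by
    have e : ∀ u, (s u - m) ^ 2 = s u ^ 2 - 2 * m * s u + m ^ 2 := fun u => by ring
    simp_rw [e]
    rw [intervalIntegral.integral_add (hs2.sub (hs.const_mul _)) intervalIntegrable_const,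
      intervalIntegral.integral_sub hs2 (hs.const_mul _), intervalIntegral.integral_const_mul,
      intervalIntegral.integral_const, smul_eq_mul]
    ring
  rw [h1, hI] at h0
  rw [hI]
  nlinarith

/-- monotonicity from the derivative -/
theorem qk_mono {q q' : ℝ → ℝ} (hq : ∀ u ∈ Set.Ioo (0 : ℝ) 1, HasDerivAt q (q' u) u)
    (hq0 : ∀ u ∈ Set.Ioo (0 : ℝ) 1, 0 ≤ q' u) : MonotoneOn q (Set.Ioo 0 1) := by
  apply monotoneOn_of_deriv_nonneg (convex_Ioo 0 1)
  · exact fun u hu => (hq u hu).continuousAt.continuousWithinAt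
  · rw [interior_Ioo]
    exact fun u hu => (hq u hu).differentiableAt.differentiableWithinAt
  · rw [interior_Ioo]
    intro u hu
    rw [(hq u hu).deriv]
    exact hq0 u hu

/-- the right boundary term -/
theorem qk_right {q ρ q' s : ℝ → ℝ} (hq : ∀ u ∈ Set.Ioo (0 : ℝ) 1, HasDerivAt q (q' u) u)
    (hρ : ∀ u ∈ Set.Ioo (0 : ℝ) 1, HasDerivAt ρ (-s u) u)
    (hs : ContinuousOn s (Set.Ioo 0 1)) (hq0 : ∀ u ∈ Set.Ioo (0 : ℝ) 1, 0 ≤ q' u)
    (hρ0 : ∀ u ∈ Set.Ioo (0 : ℝ) 1, 0 ≤ ρ u)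
    (hq2 : IntegrableOn (fun u => q u ^ 2) (Set.Ioo 0 1))
    (hs2 : IntegrableOn (fun u => s u ^ 2) (Set.Ioo 0 1))
    (h1 : Filter.Tendsto ρ (nhdsWithin 1 (Set.Iio 1)) (nhds 0)) :
    Filter.Tendsto (fun u => q u * ρ u) (nhdsWithin 1 (Set.Iio 1)) (nhds 0) := by
  have hmono := qk_mono hq hq0
  have iq : IntervalIntegrable (fun u => q u ^ 2) volume 0 1 :=
    (intervalIntegrable_iff_integrableOn_Ioo_of_le zero_le_one).2 hq2
  have is : IntervalIntegrable (fun u => s u ^ 2) volume 0 1 :=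
    (intervalIntegrable_iff_integrableOn_Ioo_of_le zero_le_one).2 hs2
  have tail : ∀ f : ℝ → ℝ, IntervalIntegrable f volume 0 1 →
      Filter.Tendsto (fun b => ∫ u in b..1, f u) (nhdsWithin 1 (Set.Iio 1)) (nhds 0) := by
    intro f hf
    have hc : ContinuousOn (fun x => ∫ t in x..1, f t) (Set.uIcc 0 1) := by
      apply intervalIntegral.continuousOn_primitive_interval_left
      rw [Set.uIcc_of_le zero_le_one, integrableOn_Icc_iff_integrableOn_Ioc]
      exact (intervalIntegrable_iff_integrableOn_Ioc_of_le zero_le_one).1 hf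
    have h2 := (hc 1 (by simp)).tendsto
    simp only [intervalIntegral.integral_same] at h2
    apply h2.mono_left
    rw [← nhdsWithin_Ioo_eq_nhdsLT (zero_lt_one (α := ℝ))]
    apply nhdsWithin_mono
    rw [Set.uIcc_of_le zero_le_one]
    exact Set.Ioo_subset_Icc_self
  have sub1 : ∀ f : ℝ → ℝ, IntervalIntegrable f volume 0 1 → ∀ b ∈ Set.Ioo (0 : ℝ) 1,
      ∀ c ∈ Set.Icc b 1, IntervalIntegrable f volume b c := by
    intro f hf b hb c hc
    apply hf.mono_set
    rw [Set.uIcc_of_le hc.1, Set.uIcc_of_le zero_le_one]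
    exact Set.Icc_subset_Icc hb.1.le hc.2
  -- the bound for ρ
  have bρ : ∀ b ∈ Set.Ioo (0 : ℝ) 1, ρ b ^ 2 ≤ (1 - b) * ∫ u in b..1, s u ^ 2 := by
    intro b hb
    have hlim : Filter.Tendsto (fun c => (ρ b - ρ c) ^ 2) (nhdsWithin 1 (Set.Iio 1))
        (nhds ((ρ b - 0) ^ 2)) := (tendsto_const_nhds.sub h1).pow 2
    rw [sub_zero] at hlim
    apply le_of_tendsto hlim
    have hev : Set.Ioo b 1 ∈ nhdsWithin (1 : ℝ) (Set.Iio 1) := by
      rw [← nhdsWithin_Ioo_eq_nhdsLT hb.2]
      exact self_mem_nhdsWithin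
    filter_upwards [hev] with c hc
    have hsub : Set.uIcc b c ⊆ Set.Ioo 0 1 := by
      rw [Set.uIcc_of_le hc.1.le]
      exact fun x hx => ⟨lt_of_lt_of_le hb.1 hx.1, lt_of_le_of_lt hx.2 hc.2⟩
    have hsc : IntervalIntegrable s volume b c := (hs.mono hsub).intervalIntegrable
    have ftc : ∫ u in b..c, -s u = ρ c - ρ b :=
      intervalIntegral.integral_eq_sub_of_hasDerivAt (fun u hu => hρ u (hsub hu)) hsc.neg
    rw [intervalIntegral.integral_neg] at ftc
    have e : ρ b - ρ c = ∫ u in b..c, s u := by linarith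
    rw [e]
    have i1 : IntervalIntegrable (fun u => s u ^ 2) volume b c := sub1 _ is b hb c ⟨hc.1.le, hc.2.le⟩
    have i2 : IntervalIntegrable (fun u => s u ^ 2) volume c 1 :=
      sub1 _ is c ⟨hb.1.trans hc.1, hc.2⟩ 1 ⟨hc.2.le, le_rfl⟩
    have cs := qk_cs hc.1 hsc i1
    have add := intervalIntegral.integral_add_adjacent_intervals i1 i2
    have p1 : 0 ≤ ∫ u in b..c, s u ^ 2 :=
      intervalIntegral.integral_nonneg hc.1.le (fun u _ => sq_nonneg _)
    have p2 : 0 ≤ ∫ u in c..1, s u ^ 2 :=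
      intervalIntegral.integral_nonneg hc.2.le (fun u _ => sq_nonneg _)
    rw [← add]
    have hbc := hc.1
    have hc1 := hc.2
    calc _ ≤ _ := cs
      _ ≤ (1 - b) * ∫ u in b..c, s u ^ 2 := by
        apply mul_le_mul_of_nonneg_right _ p1; linarith
      _ ≤ _ := by
        apply mul_le_mul_of_nonneg_left _ (by linarith)
        linarith
  -- the bound for q
  have bq : ∀ b ∈ Set.Ioo (0 : ℝ) 1, 0 ≤ q b → q b ^ 2 * (1 - b) ≤ ∫ u in b..1, q u ^ 2 := by
    intro b hb hqb
    have i2 : IntervalIntegrable (fun u => q u ^ 2) volume b 1 := sub1 _ iq b hb 1 ⟨hb.2.le, le_rfl⟩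
    have h3 : ∫ _u in b..1, q b ^ 2 ≤ ∫ u in b..1, q u ^ 2 := by
      apply intervalIntegral.integral_mono_on_of_le_Ioo hb.2.le intervalIntegrable_const i2
      intro u hu
      have h4 : q b ≤ q u := hmono hb ⟨hb.1.trans hu.1, hu.2⟩ hu.1.le
      exact pow_le_pow_left₀ hqb h4 2
    rw [intervalIntegral.integral_const, smul_eq_mul] at h3
    linarith
  have hhalf : (1 / 2 : ℝ) ∈ Set.Ioo (0 : ℝ) 1 := by constructor <;> norm_num
  have hT : Filter.Tendsto (fun b => Real.sqrt ((∫ u in b..1, q u ^ 2) * ∫ u in b..1, s u ^ 2) +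
      |q (1 / 2)| * ρ b) (nhdsWithin 1 (Set.Iio 1)) (nhds 0) := by
    have t1 := (tail _ iq).mul (tail _ is)
    have t2 := (Real.continuous_sqrt.tendsto _).comp t1
    have t3 := t2.add (h1.const_mul |q (1 / 2)|)
    simpa using t3
  rw [tendsto_zero_iff_abs_tendsto_zero]
  apply tendsto_of_tendsto_of_tendsto_of_le_of_le' tendsto_const_nhds hT
  · exact Filter.Eventually.of_forall fun b => abs_nonneg _
  · have hev : Set.Ioo (1 / 2 : ℝ) 1 ∈ nhdsWithin (1 : ℝ) (Set.Iio 1) := by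
      rw [← nhdsWithin_Ioo_eq_nhdsLT hhalf.2]
      exact self_mem_nhdsWithin
    filter_upwards [hev] with b hb
    have hb' : b ∈ Set.Ioo (0 : ℝ) 1 := ⟨hhalf.1.trans hb.1, hb.2⟩
    have r1 := bρ b hb'
    have r0 := hρ0 b hb'
    have hqm : q (1 / 2) ≤ q b := hmono hhalf hb' hb.1.le
    simp only [Function.comp]
    rw [abs_mul, abs_of_nonneg r0]
    rcases le_or_gt 0 (q b) with h | h
    · have r2 := bq b hb' h
      have r3 : |q b| * ρ b ≤ Real.sqrt ((∫ u in b..1, q u ^ 2) * ∫ u in b..1, s u ^ 2) := by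
        rw [abs_of_nonneg h]
        apply Real.le_sqrt_of_sq_le
        have hb1 : 0 < 1 - b := sub_pos.2 hb.2
        have p1 : 0 ≤ ∫ u in b..1, s u ^ 2 :=
          intervalIntegral.integral_nonneg hb.2.le (fun u _ => sq_nonneg _)
        have k1 : (1 - b) * (q b * ρ b) ^ 2 ≤
            (1 - b) * ((∫ u in b..1, q u ^ 2) * ∫ u in b..1, s u ^ 2) := by
          calc (1 - b) * (q b * ρ b) ^ 2 = (q b ^ 2 * (1 - b)) * ρ b ^ 2 := by ring
            _ ≤ (∫ u in b..1, q u ^ 2) * ρ b ^ 2 :=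
              mul_le_mul_of_nonneg_right r2 (sq_nonneg _)
            _ ≤ (∫ u in b..1, q u ^ 2) * ((1 - b) * ∫ u in b..1, s u ^ 2) := by
              apply mul_le_mul_of_nonneg_left r1
              exact intervalIntegral.integral_nonneg hb.2.le (fun u _ => sq_nonneg _)
            _ = _ := by ring
        exact le_of_mul_le_mul_left k1 hb1
      have r4 : 0 ≤ |q (1 / 2)| * ρ b := mul_nonneg (abs_nonneg _) r0
      linarith
    · have r5 : |q b| ≤ |q (1 / 2)| := by
        rw [abs_of_neg h, abs_of_neg (lt_of_le_of_lt hqm h)]; linarith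
      have r6 : |q b| * ρ b ≤ |q (1 / 2)| * ρ b := mul_le_mul_of_nonneg_right r5 r0
      have r7 := Real.sqrt_nonneg ((∫ u in b..1, q u ^ 2) * ∫ u in b..1, s u ^ 2)
      linarith

theorem qk_refl_int {f : ℝ → ℝ} (hf : IntegrableOn f (Set.Ioo 0 1)) :
    IntegrableOn (fun u => f (1 - u)) (Set.Ioo 0 1) := by
  have h1 : IntervalIntegrable f volume 0 1 :=
    (intervalIntegrable_iff_integrableOn_Ioo_of_le zero_le_one).2 hf
  have h2 := h1.comp_sub_left 1
  rw [sub_zero, sub_self] at h2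
  exact (intervalIntegrable_iff_integrableOn_Ioo_of_le zero_le_one).1 h2.symm

theorem qk_refl_tendsto :
    Filter.Tendsto (fun u : ℝ => 1 - u) (nhdsWithin 0 (Set.Ioi 0)) (nhdsWithin 1 (Set.Iio 1)) := by
  apply tendsto_nhdsWithin_of_tendsto_nhds_of_eventually_within
  · have h : Filter.Tendsto (fun u : ℝ => 1 - u) (nhds 0) (nhds (1 - 0)) :=
      tendsto_const_nhds.sub Filter.tendsto_id
    rw [sub_zero] at h
    exact h.mono_left nhdsWithin_le_nhds
  · filter_upwards [self_mem_nhdsWithin] with u hu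
    have : (0 : ℝ) < u := hu
    simp only [Set.mem_Iio]
    linarith

theorem qk_refl_tendsto' :
    Filter.Tendsto (fun u : ℝ => 1 - u) (nhdsWithin 1 (Set.Iio 1)) (nhdsWithin 0 (Set.Ioi 0)) := by
  apply tendsto_nhdsWithin_of_tendsto_nhds_of_eventually_within
  · have h : Filter.Tendsto (fun u : ℝ => 1 - u) (nhds 1) (nhds (1 - 1)) :=
      tendsto_const_nhds.sub Filter.tendsto_id
    rw [sub_self] at h
    exact h.mono_left nhdsWithin_le_nhds
  · filter_upwards [self_mem_nhdsWithin] with u hu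
    have : u < (1 : ℝ) := hu
    simp only [Set.mem_Ioi]
    linarith

/-- the left boundary term -/
theorem qk_left {q ρ q' s : ℝ → ℝ} (hq : ∀ u ∈ Set.Ioo (0 : ℝ) 1, HasDerivAt q (q' u) u)
    (hρ : ∀ u ∈ Set.Ioo (0 : ℝ) 1, HasDerivAt ρ (-s u) u)
    (hs : ContinuousOn s (Set.Ioo 0 1)) (hq0 : ∀ u ∈ Set.Ioo (0 : ℝ) 1, 0 ≤ q' u)
    (hρ0 : ∀ u ∈ Set.Ioo (0 : ℝ) 1, 0 ≤ ρ u)
    (hq2 : IntegrableOn (fun u => q u ^ 2) (Set.Ioo 0 1))
    (hs2 : IntegrableOn (fun u => s u ^ 2) (Set.Ioo 0 1))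
    (h0 : Filter.Tendsto ρ (nhdsWithin 0 (Set.Ioi 0)) (nhds 0)) :
    Filter.Tendsto (fun u => q u * ρ u) (nhdsWithin 0 (Set.Ioi 0)) (nhds 0) := by
  have mem : ∀ u ∈ Set.Ioo (0 : ℝ) 1, 1 - u ∈ Set.Ioo (0 : ℝ) 1 := fun u hu =>
    ⟨by linarith [hu.2], by linarith [hu.1]⟩
  have hd : ∀ u : ℝ, HasDerivAt (fun u : ℝ => 1 - u) (-1) u := fun u => by
    simpa using (hasDerivAt_id u).const_sub 1
  have key := qk_right (q := fun u => -q (1 - u)) (ρ := fun u => ρ (1 - u))
    (q' := fun u => q' (1 - u)) (s := fun u => -s (1 - u)) ?_ ?_ ?_ ?_ ?_ ?_ ?_ ?_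
  · have h2 := (key.comp qk_refl_tendsto).neg
    rw [neg_zero] at h2
    apply h2.congr
    intro u
    simp only [Function.comp, sub_sub_cancel]
    ring
  · intro u hu
    have h3 := ((hq (1 - u) (mem u hu)).comp u (hd u)).neg
    apply h3.congr_deriv
    ring
  · intro u hu
    have h3 := (hρ (1 - u) (mem u hu)).comp u (hd u)
    apply h3.congr_deriv
    ring
  · apply ContinuousOn.neg
    exact hs.comp (by fun_prop) (fun u hu => mem u hu)
  · exact fun u hu => hq0 _ (mem u hu)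
  · exact fun u hu => hρ0 _ (mem u hu)
  · have h3 := qk_refl_int hq2
    apply h3.congr_fun _ measurableSet_Ioo
    intro u _
    simp only
    ring
  · have h3 := qk_refl_int hs2
    apply h3.congr_fun _ measurableSet_Ioo
    intro u _
    simp only
    ring
  · exact h0.comp qk_refl_tendsto'

/-- products of square integrable functions -/
theorem qk_mul_int {μ : Measure ℝ} {f h : ℝ → ℝ} (hf : AEStronglyMeasurable f μ)
    (hh : AEStronglyMeasurable h μ) (hf2 : Integrable (fun u => f u ^ 2) μ)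
    (hh2 : Integrable (fun u => h u ^ 2) μ) : Integrable (fun u => f u * h u) μ := by
  apply Integrable.mono' (hf2.add hh2) (hf.mul hh)
  apply Filter.Eventually.of_forall
  intro u
  show |f u * h u| ≤ f u ^ 2 + h u ^ 2
  rw [abs_mul]
  nlinarith [sq_nonneg (|f u| - |h u|), sq_abs (f u), sq_abs (h u), sq_nonneg (f u),
    sq_nonneg (h u)]

/-- integration by parts on `(0, 1)` with vanishing boundary terms: `q` and `ρ` with derivatives
`q' > 0` and `-s`, where `q, s` are square integrable and `ρ → 0` at both ends -/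
theorem qk_parts {q ρ q' s : ℝ → ℝ} (hq : ∀ u ∈ Set.Ioo (0 : ℝ) 1, HasDerivAt q (q' u) u)
    (hρ : ∀ u ∈ Set.Ioo (0 : ℝ) 1, HasDerivAt ρ (-s u) u) (hq' : ContinuousOn q' (Set.Ioo 0 1))
    (hs : ContinuousOn s (Set.Ioo 0 1)) (hq0 : ∀ u ∈ Set.Ioo (0 : ℝ) 1, 0 ≤ q' u)
    (hρ0 : ∀ u ∈ Set.Ioo (0 : ℝ) 1, 0 ≤ ρ u)
    (hq2 : IntegrableOn (fun u => q u ^ 2) (Set.Ioo 0 1))
    (hs2 : IntegrableOn (fun u => s u ^ 2) (Set.Ioo 0 1))
    (h0 : Filter.Tendsto ρ (nhdsWithin 0 (Set.Ioi 0)) (nhds 0))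
    (h1 : Filter.Tendsto ρ (nhdsWithin 1 (Set.Iio 1)) (nhds 0)) :
    IntegrableOn (fun u => q' u * ρ u) (Set.Ioo 0 1) ∧
      ∫ u in Set.Ioo 0 1, q u * s u = ∫ u in Set.Ioo 0 1, q' u * ρ u := by
  have tr := qk_right hq hρ hs hq0 hρ0 hq2 hs2 h1
  have tl := qk_left hq hρ hs hq0 hρ0 hq2 hs2 h0
  have cq : ContinuousOn q (Set.Ioo 0 1) := fun u hu => (hq u hu).continuousAt.continuousWithinAt
  have cρ : ContinuousOn ρ (Set.Ioo 0 1) := fun u hu => (hρ u hu).continuousAt.continuousWithinAt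
  have hqs : IntegrableOn (fun u => q u * s u) (Set.Ioo 0 1) :=
    qk_mul_int (cq.aestronglyMeasurable measurableSet_Ioo)
      (hs.aestronglyMeasurable measurableSet_Ioo) hq2 hs2
  have iqs : IntervalIntegrable (fun u => q u * s u) volume 0 1 :=
    (intervalIntegrable_iff_integrableOn_Ioo_of_le zero_le_one).2 hqs
  have cf : ContinuousOn (fun u => q u * ρ u) (Set.Ioo 0 1) := cq.mul cρ
  have df : ∀ u ∈ Set.Ioo (0 : ℝ) 1, HasDerivAt (fun u => q u * ρ u)
      (q' u * ρ u - q u * s u) u := by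
    intro u hu
    have h2 := (hq u hu).mul (hρ u hu)
    apply h2.congr_deriv
    ring
  have hext : ContinuousOn (extendFrom (Set.Ioo (0 : ℝ) 1) (fun u => q u * ρ u)) (Set.Icc 0 1) :=
    continuousOn_Icc_extendFrom_Ioo cf tl tr
  have heq : ∀ u ∈ Set.Ioo (0 : ℝ) 1,
      extendFrom (Set.Ioo (0 : ℝ) 1) (fun u => q u * ρ u) u = q u * ρ u := by
    intro u hu
    exact extendFrom_eq (subset_closure hu) (cf u hu)
  have hprim : ContinuousOn (fun x => ∫ t in (0 : ℝ)..x, q t * s t) (Set.Icc 0 1) := by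
    have h3 := intervalIntegral.continuousOn_primitive_interval' iqs
      (Set.left_mem_uIcc (a := (0 : ℝ)) (b := 1))
    rwa [Set.uIcc_of_le zero_le_one] at h3
  have hint : IntegrableOn (fun u => q' u * ρ u) (Set.Ioc 0 1) := by
    apply intervalIntegral.integrableOn_deriv_of_nonneg (hext.add hprim)
    · intro u hu
      have e1 : HasDerivAt (extendFrom (Set.Ioo (0 : ℝ) 1) (fun u => q u * ρ u))
          (q' u * ρ u - q u * s u) u := by
        apply (df u hu).congr_of_eventuallyEq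
        filter_upwards [Ioo_mem_nhds hu.1 hu.2] with v hv
        exact heq v hv
      have e2 : HasDerivAt (fun x => ∫ t in (0 : ℝ)..x, q t * s t) (q u * s u) u := by
        apply intervalIntegral.integral_hasDerivAt_right
        · apply iqs.mono_set
          rw [Set.uIcc_of_le hu.1.le, Set.uIcc_of_le zero_le_one]
          exact Set.Icc_subset_Icc le_rfl hu.2.le
        · exact (cq.mul hs).stronglyMeasurableAtFilter isOpen_Ioo u hu
        · exact ((cq.mul hs) u hu).continuousAt (Ioo_mem_nhds hu.1 hu.2)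
      have e3 := e1.add e2
      apply e3.congr_deriv
      ring
    · intro u hu
      exact mul_nonneg (hq0 u hu) (hρ0 u hu)
  have hint' : IntegrableOn (fun u => q' u * ρ u) (Set.Ioo 0 1) :=
    hint.mono_set Set.Ioo_subset_Ioc_self
  refine ⟨hint', ?_⟩
  have i3 : IntervalIntegrable (fun u => q' u * ρ u) volume 0 1 :=
    (intervalIntegrable_iff_integrableOn_Ioc_of_le zero_le_one).2 hint
  have ftc := intervalIntegral.integral_eq_sub_of_hasDerivAt_of_tendsto zero_lt_one df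
    (i3.sub iqs) tl tr
  rw [intervalIntegral.integral_sub i3 iqs, sub_zero] at ftc
  have a1 : ∫ u in (0 : ℝ)..1, q' u * ρ u = ∫ u in Set.Ioo 0 1, q' u * ρ u := by
    rw [intervalIntegral.integral_of_le zero_le_one, integral_Ioc_eq_integral_Ioo]
  have a2 : ∫ u in (0 : ℝ)..1, q u * s u = ∫ u in Set.Ioo 0 1, q u * s u := by
    rw [intervalIntegral.integral_of_le zero_le_one, integral_Ioc_eq_integral_Ioo]
  rw [← a1, ← a2]
  linarith

theorem qk_gint {g d : ℝ → ℝ} (h : Dens g d) : Integrable g := by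
  by_contra hc
  have h1 := h.int
  rw [integral_undef hc] at h1
  exact zero_ne_one h1

theorem qk_gcont {g d : ℝ → ℝ} (h : Dens g d) : Continuous g :=
  continuous_iff_continuousAt.2 fun x => (h.deriv x).continuousAt

theorem qk_dint {g d : ℝ → ℝ} (h : Dens g d) : Integrable d := by
  apply Integrable.mono' (h.fisher.add (qk_gint h)) h.cont.aestronglyMeasurable
  apply Filter.Eventually.of_forall
  intro x
  have hp := h.pos x
  simp only [Pi.add_apply, Real.norm_eq_abs]
  have h1 : d x ^ 2 / g x + g x = (d x ^ 2 + g x ^ 2) / g x := by field_simp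
  rw [h1, le_div_iff₀ hp]
  nlinarith [sq_nonneg (|d x| - g x), sq_abs (d x), abs_nonneg (d x), sq_nonneg (d x),
    sq_nonneg (g x)]

/-- the density vanishes at infinity -/
theorem dens_tendsto {g d : ℝ → ℝ} (h : Dens g d) :
    Filter.Tendsto g Filter.atTop (nhds 0) ∧ Filter.Tendsto g Filter.atBot (nhds 0) :=
  ⟨tendsto_zero_of_hasDerivAt_of_integrableOn_Ioi (a := 0) (fun x _ => h.deriv x)
      (qk_dint h).integrableOn (qk_gint h).integrableOn,
    tendsto_zero_of_hasDerivAt_of_integrableOn_Iic (a := 0) (fun x _ => h.deriv x)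
      (qk_dint h).integrableOn (qk_gint h).integrableOn⟩

theorem qk_score_meas {g d : ℝ → ℝ} (h : Dens g d) : Measurable (fun x => d x / g x) :=
  h.cont.measurable.div (qk_gcont h).measurable

/-- the score has mean zero -/
theorem qt_zero {g d : ℝ → ℝ} (h : Dens g d) : ∫ u, d (qt g u) / g (qt g u) ∂uni = 0 := by
  have h1 := (qt_integral h (qk_score_meas h)).1
  rw [h1]
  have h2 : ∀ x, d x / g x * g x = d x := fun x => div_mul_cancel₀ _ (h.pos x).ne'
  simp_rw [h2]
  obtain ⟨t1, t2⟩ := dens_tendsto h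
  rw [integral_of_hasDerivAt_of_tendsto h.deriv (qk_dint h) t2 t1, sub_zero]

/-- square integrability of quantile and score -/
theorem qt_l2 {g d : ℝ → ℝ} (h : Dens g d) :
    MemLp (qt g) 2 uni ∧ MemLp (fun u => d (qt g u) / g (qt g u)) 2 uni := by
  have hm : Measurable (qt g) := qt_meas h
  have hs := qk_score_meas h
  constructor
  · rw [memLp_two_iff_integrable_sq hm.aestronglyMeasurable]
    exact ((qt_integral h (F := fun x => x ^ 2) (by fun_prop)).2).2 h.sq
  · have hsm : AEStronglyMeasurable (fun u => d (qt g u) / g (qt g u)) uni :=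
      (hs.comp hm).aestronglyMeasurable
    rw [memLp_two_iff_integrable_sq hsm]
    have h2 := (qt_integral h (F := fun x => (d x / g x) ^ 2) (hs.pow_const 2)).2
    apply h2.2
    apply h.fisher.congr
    apply Filter.Eventually.of_forall
    intro x
    have hp := (h.pos x).ne'
    simp only
    field_simp

/-- the quantile function and the density quantile function satisfy the hypotheses of `qk_parts` -/
theorem qk_facts {g d : ℝ → ℝ} (h : Dens g d) :
    (∀ u ∈ Set.Ioo (0 : ℝ) 1, HasDerivAt (qt g) (1 / g (qt g u)) u) ∧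
    (∀ u ∈ Set.Ioo (0 : ℝ) 1, HasDerivAt (fun u => g (qt g u))
      (-(-(d (qt g u) / g (qt g u)))) u) ∧
    ContinuousOn (fun u => 1 / g (qt g u)) (Set.Ioo 0 1) ∧
    ContinuousOn (fun u => -(d (qt g u) / g (qt g u))) (Set.Ioo 0 1) ∧
    Filter.Tendsto (fun u => g (qt g u)) (nhdsWithin 0 (Set.Ioi 0)) (nhds 0) ∧
    Filter.Tendsto (fun u => g (qt g u)) (nhdsWithin 1 (Set.Iio 1)) (nhds 0) := by
  have dq : ∀ u ∈ Set.Ioo (0 : ℝ) 1, HasDerivAt (qt g) (1 / g (qt g u)) u :=
    fun u hu => qt_deriv h hu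
  have cq : ContinuousOn (qt g) (Set.Ioo 0 1) := fun u hu =>
    (dq u hu).continuousAt.continuousWithinAt
  have cg := qk_gcont h
  have cgq : ContinuousOn (fun u => g (qt g u)) (Set.Ioo 0 1) := cg.comp_continuousOn cq
  have cdq : ContinuousOn (fun u => d (qt g u)) (Set.Ioo 0 1) := h.cont.comp_continuousOn cq
  have ne : ∀ u ∈ Set.Ioo (0 : ℝ) 1, g (qt g u) ≠ 0 := fun u _ => (h.pos _).ne'
  have hmono : MonotoneOn (qt g) (Set.Ioo 0 1) :=
    qk_mono dq (fun u _ => (one_div_pos.2 (h.pos _)).le)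
  obtain ⟨t1, t2⟩ := dens_tendsto h
  refine ⟨dq, ?_, ?_, ?_, ?_, ?_⟩
  · intro u hu
    have h3 := (h.deriv (qt g u)).comp u (dq u hu)
    apply h3.congr_deriv
    rw [neg_neg]
    ring
  · exact continuousOn_const.div cgq ne
  · exact (cdq.div cgq ne).neg
  · apply t2.comp
    rw [Filter.tendsto_atBot]
    intro b
    obtain ⟨m1, m2⟩ := qt_of_cdf h b
    set v : ℝ := ∫ y in Set.Iic b, g y with hv
    have hev : Set.Ioo 0 v ∈ nhdsWithin (0 : ℝ) (Set.Ioi 0) := by
      rw [← nhdsWithin_Ioo_eq_nhdsGT m1.1]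
      exact self_mem_nhdsWithin
    filter_upwards [hev] with u hu
    have h4 := hmono ⟨hu.1, hu.2.trans m1.2⟩ m1 hu.2.le
    rwa [m2] at h4
  · apply t1.comp
    rw [Filter.tendsto_atTop]
    intro b
    obtain ⟨m1, m2⟩ := qt_of_cdf h b
    set v : ℝ := ∫ y in Set.Iic b, g y with hv
    have hev : Set.Ioo v 1 ∈ nhdsWithin (1 : ℝ) (Set.Iio 1) := by
      rw [← nhdsWithin_Ioo_eq_nhdsLT m1.2]
      exact self_mem_nhdsWithin
    filter_upwards [hev] with u hu
    have h4 := hmono m1 ⟨m1.1.trans hu.1, hu.2⟩ hu.1.le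
    rwa [m2] at h4

/-- the quantile of one density against the score of another -/
theorem qk_pair {g d g' d' : ℝ → ℝ} (h : Dens g d) (h' : Dens g' d') :
    Integrable (fun u => 1 / g (qt g u) * g' (qt g' u)) uni ∧
      ∫ u, qt g u * -(d' (qt g' u) / g' (qt g' u)) ∂uni =
        ∫ u, 1 / g (qt g u) * g' (qt g' u) ∂uni := by
  obtain ⟨a1, _, a3, _, _, _⟩ := qk_facts h
  obtain ⟨_, b2, _, b4, b5, b6⟩ := qk_facts h'
  have l1 := (memLp_two_iff_integrable_sq (qt_meas h).aestronglyMeasurable).1 (qt_l2 h).1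
  have l2 := (memLp_two_iff_integrable_sq
    (((qk_score_meas h').comp (qt_meas h')).aestronglyMeasurable (μ := uni))).1 (qt_l2 h').2
  have l3 : IntegrableOn (fun u => (-(d' (qt g' u) / g' (qt g' u))) ^ 2) (Set.Ioo 0 1) := by
    have l4 : IntegrableOn (fun u => (d' (qt g' u) / g' (qt g' u)) ^ 2) (Set.Ioo 0 1) := l2
    apply l4.congr_fun _ measurableSet_Ioo
    intro u _
    simp only
    ring
  exact qk_parts a1 b2 a3 b4 (fun u _ => (one_div_pos.2 (h.pos _)).le) (fun u _ => (h'.pos _).le)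
    l1 l3 b5 b6

theorem qk_mulint {g d g' d' : ℝ → ℝ} (h : Dens g d) (h' : Dens g' d') :
    Integrable (fun u => qt g u * -(d' (qt g' u) / g' (qt g' u))) uni := by
  have l1 := (memLp_two_iff_integrable_sq (qt_meas h).aestronglyMeasurable).1 (qt_l2 h).1
  have m2 : AEStronglyMeasurable (fun u => d' (qt g' u) / g' (qt g' u)) uni :=
    ((qk_score_meas h').comp (qt_meas h')).aestronglyMeasurable
  have l2 := (memLp_two_iff_integrable_sq m2).1 (qt_l2 h').2
  have l3 : Integrable (fun u => (-(d' (qt g' u) / g' (qt g' u))) ^ 2) uni := by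
    apply l2.congr
    apply Filter.Eventually.of_forall
    intro u
    simp only
    ring
  exact qk_mul_int (qt_meas h).aestronglyMeasurable m2.neg l1 l3

/-- the key inequality for two densities -/
theorem qt_key {g d g' d' : ℝ → ℝ} (h : Dens g d) (h' : Dens g' d') :
    ∫ u, (qt g' u - qt g u) * (d (qt g u) / g (qt g u) - d' (qt g' u) / g' (qt g' u)) ∂uni ≤ 0 := by
  obtain ⟨p1, e1⟩ := qk_pair h h
  obtain ⟨p2, e2⟩ := qk_pair h h'
  obtain ⟨p3, e3⟩ := qk_pair h' h
  obtain ⟨p4, e4⟩ := qk_pair h' h'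
  have i1 := qk_mulint h h
  have i2 := qk_mulint h h'
  have i3 := qk_mulint h' h
  have i4 := qk_mulint h' h'
  have E : ∀ u, (qt g' u - qt g u) *
      (d (qt g u) / g (qt g u) - d' (qt g' u) / g' (qt g' u)) =
      (qt g' u * -(d' (qt g' u) / g' (qt g' u)) - qt g' u * -(d (qt g u) / g (qt g u))) +
        (qt g u * -(d (qt g u) / g (qt g u)) - qt g u * -(d' (qt g' u) / g' (qt g' u))) := by
    intro u; ring
  simp_rw [E]
  have s1 : Integrable (fun u => qt g' u * -(d' (qt g' u) / g' (qt g' u)) -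
      qt g' u * -(d (qt g u) / g (qt g u))) uni := i4.sub i3
  have s2 : Integrable (fun u => qt g u * -(d (qt g u) / g (qt g u)) -
      qt g u * -(d' (qt g' u) / g' (qt g' u))) uni := i1.sub i2
  have s3 : Integrable (fun u => 1 / g' (qt g' u) * g' (qt g' u) -
      1 / g' (qt g' u) * g (qt g u)) uni := p4.sub p3
  have s4 : Integrable (fun u => 1 / g (qt g u) * g (qt g u) -
      1 / g (qt g u) * g' (qt g' u)) uni := p1.sub p2
  rw [integral_add s1 s2, integral_sub i4 i3, integral_sub i1 i2, e1, e2, e3, e4,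
    ← integral_sub p4 p3, ← integral_sub p1 p2, ← integral_add s3 s4]
  apply integral_nonpos
  intro u
  have hg := h.pos (qt g u)
  have hg' := h'.pos (qt g' u)
  simp only [Pi.zero_apply]
  have e5 : 1 / g' (qt g' u) * g' (qt g' u) - 1 / g' (qt g' u) * g (qt g u) +
      (1 / g (qt g u) * g (qt g u) - 1 / g (qt g u) * g' (qt g' u)) =
      -((g (qt g u) - g' (qt g' u)) ^ 2 / (g (qt g u) * g' (qt g' u))) := by
    field_simp
    ring
  rw [e5, neg_nonpos]
  positivity

end QG
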