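import Mathlib
import Pool.Agent.Lib_helper69.QG.Defs
import Pool.Agent.Lib_helper69.QG.W.ca
import Pool.Agent.Lib_helper69.QG.W.qb
import Pool.Agent.Lib_helper69.QG.W.qk

set_option autoImplicit false

namespace QG

open MeasureTheory

theorem w4_shift (t : Fin 4 → ℝ) (r : ℝ) : w4 (fun i => t i + r) = w4 t := by
  unfold w4
  rw [← integral_sub_right_eq_self (fun x => Real.exp (-V t x)) r]
  refine integral_congr_ae (Filter.Eventually.of_forall fun x => ?_)
  simp only [V]
  congr 2
  refine Finset.sum_congr rfl fun i _ => ?_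
  ring

theorem w4_even (t : Fin 4 → ℝ) : w4 (fun i => - t i) = w4 t := by
  unfold w4
  rw [← integral_neg_eq_self (fun x => Real.exp (-V t x))]
  refine integral_congr_ae (Filter.Eventually.of_forall fun x => ?_)
  simp only [V]
  congr 2
  refine Finset.sum_congr rfl fun i _ => ?_
  ring

theorem ce_int (t : Fin 4 → ℝ) (i : Fin 4) :
    Integrable (fun x : ℝ => 4 * (x - t i) ^ 3 * gt t x) := by
  have h := (int_pow_exp t (t i) 3).const_mul (4 / w4 t)
  refine h.mono' ?_ (Filter.Eventually.of_forall fun x => ?_)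
  · have hc : Continuous (fun x : ℝ => 4 * (x - t i) ^ 3 * gt t x) := by
      unfold gt V
      fun_prop
    exact hc.aestronglyMeasurable
  · have hw := w4_pos t
    rw [Real.norm_eq_abs, abs_mul, abs_mul, abs_pow]
    unfold gt
    rw [abs_div, abs_of_pos (Real.exp_pos _), abs_of_pos hw, abs_of_pos (by norm_num : (0:ℝ) < 4)]
    apply le_of_eq
    field_simp

theorem ce_gd (t : Fin 4 → ℝ) : ∫ x, gd t x = 0 := by
  have hd := gt_dens t
  have hgt : Continuous (gt t) := by
    unfold gt V
    fun_prop
  have hF : Measurable (fun x => gd t x / gt t x) :=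
    (hd.cont.measurable).div hgt.measurable
  have h1 := (qt_integral hd hF).1
  have h2 := qt_zero hd
  have h3 : ∫ u, (fun x => gd t x / gt t x) (qt (gt t) u) ∂uni = 0 := h2
  rw [h1] at h3
  rw [← h3]
  refine integral_congr_ae (Filter.Eventually.of_forall fun x => ?_)
  have := hd.pos x
  simp only
  field_simp

theorem G4_sum (t : Fin 4 → ℝ) : ∑ i, G4 i t = 0 := by
  unfold G4
  rw [Finset.sum_neg_distrib, ← integral_finsetSum _ (fun i _ => ce_int t i), neg_eq_zero]
  have h := ce_gd t
  have h2 : ∫ x, -(gd t x) = 0 := by rw [integral_neg, h, neg_zero]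
  rw [← h2]
  refine integral_congr_ae (Filter.Eventually.of_forall fun x => ?_)
  simp only [gd, V', neg_neg, Finset.sum_mul]

end QG
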