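import Mathlib
import Pool.Agent.Lib_helper69.QG.Defs
import Pool.Agent.Lib_helper69.QG.W.ca
import Pool.Agent.Lib_helper69.QG.W.qb
import Pool.Agent.Lib_helper69.QG.W.qk

set_option autoImplicit false

namespace QG

open MeasureTheory

/-- the distance of the coupled centre to the neighbour `i` -/
noncomputable def XX (t : Fin 4 → ℝ) (i : Fin 4) (u : ℝ) : ℝ := qt (gt t) u - t i

theorem cf_pow_gt (t : Fin 4 → ℝ) (i : Fin 4) (n : ℕ) :
    Integrable (fun x : ℝ => |x - t i| ^ n * gt t x) := by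
  have h := (int_pow_exp t (t i) n).div_const (w4 t)
  refine h.congr (Filter.Eventually.of_forall fun x => ?_)
  simp only [gt]
  ring

theorem cf_pow (t : Fin 4 → ℝ) (i : Fin 4) (n : ℕ) :
    Integrable (fun u => |XX t i u| ^ n) uni ∧ Measurable (XX t i) := by
  have hd := gt_dens t
  have hm : Measurable (XX t i) := (qt_meas hd).sub_const _
  refine ⟨?_, hm⟩
  have hF : Measurable (fun x : ℝ => |x - t i| ^ n) := by fun_prop
  exact ((qt_integral hd hF).2).2 (cf_pow_gt t i n)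

theorem cf_cube (t : Fin 4 → ℝ) (i : Fin 4) : Integrable (fun u => XX t i u ^ 3) uni := by
  obtain ⟨h1, h2⟩ := cf_pow t i 3
  refine h1.mono' (h2.pow_const 3).aestronglyMeasurable (Filter.Eventually.of_forall fun u => ?_)
  rw [Real.norm_eq_abs, abs_pow]

theorem G4_eq (t : Fin 4 → ℝ) (i : Fin 4) :
    Integrable (fun u => XX t i u ^ 3) uni ∧ G4 i t = -∫ u, 4 * XX t i u ^ 3 ∂uni := by
  refine ⟨cf_cube t i, ?_⟩
  have hd := gt_dens t
  have hF : Measurable (fun x : ℝ => 4 * (x - t i) ^ 3) := by fun_prop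
  have h := (qt_integral hd hF).1
  unfold G4 XX
  rw [h]

theorem XX_int (t : Fin 4 → ℝ) (i : Fin 4) (n : ℕ) : Integrable (fun u => |XX t i u| ^ n) uni ∧
    Measurable (XX t i) := cf_pow t i n

theorem cf_ineq (a b : ℝ) : |4 * (a ^ 3 - b ^ 3) * (a - b)| ≤ 8 * (|a| ^ 4 + |b| ^ 4) := by
  have h1 : |a ^ 3 - b ^ 3| ≤ |a| ^ 3 + |b| ^ 3 := by
    have := abs_sub (a ^ 3) (b ^ 3)
    rwa [abs_pow, abs_pow] at this
  have h2 : |a - b| ≤ |a| + |b| := abs_sub _ _
  have ha := abs_nonneg a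
  have hb := abs_nonneg b
  rw [abs_mul, abs_mul, abs_of_pos (by norm_num : (0 : ℝ) < 4)]
  have h3 : |a ^ 3 - b ^ 3| * |a - b| ≤ (|a| ^ 3 + |b| ^ 3) * (|a| + |b|) :=
    mul_le_mul h1 h2 (abs_nonneg _) (by positivity)
  have h4 : (|a| ^ 3 + |b| ^ 3) * (|a| + |b|) ≤ 2 * (|a| ^ 4 + |b| ^ 4) := by
    have : 0 ≤ (|a| - |b|) ^ 2 * (|a| ^ 2 + |a| * |b| + |b| ^ 2) := by positivity
    nlinarith
  calc 4 * |a ^ 3 - b ^ 3| * |a - b| = 4 * (|a ^ 3 - b ^ 3| * |a - b|) := by ring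
    _ ≤ 4 * (2 * (|a| ^ 4 + |b| ^ 4)) := by linarith
    _ = _ := by ring

theorem cf_term (t t' : Fin 4 → ℝ) (i : Fin 4) :
    Integrable (fun u => 4 * (XX t' i u ^ 3 - XX t i u ^ 3) * (XX t' i u - XX t i u)) uni := by
  obtain ⟨h1, m1⟩ := cf_pow t i 4
  obtain ⟨h2, m2⟩ := cf_pow t' i 4
  refine ((h2.add h1).const_mul 8).mono' ?_ (Filter.Eventually.of_forall fun u => ?_)
  · exact ((((m2.pow_const 3).sub (m1.pow_const 3)).const_mul 4).mul
      (m2.sub m1)).aestronglyMeasurable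
  · rw [Real.norm_eq_abs]
    exact cf_ineq _ _

/-- lower bound for the monotonicity form by the energy in the cell -/
theorem DD_lower (t t' : Fin 4 → ℝ) :
    Integrable (fun u => ∑ i, 4 * (XX t' i u ^ 3 - XX t i u ^ 3) * (XX t' i u - XX t i u)) uni ∧
    ∫ u, ∑ i, 4 * (XX t' i u ^ 3 - XX t i u ^ 3) * (XX t' i u - XX t i u) ∂uni ≤ DD G4 t t' := by
  have hS : Integrable (fun u => ∑ i, 4 * (XX t' i u ^ 3 - XX t i u ^ 3) *
      (XX t' i u - XX t i u)) uni := integrable_finsetSum _ fun i _ => cf_term t t' i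
  refine ⟨hS, ?_⟩
  have hd := gt_dens t
  have hd' := gt_dens t'
  have hkey := qt_key hd hd'
  have hΔ : ∀ i, Integrable (fun u => 4 * XX t' i u ^ 3 - 4 * XX t i u ^ 3) uni := fun i =>
    ((cf_cube t' i).const_mul 4).sub ((cf_cube t i).const_mul 4)
  have hH : Integrable (fun u => ∑ i, (t' i - t i) * (4 * XX t' i u ^ 3 - 4 * XX t i u ^ 3)) uni :=
    integrable_finsetSum _ fun i _ => (hΔ i).const_mul _
  have hsc : ∀ (s : Fin 4 → ℝ) (x : ℝ), gd s x / gt s x = -V' s x := by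
    intro s x
    have hp : 0 < gt s x := (gt_dens s).pos x
    unfold gd
    rw [div_eq_iff hp.ne']
    ring
  have hpt : (fun u => (qt (gt t') u - qt (gt t) u) * (gd t (qt (gt t) u) / gt t (qt (gt t) u) -
      gd t' (qt (gt t') u) / gt t' (qt (gt t') u))) =
      fun u => (∑ i, 4 * (XX t' i u ^ 3 - XX t i u ^ 3) * (XX t' i u - XX t i u)) +
        ∑ i, (t' i - t i) * (4 * XX t' i u ^ 3 - 4 * XX t i u ^ 3) := by
    funext u
    rw [hsc, hsc, ← Finset.sum_add_distrib]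
    unfold V' XX
    rw [sub_neg_eq_add, neg_add_eq_sub, ← Finset.sum_sub_distrib, Finset.mul_sum]
    apply Finset.sum_congr rfl
    intro i _
    ring
  rw [hpt, integral_add hS hH, integral_finsetSum _ fun i _ => (hΔ i).const_mul _] at hkey
  have hDD : ∑ i, ∫ u, (t' i - t i) * (4 * XX t' i u ^ 3 - 4 * XX t i u ^ 3) ∂uni =
      -DD G4 t t' := by
    unfold DD
    rw [← Finset.sum_neg_distrib]
    apply Finset.sum_congr rfl
    intro i _
    rw [integral_const_mul, integral_sub ((cf_cube t' i).const_mul 4)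
      ((cf_cube t i).const_mul 4), (G4_eq t' i).2, (G4_eq t i).2]
    ring
  rw [hDD] at hkey
  linarith

end QG
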