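import Mathlib
import Pool.Agent.Lib_helper69.QG.Defs
import Pool.Agent.Lib_helper69.QG.W.ca
import Pool.Agent.Lib_helper69.QG.W.qb
import Pool.Agent.Lib_helper69.QG.W.cc
import Pool.Agent.Lib_helper69.QG.W.cf

set_option autoImplicit false

namespace QG

open MeasureTheory

theorem cg_int (t t' : Fin 4 → ℝ) (i j : Fin 4) (a b : ℕ) :
    Integrable (fun u => XX t i u ^ a * XX t' j u ^ b) uni := by
  have h1 := (XX_int t i (a + b)).1.add (XX_int t' j (a + b)).1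
  refine h1.mono' (((XX_int t i 0).2.pow_const a).mul
    ((XX_int t' j 0).2.pow_const b)).aestronglyMeasurable (Filter.Eventually.of_forall fun u => ?_)
  rw [Real.norm_eq_abs, abs_mul, abs_pow, abs_pow]
  show |XX t i u| ^ a * |XX t' j u| ^ b ≤ |XX t i u| ^ (a + b) + |XX t' j u| ^ (a + b)
  have hx := abs_nonneg (XX t i u)
  have hy := abs_nonneg (XX t' j u)
  generalize |XX t i u| = x at hx ⊢
  generalize |XX t' j u| = y at hy ⊢
  rcases le_total x y with h | h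
  · calc x ^ a * y ^ b ≤ y ^ a * y ^ b := by gcongr
      _ = y ^ (a + b) := (pow_add y a b).symm
      _ ≤ x ^ (a + b) + y ^ (a + b) := le_add_of_nonneg_left (by positivity)
  · calc x ^ a * y ^ b ≤ x ^ a * x ^ b := by gcongr
      _ = x ^ (a + b) := (pow_add x a b).symm
      _ ≤ x ^ (a + b) + y ^ (a + b) := le_add_of_nonneg_right (by positivity)

theorem cg_pow (t : Fin 4 → ℝ) (i : Fin 4) (n : ℕ) : Integrable (fun u => XX t i u ^ n) uni := by
  refine (cg_int t t i i n 0).congr (Filter.Eventually.of_forall fun u => ?_)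
  show _ * _ ^ 0 = _
  rw [pow_zero, mul_one]

theorem cg_mom2 (t : Fin 4 → ℝ) (i : Fin 4) :
    ∫ u, XX t i u ^ 2 ∂uni = ∫ x, (x - t i) ^ 2 * gt t x :=
  (qt_integral (gt_dens t) (F := fun x => (x - t i) ^ 2)
    ((measurable_id.sub_const _).pow_const 2)).1

theorem cg_mom3 (t : Fin 4 → ℝ) (i : Fin 4) :
    ∫ u, |XX t i u| ^ 3 ∂uni = ∫ x, |x - t i| ^ 3 * gt t x :=
  (qt_integral (gt_dens t) (F := fun x => |x - t i| ^ 3)
    (((continuous_id.sub continuous_const).abs).pow 3).measurable).1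

theorem cg_int4 (t t' : Fin 4 → ℝ) (i : Fin 4) :
    Integrable (fun u => 4 * (XX t' i u ^ 3 - XX t i u ^ 3) * (XX t' i u - XX t i u)) uni := by
  have h := (((cg_int t' t' i i 3 1).sub (cg_int t' t i i 3 1)).sub
    ((cg_int t t' i i 3 1).sub (cg_int t t i i 3 1))).const_mul 4
  refine h.congr (Filter.Eventually.of_forall fun u => ?_)
  show 4 * ((XX t' i u ^ 3 * XX t' i u ^ 1 - XX t' i u ^ 3 * XX t i u ^ 1) -
    (XX t i u ^ 3 * XX t' i u ^ 1 - XX t i u ^ 3 * XX t i u ^ 1)) = _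
  ring

theorem cg_nn (a b : ℝ) : 0 ≤ 4 * (a ^ 3 - b ^ 3) * (a - b) := by
  have h : 4 * (a ^ 3 - b ^ 3) * (a - b) = 4 * (a ^ 2 + a * b + b ^ 2) * (a - b) ^ 2 := by ring
  rw [h]
  have : 0 ≤ a ^ 2 + a * b + b ^ 2 := by nlinarith [sq_nonneg (a + b), sq_nonneg a, sq_nonneg b]
  positivity

theorem cg_one (t t' : Fin 4 → ℝ) (i : Fin 4) :
    ∫ u, 4 * (XX t' i u ^ 3 - XX t i u ^ 3) * (XX t' i u - XX t i u) ∂uni ≤ DD G4 t t' := by
  refine le_trans ?_ (DD_lower t t').2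
  refine integral_mono (cg_int4 t t' i) (DD_lower t t').1 fun u => ?_
  exact Finset.single_le_sum
    (f := fun i => 4 * (XX t' i u ^ 3 - XX t i u ^ 3) * (XX t' i u - XX t i u))
    (fun j _ => cg_nn _ _) (Finset.mem_univ i)

theorem cg_DD (t t' : Fin 4 → ℝ) : 0 ≤ DD G4 t t' :=
  (integral_nonneg fun _ => cg_nn _ _).trans (cg_one t t' 0)

theorem cg_cs {A B E : ℝ} (h : ∀ s : ℝ, 0 ≤ A * (s * s) + (-2 * B) * s + E) : B ^ 2 ≤ A * E := by
  have := discrim_le_zero h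
  rw [discrim] at this
  nlinarith

theorem cg_lin {A B E : ℝ → ℝ} (hA : Integrable A uni) (hB : Integrable B uni)
    (hE : Integrable E uni) (x y : ℝ) : ∫ u, (A u * x + B u * y + E u) ∂uni =
      (∫ u, A u ∂uni) * x + (∫ u, B u ∂uni) * y + ∫ u, E u ∂uni := by
  rw [integral_add (f := fun u => A u * x + B u * y) ((hA.mul_const x).add (hB.mul_const y)) hE,
    integral_add (f := fun u => A u * x) (g := fun u => B u * y) (hA.mul_const x) (hB.mul_const y),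
    integral_mul_const, integral_mul_const]

theorem G4_flux : ∃ C : ℝ, 1 ≤ C ∧ ∀ (i : Fin 4) (t t' : Fin 4 → ℝ),
    (G4 i t' - G4 i t) ^ 2 ≤ C * (1 + q t + q t') * DD G4 t t' := by
  obtain ⟨C, hC, hmom⟩ := gt_moment
  refine ⟨12 * C, by linarith, fun i t t' => ?_⟩
  have hA : Integrable (fun u => 4 * (XX t' i u ^ 2 + XX t' i u * XX t i u + XX t i u ^ 2)) uni := by
    have h := (((cg_pow t' i 2).add (cg_int t' t i i 1 1)).add (cg_pow t i 2)).const_mul 4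
    refine h.congr (Filter.Eventually.of_forall fun u => ?_)
    show 4 * (XX t' i u ^ 2 + XX t' i u ^ 1 * XX t i u ^ 1 + XX t i u ^ 2) = _
    ring
  have hB : Integrable (fun u => 4 * (XX t' i u ^ 3 - XX t i u ^ 3)) uni :=
    ((cg_pow t' i 3).sub (cg_pow t i 3)).const_mul 4
  have hE := cg_int4 t t' i
  have hBe : G4 i t' - G4 i t = -∫ u, 4 * (XX t' i u ^ 3 - XX t i u ^ 3) ∂uni := by
    rw [(G4_eq t' i).2, (G4_eq t i).2, integral_const_mul, integral_const_mul, integral_const_mul,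
      integral_sub (cg_pow t' i 3) (cg_pow t i 3)]
    ring
  have hcs : (∫ u, 4 * (XX t' i u ^ 3 - XX t i u ^ 3) ∂uni) ^ 2 ≤
      (∫ u, 4 * (XX t' i u ^ 2 + XX t' i u * XX t i u + XX t i u ^ 2) ∂uni) *
      ∫ u, 4 * (XX t' i u ^ 3 - XX t i u ^ 3) * (XX t' i u - XX t i u) ∂uni := by
    refine cg_cs fun s => ?_
    have e1 : (∫ u, 4 * (XX t' i u ^ 2 + XX t' i u * XX t i u + XX t i u ^ 2) ∂uni) * (s * s) +
        (-2 * ∫ u, 4 * (XX t' i u ^ 3 - XX t i u ^ 3) ∂uni) * s +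
        ∫ u, 4 * (XX t' i u ^ 3 - XX t i u ^ 3) * (XX t' i u - XX t i u) ∂uni =
        ∫ u, ((4 * (XX t' i u ^ 2 + XX t' i u * XX t i u + XX t i u ^ 2)) * (s * s) +
          (4 * (XX t' i u ^ 3 - XX t i u ^ 3)) * (-2 * s) +
          4 * (XX t' i u ^ 3 - XX t i u ^ 3) * (XX t' i u - XX t i u)) ∂uni := by
      rw [cg_lin hA hB hE]
      ring
    rw [e1]
    refine integral_nonneg fun u => ?_
    show 0 ≤ (4 * (XX t' i u ^ 2 + XX t' i u * XX t i u + XX t i u ^ 2)) * (s * s) +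
      (4 * (XX t' i u ^ 3 - XX t i u ^ 3)) * (-2 * s) +
      4 * (XX t' i u ^ 3 - XX t i u ^ 3) * (XX t' i u - XX t i u)
    generalize XX t' i u = a
    generalize XX t i u = b
    have h : (4 * (a ^ 2 + a * b + b ^ 2)) * (s * s) + (4 * (a ^ 3 - b ^ 3)) * (-2 * s) +
        4 * (a ^ 3 - b ^ 3) * (a - b) = 4 * (a ^ 2 + a * b + b ^ 2) * (s - (a - b)) ^ 2 := by ring
    rw [h]
    have : 0 ≤ a ^ 2 + a * b + b ^ 2 := by nlinarith [sq_nonneg (a + b), sq_nonneg a, sq_nonneg b]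
    positivity
  have hAle : ∫ u, 4 * (XX t' i u ^ 2 + XX t' i u * XX t i u + XX t i u ^ 2) ∂uni ≤
      12 * C * (1 + q t + q t') := by
    calc ∫ u, 4 * (XX t' i u ^ 2 + XX t' i u * XX t i u + XX t i u ^ 2) ∂uni
        ≤ ∫ u, 6 * (XX t' i u ^ 2 + XX t i u ^ 2) ∂uni := by
          refine integral_mono hA (((cg_pow t' i 2).add (cg_pow t i 2)).const_mul 6) fun u => ?_
          show 4 * (XX t' i u ^ 2 + XX t' i u * XX t i u + XX t i u ^ 2) ≤
            6 * (XX t' i u ^ 2 + XX t i u ^ 2)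
          nlinarith [sq_nonneg (XX t' i u - XX t i u)]
      _ = 6 * (∫ u, XX t' i u ^ 2 ∂uni + ∫ u, XX t i u ^ 2 ∂uni) := by
          rw [integral_const_mul, integral_add (cg_pow t' i 2) (cg_pow t i 2)]
      _ ≤ 6 * (C * (1 + q t') + C * (1 + q t)) := by
          rw [cg_mom2, cg_mom2]
          have := (hmom t' i).1
          have := (hmom t i).1
          linarith
      _ ≤ 12 * C * (1 + q t + q t') := by
          have h1 : 0 ≤ q t := Finset.sum_nonneg fun i _ => Finset.sum_nonneg fun j _ => sq_nonneg _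
          have h2 : 0 ≤ q t' := Finset.sum_nonneg fun i _ => Finset.sum_nonneg fun j _ => sq_nonneg _
          nlinarith
  have hEn : 0 ≤ ∫ u, 4 * (XX t' i u ^ 3 - XX t i u ^ 3) * (XX t' i u - XX t i u) ∂uni :=
    integral_nonneg fun u => cg_nn _ _
  have hAn : 0 ≤ 12 * C * (1 + q t + q t') := by
    refine le_trans (integral_nonneg fun u => ?_) hAle
    show 0 ≤ 4 * (XX t' i u ^ 2 + XX t' i u * XX t i u + XX t i u ^ 2)
    nlinarith [sq_nonneg (XX t' i u + XX t i u), sq_nonneg (XX t' i u), sq_nonneg (XX t i u)]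
  rw [hBe, neg_sq]
  calc (∫ u, 4 * (XX t' i u ^ 3 - XX t i u ^ 3) ∂uni) ^ 2 ≤ _ := hcs
    _ ≤ 12 * C * (1 + q t + q t') *
      ∫ u, 4 * (XX t' i u ^ 3 - XX t i u ^ 3) * (XX t' i u - XX t i u) ∂uni :=
        mul_le_mul_of_nonneg_right hAle hEn
    _ ≤ _ := mul_le_mul_of_nonneg_left (cg_one t t' i) hAn

theorem cg_pt (h : Fin 4 → ℝ) (k : ℝ) : q h ^ 2 ≤ 256 * ∑ i, (k - h i) ^ 4 := by
  have h1 : q h = 8 * (∑ i, (k - h i) ^ 2) - 2 * (∑ i, (k - h i)) ^ 2 := by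
    simp only [q, Fin.sum_univ_four]
    ring
  have h0 : 0 ≤ q h := Finset.sum_nonneg fun i _ => Finset.sum_nonneg fun j _ => sq_nonneg _
  have h2 : q h ≤ 8 * ∑ i, (k - h i) ^ 2 := by
    rw [h1]
    have := sq_nonneg (∑ i, (k - h i))
    linarith
  have h3 : (∑ i, (k - h i) ^ 2) ^ 2 ≤ 4 * ∑ i, ((k - h i) ^ 2) ^ 2 := by
    have := sq_sum_le_card_mul_sum_sq (s := (Finset.univ : Finset (Fin 4)))
      (f := fun i => (k - h i) ^ 2)
    simpa using this
  calc q h ^ 2 ≤ (8 * ∑ i, (k - h i) ^ 2) ^ 2 := by gcongr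
    _ = 64 * (∑ i, (k - h i) ^ 2) ^ 2 := by ring
    _ ≤ 64 * (4 * ∑ i, ((k - h i) ^ 2) ^ 2) := by gcongr
    _ = 256 * ∑ i, (k - h i) ^ 4 := by
      simp only [← pow_mul]
      ring

theorem G4_quar : ∃ C : ℝ, 1 ≤ C ∧ ∀ t t' : Fin 4 → ℝ,
    q (fun i => t' i - t i) ^ 2 ≤ C * DD G4 t t' := by
  refine ⟨256, by norm_num, fun t t' => ?_⟩
  have h1 : ∀ u, q (fun i => t' i - t i) ^ 2 ≤
      256 * ∑ i, 4 * (XX t' i u ^ 3 - XX t i u ^ 3) * (XX t' i u - XX t i u) := by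
    intro u
    refine (cg_pt _ (qt (gt t') u - qt (gt t) u)).trans ?_
    refine mul_le_mul_of_nonneg_left (Finset.sum_le_sum fun i _ => ?_) (by norm_num)
    have e : qt (gt t') u - qt (gt t) u - (t' i - t i) = XX t' i u - XX t i u := by
      rw [XX, XX]
      ring
    rw [e]
    generalize XX t' i u = a
    generalize XX t i u = b
    have h : 4 * (a ^ 3 - b ^ 3) * (a - b) - (a - b) ^ 4 = 3 * ((a + b) * (a - b)) ^ 2 := by ring
    have := sq_nonneg ((a + b) * (a - b))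
    linarith
  calc q (fun i => t' i - t i) ^ 2 = ∫ _u, q (fun i => t' i - t i) ^ 2 ∂uni := by
        rw [integral_const]
        simp
    _ ≤ ∫ u, 256 * ∑ i, 4 * (XX t' i u ^ 3 - XX t i u ^ 3) * (XX t' i u - XX t i u) ∂uni :=
        integral_mono (integrable_const _) ((DD_lower t t').1.const_mul _) h1
    _ = 256 * ∫ u, ∑ i, 4 * (XX t' i u ^ 3 - XX t i u ^ 3) * (XX t' i u - XX t i u) ∂uni :=
        integral_const_mul _ _
    _ ≤ 256 * DD G4 t t' := mul_le_mul_of_nonneg_left (DD_lower t t').2 (by norm_num)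

theorem G4_grow : ∃ C : ℝ, 1 ≤ C ∧ ∀ (i : Fin 4) (t : Fin 4 → ℝ),
    |G4 i t| ≤ C * (1 + q t) ^ 2 := by
  obtain ⟨C, hC, hmom⟩ := gt_moment
  refine ⟨4 * C, by linarith, fun i t => ?_⟩
  rw [(G4_eq t i).2, abs_neg]
  calc |∫ u, 4 * XX t i u ^ 3 ∂uni| ≤ ∫ u, |4 * XX t i u ^ 3| ∂uni := abs_integral_le_integral_abs
    _ = ∫ u, 4 * |XX t i u| ^ 3 ∂uni := by
        refine integral_congr_ae (Filter.Eventually.of_forall fun u => ?_)
        show |4 * XX t i u ^ 3| = 4 * |XX t i u| ^ 3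
        rw [abs_mul, abs_pow, abs_of_pos (by norm_num : (0 : ℝ) < 4)]
    _ = 4 * ∫ x, |x - t i| ^ 3 * gt t x := by rw [integral_const_mul, cg_mom3]
    _ ≤ 4 * (C * (1 + q t) ^ 2) := by
        have := (hmom t i).2
        linarith
    _ = 4 * C * (1 + q t) ^ 2 := by ring

end QG
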