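import Mathlib
import Pool.Agent.Lib_helper69.QG.Defs
import Pool.Agent.Lib_helper69.QG.W.cc
import Pool.Agent.Lib_helper69.QG.W.cf
import Pool.Agent.Lib_helper69.QG.W.ca
import Pool.Agent.Lib_helper69.QG.W.qb

set_option autoImplicit false

namespace QG

open MeasureTheory

theorem ch_q_nonneg (h : Fin 4 → ℝ) : 0 ≤ q h :=
  Finset.sum_nonneg fun _ _ => Finset.sum_nonneg fun _ _ => sq_nonneg _

theorem ch_q_le (h : Fin 4 → ℝ) (k : ℝ) : q h ≤ 8 * ∑ i, (k - h i) ^ 2 := by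
  have e : q h = 8 * ∑ i, (k - h i) ^ 2 - 2 * (∑ i, (k - h i)) ^ 2 := by
    simp only [q, Fin.sum_univ_four]
    ring
  rw [e]
  nlinarith [sq_nonneg (∑ i, (k - h i))]

/-- `∑ b i (k - h i) ^ 2 ≥ (m / 8) q h` if all `b i ≥ m` -/
theorem star_low (b h : Fin 4 → ℝ) (k m : ℝ) (hm : 0 ≤ m) (hb : ∀ i, m ≤ b i) :
    m / 8 * q h ≤ ∑ i, b i * (k - h i) ^ 2 := by
  have h1 : m / 8 * q h ≤ m / 8 * (8 * ∑ i, (k - h i) ^ 2) :=
    mul_le_mul_of_nonneg_left (ch_q_le h k) (by positivity)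
  have h2 : m / 8 * (8 * ∑ i, (k - h i) ^ 2) = ∑ i, m * (k - h i) ^ 2 := by
    rw [← Finset.mul_sum]
    ring
  have h3 : ∑ i, m * (k - h i) ^ 2 ≤ ∑ i, b i * (k - h i) ^ 2 :=
    Finset.sum_le_sum fun i _ => mul_le_mul_of_nonneg_right (hb i) (sq_nonneg _)
  linarith

/-- `4 (a ^ 3 - b ^ 3) (a - b) ≥ 3 b ^ 2 (a - b) ^ 2` -/
theorem ch_cubic (a b : ℝ) : 3 * b ^ 2 * (a - b) ^ 2 ≤ 4 * (a ^ 3 - b ^ 3) * (a - b) := by
  have e : 4 * (a ^ 3 - b ^ 3) * (a - b) - 3 * b ^ 2 * (a - b) ^ 2 =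
      (2 * a + b) ^ 2 * (a - b) ^ 2 := by ring
  have : 0 ≤ (2 * a + b) ^ 2 * (a - b) ^ 2 := by positivity
  linarith

/-- the good event -/
def ch_S (t : Fin 4 → ℝ) : Set ℝ := {x | ∀ i, 1 / (144 * (1 + Real.sqrt (q t))) ≤ |x - t i|}

theorem ch_S_meas (t : Fin 4 → ℝ) : MeasurableSet (ch_S t) := by
  have e : ch_S t = ⋂ i : Fin 4, {x | 1 / (144 * (1 + Real.sqrt (q t))) ≤ |x - t i|} := by
    ext x
    simp [ch_S]
  rw [e]
  refine MeasurableSet.iInter fun i => ?_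
  exact (isClosed_le continuous_const (by fun_prop)).measurableSet

theorem ch_prob (t : Fin 4 → ℝ) :
    1 / 2 ≤ ∫ u, (ch_S t).indicator (fun _ => (1 : ℝ)) (qt (gt t) u) ∂uni := by
  have hF : Measurable ((ch_S t).indicator (fun _ => (1 : ℝ))) :=
    measurable_const.indicator (ch_S_meas t)
  rw [(qt_integral (gt_dens t) hF).1]
  have e : (fun x => (ch_S t).indicator (fun _ => (1 : ℝ)) x * gt t x) =
      (ch_S t).indicator (gt t) := by
    funext x
    by_cases hx : x ∈ ch_S t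
    · simp [hx]
    · simp [hx]
  rw [e, integral_indicator (ch_S_meas t)]
  exact gt_anti t

theorem G4_coer : ∃ C : ℝ, 1 ≤ C ∧ ∀ t t' : Fin 4 → ℝ,
    q (fun i => t' i - t i) ≤ C * (1 + q t) * DD G4 t t' := by
  refine ⟨221184, by norm_num, fun t t' => ?_⟩
  obtain ⟨hi, hD⟩ := DD_lower t t'
  set r : ℝ := 1 / (144 * (1 + Real.sqrt (q t))) with hr
  have hs0 : 0 ≤ Real.sqrt (q t) := Real.sqrt_nonneg _
  have hr0 : 0 < r := by positivity
  set c0 : ℝ := 3 * r ^ 2 / 8 * q (fun i => t' i - t i) with hc0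
  have hc00 : 0 ≤ c0 := mul_nonneg (by positivity) (ch_q_nonneg _)
  have hpt : ∀ u, c0 * (ch_S t).indicator (fun _ => (1 : ℝ)) (qt (gt t) u) ≤
      ∑ i, 4 * (XX t' i u ^ 3 - XX t i u ^ 3) * (XX t' i u - XX t i u) := by
    intro u
    have h1 : ∑ i, 3 * XX t i u ^ 2 * (XX t' i u - XX t i u) ^ 2 ≤
        ∑ i, 4 * (XX t' i u ^ 3 - XX t i u ^ 3) * (XX t' i u - XX t i u) :=
      Finset.sum_le_sum fun i _ => ch_cubic _ _
    by_cases hu : qt (gt t) u ∈ ch_S t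
    · rw [Set.indicator_of_mem hu, mul_one]
      have h2 := star_low (fun i => 3 * XX t i u ^ 2) (fun i => t' i - t i)
        (qt (gt t') u - qt (gt t) u) (3 * r ^ 2) (by positivity) (fun i => by
          have h3 : r ≤ |XX t i u| := hu i
          have h4 : r ^ 2 ≤ XX t i u ^ 2 := by
            rw [← sq_abs (XX t i u)]
            exact pow_le_pow_left₀ hr0.le h3 2
          linarith)
      refine le_trans h2 (le_trans (le_of_eq ?_) h1)
      refine Finset.sum_congr rfl fun i _ => ?_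
      simp only [XX]
      ring
    · rw [Set.indicator_of_notMem hu, mul_zero]
      exact le_trans (Finset.sum_nonneg fun i _ => by positivity) h1
  have h5 : c0 * (1 / 2) ≤ DD G4 t t' := by
    calc c0 * (1 / 2) ≤ c0 * ∫ u, (ch_S t).indicator (fun _ => (1 : ℝ)) (qt (gt t) u) ∂uni :=
          mul_le_mul_of_nonneg_left (ch_prob t) hc00
      _ = ∫ u, c0 * (ch_S t).indicator (fun _ => (1 : ℝ)) (qt (gt t) u) ∂uni :=
          (integral_const_mul _ _).symm
      _ ≤ ∫ u, ∑ i, 4 * (XX t' i u ^ 3 - XX t i u ^ 3) * (XX t' i u - XX t i u) ∂uni := by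
          refine integral_mono_of_nonneg (Filter.Eventually.of_forall fun u => ?_) hi
            (Filter.Eventually.of_forall hpt)
          exact mul_nonneg hc00 (Set.indicator_nonneg (fun _ _ => zero_le_one) _)
      _ ≤ DD G4 t t' := hD
  have hD0 : 0 ≤ DD G4 t t' := le_trans (by positivity) h5
  have hsq : Real.sqrt (q t) ^ 2 = q t := Real.sq_sqrt (ch_q_nonneg t)
  have h6 : (1 + Real.sqrt (q t)) ^ 2 ≤ 2 * (1 + q t) := by
    nlinarith [sq_nonneg (1 - Real.sqrt (q t))]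
  have h7 : q (fun i => t' i - t i) = c0 * (1 / 2) * (110592 * (1 + Real.sqrt (q t)) ^ 2) := by
    rw [hc0, hr]
    field_simp
    ring
  rw [h7]
  calc c0 * (1 / 2) * (110592 * (1 + Real.sqrt (q t)) ^ 2)
      ≤ DD G4 t t' * (110592 * (2 * (1 + q t))) := by
        refine mul_le_mul h5 ?_ (by positivity) hD0
        exact mul_le_mul_of_nonneg_left h6 (by norm_num)
    _ = 221184 * (1 + q t) * DD G4 t t' := by ring

end QG
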