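import Mathlib
import Pool.Agent.Lib_helper69.QG.Defs
import Pool.Agent.Lib_helper69.QG.W.cb
import Pool.Agent.Lib_helper69.QG.W.cc
import Pool.Agent.Lib_helper69.QG.W.ce

set_option autoImplicit false

namespace QG

open MeasureTheory

theorem ci_pow (t : Fin 4 → ℝ) (r : ℝ) (n : ℕ) :
    Integrable (fun x : ℝ => |x - r| ^ n * gt t x) := by
  have h := (int_pow_exp t r n).div_const (w4 t)
  refine h.congr (Filter.Eventually.of_forall fun x => ?_)
  simp only [gt]
  ring

theorem ci_int (t : Fin 4 → ℝ) : Integrable (gt t) := by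
  have h := ci_pow t 0 0
  simpa using h

theorem ci_one (t : Fin 4 → ℝ) : ∫ x, gt t x = 1 := by
  unfold gt
  rw [integral_div]
  exact div_self (w4_pos t).ne'

theorem ci_V (t t' : Fin 4 → ℝ) : Integrable (fun x => V t' x * gt t x) := by
  have h : Integrable (fun x => ∑ i, |x - t' i| ^ 4 * gt t x) :=
    integrable_finsetSum _ (fun i _ => ci_pow t (t' i) 4)
  refine h.congr (Filter.Eventually.of_forall fun x => ?_)
  simp only [V, Finset.sum_mul]
  refine Finset.sum_congr rfl fun i _ => ?_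
  rw [← abs_pow, abs_of_nonneg (by positivity)]

theorem ci_sub (t t' : Fin 4 → ℝ) : Integrable (fun x => (V t' x - V t x) * gt t x) := by
  refine ((ci_V t t').sub (ci_V t t)).congr (Filter.Eventually.of_forall fun x => ?_)
  simp only [Pi.sub_apply]
  ring

/-- Gibbs' inequality -/
theorem w4_gibbs (t t' : Fin 4 → ℝ) :
    Real.log (w4 t) - Real.log (w4 t') ≤ ∫ x, (V t' x - V t x) * gt t x := by
  set m : ℝ := Real.log (w4 t) - Real.log (w4 t') with hm
  have hem : Real.exp m = w4 t / w4 t' := by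
    rw [hm, Real.exp_sub, Real.exp_log (w4_pos t), Real.exp_log (w4_pos t')]
  have hi1 : Integrable (fun x => (V t' x - V t x) * gt t x) := ci_sub t t'
  have hi0 : Integrable (fun x => m * gt t x) := (ci_int t).const_mul m
  have hi4 : Integrable (fun x => gt t x + m * gt t x) := (ci_int t).add hi0
  have h1 : ∀ x, Real.exp (-(V t' x - V t x) + m) * gt t x =
      Real.exp m * (Real.exp (-V t' x) / w4 t) := by
    intro x
    unfold gt
    have h2 : Real.exp (-(V t' x - V t x) + m) * Real.exp (-V t x) =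
        Real.exp m * Real.exp (-V t' x) := by
      rw [← Real.exp_add, ← Real.exp_add]
      congr 1
      ring
    rw [← mul_div_assoc, h2, mul_div_assoc]
  have hi2 : Integrable (fun x => Real.exp (-(V t' x - V t x) + m) * gt t x) := by
    have h3 : Integrable (fun x => Real.exp (-V t' x)) := by
      have h4 := int_pow_exp t' 0 0
      simpa using h4
    refine ((h3.div_const (w4 t)).const_mul (Real.exp m)).congr
      (Filter.Eventually.of_forall fun x => ?_)
    exact (h1 x).symm
  have h5 : ∫ x, Real.exp (-(V t' x - V t x) + m) * gt t x = 1 := by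
    simp_rw [h1]
    rw [integral_const_mul, integral_div, hem]
    have h6 : ∫ x, Real.exp (-V t' x) = w4 t' := rfl
    rw [h6]
    have h7 := (w4_pos t).ne'
    have h8 := (w4_pos t').ne'
    field_simp
  have h9 : ∫ x, (gt t x + m * gt t x - (V t' x - V t x) * gt t x) ≤
      ∫ x, Real.exp (-(V t' x - V t x) + m) * gt t x := by
    apply integral_mono
    · exact hi4.sub hi1
    · exact hi2
    · intro x
      have h10 := Real.add_one_le_exp (-(V t' x - V t x) + m)
      have h11 : 0 ≤ gt t x := by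
        unfold gt
        have := w4_pos t
        positivity
      have h12 := mul_le_mul_of_nonneg_right h10 h11
      simp only
      linarith
  rw [integral_sub hi4 hi1, integral_add (ci_int t) hi0, integral_const_mul, ci_one, h5] at h9
  linarith

theorem ci_q (s : Fin 4 → ℝ) : q s = 8 * ∑ i, (s i - (∑ j, s j) / 4) ^ 2 := by
  unfold q
  simp only [Fin.sum_univ_four]
  ring

theorem w4_conv : ∃ C : ℝ, 1 ≤ C ∧ ∀ t s : Fin 4 → ℝ,
    2 * Real.log (w4 t) - Real.log (w4 (fun i => t i + s i)) - Real.log (w4 (fun i => t i - s i)) ≤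
      C * ((1 + q t) * q s + q s ^ 2) := by
  obtain ⟨C, hC1, hC⟩ := gt_moment
  refine ⟨2 * C, by linarith, fun t s => ?_⟩
  obtain ⟨m, hm⟩ : ∃ m : ℝ, m = (∑ j, s j) / 4 := ⟨_, rfl⟩
  obtain ⟨r, hr⟩ : ∃ r : Fin 4 → ℝ, ∀ i, r i = s i - m := ⟨fun i => s i - m, fun i => rfl⟩
  have hq : q s = 8 * ∑ i, r i ^ 2 := by
    rw [ci_q, ← hm]
    simp only [hr]
  have e1 : w4 (fun i => t i + s i) = w4 (fun i => t i + r i) := by
    rw [← w4_shift (fun i => t i + r i) m]
    congr 1
    funext i
    rw [hr]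
    ring
  have e2 : w4 (fun i => t i - s i) = w4 (fun i => t i - r i) := by
    rw [← w4_shift (fun i => t i - r i) (-m)]
    congr 1
    funext i
    rw [hr]
    ring
  rw [e1, e2]
  have g1 := w4_gibbs t (fun i => t i + r i)
  have g2 := w4_gibbs t (fun i => t i - r i)
  have hi1 : Integrable (fun x => (V (fun i => t i + r i) x - V t x) * gt t x) :=
    ci_sub t (fun i => t i + r i)
  have hi2 : Integrable (fun x => (V (fun i => t i - r i) x - V t x) * gt t x) :=
    ci_sub t (fun i => t i - r i)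
  have hi3 : ∀ i, Integrable (fun x => (x - t i) ^ 2 * gt t x) := by
    intro i
    refine (ci_pow t (t i) 2).congr (Filter.Eventually.of_forall fun x => ?_)
    simp only [sq_abs]
  have h1 : (∫ x, (V (fun i => t i + r i) x - V t x) * gt t x) +
      ∫ x, (V (fun i => t i - r i) x - V t x) * gt t x =
      ∑ i, (12 * r i ^ 2 * (∫ x, (x - t i) ^ 2 * gt t x) + 2 * r i ^ 4) := by
    rw [← integral_add hi1 hi2]
    have h2 : ∀ x, (V (fun i => t i + r i) x - V t x) * gt t x +
        (V (fun i => t i - r i) x - V t x) * gt t x =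
        ∑ i, (12 * r i ^ 2 * ((x - t i) ^ 2 * gt t x) + 2 * r i ^ 4 * gt t x) := by
      intro x
      unfold V
      rw [← add_mul, ← Finset.sum_sub_distrib, ← Finset.sum_sub_distrib,
        ← Finset.sum_add_distrib, Finset.sum_mul]
      refine Finset.sum_congr rfl fun i _ => ?_
      ring
    simp_rw [h2]
    have hi4 : ∀ i, Integrable (fun x => 12 * r i ^ 2 * ((x - t i) ^ 2 * gt t x)) :=
      fun i => (hi3 i).const_mul _
    have hi5 : ∀ i, Integrable (fun x => 2 * r i ^ 4 * gt t x) :=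
      fun i => (ci_int t).const_mul _
    have hi6 : ∀ i, Integrable (fun x => 12 * r i ^ 2 * ((x - t i) ^ 2 * gt t x) +
        2 * r i ^ 4 * gt t x) := fun i => (hi4 i).add (hi5 i)
    rw [integral_finsetSum _ (fun i _ => hi6 i)]
    refine Finset.sum_congr rfl fun i _ => ?_
    rw [integral_add (hi4 i) (hi5 i), integral_const_mul, integral_const_mul, ci_one, mul_one]
  have hq0 : 0 ≤ q t := (q_bounds t).1
  have hs0 : 0 ≤ q s := (q_bounds s).1
  have h3 : ∑ i, (12 * r i ^ 2 * (∫ x, (x - t i) ^ 2 * gt t x) + 2 * r i ^ 4) ≤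
      ∑ i, (12 * r i ^ 2 * (C * (1 + q t)) + 2 * (r i ^ 2 * ∑ j, r j ^ 2)) := by
    apply Finset.sum_le_sum
    intro i _
    have h4 : 12 * r i ^ 2 * (∫ x, (x - t i) ^ 2 * gt t x) ≤ 12 * r i ^ 2 * (C * (1 + q t)) :=
      mul_le_mul_of_nonneg_left (hC t i).1 (by positivity)
    have h5 : r i ^ 2 ≤ ∑ j, r j ^ 2 :=
      Finset.single_le_sum (f := fun j => r j ^ 2) (fun j _ => sq_nonneg _) (Finset.mem_univ i)
    have h6 : r i ^ 4 ≤ r i ^ 2 * ∑ j, r j ^ 2 := by
      calc r i ^ 4 = r i ^ 2 * r i ^ 2 := by ring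
        _ ≤ _ := mul_le_mul_of_nonneg_left h5 (sq_nonneg _)
    linarith
  have h7 : ∑ i, (12 * r i ^ 2 * (C * (1 + q t)) + 2 * (r i ^ 2 * ∑ j, r j ^ 2)) =
      12 * (C * (1 + q t)) * (∑ i, r i ^ 2) + 2 * (∑ i, r i ^ 2) ^ 2 := by
    rw [Finset.sum_add_distrib, ← Finset.mul_sum, ← Finset.sum_mul, ← Finset.sum_mul,
      ← Finset.mul_sum]
    ring
  have h9 : ∑ i, r i ^ 2 = q s / 8 := by linarith
  rw [h7, h9] at h3
  have h10 : 12 * (C * (1 + q t)) * (q s / 8) ≤ 2 * C * ((1 + q t) * q s) := by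
    have : 0 ≤ C * ((1 + q t) * q s) := by positivity
    linarith
  have h11 : 2 * (q s / 8) ^ 2 ≤ 2 * C * q s ^ 2 := by
    have h12 : 0 ≤ q s ^ 2 := by positivity
    have h13 : 1 * q s ^ 2 ≤ C * q s ^ 2 := mul_le_mul_of_nonneg_right hC1 h12
    linarith
  linarith

end QG
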