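import Mathlib
import Pool.Agent.Lib_helper69.QG.Defs
import Pool.Agent.Lib_helper69.QG.W.ca
import Pool.Agent.Lib_helper69.QG.W.cc
import Pool.Agent.Lib_helper69.QG.W.cd
import Pool.Agent.Lib_helper69.QG.W.ce
import Pool.Agent.Lib_helper69.QG.W.cg
import Pool.Agent.Lib_helper69.QG.W.ch
import Pool.Agent.Lib_helper69.QG.W.ci

set_option autoImplicit false

namespace QG

theorem cz_q_nonneg (t : Fin 4 → ℝ) : 0 ≤ q t :=
  Finset.sum_nonneg fun _ _ => Finset.sum_nonneg fun _ _ => sq_nonneg _

/-- the cell of the quartic surface -/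
theorem cell4 : ∃ C : ℝ, Cell w4 G4 C := by
  obtain ⟨C1, h1, hflux⟩ := G4_flux
  obtain ⟨C2, h2, hquar⟩ := G4_quar
  obtain ⟨C3, h3, hgrow⟩ := G4_grow
  obtain ⟨C4, h4, hcoer⟩ := G4_coer
  obtain ⟨C5, h5, hconv⟩ := w4_conv
  have hDD : ∀ t t' : Fin 4 → ℝ, 0 ≤ DD G4 t t' := by
    intro t t'
    have h := (sq_nonneg _).trans (hquar t t')
    exact nonneg_of_mul_nonneg_right h (by linarith)
  refine ⟨C1 + C2 + C3 + C4 + C5 + 1152, ?_⟩
  constructor
  · linarith
  · exact w4_pos
  · exact w4_cont
  · exact G4_cont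
  · exact w4_deriv
  · exact w4_shift
  · exact w4_even
  · exact G4_sum
  · intro i t
    refine (hgrow i t).trans ?_
    exact mul_le_mul_of_nonneg_right (by linarith) (sq_nonneg _)
  · intro t
    refine (w4_le t).trans ?_
    refine mul_le_mul (by linarith) (Real.exp_le_exp.mpr ?_) (Real.exp_pos _).le (by linarith)
    rw [neg_div, neg_div]
    refine neg_le_neg ?_
    exact div_le_div_of_nonneg_left (sq_nonneg _) (by norm_num) (by linarith)
  · intro i t t'
    refine (hflux i t t').trans ?_
    have hq : 0 ≤ 1 + q t + q t' := by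
      have := cz_q_nonneg t
      have := cz_q_nonneg t'
      linarith
    exact mul_le_mul_of_nonneg_right
      (mul_le_mul_of_nonneg_right (by linarith) hq) (hDD t t')
  · intro t t'
    refine (hcoer t t').trans ?_
    have hq : 0 ≤ 1 + q t := by
      have := cz_q_nonneg t
      linarith
    exact mul_le_mul_of_nonneg_right
      (mul_le_mul_of_nonneg_right (by linarith) hq) (hDD t t')
  · intro t t'
    refine (hquar t t').trans ?_
    exact mul_le_mul_of_nonneg_right (by linarith) (hDD t t')
  · intro t s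
    refine (hconv t s).trans ?_
    have hq := cz_q_nonneg t
    have hs := cz_q_nonneg s
    have : 0 ≤ (1 + q t) * q s + q s ^ 2 := by positivity
    exact mul_le_mul_of_nonneg_right (by linarith) this

end QG
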