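import Mathlib
import Pool.Agent.Lib_helper69.QG.Defs
import Pool.Agent.Lib_helper69.QG.Field
import Pool.Agent.Lib_helper69.QG.Geo
import Pool.Agent.Lib_helper69.QG.W.pa

set_option autoImplicit false

namespace QG

open Finset

/-- deviation from the average over a subset -/
theorem pc_avg (B A : Finset (ℤ × ℤ)) (g : ℤ × ℤ → ℝ) (hA : A ⊆ B) (hne : A.Nonempty) :
    ∑ x ∈ B, (g x - (∑ y ∈ A, g y) / A.card) ^ 2 ≤
      (∑ x ∈ B, ∑ y ∈ B, (g x - g y) ^ 2) / A.card := by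
  have hc : (0 : ℝ) < A.card := by exact_mod_cast hne.card_pos
  rw [Finset.sum_div (s := B)]
  apply Finset.sum_le_sum
  intro x _
  have h1 : g x - (∑ y ∈ A, g y) / A.card = (∑ y ∈ A, (g x - g y)) / A.card := by
    rw [Finset.sum_sub_distrib, Finset.sum_const, nsmul_eq_mul]
    field_simp
  have h2 := sq_sum_le_card_mul_sum_sq (s := A) (f := fun y => g x - g y)
  have h3 : ∑ y ∈ A, (g x - g y) ^ 2 ≤ ∑ y ∈ B, (g x - g y) ^ 2 :=
    Finset.sum_le_sum_of_subset_of_nonneg hA fun y _ _ => sq_nonneg _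
  rw [h1, div_pow, div_le_div_iff₀ (by positivity) hc]
  nlinarith [mul_le_mul_of_nonneg_right h2 hc.le, mul_le_mul_of_nonneg_left h3 (mul_pos hc hc).le]

/-- Poincare inequality in the square `[-2r, 2r] ^ 2` with the average over the outer half -/
theorem box_annulus (f : ℤ → ℤ → ℝ) (r : ℕ) (hr : 1 ≤ r) :
    ((((Icc (-(2 * r : ℤ)) (2 * r)) ×ˢ (Icc (-(2 * r : ℤ)) (2 * r))).filter
        fun x : ℤ × ℤ => r < max x.1.natAbs x.2.natAbs).Nonempty) ∧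
    ∑ x ∈ (Icc (-(2 * r : ℤ)) (2 * r)) ×ˢ (Icc (-(2 * r : ℤ)) (2 * r)), (f x.1 x.2 -
      (∑ y ∈ ((Icc (-(2 * r : ℤ)) (2 * r)) ×ˢ (Icc (-(2 * r : ℤ)) (2 * r))).filter
        (fun x : ℤ × ℤ => r < max x.1.natAbs x.2.natAbs), f y.1 y.2) /
      (((Icc (-(2 * r : ℤ)) (2 * r)) ×ˢ (Icc (-(2 * r : ℤ)) (2 * r))).filter
        fun x : ℤ × ℤ => r < max x.1.natAbs x.2.natAbs).card) ^ 2 ≤
    288 * r ^ 2 * ∑ i ∈ Ico (-(2 * r : ℤ)) (2 * r), ∑ j ∈ Ico (-(2 * r : ℤ)) (2 * r),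
      sq4 f i j := by
  set B : Finset (ℤ × ℤ) := (Icc (-(2 * r : ℤ)) (2 * r)) ×ˢ (Icc (-(2 * r : ℤ)) (2 * r)) with hB
  set A : Finset (ℤ × ℤ) := B.filter (fun x : ℤ × ℤ => r < max x.1.natAbs x.2.natAbs) with hA
  set E := ∑ i ∈ Ico (-(2 * r : ℤ)) (2 * r), ∑ j ∈ Ico (-(2 * r : ℤ)) (2 * r), sq4 f i j with hE
  have hcB : B.card = (4 * r + 1) ^ 2 := by
    rw [hB, Finset.card_product, Int.card_Icc]
    have a1 : (2 * (r : ℤ) + 1 - -(2 * (r : ℤ))).toNat = 4 * r + 1 := by omega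
    rw [a1]
    ring
  have hcc : (B.filter (fun x : ℤ × ℤ => ¬ r < max x.1.natAbs x.2.natAbs)).card ≤
      (2 * r + 1) ^ 2 := by
    have hsub : B.filter (fun x : ℤ × ℤ => ¬ r < max x.1.natAbs x.2.natAbs) ⊆
        Icc (-(r : ℤ)) r ×ˢ Icc (-(r : ℤ)) r := by
      intro x hx
      rw [Finset.mem_filter, not_lt, max_le_iff] at hx
      rw [Finset.mem_product, Finset.mem_Icc, Finset.mem_Icc]
      obtain ⟨_, h1, h2⟩ := hx
      refine ⟨⟨?_, ?_⟩, ⟨?_, ?_⟩⟩ <;> omega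
    refine (Finset.card_le_card hsub).trans (le_of_eq ?_)
    rw [Finset.card_product, Int.card_Icc]
    have a1 : ((r : ℤ) + 1 - -(r : ℤ)).toNat = 2 * r + 1 := by omega
    rw [a1]
    ring
  have hadd : A.card + (B.filter (fun x : ℤ × ℤ => ¬ r < max x.1.natAbs x.2.natAbs)).card =
      B.card := Finset.card_filter_add_card_filter_not _
  have hcA : (4 * r + 1) ^ 2 ≤ 2 * A.card := by
    rw [hcB] at hadd
    nlinarith
  have hne : A.Nonempty := by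
    rw [← Finset.card_pos]
    have : 0 < (4 * r + 1) ^ 2 := by positivity
    omega
  refine ⟨hne, ?_⟩
  have h1 := pc_avg B A (fun x => f x.1 x.2) (Finset.filter_subset _ _) hne
  refine h1.trans ?_
  have hc : (0 : ℝ) < A.card := by exact_mod_cast hne.card_pos
  rw [div_le_iff₀ hc]
  have hp := box_poincare f (-(2 * r : ℤ)) (-(2 * r : ℤ)) (4 * r + 1) (4 * r + 1) (by omega)
    (by omega)
  have e1 : Ico (-(2 * r : ℤ)) (-(2 * r : ℤ) + ((4 * r + 1 : ℕ) : ℤ)) =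
      Icc (-(2 * r : ℤ)) (2 * r) := by
    ext x
    rw [Finset.mem_Ico, Finset.mem_Icc]
    push_cast
    omega
  have e2 : (-(2 * r : ℤ) + ((4 * r + 1 : ℕ) : ℤ) - 1) = 2 * r := by
    push_cast
    ring
  rw [e1, e2] at hp
  have h2 : ∑ x ∈ B, ∑ y ∈ B, (f x.1 x.2 - f y.1 y.2) ^ 2 =
      ∑ i ∈ Icc (-(2 * r : ℤ)) (2 * r), ∑ j ∈ Icc (-(2 * r : ℤ)) (2 * r),
        ∑ i' ∈ Icc (-(2 * r : ℤ)) (2 * r), ∑ j' ∈ Icc (-(2 * r : ℤ)) (2 * r),
          (f i j - f i' j') ^ 2 := by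
    rw [hB, Finset.sum_product]
    refine Finset.sum_congr rfl fun i _ => Finset.sum_congr rfl fun j _ => ?_
    rw [Finset.sum_product]
  rw [h2]
  refine hp.trans ?_
  have hE0 : 0 ≤ E := by
    rw [hE]
    refine Finset.sum_nonneg fun i _ => Finset.sum_nonneg fun j _ => ?_
    unfold sq4 q
    exact Finset.sum_nonneg fun i _ => Finset.sum_nonneg fun j _ => sq_nonneg _
  have hcA' : ((4 * r + 1 : ℕ) : ℝ) ^ 2 ≤ 2 * A.card := by exact_mod_cast hcA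
  have hr' : ((4 * r + 1 : ℕ) : ℝ) ≤ 5 * r := by
    have : (4 * r + 1 : ℕ) ≤ 5 * r := by omega
    exact_mod_cast this
  have hM0 : (0 : ℝ) ≤ ((4 * r + 1 : ℕ) : ℝ) := Nat.cast_nonneg _
  set M : ℝ := ((4 * r + 1 : ℕ) : ℝ) with hM
  have hM2 : M ^ 2 ≤ 25 * (r : ℝ) ^ 2 := by nlinarith
  have h3 : 2 * M * M * (M ^ 2 + M ^ 2) ≤ 288 * (r : ℝ) ^ 2 * A.card := by
    calc 2 * M * M * (M ^ 2 + M ^ 2) = 4 * (M ^ 2 * M ^ 2) := by ring
      _ ≤ 4 * ((25 * (r : ℝ) ^ 2) * (2 * A.card)) := by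
        refine mul_le_mul_of_nonneg_left ?_ (by norm_num)
        exact mul_le_mul hM2 hcA' (by positivity) (by positivity)
      _ ≤ 288 * (r : ℝ) ^ 2 * A.card := by nlinarith [mul_nonneg (sq_nonneg (r : ℝ)) hc.le]
  calc 2 * M * M * (M ^ 2 + M ^ 2) * E ≤ 288 * (r : ℝ) ^ 2 * A.card * E :=
      mul_le_mul_of_nonneg_right h3 hE0
    _ = _ := by ring

end QG
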