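import Mathlib
import Pool.Agent.Lib_helper69.QG.Defs
import Pool.Agent.Lib_helper69.QG.Field
import Pool.Agent.Lib_helper69.QG.Geo
import Pool.Agent.Lib_helper69.QG.W.pc
import Pool.Agent.Lib_helper69.QG.W.pd
import Pool.Agent.Lib_helper69.QG.W.pe

set_option autoImplicit false

namespace QG

open Finset

/-- the sites of level at most `r` are the sites of a square in the chart -/
theorem lv_sum (n : ℕ) [NeZero n] (z : Ev n) (r : ℕ) (hr : 2 * r < n) (F : Ev n → ℝ) :
    ∑ y ∈ univ.filter (fun y => lv n z y ≤ r), F y =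
      ∑ x ∈ (Icc (-(r : ℤ)) r) ×ˢ (Icc (-(r : ℤ)) r), F (ch n z x.1 x.2) := by
  classical
  have himg : univ.filter (fun y => lv n z y ≤ r) =
      ((Icc (-(r : ℤ)) r) ×ˢ (Icc (-(r : ℤ)) r)).image (fun x => ch n z x.1 x.2) := by
    ext y
    simp only [mem_filter, mem_univ, true_and, mem_image, mem_product, mem_Icc]
    constructor
    · intro hy
      obtain ⟨i, j, hij, hl⟩ := ch_surj n z y
      refine ⟨(i, j), ?_, hij⟩
      rw [hl] at hy
      simp only
      omega
    · rintro ⟨⟨i, j⟩, hx, rfl⟩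
      simp only at hx ⊢
      rw [lv_ch n z (by omega) (by omega)]
      omega
  rw [himg, sum_image]
  rintro ⟨i, j⟩ hx ⟨i', j'⟩ hx' h
  simp only [coe_product, coe_Icc, Set.mem_prod, Set.mem_Icc] at hx hx'
  simp only at h
  have h1 : |i - i'| < (n : ℤ) := by
    rw [abs_lt]
    omega
  have h2 : |j - j'| < (n : ℤ) := by
    rw [abs_lt]
    omega
  obtain ⟨e1, e2⟩ := (ch_inj n z h1 h2).1 h
  rw [e1, e2]

/-- the cells of level at most `r` are the unit squares of this square -/
theorem cell_sum (n : ℕ) [NeZero n] (z : Ev n) (r : ℕ) (hr : 2 * r + 2 < n) (F : Od n → ℝ) :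
    ∑ v ∈ univ.filter (fun v => ∀ i, lv n z (cn n v i) ≤ r), F v =
      ∑ i ∈ Ico (-(r : ℤ)) r, ∑ j ∈ Ico (-(r : ℤ)) r, F (cc n z i j) := by
  classical
  rw [← sum_product' (f := fun i j => F (cc n z i j))]
  have himg : univ.filter (fun v => ∀ i, lv n z (cn n v i) ≤ r) =
      ((Ico (-(r : ℤ)) r) ×ˢ (Ico (-(r : ℤ)) r)).image (fun x => cc n z x.1 x.2) := by
    ext v
    simp only [mem_filter, mem_univ, true_and, mem_image, mem_product, mem_Ico]
    constructor
    · intro hv
      obtain ⟨i, j, hij, hl⟩ := cc_surj n z v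
      have h0 := hv 0
      rw [hl] at h0
      have h1 := hv 1
      rw [← hij, cn_cc] at h1
      have e1 : (![ch n z i j, ch n z (i + 1) (j + 1), ch n z (i + 1) j, ch n z i (j + 1)] :
          Fin 4 → Ev n) 1 = ch n z (i + 1) (j + 1) := rfl
      rw [e1, lv_ch n z (by omega) (by omega)] at h1
      refine ⟨(i, j), ?_, hij⟩
      simp only
      omega
    · rintro ⟨⟨i, j⟩, hx, rfl⟩ a
      simp only at hx ⊢
      rw [cn_cc]
      fin_cases a
      · change lv n z (ch n z i j) ≤ r
        rw [lv_ch n z (by omega) (by omega)]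
        omega
      · change lv n z (ch n z (i + 1) (j + 1)) ≤ r
        rw [lv_ch n z (by omega) (by omega)]
        omega
      · change lv n z (ch n z (i + 1) j) ≤ r
        rw [lv_ch n z (by omega) (by omega)]
        omega
      · change lv n z (ch n z i (j + 1)) ≤ r
        rw [lv_ch n z (by omega) (by omega)]
        omega
  rw [himg, sum_image]
  rintro ⟨i, j⟩ hx ⟨i', j'⟩ hx' h
  simp only [coe_product, coe_Ico, Set.mem_prod, Set.mem_Ico] at hx hx'
  simp only at h
  have h1 : |i - i'| < (n : ℤ) := by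
    rw [abs_lt]
    omega
  have h2 : |j - j'| < (n : ℤ) := by
    rw [abs_lt]
    omega
  obtain ⟨e1, e2⟩ := (ch_inj n z h1 h2).2 h
  rw [e1, e2]

end QG
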