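import Mathlib
import Pool.Agent.Lib_helper69.QG.Defs
import Pool.Agent.Lib_helper69.QG.Field
import Pool.Agent.Lib_helper69.QG.Geo
import Pool.Agent.Lib_helper69.QG.W.pc
import Pool.Agent.Lib_helper69.QG.W.pd
import Pool.Agent.Lib_helper69.QG.W.pe
import Pool.Agent.Lib_helper69.QG.W.pf

set_option autoImplicit false

namespace QG

open Finset

theorem loc_nonem (n : ℕ) [NeZero n] (z : Ev n) (k : ℕ) (hn : 2 * 2 ^ (k + 1) + 2 < n) :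
    (ann (lv n z) k).Nonempty := by
  have h1 : 1 ≤ 2 ^ k := Nat.one_le_two_pow
  have h2 : 2 ^ (k + 1) = 2 * 2 ^ k := by rw [pow_succ]; ring
  rw [h2] at hn
  have hc : lv n z (ch n z ((2 ^ k + 1 : ℕ) : ℤ) 0) = 2 ^ k + 1 := by
    rw [lv_ch n z (by rw [Int.natAbs_natCast]; omega) (by simp; omega), Int.natAbs_natCast]
    simp
  refine ⟨ch n z ((2 ^ k + 1 : ℕ) : ℤ) 0, ?_⟩
  unfold ann
  rw [mem_filter, hc, h2]
  exact ⟨mem_univ _, by omega, by omega⟩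

/-- sums over the annulus -/
theorem pg_ann (n : ℕ) [NeZero n] (z : Ev n) (k : ℕ) (hn : 2 * 2 ^ (k + 1) + 2 < n)
    (F : Ev n → ℝ) : ∑ y ∈ ann (lv n z) k, F y =
      ∑ x ∈ ((Icc (-(2 * (2 ^ k : ℕ) : ℤ)) (2 * (2 ^ k : ℕ))) ×ˢ
        (Icc (-(2 * (2 ^ k : ℕ) : ℤ)) (2 * (2 ^ k : ℕ)))).filter
        (fun x : ℤ × ℤ => 2 ^ k < max x.1.natAbs x.2.natAbs), F (ch n z x.1 x.2) := by
  have h2 : 2 ^ (k + 1) = 2 * 2 ^ k := by rw [pow_succ]; ring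
  have e1 : ann (lv n z) k =
      (univ.filter (fun y => lv n z y ≤ 2 ^ (k + 1))).filter (fun y => 2 ^ k < lv n z y) := by
    ext y
    simp only [ann, mem_filter, mem_univ, true_and]
    tauto
  have hr : ((2 ^ (k + 1) : ℕ) : ℤ) = 2 * (2 ^ k : ℕ) := by rw [h2]; push_cast; ring
  rw [e1, sum_filter, lv_sum n z (2 ^ (k + 1)) (by omega), sum_filter, hr]
  refine sum_congr rfl fun x hx => ?_
  rw [mem_product, mem_Icc, mem_Icc] at hx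
  have hx1 : 2 * x.1.natAbs < n := by omega
  have hx2 : 2 * x.2.natAbs < n := by omega
  rw [lv_ch n z hx1 hx2]

theorem loc_poin (n : ℕ) [NeZero n] (z : Ev n) (k : ℕ) (hn : 2 * 2 ^ (k + 1) + 2 < n)
    (h : Ev n → ℝ) :
    ∑ y ∈ univ.filter (fun y => lv n z y ≤ 2 ^ (k + 1)), (h y - kap (lv n z) k h) ^ 2 ≤
      288 * 4 ^ k * EnOn (cn n) (clv (cn n) (lv n z) (k + 1)) h := by
  have h2 : 2 ^ (k + 1) = 2 * 2 ^ k := by rw [pow_succ]; ring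
  have h1 : 1 ≤ 2 ^ k := Nat.one_le_two_pow
  have hr : ((2 ^ (k + 1) : ℕ) : ℤ) = 2 * (2 ^ k : ℕ) := by rw [h2]; push_cast; ring
  have hcard : ((ann (lv n z) k).card : ℝ) =
      ((((Icc (-(2 * (2 ^ k : ℕ) : ℤ)) (2 * (2 ^ k : ℕ))) ×ˢ
        (Icc (-(2 * (2 ^ k : ℕ) : ℤ)) (2 * (2 ^ k : ℕ)))).filter
        (fun x : ℤ × ℤ => 2 ^ k < max x.1.natAbs x.2.natAbs)).card : ℝ) := by
    have := pg_ann n z k hn (fun _ => 1)
    simpa using this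
  have hkap : kap (lv n z) k h =
      (∑ y ∈ ((Icc (-(2 * (2 ^ k : ℕ) : ℤ)) (2 * (2 ^ k : ℕ))) ×ˢ
        (Icc (-(2 * (2 ^ k : ℕ) : ℤ)) (2 * (2 ^ k : ℕ)))).filter
        (fun x : ℤ × ℤ => 2 ^ k < max x.1.natAbs x.2.natAbs), h (ch n z y.1 y.2)) /
      (((Icc (-(2 * (2 ^ k : ℕ) : ℤ)) (2 * (2 ^ k : ℕ))) ×ˢ
        (Icc (-(2 * (2 ^ k : ℕ) : ℤ)) (2 * (2 ^ k : ℕ)))).filter
        (fun x : ℤ × ℤ => 2 ^ k < max x.1.natAbs x.2.natAbs)).card := by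
    unfold kap
    rw [pg_ann n z k hn h, hcard]
  have hE : EnOn (cn n) (clv (cn n) (lv n z) (k + 1)) h =
      ∑ i ∈ Ico (-(2 * (2 ^ k : ℕ) : ℤ)) (2 * (2 ^ k : ℕ)),
        ∑ j ∈ Ico (-(2 * (2 ^ k : ℕ) : ℤ)) (2 * (2 ^ k : ℕ)),
          sq4 (fun i j => h (ch n z i j)) i j := by
    unfold EnOn clv
    rw [cell_sum n z (2 ^ (k + 1)) hn, hr]
    refine sum_congr rfl fun i _ => sum_congr rfl fun j _ => ?_
    exact q_cc n z h i j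
  have hmain := (box_annulus (fun i j => h (ch n z i j)) (2 ^ k) h1).2
  rw [lv_sum n z (2 ^ (k + 1)) (by omega), hr, hE, hkap]
  have h4 : ((2 ^ k : ℕ) : ℝ) ^ 2 = 4 ^ k := by
    push_cast
    rw [← pow_mul, mul_comm, pow_mul]
    norm_num
  rw [h4] at hmain
  exact hmain

theorem loc_count (n : ℕ) [NeZero n] (z : Ev n) (k : ℕ) (hn : 2 * 2 ^ k + 2 < n) :
    ((clv (cn n) (lv n z) k).card : ℝ) ≤ 4 * 4 ^ k := by
  have e : ((clv (cn n) (lv n z) k).card : ℝ) = ∑ v ∈ clv (cn n) (lv n z) k, (1 : ℝ) := by simp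
  rw [e]
  unfold clv
  rw [cell_sum n z (2 ^ k) hn]
  have h4 : (4 : ℝ) ^ k = 2 ^ k * 2 ^ k := by
    rw [← mul_pow]; norm_num
  have hc : ((Ico (-((2 ^ k : ℕ) : ℤ)) ((2 ^ k : ℕ) : ℤ)).card : ℝ) = 2 * 2 ^ k := by
    rw [Int.card_Ico]
    have : ((2 ^ k : ℕ) : ℤ) - -((2 ^ k : ℕ) : ℤ) = ((2 * 2 ^ k : ℕ) : ℤ) := by push_cast; ring
    rw [this, Int.toNat_natCast]
    push_cast
    ring
  rw [sum_const, sum_const, nsmul_eq_mul, nsmul_eq_mul, mul_one, hc, h4]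
  apply le_of_eq
  ring

end QG
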