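import Mathlib
import Pool.Agent.Lib_helper69.QG.Defs
import Pool.Agent.Lib_helper69.QG.Field
import Pool.Agent.Lib_helper69.QG.Geo
import Pool.Agent.Lib_helper69.QG.W.pa
import Pool.Agent.Lib_helper69.QG.W.pd

set_option autoImplicit false

namespace QG

open Finset

theorem ph_zero (n : ℕ) (hn : 0 < n) {a b : ℤ} (ha : |a| < 2 * n) (hb : |b| < n)
    (h1 : (2 * n : ℤ) ∣ a + b) (h2 : (2 * n : ℤ) ∣ a - b) : a = 0 ∧ b = 0 := by
  have h3 : (2 * n : ℤ) ∣ 2 * b := by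
    have := dvd_sub h1 h2
    have e : a + b - (a - b) = 2 * b := by ring
    rwa [e] at this
  have h4 : (n : ℤ) ∣ b := by
    obtain ⟨c, hc⟩ := h3
    exact ⟨c, by linarith⟩
  have hb0 : b = 0 := Int.eq_zero_of_abs_lt_dvd h4 hb
  rw [hb0, add_zero] at h1
  exact ⟨Int.eq_zero_of_abs_lt_dvd h1 ha, hb0⟩

/-- the box -/
noncomputable def phBox (n : ℕ) : Finset (ℤ × ℤ) :=
  (Ico (0 : ℤ) (0 + ((2 * n : ℕ) : ℤ))) ×ˢ (Ico (0 : ℤ) (0 + (n : ℤ)))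

theorem ph_mem (n : ℕ) (x : ℤ × ℤ) : x ∈ phBox n ↔
    (0 ≤ x.1 ∧ x.1 < 2 * n) ∧ 0 ≤ x.2 ∧ x.2 < n := by
  rw [phBox, Finset.mem_product, Finset.mem_Ico, Finset.mem_Ico]
  push_cast
  rw [zero_add, zero_add]

theorem ph_inj (n : ℕ) (hn : 0 < n) (z : Ev n) {x x' : ℤ × ℤ} (hx : x ∈ phBox n)
    (hx' : x' ∈ phBox n) (h1 : (2 * n : ℤ) ∣ (x.1 - x'.1) + (x.2 - x'.2))
    (h2 : (2 * n : ℤ) ∣ (x.1 - x'.1) - (x.2 - x'.2)) : x = x' := by
  rw [ph_mem] at hx hx'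
  have h3 := ph_zero n hn (a := x.1 - x'.1) (b := x.2 - x'.2)
    (abs_lt.mpr ⟨by linarith, by linarith⟩) (abs_lt.mpr ⟨by linarith, by linarith⟩) h1 h2
  exact Prod.ext (by linarith [h3.1]) (by linarith [h3.2])

theorem ph_injOn (n : ℕ) (hn : 0 < n) (z : Ev n) :
    Set.InjOn (fun x : ℤ × ℤ => ch n z x.1 x.2) (phBox n : Set (ℤ × ℤ)) := by
  intro x hx x' hx' h
  have h1 := (ch_eq_iff n z x.1 x.2 x'.1 x'.2).mp h
  exact ph_inj n hn z hx hx' h1.1 h1.2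

theorem ph_injOn' (n : ℕ) (hn : 0 < n) (z : Ev n) :
    Set.InjOn (fun x : ℤ × ℤ => cc n z x.1 x.2) (phBox n : Set (ℤ × ℤ)) := by
  intro x hx x' hx' h
  have h1 := (cc_eq_iff n z x.1 x.2 x'.1 x'.2).mp h
  exact ph_inj n hn z hx hx' h1.1 h1.2

theorem ph_image (n : ℕ) [NeZero n] (z : Ev n) :
    (phBox n).image (fun x : ℤ × ℤ => ch n z x.1 x.2) = univ := by
  have hn : 0 < n := Nat.pos_of_ne_zero (NeZero.ne n)
  have hnz : (n : ℤ) ≠ 0 := by exact_mod_cast hn.ne'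
  have hn0 : (0 : ℤ) < n := by exact_mod_cast hn
  rw [Finset.eq_univ_iff_forall]
  intro y
  obtain ⟨i, j, hij, _⟩ := ch_surj n z y
  rw [Finset.mem_image]
  refine ⟨((i - (j / n) * n) % (2 * n), j % n), ?_, ?_⟩
  · rw [ph_mem]
    exact ⟨⟨Int.emod_nonneg _ (by omega), Int.emod_lt_of_pos _ (by omega)⟩,
      Int.emod_nonneg _ hnz, Int.emod_lt_of_pos _ hn0⟩
  · rw [← hij]
    symm
    rw [ch_eq_iff]
    have e1 : j - j % n = (j / n) * n := by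
      have := Int.emod_add_mul_ediv j n
      linarith
    have e2 : i - (i - (j / n) * n) % (2 * n) =
        (j / n) * n + (2 * n) * ((i - (j / n) * n) / (2 * n)) := by
      have := Int.emod_add_mul_ediv (i - (j / n) * n) (2 * n)
      linarith
    rw [e1, e2]
    constructor
    · exact ⟨j / n + (i - (j / n) * n) / (2 * n), by ring⟩
    · exact ⟨(i - (j / n) * n) / (2 * n), by ring⟩

theorem ph_sum (n : ℕ) [NeZero n] (z : Ev n) (F : Ev n → ℝ) : ∑ y, F y =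
    ∑ i ∈ Ico (0 : ℤ) (0 + ((2 * n : ℕ) : ℤ)), ∑ j ∈ Ico (0 : ℤ) (0 + (n : ℤ)),
      F (ch n z i j) := by
  have hn : 0 < n := Nat.pos_of_ne_zero (NeZero.ne n)
  rw [← ph_image n z, Finset.sum_image (ph_injOn n hn z), phBox, Finset.sum_product]

theorem ph_q_nonneg (t : Fin 4 → ℝ) : 0 ≤ q t :=
  Finset.sum_nonneg fun _ _ => Finset.sum_nonneg fun _ _ => sq_nonneg _

/-- Poincare inequality on the torus -/
theorem torus_poincare (n : ℕ) [NeZero n] (hn : 2 ≤ n) (h : Ev n → ℝ) :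
    ∑ x : Ev n, ∑ y : Ev n, (h x - h y) ^ 2 ≤ 20 * (n : ℝ) ^ 4 * En (cn n) h := by
  have hn0 : 0 < n := by omega
  obtain ⟨z⟩ : Nonempty (Ev n) := ⟨dg n 0⟩
  have h1 := box_poincare (fun i j => h (ch n z i j)) 0 0 (2 * n) n (by omega) hn
  have h2 : ∑ x : Ev n, ∑ y : Ev n, (h x - h y) ^ 2 =
      ∑ i ∈ Ico (0 : ℤ) (0 + ((2 * n : ℕ) : ℤ)), ∑ j ∈ Ico (0 : ℤ) (0 + (n : ℤ)),
      ∑ i' ∈ Ico (0 : ℤ) (0 + ((2 * n : ℕ) : ℤ)), ∑ j' ∈ Ico (0 : ℤ) (0 + (n : ℤ)),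
        (h (ch n z i j) - h (ch n z i' j')) ^ 2 := by
    rw [ph_sum n z (fun x => ∑ y : Ev n, (h x - h y) ^ 2)]
    apply Finset.sum_congr rfl
    intro i _
    apply Finset.sum_congr rfl
    intro j _
    exact ph_sum n z (fun y => (h (ch n z i j) - h y) ^ 2)
  rw [h2]
  refine h1.trans ?_
  have h3 : ∑ i ∈ Ico (0 : ℤ) (0 + ((2 * n : ℕ) : ℤ) - 1), ∑ j ∈ Ico (0 : ℤ) (0 + (n : ℤ) - 1),
      sq4 (fun i j => h (ch n z i j)) i j ≤ En (cn n) h := by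
    have h4 : ∑ x ∈ (Ico (0 : ℤ) (0 + ((2 * n : ℕ) : ℤ) - 1)) ×ˢ (Ico (0 : ℤ) (0 + (n : ℤ) - 1)),
        q (loc (cn n) h (cc n z x.1 x.2)) ≤ En (cn n) h := by
      have hsub : (Ico (0 : ℤ) (0 + ((2 * n : ℕ) : ℤ) - 1)) ×ˢ (Ico (0 : ℤ) (0 + (n : ℤ) - 1)) ⊆
          phBox n := by
        apply Finset.product_subset_product
        · exact Finset.Ico_subset_Ico le_rfl (by linarith)
        · exact Finset.Ico_subset_Ico le_rfl (by linarith)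
      have hinj : Set.InjOn (fun x : ℤ × ℤ => cc n z x.1 x.2)
          ((Ico (0 : ℤ) (0 + ((2 * n : ℕ) : ℤ) - 1)) ×ˢ (Ico (0 : ℤ) (0 + (n : ℤ) - 1)) :
            Finset (ℤ × ℤ)) :=
        (ph_injOn' n hn0 z).mono (Finset.coe_subset.mpr hsub)
      rw [← Finset.sum_image (g := fun x : ℤ × ℤ => cc n z x.1 x.2)
        (f := fun v => q (loc (cn n) h v)) hinj]
      exact Finset.sum_le_sum_of_subset_of_nonneg (Finset.subset_univ _)
        (fun v _ _ => ph_q_nonneg _)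
    rw [Finset.sum_product] at h4
    refine le_trans (le_of_eq ?_) h4
    apply Finset.sum_congr rfl
    intro i _
    apply Finset.sum_congr rfl
    intro j _
    exact (q_cc n z h i j).symm
  have h5 : (0 : ℝ) ≤ 2 * ((2 * n : ℕ) : ℝ) * n * (((2 * n : ℕ) : ℝ) ^ 2 + (n : ℝ) ^ 2) := by
    positivity
  refine (mul_le_mul_of_nonneg_left h3 h5).trans (le_of_eq ?_)
  push_cast
  ring

theorem card_Ev (n : ℕ) [NeZero n] : Fintype.card (Ev n) = 2 * n ^ 2 := by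
  have hn : 0 < n := Nat.pos_of_ne_zero (NeZero.ne n)
  rw [← Finset.card_univ, ← ph_image n (dg n 0), Finset.card_image_of_injOn (ph_injOn n hn _),
    phBox, Finset.card_product, Int.card_Ico, Int.card_Ico]
  simp only [zero_add, sub_zero, Int.toNat_natCast]
  ring

end QG
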