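import Mathlib
import Pool.Agent.Lib_helper69.QG.Defs
import Pool.Agent.Lib_helper69.QG.Field
import Pool.Agent.Lib_helper69.QG.Geo
import Pool.Agent.Lib_helper69.QG.W.pb
import Pool.Agent.Lib_helper69.QG.W.pd
import Pool.Agent.Lib_helper69.QG.W.pe
import Pool.Agent.Lib_helper69.QG.W.ph

set_option autoImplicit false

namespace QG

open Finset

/-- the average over all even sites -/
noncomputable def avg (n : ℕ) [NeZero n] (h : Ev n → ℝ) : ℝ := (∑ y, h y) / Fintype.card (Ev n)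

theorem pi_q_nonneg (t : Fin 4 → ℝ) : 0 ≤ q t :=
  Finset.sum_nonneg fun _ _ => Finset.sum_nonneg fun _ _ => sq_nonneg _

theorem pi_var {ι : Type} [Fintype ι] (f : ι → ℝ) (N a : ℝ) (hN : N = Fintype.card ι)
    (ha : N * a = ∑ x, f x) :
    ∑ x, ∑ y, (f x - f y) ^ 2 = 2 * N * ∑ x, (f x - a) ^ 2 := by
  have h1 : ∀ x, ∑ y, (f x - f y) ^ 2 = N * f x ^ 2 - 2 * f x * (N * a) + ∑ y, f y ^ 2 := by
    intro x
    have : ∀ y, (f x - f y) ^ 2 = f x ^ 2 - 2 * f x * f y + f y ^ 2 := fun y => by ring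
    simp only [this, Finset.sum_add_distrib, Finset.sum_sub_distrib, ← Finset.mul_sum,
      Finset.sum_const, Finset.card_univ, nsmul_eq_mul]
    rw [← ha, ← hN]
  have h2 : ∀ x, (f x - a) ^ 2 = f x ^ 2 - 2 * a * f x + a ^ 2 := fun x => by ring
  simp only [h1, h2, Finset.sum_add_distrib, Finset.sum_sub_distrib, ← Finset.mul_sum,
    Finset.sum_const, Finset.card_univ, nsmul_eq_mul, ← Finset.sum_mul]
  rw [← ha, ← hN]
  ring

/-- sums over a small box of sites of the chart -/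
theorem pi_box (n : ℕ) [NeZero n] (z : Ev n) (a b : ℤ) (M L : ℤ) (hM : M ≤ n) (hL : L ≤ n)
    (F : Ev n → ℝ) (hF : ∀ y, 0 ≤ F y) :
    ∑ i ∈ Ico a (a + M), ∑ j ∈ Ico b (b + L), F (ch n z i j) ≤ ∑ y, F y := by
  have hinj : Set.InjOn (fun x : ℤ × ℤ => ch n z x.1 x.2)
      ((Ico a (a + M)) ×ˢ (Ico b (b + L)) : Finset (ℤ × ℤ)) := by
    intro x hx x' hx' hxx
    rw [Finset.mem_coe, Finset.mem_product, Finset.mem_Ico, Finset.mem_Ico] at hx hx'
    have h1 := (ch_inj n z (i := x.1) (j := x.2) (i' := x'.1) (j' := x'.2)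
      (abs_lt.mpr ⟨by linarith, by linarith⟩) (abs_lt.mpr ⟨by linarith, by linarith⟩)).1 hxx
    exact Prod.ext h1.1 h1.2
  rw [← Finset.sum_product', ← Finset.sum_image (g := fun x : ℤ × ℤ => ch n z x.1 x.2)
    (f := F) hinj]
  exact Finset.sum_le_sum_of_subset_of_nonneg (Finset.subset_univ _) (fun v _ _ => hF v)

theorem Phi_top (n : ℕ) [NeZero n] (hn : 2 ≤ n) (z : Ev n) (k : ℕ) (hk : 6 * 2 ^ k < n)
    (h : Ev n → ℝ) :
    (Phi (fun i j => h (ch n z i j)) k - avg n h) ^ 2 ≤ 5 * (n : ℝ) ^ 2 / 4 ^ k * En (cn n) h := by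
  have hn0 : (0 : ℝ) < n := by exact_mod_cast (by omega : 0 < n)
  have hcard : ((Fintype.card (Ev n) : ℕ) : ℝ) = 2 * (n : ℝ) ^ 2 := by
    rw [card_Ev]; push_cast; ring
  obtain ⟨a, ha⟩ : ∃ a, a = avg n h := ⟨_, rfl⟩
  have haN : (2 * (n : ℝ) ^ 2) * a = ∑ y, h y := by
    rw [ha, avg, hcard]
    field_simp
  have hvar := pi_var h (2 * (n : ℝ) ^ 2) a hcard.symm haN
  have htor := torus_poincare n hn h
  have hkZ : (6 : ℤ) * 2 ^ k < n := by exact_mod_cast hk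
  have hpos : (0 : ℤ) < 2 ^ k := by positivity
  have hbox := pi_box n z (2 * 2 ^ k) 0 (2 ^ k) (2 ^ k) (by linarith) (by linarith)
    (fun y => (h y - a) ^ 2) (fun y => sq_nonneg _)
  have e1 : (2 * 2 ^ k + 2 ^ k : ℤ) = 3 * 2 ^ k := by ring
  have e2 : (0 + 2 ^ k : ℤ) = 2 ^ k := by ring
  rw [e1, e2] at hbox
  have hc1 : (Ico (2 * 2 ^ k : ℤ) (3 * 2 ^ k)).card = 2 ^ k := by
    rw [Int.card_Ico]
    have : (3 * 2 ^ k - 2 * 2 ^ k : ℤ) = ((2 ^ k : ℕ) : ℤ) := by push_cast; ring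
    rw [this, Int.toNat_natCast]
  have hc2 : (Ico (0 : ℤ) (2 ^ k)).card = 2 ^ k := by
    rw [Int.card_Ico]
    have : (2 ^ k - 0 : ℤ) = ((2 ^ k : ℕ) : ℤ) := by push_cast; ring
    rw [this, Int.toNat_natCast]
  have h4 : (0 : ℝ) < 4 ^ k := by positivity
  have h22 : (2 : ℝ) ^ k * 2 ^ k = 4 ^ k := by rw [← mul_pow]; norm_num
  -- the difference as an average
  have hdiff : Phi (fun i j => h (ch n z i j)) k - a =
      (∑ x ∈ (Ico (2 * 2 ^ k : ℤ) (3 * 2 ^ k)) ×ˢ (Ico (0 : ℤ) (2 ^ k)),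
        (h (ch n z x.1 x.2) - a)) / 4 ^ k := by
    rw [Finset.sum_sub_distrib, Finset.sum_const, Finset.card_product, hc1, hc2, nsmul_eq_mul,
      Phi, Finset.sum_product]
    push_cast
    rw [h22]
    field_simp
  have hjen : (∑ x ∈ (Ico (2 * 2 ^ k : ℤ) (3 * 2 ^ k)) ×ˢ (Ico (0 : ℤ) (2 ^ k)),
        (h (ch n z x.1 x.2) - a)) ^ 2 ≤ 4 ^ k *
      ∑ x ∈ (Ico (2 * 2 ^ k : ℤ) (3 * 2 ^ k)) ×ˢ (Ico (0 : ℤ) (2 ^ k)),
        (h (ch n z x.1 x.2) - a) ^ 2 := by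
    have := sq_sum_le_card_mul_sum_sq (s := (Ico (2 * 2 ^ k : ℤ) (3 * 2 ^ k)) ×ˢ
      (Ico (0 : ℤ) (2 ^ k))) (f := fun x : ℤ × ℤ => h (ch n z x.1 x.2) - a)
    rw [Finset.card_product, hc1, hc2] at this
    push_cast at this
    rwa [h22] at this
  rw [← Finset.sum_product'] at hbox
  have hE0 : 0 ≤ En (cn n) h := Finset.sum_nonneg fun v _ => pi_q_nonneg _
  have hS : ∑ y, (h y - a) ^ 2 ≤ 5 * (n : ℝ) ^ 2 * En (cn n) h := by
    rw [hvar] at htor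
    have h5 : (4 * (n : ℝ) ^ 2) * ∑ y, (h y - a) ^ 2 ≤
        (4 * (n : ℝ) ^ 2) * (5 * (n : ℝ) ^ 2 * En (cn n) h) := by linarith
    exact le_of_mul_le_mul_left h5 (by positivity)
  rw [← ha, hdiff, div_pow, div_le_iff₀ (by positivity)]
  calc (∑ x ∈ (Ico (2 * 2 ^ k : ℤ) (3 * 2 ^ k)) ×ˢ (Ico (0 : ℤ) (2 ^ k)),
        (h (ch n z x.1 x.2) - a)) ^ 2 ≤ 4 ^ k * (5 * (n : ℝ) ^ 2 * En (cn n) h) :=
        hjen.trans (mul_le_mul_of_nonneg_left (hbox.trans hS) h4.le)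
    _ = 5 * (n : ℝ) ^ 2 / 4 ^ k * En (cn n) h * (4 ^ k) ^ 2 := by
        field_simp

theorem pi_cc_inj (n : ℕ) (z : Ev n) (M L : ℤ) (hM : M ≤ n) (hL : L ≤ n) :
    Set.InjOn (fun x : ℤ × ℤ => cc n z x.1 x.2)
      ((Ico (0 : ℤ) M) ×ˢ (Ico (0 : ℤ) L) : Finset (ℤ × ℤ)) := by
  intro x hx x' hx' hxx
  rw [Finset.mem_coe, Finset.mem_product, Finset.mem_Ico, Finset.mem_Ico] at hx hx'
  have h1 := (ch_inj n z (i := x.1) (j := x.2) (i' := x'.1) (j' := x'.2)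
    (abs_lt.mpr ⟨by linarith, by linarith⟩) (abs_lt.mpr ⟨by linarith, by linarith⟩)).2 hxx
  exact Prod.ext h1.1 h1.2

theorem region_le (n : ℕ) [NeZero n] (z : Ev n) (k : ℕ) (hk : 6 * 2 ^ k < n) (h : Ev n → ℝ) :
    ∑ i ∈ Ico (0 : ℤ) (3 * 2 ^ k - 1), ∑ j ∈ Ico (0 : ℤ) (2 ^ k - 1),
      sq4 (fun i j => h (ch n z i j)) i j ≤
    EnOn (cn n) (clv (cn n) (lv n z) (k + 2)) h := by
  have hkZ : (6 : ℤ) * 2 ^ k < n := by exact_mod_cast hk
  have hpos : (0 : ℤ) < 2 ^ k := by positivity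
  have hinj := pi_cc_inj n z (3 * 2 ^ k - 1) (2 ^ k - 1) (by linarith) (by linarith)
  have h1 : ∑ i ∈ Ico (0 : ℤ) (3 * 2 ^ k - 1), ∑ j ∈ Ico (0 : ℤ) (2 ^ k - 1),
      sq4 (fun i j => h (ch n z i j)) i j =
      ∑ v ∈ ((Ico (0 : ℤ) (3 * 2 ^ k - 1)) ×ˢ (Ico (0 : ℤ) (2 ^ k - 1))).image
        (fun x : ℤ × ℤ => cc n z x.1 x.2), q (loc (cn n) h v) := by
    rw [Finset.sum_image hinj, Finset.sum_product]
    apply Finset.sum_congr rfl
    intro i _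
    apply Finset.sum_congr rfl
    intro j _
    exact (q_cc n z h i j).symm
  rw [h1, EnOn]
  apply Finset.sum_le_sum_of_subset_of_nonneg
  · intro v hv
    rw [Finset.mem_image] at hv
    obtain ⟨x, hx, hxv⟩ := hv
    rw [Finset.mem_product, Finset.mem_Ico, Finset.mem_Ico] at hx
    rw [clv, Finset.mem_filter]
    refine ⟨Finset.mem_univ _, ?_⟩
    have hlev : ∀ i j : ℤ, 0 ≤ i → i < 3 * 2 ^ k → 0 ≤ j → j < 3 * 2 ^ k →
        lv n z (ch n z i j) ≤ 2 ^ (k + 2) := by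
      intro i j hi hi' hj hj'
      have h2 : ((i.natAbs : ℕ) : ℤ) = i := Int.natAbs_of_nonneg hi
      have h3 : ((j.natAbs : ℕ) : ℤ) = j := Int.natAbs_of_nonneg hj
      have h4 : i.natAbs < 3 * 2 ^ k := by zify; rw [abs_of_nonneg hi]; exact hi'
      have h5 : j.natAbs < 3 * 2 ^ k := by zify; rw [abs_of_nonneg hj]; exact hj'
      rw [lv_ch n z (by omega) (by omega)]
      have h6 : 2 ^ (k + 2) = 4 * 2 ^ k := by ring
      rw [h6]
      exact max_le (by omega) (by omega)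
    intro i
    rw [← hxv, cn_cc]
    fin_cases i
    · exact hlev _ _ (by linarith) (by linarith) (by linarith) (by linarith)
    · exact hlev _ _ (by linarith) (by linarith) (by linarith) (by linarith)
    · exact hlev _ _ (by linarith) (by linarith) (by linarith) (by linarith)
    · exact hlev _ _ (by linarith) (by linarith) (by linarith) (by linarith)
  · intro v _ _
    exact pi_q_nonneg _

theorem near_le (n : ℕ) [NeZero n] (hn : 4 ≤ n) (z : Ev n) (h : Ev n → ℝ) :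
    (h z - Phi (fun i j => h (ch n z i j)) 0) ^ 2 ≤ En (cn n) h := by
  have h1 := Phi_zero (fun i j => h (ch n z i j))
  have h2 : ch n z 0 0 = z := by
    apply Subtype.ext
    simp [ch]
  simp only [h2] at h1
  refine h1.trans ?_
  rw [← q_cc n z h 0 0, ← q_cc n z h 1 0]
  have h3 : cc n z 0 0 ≠ cc n z 1 0 := by
    intro h4
    have h5 := (ch_inj n z (i := 0) (j := 0) (i' := 1) (j' := 0)
      (by rw [abs_lt]; constructor <;> omega) (by rw [abs_lt]; constructor <;> omega)).2 h4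
    exact absurd h5.1 (by norm_num)
  rw [← Finset.sum_pair (f := fun v => q (loc (cn n) h v)) h3]
  exact Finset.sum_le_sum_of_subset_of_nonneg (Finset.subset_univ _) (fun v _ _ => pi_q_nonneg _)

end QG
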