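import Mathlib
import Pool.Agent.Lib_helper69.QG.Defs
import Pool.Agent.Lib_helper69.QG.Field
import Pool.Agent.Lib_helper69.QG.Geo
import Pool.Agent.Lib_helper69.QG.W.pb
import Pool.Agent.Lib_helper69.QG.W.pi

set_option autoImplicit false

namespace QG

open Finset

theorem pj_q_nonneg (t : Fin 4 → ℝ) : 0 ≤ q t :=
  Finset.sum_nonneg fun _ _ => Finset.sum_nonneg fun _ _ => sq_nonneg _

theorem pj_center (n : ℕ) [NeZero n] (K : ℕ) (hK : 1 ≤ K) (h1 : 2 ^ (K + 5) ≤ n)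
    (h2 : n < 2 ^ (K + 6)) (z : Ev n) (h : Ev n → ℝ) :
    (h z - avg n h) ^ 2 ≤ 61923 * K * En (cn n) h := by
  have hpow : (1 : ℕ) ≤ 2 ^ K := Nat.one_le_two_pow
  have h1' : 32 * 2 ^ K ≤ n := by
    have : 2 ^ (K + 5) = 32 * 2 ^ K := by rw [pow_add]; ring
    omega
  have h2' : n < 64 * 2 ^ K := by
    have : 2 ^ (K + 6) = 64 * 2 ^ K := by rw [pow_add]; ring
    omega
  have hk : 6 * 2 ^ K < n := by omega
  have hn : 4 ≤ n := by omega
  have hn2 : 2 ≤ n := by omega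
  have hE : 0 ≤ En (cn n) h := Finset.sum_nonneg fun _ _ => pj_q_nonneg _
  have hK' : (1 : ℝ) ≤ K := by exact_mod_cast hK
  set f : ℤ → ℤ → ℝ := fun i j => h (ch n z i j) with hf
  have a1 : (h z - Phi f 0) ^ 2 ≤ En (cn n) h := near_le n hn z h
  have a2 : (Phi f 0 - Phi f K) ^ 2 ≤ 160 * K * En (cn n) h := by
    refine (Phi_diff f (Nat.zero_le K)).trans ?_
    have hsum := (region_le n z K hk h).trans
      (show EnOn (cn n) (clv (cn n) (lv n z) (K + 2)) h ≤ En (cn n) h from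
        Finset.sum_le_sum_of_subset_of_nonneg (Finset.subset_univ _) fun _ _ _ => pj_q_nonneg _)
    have : (160 : ℝ) * ((K : ℝ) - ((0 : ℕ) : ℝ)) = 160 * K := by push_cast; ring
    rw [this]
    exact mul_le_mul_of_nonneg_left hsum (by positivity)
  have a3 : (Phi f K - avg n h) ^ 2 ≤ 20480 * En (cn n) h := by
    refine (Phi_top n hn2 z K hk h).trans ?_
    refine mul_le_mul_of_nonneg_right ?_ hE
    rw [div_le_iff₀ (by positivity)]
    have hn3 : (n : ℝ) ≤ 64 * 2 ^ K := by exact_mod_cast h2'.le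
    have hn4 : (n : ℝ) ^ 2 ≤ (64 * 2 ^ K) ^ 2 := pow_le_pow_left₀ (Nat.cast_nonneg n) hn3 2
    have h4 : (4 : ℝ) ^ K = (2 ^ K) ^ 2 := by
      rw [← pow_mul, mul_comm K 2, pow_mul]; norm_num
    rw [h4]
    nlinarith [hn4]
  have key : (h z - avg n h) ^ 2 ≤ 3 * ((h z - Phi f 0) ^ 2 + (Phi f 0 - Phi f K) ^ 2 +
      (Phi f K - avg n h) ^ 2) := by
    nlinarith [sq_nonneg ((h z - Phi f 0) - (Phi f 0 - Phi f K)),
      sq_nonneg ((h z - Phi f 0) - (Phi f K - avg n h)),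
      sq_nonneg ((Phi f 0 - Phi f K) - (Phi f K - avg n h))]
  have hKE : En (cn n) h ≤ K * En (cn n) h := by nlinarith
  nlinarith

theorem torus_diam (n : ℕ) [NeZero n] (K : ℕ) (hK : 1 ≤ K) (h1 : 2 ^ (K + 5) ≤ n)
    (h2 : n < 2 ^ (K + 6)) (x y : Ev n) (h : Ev n → ℝ) :
    (h x - h y) ^ 2 ≤ 10 ^ 6 * K * En (cn n) h := by
  have hx := pj_center n K hK h1 h2 x h
  have hy := pj_center n K hK h1 h2 y h
  have hE : 0 ≤ En (cn n) h := Finset.sum_nonneg fun _ _ => pj_q_nonneg _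
  have hKE : 0 ≤ (K : ℝ) * En (cn n) h := mul_nonneg (Nat.cast_nonneg K) hE
  nlinarith [sq_nonneg ((h x - avg n h) + (h y - avg n h))]

end QG
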