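import Mathlib
import Pool.Agent.Lib_helper69.QG.Defs
import Pool.Agent.Lib_helper69.QG.Field
import Pool.Agent.Lib_helper69.QG.Geo
import Pool.Agent.Lib_helper69.QG.W.pb
import Pool.Agent.Lib_helper69.QG.W.pd
import Pool.Agent.Lib_helper69.QG.W.pi

set_option autoImplicit false

namespace QG

open Finset

/-- the functional `Phi` as a vector -/
theorem dot_phi (n : ℕ) [NeZero n] (z : Ev n) (k : ℕ) (h : Ev n → ℝ) :
    dot (phi n z k) h = Phi (fun i j => h (ch n z i j)) k := by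
  unfold dot phi Phi
  have h1 : ∀ y : Ev n, (∑ i ∈ Finset.Ico (2 * 2 ^ k : ℤ) (3 * 2 ^ k),
      ∑ j ∈ Finset.Ico (0 : ℤ) (2 ^ k), (if ch n z i j = y then (1 : ℝ) else 0)) / 4 ^ k * h y =
      (∑ i ∈ Finset.Ico (2 * 2 ^ k : ℤ) (3 * 2 ^ k),
        ∑ j ∈ Finset.Ico (0 : ℤ) (2 ^ k), (if ch n z i j = y then h y else 0)) / 4 ^ k := by
    intro y
    rw [div_mul_eq_mul_div, Finset.sum_mul]
    congr 1
    refine Finset.sum_congr rfl fun i _ => ?_
    rw [Finset.sum_mul]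
    refine Finset.sum_congr rfl fun j _ => ?_
    rw [ite_mul, one_mul, zero_mul]
  rw [Finset.sum_congr rfl fun y _ => h1 y, ← Finset.sum_div, Finset.sum_comm]
  congr 1
  refine Finset.sum_congr rfl fun i _ => ?_
  rw [Finset.sum_comm]
  refine Finset.sum_congr rfl fun j _ => ?_
  rw [Finset.sum_ite_eq]
  simp

theorem phi_supp (n : ℕ) [NeZero n] (z : Ev n) (k : ℕ) (hk : 6 * 2 ^ k < n) (y : Ev n)
    (hy : phi n z k y ≠ 0) : 2 ^ (k + 1) ≤ lv n z y ∧ lv n z y ≤ 2 ^ (k + 2) := by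
  have h1 : ∃ i ∈ Finset.Ico (2 * 2 ^ k : ℤ) (3 * 2 ^ k), ∃ j ∈ Finset.Ico (0 : ℤ) (2 ^ k),
      ch n z i j = y := by
    by_contra hcon
    push Not at hcon
    apply hy
    unfold phi Phi
    have h2 : ∑ i ∈ Finset.Ico (2 * 2 ^ k : ℤ) (3 * 2 ^ k), ∑ j ∈ Finset.Ico (0 : ℤ) (2 ^ k),
        (if ch n z i j = y then (1 : ℝ) else 0) = 0 :=
      Finset.sum_eq_zero fun i hi => Finset.sum_eq_zero fun j hj => if_neg (hcon i hi j hj)
    rw [h2, zero_div]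
  obtain ⟨i, hi, j, hj, hij⟩ := h1
  rw [Finset.mem_Ico] at hi hj
  have hz : ((2 : ℤ) ^ k) = ((2 ^ k : ℕ) : ℤ) := by push_cast; rfl
  rw [hz] at hi hj
  have hi2 : 2 * i.natAbs < n := by omega
  have hj2 : 2 * j.natAbs < n := by omega
  have hl := lv_ch n z hi2 hj2
  rw [hij] at hl
  rw [hl]
  have e1 : 2 ^ (k + 1) = 2 * 2 ^ k := by ring
  have e2 : 2 ^ (k + 2) = 4 * 2 ^ k := by ring
  rw [e1, e2]
  omega

end QG
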