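import Mathlib
import Pool.Agent.Lib_helper69.QG.Defs
import Pool.Agent.Lib_helper69.QG.Field
import Pool.Agent.Lib_helper69.QG.Geo
import Pool.Agent.Lib_helper69.QG.W.pb
import Pool.Agent.Lib_helper69.QG.W.pe
import Pool.Agent.Lib_helper69.QG.W.pg
import Pool.Agent.Lib_helper69.QG.W.pi
import Pool.Agent.Lib_helper69.QG.W.pj
import Pool.Agent.Lib_helper69.QG.W.pk

set_option autoImplicit false

namespace QG

open Finset

theorem pz_q (t : Fin 4 → ℝ) : 0 ≤ q t :=
  Finset.sum_nonneg fun _ _ => Finset.sum_nonneg fun _ _ => by positivity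

theorem pz_En {n : ℕ} [NeZero n] (h : Ev n → ℝ) : 0 ≤ En (cn n) h :=
  Finset.sum_nonneg fun _ _ => pz_q _

theorem pz_EnOn {n : ℕ} [NeZero n] (S : Finset (Od n)) (h : Ev n → ℝ) : 0 ≤ EnOn (cn n) S h :=
  Finset.sum_nonneg fun _ _ => pz_q _

theorem pz_local {n : ℕ} [NeZero n] {K : ℕ} (hK : 3 ≤ K) (h1 : 2 ^ (K + 5) ≤ n)
    (h2 : n < 2 ^ (K + 6)) (z : Ev n) (hz : n / 2 ≤ lv n z (dg n (n / 2))) :
    Local (cn n) (dg n (n / 2)) (lv n z) K K (2 * 10 ^ 6) := by
  have hp : 2 ^ (K + 5) = 32 * 2 ^ K := by rw [pow_add]; ring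
  have h8 : 8 ≤ 2 ^ K := by
    calc 8 = 2 ^ 3 := by norm_num
      _ ≤ 2 ^ K := Nat.pow_le_pow_right (by norm_num) hK
  have hk : ∀ k, k ≤ K → 2 ^ k ≤ 2 ^ K := fun k hk => Nat.pow_le_pow_right (by norm_num) hk
  refine ⟨by norm_num, fun v i j => lv_adj n z v i j, by omega, fun k hkK => ?_,
    fun k hkK h => ?_, fun k hkK => ?_, cn_mult n, fun x y h => ?_, ?_⟩
  · apply loc_nonem
    have h3 := hk (k + 1) hkK
    omega
  · have h3 := hk (k + 1) hkK
    refine (loc_poin n z k (by omega) h).trans ?_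
    have h4 := pz_EnOn (clv (cn n) (lv n z) (k + 1)) h
    have h5 : (0 : ℝ) ≤ 4 ^ k := by positivity
    have h6 := mul_nonneg h5 h4
    nlinarith
  · have h3 := hk k hkK
    refine (loc_count n z k (by omega)).trans ?_
    have h5 : (0 : ℝ) ≤ 4 ^ k := by positivity
    nlinarith
  · refine (torus_diam n K (by omega) h1 h2 x y h).trans ?_
    have h4 := pz_En h
    have h5 : (0 : ℝ) ≤ K := Nat.cast_nonneg K
    have h6 := mul_nonneg h5 h4
    nlinarith
  · have h3 : (4 : ℝ) ≤ Real.exp 2 := by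
      have h4 := Real.add_one_le_exp (1 : ℝ)
      have h5 : Real.exp 2 = Real.exp 1 * Real.exp 1 := by rw [← Real.exp_add]; norm_num
      rw [h5]
      nlinarith
    calc (4 : ℝ) ^ K ≤ Real.exp 2 ^ K := pow_le_pow_left₀ (by norm_num) h3 K
      _ = Real.exp (K * 2) := (Real.exp_nat_mul 2 K).symm
      _ ≤ Real.exp (2 * 10 ^ 6 * K) := by
        apply Real.exp_le_exp.2
        have h5 : (0 : ℝ) ≤ K := Nat.cast_nonneg K
        nlinarith

theorem pz_top {n : ℕ} [NeZero n] {K : ℕ} (hK : 3 ≤ K) (h1 : 2 ^ (K + 5) ≤ n)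
    (h2 : n < 2 ^ (K + 6)) (x y : Ev n) (h : Ev n → ℝ) :
    (dot (phi n x (K - 2)) h - dot (phi n y (K - 2)) h) ^ 2 ≤ 2 * 10 ^ 6 * En (cn n) h := by
  have hp : 2 ^ (K + 5) = 32 * 2 ^ K := by rw [pow_add]; ring
  have h8 : 8 ≤ 2 ^ K := by
    calc 8 = 2 ^ 3 := by norm_num
      _ ≤ 2 ^ K := Nat.pow_le_pow_right (by norm_num) hK
  have hk : 2 ^ (K - 2) ≤ 2 ^ K := Nat.pow_le_pow_right (by norm_num) (by omega)
  rw [dot_phi, dot_phi]
  have e1 := Phi_top n (by omega) x (K - 2) (by omega) h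
  have e2 := Phi_top n (by omega) y (K - 2) (by omega) h
  have hE := pz_En h
  have h4 : (0 : ℝ) < 4 ^ (K - 2) := by positivity
  have hn : (n : ℝ) ^ 2 / 4 ^ (K - 2) ≤ 65536 := by
    rw [div_le_iff₀ h4]
    have h5 : (n : ℝ) ≤ 2 ^ (K + 6) := by exact_mod_cast h2.le
    have h6 : (n : ℝ) ^ 2 ≤ (2 ^ (K + 6)) ^ 2 := pow_le_pow_left₀ (Nat.cast_nonneg n) h5 2
    refine h6.trans (le_of_eq ?_)
    obtain ⟨j, rfl⟩ : ∃ j, K = j + 2 := ⟨K - 2, by omega⟩
    rw [Nat.add_sub_cancel, ← pow_mul, show (j + 2 + 6) * 2 = 2 * j + 16 by ring, pow_add, pow_mul]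
    norm_num
    ring
  have h5 : 5 * (n : ℝ) ^ 2 / 4 ^ (K - 2) * En (cn n) h ≤ 327680 * En (cn n) h := by
    apply mul_le_mul_of_nonneg_right _ hE
    rw [mul_div_assoc]
    linarith
  set A := Phi (fun i j => h (ch n x i j)) (K - 2)
  set B := Phi (fun i j => h (ch n y i j)) (K - 2)
  set a := avg n h
  nlinarith [sq_nonneg ((A - a) + (B - a))]

/-- the geometry of the torus -/
theorem geo_torus : ∃ Cg : ℝ, 1 ≤ Cg ∧ ∀ (n : ℕ) [NeZero n] (K : ℕ), 3 ≤ K → 2 ^ (K + 5) ≤ n →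
    n < 2 ^ (K + 6) → ∃ R : ℝ, Geo (cn n) (dg n (n / 2)) R K Cg ![dg n 0, dg n n]
      ![lv n (dg n 0), lv n (dg n n)] ![phi n (dg n 0), phi n (dg n n)] := by
  refine ⟨2 * 10 ^ 6, by norm_num, fun n _ K hK h1 h2 => ?_⟩
  have hp : 2 ^ (K + 5) = 32 * 2 ^ K := by rw [pow_add]; ring
  have h8 : 8 ≤ 2 ^ K := by
    calc 8 = 2 ^ 3 := by norm_num
      _ ≤ 2 ^ K := Nat.pow_le_pow_right (by norm_num) hK
  have hk : ∀ k, k ≤ K → 2 ^ k ≤ 2 ^ K := fun k hk => Nat.pow_le_pow_right (by norm_num) hk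
  obtain ⟨d1, d2, d3⟩ := lv_dg n
  have hn2 : 2 ≤ n := by omega
  refine ⟨Fintype.card (Ev n) * (10 ^ 6 * K), ⟨?_, ?_⟩, ?_, ?_, ?_, ?_, ?_, ?_, ?_⟩
  · exact fun v => cn_inj n hn2 v
  · intro h h0
    have h3 : ∀ y ∈ (univ : Finset (Ev n)), h y ^ 2 ≤ 10 ^ 6 * K * En (cn n) h := by
      intro y _
      have := torus_diam n K (by omega) h1 h2 y (dg n (n / 2)) h
      rwa [h0, sub_zero] at this
    refine (Finset.sum_le_card_nsmul _ _ _ h3).trans (le_of_eq ?_)
    rw [nsmul_eq_mul, Finset.card_univ]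
    ring
  · intro s
    fin_cases s
    · exact pz_local hK h1 h2 _ (by rw [d2])
    · exact pz_local hK h1 h2 _ (by rw [d3]; omega)
  · intro s
    fin_cases s
    · exact (lv_tri n (dg n 0) (dg n 0) (dg n 0)).2.2
    · exact (lv_tri n (dg n n) (dg n n) (dg n n)).2.2
  · intro s s' y hne hle
    have e1 := lv_tri n (dg n 0) y (dg n n)
    have e2 := lv_tri n y (dg n n) y
    rw [d1] at e1
    have e3 : n ≤ lv n (dg n 0) y + lv n (dg n n) y := by
      have := e1.1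
      rw [e2.2.1] at this
      exact this
    fin_cases s <;> fin_cases s'
    · exact absurd rfl hne
    · change lv n (dg n 0) y ≤ 2 ^ K at hle
      change 2 ^ K < lv n (dg n n) y
      omega
    · change lv n (dg n n) y ≤ 2 ^ K at hle
      change 2 ^ K < lv n (dg n 0) y
      omega
    · exact absurd rfl hne
  · have key : ∀ (z : Ev n) (h : Ev n → ℝ), (h z - dot (phi n z 0) h) ^ 2 ≤
        2 * 10 ^ 6 * En (cn n) h := by
      intro z h
      rw [dot_phi]
      refine (near_le n (by omega) z h).trans ?_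
      have := pz_En h
      linarith
    intro s h
    fin_cases s
    · exact key _ h
    · exact key _ h
  · have key : ∀ (z : Ev n) (k k' : ℕ), k ≤ k' → k' + 2 ≤ K → ∀ h : Ev n → ℝ,
        (dot (phi n z k) h - dot (phi n z k') h) ^ 2 ≤
          2 * 10 ^ 6 * ((k' : ℝ) - k) * EnOn (cn n) (clv (cn n) (lv n z) (k' + 2)) h := by
      intro z k k' hkk hk' h
      rw [dot_phi, dot_phi]
      refine (Phi_diff (fun i j => h (ch n z i j)) hkk).trans ?_
      have h3 := hk k' (by omega)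
      have h4 := region_le n z k' (by omega) h
      have h5 : (0 : ℝ) ≤ (k' : ℝ) - k := by
        have : (k : ℝ) ≤ k' := by exact_mod_cast hkk
        linarith
      have h6 := pz_EnOn (clv (cn n) (lv n z) (k' + 2)) h
      calc _ ≤ 160 * ((k' : ℝ) - k) * EnOn (cn n) (clv (cn n) (lv n z) (k' + 2)) h :=
            mul_le_mul_of_nonneg_left h4 (by linarith)
        _ ≤ _ := by
            apply mul_le_mul_of_nonneg_right _ h6
            nlinarith
    intro s
    fin_cases s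
    · exact key _
    · exact key _
  · intro h
    exact pz_top hK h1 h2 _ _ h
  · have key : ∀ (z : Ev n) (k : ℕ) (y : Ev n), k + 2 ≤ K → phi n z k y ≠ 0 →
        2 ^ (k + 1) ≤ lv n z y ∧ lv n z y ≤ 2 ^ (k + 2) := by
      intro z k y hkK hy
      have h3 := hk k (by omega)
      exact phi_supp n z k (by omega) y hy
    intro s
    fin_cases s
    · exact key _
    · exact key _

end QG
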