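import Mathlib
import Pool.Agent.Lib_helper69.QG.Defs
import Pool.Agent.Lib_helper69.QG.Field
import Pool.Agent.Lib_helper69.QG.Geo
import Pool.Agent.Lib_helper69.QG.TorusDefs
import Pool.Agent.Lib_helper69.QG.W.fa
import Pool.Agent.Lib_helper69.QG.W.fd
import Pool.Agent.Lib_helper69.QG.W.fe
import Pool.Agent.Lib_helper69.QG.W.cz
import Pool.Agent.Lib_helper69.QG.W.pe
import Pool.Agent.Lib_helper69.QG.W.pz
import Pool.Agent.Lib_helper69.QG.W.ra
import Pool.Agent.Lib_helper69.QG.W.rb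

set_option autoImplicit false

namespace QG

open MeasureTheory

theorem rc_wt_meas {A B : Type} [Fintype A] [DecidableEq A] [Fintype B] {w : (Fin 4 → ℝ) → ℝ}
    {G : Fin 4 → (Fin 4 → ℝ) → ℝ} {C : ℝ} (hw : Cell w G C) (c : B → Fin 4 → A) (l : A → ℝ) :
    Measurable (fun a : A → ℝ => wt w c l a) := by
  unfold wt
  refine Measurable.mul ?_ ?_
  · refine Finset.measurable_prod _ fun v _ => ?_
    refine hw.cont.measurable.comp ?_
    refine measurable_pi_lambda _ fun i => ?_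
    exact measurable_pi_apply (c v i)
  · refine Real.measurable_exp.comp ?_
    unfold dot
    refine Finset.measurable_sum _ fun y _ => ?_
    exact (measurable_pi_apply y).const_mul _

theorem rc_wt_shift {A B : Type} [Fintype A] [DecidableEq A] [Fintype B] {w : (Fin 4 → ℝ) → ℝ}
    {G : Fin 4 → (Fin 4 → ℝ) → ℝ} {C : ℝ} (hw : Cell w G C) (c : B → Fin 4 → A) (a : A → ℝ)
    (r : ℝ) : wt w c 0 (fun y => a y + r) = wt w c 0 a := by
  unfold wt
  have h1 : ∀ v, w (loc c (fun y => a y + r) v) = w (loc c a v) := fun v =>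
    hw.shift (loc c a v) r
  simp only [h1]
  have h2 : ∀ b : A → ℝ, dot (0 : A → ℝ) b = 0 := by
    intro b
    unfold dot
    simp
  rw [h2, h2]

theorem rc_en_meas (n : ℕ) [NeZero n] :
    Measurable (fun φ : Tor n → ℝ => ENNReal.ofReal (Real.exp (-enT n φ))) := by
  refine ENNReal.measurable_ofReal.comp (Real.measurable_exp.comp ?_)
  refine Measurable.neg ?_
  unfold enT
  refine Finset.measurable_sum _ fun v _ => ?_
  refine Measurable.add ?_ ?_
  · fun_prop
  · fun_prop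

theorem rc_net (n : ℕ) [NeZero n] (hn : 256 ≤ n) : ∃ R : ℝ, Net (cn n) (dg n (n / 2)) R := by
  obtain ⟨Cg, _, h⟩ := geo_torus
  have h1 : 8 ≤ Nat.log 2 n := by
    refine (Nat.le_log_iff_pow_le (by norm_num) (by omega)).2 ?_
    norm_num
    exact hn
  have h2 : 2 ^ Nat.log 2 n ≤ n := Nat.pow_log_le_self 2 (by omega)
  have h3 : n < 2 ^ (Nat.log 2 n + 1) := Nat.lt_pow_succ_log_self (by norm_num) n
  obtain ⟨R, hR⟩ := h n (Nat.log 2 n - 5) (by omega)
    (by rw [Nat.sub_add_cancel (by omega)]; exact h2)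
    (by
      have h4 : Nat.log 2 n - 5 + 6 = Nat.log 2 n + 1 := by omega
      rw [h4]; exact h3)
  exact ⟨R, hR.net⟩

/-- integrals of functions of the far height -/
theorem rc_key (n : ℕ) [NeZero n] {C : ℝ} (hw : Cell w4 G4 C) (F : ℝ → ENNReal)
    (hF : Measurable F) :
    ∫⁻ φ, F (far n φ) * ENNReal.ofReal (Real.exp (-enT n φ)) ∂bsT n =
      ∫⁻ a, F (a (dg n n) - a (dg n 0)) * ENNReal.ofReal (wt w4 (cn n) 0 a)
        ∂bs (dg n (n / 2)) := by
  have h1 := odd_integral n (H := fun a : Ev n → ℝ => F (a (dg n n)))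
    (hF.comp (measurable_pi_apply _))
  have h2 : ∫⁻ φ, F (far n φ) * ENNReal.ofReal (Real.exp (-enT n φ)) ∂bsT n
      = ∫⁻ a, F (a (dg n n)) * ENNReal.ofReal (wt w4 (cn n) 0 a) ∂bs (dg n 0) := h1
  have h3 : ∫⁻ a, F (a (dg n n)) * ENNReal.ofReal (wt w4 (cn n) 0 a) ∂bs (dg n 0)
      = ∫⁻ a, F (a (dg n n) - a (dg n 0)) * ENNReal.ofReal (wt w4 (cn n) 0 a) ∂bs (dg n 0) := by
    refine lintegral_congr_ae ?_
    filter_upwards [bs_p (p := dg n 0)] with a ha
    rw [ha, sub_zero]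
  rw [h2, h3]
  refine pin_change (dg n 0) (dg n (n / 2))
    (H := fun a => F (a (dg n n) - a (dg n 0)) * ENNReal.ofReal (wt w4 (cn n) 0 a)) ?_ ?_
  · refine Measurable.mul ?_ ?_
    · exact hF.comp ((measurable_pi_apply _).sub (measurable_pi_apply _))
    · exact ENNReal.measurable_ofReal.comp (rc_wt_meas hw (cn n) 0)
  · intro a r
    simp only [rc_wt_shift hw, add_sub_add_right_eq_sub]

/-- integrals with respect to `mu` -/
theorem rc_mu {A B : Type} [Fintype A] [DecidableEq A] [Fintype B] {w : (Fin 4 → ℝ) → ℝ}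
    {G : Fin 4 → (Fin 4 → ℝ) → ℝ} {C : ℝ} (hw : Cell w G C) {c : B → Fin 4 → A} {p : A} {R : ℝ}
    (hN : Net c p R) (F : (A → ℝ) → ENNReal) (hF : Measurable F) :
    ∫⁻ a, F a * ENNReal.ofReal (wt w c 0 a) ∂bs p =
      ENNReal.ofReal (Zt w c p 0) * ∫⁻ a, F a ∂mu w c p 0 := by
  have hZ := Zt_pos hw hN 0
  have hm : Measurable (fun a : A → ℝ => ENNReal.ofReal (wt w c 0 a / Zt w c p 0)) :=
    ENNReal.measurable_ofReal.comp ((rc_wt_meas hw c 0).div_const _)
  unfold mu
  rw [lintegral_withDensity_eq_lintegral_mul _ hm hF, ← lintegral_const_mul _ (hm.mul hF)]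
  refine lintegral_congr fun a => ?_
  show F a * ENNReal.ofReal (wt w c 0 a)
    = ENNReal.ofReal (Zt w c p 0) * (ENNReal.ofReal (wt w c 0 a / Zt w c p 0) * F a)
  rw [← mul_assoc, ← ENNReal.ofReal_mul hZ.le, mul_div_cancel₀ _ hZ.ne', mul_comm]

/-- the law of the height at the far vertex -/
theorem far_law (n : ℕ) [NeZero n] (hn : 256 ≤ n) :
    IsProbabilityMeasure (muT n) ∧ (muT n).map (far n) =
      (mu w4 (cn n) (dg n (n / 2)) 0).map (fun a => a (dg n n) - a (dg n 0)) := by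
  obtain ⟨C, hw⟩ := cell4
  obtain ⟨R, hN⟩ := rc_net n hn
  have hZ := Zt_pos hw hN 0
  have hprob := mu_prob hw hN (0 : Ev n → ℝ)
  have hfar : Measurable (far n) := measurable_pi_apply _
  have hdif : Measurable (fun a : Ev n → ℝ => a (dg n n) - a (dg n 0)) :=
    (measurable_pi_apply _).sub (measurable_pi_apply _)
  -- the normalising constant
  have hone : ∫⁻ φ, ENNReal.ofReal (Real.exp (-enT n φ)) ∂bsT n
      = ENNReal.ofReal (Zt w4 (cn n) (dg n (n / 2)) 0) := by
    have h1 := rc_key n hw (fun _ => 1) measurable_const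
    have h2 := rc_mu hw hN (fun _ => 1) measurable_const
    rw [h2] at h1
    simpa using h1
  have hZ0 : ENNReal.ofReal (Zt w4 (cn n) (dg n (n / 2)) 0) ≠ 0 := by
    rw [Ne, ENNReal.ofReal_eq_zero, not_le]
    exact hZ
  have hZt : ENNReal.ofReal (Zt w4 (cn n) (dg n (n / 2)) 0) ≠ ⊤ := ENNReal.ofReal_ne_top
  have hint : ∀ F : ℝ → ENNReal, Measurable F →
      ∫⁻ φ, F (far n φ) ∂muT n = ∫⁻ a, F (a (dg n n) - a (dg n 0)) ∂mu w4 (cn n) (dg n (n / 2)) 0 := by
    intro F hF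
    have h1 := rc_key n hw F hF
    have h2 := rc_mu hw hN (fun a => F (a (dg n n) - a (dg n 0))) (hF.comp hdif)
    have h4 : ∫⁻ φ, F (far n φ) ∂((bsT n).withDensity fun φ => ENNReal.ofReal (Real.exp (-enT n φ)))
        = ∫⁻ φ, ((fun φ => ENNReal.ofReal (Real.exp (-enT n φ))) * fun φ => F (far n φ)) φ ∂bsT n :=
      lintegral_withDensity_eq_lintegral_mul _ (rc_en_meas n) (hF.comp hfar)
    unfold muT
    rw [lintegral_smul_measure, hone, smul_eq_mul, h4]
    have h3 : ∫⁻ φ, ((fun φ => ENNReal.ofReal (Real.exp (-enT n φ))) * fun φ => F (far n φ)) φ ∂bsT n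
        = ∫⁻ φ, F (far n φ) * ENNReal.ofReal (Real.exp (-enT n φ)) ∂bsT n := by
      refine lintegral_congr fun φ => ?_
      exact mul_comm _ _
    rw [h3, h1, h2, ← mul_assoc, ENNReal.inv_mul_cancel hZ0 hZt, one_mul]
  constructor
  · refine ⟨?_⟩
    have h1 := hint (fun _ => 1) measurable_const
    simpa using h1
  · refine Measure.ext_of_lintegral _ fun F hF => ?_
    rw [lintegral_map hF hfar, lintegral_map hF hdif]
    exact hint F hF

end QG
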