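import Mathlib
import Pool.Agent.Lib_helper69.QG.Defs
import Pool.Agent.Lib_helper69.QG.Field

set_option autoImplicit false

namespace QG

open MeasureTheory

/-- an enumeration of the sites in decreasing order of the level -/
theorem order_exists {A : Type} [Fintype A] [DecidableEq A] (p : A) (lev : A → ℕ) (m : ℕ) :
    ∃ (N : ℕ) (e : Fin N ≃ {y : A // y ≠ p}) (m' : ℕ),
      (∀ i j, i < j → lev (e j) ≤ lev (e i)) ∧ ∀ k : Fin N, m' ≤ (k : ℕ) ↔ lev (e k) < m := by
  classical
  set e0 := (Fintype.equivFin {y : A // y ≠ p}).symm with he0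
  set f : Fin (Fintype.card {y : A // y ≠ p}) → ℕᵒᵈ := fun i => OrderDual.toDual (lev (e0 i)) with hf
  set e := (Tuple.sort f).trans e0 with he
  have hmono : ∀ i j, i ≤ j → lev (e j) ≤ lev (e i) := by
    intro i j hij
    have h1 := Tuple.monotone_sort f hij
    exact OrderDual.toDual_le_toDual.mp h1
  refine ⟨_, e, (Finset.univ.filter (fun k => m ≤ lev (e k))).card,
    fun i j hij => hmono i j hij.le, ?_⟩
  intro k
  constructor
  · intro hk
    by_contra hlt
    push Not at hlt
    have hsub : Finset.Iic k ⊆ Finset.univ.filter (fun k => m ≤ lev (e k)) := by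
      intro j hj
      rw [Finset.mem_Iic] at hj
      rw [Finset.mem_filter]
      exact ⟨Finset.mem_univ _, hlt.trans (hmono j k hj)⟩
    have h1 := Finset.card_le_card hsub
    rw [Fin.card_Iic] at h1
    omega
  · intro hk
    have hsub : Finset.univ.filter (fun k => m ≤ lev (e k)) ⊆ Finset.Iio k := by
      intro j hj
      rw [Finset.mem_filter] at hj
      rw [Finset.mem_Iio]
      by_contra hkj
      push Not at hkj
      have := hmono k j hkj
      omega
    have h1 := Finset.card_le_card hsub
    rwa [Fin.card_Iio] at h1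

end QG
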