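import Mathlib
import Pool.Agent.Lib_helper69.QG.Defs
import Pool.Agent.Lib_helper69.QG.W.sa

set_option autoImplicit false

namespace QG

open MeasureTheory

theorem sb_sum {N : ℕ} (x : Fin N → ℝ) (r : ℝ) :
    ∑ i, (Fin.snoc (α := fun _ => ℝ) x r : Fin (N + 1) → ℝ) i ^ 2 = ∑ i, x i ^ 2 + r ^ 2 := by
  rw [Fin.sum_univ_castSucc]
  simp only [Fin.snoc_castSucc, Fin.snoc_last]

theorem sb_exp {N : ℕ} (c : ℝ) (x : Fin N → ℝ) (r : ℝ) :
    Real.exp (-(c * ∑ i, (Fin.snoc (α := fun _ => ℝ) x r : Fin (N + 1) → ℝ) i ^ 2)) =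
      Real.exp (-(c * ∑ i, x i ^ 2)) * Real.exp (-c * r ^ 2) := by
  rw [sb_sum, ← Real.exp_add]
  congr 1
  ring

theorem sb_cont {N : ℕ} {F : (Fin (N + 1) → ℝ) → ℝ} (hF : Continuous F) (x : Fin N → ℝ) :
    Continuous fun r : ℝ => F (Fin.snoc (α := fun _ => ℝ) x r) :=
  hF.comp (continuous_const.finSnoc continuous_id)

theorem sb_cont' {N : ℕ} {F : (Fin (N + 1) → ℝ) → ℝ} (hF : Continuous F) (r : ℝ) :
    Continuous fun x : Fin N → ℝ => F (Fin.snoc (α := fun _ => ℝ) x r) := by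
  have h : Continuous fun x : Fin N → ℝ => (Fin.snoc (α := fun _ => ℝ) x r : Fin (N + 1) → ℝ) :=
    Continuous.finSnoc (A := fun _ => ℝ) (f := fun x : Fin N → ℝ => x) (g := fun _ => r)
      continuous_id continuous_const
  exact hF.comp h

theorem sb_C {N : ℕ} {F : (Fin (N + 1) → ℝ) → ℝ} {C c : ℝ}
    (h : ∀ x, |F x| ≤ C * Real.exp (-(c * ∑ i, x i ^ 2))) : 0 ≤ C := by
  have h1 := (abs_nonneg _).trans (h 0)
  exact nonneg_of_mul_nonneg_left h1 (Real.exp_pos _)

/-- continuity of the marginal of a dominated continuous function -/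
theorem marg_cont {N : ℕ} {F : (Fin (N + 1) → ℝ) → ℝ} (hF : Continuous F) {C c : ℝ} (hc : 0 < c)
    (h : ∀ x, |F x| ≤ C * Real.exp (-(c * ∑ i, x i ^ 2))) : Continuous (marg F) := by
  unfold marg
  refine continuous_of_dominated (bound := fun r => C * Real.exp (-c * r ^ 2))
    (fun x => (sb_cont hF x).aestronglyMeasurable) (fun x => Filter.Eventually.of_forall fun r => ?_)
    ((integrable_exp_neg_mul_sq hc).const_mul C) (Filter.Eventually.of_forall fun r => sb_cont' hF r)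
  rw [Real.norm_eq_abs]
  refine (h _).trans ?_
  rw [sb_exp]
  refine mul_le_mul_of_nonneg_left ?_ (sb_C h)
  refine mul_le_of_le_one_left (Real.exp_pos _).le ?_
  rw [Real.exp_le_one_iff]
  have : 0 ≤ c * ∑ i, x i ^ 2 := mul_nonneg hc.le (Finset.sum_nonneg fun i _ => sq_nonneg _)
  linarith

/-- domination of the marginal -/
theorem marg_dom {N : ℕ} {F : (Fin (N + 1) → ℝ) → ℝ} (hF : Continuous F) {C c : ℝ} (hc : 0 < c)
    (h : ∀ x, |F x| ≤ C * Real.exp (-(c * ∑ i, x i ^ 2))) :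
    ∃ C' : ℝ, ∀ x, |marg F x| ≤ C' * Real.exp (-(c * ∑ i, x i ^ 2)) := by
  have _ := hF
  refine ⟨C * ∫ r : ℝ, Real.exp (-c * r ^ 2), fun x => ?_⟩
  have h1 : ‖∫ r : ℝ, F (Fin.snoc (α := fun _ => ℝ) x r)‖ ≤
      ∫ r : ℝ, C * Real.exp (-(c * ∑ i, x i ^ 2)) * Real.exp (-c * r ^ 2) := by
    refine norm_integral_le_of_norm_le ((integrable_exp_neg_mul_sq hc).const_mul _)
      (Filter.Eventually.of_forall fun r => ?_)
    rw [Real.norm_eq_abs, mul_assoc, ← sb_exp]
    exact h _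
  rw [integral_const_mul] at h1
  rw [Real.norm_eq_abs] at h1
  unfold marg
  refine h1.trans (le_of_eq ?_)
  ring

theorem marg_pos {N : ℕ} {f : (Fin (N + 1) → ℝ) → ℝ} {D : Fin (N + 1) → (Fin (N + 1) → ℝ) → ℝ}
    (h : Good f D) (x : Fin N → ℝ) : 0 < marg f x ∧
      Integrable (fun r => f (Fin.snoc (α := fun _ => ℝ) x r)) := by
  obtain ⟨C, c, hc, hf, -⟩ := h.dom
  have hint : Integrable (fun r => f (Fin.snoc (α := fun _ => ℝ) x r)) := by
    refine Integrable.mono' ((integrable_exp_neg_mul_sq hc).const_mul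
      (C * Real.exp (-(c * ∑ i, x i ^ 2)))) (sb_cont h.cont x).aestronglyMeasurable
      (Filter.Eventually.of_forall fun r => ?_)
    rw [Real.norm_eq_abs, abs_of_pos (h.pos _), mul_assoc, ← sb_exp]
    exact hf _
  refine ⟨?_, hint⟩
  unfold marg
  rw [integral_pos_iff_support_of_nonneg (fun r => (h.pos _).le) hint]
  have hs : Function.support (fun r => f (Fin.snoc (α := fun _ => ℝ) x r)) = Set.univ := by
    ext r
    simp only [Function.mem_support, Set.mem_univ, iff_true]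
    exact (h.pos _).ne'
  rw [hs]
  simp

end QG
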