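import Mathlib
import Pool.Agent.Lib_helper69.QG.Defs
import Pool.Agent.Lib_helper69.QG.W.sa
import Pool.Agent.Lib_helper69.QG.W.sb

set_option autoImplicit false

namespace QG

open MeasureTheory

theorem sc_snoc_update {N : ℕ} (x : Fin N → ℝ) (k : Fin N) (r s : ℝ) :
    (Fin.snoc (α := fun _ => ℝ) (Function.update x k r) s : Fin (N + 1) → ℝ) =
      Function.update (Fin.snoc (α := fun _ => ℝ) x s) k.castSucc r := by
  funext i
  refine Fin.lastCases ?_ (fun j => ?_) i
  · rw [Fin.snoc_last, Function.update_of_ne (Fin.castSucc_lt_last k).ne', Fin.snoc_last]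
  · rw [Fin.snoc_castSucc]
    by_cases hj : j = k
    · subst hj
      rw [Function.update_self, Function.update_self]
    · rw [Function.update_of_ne hj, Function.update_of_ne
        (fun h => hj (Fin.castSucc_injective _ h)), Fin.snoc_castSucc]

theorem sc_cont_snoc {N : ℕ} (x : Fin N → ℝ) :
    Continuous (fun s : ℝ => (Fin.snoc (α := fun _ => ℝ) x s : Fin (N + 1) → ℝ)) := by
  refine continuous_pi (fun i => ?_)
  refine Fin.lastCases ?_ (fun j => ?_) i
  · simp only [Fin.snoc_last]; exact continuous_id
  · simp only [Fin.snoc_castSucc]; exact continuous_const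

/-- differentiation of the marginal under the integral -/
theorem marg_deriv {N : ℕ} {f : (Fin (N + 1) → ℝ) → ℝ} {D : Fin (N + 1) → (Fin (N + 1) → ℝ) → ℝ}
    (h : Good f D) (k : Fin N) (x : Fin N → ℝ) :
    HasDerivAt (fun r => marg f (Function.update x k r)) (marg (D k.castSucc) x) (x k) := by
  obtain ⟨C, c, hc, hf, hD⟩ := h.dom
  have hC : 0 ≤ C := by
    have h1 := hD 0 0
    have h2 := abs_nonneg (D 0 0)
    have h3 := Real.exp_pos (-(c * ∑ i : Fin (N + 1), (0 : Fin (N + 1) → ℝ) i ^ 2))
    by_contra hcon
    have := mul_neg_of_neg_of_pos (not_le.1 hcon) h3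
    linarith
  have hkey := hasDerivAt_integral_of_dominated_loc_of_deriv_le (μ := (volume : Measure ℝ))
    (F := fun r s => f (Fin.snoc (α := fun _ => ℝ) (Function.update x k r) s))
    (F' := fun r s => D k.castSucc (Fin.snoc (α := fun _ => ℝ) (Function.update x k r) s))
    (x₀ := x k) (s := Set.univ) (bound := fun s => C * Real.exp (-c * s ^ 2)) Filter.univ_mem
    (Filter.Eventually.of_forall (fun r =>
      (h.cont.comp (sc_cont_snoc _)).aestronglyMeasurable)) ?_
    ((h.contD k.castSucc).comp (sc_cont_snoc _)).aestronglyMeasurable ?_ ?_ ?_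
  · have := hkey.2
    simp only [Function.update_eq_self] at this
    exact this
  · rw [Function.update_eq_self]
    exact (marg_pos h x).2
  · refine Filter.Eventually.of_forall (fun s r _ => ?_)
    rw [Real.norm_eq_abs]
    refine (hD k.castSucc _).trans ?_
    refine mul_le_mul_of_nonneg_left (Real.exp_le_exp.2 ?_) hC
    have : s ^ 2 ≤ ∑ i : Fin (N + 1), (Fin.snoc (α := fun _ => ℝ) (Function.update x k r) s :
        Fin (N + 1) → ℝ) i ^ 2 := by
      rw [Fin.sum_univ_castSucc, Fin.snoc_last]
      have : 0 ≤ ∑ i : Fin N, (Fin.snoc (α := fun _ => ℝ) (Function.update x k r) s :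
        Fin (N + 1) → ℝ) i.castSucc ^ 2 := Finset.sum_nonneg (fun i _ => sq_nonneg _)
      linarith
    nlinarith
  · exact (integrable_exp_neg_mul_sq hc).const_mul C
  · refine Filter.Eventually.of_forall (fun s r _ => ?_)
    have e1 := h.deriv k.castSucc (Function.update (Fin.snoc (α := fun _ => ℝ) x s) k.castSucc r)
    simp only [Function.update_idem, Function.update_self] at e1
    have e2 : (fun r => f (Fin.snoc (α := fun _ => ℝ) (Function.update x k r) s)) =
        fun r => f (Function.update (Fin.snoc (α := fun _ => ℝ) x s) k.castSucc r) := by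
      funext r
      rw [sc_snoc_update]
    rw [e2, sc_snoc_update]
    exact e1

end QG
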