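import Mathlib
import Pool.Agent.Lib_helper69.QG.Defs
import Pool.Agent.Lib_helper69.QG.W.sa
import Pool.Agent.Lib_helper69.QG.W.sb

set_option autoImplicit false

namespace QG

open MeasureTheory

/-- Cauchy-Schwarz in quotient form -/
theorem sd_cs {f D : ℝ → ℝ} (hf : ∀ r, 0 < f r) (hfi : Integrable f) (hDc : Continuous D)
    (hQ : Integrable (fun r => D r ^ 2 / f r)) (hpos : 0 < ∫ r, f r) :
    (∫ r, D r) ^ 2 / (∫ r, f r) ≤ ∫ r, D r ^ 2 / f r := by
  have hDi : Integrable D := by
    refine (hfi.add hQ).mono' hDc.aestronglyMeasurable (Filter.Eventually.of_forall fun r => ?_)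
    have h1 := hf r
    simp only [Pi.add_apply, Real.norm_eq_abs]
    have h2 : |D r| * f r ≤ f r ^ 2 + D r ^ 2 := by
      have := sq_nonneg (|D r| - f r)
      have h3 : |D r| ^ 2 = D r ^ 2 := sq_abs _
      have h4 : 0 ≤ |D r| * f r := by positivity
      nlinarith
    have h5 : f r + D r ^ 2 / f r = (f r ^ 2 + D r ^ 2) / f r := by field_simp
    rw [h5, le_div_iff₀ h1]
    exact h2
  set a := ∫ r, D r with ha
  set b := ∫ r, f r with hb
  set l := a / b with hl
  have key : ∫ r, (2 * l * D r) ≤ ∫ r, (l ^ 2 * f r + D r ^ 2 / f r) := by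
    refine integral_mono (hDi.const_mul _) ((hfi.const_mul _).add hQ) fun r => ?_
    have h1 := hf r
    simp only
    have h5 : l ^ 2 * f r + D r ^ 2 / f r = (l ^ 2 * f r ^ 2 + D r ^ 2) / f r := by field_simp
    rw [h5, le_div_iff₀ h1]
    nlinarith [sq_nonneg (l * f r - D r)]
  rw [integral_const_mul, integral_add (hfi.const_mul _) hQ, integral_const_mul, ← ha, ← hb] at key
  have e1 : 2 * l * a = 2 * (a ^ 2 / b) := by rw [hl]; field_simp
  have e2 : l ^ 2 * b = a ^ 2 / b := by rw [hl]; field_simp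
  rw [e1, e2] at key
  linarith

/-- the Fisher information of the marginal (Cauchy-Schwarz) -/
theorem marg_fisher {N : ℕ} {f : (Fin (N + 1) → ℝ) → ℝ} {D : Fin (N + 1) → (Fin (N + 1) → ℝ) → ℝ}
    (h : Good f D) (k : Fin (N + 1)) : Integrable (fun x => marg (D k) x ^ 2 / marg f x) := by
  obtain ⟨C, c, hc, hf, hD⟩ := h.dom
  have hcD : Continuous (marg (D k)) := marg_cont (h.contD k) hc (hD k)
  have hcf : Continuous (marg f) := marg_cont h.cont hc (fun x => by
    rw [abs_of_pos (h.pos x)]; exact hf x)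
  have hcont : Continuous (fun x => marg (D k) x ^ 2 / marg f x) :=
    (hcD.pow 2).div hcf (fun x => ne_of_gt (marg_pos h x).1)
  have hF := h.fisher k
  have hΦ := (snoc_integral hF).1
  have hprod : Integrable (fun p : (Fin N → ℝ) × ℝ =>
      D k (Fin.snoc (α := fun _ => ℝ) p.1 p.2) ^ 2 / f (Fin.snoc (α := fun _ => ℝ) p.1 p.2))
      (volume : Measure ((Fin N → ℝ) × ℝ)) :=
    (snoc_mp N).integrable_comp_of_integrable hF
  have hae := Integrable.prod_right_ae (μ := (volume : Measure (Fin N → ℝ)))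
    (ν := (volume : Measure ℝ)) hprod
  refine hΦ.mono' hcont.aestronglyMeasurable ?_
  filter_upwards [hae] with x hx
  have hp := marg_pos h x
  have hn : 0 ≤ marg (D k) x ^ 2 / marg f x := div_nonneg (sq_nonneg _) hp.1.le
  rw [Real.norm_eq_abs, abs_of_nonneg hn]
  have hsn : Continuous (fun r : ℝ => (Fin.snoc (α := fun _ => ℝ) x r : Fin (N + 1) → ℝ)) := by
    refine continuous_pi fun i => ?_
    refine Fin.lastCases ?_ (fun j => ?_) i
    · simp only [Fin.snoc_last]; exact continuous_id
    · simp only [Fin.snoc_castSucc]; exact continuous_const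
  exact sd_cs (f := fun r => f (Fin.snoc (α := fun _ => ℝ) x r))
    (D := fun r => D k (Fin.snoc (α := fun _ => ℝ) x r)) (fun r => h.pos _) hp.2
    ((h.contD k).comp hsn) hx hp.1

end QG
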