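import Mathlib
import Pool.Agent.Lib_helper69.QG.Defs
import Pool.Agent.Lib_helper69.QG.W.sb
import Pool.Agent.Lib_helper69.QG.W.sc
import Pool.Agent.Lib_helper69.QG.W.sd

set_option autoImplicit false

namespace QG

open MeasureTheory

theorem marg_good {N : ℕ} {f : (Fin (N + 1) → ℝ) → ℝ} {D : Fin (N + 1) → (Fin (N + 1) → ℝ) → ℝ}
    (h : Good f D) : Good (marg f) (fun k => marg (D k.castSucc)) := by
  obtain ⟨C, c, hc, hf, hD⟩ := h.dom
  have hf' : ∀ x, |f x| ≤ C * Real.exp (-(c * ∑ i, x i ^ 2)) := fun x => by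
    rw [abs_of_pos (h.pos x)]
    exact hf x
  have hm : ∀ k : Fin N, ∃ C' : ℝ, ∀ x, |marg (D k.castSucc) x| ≤
      C' * Real.exp (-(c * ∑ i, x i ^ 2)) := fun k =>
    marg_dom (h.contD k.castSucc) hc (hD k.castSucc)
  obtain ⟨C0, h0⟩ := marg_dom h.cont hc hf'
  choose C' hC' using hm
  constructor
  · exact fun x => (marg_pos h x).1
  · exact marg_cont h.cont hc hf'
  · exact fun k => marg_cont (h.contD k.castSucc) hc (hD k.castSucc)
  · exact fun k x => marg_deriv h k x
  · refine ⟨|C0| + ∑ k, |C' k|, c, hc, fun x => ?_, fun k x => ?_⟩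
    · refine ((le_abs_self _).trans (h0 x)).trans ?_
      refine mul_le_mul_of_nonneg_right ?_ (Real.exp_pos _).le
      have h1 : 0 ≤ ∑ k, |C' k| := Finset.sum_nonneg fun _ _ => abs_nonneg _
      have h2 := le_abs_self C0
      linarith
    · refine (hC' k x).trans ?_
      refine mul_le_mul_of_nonneg_right ?_ (Real.exp_pos _).le
      have h1 : |C' k| ≤ ∑ k, |C' k| :=
        Finset.single_le_sum (f := fun k => |C' k|) (fun _ _ => abs_nonneg _) (Finset.mem_univ k)
      have h2 := le_abs_self (C' k)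
      have h3 := abs_nonneg C0
      linarith
  · exact fun k => marg_fisher h k.castSucc

theorem marg_one {N : ℕ} {f : (Fin (N + 1) → ℝ) → ℝ} {D : Fin (N + 1) → (Fin (N + 1) → ℝ) → ℝ}
    (h : Good f D) (h1 : ∫ x, f x = 1) : ∫ x, marg f x = 1 := by
  have hi : Integrable f := by
    by_contra hn
    rw [integral_undef hn] at h1
    exact zero_ne_one h1
  rw [← h1]
  exact (snoc_integral hi).2.symm

end QG
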