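import Mathlib
import Pool.Agent.Lib_helper69.QG.Defs
import Pool.Agent.Lib_helper69.QG.W.sa
import Pool.Agent.Lib_helper69.QG.W.sb

set_option autoImplicit false

namespace QG

open MeasureTheory

theorem sf_snoc_cont {N : ℕ} (x : Fin N → ℝ) :
    Continuous (fun r : ℝ => (Fin.snoc (α := fun _ => ℝ) x r : Fin (N + 1) → ℝ)) := by
  refine continuous_pi fun i => ?_
  refine Fin.lastCases ?_ (fun j => ?_) i
  · simp only [Fin.snoc_last]
    exact continuous_id
  · simp only [Fin.snoc_castSucc]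
    exact continuous_const

/-- for every past the conditional density is continuous, positive and of integral one -/
theorem cond_basic {N : ℕ} {f : (Fin (N + 1) → ℝ) → ℝ} {D : Fin (N + 1) → (Fin (N + 1) → ℝ) → ℝ}
    (h : Good f D) (x : Fin N → ℝ) : Continuous (cond f x) ∧ (∀ r, 0 < cond f x r) ∧
      ∫ r, cond f x r = 1 := by
  have hm := (marg_pos h x).1
  refine ⟨(h.cont.comp (sf_snoc_cont x)).div_const _, fun r => div_pos (h.pos _) hm, ?_⟩
  show ∫ r, f (Fin.snoc (α := fun _ => ℝ) x r) / marg f x = 1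
  rw [integral_div]
  exact div_self hm.ne'

theorem sf_sq {N : ℕ} {f : (Fin (N + 1) → ℝ) → ℝ} {D : Fin (N + 1) → (Fin (N + 1) → ℝ) → ℝ}
    (h : Good f D) (x : Fin N → ℝ) :
    Integrable (fun r => r ^ 2 * f (Fin.snoc (α := fun _ => ℝ) x r)) := by
  obtain ⟨C, c, hc, hf, -⟩ := h.dom
  have h1 : Integrable (fun r : ℝ => |C| * (r ^ 2 * Real.exp (-c * r ^ 2))) := by
    refine Integrable.const_mul ?_ _
    have := integrable_rpow_mul_exp_neg_mul_sq hc (s := 2) (by norm_num)
    refine this.congr (Filter.Eventually.of_forall fun r => ?_)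
    show r ^ (2 : ℝ) * _ = _
    rw [Real.rpow_two]
  refine h1.mono' ?_ (Filter.Eventually.of_forall fun r => ?_)
  · exact ((continuous_pow 2).mul (h.cont.comp (sf_snoc_cont x))).aestronglyMeasurable
  · rw [Real.norm_of_nonneg (mul_nonneg (sq_nonneg r) (h.pos _).le)]
    have h2 := hf (Fin.snoc (α := fun _ => ℝ) x r)
    have h3 : ∑ i, (Fin.snoc (α := fun _ => ℝ) x r : Fin (N + 1) → ℝ) i ^ 2 =
        ∑ i, x i ^ 2 + r ^ 2 := by
      rw [Fin.sum_univ_castSucc]
      simp only [Fin.snoc_castSucc, Fin.snoc_last]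
    have h4 : Real.exp (-(c * ∑ i, (Fin.snoc (α := fun _ => ℝ) x r : Fin (N + 1) → ℝ) i ^ 2)) ≤
        Real.exp (-c * r ^ 2) := by
      rw [h3]
      apply Real.exp_le_exp.2
      have : 0 ≤ c * ∑ i, x i ^ 2 := mul_nonneg hc.le (Finset.sum_nonneg fun i _ => sq_nonneg _)
      nlinarith
    have h5 : f (Fin.snoc (α := fun _ => ℝ) x r) ≤ |C| * Real.exp (-c * r ^ 2) :=
      h2.trans ((mul_le_mul_of_nonneg_right (le_abs_self C) (Real.exp_pos _).le).trans
        (mul_le_mul_of_nonneg_left h4 (abs_nonneg C)))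
    calc r ^ 2 * f (Fin.snoc (α := fun _ => ℝ) x r)
        ≤ r ^ 2 * (|C| * Real.exp (-c * r ^ 2)) := mul_le_mul_of_nonneg_left h5 (sq_nonneg r)
      _ = |C| * (r ^ 2 * Real.exp (-c * r ^ 2)) := by ring

/-- for almost every past the conditional density of the last coordinate is a nice density -/
theorem cond_dens {N : ℕ} {f : (Fin (N + 1) → ℝ) → ℝ} {D : Fin (N + 1) → (Fin (N + 1) → ℝ) → ℝ}
    (h : Good f D) : ∀ᵐ x : Fin N → ℝ, Dens (cond f x)
      (fun r => D (Fin.last N) (Fin.snoc (α := fun _ => ℝ) x r) / marg f x) := by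
  have h1 : Integrable (fun p : (Fin N → ℝ) × ℝ =>
      D (Fin.last N) (Fin.snoc (α := fun _ => ℝ) p.1 p.2) ^ 2 /
        f (Fin.snoc (α := fun _ => ℝ) p.1 p.2)) :=
    ((snoc_mp N).integrable_comp (h.fisher (Fin.last N)).aestronglyMeasurable).2
      (h.fisher (Fin.last N))
  rw [Measure.volume_eq_prod] at h1
  filter_upwards [h1.prod_right_ae] with x hx
  have hm := (marg_pos h x).1
  obtain ⟨-, hp, hi⟩ := cond_basic h x
  refine ⟨hp, ((h.contD _).comp (sf_snoc_cont x)).div_const _, fun r => ?_, hi, ?_, ?_⟩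
  · have h2 := h.deriv (Fin.last N) (Fin.snoc (α := fun _ => ℝ) x r)
    simp only [Fin.update_snoc_last, Fin.snoc_last] at h2
    exact h2.div_const _
  · refine ((sf_sq h x).div_const (marg f x)).congr (Filter.Eventually.of_forall fun r => ?_)
    exact mul_div_assoc _ _ _
  · refine (hx.div_const (marg f x)).congr (Filter.Eventually.of_forall fun r => ?_)
    have hf := (h.pos (Fin.snoc (α := fun _ => ℝ) x r)).ne'
    show _ / _ / _ = (_ / _) ^ 2 / (f _ / marg f x)
    field_simp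

end QG
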