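import Mathlib
import Pool.Agent.Lib_helper69.QG.Defs
import Pool.Agent.Lib_helper69.QG.W.sa
import Pool.Agent.Lib_helper69.QG.W.se
import Pool.Agent.Lib_helper69.QG.W.sf
import Pool.Agent.Lib_helper69.QG.W.qb

set_option autoImplicit false

namespace QG

open MeasureTheory

theorem lawN_prob {N : ℕ} {f : (Fin N → ℝ) → ℝ} (hp : ∀ x, 0 < f x) (hc : Continuous f)
    (h1 : ∫ x, f x = 1) : IsProbabilityMeasure (lawN f) := by
  have hi : Integrable f := by
    by_contra h
    rw [integral_undef h] at h1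
    exact zero_ne_one h1
  refine ⟨?_⟩
  unfold lawN
  rw [withDensity_apply _ MeasurableSet.univ, Measure.restrict_univ,
    ← ofReal_integral_eq_lintegral_ofReal hi (Filter.Eventually.of_forall fun x => (hp x).le), h1,
    ENNReal.ofReal_one]

theorem lawN_integral {N : ℕ} {f : (Fin N → ℝ) → ℝ} (hp : ∀ x, 0 < f x) (hc : Continuous f)
    (F : (Fin N → ℝ) → ℝ) :
    (∫ x, F x ∂lawN f = ∫ x, F x * f x) ∧ (Integrable F (lawN f) ↔ Integrable (fun x => F x * f x)) := by
  have hm : Measurable (fun x => ENNReal.ofReal (f x)) := hc.measurable.ennreal_ofReal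
  have hlt : ∀ᵐ x : Fin N → ℝ, ENNReal.ofReal (f x) < ⊤ :=
    Filter.Eventually.of_forall fun x => ENNReal.ofReal_lt_top
  have e : (fun x => (ENNReal.ofReal (f x)).toReal • F x) = fun x => F x * f x := by
    funext x
    rw [ENNReal.toReal_ofReal (hp x).le, smul_eq_mul, mul_comm]
  constructor
  · unfold lawN
    rw [integral_withDensity_eq_integral_toReal_smul hm hlt, e]
  · unfold lawN
    rw [integrable_withDensity_iff_integrable_smul' hm hlt, e]

/-- the quantile of the last coordinate given the past, as a function of past and noise -/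
noncomputable def lastq {N : ℕ} (f : (Fin (N + 1) → ℝ) → ℝ) (p : (Fin N → ℝ) × ℝ) : Fin (N + 1) → ℝ :=
  Fin.snoc (α := fun _ => ℝ) p.1 (qt (cond f p.1) p.2)

lemma sg_cond_meas {N : ℕ} {f : (Fin (N + 1) → ℝ) → ℝ} {D : Fin (N + 1) → (Fin (N + 1) → ℝ) → ℝ}
    (h : Good f D) : Measurable (fun p : (Fin N → ℝ) × ℝ => cond f p.1 p.2) := by
  unfold cond
  exact (h.cont.measurable.comp (snoc_mp N).measurable).div
    ((marg_good h).cont.measurable.comp measurable_fst)

lemma sg_qt_meas {N : ℕ} {f : (Fin (N + 1) → ℝ) → ℝ} {D : Fin (N + 1) → (Fin (N + 1) → ℝ) → ℝ}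
    (h : Good f D) : Measurable (fun p : (Fin N → ℝ) × ℝ => qt (cond f p.1) p.2) :=
  qt_meas2 (sg_cond_meas h) (fun x r => (cond_basic h x).2.1 r) (fun x => (cond_basic h x).2.2)

theorem lastq_meas {N : ℕ} {f : (Fin (N + 1) → ℝ) → ℝ} {D : Fin (N + 1) → (Fin (N + 1) → ℝ) → ℝ}
    (h : Good f D) : Measurable (lastq f) := by
  unfold lastq
  exact (snoc_mp N).measurable.comp (measurable_fst.prodMk (sg_qt_meas h))

/-- the law of the marginal, extended by the conditional quantile, is the law of `f` -/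
theorem lastq_map {N : ℕ} {f : (Fin (N + 1) → ℝ) → ℝ} {D : Fin (N + 1) → (Fin (N + 1) → ℝ) → ℝ}
    (h : Good f D) (h1 : ∫ x, f x = 1) : ((lawN (marg f)).prod uni).map (lastq f) = lawN f := by
  have hmg := marg_good h
  have hs := (snoc_mp N).measurable
  refine Measure.ext fun A hA => ?_
  have hpre : MeasurableSet (lastq f ⁻¹' A) := lastq_meas h hA
  rw [Measure.map_apply (lastq_meas h) hA, Measure.prod_apply hpre]
  have hmu : Measurable (fun x : Fin N → ℝ => uni (Prod.mk x ⁻¹' (lastq f ⁻¹' A))) :=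
    measurable_measure_prodMk_left hpre
  have hmm : Measurable (fun x : Fin N → ℝ => ENNReal.ofReal (marg f x)) :=
    hmg.cont.measurable.ennreal_ofReal
  have e0 : ∫⁻ x, uni (Prod.mk x ⁻¹' (lastq f ⁻¹' A)) ∂lawN (marg f) =
      ∫⁻ x : Fin N → ℝ, ENNReal.ofReal (marg f x) * uni (Prod.mk x ⁻¹' (lastq f ⁻¹' A)) := by
    unfold lawN
    rw [lintegral_withDensity_eq_lintegral_mul _ hmm hmu]
    rfl
  have hgm : Measurable (fun y : Fin (N + 1) → ℝ => A.indicator (fun y => ENNReal.ofReal (f y)) y) :=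
    (h.cont.measurable.ennreal_ofReal).indicator hA
  have e1 : ∀ x : Fin N → ℝ, ENNReal.ofReal (marg f x) * uni (Prod.mk x ⁻¹' (lastq f ⁻¹' A)) =
      ∫⁻ r : ℝ, A.indicator (fun y => ENNReal.ofReal (f y)) (Fin.snoc (α := fun _ => ℝ) x r) := by
    intro x
    obtain ⟨hc1, hc2, hc3⟩ := cond_basic h x
    have hqm : Measurable (qt (cond f x)) := (sg_qt_meas h).comp measurable_prodMk_left
    have hsx : Measurable (fun r : ℝ => (Fin.snoc (α := fun _ => ℝ) x r : Fin (N + 1) → ℝ)) :=
      hs.comp measurable_prodMk_left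
    have hB : MeasurableSet {r : ℝ | (Fin.snoc (α := fun _ => ℝ) x r : Fin (N + 1) → ℝ) ∈ A} :=
      hsx hA
    have e2 : uni (Prod.mk x ⁻¹' (lastq f ⁻¹' A)) =
        law1 (cond f x) {r : ℝ | (Fin.snoc (α := fun _ => ℝ) x r : Fin (N + 1) → ℝ) ∈ A} := by
      rw [← qt_map0 hc1 hc2 hc3, Measure.map_apply hqm hB]
      rfl
    rw [e2]
    unfold law1
    rw [withDensity_apply _ hB, ← lintegral_indicator hB,
      ← lintegral_const_mul _ ((hc1.measurable.ennreal_ofReal).indicator hB)]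
    refine lintegral_congr fun r => ?_
    by_cases hr : (Fin.snoc (α := fun _ => ℝ) x r : Fin (N + 1) → ℝ) ∈ A
    · rw [Set.indicator_of_mem (show r ∈ {r : ℝ | (Fin.snoc (α := fun _ => ℝ) x r :
          Fin (N + 1) → ℝ) ∈ A} from hr), Set.indicator_of_mem hr,
        ← ENNReal.ofReal_mul (hmg.pos x).le]
      congr 1
      unfold cond
      field_simp [(hmg.pos x).ne']
    · rw [Set.indicator_of_notMem (show r ∉ {r : ℝ | (Fin.snoc (α := fun _ => ℝ) x r :
          Fin (N + 1) → ℝ) ∈ A} from hr), Set.indicator_of_notMem hr, mul_zero]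
  rw [e0, lintegral_congr e1]
  have e3 := lintegral_prod (μ := (volume : Measure (Fin N → ℝ))) (ν := (volume : Measure ℝ))
    (fun p : (Fin N → ℝ) × ℝ => A.indicator (fun y => ENNReal.ofReal (f y))
      (Fin.snoc (α := fun _ => ℝ) p.1 p.2)) (hgm.comp hs).aemeasurable
  have e4 := (snoc_mp N).lintegral_comp hgm
  rw [← e3]
  unfold lawN
  rw [withDensity_apply _ hA, ← lintegral_indicator hA]
  exact e4

end QG
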