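import Mathlib
import Pool.Agent.Lib_helper69.QG.Defs
import Pool.Agent.Lib_helper69.QG.W.sa
import Pool.Agent.Lib_helper69.QG.W.se
import Pool.Agent.Lib_helper69.QG.W.sf
import Pool.Agent.Lib_helper69.QG.W.sg
import Pool.Agent.Lib_helper69.QG.W.qk
import Pool.Agent.Lib_helper69.QG.W.qb

set_option autoImplicit false

namespace QG

open MeasureTheory

theorem sh_meas {g : ℝ → ℝ} (hc : Continuous g) (hp : ∀ x, 0 < g x) (hi : ∫ x, g x = 1) :
    Measurable (qt g) := by
  have h := qt_meas2 (X := Unit) (f := fun _ r => g r) (hc.measurable.comp measurable_snd)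
    (fun _ r => hp r) (fun _ => hi)
  exact h.comp (measurable_const.prodMk measurable_id : Measurable (fun u : ℝ => (Unit.unit, u)))

theorem sh_int {g : ℝ → ℝ} (hc : Continuous g) (hp : ∀ x, 0 < g x) (hi : ∫ x, g x = 1)
    {F : ℝ → ℝ} (hF : Measurable F) : ∫ u, F (qt g u) ∂uni = ∫ x, F x * g x := by
  have h1 : ∫ u, F (qt g u) ∂uni = ∫ x, F x ∂(uni.map (qt g)) :=
    (integral_map (sh_meas hc hp hi).aemeasurable hF.aestronglyMeasurable).symm
  rw [h1, qt_map0 hc hp hi, law1,
    integral_withDensity_eq_integral_toReal_smul (hc.measurable.ennreal_ofReal)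
      (Filter.Eventually.of_forall fun x => ENNReal.ofReal_lt_top)]
  refine integral_congr_ae (Filter.Eventually.of_forall fun x => ?_)
  simp only [smul_eq_mul, ENNReal.toReal_ofReal (hp x).le]
  ring

theorem sh_snoc {N : ℕ} (x : Fin N → ℝ) :
    Continuous (fun r : ℝ => (Fin.snoc (α := fun _ => ℝ) x r : Fin (N + 1) → ℝ)) := by
  refine continuous_pi fun i => ?_
  refine Fin.lastCases ?_ (fun j => ?_) i
  · simpa using continuous_id'
  · simpa using continuous_const

/-- the conditional mean of an earlier score given the past is the score of the marginal -/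
theorem score_cond {N : ℕ} {f : (Fin (N + 1) → ℝ) → ℝ} {D : Fin (N + 1) → (Fin (N + 1) → ℝ) → ℝ}
    (h : Good f D) (k : Fin N) : ∀ᵐ x ∂lawN (marg f),
      ∫ u, D k.castSucc (lastq f (x, u)) / f (lastq f (x, u)) ∂uni =
        marg (D k.castSucc) x / marg f x := by
  refine Filter.Eventually.of_forall fun x => ?_
  obtain ⟨hc, hp, hi⟩ := cond_basic h x
  have hF : Continuous (fun r : ℝ => D k.castSucc (Fin.snoc (α := fun _ => ℝ) x r) /
      f (Fin.snoc (α := fun _ => ℝ) x r)) :=
    ((h.contD _).comp (sh_snoc x)).div (h.cont.comp (sh_snoc x)) (fun r => (h.pos _).ne')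
  have h1 := sh_int hc hp hi hF.measurable
  have h2 : (fun u => D k.castSucc (lastq f (x, u)) / f (lastq f (x, u))) =
      fun u => D k.castSucc (Fin.snoc (α := fun _ => ℝ) x (qt (cond f x) u)) /
        f (Fin.snoc (α := fun _ => ℝ) x (qt (cond f x) u)) := rfl
  rw [h2, h1]
  have h3 : (fun r : ℝ => D k.castSucc (Fin.snoc (α := fun _ => ℝ) x r) /
      f (Fin.snoc (α := fun _ => ℝ) x r) * cond f x r) =
      fun r => D k.castSucc (Fin.snoc (α := fun _ => ℝ) x r) / marg f x := by
    funext r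
    unfold cond
    have := (h.pos (Fin.snoc (α := fun _ => ℝ) x r)).ne'
    rw [div_mul_div_comm, mul_comm (f _) (marg f x), ← div_mul_div_comm, div_self this, mul_one]
  rw [h3, integral_div]
  rfl

theorem sh_ac {N : ℕ} (f : (Fin N → ℝ) → ℝ) : lawN f ≪ volume :=
  withDensity_absolutelyContinuous _ _

theorem sh_ratio {N : ℕ} {f : (Fin (N + 1) → ℝ) → ℝ} {D : Fin (N + 1) → (Fin (N + 1) → ℝ) → ℝ}
    (h : Good f D) (x : Fin N → ℝ) (r : ℝ) :
    D (Fin.last N) (Fin.snoc (α := fun _ => ℝ) x r) / marg f x / cond f x r =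
      D (Fin.last N) (Fin.snoc (α := fun _ => ℝ) x r) / f (Fin.snoc (α := fun _ => ℝ) x r) := by
  have h0 : marg f x ≠ 0 := ((marg_good h).pos x).ne'
  unfold cond
  rw [div_div_div_cancel_right₀ h0]

/-- the conditional mean of the last score is zero -/
theorem score_last {N : ℕ} {f : (Fin (N + 1) → ℝ) → ℝ} {D : Fin (N + 1) → (Fin (N + 1) → ℝ) → ℝ}
    (h : Good f D) : ∀ᵐ x ∂lawN (marg f),
      ∫ u, D (Fin.last N) (lastq f (x, u)) / f (lastq f (x, u)) ∂uni = 0 := by
  refine (sh_ac (marg f)).ae_le ?_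
  filter_upwards [cond_dens h] with x hx
  have h1 := qt_zero hx
  simp only [sh_ratio h x] at h1
  exact h1

/-- the key inequality for the last coordinate, for almost all pairs of pasts -/
theorem score_key {N : ℕ} {f f' : (Fin (N + 1) → ℝ) → ℝ}
    {D D' : Fin (N + 1) → (Fin (N + 1) → ℝ) → ℝ} (h : Good f D) (h' : Good f' D') :
    ∃ S S' : Set (Fin N → ℝ), MeasurableSet S ∧ MeasurableSet S' ∧ lawN (marg f) Sᶜ = 0 ∧
      lawN (marg f') S'ᶜ = 0 ∧ ∀ x ∈ S, ∀ x' ∈ S',
      ∫ u, (lastq f' (x', u) (Fin.last N) - lastq f (x, u) (Fin.last N)) *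
        (D (Fin.last N) (lastq f (x, u)) / f (lastq f (x, u)) -
          D' (Fin.last N) (lastq f' (x', u)) / f' (lastq f' (x', u))) ∂uni ≤ 0 := by
  set T : Set (Fin N → ℝ) := {x | ¬ Dens (cond f x)
      (fun r => D (Fin.last N) (Fin.snoc (α := fun _ => ℝ) x r) / marg f x)} with hT
  set T' : Set (Fin N → ℝ) := {x | ¬ Dens (cond f' x)
      (fun r => D' (Fin.last N) (Fin.snoc (α := fun _ => ℝ) x r) / marg f' x)} with hT'
  have hT0 : volume T = 0 := cond_dens h
  have hT0' : volume T' = 0 := cond_dens h'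
  refine ⟨(toMeasurable volume T)ᶜ, (toMeasurable volume T')ᶜ,
    (measurableSet_toMeasurable _ _).compl, (measurableSet_toMeasurable _ _).compl, ?_, ?_, ?_⟩
  · rw [compl_compl]
    exact sh_ac _ (by rw [measure_toMeasurable]; exact hT0)
  · rw [compl_compl]
    exact sh_ac _ (by rw [measure_toMeasurable]; exact hT0')
  · intro x hx x' hx'
    have hd : Dens (cond f x)
      (fun r => D (Fin.last N) (Fin.snoc (α := fun _ => ℝ) x r) / marg f x) := by
      by_contra hcon
      exact hx (subset_toMeasurable volume T hcon)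
    have hd' : Dens (cond f' x')
      (fun r => D' (Fin.last N) (Fin.snoc (α := fun _ => ℝ) x' r) / marg f' x') := by
      by_contra hcon
      exact hx' (subset_toMeasurable volume T' hcon)
    have h1 := qt_key hd hd'
    simp only [sh_ratio h x, sh_ratio h' x'] at h1
    have h2 : ∀ u, lastq f (x, u) (Fin.last N) = qt (cond f x) u := fun u => by
      simp [lastq]
    have h3 : ∀ u, lastq f' (x', u) (Fin.last N) = qt (cond f' x') u := fun u => by
      simp [lastq]
    simp only [h2, h3]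
    exact h1

theorem sh_exp (c t : ℝ) (hc : 0 < c) : t * Real.exp (-(c * t)) ≤ 2 / c *
    Real.exp (-(c / 2 * t)) := by
  have h1 : c / 2 * t ≤ Real.exp (c / 2 * t) := by
    have := Real.add_one_le_exp (c / 2 * t)
    linarith
  have h2 : Real.exp (-(c * t)) = Real.exp (-(c / 2 * t)) * Real.exp (-(c / 2 * t)) := by
    rw [← Real.exp_add]; congr 1; ring
  have h3 : Real.exp (c / 2 * t) * Real.exp (-(c / 2 * t)) = 1 := by
    rw [← Real.exp_add]; simp
  have h4 : 0 < Real.exp (-(c / 2 * t)) := Real.exp_pos _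
  have h5 : c / 2 * t * Real.exp (-(c / 2 * t)) ≤ 1 := by
    calc c / 2 * t * Real.exp (-(c / 2 * t)) ≤ Real.exp (c / 2 * t) * Real.exp (-(c / 2 * t)) :=
          mul_le_mul_of_nonneg_right h1 h4.le
      _ = 1 := h3
  have h6 : t * Real.exp (-(c / 2 * t)) ≤ 2 / c := by
    have h7 : t * Real.exp (-(c / 2 * t)) = 2 / c * (c / 2 * t * Real.exp (-(c / 2 * t))) := by
      field_simp
    rw [h7]
    calc 2 / c * (c / 2 * t * Real.exp (-(c / 2 * t))) ≤ 2 / c * 1 :=
          mul_le_mul_of_nonneg_left h5 (by positivity)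
      _ = 2 / c := mul_one _
  rw [h2, ← mul_assoc]
  exact mul_le_mul_of_nonneg_right h6 h4.le

/-- coordinates and scores are square integrable -/
theorem good_l2 {N : ℕ} {f : (Fin N → ℝ) → ℝ} {D : Fin N → (Fin N → ℝ) → ℝ} (h : Good f D)
    (k : Fin N) : MemLp (fun x => x k) 2 (lawN f) ∧ MemLp (fun x => D k x / f x) 2 (lawN f) := by
  constructor
  · rw [memLp_two_iff_integrable_sq (continuous_apply k).aestronglyMeasurable]
    rw [(lawN_integral h.pos h.cont _).2]
    obtain ⟨C, c, hc, hf, -⟩ := h.dom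
    have hC : 0 ≤ C := by
      have h0 := (h.pos 0).le.trans (hf 0)
      simp at h0
      exact h0
    have hg := (gauss_int N (c := c / 2) (by positivity)).const_mul (C * (2 / c))
    refine hg.mono' (by
      have := h.cont
      fun_prop) (Filter.Eventually.of_forall fun x => ?_)
    have hs : 0 ≤ ∑ i, x i ^ 2 := Finset.sum_nonneg fun i _ => sq_nonneg _
    have hk : x k ^ 2 ≤ ∑ i, x i ^ 2 :=
      Finset.single_le_sum (f := fun i => x i ^ 2) (fun i _ => sq_nonneg _) (Finset.mem_univ k)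
    rw [Real.norm_of_nonneg (mul_nonneg (sq_nonneg _) (h.pos x).le)]
    calc x k ^ 2 * f x ≤ (∑ i, x i ^ 2) * (C * Real.exp (-(c * ∑ i, x i ^ 2))) :=
          mul_le_mul hk (hf x) (h.pos x).le hs
      _ = C * ((∑ i, x i ^ 2) * Real.exp (-(c * ∑ i, x i ^ 2))) := by ring
      _ ≤ C * (2 / c * Real.exp (-(c / 2 * ∑ i, x i ^ 2))) :=
          mul_le_mul_of_nonneg_left (sh_exp c _ hc) hC
      _ = C * (2 / c) * Real.exp (-(c / 2 * ∑ i, x i ^ 2)) := by ring
  · have hcd : Continuous (fun x => D k x / f x) :=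
      (h.contD k).div h.cont (fun x => (h.pos x).ne')
    rw [memLp_two_iff_integrable_sq hcd.aestronglyMeasurable]
    rw [(lawN_integral h.pos h.cont _).2]
    have h1 : (fun x => (D k x / f x) ^ 2 * f x) = fun x => D k x ^ 2 / f x := by
      funext x
      have := (h.pos x).ne'
      field_simp
    rw [h1]
    exact h.fisher k

end QG
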