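import Mathlib
import Pool.Agent.Lib_helper69.QG.Defs
import Pool.Agent.Lib_helper69.QG.W.se
import Pool.Agent.Lib_helper69.QG.W.sg
import Pool.Agent.Lib_helper69.QG.W.sh

set_option autoImplicit false

namespace QG

open MeasureTheory

/-- all coordinates independent -/
theorem seq_base {N : ℕ} {f f' : (Fin N → ℝ) → ℝ} {D D' : Fin N → (Fin N → ℝ) → ℝ}
    (h : Good f D) (h' : Good f' D') (h1 : ∫ x, f x = 1) (h1' : ∫ x, f' x = 1) (m : ℕ)
    (hm : N ≤ m) : Seq m f f' D D' ((lawN f).prod (lawN f')) := by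
  have i1 : IsProbabilityMeasure (lawN f) := lawN_prob h.pos h.cont h1
  have i2 : IsProbabilityMeasure (lawN f') := lawN_prob h'.pos h'.cont h1'
  refine ⟨inferInstance, ?_, ?_, ?_, ?_, ?_⟩
  · rw [Measure.map_fst_prod, measure_univ, one_smul]
  · rw [Measure.map_snd_prod, measure_univ, one_smul]
  · intro k hk
    exact absurd k.2 (by omega)
  · intro k j hk _
    exact absurd k.2 (by omega)
  · intro U W _ _ _ _ _
    exact integral_prod_mul U W

end QG
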