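import Mathlib
import Pool.Agent.Lib_helper69.QG.Defs
import Pool.Agent.Lib_helper69.QG.W.se
import Pool.Agent.Lib_helper69.QG.W.sg
import Pool.Agent.Lib_helper69.QG.W.sh

set_option autoImplicit false

namespace QG

open MeasureTheory

/-- the extension of a coupling by one coordinate -/
noncomputable def ext1 {N : ℕ} (f f' : (Fin (N + 1) → ℝ) → ℝ)
    (π : Measure ((Fin N → ℝ) × (Fin N → ℝ))) :
    Measure ((Fin (N + 1) → ℝ) × (Fin (N + 1) → ℝ)) :=
  (π.prod uni).map (fun p => (lastq f (p.1.1, p.2), lastq f' (p.1.2, p.2)))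

section
variable {N : ℕ} {f f' : (Fin (N + 1) → ℝ) → ℝ} {D D' : Fin (N + 1) → (Fin (N + 1) → ℝ) → ℝ}
  {m : ℕ} {π : Measure ((Fin N → ℝ) × (Fin N → ℝ))}

theorem sj_meas (h : Good f D) (h' : Good f' D') :
    Measurable (fun p : ((Fin N → ℝ) × (Fin N → ℝ)) × ℝ =>
      (lastq f (p.1.1, p.2), lastq f' (p.1.2, p.2))) := by
  have h1 : Measurable (fun p : ((Fin N → ℝ) × (Fin N → ℝ)) × ℝ => (p.1.1, p.2)) := by fun_prop
  have h2 : Measurable (fun p : ((Fin N → ℝ) × (Fin N → ℝ)) × ℝ => (p.1.2, p.2)) := by fun_prop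
  exact ((lastq_meas h).comp h1).prodMk ((lastq_meas h').comp h2)

theorem ext1_marg (h : Good f D) (h' : Good f' D') (h1 : ∫ x, f x = 1) (h1' : ∫ x, f' x = 1)
    (hπ : Seq m (marg f) (marg f') (fun k => marg (D k.castSucc)) (fun k => marg (D' k.castSucc)) π) :
    IsProbabilityMeasure (ext1 f f' π) ∧ (ext1 f f' π).map Prod.fst = lawN f ∧
      (ext1 f f' π).map Prod.snd = lawN f' := by
  haveI := hπ.prob
  have hΦ := sj_meas h h'
  have hid : uni.map (id : ℝ → ℝ) = uni := Measure.map_id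
  refine ⟨Measure.isProbabilityMeasure_map hΦ.aemeasurable, ?_, ?_⟩
  · have e1 : (π.prod uni).map (Prod.map Prod.fst id) = (lawN (marg f)).prod uni := by
      rw [← Measure.map_prod_map _ _ measurable_fst measurable_id, hπ.fst, hid]
    rw [ext1, Measure.map_map measurable_fst hΦ, ← lastq_map h h1, ← e1,
      Measure.map_map (lastq_meas h) (measurable_fst.prodMap measurable_id)]
    rfl
  · have e1 : (π.prod uni).map (Prod.map Prod.snd id) = (lawN (marg f')).prod uni := by
      rw [← Measure.map_prod_map _ _ measurable_snd measurable_id, hπ.snd, hid]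
    rw [ext1, Measure.map_map measurable_snd hΦ, ← lastq_map h' h1', ← e1,
      Measure.map_map (lastq_meas h') (measurable_snd.prodMap measurable_id)]
    rfl

/-- integrals over the extension as iterated integrals -/
theorem ext1_integral (h : Good f D) (h' : Good f' D') (h1 : ∫ x, f x = 1) (h1' : ∫ x, f' x = 1)
    (hπ : Seq m (marg f) (marg f') (fun k => marg (D k.castSucc)) (fun k => marg (D' k.castSucc)) π)
    {F : (Fin (N + 1) → ℝ) × (Fin (N + 1) → ℝ) → ℝ} (hF : Integrable F (ext1 f f' π)) :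
    ∫ z, F z ∂ext1 f f' π = ∫ p, ∫ u, F (lastq f (p.1, u), lastq f' (p.2, u)) ∂uni ∂π := by
  haveI := hπ.prob
  have hΦ := sj_meas h h'
  unfold ext1 at hF ⊢
  rw [integral_map hΦ.aemeasurable hF.aestronglyMeasurable]
  have h2 := (integrable_map_measure hF.aestronglyMeasurable hΦ.aemeasurable).1 hF
  exact integral_prod _ h2

theorem sj_one (h : Good f D) (h1 : ∫ x, f x = 1) {U : (Fin (N + 1) → ℝ) → ℝ}
    (hU : Measurable U) (hUb : ∃ K, ∀ x, |U x| ≤ K) :
    ∫ x, U x ∂lawN f = ∫ x, ∫ u, U (lastq f (x, u)) ∂uni ∂lawN (marg f) := by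
  haveI : IsProbabilityMeasure (lawN (marg f)) :=
    lawN_prob (marg_good h).pos (marg_good h).cont (marg_one h h1)
  obtain ⟨K, hK⟩ := hUb
  rw [← lastq_map h h1, integral_map (lastq_meas h).aemeasurable hU.aestronglyMeasurable]
  have h2 : Integrable (fun p => U (lastq f p)) ((lawN (marg f)).prod uni) := by
    refine Integrable.of_bound ((hU.comp (lastq_meas h)).aestronglyMeasurable) K
      (Filter.Eventually.of_forall fun p => ?_)
    rw [Real.norm_eq_abs]
    exact hK _
  exact integral_prod _ h2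

theorem ext1_indep (h : Good f D) (h' : Good f' D') (h1 : ∫ x, f x = 1) (h1' : ∫ x, f' x = 1)
    (hπ : Seq m (marg f) (marg f') (fun k => marg (D k.castSucc)) (fun k => marg (D' k.castSucc)) π)
    (hm : m ≤ N) (U W : (Fin (N + 1) → ℝ) → ℝ) (hU : Measurable U) (hW : Measurable W)
    (hUb : ∃ K, ∀ x, |U x| ≤ K) (hWb : ∃ K, ∀ x, |W x| ≤ K)
    (hUm : ∀ x y : Fin (N + 1) → ℝ, (∀ i : Fin (N + 1), (i : ℕ) < m → x i = y i) → U x = U y) :
    ∫ z, U z.1 * W z.2 ∂ext1 f f' π = (∫ x, U x ∂lawN f) * ∫ x, W x ∂lawN f' := by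
  haveI := hπ.prob
  haveI := (ext1_marg h h' h1 h1' hπ).1
  obtain ⟨K, hK⟩ := hUb
  obtain ⟨K', hK'⟩ := hWb
  have hint : Integrable (fun z : (Fin (N + 1) → ℝ) × (Fin (N + 1) → ℝ) => U z.1 * W z.2)
      (ext1 f f' π) := by
    refine Integrable.of_bound (((hU.comp measurable_fst).mul
      (hW.comp measurable_snd)).aestronglyMeasurable) (K * K')
      (Filter.Eventually.of_forall fun p => ?_)
    rw [Real.norm_eq_abs, abs_mul]
    exact mul_le_mul (hK _) (hK' _) (abs_nonneg _) ((abs_nonneg _).trans (hK p.1))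
  rw [ext1_integral h h' h1 h1' hπ hint, sj_one h h1 hU ⟨K, hK⟩, sj_one h' h1' hW ⟨K', hK'⟩]
  -- the function of the past
  set U' : (Fin N → ℝ) → ℝ := fun x => U (Fin.snoc (α := fun _ => ℝ) x 0) with hU'
  set W' : (Fin N → ℝ) → ℝ := fun x => ∫ u, W (lastq f' (x, u)) ∂uni with hW'
  have hUl : ∀ x u, U (lastq f (x, u)) = U' x := by
    intro x u
    refine hUm _ _ fun i hi => ?_
    have hlt : (i : ℕ) < N := lt_of_lt_of_le hi hm
    simp only [lastq, Fin.snoc, hlt, dif_pos]
  have hsn : Measurable (fun x : Fin N → ℝ =>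
      (Fin.snoc (α := fun _ => ℝ) x 0 : Fin (N + 1) → ℝ)) := by
    refine measurable_pi_iff.2 fun i => ?_
    refine Fin.lastCases ?_ (fun j => ?_) i
    · simpa using measurable_const
    · simpa using measurable_pi_apply j
  have hU'm : Measurable U' := hU.comp hsn
  have hW'm : Measurable W' := by
    have h2 : StronglyMeasurable (fun p : (Fin N → ℝ) × ℝ => W (lastq f' p)) :=
      (hW.comp (lastq_meas h')).stronglyMeasurable
    exact h2.integral_prod_right'.measurable
  have hW'b : ∃ K, ∀ x, |W' x| ≤ K := by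
    refine ⟨K', fun x => ?_⟩
    have h2 := norm_integral_le_of_norm_le_const (μ := uni) (f := fun u => W (lastq f' (x, u)))
      (C := K') (Filter.Eventually.of_forall fun u => by rw [Real.norm_eq_abs]; exact hK' _)
    simpa using h2
  have hU'd : ∀ x y : Fin N → ℝ, (∀ i : Fin N, (i : ℕ) < m → x i = y i) → U' x = U' y := by
    intro x y hxy
    refine hUm _ _ fun i hi => ?_
    have hlt : (i : ℕ) < N := lt_of_lt_of_le hi hm
    simp only [Fin.snoc, hlt, dif_pos, cast_eq]
    exact hxy _ hi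
  have h3 := hπ.indep U' W' hU'm hW'm ⟨K, fun x => hK _⟩ hW'b hU'd
  have h4 : ∀ p : (Fin N → ℝ) × (Fin N → ℝ),
      ∫ u, U (lastq f (p.1, u)) * W (lastq f' (p.2, u)) ∂uni = U' p.1 * W' p.2 := by
    intro p
    simp only [hUl, hW']
    rw [integral_const_mul]
  have h5 : ∀ x, ∫ u, U (lastq f (x, u)) ∂uni = U' x := by
    intro x
    simp only [hUl]
    simp
  simp only [h4, h5]
  exact h3

end

end QG
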