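import Mathlib
import Pool.Agent.Lib_helper69.QG.Defs
import Pool.Agent.Lib_helper69.QG.W.sj

set_option autoImplicit false

namespace QG

open MeasureTheory

theorem sk_ae {N : ℕ} {f : (Fin (N + 1) → ℝ) → ℝ} {D : Fin (N + 1) → (Fin (N + 1) → ℝ) → ℝ}
    (h : Good f D) (h1 : ∫ x, f x = 1) (k : Fin N) : ∀ᵐ x ∂lawN (marg f),
      Integrable (fun u => D k.castSucc (lastq f (x, u)) / f (lastq f (x, u))) uni ∧
      ∫ u, D k.castSucc (lastq f (x, u)) / f (lastq f (x, u)) ∂uni =
        marg (D k.castSucc) x / marg f x := by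
  have : IsProbabilityMeasure (lawN f) := lawN_prob h.pos h.cont h1
  have : IsProbabilityMeasure (lawN (marg f)) :=
    lawN_prob (marg_good h).pos (marg_good h).cont (marg_one h h1)
  have hg : Integrable (fun x => D k.castSucc x / f x) (lawN f) :=
    (good_l2 h k.castSucc).2.integrable (by norm_num)
  have hmap := lastq_map h h1
  rw [← hmap] at hg
  have hg2 : Integrable (fun p => D k.castSucc (lastq f p) / f (lastq f p))
      ((lawN (marg f)).prod uni) :=
    (integrable_map_measure hg.aestronglyMeasurable (lastq_meas h).aemeasurable).1 hg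
  filter_upwards [hg2.prod_right_ae, score_cond h k] with x hx1 hx2
  exact ⟨hx1, hx2⟩

/-- earlier coordinates: the products in `Seq` do not change under the extension -/
theorem ext1_old {N : ℕ} {f f' : (Fin (N + 1) → ℝ) → ℝ} {D D' : Fin (N + 1) → (Fin (N + 1) → ℝ) → ℝ}
    {m : ℕ} {π : Measure ((Fin N → ℝ) × (Fin N → ℝ))}
    (h : Good f D) (h' : Good f' D') (h1 : ∫ x, f x = 1) (h1' : ∫ x, f' x = 1)
    (hπ : Seq m (marg f) (marg f') (fun k => marg (D k.castSucc)) (fun k => marg (D' k.castSucc)) π)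
    (k j : Fin N) :
    ∫ z, (z.2 j.castSucc - z.1 j.castSucc) *
        (D k.castSucc z.1 / f z.1 - D' k.castSucc z.2 / f' z.2) ∂ext1 f f' π =
      ∫ z, (z.2 j - z.1 j) * (marg (D k.castSucc) z.1 / marg f z.1 -
        marg (D' k.castSucc) z.2 / marg f' z.2) ∂π := by
  obtain ⟨hE, hE1, hE2⟩ := ext1_marg h h' h1 h1' hπ
  have := hE
  have m1 : ∀ {g : (Fin (N + 1) → ℝ) → ℝ}, MemLp g 2 (lawN f) →
      MemLp (fun z : (Fin (N + 1) → ℝ) × (Fin (N + 1) → ℝ) => g z.1) 2 (ext1 f f' π) := by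
    intro g hg
    rw [← hE1] at hg
    exact (memLp_map_measure_iff hg.aestronglyMeasurable measurable_fst.aemeasurable).1 hg
  have m2 : ∀ {g : (Fin (N + 1) → ℝ) → ℝ}, MemLp g 2 (lawN f') →
      MemLp (fun z : (Fin (N + 1) → ℝ) × (Fin (N + 1) → ℝ) => g z.2) 2 (ext1 f f' π) := by
    intro g hg
    rw [← hE2] at hg
    exact (memLp_map_measure_iff hg.aestronglyMeasurable measurable_snd.aemeasurable).1 hg
  have hF : Integrable (fun z : (Fin (N + 1) → ℝ) × (Fin (N + 1) → ℝ) =>
      (z.2 j.castSucc - z.1 j.castSucc) *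
        (D k.castSucc z.1 / f z.1 - D' k.castSucc z.2 / f' z.2)) (ext1 f f' π) :=
    ((m2 (good_l2 h' j.castSucc).1).sub (m1 (good_l2 h j.castSucc).1)).integrable_mul
      ((m1 (good_l2 h k.castSucc).2).sub (m2 (good_l2 h' k.castSucc).2))
  rw [ext1_integral h h' h1 h1' hπ hF]
  have a1 := sk_ae h h1 k
  have a2 := sk_ae h' h1' k
  rw [← hπ.fst] at a1
  rw [← hπ.snd] at a2
  have b1 := ae_of_ae_map measurable_fst.aemeasurable a1
  have b2 := ae_of_ae_map measurable_snd.aemeasurable a2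
  refine integral_congr_ae ?_
  filter_upwards [b1, b2] with p hp1 hp2
  have e : ∀ u : ℝ, ((lastq f' (p.2, u)) j.castSucc - (lastq f (p.1, u)) j.castSucc) *
        (D k.castSucc (lastq f (p.1, u)) / f (lastq f (p.1, u)) -
          D' k.castSucc (lastq f' (p.2, u)) / f' (lastq f' (p.2, u))) =
      (p.2 j - p.1 j) * (D k.castSucc (lastq f (p.1, u)) / f (lastq f (p.1, u)) -
          D' k.castSucc (lastq f' (p.2, u)) / f' (lastq f' (p.2, u))) := by
    intro u
    have e1 : (lastq f (p.1, u)) j.castSucc = p.1 j := by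
      unfold lastq
      rw [Fin.snoc_castSucc]
    have e2 : (lastq f' (p.2, u)) j.castSucc = p.2 j := by
      unfold lastq
      rw [Fin.snoc_castSucc]
    rw [e1, e2]
  calc ∫ u, ((lastq f' (p.2, u)) j.castSucc - (lastq f (p.1, u)) j.castSucc) *
        (D k.castSucc (lastq f (p.1, u)) / f (lastq f (p.1, u)) -
          D' k.castSucc (lastq f' (p.2, u)) / f' (lastq f' (p.2, u))) ∂uni
      = ∫ u, (p.2 j - p.1 j) * (D k.castSucc (lastq f (p.1, u)) / f (lastq f (p.1, u)) -
          D' k.castSucc (lastq f' (p.2, u)) / f' (lastq f' (p.2, u))) ∂uni :=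
        integral_congr_ae (Filter.Eventually.of_forall e)
    _ = (p.2 j - p.1 j) * ∫ u, (D k.castSucc (lastq f (p.1, u)) / f (lastq f (p.1, u)) -
          D' k.castSucc (lastq f' (p.2, u)) / f' (lastq f' (p.2, u))) ∂uni :=
        integral_const_mul _ _
    _ = (p.2 j - p.1 j) * (marg (D k.castSucc) p.1 / marg f p.1 -
        marg (D' k.castSucc) p.2 / marg f' p.2) := by
        rw [integral_sub hp1.1 hp2.1, hp1.2, hp2.2]

end QG
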