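import Mathlib
import Pool.Agent.Lib_helper69.QG.Defs
import Pool.Agent.Lib_helper69.QG.W.sj

set_option autoImplicit false

namespace QG

open MeasureTheory

/-- products of coordinates and scores are integrable under a coupling -/
theorem sl_int {N : ℕ} {f f' : (Fin N → ℝ) → ℝ} {D D' : Fin N → (Fin N → ℝ) → ℝ}
    {ρ : Measure ((Fin N → ℝ) × (Fin N → ℝ))} (h : Good f D) (h' : Good f' D')
    (h1 : ρ.map Prod.fst = lawN f) (h2 : ρ.map Prod.snd = lawN f') (j k : Fin N) :
    Integrable (fun z : (Fin N → ℝ) × (Fin N → ℝ) => (z.2 j - z.1 j) *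
      (D k z.1 / f z.1 - D' k z.2 / f' z.2)) ρ := by
  have a1 : MemLp (fun z : (Fin N → ℝ) × (Fin N → ℝ) => z.1 j) 2 ρ := by
    have h3 := (good_l2 h j).1
    rw [← h1] at h3
    exact (memLp_map_measure_iff h3.1 measurable_fst.aemeasurable).1 h3
  have a2 : MemLp (fun z : (Fin N → ℝ) × (Fin N → ℝ) => z.2 j) 2 ρ := by
    have h3 := (good_l2 h' j).1
    rw [← h2] at h3
    exact (memLp_map_measure_iff h3.1 measurable_snd.aemeasurable).1 h3
  have a3 : MemLp (fun z : (Fin N → ℝ) × (Fin N → ℝ) => D k z.1 / f z.1) 2 ρ := by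
    have h3 := (good_l2 h k).2
    rw [← h1] at h3
    exact (memLp_map_measure_iff h3.1 measurable_fst.aemeasurable).1 h3
  have a4 : MemLp (fun z : (Fin N → ℝ) × (Fin N → ℝ) => D' k z.2 / f' z.2) 2 ρ := by
    have h3 := (good_l2 h' k).2
    rw [← h2] at h3
    exact (memLp_map_measure_iff h3.1 measurable_snd.aemeasurable).1 h3
  exact (a2.sub a1).integrable_mul (a3.sub a4)

/-- for almost every past the score is integrable in the noise -/
theorem sl_score {N : ℕ} {f : (Fin (N + 1) → ℝ) → ℝ} {D : Fin (N + 1) → (Fin (N + 1) → ℝ) → ℝ}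
    (h : Good f D) (h1 : ∫ x, f x = 1) : ∀ᵐ x ∂lawN (marg f),
      Integrable (fun u => D (Fin.last N) (lastq f (x, u)) / f (lastq f (x, u))) uni := by
  have hg := marg_good h
  have hp : IsProbabilityMeasure (lawN (marg f)) := lawN_prob hg.pos hg.cont (marg_one h h1)
  have hpf : IsProbabilityMeasure (lawN f) := lawN_prob h.pos h.cont h1
  have h2 : Integrable (fun x => D (Fin.last N) x / f x) (lawN f) :=
    (good_l2 h (Fin.last N)).2.integrable one_le_two
  rw [← lastq_map h h1] at h2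
  have h3 := (integrable_map_measure h2.1 (lastq_meas h).aemeasurable).1 h2
  exact h3.prod_right_ae

/-- last coordinate -/
theorem ext1_new {N : ℕ} {f f' : (Fin (N + 1) → ℝ) → ℝ} {D D' : Fin (N + 1) → (Fin (N + 1) → ℝ) → ℝ}
    {m : ℕ} {π : Measure ((Fin N → ℝ) × (Fin N → ℝ))}
    (h : Good f D) (h' : Good f' D') (h1 : ∫ x, f x = 1) (h1' : ∫ x, f' x = 1)
    (hπ : Seq m (marg f) (marg f') (fun k => marg (D k.castSucc)) (fun k => marg (D' k.castSucc)) π) :
    (∫ z, (z.2 (Fin.last N) - z.1 (Fin.last N)) *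
        (D (Fin.last N) z.1 / f z.1 - D' (Fin.last N) z.2 / f' z.2) ∂ext1 f f' π ≤ 0) ∧
      ∀ j : Fin N, ∫ z, (z.2 j.castSucc - z.1 j.castSucc) *
        (D (Fin.last N) z.1 / f z.1 - D' (Fin.last N) z.2 / f' z.2) ∂ext1 f f' π = 0 := by
  obtain ⟨hprob, hm1, hm2⟩ := ext1_marg h h' h1 h1' hπ
  constructor
  · rw [ext1_integral h h' h1 h1' hπ (sl_int h h' hm1 hm2 (Fin.last N) (Fin.last N))]
    obtain ⟨S, S', hS, hS', hS0, hS0', hkey⟩ := score_key h h'
    apply integral_nonpos_of_ae
    have e1 : ∀ᵐ p ∂π, p.1 ∈ S := by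
      have e2 : ∀ᵐ x ∂(π.map Prod.fst), x ∈ S := by
        rw [hπ.fst]
        exact hS0
      exact ae_of_ae_map measurable_fst.aemeasurable e2
    have e1' : ∀ᵐ p ∂π, p.2 ∈ S' := by
      have e2 : ∀ᵐ x ∂(π.map Prod.snd), x ∈ S' := by
        rw [hπ.snd]
        exact hS0'
      exact ae_of_ae_map measurable_snd.aemeasurable e2
    filter_upwards [e1, e1'] with p hp hp'
    exact hkey p.1 hp p.2 hp'
  · intro j
    rw [ext1_integral h h' h1 h1' hπ (sl_int h h' hm1 hm2 j.castSucc (Fin.last N))]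
    have e1 : ∀ᵐ p ∂π, Integrable (fun u => D (Fin.last N) (lastq f (p.1, u)) /
        f (lastq f (p.1, u))) uni := by
      have e2 := sl_score h h1
      rw [← hπ.fst] at e2
      exact ae_of_ae_map measurable_fst.aemeasurable e2
    have e1' : ∀ᵐ p ∂π, Integrable (fun u => D' (Fin.last N) (lastq f' (p.2, u)) /
        f' (lastq f' (p.2, u))) uni := by
      have e2 := sl_score h' h1'
      rw [← hπ.snd] at e2
      exact ae_of_ae_map measurable_snd.aemeasurable e2
    have e3 : ∀ᵐ p ∂π, ∫ u, D (Fin.last N) (lastq f (p.1, u)) / f (lastq f (p.1, u)) ∂uni = 0 := by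
      have e2 := score_last h
      rw [← hπ.fst] at e2
      exact ae_of_ae_map measurable_fst.aemeasurable e2
    have e3' : ∀ᵐ p ∂π, ∫ u, D' (Fin.last N) (lastq f' (p.2, u)) /
        f' (lastq f' (p.2, u)) ∂uni = 0 := by
      have e2 := score_last h'
      rw [← hπ.snd] at e2
      exact ae_of_ae_map measurable_snd.aemeasurable e2
    have e4 : (fun p : (Fin N → ℝ) × (Fin N → ℝ) => ∫ u,
        (lastq f' (p.2, u) j.castSucc - lastq f (p.1, u) j.castSucc) *
        (D (Fin.last N) (lastq f (p.1, u)) / f (lastq f (p.1, u)) -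
          D' (Fin.last N) (lastq f' (p.2, u)) / f' (lastq f' (p.2, u))) ∂uni) =ᵐ[π]
        fun _ => 0 := by
      filter_upwards [e1, e1', e3, e3'] with p k1 k2 k3 k4
      have e5 : ∀ u, (lastq f' (p.2, u) j.castSucc - lastq f (p.1, u) j.castSucc) *
          (D (Fin.last N) (lastq f (p.1, u)) / f (lastq f (p.1, u)) -
            D' (Fin.last N) (lastq f' (p.2, u)) / f' (lastq f' (p.2, u))) =
          (p.2 j - p.1 j) * (D (Fin.last N) (lastq f (p.1, u)) / f (lastq f (p.1, u)) -
            D' (Fin.last N) (lastq f' (p.2, u)) / f' (lastq f' (p.2, u))) := by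
        intro u
        have e6 : lastq f' (p.2, u) j.castSucc = p.2 j := by
          unfold lastq
          rw [Fin.snoc_castSucc]
        have e7 : lastq f (p.1, u) j.castSucc = p.1 j := by
          unfold lastq
          rw [Fin.snoc_castSucc]
        rw [e6, e7]
      simp only [e5]
      rw [integral_const_mul, integral_sub k1 k2, k3, k4, sub_zero, mul_zero]
    rw [integral_congr_ae e4, integral_zero]

end QG
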