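import Mathlib
import Pool.Agent.Lib_helper69.QG.Defs
import Pool.Agent.Lib_helper69.QG.W.se
import Pool.Agent.Lib_helper69.QG.W.si
import Pool.Agent.Lib_helper69.QG.W.sj
import Pool.Agent.Lib_helper69.QG.W.sk
import Pool.Agent.Lib_helper69.QG.W.sl

set_option autoImplicit false

namespace QG

open MeasureTheory

/-- the sequential coupling exists -/
theorem seq_exists (N : ℕ) {f f' : (Fin N → ℝ) → ℝ} {D D' : Fin N → (Fin N → ℝ) → ℝ}
    (h : Good f D) (h' : Good f' D') (h1 : ∫ x, f x = 1) (h1' : ∫ x, f' x = 1) (m : ℕ) :
    ∃ π, Seq m f f' D D' π := by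
  induction N with
  | zero => exact ⟨_, seq_base h h' h1 h1' m (Nat.zero_le m)⟩
  | succ N ih =>
    by_cases hm : N + 1 ≤ m
    · exact ⟨_, seq_base h h' h1 h1' m hm⟩
    · have hmN : m ≤ N := by omega
      obtain ⟨π, hπ⟩ := ih (marg_good h) (marg_good h') (marg_one h h1) (marg_one h' h1')
      obtain ⟨a1, a2, a3⟩ := ext1_marg h h' h1 h1' hπ
      obtain ⟨b1, b2⟩ := ext1_new h h' h1 h1' hπ
      refine ⟨ext1 f f' π, a1, a2, a3, ?_, ?_, ?_⟩
      · intro k hk
        induction k using Fin.lastCases with
        | last => exact b1
        | cast k =>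
          rw [ext1_old h h' h1 h1' hπ k k]
          exact hπ.key k hk
      · intro k j hk hj
        induction k using Fin.lastCases with
        | last =>
          induction j using Fin.lastCases with
          | last => exact absurd hj (lt_irrefl _)
          | cast j => exact b2 j
        | cast k =>
          induction j using Fin.lastCases with
          | last => exact absurd hj (not_lt.2 (Fin.le_last _))
          | cast j =>
            rw [ext1_old h h' h1 h1' hπ k j]
            exact hπ.zero k j hk (Fin.castSucc_lt_castSucc_iff.1 hj)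
      · intro U W hU hW hUb hWb hUm
        exact ext1_indep h h' h1 h1' hπ hmN U W hU hW hUb hWb hUm

end QG
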