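import Mathlib
import Pool.Agent.Lib_helper69.QG.Defs
import Pool.Agent.Lib_helper69.QG.Field
import Pool.Agent.Lib_helper69.QG.W.fa
import Pool.Agent.Lib_helper69.QG.W.fc
import Pool.Agent.Lib_helper69.QG.W.fd
import Pool.Agent.Lib_helper69.QG.W.fe
import Pool.Agent.Lib_helper69.QG.W.fg
import Pool.Agent.Lib_helper69.QG.W.sz

set_option autoImplicit false

namespace QG

open MeasureTheory

variable {A B : Type} [Fintype A] [DecidableEq A] [Fintype B] {w : (Fin 4 → ℝ) → ℝ}
  {G : Fin 4 → (Fin 4 → ℝ) → ℝ} {C : ℝ} {c : B → Fin 4 → A} {p : A} {R : ℝ}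

theorem fh_quot {a b : ℝ} (hb : 0 < b) : a * b / b = a := by
  field_simp

theorem fseq_exists (hw : Cell w G C) (hN : Net c p R) (l : A → ℝ) (lev : A → ℕ) (m : ℕ) :
    ∃ π, FSeq w G c p l lev m π := by
  obtain ⟨N, e, m', hord, hm⟩ := order_exists p lev m
  obtain ⟨g0, i0, l0⟩ := fld_good hw hN (0 : A → ℝ) e
  obtain ⟨g1, i1, l1⟩ := fld_good hw hN l e
  obtain ⟨π0, hs⟩ := seq_exists N g0 g1 i0 i1 m'
  have hemb := up_emb (p := p) e
  have hT : MeasurableEmbedding (Prod.map (up e) (up e)) := hemb.prodMap hemb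
  have hb := up_basic (p := p) e
  have hcoord : ∀ (y : A) (hy : y ≠ p) (x : Fin N → ℝ), up e x y = x (e.symm ⟨y, hy⟩) := by
    intro y hy x
    have := hb.2.1 x (e.symm ⟨y, hy⟩)
    rwa [Equiv.apply_symm_apply] at this
  have hpr := hs.prob
  have hquo : ∀ (y : A) (hy : y ≠ p) (z : (Fin N → ℝ) × (Fin N → ℝ)),
      (((0 : A → ℝ) (e (e.symm ⟨y, hy⟩)) - Fo G c (up e z.1) (e (e.symm ⟨y, hy⟩))) *
        (wt w c 0 (up e z.1) / Zt w c p 0)) / (wt w c 0 (up e z.1) / Zt w c p 0) -
      ((l (e (e.symm ⟨y, hy⟩)) - Fo G c (up e z.2) (e (e.symm ⟨y, hy⟩))) *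
        (wt w c l (up e z.2) / Zt w c p l)) / (wt w c l (up e z.2) / Zt w c p l)
      = Fo G c (up e z.2) y - Fo G c (up e z.1) y - l y := by
    intro y hy z
    rw [fh_quot (g0.pos z.1), fh_quot (g1.pos z.2), Equiv.apply_symm_apply, Pi.zero_apply]
    ring
  refine ⟨π0.map (Prod.map (up e) (up e)), ?_⟩
  constructor
  · exact Measure.isProbabilityMeasure_map hT.measurable.aemeasurable
  · rw [Measure.map_map measurable_fst hT.measurable]
    have h1 : (Prod.fst : (A → ℝ) × (A → ℝ) → (A → ℝ)) ∘ Prod.map (up e) (up e)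
        = up e ∘ Prod.fst := rfl
    rw [h1, ← Measure.map_map hemb.measurable measurable_fst, hs.fst, l0]
  · rw [Measure.map_map measurable_snd hT.measurable]
    have h1 : (Prod.snd : (A → ℝ) × (A → ℝ) → (A → ℝ)) ∘ Prod.map (up e) (up e)
        = up e ∘ Prod.snd := rfl
    rw [h1, ← Measure.map_map hemb.measurable measurable_snd, hs.snd, l1]
  · intro y hy hlev
    have hk : m' ≤ ((e.symm ⟨y, hy⟩ : Fin N) : ℕ) := by
      rw [hm, Equiv.apply_symm_apply]
      exact hlev
    rw [hT.integral_map]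
    have h1 := hs.key (e.symm ⟨y, hy⟩) hk
    refine le_trans (le_of_eq ?_) h1
    congr 1
    funext z
    rw [hquo y hy z]
    simp only [Prod.map_fst, Prod.map_snd]
    rw [hcoord y hy, hcoord y hy]
  · intro y x hy hlev hlt
    rw [hT.integral_map]
    by_cases hx : x = p
    · have h0 : ∀ z : (Fin N → ℝ) × (Fin N → ℝ),
          ((Prod.map (up e) (up e) z).2 x - (Prod.map (up e) (up e) z).1 x) *
            (Fo G c (Prod.map (up e) (up e) z).2 y - Fo G c (Prod.map (up e) (up e) z).1 y - l y)
            = 0 := by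
        intro z
        simp only [Prod.map_fst, Prod.map_snd]
        rw [hx, hb.1, hb.1]
        ring
      simp only [h0, integral_zero]
    · have hk : m' ≤ ((e.symm ⟨y, hy⟩ : Fin N) : ℕ) := by
        rw [hm, Equiv.apply_symm_apply]
        exact hlev
      have hjk : e.symm ⟨x, hx⟩ < e.symm ⟨y, hy⟩ := by
        rcases lt_trichotomy (e.symm ⟨x, hx⟩) (e.symm ⟨y, hy⟩) with h | h | h
        · exact h
        · exfalso
          have h2 := e.symm.injective h
          have h3 : x = y := congrArg Subtype.val h2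
          rw [h3] at hlt
          exact lt_irrefl _ hlt
        · exfalso
          have h2 := hord _ _ h
          rw [Equiv.apply_symm_apply, Equiv.apply_symm_apply] at h2
          exact absurd hlt (not_lt.mpr h2)
      have h1 := hs.zero (e.symm ⟨y, hy⟩) (e.symm ⟨x, hx⟩) hk hjk
      refine Eq.trans ?_ h1
      congr 1
      funext z
      rw [hquo y hy z]
      simp only [Prod.map_fst, Prod.map_snd]
      rw [hcoord x hx, hcoord x hx]
  · intro U W hU hW hUb hWb hdep
    rw [hT.integral_map, ← l0, ← l1, hemb.integral_map, hemb.integral_map]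
    have h1 := hs.indep (fun x => U (up e x)) (fun x => W (up e x)) (hU.comp hemb.measurable)
      (hW.comp hemb.measurable) (by
        obtain ⟨K, hK⟩ := hUb
        exact ⟨K, fun x => hK _⟩) (by
        obtain ⟨K, hK⟩ := hWb
        exact ⟨K, fun x => hK _⟩) (by
        intro x y hxy
        apply hdep
        intro s hsl
        by_cases hsp : s = p
        · rw [hsp, hb.1, hb.1]
        · rw [hcoord s hsp, hcoord s hsp]
          apply hxy
          by_contra hcon
          push Not at hcon
          rw [hm, Equiv.apply_symm_apply] at hcon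
          exact absurd hsl (not_le.mpr hcon))
    exact h1

end QG
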