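import Mathlib
import Pool.Agent.Lib_helper69.QG.Defs
import Pool.Agent.Lib_helper69.QG.Field
import Pool.Agent.Lib_helper69.QG.W.fe
import Pool.Agent.Lib_helper69.QG.W.fh
import Pool.Agent.Lib_helper69.QG.W.fi

set_option autoImplicit false

namespace QG

open MeasureTheory

variable {A B : Type} [Fintype A] [DecidableEq A] [Fintype B] {w : (Fin 4 → ℝ) → ℝ}
  {G : Fin 4 → (Fin 4 → ℝ) → ℝ} {C : ℝ} {c : B → Fin 4 → A} {p : A} {R : ℝ}

/-- measurable functions of at most exponential growth -/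
def fj_Gr {A : Type} [Fintype A] (F : (A → ℝ) × (A → ℝ) → ℝ) : Prop :=
  Measurable F ∧ ∃ K : ℝ, 0 ≤ K ∧ ∀ z, |F z| ≤ K * Real.exp (K * (∑ y, |z.1 y| + ∑ y, |z.2 y|))

theorem fj_S_nonneg {A : Type} [Fintype A] (z : (A → ℝ) × (A → ℝ)) :
    0 ≤ ∑ y, |z.1 y| + ∑ y, |z.2 y| :=
  add_nonneg (Finset.sum_nonneg fun _ _ => abs_nonneg _) (Finset.sum_nonneg fun _ _ => abs_nonneg _)

theorem fj_Gr.const {A : Type} [Fintype A] (r : ℝ) :
    fj_Gr (fun _ : (A → ℝ) × (A → ℝ) => r) := by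
  refine ⟨measurable_const, |r|, abs_nonneg r, fun z => ?_⟩
  have h := Real.one_le_exp (mul_nonneg (abs_nonneg r) (fj_S_nonneg z))
  have h2 := mul_le_mul_of_nonneg_left h (abs_nonneg r)
  linarith

theorem fj_Gr.dom {A : Type} [Fintype A] {F H : (A → ℝ) × (A → ℝ) → ℝ} (hF : Measurable F)
    (hH : fj_Gr H) (h : ∀ z, |F z| ≤ |H z|) : fj_Gr F := by
  obtain ⟨_, K, hK, h2⟩ := hH
  exact ⟨hF, K, hK, fun z => (h z).trans (h2 z)⟩

theorem fj_Gr.c1 {A : Type} [Fintype A] (y : A) :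
    fj_Gr (fun z : (A → ℝ) × (A → ℝ) => z.1 y) := by
  refine ⟨(measurable_pi_apply y).comp measurable_fst, 1, zero_le_one, fun z => ?_⟩
  have h1 : |z.1 y| ≤ ∑ y, |z.1 y| :=
    Finset.single_le_sum (f := fun y => |z.1 y|) (fun _ _ => abs_nonneg _) (Finset.mem_univ y)
  have h2 : 0 ≤ ∑ y, |z.2 y| := Finset.sum_nonneg fun _ _ => abs_nonneg _
  have h3 := Real.add_one_le_exp (∑ y, |z.1 y| + ∑ y, |z.2 y|)
  simp only [one_mul]
  linarith

theorem fj_Gr.c2 {A : Type} [Fintype A] (y : A) :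
    fj_Gr (fun z : (A → ℝ) × (A → ℝ) => z.2 y) := by
  refine ⟨(measurable_pi_apply y).comp measurable_snd, 1, zero_le_one, fun z => ?_⟩
  have h1 : |z.2 y| ≤ ∑ y, |z.2 y| :=
    Finset.single_le_sum (f := fun y => |z.2 y|) (fun _ _ => abs_nonneg _) (Finset.mem_univ y)
  have h2 : 0 ≤ ∑ y, |z.1 y| := Finset.sum_nonneg fun _ _ => abs_nonneg _
  have h3 := Real.add_one_le_exp (∑ y, |z.1 y| + ∑ y, |z.2 y|)
  simp only [one_mul]
  linarith

theorem fj_Gr.add {A : Type} [Fintype A] {F H : (A → ℝ) × (A → ℝ) → ℝ} (hF : fj_Gr F)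
    (hH : fj_Gr H) : fj_Gr (fun z => F z + H z) := by
  obtain ⟨m1, K, hK, h1⟩ := hF
  obtain ⟨m2, L, hL, h2⟩ := hH
  refine ⟨m1.add m2, K + L, add_nonneg hK hL, fun z => ?_⟩
  have hS := fj_S_nonneg z
  have e1 : Real.exp (K * (∑ y, |z.1 y| + ∑ y, |z.2 y|)) ≤
      Real.exp ((K + L) * (∑ y, |z.1 y| + ∑ y, |z.2 y|)) :=
    Real.exp_le_exp.2 (by nlinarith [mul_nonneg hL hS])
  have e2 : Real.exp (L * (∑ y, |z.1 y| + ∑ y, |z.2 y|)) ≤
      Real.exp ((K + L) * (∑ y, |z.1 y| + ∑ y, |z.2 y|)) :=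
    Real.exp_le_exp.2 (by nlinarith [mul_nonneg hK hS])
  calc |F z + H z| ≤ |F z| + |H z| := abs_add_le _ _
    _ ≤ K * Real.exp (K * (∑ y, |z.1 y| + ∑ y, |z.2 y|)) +
        L * Real.exp (L * (∑ y, |z.1 y| + ∑ y, |z.2 y|)) := add_le_add (h1 z) (h2 z)
    _ ≤ K * Real.exp ((K + L) * (∑ y, |z.1 y| + ∑ y, |z.2 y|)) +
        L * Real.exp ((K + L) * (∑ y, |z.1 y| + ∑ y, |z.2 y|)) :=
        add_le_add (mul_le_mul_of_nonneg_left e1 hK) (mul_le_mul_of_nonneg_left e2 hL)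
    _ = (K + L) * Real.exp ((K + L) * (∑ y, |z.1 y| + ∑ y, |z.2 y|)) := by ring

theorem fj_Gr.mul {A : Type} [Fintype A] {F H : (A → ℝ) × (A → ℝ) → ℝ} (hF : fj_Gr F)
    (hH : fj_Gr H) : fj_Gr (fun z => F z * H z) := by
  obtain ⟨m1, K, hK, h1⟩ := hF
  obtain ⟨m2, L, hL, h2⟩ := hH
  refine ⟨m1.mul m2, K + L + K * L, by positivity, fun z => ?_⟩
  have hS := fj_S_nonneg z
  set S := ∑ y, |z.1 y| + ∑ y, |z.2 y| with hSd
  have e1 : Real.exp (K * S + L * S) ≤ Real.exp ((K + L + K * L) * S) :=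
    Real.exp_le_exp.2 (by nlinarith [mul_nonneg (mul_nonneg hK hL) hS])
  calc |F z * H z| = |F z| * |H z| := abs_mul _ _
    _ ≤ (K * Real.exp (K * S)) * (L * Real.exp (L * S)) :=
        mul_le_mul (h1 z) (h2 z) (abs_nonneg _) (by positivity)
    _ = (K * L) * Real.exp (K * S + L * S) := by rw [Real.exp_add]; ring
    _ ≤ (K * L) * Real.exp ((K + L + K * L) * S) :=
        mul_le_mul_of_nonneg_left e1 (mul_nonneg hK hL)
    _ ≤ (K + L + K * L) * Real.exp ((K + L + K * L) * S) :=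
        mul_le_mul_of_nonneg_right (by linarith) (Real.exp_pos _).le

theorem fj_Gr.neg {A : Type} [Fintype A] {F : (A → ℝ) × (A → ℝ) → ℝ} (hF : fj_Gr F) :
    fj_Gr (fun z => -F z) := by
  obtain ⟨m1, K, hK, h1⟩ := hF
  exact ⟨m1.neg, K, hK, fun z => by rw [abs_neg]; exact h1 z⟩

theorem fj_Gr.sub {A : Type} [Fintype A] {F H : (A → ℝ) × (A → ℝ) → ℝ} (hF : fj_Gr F)
    (hH : fj_Gr H) : fj_Gr (fun z => F z - H z) := by
  have h := hF.add hH.neg
  simpa [sub_eq_add_neg] using h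

theorem fj_Gr.sum {A ι : Type} [Fintype A] (s : Finset ι) {F : ι → (A → ℝ) × (A → ℝ) → ℝ}
    (hF : ∀ i ∈ s, fj_Gr (F i)) : fj_Gr (fun z => ∑ i ∈ s, F i z) := by
  classical
  induction s using Finset.induction_on with
  | empty => simpa using fj_Gr.const (A := A) 0
  | insert i s hi ih =>
    have h := (hF i (Finset.mem_insert_self _ _)).add
      (ih fun j hj => hF j (Finset.mem_insert_of_mem hj))
    simpa [Finset.sum_insert hi] using h

theorem fj_Gr.pow {A : Type} [Fintype A] {F : (A → ℝ) × (A → ℝ) → ℝ} (hF : fj_Gr F) (n : ℕ) :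
    fj_Gr (fun z => F z ^ n) := by
  induction n with
  | zero => simpa using fj_Gr.const (A := A) 1
  | succ n ih => simpa [pow_succ] using ih.mul hF

theorem fj_Gr.q1 {A B : Type} [Fintype A] (c : B → Fin 4 → A) (v : B) :
    fj_Gr (fun z : (A → ℝ) × (A → ℝ) => q (loc c z.1 v)) := by
  unfold q loc
  exact fj_Gr.sum _ fun i _ => fj_Gr.sum _ fun j _ =>
    ((fj_Gr.c1 (c v i)).sub (fj_Gr.c1 (c v j))).pow 2

theorem fj_Gr.q2 {A B : Type} [Fintype A] (c : B → Fin 4 → A) (v : B) :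
    fj_Gr (fun z : (A → ℝ) × (A → ℝ) => q (loc c z.2 v)) := by
  unfold q loc
  exact fj_Gr.sum _ fun i _ => fj_Gr.sum _ fun j _ =>
    ((fj_Gr.c2 (c v i)).sub (fj_Gr.c2 (c v j))).pow 2


theorem fj_meas_loc {A B : Type} [Fintype A] (c : B → Fin 4 → A) (v : B) :
    Measurable fun a : A → ℝ => loc c a v := by
  unfold loc
  exact measurable_pi_lambda _ fun i => measurable_pi_apply (c v i)

theorem fj_G1 {A B : Type} [Fintype A] {w : (Fin 4 → ℝ) → ℝ}
    {G : Fin 4 → (Fin 4 → ℝ) → ℝ} {C : ℝ} (hw : Cell w G C) (c : B → Fin 4 → A) (v : B)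
    (i : Fin 4) : fj_Gr (fun z : (A → ℝ) × (A → ℝ) => G i (loc c z.1 v)) := by
  refine fj_Gr.dom (H := fun z => C * (1 + q (loc c z.1 v)) ^ 2) ?_ ?_ fun z => ?_
  · exact (hw.contG i).measurable.comp ((fj_meas_loc c v).comp measurable_fst)
  · exact (fj_Gr.const C).mul (((fj_Gr.const 1).add (fj_Gr.q1 c v)).pow 2)
  · exact (hw.grow i _).trans (le_abs_self _)

theorem fj_G2 {A B : Type} [Fintype A] {w : (Fin 4 → ℝ) → ℝ}
    {G : Fin 4 → (Fin 4 → ℝ) → ℝ} {C : ℝ} (hw : Cell w G C) (c : B → Fin 4 → A) (v : B)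
    (i : Fin 4) : fj_Gr (fun z : (A → ℝ) × (A → ℝ) => G i (loc c z.2 v)) := by
  refine fj_Gr.dom (H := fun z => C * (1 + q (loc c z.2 v)) ^ 2) ?_ ?_ fun z => ?_
  · exact (hw.contG i).measurable.comp ((fj_meas_loc c v).comp measurable_snd)
  · exact (fj_Gr.const C).mul (((fj_Gr.const 1).add (fj_Gr.q2 c v)).pow 2)
  · exact (hw.grow i _).trans (le_abs_self _)

theorem fj_Gr.integrable (hw : Cell w G C) (hN : Net c p R) {l : A → ℝ}
    {π : Measure ((A → ℝ) × (A → ℝ))} (hπ : Cpl w c p l π) {F : (A → ℝ) × (A → ℝ) → ℝ}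
    (hF : fj_Gr F) : Integrable F π := by
  obtain ⟨m, K, _, h⟩ := hF
  exact cpl_int hw hN hπ m ⟨K, h⟩

/-- summation of the forces over the sites -/
theorem sum_Fo (a a' f : A → ℝ) :
    ∑ y, f y * (Fo G c a' y - Fo G c a y) =
      ∑ v, ∑ i, f (c v i) * (G i (loc c a' v) - G i (loc c a v)) := by
  have key : ∀ b : A → ℝ, ∑ y, f y * Fo G c b y = ∑ v, ∑ i, f (c v i) * G i (loc c b v) := by
    intro b
    unfold Fo
    simp_rw [Finset.mul_sum]
    rw [Finset.sum_comm]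
    refine Finset.sum_congr rfl fun v _ => ?_
    rw [Finset.sum_comm]
    refine Finset.sum_congr rfl fun i _ => ?_
    simp
  simp_rw [mul_sub, Finset.sum_sub_distrib]
  rw [key a', key a]

theorem fj_F1 (hw : Cell w G C) (c : B → Fin 4 → A) (y : A) :
    fj_Gr (fun z : (A → ℝ) × (A → ℝ) => Fo G c z.1 y) := by
  unfold Fo
  refine fj_Gr.sum _ fun v _ => fj_Gr.sum _ fun i _ => ?_
  by_cases h : c v i = y
  · simpa [h] using fj_G1 (A := A) hw c v i
  · simpa [h] using fj_Gr.const (A := A) 0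

theorem fj_F2 (hw : Cell w G C) (c : B → Fin 4 → A) (y : A) :
    fj_Gr (fun z : (A → ℝ) × (A → ℝ) => Fo G c z.2 y) := by
  unfold Fo
  refine fj_Gr.sum _ fun v _ => fj_Gr.sum _ fun i _ => ?_
  by_cases h : c v i = y
  · simpa [h] using fj_G2 (A := A) hw c v i
  · simpa [h] using fj_Gr.const (A := A) 0

theorem fj_DD (hw : Cell w G C) (c : B → Fin 4 → A) :
    fj_Gr (fun z : (A → ℝ) × (A → ℝ) => ∑ v, DD G (loc c z.1 v) (loc c z.2 v)) := by
  unfold DD
  refine fj_Gr.sum _ fun v _ => fj_Gr.sum _ fun i _ => ?_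
  exact ((fj_Gr.c2 (c v i)).sub (fj_Gr.c1 (c v i))).mul ((fj_G2 hw c v i).sub (fj_G1 hw c v i))

/-- the total tilt estimate -/
theorem tilt_energy (hw : Cell w G C) (hN : Net c p R) (l : A → ℝ) :
    ∃ π, Cpl w c p l π ∧ Integrable (fun z => ∑ v, DD G (loc c z.1 v) (loc c z.2 v)) π ∧
      ∫ z, ∑ v, DD G (loc c z.1 v) (loc c z.2 v) ∂π ≤ ∫ z, dot l (z.2 - z.1) ∂π ∧
      ∫ z, dot l (z.2 - z.1) ∂π = ∫ a, dot l a ∂mu w c p l := by
  obtain ⟨π, hπ⟩ := fseq_exists hw hN l (fun _ => 0) 1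
  have hC : Cpl w c p l π := ⟨hπ.prob, hπ.fst, hπ.snd⟩
  have hi := (fj_DD (A := A) hw c).integrable hw hN hC
  refine ⟨π, hC, hi, ?_, ?_⟩
  · have hz1 : ∀ᵐ z ∂π, z.1 p = 0 := by
      have h := mu_p w c p 0
      rw [← hπ.fst] at h
      exact ae_of_ae_map measurable_fst.aemeasurable h
    have hz2 : ∀ᵐ z ∂π, z.2 p = 0 := by
      have h := mu_p w c p l
      rw [← hπ.snd] at h
      exact ae_of_ae_map measurable_snd.aemeasurable h
    have hg : ∀ y : A, fj_Gr (fun z : (A → ℝ) × (A → ℝ) =>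
        (z.2 y - z.1 y) * (Fo G c z.2 y - Fo G c z.1 y - l y)) := fun y =>
      ((fj_Gr.c2 y).sub (fj_Gr.c1 y)).mul
        (((fj_F2 hw c y).sub (fj_F1 hw c y)).sub (fj_Gr.const (l y)))
    have hterm : ∀ y : A,
        ∫ z, (z.2 y - z.1 y) * (Fo G c z.2 y - Fo G c z.1 y - l y) ∂π ≤ 0 := by
      intro y
      by_cases hy : y = p
      · subst hy
        have : ∫ z, (z.2 y - z.1 y) * (Fo G c z.2 y - Fo G c z.1 y - l y) ∂π = 0 := by
          rw [← integral_zero ((A → ℝ) × (A → ℝ)) ℝ (μ := π)]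
          refine integral_congr_ae ?_
          filter_upwards [hz1, hz2] with z h1 h2
          rw [h1, h2]; ring
        exact this.le
      · exact hπ.key y hy (by simp)
    have hsum : ∫ z, ∑ y, (z.2 y - z.1 y) * (Fo G c z.2 y - Fo G c z.1 y - l y) ∂π ≤ 0 := by
      rw [integral_finsetSum _ fun y _ => (hg y).integrable hw hN hC]
      exact Finset.sum_nonpos fun y _ => hterm y
    have hpt : ∀ z : (A → ℝ) × (A → ℝ),
        ∑ y, (z.2 y - z.1 y) * (Fo G c z.2 y - Fo G c z.1 y - l y) =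
          ∑ v, DD G (loc c z.1 v) (loc c z.2 v) - dot l (z.2 - z.1) := by
      intro z
      have h1 := sum_Fo (G := G) (c := c) z.1 z.2 (fun y => z.2 y - z.1 y)
      have h2 : ∑ v, DD G (loc c z.1 v) (loc c z.2 v) =
          ∑ v, ∑ i, (z.2 (c v i) - z.1 (c v i)) * (G i (loc c z.2 v) - G i (loc c z.1 v)) := rfl
      rw [h2, ← h1]
      unfold dot
      rw [← Finset.sum_sub_distrib]
      refine Finset.sum_congr rfl fun y _ => ?_
      simp only [Pi.sub_apply]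
      ring
    have hd : fj_Gr (fun z : (A → ℝ) × (A → ℝ) => dot l (z.2 - z.1)) := by
      unfold dot
      refine fj_Gr.sum _ fun y _ => (fj_Gr.const (l y)).mul ?_
      simpa using (fj_Gr.c2 (A := A) y).sub (fj_Gr.c1 y)
    simp_rw [hpt] at hsum
    rw [integral_sub hi (hd.integrable hw hN hC)] at hsum
    linarith
  · have hd1 : fj_Gr (fun z : (A → ℝ) × (A → ℝ) => dot l z.1) := by
      unfold dot
      exact fj_Gr.sum _ fun y _ => (fj_Gr.const (l y)).mul (fj_Gr.c1 y)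
    have hd2 : fj_Gr (fun z : (A → ℝ) × (A → ℝ) => dot l z.2) := by
      unfold dot
      exact fj_Gr.sum _ fun y _ => (fj_Gr.const (l y)).mul (fj_Gr.c2 y)
    have hmeas : Measurable fun a : A → ℝ => dot l a := by
      unfold dot
      exact Finset.measurable_sum _ fun y _ => measurable_const.mul (measurable_pi_apply y)
    have hpt : ∀ z : (A → ℝ) × (A → ℝ), dot l (z.2 - z.1) = dot l z.2 - dot l z.1 := by
      intro z
      unfold dot
      rw [← Finset.sum_sub_distrib]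
      refine Finset.sum_congr rfl fun y _ => ?_
      simp only [Pi.sub_apply]
      ring
    simp_rw [hpt]
    rw [integral_sub (hd2.integrable hw hN hC) (hd1.integrable hw hN hC)]
    have e := cpl_fst hC hmeas
    rw [e.1, e.2]
    have e0 : ∫ a, dot l a ∂mu w c p 0 = 0 := by
      refine mu_odd hw hN hmeas fun a => ?_
      unfold dot
      rw [← Finset.sum_neg_distrib]
      refine Finset.sum_congr rfl fun y _ => ?_
      simp
    rw [e0, sub_zero]

end QG
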