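import Mathlib
import Pool.Agent.Lib_helper69.QG.Defs
import Pool.Agent.Lib_helper69.QG.Field
import Pool.Agent.Lib_helper69.QG.W.fe
import Pool.Agent.Lib_helper69.QG.W.fi

set_option autoImplicit false

namespace QG

open MeasureTheory

variable {A B : Type} [Fintype A] [DecidableEq A] [Fintype B] {w : (Fin 4 → ℝ) → ℝ}
  {G : Fin 4 → (Fin 4 → ℝ) → ℝ} {C : ℝ} {c : B → Fin 4 → A} {p : A} {R : ℝ}

omit [DecidableEq A] in
theorem fk_dot_abs (l a : A → ℝ) : |dot l a| ≤ (∑ y, |l y|) * ∑ y, |a y| := by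
  unfold dot
  calc |∑ y, l y * a y| ≤ ∑ y, |l y * a y| := Finset.abs_sum_le_sum_abs _ _
    _ = ∑ y, |l y| * |a y| := by simp only [abs_mul]
    _ ≤ ∑ y, |l y| * ∑ x, |a x| := by
        refine Finset.sum_le_sum fun y _ => mul_le_mul_of_nonneg_left ?_ (abs_nonneg _)
        exact Finset.single_le_sum (f := fun x => |a x|) (fun x _ => abs_nonneg _)
          (Finset.mem_univ y)
    _ = (∑ y, |l y|) * ∑ y, |a y| := by rw [Finset.sum_mul]

omit [DecidableEq A] in
theorem fk_wt (w : (Fin 4 → ℝ) → ℝ) (c : B → Fin 4 → A) (l a : A → ℝ) :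
    wt w c l a = wt w c 0 a * Real.exp (dot l a) := by
  have h0 : dot (0 : A → ℝ) a = 0 := by simp [dot]
  unfold wt
  rw [h0, Real.exp_zero, mul_one]

/-- change of the tilt and Jensen's inequality -/
theorem tilt_jensen (hw : Cell w G C) (hN : Net c p R) (l : A → ℝ) :
    ∫ a, Real.exp (dot l a) ∂mu w c p 0 ≤ Real.exp (∫ a, dot l a ∂mu w c p l) := by
  have hpl := mu_prob hw hN l
  have hp0 := mu_prob hw hN (0 : A → ℝ)
  have hmeas : Measurable (fun a : A → ℝ => dot l a) := by
    unfold dot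
    exact Finset.measurable_sum _ (fun y _ =>
      Measurable.const_mul (f := fun a : A → ℝ => a y) (measurable_pi_apply y) (l y))
  have hK1 : (1 : ℝ) ≤ (∑ y, |l y|) + 1 := by
    have : 0 ≤ ∑ y, |l y| := Finset.sum_nonneg fun y _ => abs_nonneg _
    linarith
  have hint1 : Integrable (fun a => dot l a) (mu w c p l) := by
    refine mu_int hw hN l hmeas ⟨(∑ y, |l y|) + 1, fun a => ?_⟩
    have h1 := fk_dot_abs l a
    have hS : 0 ≤ ∑ y, |a y| := Finset.sum_nonneg fun y _ => abs_nonneg _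
    have hL : 0 ≤ ∑ y, |l y| := Finset.sum_nonneg fun y _ => abs_nonneg _
    have h2 : ∑ y, |a y| ≤ Real.exp (((∑ y, |l y|) + 1) * ∑ y, |a y|) := by
      have h3 : ∑ y, |a y| ≤ ((∑ y, |l y|) + 1) * ∑ y, |a y| := by nlinarith
      have h4 := Real.add_one_le_exp (((∑ y, |l y|) + 1) * ∑ y, |a y|)
      linarith
    calc |dot l a| ≤ (∑ y, |l y|) * ∑ y, |a y| := h1
      _ ≤ ((∑ y, |l y|) + 1) * ∑ y, |a y| := by nlinarith
      _ ≤ ((∑ y, |l y|) + 1) * Real.exp (((∑ y, |l y|) + 1) * ∑ y, |a y|) :=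
          mul_le_mul_of_nonneg_left h2 (by linarith)
  have hint2 : Integrable (fun a => Real.exp (-dot l a)) (mu w c p l) := by
    refine mu_int hw hN l (Real.measurable_exp.comp hmeas.neg) ⟨(∑ y, |l y|) + 1, fun a => ?_⟩
    have h1 := fk_dot_abs l a
    have hS : 0 ≤ ∑ y, |a y| := Finset.sum_nonneg fun y _ => abs_nonneg _
    rw [abs_of_pos (Real.exp_pos _)]
    have h2 : -dot l a ≤ ((∑ y, |l y|) + 1) * ∑ y, |a y| := by
      have := neg_abs_le (dot l a)
      nlinarith
    calc Real.exp (-dot l a) ≤ Real.exp (((∑ y, |l y|) + 1) * ∑ y, |a y|) :=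
          Real.exp_le_exp.2 h2
      _ ≤ ((∑ y, |l y|) + 1) * Real.exp (((∑ y, |l y|) + 1) * ∑ y, |a y|) :=
          le_mul_of_one_le_left (Real.exp_pos _).le hK1
  set m : ℝ := ∫ a, dot l a ∂mu w c p l with hm
  -- Jensen
  have hJ : Real.exp (-m) ≤ ∫ a, Real.exp (-dot l a) ∂mu w c p l := by
    have h1 : ∫ a, Real.exp (-m) * (1 + (-dot l a + m)) ∂mu w c p l ≤
        ∫ a, Real.exp (-dot l a) ∂mu w c p l := by
      refine integral_mono ?_ hint2 (fun a => ?_)
      · exact ((integrable_const _).add ((hint1.neg).add (integrable_const _))).const_mul _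
      · have h2 := Real.add_one_le_exp (-dot l a + m)
        have h3 : Real.exp (-dot l a) = Real.exp (-m) * Real.exp (-dot l a + m) := by
          rw [← Real.exp_add]
          congr 1
          ring
        show Real.exp (-m) * (1 + (-dot l a + m)) ≤ Real.exp (-dot l a)
        rw [h3]
        exact mul_le_mul_of_nonneg_left (by linarith) (Real.exp_pos _).le
    have h4 : ∫ a, Real.exp (-m) * (1 + (-dot l a + m)) ∂mu w c p l = Real.exp (-m) := by
      have e1 : ∫ a, (1 + (-dot l a + m)) ∂mu w c p l =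
          (∫ _a : A → ℝ, (1 : ℝ) ∂mu w c p l) + ∫ a, (-dot l a + m) ∂mu w c p l :=
        integral_add (integrable_const _) (hint1.neg.add (integrable_const _))
      have e2 : ∫ a, (-dot l a + m) ∂mu w c p l =
          (∫ a, -dot l a ∂mu w c p l) + ∫ _a : A → ℝ, m ∂mu w c p l :=
        integral_add hint1.neg (integrable_const _)
      have e3 : ∫ a, -dot l a ∂mu w c p l = -m := integral_neg _
      rw [integral_const_mul, e1, e2, e3, integral_const, integral_const]
      simp
    rw [h4] at h1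
    exact h1
  -- change of the tilt
  have h0 : ∫ a, Real.exp (dot l a) ∂mu w c p 0 = Zt w c p l / Zt w c p 0 := by
    rw [(mu_integral hw hN 0 _).1]
    unfold Zt
    rw [← integral_div]
    refine integral_congr_ae (Filter.Eventually.of_forall fun a => ?_)
    show Real.exp (dot l a) * (wt w c 0 a / ∫ a, wt w c 0 a ∂bs p) =
      wt w c l a / ∫ a, wt w c 0 a ∂bs p
    rw [fk_wt w c l a]
    ring
  have hl : ∫ a, Real.exp (-dot l a) ∂mu w c p l = Zt w c p 0 / Zt w c p l := by
    rw [(mu_integral hw hN l _).1]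
    unfold Zt
    rw [← integral_div]
    refine integral_congr_ae (Filter.Eventually.of_forall fun a => ?_)
    show Real.exp (-dot l a) * (wt w c l a / ∫ a, wt w c l a ∂bs p) =
      wt w c 0 a / ∫ a, wt w c l a ∂bs p
    rw [fk_wt w c l a, Real.exp_neg]
    have := (Real.exp_pos (dot l a)).ne'
    field_simp
  rw [h0]
  rw [hl] at hJ
  have hpos : 0 < Zt w c p 0 / Zt w c p l := lt_of_lt_of_le (Real.exp_pos _) hJ
  have h5 : Zt w c p l / Zt w c p 0 = (Zt w c p 0 / Zt w c p l)⁻¹ := by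
    rw [inv_div]
  rw [h5, inv_le_comm₀ hpos (Real.exp_pos _), ← Real.exp_neg]
  exact hJ

end QG
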