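import Mathlib
import Pool.Agent.Lib_helper69.QG.Defs
import Pool.Agent.Lib_helper69.QG.Field
import Pool.Agent.Lib_helper69.QG.W.fe
import Pool.Agent.Lib_helper69.QG.W.fi
import Pool.Agent.Lib_helper69.QG.W.fj
import Pool.Agent.Lib_helper69.QG.W.fk

set_option autoImplicit false

namespace QG

open MeasureTheory

variable {A B : Type} [Fintype A] [DecidableEq A] [Fintype B] {w : (Fin 4 → ℝ) → ℝ}
  {G : Fin 4 → (Fin 4 → ℝ) → ℝ} {C : ℝ} {c : B → Fin 4 → A} {p : A} {R : ℝ}

/-- the energy of a cell bounds each difference -/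
theorem fl_q_ge (t : Fin 4 → ℝ) (i j : Fin 4) : 2 * (t i - t j) ^ 2 ≤ q t := by
  unfold q
  fin_cases i <;> fin_cases j <;> simp [Fin.sum_univ_four] <;>
    nlinarith [sq_nonneg (t 0 - t 1), sq_nonneg (t 0 - t 2), sq_nonneg (t 0 - t 3),
      sq_nonneg (t 1 - t 2), sq_nonneg (t 1 - t 3), sq_nonneg (t 2 - t 3)]

theorem fl_q_nonneg (t : Fin 4 → ℝ) : 0 ≤ q t := by
  unfold q
  exact Finset.sum_nonneg fun i _ => Finset.sum_nonneg fun j _ => sq_nonneg _

theorem fl_DD_nonneg (hw : Cell w G C) (t t' : Fin 4 → ℝ) : 0 ≤ DD G t t' := by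
  have h := hw.quar t t'
  have h1 := hw.one_le
  have h2 : 0 ≤ C * DD G t t' := le_trans (sq_nonneg _) h
  exact nonneg_of_mul_nonneg_right h2 (by linarith)

/-- the tilt in the direction of an edge -/
noncomputable def fl_edge (c : B → Fin 4 → A) (v : B) (i j : Fin 4) (s : ℝ) : A → ℝ :=
  fun y => s ^ 3 * ((if y = c v i then 1 else 0) - (if y = c v j then 1 else 0))

omit [Fintype B] in
theorem fl_dot_edge (c : B → Fin 4 → A) (v : B) (i j : Fin 4) (s : ℝ) (a : A → ℝ) :
    dot (fl_edge c v i j s) a = s ^ 3 * (a (c v i) - a (c v j)) := by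
  unfold dot fl_edge
  simp only [mul_assoc, ← Finset.mul_sum, sub_mul, ite_mul, one_mul, zero_mul,
    Finset.sum_sub_distrib, Finset.sum_ite_eq', Finset.mem_univ, if_true]

omit [DecidableEq A] in
theorem fl_abs_le_sum (a : A → ℝ) (x : A) : |a x| ≤ ∑ y, |a y| :=
  Finset.single_le_sum (f := fun y => |a y|) (fun _ _ => abs_nonneg _) (Finset.mem_univ x)

/-- exponential moments of the gradient -/
theorem edge_mgf (hw : Cell w G C) (hN : Net c p R) (v : B) (i j : Fin 4) {s : ℝ} (hs : 0 ≤ s) :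
    ∫ a, Real.exp (s ^ 3 * (a (c v i) - a (c v j))) ∂mu w c p 0 ≤ Real.exp (C * s ^ 4) := by
  have h1 := hw.one_le
  have hC : 0 < C := by linarith
  set l : A → ℝ := fl_edge c v i j s with hl
  have hdot : ∀ a, dot l a = s ^ 3 * (a (c v i) - a (c v j)) := fl_dot_edge c v i j s
  have hJ := tilt_jensen hw hN l
  simp only [hdot] at hJ
  refine hJ.trans (Real.exp_le_exp.2 ?_)
  obtain ⟨π, hπ, hint, hle, heq⟩ := tilt_energy hw hN l
  simp only [hdot] at hle heq
  set Y : ℝ := ∫ a, s ^ 3 * (a (c v i) - a (c v j)) ∂mu w c p l with hY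
  have hs4 : 0 ≤ C * s ^ 4 := by positivity
  rcases le_or_gt Y 0 with hY0 | hY0
  · linarith
  have := hπ.prob
  set X : (A → ℝ) × (A → ℝ) → ℝ := fun z => (z.2 - z.1) (c v i) - (z.2 - z.1) (c v j) with hX
  have hXint : Integrable X π := by
    apply cpl_int hw hN hπ
    · have : X = fun z => (z.2 (c v i) - z.1 (c v i)) - (z.2 (c v j) - z.1 (c v j)) := by
        funext z; simp [hX]
      rw [this]
      fun_prop
    · refine ⟨2, fun z => ?_⟩
      have ha := fl_abs_le_sum z.1 (c v i)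
      have hb := fl_abs_le_sum z.1 (c v j)
      have hc := fl_abs_le_sum z.2 (c v i)
      have hd := fl_abs_le_sum z.2 (c v j)
      set S := ∑ y, |z.1 y| + ∑ y, |z.2 y| with hS
      have hS0 : 0 ≤ S := by
        rw [hS]
        exact add_nonneg (Finset.sum_nonneg fun _ _ => abs_nonneg _)
          (Finset.sum_nonneg fun _ _ => abs_nonneg _)
      have h2 : |X z| ≤ 2 * S := by
        have : X z = (z.2 (c v i) - z.1 (c v i)) - (z.2 (c v j) - z.1 (c v j)) := by simp [hX]
        rw [this, abs_le]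
        constructor
        · linarith [abs_le.1 ha, abs_le.1 hb, abs_le.1 hc, abs_le.1 hd,
            (abs_le.1 ha).1, (abs_le.1 hb).1, (abs_le.1 hc).1, (abs_le.1 hd).1,
            (abs_le.1 ha).2, (abs_le.1 hb).2, (abs_le.1 hc).2, (abs_le.1 hd).2]
        · linarith [abs_le.1 ha, abs_le.1 hb, abs_le.1 hc, abs_le.1 hd,
            (abs_le.1 ha).1, (abs_le.1 hb).1, (abs_le.1 hc).1, (abs_le.1 hd).1,
            (abs_le.1 ha).2, (abs_le.1 hb).2, (abs_le.1 hc).2, (abs_le.1 hd).2]
      have h3 : S ≤ Real.exp (2 * S) := by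
        have := Real.add_one_le_exp (2 * S)
        linarith
      linarith
  set D : (A → ℝ) × (A → ℝ) → ℝ := fun z => ∑ v, DD G (loc c z.1 v) (loc c z.2 v) with hD
  have hpt : ∀ z, 4 * X z ^ 4 ≤ C * D z := by
    intro z
    have ha := hw.quar (loc c z.1 v) (loc c z.2 v)
    have hb := fl_q_ge (fun i => loc c z.2 v i - loc c z.1 v i) i j
    have hc : loc c z.2 v i - loc c z.1 v i - (loc c z.2 v j - loc c z.1 v j) = X z := by
      simp [loc, hX]
    simp only [hc] at hb
    have hd : DD G (loc c z.1 v) (loc c z.2 v) ≤ D z :=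
      Finset.single_le_sum (f := fun v => DD G (loc c z.1 v) (loc c z.2 v))
        (fun v _ => fl_DD_nonneg hw _ _) (Finset.mem_univ v)
    have he : (2 * X z ^ 2) ^ 2 ≤ q (fun i => loc c z.2 v i - loc c z.1 v i) ^ 2 :=
      pow_le_pow_left₀ (by positivity) hb 2
    have hf : C * DD G (loc c z.1 v) (loc c z.2 v) ≤ C * D z :=
      mul_le_mul_of_nonneg_left hd hC.le
    calc 4 * X z ^ 4 = (2 * X z ^ 2) ^ 2 := by ring
      _ ≤ _ := he
      _ ≤ _ := ha
      _ ≤ _ := hf
  -- the mean of `X`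
  set m : ℝ := ∫ z, X z ∂π with hm
  have hYm : Y = s ^ 3 * m := by
    rw [← heq, hm, ← integral_const_mul]
  have hpt2 : ∀ z, 4 * (m ^ 4 + 4 * m ^ 3 * (X z - m)) ≤ C * D z := by
    intro z
    refine le_trans ?_ (hpt z)
    nlinarith [mul_nonneg (sq_nonneg (X z - m)) (add_nonneg (sq_nonneg (X z + m)) (mul_nonneg (by norm_num : (0:ℝ) ≤ 2) (sq_nonneg m))), sq_nonneg ((X z - m) * (X z + m)), sq_nonneg ((X z - m) * m)]
  have hI : ∫ z, 4 * (m ^ 4 + 4 * m ^ 3 * (X z - m)) ∂π = 4 * m ^ 4 := by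
    have e : (fun z => 4 * (m ^ 4 + 4 * m ^ 3 * (X z - m))) =
        fun z => (16 * m ^ 3) * X z + (4 * m ^ 4 - 16 * m ^ 4) := by
      funext z; ring
    rw [e, integral_add (hXint.const_mul _) (integrable_const _), integral_const_mul, ← hm]
    simp
    ring
  have hI2 : ∫ z, C * D z ∂π ≤ C * Y := by
    rw [integral_const_mul]
    apply mul_le_mul_of_nonneg_left _ hC.le
    calc ∫ z, D z ∂π ≤ _ := hle
      _ = Y := heq
  have hmain : 4 * m ^ 4 ≤ C * Y := by
    rw [← hI]
    refine le_trans (integral_mono ?_ (hint.const_mul _) hpt2) hI2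
    have e : (fun z => 4 * (m ^ 4 + 4 * m ^ 3 * (X z - m))) =
        fun z => (16 * m ^ 3) * X z + (4 * m ^ 4 - 16 * m ^ 4) := by
      funext z; ring
    rw [e]
    exact (hXint.const_mul _).add (integrable_const _)
  have hY4 : 4 * Y ^ 4 ≤ s ^ 12 * (C * Y) := by
    calc 4 * Y ^ 4 = s ^ 12 * (4 * m ^ 4) := by rw [hYm]; ring
      _ ≤ _ := mul_le_mul_of_nonneg_left hmain (by positivity)
  have hY3 : 4 * Y ^ 3 ≤ s ^ 12 * C := by
    have : 4 * Y ^ 3 * Y ≤ s ^ 12 * C * Y := by nlinarith [hY4]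
    exact le_of_mul_le_mul_right this hY0
  have hC3 : C ≤ C ^ 3 := by nlinarith [mul_self_nonneg (C - 1), sq_nonneg (C), mul_pos hC hC]
  have hfin : Y ^ 3 ≤ (C * s ^ 4) ^ 3 := by
    have hs12 : 0 ≤ s ^ 12 := by positivity
    have : (C * s ^ 4) ^ 3 = s ^ 12 * C ^ 3 := by ring
    rw [this]
    have h5 : s ^ 12 * C ≤ s ^ 12 * C ^ 3 := mul_le_mul_of_nonneg_left hC3 hs12
    have h6 : 0 ≤ Y ^ 3 := by positivity
    linarith
  exact le_of_pow_le_pow_left₀ (by norm_num) hs4 hfin

/-- the tail of the local energy -/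
theorem q_tail (hw : Cell w G C) (hN : Net c p R) (v : B) {s : ℝ} (hs : 0 ≤ s) :
    (mu w c p 0).real {a | s ≤ q (loc c a v)} ≤ 12 * Real.exp (-(s ^ 2 / (2304 * C ^ 3))) := by
  have h1 := hw.one_le
  have hC : 0 < C := by linarith
  have := mu_prob hw hN (0 : A → ℝ)
  set r : ℝ := Real.sqrt (s / 12) with hr
  have hr0 : 0 ≤ r := Real.sqrt_nonneg _
  have hr2 : r ^ 2 = s / 12 := Real.sq_sqrt (by positivity)
  set u : ℝ := r / (2 * C) with hu
  have hu0 : 0 ≤ u := by positivity
  -- one pair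
  have hone : ∀ i j : Fin 4, (mu w c p 0).real {a | r ≤ a (c v i) - a (c v j)} ≤
      Real.exp (-(s ^ 2 / (2304 * C ^ 3))) := by
    intro i j
    have hint : Integrable (fun a : A → ℝ => Real.exp (u ^ 3 * (a (c v i) - a (c v j)))) (mu w c p 0) := by
      apply mu_int hw hN
      · fun_prop
      · refine ⟨2 * u ^ 3 + 1, fun a => ?_⟩
        have ha := fl_abs_le_sum a (c v i)
        have hb := fl_abs_le_sum a (c v j)
        set S := ∑ y, |a y| with hS
        have hS0 : 0 ≤ S := Finset.sum_nonneg fun _ _ => abs_nonneg _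
        rw [abs_of_pos (Real.exp_pos _)]
        have h3 : a (c v i) - a (c v j) ≤ 2 * S := by
          linarith [(abs_le.1 ha).2, (abs_le.1 hb).1]
        have h4 : u ^ 3 * (a (c v i) - a (c v j)) ≤ (2 * u ^ 3 + 1) * S := by
          have : u ^ 3 * (a (c v i) - a (c v j)) ≤ u ^ 3 * (2 * S) :=
            mul_le_mul_of_nonneg_left h3 (by positivity)
          nlinarith
        have h5 : (1 : ℝ) ≤ 2 * u ^ 3 + 1 := by
          have : 0 ≤ u ^ 3 := by positivity
          linarith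
        calc Real.exp (u ^ 3 * (a (c v i) - a (c v j))) ≤ Real.exp ((2 * u ^ 3 + 1) * S) :=
              Real.exp_le_exp.2 h4
          _ = 1 * Real.exp ((2 * u ^ 3 + 1) * S) := (one_mul _).symm
          _ ≤ (2 * u ^ 3 + 1) * Real.exp ((2 * u ^ 3 + 1) * S) :=
              mul_le_mul_of_nonneg_right h5 (Real.exp_pos _).le
    have hM := ProbabilityTheory.measure_ge_le_exp_mul_mgf (μ := mu w c p 0)
      (X := fun a : A → ℝ => a (c v i) - a (c v j)) (t := u ^ 3) r (by positivity) hint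
    refine hM.trans ?_
    have hmgf : ProbabilityTheory.mgf (fun a : A → ℝ => a (c v i) - a (c v j)) (mu w c p 0) (u ^ 3) ≤
        Real.exp (C * u ^ 4) := edge_mgf hw hN v i j hu0
    calc Real.exp (-u ^ 3 * r) * ProbabilityTheory.mgf (fun a : A → ℝ => a (c v i) - a (c v j))
          (mu w c p 0) (u ^ 3) ≤ Real.exp (-u ^ 3 * r) * Real.exp (C * u ^ 4) :=
          mul_le_mul_of_nonneg_left hmgf (Real.exp_pos _).le
      _ = Real.exp (-u ^ 3 * r + C * u ^ 4) := (Real.exp_add _ _).symm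
      _ ≤ _ := by
          apply Real.exp_le_exp.2
          have e : -u ^ 3 * r + C * u ^ 4 = -((r ^ 2) ^ 2 / (16 * C ^ 3)) := by
            rw [hu]; field_simp; ring
          rw [e, hr2]
          apply le_of_eq
          field_simp
          ring
  -- the union
  have hsub : {a : A → ℝ | s ≤ q (loc c a v)} ⊆
      ⋃ x ∈ (Finset.univ : Finset (Fin 4)).offDiag, {a : A → ℝ | r ≤ a (c v x.1) - a (c v x.2)} := by
    intro a ha
    by_contra hcon
    simp only [Set.mem_iUnion, Set.mem_ofPred_eq, not_exists, not_le] at hcon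
    have hlt : ∀ i j : Fin 4, i ≠ j → (loc c a v i - loc c a v j) ^ 2 < s / 12 := by
      intro i j hij
      have e1 := hcon (i, j) (by simp [hij])
      have e2 := hcon (j, i) (by simp [Ne.symm hij])
      simp only at e1 e2
      rw [← hr2]
      have : |loc c a v i - loc c a v j| < r := by
        rw [abs_lt]
        constructor
        · simp only [loc]; linarith
        · simp only [loc]; linarith
      have h3 : |loc c a v i - loc c a v j| ^ 2 < r ^ 2 := by
        exact pow_lt_pow_left₀ this (abs_nonneg _) (by norm_num)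
      rwa [sq_abs] at h3
    have ha' : s ≤ q (loc c a v) := ha
    set t := loc c a v with ht
    have hq : q t = 2 * ((t 0 - t 1) ^ 2 + (t 0 - t 2) ^ 2 + (t 0 - t 3) ^ 2 + (t 1 - t 2) ^ 2 +
        (t 1 - t 3) ^ 2 + (t 2 - t 3) ^ 2) := by
      unfold q
      simp [Fin.sum_univ_four]
      ring
    rw [hq] at ha'
    linarith [hlt 0 1 (by decide), hlt 0 2 (by decide), hlt 0 3 (by decide), hlt 1 2 (by decide),
      hlt 1 3 (by decide), hlt 2 3 (by decide)]
  calc (mu w c p 0).real {a | s ≤ q (loc c a v)}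
      ≤ (mu w c p 0).real (⋃ x ∈ (Finset.univ : Finset (Fin 4)).offDiag,
          {a : A → ℝ | r ≤ a (c v x.1) - a (c v x.2)}) := measureReal_mono hsub (measure_ne_top _ _)
    _ ≤ ∑ x ∈ (Finset.univ : Finset (Fin 4)).offDiag,
          (mu w c p 0).real {a : A → ℝ | r ≤ a (c v x.1) - a (c v x.2)} :=
        measureReal_biUnion_finset_le _ _
    _ ≤ ∑ x ∈ (Finset.univ : Finset (Fin 4)).offDiag, Real.exp (-(s ^ 2 / (2304 * C ^ 3))) :=
        Finset.sum_le_sum fun x _ => hone x.1 x.2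
    _ = 12 * Real.exp (-(s ^ 2 / (2304 * C ^ 3))) := by
        rw [Finset.sum_const, nsmul_eq_mul, Finset.offDiag_card]
        norm_num

end QG
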