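import Mathlib
import Pool.Agent.Lib_helper69.QG.Defs
import Pool.Agent.Lib_helper69.QG.Field
import Pool.Agent.Lib_helper69.QG.W.fe
import Pool.Agent.Lib_helper69.QG.W.fl

set_option autoImplicit false

namespace QG

open MeasureTheory

theorem fm_pow (x : ℝ) : (x ^ 2) ^ 8 ≤ (Nat.factorial 16 : ℝ) * (Real.exp x + Real.exp (-x)) := by
  have h1 : (x ^ 2) ^ 8 = |x| ^ 16 := by
    rw [← sq_abs]; ring
  have h2 : |x| ^ 16 / (Nat.factorial 16 : ℝ) ≤ Real.exp |x| :=
    Real.pow_div_factorial_le_exp |x| (abs_nonneg x) 16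
  have h3 : Real.exp |x| ≤ Real.exp x + Real.exp (-x) := by
    rcases abs_choice x with h | h
    · rw [h]
      have := Real.exp_pos (-x)
      linarith
    · rw [h]
      have := Real.exp_pos x
      linarith
  have hf : (0 : ℝ) < (Nat.factorial 16 : ℝ) := by exact_mod_cast Nat.factorial_pos 16
  rw [h1]
  rw [div_le_iff₀ hf] at h2
  calc |x| ^ 16 ≤ Real.exp |x| * (Nat.factorial 16 : ℝ) := h2
    _ ≤ (Real.exp x + Real.exp (-x)) * (Nat.factorial 16 : ℝ) :=
      mul_le_mul_of_nonneg_right h3 hf.le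
    _ = _ := mul_comm _ _

theorem fm_q (t : Fin 4 → ℝ) :
    (1 + q t) ^ 8 ≤ 2 ^ 7 * (1 + 16 ^ 7 * ∑ z : Fin 4 × Fin 4, ((t z.1 - t z.2) ^ 2) ^ 8) := by
  have hq : q t = ∑ z : Fin 4 × Fin 4, (t z.1 - t z.2) ^ 2 := by
    unfold q
    rw [← Finset.univ_product_univ, Finset.sum_product]
  have hq0 : 0 ≤ q t := by
    rw [hq]
    exact Finset.sum_nonneg (fun z _ => sq_nonneg _)
  have h1 : (q t) ^ 8 ≤ 16 ^ 7 * ∑ z : Fin 4 × Fin 4, ((t z.1 - t z.2) ^ 2) ^ 8 := by
    have h := pow_sum_div_card_le_sum_pow (s := (Finset.univ : Finset (Fin 4 × Fin 4)))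
      (f := fun z => (t z.1 - t z.2) ^ 2) (fun z _ => sq_nonneg _) 7
    rw [← hq] at h
    have hc : ((Finset.univ : Finset (Fin 4 × Fin 4)).card : ℝ) = 16 := by
      simp
    rw [hc, div_le_iff₀ (by norm_num)] at h
    calc (q t) ^ 8 = q t ^ (7 + 1) := rfl
      _ ≤ (∑ i : Fin 4 × Fin 4, ((t i.1 - t i.2) ^ 2) ^ (7 + 1)) * 16 ^ 7 := h
      _ = 16 ^ 7 * ∑ z : Fin 4 × Fin 4, ((t z.1 - t z.2) ^ 2) ^ 8 := mul_comm _ _
  have h2 : (1 + q t) ^ 8 ≤ 2 ^ 7 * (1 ^ 8 + q t ^ 8) := add_pow_le zero_le_one hq0 8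
  rw [one_pow] at h2
  linarith

theorem fm_bound (t : Fin 4 → ℝ) :
    (1 + q t) ^ 8 ≤ 2 ^ 7 * (1 + 16 ^ 7 * ∑ z : Fin 4 × Fin 4,
      (Nat.factorial 16 : ℝ) * (Real.exp (t z.1 - t z.2) + Real.exp (t z.2 - t z.1))) := by
  refine le_trans (fm_q t) ?_
  have h : ∑ z : Fin 4 × Fin 4, ((t z.1 - t z.2) ^ 2) ^ 8 ≤ ∑ z : Fin 4 × Fin 4,
      (Nat.factorial 16 : ℝ) * (Real.exp (t z.1 - t z.2) + Real.exp (t z.2 - t z.1)) := by
    refine Finset.sum_le_sum ?_
    intro z _
    have h1 := fm_pow (t z.1 - t z.2)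
    rw [neg_sub] at h1
    exact h1
  linarith

/-- moments of the local energy, uniformly in the network -/
theorem q_moment {w : (Fin 4 → ℝ) → ℝ} {G : Fin 4 → (Fin 4 → ℝ) → ℝ} {C : ℝ} (hw : Cell w G C) :
    ∃ K : ℝ, 1 ≤ K ∧ ∀ {A B : Type} [Fintype A] [DecidableEq A] [Fintype B] {c : B → Fin 4 → A}
      {p : A} {R : ℝ}, Net c p R → ∀ v : B, ∫ a, (1 + q (loc c a v)) ^ 8 ∂mu w c p 0 ≤ K := by
  have hexp : 0 < Real.exp C := Real.exp_pos C
  have hf : (1 : ℝ) ≤ (Nat.factorial 16 : ℝ) := by exact_mod_cast Nat.factorial_pos 16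
  refine ⟨2 ^ 7 * (1 + 16 ^ 7 * (16 * ((Nat.factorial 16 : ℝ) * (Real.exp C + Real.exp C)))), ?_, ?_⟩
  · have h0 : 0 ≤ (16 : ℝ) ^ 7 * (16 * ((Nat.factorial 16 : ℝ) * (Real.exp C + Real.exp C))) := by
      positivity
    linarith
  intro A B _ _ _ c p R hN v
  have := mu_prob hw hN (0 : A → ℝ)
  have hsum : ∀ (a : A → ℝ) (x : A), |a x| ≤ ∑ y, |a y| := fun a x =>
    Finset.single_le_sum (f := fun y => |a y|) (fun y _ => abs_nonneg _) (Finset.mem_univ x)
  have hint : ∀ i j : Fin 4, Integrable (fun a : A → ℝ => Real.exp (a (c v i) - a (c v j)))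
      (mu w c p 0) := by
    intro i j
    refine mu_int hw hN 0 ?_ ⟨2, ?_⟩
    · exact Real.measurable_exp.comp ((measurable_pi_apply _).sub (measurable_pi_apply _))
    · intro a
      rw [abs_of_pos (Real.exp_pos _)]
      have h1 := le_abs_self (a (c v i))
      have h2 := neg_abs_le (a (c v j))
      have h3 := hsum a (c v i)
      have h4 := hsum a (c v j)
      have h5 : Real.exp (a (c v i) - a (c v j)) ≤ Real.exp (2 * ∑ y, |a y|) :=
        Real.exp_le_exp.2 (by linarith)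
      have h6 := Real.exp_pos (2 * ∑ y, |a y|)
      linarith
  have hmgf : ∀ i j : Fin 4, ∫ a : A → ℝ, Real.exp (a (c v i) - a (c v j)) ∂mu w c p 0
      ≤ Real.exp C := by
    intro i j
    have h := edge_mgf hw hN v i j (s := 1) zero_le_one
    simpa using h
  have hint2 : Integrable (fun a : A → ℝ => 2 ^ 7 * (1 + 16 ^ 7 * ∑ z : Fin 4 × Fin 4,
      (Nat.factorial 16 : ℝ) * (Real.exp (a (c v z.1) - a (c v z.2)) +
        Real.exp (a (c v z.2) - a (c v z.1))))) (mu w c p 0) := by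
    refine Integrable.const_mul ?_ _
    refine (integrable_const _).add ?_
    refine Integrable.const_mul ?_ _
    refine integrable_finsetSum _ ?_
    intro z _
    exact ((hint z.1 z.2).add (hint z.2 z.1)).const_mul _
  calc ∫ a, (1 + q (loc c a v)) ^ 8 ∂mu w c p 0
      ≤ ∫ a : A → ℝ, 2 ^ 7 * (1 + 16 ^ 7 * ∑ z : Fin 4 × Fin 4,
        (Nat.factorial 16 : ℝ) * (Real.exp (a (c v z.1) - a (c v z.2)) +
          Real.exp (a (c v z.2) - a (c v z.1)))) ∂mu w c p 0 := by
        refine integral_mono_of_nonneg ?_ hint2 ?_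
        · refine Filter.Eventually.of_forall ?_
          intro a
          have : Even 8 := by decide
          exact this.pow_nonneg _
        · refine Filter.Eventually.of_forall ?_
          intro a
          exact fm_bound (loc c a v)
    _ = 2 ^ 7 * (1 + 16 ^ 7 * ∑ z : Fin 4 × Fin 4, (Nat.factorial 16 : ℝ) *
        (∫ a : A → ℝ, Real.exp (a (c v z.1) - a (c v z.2)) ∂mu w c p 0 +
          ∫ a : A → ℝ, Real.exp (a (c v z.2) - a (c v z.1)) ∂mu w c p 0)) := by
        rw [integral_const_mul, integral_add (integrable_const _), integral_const_mul,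
          integral_finsetSum]
        · congr 1
          congr 1
          · simp
          · congr 1
            refine Finset.sum_congr rfl ?_
            intro z _
            rw [integral_const_mul, integral_add (hint z.1 z.2) (hint z.2 z.1)]
        · intro z _
          exact ((hint z.1 z.2).add (hint z.2 z.1)).const_mul _
        · refine Integrable.const_mul ?_ _
          refine integrable_finsetSum _ ?_
          intro z _
          exact ((hint z.1 z.2).add (hint z.2 z.1)).const_mul _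
    _ ≤ 2 ^ 7 * (1 + 16 ^ 7 * (16 * ((Nat.factorial 16 : ℝ) * (Real.exp C + Real.exp C)))) := by
        have h : ∑ z : Fin 4 × Fin 4, (Nat.factorial 16 : ℝ) *
            (∫ a : A → ℝ, Real.exp (a (c v z.1) - a (c v z.2)) ∂mu w c p 0 +
              ∫ a : A → ℝ, Real.exp (a (c v z.2) - a (c v z.1)) ∂mu w c p 0)
            ≤ ∑ _z : Fin 4 × Fin 4, (Nat.factorial 16 : ℝ) * (Real.exp C + Real.exp C) := by
          refine Finset.sum_le_sum ?_
          intro z _
          refine mul_le_mul_of_nonneg_left ?_ (by linarith)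
          exact add_le_add (hmgf z.1 z.2) (hmgf z.2 z.1)
        have h2 : ∑ _z : Fin 4 × Fin 4, (Nat.factorial 16 : ℝ) * (Real.exp C + Real.exp C)
            = 16 * ((Nat.factorial 16 : ℝ) * (Real.exp C + Real.exp C)) := by
          rw [Finset.sum_const, nsmul_eq_mul]
          simp
        rw [h2] at h
        linarith

end QG
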