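import Mathlib
import Pool.Agent.Lib_helper69.QG.Defs
import Pool.Agent.Lib_helper69.QG.Field

set_option autoImplicit false

namespace QG

open MeasureTheory

/-- Riesz representation on the range of a linear map into a Euclidean space -/
theorem fn_riesz {A ι : Type} [Fintype A] [Fintype ι] (T : (A → ℝ) →ₗ[ℝ] EuclideanSpace ℝ ι)
    (L : (A → ℝ) →ₗ[ℝ] ℝ) {R1 : ℝ} (hR : 0 ≤ R1) (h : ∀ h : A → ℝ, L h ^ 2 ≤ R1 * ‖T h‖ ^ 2) :
    ∃ θ : EuclideanSpace ℝ ι, ‖θ‖ ^ 2 ≤ R1 ∧ ∀ h : A → ℝ, L h = inner ℝ θ (T h) := by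
  have hk : L ∈ (LinearMap.ker T).dualAnnihilator := by
    rw [Submodule.mem_dualAnnihilator]
    intro x hx
    rw [LinearMap.mem_ker] at hx
    have h1 := h x
    rw [hx] at h1
    simp only [norm_zero] at h1
    nlinarith [sq_nonneg (L x)]
  rw [← LinearMap.range_dualMap_eq_dualAnnihilator_ker] at hk
  obtain ⟨g, hg⟩ := hk
  have hg' : ∀ x, g (T x) = L x := fun x => by
    rw [← hg]; rfl
  let θ0 : EuclideanSpace ℝ ι := (InnerProductSpace.toDual ℝ (EuclideanSpace ℝ ι)).symm
    (LinearMap.toContinuousLinearMap g)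
  have hθ0 : ∀ y, inner ℝ θ0 y = g y := fun y => by
    simp only [θ0]
    rw [InnerProductSpace.toDual_symm_apply]
    rfl
  let K : Submodule ℝ (EuclideanSpace ℝ ι) := LinearMap.range T
  let θ : EuclideanSpace ℝ ι := K.starProjection θ0
  have hθ : ∀ x, inner ℝ θ (T x) = L x := fun x => by
    have h1 : inner ℝ (θ0 - θ) (T x) = 0 :=
      K.starProjection_inner_eq_zero θ0 (T x) ⟨x, rfl⟩
    rw [inner_sub_left, hθ0, hg'] at h1
    linarith
  obtain ⟨h0, hh0⟩ : θ ∈ LinearMap.range T := K.starProjection_apply_mem θ0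
  refine ⟨θ, ?_, fun x => (hθ x).symm⟩
  have h2 := h h0
  have h3 := hθ h0
  rw [hh0, real_inner_self_eq_norm_sq] at h3
  rw [hh0, ← h3] at h2
  rcases eq_or_lt_of_le (sq_nonneg ‖θ‖) with h4 | h4
  · rw [← h4]; exact hR
  · nlinarith

/-- duality: a functional that is bounded by the energy is the divergence of a flow -/
theorem dual_flow {A B : Type} [Fintype A] [Fintype B] {c : B → Fin 4 → A} (S : Finset B)
    {l : A → ℝ} {R1 : ℝ} (hR : 0 ≤ R1) (h : ∀ h : A → ℝ, dot l h ^ 2 ≤ R1 * EnOn c S h) :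
    ∃ θ : B → Fin 4 → Fin 4 → ℝ, ∑ v ∈ S, ∑ i, ∑ j, θ v i j ^ 2 ≤ R1 ∧
      ∀ h : A → ℝ, dot l h = ∑ v ∈ S, ∑ i, ∑ j, θ v i j * (h (c v i) - h (c v j)) := by
  classical
  let T : (A → ℝ) →ₗ[ℝ] EuclideanSpace ℝ (B × Fin 4 × Fin 4) :=
    { toFun := fun h => WithLp.toLp 2 fun p =>
        if p.1 ∈ S then h (c p.1 p.2.1) - h (c p.1 p.2.2) else 0
      map_add' := fun x y => by
        ext p
        simp only [PiLp.add_apply, Pi.add_apply]
        split_ifs <;> ring
      map_smul' := fun r x => by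
        ext p
        simp only [PiLp.smul_apply, Pi.smul_apply, smul_eq_mul, RingHom.id_apply]
        split_ifs <;> ring }
  let L : (A → ℝ) →ₗ[ℝ] ℝ :=
    { toFun := fun h => dot l h
      map_add' := fun x y => by
        simp only [dot, Pi.add_apply, mul_add, Finset.sum_add_distrib]
      map_smul' := fun r x => by
        simp only [dot, Pi.smul_apply, smul_eq_mul, RingHom.id_apply, Finset.mul_sum]
        exact Finset.sum_congr rfl fun y _ => by ring }
  have hT : ∀ (x : A → ℝ) p, T x p = if p.1 ∈ S then x (c p.1 p.2.1) - x (c p.1 p.2.2) else 0 :=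
    fun x p => rfl
  have hE : ∀ x : A → ℝ, ‖T x‖ ^ 2 = EnOn c S x := fun x => by
    rw [EuclideanSpace.norm_sq_eq]
    simp only [hT, Real.norm_eq_abs, sq_abs]
    rw [Fintype.sum_prod_type]
    unfold EnOn
    rw [← Finset.sum_filter_add_sum_filter_not Finset.univ (fun v => v ∈ S)]
    rw [Finset.filter_mem_eq_inter, Finset.univ_inter]
    have h2 : ∑ v ∈ Finset.univ.filter (fun v => v ∉ S), ∑ y : Fin 4 × Fin 4,
        (if v ∈ S then x (c v y.1) - x (c v y.2) else 0) ^ 2 = 0 := by
      apply Finset.sum_eq_zero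
      intro v hv
      rw [Finset.mem_filter] at hv
      simp [hv.2]
    rw [h2, add_zero]
    apply Finset.sum_congr rfl
    intro v hv
    simp only [hv, if_true]
    rw [Fintype.sum_prod_type]
    rfl
  obtain ⟨θ, h1, h2⟩ := fn_riesz T L hR (fun x => by rw [hE]; exact h x)
  refine ⟨fun v i j => θ (v, i, j), ?_, ?_⟩
  · refine le_trans ?_ h1
    rw [EuclideanSpace.norm_sq_eq]
    simp only [Real.norm_eq_abs, sq_abs]
    rw [Fintype.sum_prod_type]
    refine le_trans ?_ (Finset.sum_le_sum_of_subset_of_nonneg (Finset.subset_univ S) ?_)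
    · apply le_of_eq
      apply Finset.sum_congr rfl
      intro v _
      rw [Fintype.sum_prod_type]
    · intro v _ _
      exact Finset.sum_nonneg fun y _ => sq_nonneg _
  · intro x
    have h3 : dot l x = inner ℝ θ (T x) := h2 x
    rw [h3, PiLp.inner_apply, Fintype.sum_prod_type]
    have h4 : ∀ v : B, ∑ y : Fin 4 × Fin 4, inner ℝ (θ (v, y)) (T x (v, y)) =
        if v ∈ S then ∑ i, ∑ j, θ (v, i, j) * (x (c v i) - x (c v j)) else 0 := by
      intro v
      rw [Fintype.sum_prod_type]
      split_ifs with hv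
      · apply Finset.sum_congr rfl
        intro i _
        apply Finset.sum_congr rfl
        intro j _
        rw [hT]
        simp only [hv, if_true]
        rw [RCLike.inner_apply']
        rfl
      · apply Finset.sum_eq_zero
        intro i _
        apply Finset.sum_eq_zero
        intro j _
        rw [hT]
        simp only [hv, if_false]
        simp
    simp only [h4]
    rw [Finset.sum_ite_mem, Finset.univ_inter]

end QG
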