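import Mathlib
import Pool.Agent.Lib_helper69.QG.Defs
import Pool.Agent.Lib_helper69.QG.Field
import Pool.Agent.Lib_helper69.QG.W.fe
import Pool.Agent.Lib_helper69.QG.W.fm
import Pool.Agent.Lib_helper69.QG.W.fn

set_option autoImplicit false

namespace QG

open MeasureTheory

/-- polynomial growth is at most exponential growth -/
theorem fo_exp (K0 : ℝ) (hK0 : 0 ≤ K0) (n : ℕ) :
    ∃ K : ℝ, ∀ s : ℝ, 0 ≤ s → K0 * (1 + s) ^ n ≤ K * Real.exp (K * s) := by
  refine ⟨max (K0 * (n.factorial * Real.exp 1)) 1, fun s hs => ?_⟩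
  have h1 : (1 + s) ^ n ≤ n.factorial * Real.exp (1 + s) := by
    have h := Real.pow_div_factorial_le_exp (1 + s) (by linarith) n
    have hf : (0 : ℝ) < n.factorial := by exact_mod_cast n.factorial_pos
    rw [div_le_iff₀ hf] at h
    linarith [mul_comm (Real.exp (1 + s)) (n.factorial : ℝ)]
  rw [Real.exp_add] at h1
  set M := max (K0 * (n.factorial * Real.exp 1)) 1 with hM
  have h2 : Real.exp s ≤ Real.exp (M * s) := by
    apply Real.exp_le_exp.2
    have : (1 : ℝ) ≤ M := le_max_right _ _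
    nlinarith
  calc K0 * (1 + s) ^ n ≤ K0 * (n.factorial * (Real.exp 1 * Real.exp s)) :=
        mul_le_mul_of_nonneg_left h1 hK0
    _ = (K0 * (n.factorial * Real.exp 1)) * Real.exp s := by ring
    _ ≤ M * Real.exp (M * s) :=
        mul_le_mul (le_max_left _ _) h2 (Real.exp_pos _).le (by
          have : (1 : ℝ) ≤ M := le_max_right _ _
          linarith)

theorem fo_abs_le {A : Type} [Fintype A] (a : A → ℝ) (y : A) : |a y| ≤ ∑ x, |a x| :=
  Finset.single_le_sum (f := fun x => |a x|) (fun _ _ => abs_nonneg _) (Finset.mem_univ y)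

theorem fo_q_le {A B : Type} [Fintype A] (c : B → Fin 4 → A) (a : A → ℝ) (v : B) :
    1 + q (loc c a v) ≤ 64 * (1 + ∑ x, |a x|) ^ 2 := by
  set M := ∑ x, |a x| with hM
  have hM0 : 0 ≤ M := Finset.sum_nonneg fun _ _ => abs_nonneg _
  have h1 : ∀ i j : Fin 4, (loc c a v i - loc c a v j) ^ 2 ≤ 4 * M ^ 2 := by
    intro i j
    have h2 := fo_abs_le a (c v i)
    have h3 := fo_abs_le a (c v j)
    have h4 : |loc c a v i - loc c a v j| ≤ 2 * M := by
      unfold loc
      calc |a (c v i) - a (c v j)| ≤ |a (c v i)| + |a (c v j)| := abs_sub _ _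
        _ ≤ 2 * M := by linarith
    calc (loc c a v i - loc c a v j) ^ 2 = |loc c a v i - loc c a v j| ^ 2 := (sq_abs _).symm
      _ ≤ (2 * M) ^ 2 := pow_le_pow_left₀ (abs_nonneg _) h4 2
      _ = 4 * M ^ 2 := by ring
  have h5 : q (loc c a v) ≤ 64 * M ^ 2 := by
    unfold q
    calc ∑ i, ∑ j, (loc c a v i - loc c a v j) ^ 2 ≤ ∑ _i : Fin 4, ∑ _j : Fin 4, 4 * M ^ 2 :=
          Finset.sum_le_sum fun i _ => Finset.sum_le_sum fun j _ => h1 i j
      _ = 64 * M ^ 2 := by simp; ring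
  nlinarith

theorem fo_q_nonneg (t : Fin 4 → ℝ) : 0 ≤ q t :=
  Finset.sum_nonneg fun _ _ => Finset.sum_nonneg fun _ _ => sq_nonneg _

theorem fo_q_cont : Continuous q := by
  unfold q
  fun_prop

theorem fo_loc_cont {A B : Type} (c : B → Fin 4 → A) (v : B) :
    Continuous fun a : A → ℝ => loc c a v := by
  unfold loc
  fun_prop

theorem fo_DD_nonneg {w : (Fin 4 → ℝ) → ℝ} {G : Fin 4 → (Fin 4 → ℝ) → ℝ} {C : ℝ}
    (hw : Cell w G C) (t t' : Fin 4 → ℝ) : 0 ≤ DD G t t' := by
  have h := hw.quar t t'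
  have hC := hw.one_le
  by_contra hn
  push Not at hn
  nlinarith [sq_nonneg (q (fun i => t' i - t i))]

/-- Young form of the pointwise bound -/
theorem fo_young {w : (Fin 4 → ℝ) → ℝ} {G : Fin 4 → (Fin 4 → ℝ) → ℝ} {C : ℝ}
    (hw : Cell w G C) (t t' : Fin 4 → ℝ) (θ : Fin 4 → Fin 4 → ℝ) {lam : ℝ} (hlam : 0 < lam) :
    |∑ i, ∑ j, θ i j * ((t' i - t i) - (t' j - t j))| ≤
      lam / 2 * (C * (∑ i, ∑ j, θ i j ^ 2) * (1 + q t)) + 1 / (2 * lam) * DD G t t' := by
  set T := ∑ i, ∑ j, θ i j ^ 2 with hT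
  set Q := q (fun i => t' i - t i) with hQ
  have hT0 : 0 ≤ T := Finset.sum_nonneg fun _ _ => Finset.sum_nonneg fun _ _ => sq_nonneg _
  have hcs : (∑ i, ∑ j, θ i j * ((t' i - t i) - (t' j - t j))) ^ 2 ≤ T * Q := by
    have h := Finset.sum_mul_sq_le_sq_mul_sq (Finset.univ : Finset (Fin 4 × Fin 4))
      (fun x => θ x.1 x.2) (fun x => (t' x.1 - t x.1) - (t' x.2 - t x.2))
    simp only [Fintype.sum_prod_type] at h
    exact h
  have hco : Q ≤ C * (1 + q t) * DD G t t' := hw.coer t t'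
  have hDD := fo_DD_nonneg hw t t'
  set X := ∑ i, ∑ j, θ i j * ((t' i - t i) - (t' j - t j)) with hX
  set P := C * T * (1 + q t) with hP
  have hP0 : 0 ≤ P := by
    have := fo_q_nonneg t
    have hC := hw.one_le
    positivity
  have h1 : X ^ 2 ≤ P * DD G t t' := by
    calc X ^ 2 ≤ T * Q := hcs
      _ ≤ T * (C * (1 + q t) * DD G t t') := mul_le_mul_of_nonneg_left hco hT0
      _ = P * DD G t t' := by rw [hP]; ring
  have h2 : X ^ 2 ≤ (lam / 2 * P + 1 / (2 * lam) * DD G t t') ^ 2 := by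
    have h3 : (lam / 2 * P + 1 / (2 * lam) * DD G t t') ^ 2 - P * DD G t t' =
        (lam / 2 * P - 1 / (2 * lam) * DD G t t') ^ 2 := by
      field_simp
      ring
    nlinarith [sq_nonneg (lam / 2 * P - 1 / (2 * lam) * DD G t t')]
  exact abs_le_of_sq_le_sq h2 (by positivity)

theorem fo_opt {Y a X : ℝ} (ha : 0 ≤ a) (hX : 0 ≤ X) (hY : 0 ≤ Y)
    (h : ∀ lam : ℝ, 0 < lam → Y ≤ lam / 2 * a + 1 / (2 * lam) * X) : Y ^ 2 ≤ a * X := by
  by_cases hY0 : Y = 0
  · rw [hY0]; simp; positivity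
  have hYp : 0 < Y := lt_of_le_of_ne hY (Ne.symm hY0)
  rcases eq_or_lt_of_le ha with h0 | hap
  · -- a = 0 : Y ≤ X/(2 lam) for all lam, so Y = 0
    exfalso
    have h1 := h ((X + 1) / Y) (by positivity)
    rw [← h0] at h1
    have h2 : 1 / (2 * ((X + 1) / Y)) * X = Y * X / (2 * (X + 1)) := by
      field_simp
    rw [h2] at h1
    have h3 : Y * X / (2 * (X + 1)) < Y := by
      rw [div_lt_iff₀ (by positivity)]
      nlinarith
    linarith
  · have h1 := h (Y / a) (by positivity)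
    have h2 : Y / a / 2 * a = Y / 2 := by field_simp
    have h3 : 1 / (2 * (Y / a)) * X = a * X / (2 * Y) := by field_simp
    rw [h2, h3] at h1
    have h4 : Y / 2 ≤ a * X / (2 * Y) := by linarith
    rw [le_div_iff₀ (by positivity)] at h4
    nlinarith

/-- a functional of the difference of two coupled fields is controlled by the dissipation -/
theorem lin_bound {w : (Fin 4 → ℝ) → ℝ} {G : Fin 4 → (Fin 4 → ℝ) → ℝ} {C : ℝ} (hw : Cell w G C) :
    ∃ K : ℝ, 1 ≤ K ∧ ∀ {A B : Type} [Fintype A] [DecidableEq A] [Fintype B] {c : B → Fin 4 → A}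
      {p : A} {R : ℝ}, Net c p R → ∀ {l' : A → ℝ} {π : Measure ((A → ℝ) × (A → ℝ))},
      Cpl w c p l' π → ∀ (S : Finset B) (l : A → ℝ) (R1 : ℝ), 0 ≤ R1 →
      (∀ h : A → ℝ, dot l h ^ 2 ≤ R1 * EnOn c S h) →
      (∫ z, |dot l (z.2 - z.1)| ∂π) ^ 2 ≤
        K * R1 * ∫ z, ∑ v ∈ S, DD G (loc c z.1 v) (loc c z.2 v) ∂π := by
  obtain ⟨Km, hKm, hmom⟩ := q_moment hw
  refine ⟨C * Km, one_le_mul_of_one_le_of_one_le hw.one_le hKm, ?_⟩
  intro A B _ _ _ c p R hN l' π hπ S l R1 hR1 hl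
  have := hπ.prob
  obtain ⟨θ, hθ, hdot⟩ := dual_flow S hR1 hl
  have hC1 := hw.one_le
  -- integrability
  have hs0 : ∀ z : (A → ℝ) × (A → ℝ), 0 ≤ ∑ y, |z.1 y| + ∑ y, |z.2 y| := fun z =>
    add_nonneg (Finset.sum_nonneg fun _ _ => abs_nonneg _)
      (Finset.sum_nonneg fun _ _ => abs_nonneg _)
  have hiq : ∀ v, Integrable (fun z : (A → ℝ) × (A → ℝ) => 1 + q (loc c z.1 v)) π := by
    intro v
    refine cpl_int hw hN hπ ?_ ?_
    · exact (continuous_const.add (fo_q_cont.comp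
        ((fo_loc_cont c v).comp continuous_fst))).measurable
    · obtain ⟨K, hK⟩ := fo_exp 64 (by norm_num) 2
      refine ⟨K, fun z => ?_⟩
      have h1 := fo_q_le c z.1 v
      have h2 := fo_q_nonneg (loc c z.1 v)
      rw [abs_of_nonneg (by linarith)]
      refine le_trans h1 (le_trans ?_ (hK _ (hs0 z)))
      have h3 : (0 : ℝ) ≤ ∑ x, |z.1 x| := Finset.sum_nonneg fun _ _ => abs_nonneg _
      have h4 : (0 : ℝ) ≤ ∑ x, |z.2 x| := Finset.sum_nonneg fun _ _ => abs_nonneg _
      nlinarith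
  have hiD : ∀ v, Integrable (fun z : (A → ℝ) × (A → ℝ) =>
      DD G (loc c z.1 v) (loc c z.2 v)) π := by
    intro v
    refine cpl_int hw hN hπ ?_ ?_
    · unfold DD
      refine (continuous_finsetSum _ fun i _ => ?_).measurable
      have hc1 : Continuous fun z : (A → ℝ) × (A → ℝ) => loc c z.1 v :=
        (fo_loc_cont c v).comp continuous_fst
      have hc2 : Continuous fun z : (A → ℝ) × (A → ℝ) => loc c z.2 v :=
        (fo_loc_cont c v).comp continuous_snd
      exact (((continuous_apply i).comp hc2).sub ((continuous_apply i).comp hc1)).mul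
        (((hw.contG i).comp hc2).sub ((hw.contG i).comp hc1))
    · obtain ⟨K, hK⟩ := fo_exp (32768 * C) (by linarith) 5
      refine ⟨K, fun z => le_trans ?_ (hK _ (hs0 z))⟩
      set M1 := ∑ x, |z.1 x| with hM1
      set M2 := ∑ x, |z.2 x| with hM2
      have h3 : (0 : ℝ) ≤ M1 := Finset.sum_nonneg fun _ _ => abs_nonneg _
      have h4 : (0 : ℝ) ≤ M2 := Finset.sum_nonneg fun _ _ => abs_nonneg _
      have hG : ∀ (a : A → ℝ) (i : Fin 4), ∑ x, |a x| ≤ M1 + M2 →
          |G i (loc c a v)| ≤ 4096 * C * (1 + (M1 + M2)) ^ 4 := by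
        intro a i ha
        have h5 := hw.grow i (loc c a v)
        have h6 := fo_q_le c a v
        have h7 := fo_q_nonneg (loc c a v)
        have h8 : (0 : ℝ) ≤ ∑ x, |a x| := Finset.sum_nonneg fun _ _ => abs_nonneg _
        have h9 : 1 + q (loc c a v) ≤ 64 * (1 + (M1 + M2)) ^ 2 := by nlinarith
        have h10 : (1 + q (loc c a v)) ^ 2 ≤ (64 * (1 + (M1 + M2)) ^ 2) ^ 2 :=
          pow_le_pow_left₀ (by linarith) h9 2
        calc |G i (loc c a v)| ≤ C * (1 + q (loc c a v)) ^ 2 := h5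
          _ ≤ C * (64 * (1 + (M1 + M2)) ^ 2) ^ 2 := by
              exact mul_le_mul_of_nonneg_left h10 (by linarith)
          _ = 4096 * C * (1 + (M1 + M2)) ^ 4 := by ring
      have hb : ∀ i : Fin 4, |(loc c z.2 v i - loc c z.1 v i) *
          (G i (loc c z.2 v) - G i (loc c z.1 v))| ≤ 8192 * C * (1 + (M1 + M2)) ^ 5 := by
        intro i
        rw [abs_mul]
        have h5 : |loc c z.2 v i - loc c z.1 v i| ≤ 1 + (M1 + M2) := by
          have h6 := fo_abs_le z.1 (c v i)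
          have h7 := fo_abs_le z.2 (c v i)
          unfold loc
          calc |z.2 (c v i) - z.1 (c v i)| ≤ |z.2 (c v i)| + |z.1 (c v i)| := abs_sub _ _
            _ ≤ 1 + (M1 + M2) := by linarith
        have h6 : |G i (loc c z.2 v) - G i (loc c z.1 v)| ≤ 8192 * C * (1 + (M1 + M2)) ^ 4 := by
          have h7 := hG z.1 i (by linarith)
          have h8 := hG z.2 i (by linarith)
          calc |G i (loc c z.2 v) - G i (loc c z.1 v)| ≤
                |G i (loc c z.2 v)| + |G i (loc c z.1 v)| := abs_sub _ _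
            _ ≤ 8192 * C * (1 + (M1 + M2)) ^ 4 := by linarith
        calc |loc c z.2 v i - loc c z.1 v i| * |G i (loc c z.2 v) - G i (loc c z.1 v)| ≤
              (1 + (M1 + M2)) * (8192 * C * (1 + (M1 + M2)) ^ 4) :=
              mul_le_mul h5 h6 (abs_nonneg _) (by linarith)
          _ = 8192 * C * (1 + (M1 + M2)) ^ 5 := by ring
      unfold DD
      calc |∑ i, (loc c z.2 v i - loc c z.1 v i) * (G i (loc c z.2 v) - G i (loc c z.1 v))| ≤
            ∑ i, |(loc c z.2 v i - loc c z.1 v i) *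
              (G i (loc c z.2 v) - G i (loc c z.1 v))| := Finset.abs_sum_le_sum_abs _ _
        _ ≤ ∑ _i : Fin 4, 8192 * C * (1 + (M1 + M2)) ^ 5 := Finset.sum_le_sum fun i _ => hb i
        _ = 32768 * C * (1 + (M1 + M2)) ^ 5 := by simp; ring
  have hil : Integrable (fun z : (A → ℝ) × (A → ℝ) => |dot l (z.2 - z.1)|) π := by
    refine cpl_int hw hN hπ ?_ ?_
    · unfold dot
      refine Continuous.measurable ?_
      fun_prop
    · obtain ⟨K, hK⟩ := fo_exp (∑ y, |l y|) (Finset.sum_nonneg fun _ _ => abs_nonneg _) 1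
      refine ⟨K, fun z => le_trans ?_ (hK _ (hs0 z))⟩
      rw [abs_abs, pow_one]
      unfold dot
      have h3 : (0 : ℝ) ≤ ∑ x, |z.1 x| := Finset.sum_nonneg fun _ _ => abs_nonneg _
      have h4 : (0 : ℝ) ≤ ∑ x, |z.2 x| := Finset.sum_nonneg fun _ _ => abs_nonneg _
      calc |∑ y, l y * (z.2 - z.1) y| ≤ ∑ y, |l y * (z.2 - z.1) y| :=
            Finset.abs_sum_le_sum_abs _ _
        _ ≤ ∑ y, |l y| * (1 + (∑ x, |z.1 x| + ∑ x, |z.2 x|)) := by
            refine Finset.sum_le_sum fun y _ => ?_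
            rw [abs_mul]
            refine mul_le_mul_of_nonneg_left ?_ (abs_nonneg _)
            have h6 := fo_abs_le z.1 y
            have h7 := fo_abs_le z.2 y
            calc |(z.2 - z.1) y| = |z.2 y - z.1 y| := rfl
              _ ≤ |z.2 y| + |z.1 y| := abs_sub _ _
              _ ≤ 1 + (∑ x, |z.1 x| + ∑ x, |z.2 x|) := by linarith
        _ = (∑ y, |l y|) * (1 + (∑ x, |z.1 x| + ∑ x, |z.2 x|)) := by rw [Finset.sum_mul]
  -- first moment of 1 + q
  have hE : ∀ v, ∫ z, (1 + q (loc c z.1 v)) ∂π ≤ Km := by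
    intro v
    have := mu_prob hw hN (0 : A → ℝ)
    have h1 : ∫ z, (1 + q (loc c z.1 v)) ∂π = ∫ a, (1 + q (loc c a v)) ∂mu w c p 0 :=
      (cpl_fst hπ (F := fun a => 1 + q (loc c a v))
        (continuous_const.add (fo_q_cont.comp (fo_loc_cont c v))).measurable).1
    rw [h1]
    refine le_trans ?_ (hmom hN v)
    have hexp : ∀ (n : ℕ) (a : A → ℝ), |(1 + q (loc c a v)) ^ n| ≤
        64 ^ n * (1 + ∑ x, |a x|) ^ (2 * n) := by
      intro n a
      have h2 := fo_q_le c a v
      have h3 := fo_q_nonneg (loc c a v)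
      rw [abs_of_nonneg (by positivity)]
      calc (1 + q (loc c a v)) ^ n ≤ (64 * (1 + ∑ x, |a x|) ^ 2) ^ n :=
            pow_le_pow_left₀ (by linarith) h2 n
        _ = 64 ^ n * (1 + ∑ x, |a x|) ^ (2 * n) := by rw [mul_pow, ← pow_mul]
    have hint : ∀ n : ℕ, Integrable (fun a : A → ℝ => (1 + q (loc c a v)) ^ n) (mu w c p 0) := by
      intro n
      refine mu_int hw hN 0 ?_ ?_
      · exact ((continuous_const.add (fo_q_cont.comp (fo_loc_cont c v))).pow n).measurable
      · obtain ⟨K, hK⟩ := fo_exp (64 ^ n) (by positivity) (2 * n)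
        exact ⟨K, fun a => le_trans (hexp n a)
          (hK _ (Finset.sum_nonneg fun _ _ => abs_nonneg _))⟩
    refine integral_mono (by simpa using hint 1) (hint 8) fun a => ?_
    have h3 := fo_q_nonneg (loc c a v)
    calc 1 + q (loc c a v) = (1 + q (loc c a v)) ^ 1 := (pow_one _).symm
      _ ≤ (1 + q (loc c a v)) ^ 8 := pow_le_pow_right₀ (by linarith) (by norm_num)
  -- main inequality
  set X := ∫ z, ∑ v ∈ S, DD G (loc c z.1 v) (loc c z.2 v) ∂π with hX
  have hX0 : 0 ≤ X := integral_nonneg fun z => Finset.sum_nonneg fun v _ => fo_DD_nonneg hw _ _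
  have hmain : ∀ lam : ℝ, 0 < lam → ∫ z, |dot l (z.2 - z.1)| ∂π ≤
      lam / 2 * (C * Km * R1) + 1 / (2 * lam) * X := by
    intro lam hlam
    set T : B → ℝ := fun v => ∑ i, ∑ j, θ v i j ^ 2 with hT
    have hT0 : ∀ v, 0 ≤ T v := fun v =>
      Finset.sum_nonneg fun _ _ => Finset.sum_nonneg fun _ _ => sq_nonneg _
    have hpt : ∀ z : (A → ℝ) × (A → ℝ), |dot l (z.2 - z.1)| ≤
        (∑ v ∈ S, lam / 2 * (C * T v * (1 + q (loc c z.1 v)))) +
          1 / (2 * lam) * ∑ v ∈ S, DD G (loc c z.1 v) (loc c z.2 v) := by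
      intro z
      rw [hdot (z.2 - z.1), Finset.mul_sum, ← Finset.sum_add_distrib]
      refine le_trans (Finset.abs_sum_le_sum_abs _ _) (Finset.sum_le_sum fun v _ => ?_)
      exact fo_young hw (loc c z.1 v) (loc c z.2 v) (θ v) hlam
    have hi1 : Integrable (fun z : (A → ℝ) × (A → ℝ) =>
        ∑ v ∈ S, lam / 2 * (C * T v * (1 + q (loc c z.1 v)))) π :=
      integrable_finsetSum _ fun v _ => ((hiq v).const_mul _).const_mul _
    have hi2 : Integrable (fun z : (A → ℝ) × (A → ℝ) =>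
        1 / (2 * lam) * ∑ v ∈ S, DD G (loc c z.1 v) (loc c z.2 v)) π :=
      (integrable_finsetSum _ fun v _ => hiD v).const_mul _
    calc ∫ z, |dot l (z.2 - z.1)| ∂π ≤ ∫ z, ((∑ v ∈ S, lam / 2 * (C * T v *
          (1 + q (loc c z.1 v)))) + 1 / (2 * lam) *
            ∑ v ∈ S, DD G (loc c z.1 v) (loc c z.2 v)) ∂π :=
          integral_mono hil (hi1.add hi2) hpt
      _ = (∑ v ∈ S, lam / 2 * (C * T v * ∫ z, (1 + q (loc c z.1 v)) ∂π)) +
            1 / (2 * lam) * X := by
          rw [integral_add hi1 hi2, integral_const_mul, integral_finsetSum]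
          · congr 1
            refine Finset.sum_congr rfl fun v _ => ?_
            rw [integral_const_mul, integral_const_mul]
          · intro v _
            exact ((hiq v).const_mul _).const_mul _
      _ ≤ (∑ v ∈ S, lam / 2 * (C * T v * Km)) + 1 / (2 * lam) * X := by
          refine add_le_add (Finset.sum_le_sum fun v _ => ?_) le_rfl
          have h9 := hT0 v
          have h10 := hE v
          have h11 : 0 ≤ C * T v := mul_nonneg (by linarith) h9
          exact mul_le_mul_of_nonneg_left (mul_le_mul_of_nonneg_left h10 h11) (by linarith)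
      _ = lam / 2 * (C * Km * ∑ v ∈ S, T v) + 1 / (2 * lam) * X := by
          congr 1
          rw [Finset.mul_sum, Finset.mul_sum]
          refine Finset.sum_congr rfl fun v _ => ?_
          ring
      _ ≤ lam / 2 * (C * Km * R1) + 1 / (2 * lam) * X := by
          have h1 : ∑ v ∈ S, T v ≤ R1 := hθ
          have h2 : 0 ≤ C * Km := by positivity
          gcongr
  have hfin := fo_opt (a := C * Km * R1) (X := X) (Y := ∫ z, |dot l (z.2 - z.1)| ∂π)
    (by positivity) hX0 (integral_nonneg fun _ => abs_nonneg _) hmain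
  exact hfin

end QG
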