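import Mathlib
import Pool.Agent.Lib_helper69.QG.Defs
import Pool.Agent.Lib_helper69.QG.Field
import Pool.Agent.Lib_helper69.QG.W.fe
import Pool.Agent.Lib_helper69.QG.W.fi
import Pool.Agent.Lib_helper69.QG.W.fj
import Pool.Agent.Lib_helper69.QG.W.fk
import Pool.Agent.Lib_helper69.QG.W.fo

set_option autoImplicit false

namespace QG

open MeasureTheory

theorem fp_cosh (y : ℝ) : 2 + y ^ 2 + y ^ 4 / 12 ≤ Real.exp y + Real.exp (-y) := by
  have h := sum_le_hasSum (Finset.range 3) (fun n _ => by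
    have : 0 ≤ y ^ (2 * n) := by rw [pow_mul]; positivity
    positivity) (Real.hasSum_cosh y)
  simp [Finset.sum_range_succ, Nat.factorial] at h
  rw [Real.cosh_eq] at h
  linarith

theorem fp_dot_smul {A : Type} [Fintype A] (l a : A → ℝ) (t : ℝ) :
    dot (fun y => t * l y) a = t * dot l a := by
  simp [dot, Finset.mul_sum, mul_assoc]

theorem fp_dot_neg {A : Type} [Fintype A] (l a : A → ℝ) :
    dot l (-a) = -dot l a := by
  simp [dot]

theorem fp_dot_sub {A : Type} [Fintype A] (l a b : A → ℝ) :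
    dot l (a - b) = dot l a - dot l b := by
  simp [dot, mul_sub, Finset.sum_sub_distrib]

theorem fp_dot_le {A : Type} [Fintype A] (l a : A → ℝ) :
    |dot l a| ≤ (∑ y, |l y|) * ∑ y, |a y| := by
  unfold dot
  calc |∑ y, l y * a y| ≤ ∑ y, |l y * a y| := Finset.abs_sum_le_sum_abs _ _
    _ = ∑ y, |l y| * |a y| := by simp only [abs_mul]
    _ ≤ ∑ y, |l y| * ∑ x, |a x| := by
        apply Finset.sum_le_sum
        intro y _
        exact mul_le_mul_of_nonneg_left
          (Finset.single_le_sum (f := fun y => |a y|) (fun _ _ => abs_nonneg _) (Finset.mem_univ y))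
          (abs_nonneg _)
    _ = _ := by rw [Finset.sum_mul]

theorem fp_dot_meas {A : Type} [Fintype A] (l : A → ℝ) : Measurable (dot l) := by
  unfold dot
  fun_prop

theorem fp_exp_int {A B : Type} [Fintype A] [DecidableEq A] [Fintype B] {w : (Fin 4 → ℝ) → ℝ}
    {G : Fin 4 → (Fin 4 → ℝ) → ℝ} {C : ℝ} {c : B → Fin 4 → A} {p : A} {R : ℝ}
    (hw : Cell w G C) (hN : Net c p R) (l : A → ℝ) (t : ℝ) :
    Integrable (fun a => Real.exp (t * dot l a)) (mu w c p 0) := by
  apply mu_int hw hN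
  · exact Real.measurable_exp.comp ((fp_dot_meas l).const_mul t)
  · refine ⟨|t| * (∑ y, |l y|) + 1, fun a => ?_⟩
    set S := ∑ y, |a y| with hS
    have hS0 : 0 ≤ S := Finset.sum_nonneg fun _ _ => abs_nonneg _
    have hL0 : 0 ≤ ∑ y, |l y| := Finset.sum_nonneg fun _ _ => abs_nonneg _
    have h1 := fp_dot_le l a
    rw [abs_of_pos (Real.exp_pos _)]
    have h2 : t * dot l a ≤ |t| * (∑ y, |l y|) * S := by
      calc t * dot l a ≤ |t * dot l a| := le_abs_self _
        _ = |t| * |dot l a| := abs_mul _ _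
        _ ≤ |t| * ((∑ y, |l y|) * S) := mul_le_mul_of_nonneg_left h1 (abs_nonneg _)
        _ = _ := by ring
    have h3 : 0 ≤ |t| * (∑ y, |l y|) := by positivity
    have h4 : t * dot l a ≤ (|t| * (∑ y, |l y|) + 1) * S := by nlinarith
    calc Real.exp (t * dot l a) ≤ Real.exp ((|t| * (∑ y, |l y|) + 1) * S) :=
          Real.exp_le_exp.2 h4
      _ = 1 * Real.exp ((|t| * (∑ y, |l y|) + 1) * S) := (one_mul _).symm
      _ ≤ (|t| * (∑ y, |l y|) + 1) * Real.exp ((|t| * (∑ y, |l y|) + 1) * S) :=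
          mul_le_mul_of_nonneg_right (by linarith) (Real.exp_pos _).le

/-- the exponential bound -/
theorem fp_exp {A B : Type} [Fintype A] [DecidableEq A] [Fintype B] {w : (Fin 4 → ℝ) → ℝ}
    {G : Fin 4 → (Fin 4 → ℝ) → ℝ} {C : ℝ} {c : B → Fin 4 → A} {p : A} {R : ℝ}
    (hw : Cell w G C) (hN : Net c p R) (l : A → ℝ) {R1 K : ℝ} (hR1 : 0 ≤ R1) (hK : 1 ≤ K)
    (hlin : ∀ {l' : A → ℝ} {π : Measure ((A → ℝ) × (A → ℝ))}, Cpl w c p l' π →
      (∫ z, |dot l (z.2 - z.1)| ∂π) ^ 2 ≤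
        K * R1 * ∫ z, ∑ v, DD G (loc c z.1 v) (loc c z.2 v) ∂π) (t : ℝ) :
    ∫ a, Real.exp (t * dot l a) ∂mu w c p 0 ≤ Real.exp (K * t ^ 2 * R1) := by
  have hJ := tilt_jensen hw hN (fun y => t * l y)
  simp only [fp_dot_smul] at hJ
  refine hJ.trans (Real.exp_le_exp.2 ?_)
  obtain ⟨π, hπ, hint, hle, heq⟩ := tilt_energy hw hN (fun y => t * l y)
  simp only [fp_dot_smul] at hle heq
  have hL := hlin hπ
  have := hπ.prob
  set X : ℝ := ∫ z, ∑ v, DD G (loc c z.1 v) (loc c z.2 v) ∂π with hX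
  set Y : ℝ := ∫ a, t * dot l a ∂mu w c p (fun y => t * l y) with hY
  set M : ℝ := ∫ z, |dot l (z.2 - z.1)| ∂π with hM
  have hM0 : 0 ≤ M := integral_nonneg fun z => abs_nonneg _
  have hYM : Y ≤ |t| * M := by
    rw [← heq, integral_const_mul]
    calc t * ∫ z, dot l (z.2 - z.1) ∂π ≤ |t * ∫ z, dot l (z.2 - z.1) ∂π| := le_abs_self _
      _ = |t| * |∫ z, dot l (z.2 - z.1) ∂π| := abs_mul _ _
      _ ≤ |t| * M := mul_le_mul_of_nonneg_left (abs_integral_le_integral_abs) (abs_nonneg _)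
  have hXY : X ≤ Y := by rw [← heq]; exact hle
  have hKR : 0 ≤ K * R1 := by positivity
  have h1 : M ^ 2 ≤ K * R1 * (|t| * M) :=
    hL.trans (mul_le_mul_of_nonneg_left (hXY.trans hYM) hKR)
  have h2 : M ≤ K * R1 * |t| := by
    rcases hM0.eq_or_lt with h0 | h0
    · rw [← h0]; positivity
    · have : M * M ≤ (K * R1 * |t|) * M := by nlinarith
      exact le_of_mul_le_mul_right this h0
  calc Y ≤ |t| * M := hYM
    _ ≤ |t| * (K * R1 * |t|) := mul_le_mul_of_nonneg_left h2 (abs_nonneg _)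
    _ = K * |t| ^ 2 * R1 := by ring
    _ = K * t ^ 2 * R1 := by rw [sq_abs]

/-- Gaussian bounds for functionals controlled by the energy -/
theorem subgauss {w : (Fin 4 → ℝ) → ℝ} {G : Fin 4 → (Fin 4 → ℝ) → ℝ} {C : ℝ} (hw : Cell w G C) :
    ∃ K : ℝ, 1 ≤ K ∧ ∀ {A B : Type} [Fintype A] [DecidableEq A] [Fintype B] {c : B → Fin 4 → A}
      {p : A} {R : ℝ}, Net c p R → ∀ (l : A → ℝ) (R1 : ℝ), 0 ≤ R1 →
      (∀ h : A → ℝ, dot l h ^ 2 ≤ R1 * En c h) →
      (∀ t : ℝ, ∫ a, Real.exp (t * dot l a) ∂mu w c p 0 ≤ Real.exp (K * t ^ 2 * R1)) ∧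
      ∫ a, dot l a ^ 2 ∂mu w c p 0 ≤ K * R1 ∧ ∫ a, dot l a ^ 4 ∂mu w c p 0 ≤ K * R1 ^ 2 := by
  obtain ⟨K0, hK0, hlin⟩ := lin_bound hw
  have hE : K0 ≤ Real.exp K0 := by linarith [Real.add_one_le_exp K0]
  have hE0 : 0 < Real.exp K0 := Real.exp_pos _
  refine ⟨24 * Real.exp K0, by linarith, ?_⟩
  intro A B _ _ _ c p R hN l R1 hR1 hl
  have hexp := fp_exp hw hN l hR1 hK0 (fun {l'} {π} hπ => hlin hN hπ Finset.univ l R1 hR1 hl)
  refine ⟨fun t => (hexp t).trans (Real.exp_le_exp.2 ?_), ?_⟩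
  · have : 0 ≤ t ^ 2 * R1 := by positivity
    nlinarith
  rcases hR1.eq_or_lt with h0 | h0
  · -- `R1 = 0`
    have hz : ∀ a, dot l a = 0 := by
      intro a
      have := hl a
      rw [← h0, zero_mul] at this
      exact pow_eq_zero_iff (two_ne_zero) |>.1 (le_antisymm this (sq_nonneg _))
    simp [hz, ← h0]
  · have hprob := mu_prob hw hN (0 : A → ℝ)
    set t : ℝ := 1 / Real.sqrt R1 with ht
    have hs : 0 < Real.sqrt R1 := Real.sqrt_pos.2 h0
    have ht0 : 0 < t := by positivity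
    have ht2 : t ^ 2 * R1 = 1 := by
      rw [ht, div_pow, Real.sq_sqrt h0.le]; field_simp
    have e1 : ∫ a, Real.exp (t * dot l a) ∂mu w c p 0 ≤ Real.exp K0 := by
      have := hexp t
      rwa [mul_assoc, ht2, mul_one] at this
    have e2 : ∫ a, Real.exp (-t * dot l a) ∂mu w c p 0 ≤ Real.exp K0 := by
      have := hexp (-t)
      rwa [neg_sq, mul_assoc, ht2, mul_one] at this
    have i1 := fp_exp_int hw hN l t
    have i2 := fp_exp_int hw hN l (-t)
    have e3 : ∫ a, (Real.exp (t * dot l a) + Real.exp (-t * dot l a)) ∂mu w c p 0 ≤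
        2 * Real.exp K0 := by
      rw [integral_add i1 i2]; linarith
    constructor
    · have h2 : ∫ a, t ^ 2 * dot l a ^ 2 ∂mu w c p 0 ≤
          ∫ a, (Real.exp (t * dot l a) + Real.exp (-t * dot l a)) ∂mu w c p 0 := by
        apply integral_mono_of_nonneg (Filter.Eventually.of_forall fun a => by positivity)
          (i1.add i2)
        refine Filter.Eventually.of_forall fun a => ?_
        have := fp_cosh (t * dot l a)
        have h4 : 0 ≤ (t * dot l a) ^ 4 := by positivity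
        simp only [neg_mul, Pi.add_apply]
        have h5 : t ^ 2 * dot l a ^ 2 = (t * dot l a) ^ 2 := by ring
        rw [h5]
        linarith
      rw [integral_const_mul] at h2
      have h3 : t ^ 2 * ∫ a, dot l a ^ 2 ∂mu w c p 0 ≤ t ^ 2 * (24 * Real.exp K0 * R1) := by
        have : t ^ 2 * (24 * Real.exp K0 * R1) = 24 * Real.exp K0 := by
          calc t ^ 2 * (24 * Real.exp K0 * R1) = 24 * Real.exp K0 * (t ^ 2 * R1) := by ring
            _ = _ := by rw [ht2, mul_one]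
        rw [this]
        linarith
      exact le_of_mul_le_mul_left h3 (by positivity)
    · have h2 : ∫ a, t ^ 4 / 12 * dot l a ^ 4 ∂mu w c p 0 ≤
          ∫ a, (Real.exp (t * dot l a) + Real.exp (-t * dot l a)) ∂mu w c p 0 := by
        apply integral_mono_of_nonneg (Filter.Eventually.of_forall fun a => by positivity)
          (i1.add i2)
        refine Filter.Eventually.of_forall fun a => ?_
        have := fp_cosh (t * dot l a)
        have h4 : 0 ≤ (t * dot l a) ^ 2 := by positivity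
        simp only [neg_mul, Pi.add_apply]
        have h5 : t ^ 4 / 12 * dot l a ^ 4 = (t * dot l a) ^ 4 / 12 := by ring
        rw [h5]
        linarith
      rw [integral_const_mul] at h2
      have h3 : t ^ 4 / 12 * ∫ a, dot l a ^ 4 ∂mu w c p 0 ≤
          t ^ 4 / 12 * (24 * Real.exp K0 * R1 ^ 2) := by
        have : t ^ 4 / 12 * (24 * Real.exp K0 * R1 ^ 2) = 2 * Real.exp K0 := by
          calc t ^ 4 / 12 * (24 * Real.exp K0 * R1 ^ 2) =
                2 * Real.exp K0 * (t ^ 2 * R1) ^ 2 := by ring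
            _ = _ := by rw [ht2]; ring
        rw [this]
        linarith
      exact le_of_mul_le_mul_left h3 (by positivity)

end QG
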