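import Mathlib
import Pool.Agent.Lib_helper69.QG.Defs
import Pool.Agent.Lib_helper69.QG.Field
import Pool.Agent.Lib_helper69.QG.W.fa
import Pool.Agent.Lib_helper69.QG.W.fb
import Pool.Agent.Lib_helper69.QG.W.fe
import Pool.Agent.Lib_helper69.QG.W.fi
import Pool.Agent.Lib_helper69.QG.W.fm

set_option autoImplicit false

namespace QG

open MeasureTheory

theorem fq_q_nonneg (t : Fin 4 → ℝ) : 0 ≤ q t := by
  unfold q
  exact Finset.sum_nonneg fun i _ => Finset.sum_nonneg fun j _ => sq_nonneg _

theorem fq_q_le (t : Fin 4 → ℝ) (s : ℝ) (h : ∀ i, |t i| ≤ s) : 1 + q t ≤ Real.exp (16 * s) := by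
  have hs : 0 ≤ s := (abs_nonneg _).trans (h 0)
  have h1 : ∀ i j, (t i - t j) ^ 2 ≤ 4 * s ^ 2 := by
    intro i j
    have a1 := abs_le.1 (h i)
    have a2 := abs_le.1 (h j)
    have : |t i - t j| ≤ 2 * s := by
      rw [abs_le]
      constructor <;> linarith [a1.1, a1.2, a2.1, a2.2]
    have h2 := sq_le_sq' (by linarith [abs_le.1 this]) (abs_le.1 this).2
    nlinarith
  have h2 : q t ≤ 64 * s ^ 2 := by
    unfold q
    calc ∑ i : Fin 4, ∑ j : Fin 4, (t i - t j) ^ 2 ≤ ∑ _i : Fin 4, ∑ _j : Fin 4, 4 * s ^ 2 :=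
          Finset.sum_le_sum fun i _ => Finset.sum_le_sum fun j _ => h1 i j
      _ = 64 * s ^ 2 := by
          simp
          ring
  have h3 : 1 + 8 * s ≤ Real.exp (8 * s) := by linarith [Real.add_one_le_exp (8 * s)]
  have h4 : (1 + 8 * s) ^ 2 ≤ Real.exp (8 * s) ^ 2 := pow_le_pow_left₀ (by linarith) h3 2
  rw [← Real.exp_nat_mul] at h4
  have e : ((2 : ℕ) : ℝ) * (8 * s) = 16 * s := by push_cast; ring
  rw [e] at h4
  nlinarith

theorem fq_abs_le {A : Type} [Fintype A] (a : A → ℝ) (x : A) : |a x| ≤ ∑ y, |a y| :=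
  Finset.single_le_sum (f := fun y => |a y|) (fun _ _ => abs_nonneg _) (Finset.mem_univ x)

theorem fq_loc_cont {A B : Type} (c : B → Fin 4 → A) (g : A → ℝ) (v : B) :
    Continuous (fun a : A → ℝ => loc c (a + g) v) := by
  unfold loc
  refine continuous_pi fun i => ?_
  exact (continuous_apply (c v i)).add continuous_const

theorem fq_dot_cont {A : Type} [Fintype A] (l : A → ℝ) : Continuous (fun a : A → ℝ => dot l a) := by
  unfold dot
  exact continuous_finsetSum _ fun y _ => continuous_const.mul (continuous_apply y)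

theorem fq_dot_le {A : Type} [Fintype A] (l a : A → ℝ) :
    |dot l a| ≤ (∑ y, |l y|) * ∑ y, |a y| := by
  unfold dot
  calc |∑ y, l y * a y| ≤ ∑ y, |l y * a y| := Finset.abs_sum_le_sum_abs _ _
    _ ≤ ∑ y, |l y| * ∑ x, |a x| := by
        refine Finset.sum_le_sum fun y _ => ?_
        rw [abs_mul]
        exact mul_le_mul_of_nonneg_left (fq_abs_le a y) (abs_nonneg _)
    _ = _ := by rw [Finset.sum_mul]

section
variable {A B : Type} [Fintype A] [DecidableEq A] [Fintype B] {w : (Fin 4 → ℝ) → ℝ}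
  {G : Fin 4 → (Fin 4 → ℝ) → ℝ} {C : ℝ} {c : B → Fin 4 → A} {p : A} {R : ℝ}

theorem fq_int_exp (hw : Cell w G C) (hN : Net c p R) (l : A → ℝ) :
    Integrable (fun a => Real.exp (dot l a)) (mu w c p 0) := by
  refine mu_int hw hN 0 (fq_dot_cont l).rexp.measurable ⟨1 + ∑ y, |l y|, fun a => ?_⟩
  have h0 : 0 ≤ ∑ y, |l y| := Finset.sum_nonneg fun _ _ => abs_nonneg _
  have h1 : 0 ≤ ∑ y, |a y| := Finset.sum_nonneg fun _ _ => abs_nonneg _
  rw [abs_of_pos (Real.exp_pos _)]
  have h2 : Real.exp (dot l a) ≤ Real.exp ((1 + ∑ y, |l y|) * ∑ y, |a y|) := by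
    apply Real.exp_le_exp.2
    have := (abs_le.1 (fq_dot_le l a)).2
    nlinarith
  have h3 := Real.exp_pos ((1 + ∑ y, |l y|) * ∑ y, |a y|)
  nlinarith

theorem fq_int_dot (hw : Cell w G C) (hN : Net c p R) (l : A → ℝ) :
    Integrable (fun a => dot l a) (mu w c p 0) := by
  refine mu_int hw hN 0 (fq_dot_cont l).measurable ⟨1 + ∑ y, |l y|, fun a => ?_⟩
  have h0 : 0 ≤ ∑ y, |l y| := Finset.sum_nonneg fun _ _ => abs_nonneg _
  have h1 : 0 ≤ ∑ y, |a y| := Finset.sum_nonneg fun _ _ => abs_nonneg _
  have h2 := fq_dot_le l a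
  have h3 : (∑ y, |l y|) * ∑ y, |a y| ≤ Real.exp ((1 + ∑ y, |l y|) * ∑ y, |a y|) := by
    have := Real.add_one_le_exp ((1 + ∑ y, |l y|) * ∑ y, |a y|)
    nlinarith
  have h4 := Real.exp_pos ((1 + ∑ y, |l y|) * ∑ y, |a y|)
  nlinarith

theorem fq_int_log (hw : Cell w G C) (hN : Net c p R) (g : A → ℝ) (v : B) :
    Integrable (fun a => Real.log (w (loc c (a + g) v))) (mu w c p 0) := by
  obtain ⟨K, hK1, hK⟩ := logw hw
  have hm : Measurable (fun a : A → ℝ => Real.log (w (loc c (a + g) v))) :=
    ((hw.cont.comp (fq_loc_cont c g v)).log fun a => (hw.pos _).ne').measurable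
  refine mu_int hw hN 0 hm ⟨K * Real.exp (32 * ∑ y, |g y|) + 32, fun a => ?_⟩
  set s := ∑ y, |a y|
  set H := ∑ y, |g y|
  have h0 : 0 ≤ s := Finset.sum_nonneg fun _ _ => abs_nonneg _
  have hH : 0 ≤ H := Finset.sum_nonneg fun _ _ => abs_nonneg _
  have h1 : 1 + q (loc c (a + g) v) ≤ Real.exp (16 * (s + H)) := by
    apply fq_q_le
    intro i
    show |a (c v i) + g (c v i)| ≤ s + H
    exact (abs_add_le _ _).trans (add_le_add (fq_abs_le a _) (fq_abs_le g _))
  have hq := fq_q_nonneg (loc c (a + g) v)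
  have h2 : (1 + q (loc c (a + g) v)) ^ 2 ≤ Real.exp (32 * H) * Real.exp (32 * s) := by
    have := pow_le_pow_left₀ (by linarith) h1 2
    rw [← Real.exp_nat_mul] at this
    rw [← Real.exp_add]
    refine this.trans (le_of_eq ?_)
    congr 1
    push_cast
    ring
  have h3 := hK (loc c (a + g) v)
  have e1 := Real.exp_pos (32 * H)
  have e2 : Real.exp (32 * s) ≤ Real.exp ((K * Real.exp (32 * H) + 32) * s) := by
    apply Real.exp_le_exp.2
    nlinarith [mul_nonneg (mul_nonneg (by linarith : (0 : ℝ) ≤ K) e1.le) h0]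
  have e3 := Real.exp_pos (32 * s)
  calc |Real.log (w (loc c (a + g) v))| ≤ K * (1 + q (loc c (a + g) v)) ^ 2 := h3
    _ ≤ K * (Real.exp (32 * H) * Real.exp (32 * s)) :=
        mul_le_mul_of_nonneg_left h2 (by linarith)
    _ = (K * Real.exp (32 * H)) * Real.exp (32 * s) := by ring
    _ ≤ (K * Real.exp (32 * H) + 32) * Real.exp (32 * s) := by nlinarith
    _ ≤ (K * Real.exp (32 * H) + 32) * Real.exp ((K * Real.exp (32 * H) + 32) * s) := by
        refine mul_le_mul_of_nonneg_left e2 ?_
        have := mul_nonneg (by linarith : (0 : ℝ) ≤ K) e1.le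
        linarith

theorem fq_int_q (hw : Cell w G C) (hN : Net c p R) (n : ℕ) (v : B) :
    Integrable (fun a => (1 + q (loc c a v)) ^ n) (mu w c p 0) := by
  have hq : Continuous (fun t : Fin 4 → ℝ => q t) := by
    unfold q
    fun_prop
  have hl : Continuous (fun a : A → ℝ => loc c a v) := by
    unfold loc
    exact continuous_pi fun i => continuous_apply (c v i)
  have hm : Measurable (fun a : A → ℝ => (1 + q (loc c a v)) ^ n) :=
    ((continuous_const.add (hq.comp hl)).pow n).measurable
  refine mu_int hw hN 0 hm ⟨16 * n + 1, fun a => ?_⟩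
  set s := ∑ y, |a y|
  have h0 : 0 ≤ s := Finset.sum_nonneg fun _ _ => abs_nonneg _
  have h1 : 1 + q (loc c a v) ≤ Real.exp (16 * s) := by
    apply fq_q_le
    intro i
    exact fq_abs_le a _
  have hq := fq_q_nonneg (loc c a v)
  have h2 : (1 + q (loc c a v)) ^ n ≤ Real.exp ((16 * n + 1) * s) := by
    have := pow_le_pow_left₀ (by linarith) h1 n
    rw [← Real.exp_nat_mul] at this
    refine this.trans (Real.exp_le_exp.2 ?_)
    nlinarith
  rw [abs_of_nonneg (by positivity)]
  have h3 := Real.exp_pos ((16 * n + 1) * s)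
  have h4 : (0 : ℝ) ≤ n := Nat.cast_nonneg n
  nlinarith [mul_nonneg h4 h3.le]

/-- the mean of the logarithm of the ratio of the weights -/
theorem fq_mean (hw : Cell w G C) (hN : Net c p R) (g : A → ℝ) (v : B) (Km : ℝ)
    (hKm : ∫ a, (1 + q (loc c a v)) ^ 8 ∂mu w c p 0 ≤ Km) :
    -(C / 2 * (Km * q (loc c g v) + q (loc c g v) ^ 2)) ≤
      ∫ a, (Real.log (w (loc c (a + g) v)) - Real.log (w (loc c a v))) ∂mu w c p 0 := by
  have hp := mu_prob hw hN 0
  have i1 := fq_int_log hw hN g v
  have i2 := fq_int_log hw hN (-g) v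
  have i3 : Integrable (fun a => Real.log (w (loc c a v))) (mu w c p 0) := by
    have := fq_int_log hw hN 0 v
    simpa using this
  have sym : ∫ a, Real.log (w (loc c (a + g) v)) ∂mu w c p 0 =
      ∫ a, Real.log (w (loc c (a + -g) v)) ∂mu w c p 0 := by
    have hm : Measurable (fun a : A → ℝ => Real.log (w (loc c (a + g) v))) :=
      ((hw.cont.comp (fq_loc_cont c g v)).log fun a => (hw.pos _).ne').measurable
    have h := mu_sym hw hN hm
    rw [← h]
    refine integral_congr_ae (ae_of_all _ fun a => ?_)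
    show Real.log (w (loc c (-a + g) v)) = Real.log (w (loc c (a + -g) v))
    have e := hw.even (loc c (a + -g) v)
    rw [← e]
    congr 2
    funext i
    unfold loc
    simp only [Pi.add_apply, Pi.neg_apply]
    ring
  have iq : Integrable (fun a => 1 + q (loc c a v)) (mu w c p 0) := by
    have := fq_int_q hw hN 1 v
    simpa using this
  have i8 := fq_int_q hw hN 8 v
  have hqm : ∫ a, (1 + q (loc c a v)) ∂mu w c p 0 ≤ Km := by
    refine (integral_mono iq i8 fun a => ?_).trans hKm
    have hq := fq_q_nonneg (loc c a v)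
    exact le_self_pow₀ (by linarith) (by norm_num)
  have point : ∀ a : A → ℝ, -(C * ((1 + q (loc c a v)) * q (loc c g v) + q (loc c g v) ^ 2)) ≤
      Real.log (w (loc c (a + g) v)) + Real.log (w (loc c (a + -g) v)) -
        2 * Real.log (w (loc c a v)) := by
    intro a
    have h := hw.conv (loc c a v) (loc c g v)
    have e1 : (fun i => loc c a v i + loc c g v i) = loc c (a + g) v := rfl
    have e2 : (fun i => loc c a v i - loc c g v i) = loc c (a + -g) v := by
      funext i
      unfold loc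
      simp only [Pi.add_apply, Pi.neg_apply]
      ring
    rw [e1, e2] at h
    linarith
  have hint : Integrable (fun a => -(C * ((1 + q (loc c a v)) * q (loc c g v) +
      q (loc c g v) ^ 2))) (mu w c p 0) :=
    (((iq.mul_const _).add (integrable_const _)).const_mul C).neg
  have h2 := integral_mono hint ((i1.add i2).sub (i3.const_mul 2)) point
  have e3 : ∫ a, -(C * ((1 + q (loc c a v)) * q (loc c g v) + q (loc c g v) ^ 2)) ∂mu w c p 0 =
      -(C * ((∫ a, (1 + q (loc c a v)) ∂mu w c p 0) * q (loc c g v) + q (loc c g v) ^ 2)) := by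
    rw [integral_neg, integral_const_mul, integral_add (iq.mul_const _) (integrable_const _),
      integral_mul_const]
    simp
  have e4 : ∫ a, ((fun a => Real.log (w (loc c (a + g) v))) + (fun a =>
      Real.log (w (loc c (a + -g) v))) - fun a => 2 * Real.log (w (loc c a v))) a
      ∂mu w c p 0 = (∫ a, Real.log (w (loc c (a + g) v)) ∂mu w c p 0) +
        (∫ a, Real.log (w (loc c (a + -g) v)) ∂mu w c p 0) -
        2 * ∫ a, Real.log (w (loc c a v)) ∂mu w c p 0 := by
    rw [integral_sub' (i1.add i2) (i3.const_mul 2), integral_add' i1 i2, integral_const_mul]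
  have h3 : ∫ a, -(C * ((1 + q (loc c a v)) * q (loc c g v) + q (loc c g v) ^ 2)) ∂mu w c p 0 ≤
      (∫ a, Real.log (w (loc c (a + g) v)) ∂mu w c p 0) +
        (∫ a, Real.log (w (loc c (a + -g) v)) ∂mu w c p 0) -
        2 * ∫ a, Real.log (w (loc c a v)) ∂mu w c p 0 := by
    rw [← e4]
    exact h2
  rw [e3, ← sym] at h3
  rw [integral_sub i1 i3]
  have hqg := fq_q_nonneg (loc c g v)
  have hC : 0 ≤ C := by linarith [hw.one_le]
  have h5 : C * ((∫ a, (1 + q (loc c a v)) ∂mu w c p 0) * q (loc c g v)) ≤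
      C * (Km * q (loc c g v)) :=
    mul_le_mul_of_nonneg_left (mul_le_mul_of_nonneg_right hqm hqg) hC
  nlinarith

end

/-- lower bound for exponential moments -/
theorem exp_lower {w : (Fin 4 → ℝ) → ℝ} {G : Fin 4 → (Fin 4 → ℝ) → ℝ} {C : ℝ} (hw : Cell w G C) :
    ∃ K : ℝ, 1 ≤ K ∧ ∀ {A B : Type} [Fintype A] [DecidableEq A] [Fintype B] {c : B → Fin 4 → A}
      {p : A} {R : ℝ}, Net c p R → ∀ l g : A → ℝ, g p = 0 →
      Real.exp (dot l g - K * ∑ v, (q (loc c g v) + q (loc c g v) ^ 2)) ≤
        ∫ a, Real.exp (dot l a) ∂mu w c p 0 := by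
  obtain ⟨Km, hKm1, hKm⟩ := q_moment hw
  have hC := hw.one_le
  refine ⟨C * Km, by nlinarith, ?_⟩
  intro A B _ _ _ c p R hN l g hg
  have hp := mu_prob hw hN 0
  set D : (A → ℝ) → ℝ := fun a => ∑ v, (Real.log (w (loc c (a + g) v)) -
    Real.log (w (loc c a v))) with hD
  set S : (A → ℝ) → ℝ := fun a => dot l g + dot l a + D a with hS
  have i3 : ∀ v, Integrable (fun a => Real.log (w (loc c a v))) (mu w c p 0) := by
    intro v
    have := fq_int_log hw hN 0 v
    simpa using this
  have iD : Integrable D (mu w c p 0) :=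
    integrable_finsetSum _ fun v _ => (fq_int_log hw hN g v).sub (i3 v)
  have iS : Integrable S (mu w c p 0) :=
    ((integrable_const _).add (fq_int_dot hw hN l)).add iD
  -- the change of variables
  have key : ∀ a, Real.exp (S a) * (wt w c 0 a / Zt w c p 0) =
      Real.exp (dot l (a + g)) * (wt w c 0 (a + g) / Zt w c p 0) := by
    intro a
    have d1 : dot l (a + g) = dot l a + dot l g := by
      unfold dot
      rw [← Finset.sum_add_distrib]
      refine Finset.sum_congr rfl fun y _ => ?_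
      simp only [Pi.add_apply]
      ring
    have d0 : ∀ b : A → ℝ, dot 0 b = 0 := by
      intro b
      unfold dot
      simp
    have e1 : Real.exp (D a) * (∏ v, w (loc c a v)) = ∏ v, w (loc c (a + g) v) := by
      rw [hD]
      simp only
      rw [Real.exp_sum, ← Finset.prod_mul_distrib]
      refine Finset.prod_congr rfl fun v _ => ?_
      rw [Real.exp_sub, Real.exp_log (hw.pos _), Real.exp_log (hw.pos _)]
      exact div_mul_cancel₀ _ (hw.pos _).ne'
    unfold wt
    rw [d0, d0, d1, ← e1, hS]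
    simp only
    rw [Real.exp_add, Real.exp_add, Real.exp_add]
    ring
  have emb : MeasurableEmbedding (fun a : A → ℝ => a + g) := measurableEmbedding_addRight g
  have iF : Integrable (fun a => Real.exp (dot l a) * (wt w c 0 a / Zt w c p 0)) (bs p) :=
    ((mu_integral hw hN 0 (fun a => Real.exp (dot l a))).2).1 (fq_int_exp hw hN l)
  have iE : Integrable (fun a => Real.exp (S a)) (mu w c p 0) := by
    refine ((mu_integral hw hN 0 (fun a => Real.exp (S a))).2).2 ?_
    simp_rw [key]
    exact ((bs_shift hg).integrable_comp_emb emb (g := fun a =>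
      Real.exp (dot l a) * (wt w c 0 a / Zt w c p 0))).2 iF
  have eE : ∫ a, Real.exp (S a) ∂mu w c p 0 = ∫ a, Real.exp (dot l a) ∂mu w c p 0 := by
    rw [(mu_integral hw hN 0 (fun a => Real.exp (S a))).1,
      (mu_integral hw hN 0 (fun a => Real.exp (dot l a))).1]
    simp_rw [key]
    exact (bs_shift hg).integral_comp emb (fun a =>
      Real.exp (dot l a) * (wt w c 0 a / Zt w c p 0))
  set m := ∫ a, S a ∂mu w c p 0 with hm
  have jen : Real.exp m ≤ ∫ a, Real.exp (S a) ∂mu w c p 0 := by
    have h1 : ∀ a, Real.exp m * (1 + (S a - m)) ≤ Real.exp (S a) := by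
      intro a
      have := Real.add_one_le_exp (S a - m)
      have e : Real.exp (S a) = Real.exp m * Real.exp (S a - m) := by
        rw [← Real.exp_add]
        congr 1
        ring
      rw [e]
      exact mul_le_mul_of_nonneg_left (by linarith) (Real.exp_pos _).le
    have i4 : Integrable (fun a => Real.exp m * (1 + (S a - m))) (mu w c p 0) :=
      ((integrable_const _).add (iS.sub (integrable_const _))).const_mul _
    have h2 := integral_mono i4 iE h1
    have iSm : Integrable (fun a => S a - m) (mu w c p 0) := iS.sub (integrable_const _)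
    have e : ∫ a, Real.exp m * (1 + (S a - m)) ∂mu w c p 0 = Real.exp m := by
      rw [integral_const_mul, integral_add (integrable_const _) iSm,
        integral_sub iS (integrable_const _), ← hm]
      simp
    rw [e] at h2
    exact h2
  rw [← eE]
  refine le_trans (Real.exp_le_exp.2 ?_) jen
  -- the mean
  have hodd : ∫ a, dot l a ∂mu w c p 0 = 0 := by
    refine mu_odd hw hN (fq_dot_cont l).measurable fun a => ?_
    unfold dot
    rw [← Finset.sum_neg_distrib]
    refine Finset.sum_congr rfl fun y _ => ?_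
    simp only [Pi.neg_apply]
    ring
  have em : m = dot l g + ∑ v, ∫ a, (Real.log (w (loc c (a + g) v)) -
      Real.log (w (loc c a v))) ∂mu w c p 0 := by
    rw [hm, hS]
    simp only
    have iL : Integrable (fun a => dot l g + dot l a) (mu w c p 0) :=
      (integrable_const _).add (fq_int_dot hw hN l)
    rw [integral_add iL iD, integral_add (integrable_const _) (fq_int_dot hw hN l), hodd, hD]
    simp only
    have i5 : ∀ v ∈ (Finset.univ : Finset B), Integrable (fun a =>
        Real.log (w (loc c (a + g) v)) - Real.log (w (loc c a v))) (mu w c p 0) :=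
      fun v _ => (fq_int_log hw hN g v).sub (i3 v)
    rw [integral_finsetSum _ i5]
    simp
  rw [em, Finset.mul_sum, sub_eq_add_neg, ← Finset.sum_neg_distrib]
  refine add_le_add le_rfl (Finset.sum_le_sum fun v _ => ?_)
  refine le_trans ?_ (fq_mean hw hN g v Km (hKm hN v))
  have hqg := fq_q_nonneg (loc c g v)
  have h1 : 0 ≤ Km * q (loc c g v) := by positivity
  have h2 : q (loc c g v) ^ 2 ≤ Km * q (loc c g v) ^ 2 := by
    nlinarith [sq_nonneg (q (loc c g v))]
  have h3 : 0 ≤ q (loc c g v) ^ 2 := sq_nonneg _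
  have h4 : C / 2 * (Km * q (loc c g v) + q (loc c g v) ^ 2) ≤
      C * (Km * q (loc c g v) + Km * q (loc c g v) ^ 2) := by
    have : Km * q (loc c g v) + q (loc c g v) ^ 2 ≤
        Km * q (loc c g v) + Km * q (loc c g v) ^ 2 := by linarith
    have h5 : 0 ≤ Km * q (loc c g v) + q (loc c g v) ^ 2 := by linarith
    nlinarith
  have e : C * Km * (q (loc c g v) + q (loc c g v) ^ 2) =
      C * (Km * q (loc c g v) + Km * q (loc c g v) ^ 2) := by ring
  rw [e]
  linarith

end QG
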