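import Mathlib
import Pool.Agent.Lib_helper69.QG.Defs
import Pool.Agent.Lib_helper69.QG.Field
import Pool.Agent.Lib_helper69.QG.W.fe
import Pool.Agent.Lib_helper69.QG.W.fp
import Pool.Agent.Lib_helper69.QG.W.fq

set_option autoImplicit false

namespace QG

open MeasureTheory

theorem fr_pt (y θ : ℝ) (hθ : 0 < θ) :
    Real.exp y + Real.exp (-y) ≤ 2 + y ^ 2 / (2 * θ) + θ * (Real.exp (3 * y) + Real.exp (-(3 * y))) := by
  -- cosh bound: e^y + e^-y ≤ 2 + y^2 e^|y|
  have h1 : ∀ t : ℝ, 0 ≤ t → Real.exp t + Real.exp (-t) ≤ 2 + t ^ 2 * Real.exp t := by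
    intro t ht
    have ha : Real.exp (-t) * Real.exp t = 1 := by rw [← Real.exp_add]; simp
    have hb : 1 - t ≤ Real.exp (-t) := by linarith [Real.add_one_le_exp (-t)]
    have hc : (Real.exp t - 1) ≤ t * Real.exp t := by
      have := mul_le_mul_of_nonneg_right hb (Real.exp_pos t).le
      rw [ha] at this
      nlinarith
    have hd : 0 ≤ Real.exp t - 1 := by linarith [Real.add_one_le_exp t]
    have he : Real.exp t + Real.exp (-t) - 2 = (Real.exp t - 1) ^ 2 * Real.exp (-t) := by
      nlinarith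
    have hf : (Real.exp t - 1) ^ 2 ≤ (t * Real.exp t) ^ 2 := by
      apply pow_le_pow_left₀ hd hc
    have hg : (Real.exp t - 1) ^ 2 * Real.exp (-t) ≤ (t * Real.exp t) ^ 2 * Real.exp (-t) :=
      mul_le_mul_of_nonneg_right hf (Real.exp_pos _).le
    have hh : (t * Real.exp t) ^ 2 * Real.exp (-t) = t ^ 2 * Real.exp t := by
      calc (t * Real.exp t) ^ 2 * Real.exp (-t) = t ^ 2 * Real.exp t * (Real.exp (-t) * Real.exp t) := by ring
        _ = t ^ 2 * Real.exp t := by rw [ha, mul_one]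
    linarith
  -- for t ≥ 0
  have h2 : ∀ t : ℝ, 0 ≤ t → Real.exp t + Real.exp (-t) ≤
      2 + t ^ 2 / (2 * θ) + θ * (Real.exp (3 * t) + Real.exp (-(3 * t))) := by
    intro t ht
    have h3 := h1 t ht
    have h4 : t ^ 2 * Real.exp t ≤ t ^ 2 / (2 * θ) + θ / 2 * (t ^ 2 * Real.exp t ^ 2) := by
      have h5 : 0 ≤ (t / θ - t * Real.exp t) ^ 2 * (θ / 2) := by positivity
      have h6 : (t / θ - t * Real.exp t) ^ 2 * (θ / 2) =
          t ^ 2 / (2 * θ) + θ / 2 * (t ^ 2 * Real.exp t ^ 2) - t ^ 2 * Real.exp t := by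
        field_simp
        ring
      linarith
    have h7 : t ^ 2 ≤ 2 * Real.exp t := by
      have := Real.quadratic_le_exp_of_nonneg ht
      nlinarith
    have h8 : t ^ 2 * Real.exp t ^ 2 ≤ 2 * Real.exp (3 * t) := by
      have : Real.exp (3 * t) = Real.exp t * Real.exp t ^ 2 := by
        rw [← Real.exp_nat_mul, ← Real.exp_add]; congr 1; push_cast; ring
      rw [this]
      nlinarith [sq_nonneg (Real.exp t)]
    have h9 : θ / 2 * (t ^ 2 * Real.exp t ^ 2) ≤ θ / 2 * (2 * Real.exp (3 * t)) :=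
      mul_le_mul_of_nonneg_left h8 (by positivity)
    have h10 : 0 ≤ θ * Real.exp (-(3 * t)) := by positivity
    nlinarith
  rcases le_total 0 y with hy | hy
  · exact h2 y hy
  · have := h2 (-y) (by linarith)
    have e1 : (-y) ^ 2 = y ^ 2 := by ring
    have e2 : 3 * (-y) = -(3 * y) := by ring
    rw [e1, e2, neg_neg, neg_neg] at this
    linarith

/-- lower bound for the variance -/
theorem var_lower {w : (Fin 4 → ℝ) → ℝ} {G : Fin 4 → (Fin 4 → ℝ) → ℝ} {C : ℝ} (hw : Cell w G C)
    (D : ℝ) : ∃ κ : ℝ, 0 < κ ∧ ∀ {A B : Type} [Fintype A] [DecidableEq A] [Fintype B]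
      {c : B → Fin 4 → A} {p : A} {R : ℝ}, Net c p R → ∀ (l g : A → ℝ) (M : ℝ), 1 ≤ M → g p = 0 →
      (∀ h : A → ℝ, dot l h ^ 2 ≤ D * M * En c h) → M ≤ D * dot l g →
      ∑ v, (q (loc c g v) + q (loc c g v) ^ 2) ≤ D * M →
      κ * M ≤ ∫ a, dot l a ^ 2 ∂mu w c p 0 := by
  by_cases hD : D ≤ 0
  · refine ⟨1, one_pos, ?_⟩
    intro A B _ _ _ c p R hN l g M hM hg hl hd hs
    exfalso
    have h0 : 0 ≤ ∑ v, (q (loc c g v) + q (loc c g v) ^ 2) := by
      apply Finset.sum_nonneg
      intro v _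
      have : 0 ≤ q (loc c g v) := by
        unfold q
        exact Finset.sum_nonneg fun i _ => Finset.sum_nonneg fun j _ => sq_nonneg _
      positivity
    have h1 : D = 0 := by
      by_contra hne
      have : D < 0 := lt_of_le_of_ne hD hne
      nlinarith
    rw [h1] at hd
    linarith
  · push Not at hD
    obtain ⟨K1, hK1, hlow⟩ := exp_lower hw
    obtain ⟨K2, hK2, hsub⟩ := subgauss hw
    set μ0 : ℝ := min 1 (1 / (2 * K1 * D ^ 2)) with hμ0
    have hK1p : 0 < K1 := by linarith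
    have hμpos : 0 < μ0 := lt_min one_pos (by positivity)
    have hμ1 : μ0 ≤ 1 := min_le_left _ _
    have hμ2 : K1 * μ0 * D ≤ 1 / (2 * D) := by
      have h := min_le_right (1 : ℝ) (1 / (2 * K1 * D ^ 2))
      rw [← hμ0] at h
      calc K1 * μ0 * D ≤ K1 * (1 / (2 * K1 * D ^ 2)) * D := by gcongr
        _ = 1 / (2 * D) := by field_simp
    set k0 : ℝ := μ0 / (2 * D) with hk0
    have hk0p : 0 < k0 := by positivity
    set T : ℝ := 4 * Real.exp (9 * K2 * D) with hT
    have hTp : 0 < T := by positivity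
    set E0 : ℝ := Real.exp k0 - 1 with hE0
    have hE0p : 0 < E0 := by
      have := Real.add_one_lt_exp hk0p.ne'
      linarith
    set θ : ℝ := 2 * E0 / T with hθ
    have hθp : 0 < θ := by positivity
    refine ⟨2 * θ * E0, by positivity, ?_⟩
    intro A B _ _ _ c p R hN l g M hM hg hl hd hs
    have := mu_prob hw hN (0 : A → ℝ)
    have hMp : 0 < M := by linarith
    set s : ℝ := 1 / Real.sqrt M with hsdef
    have hsp : 0 < s := by positivity
    have hs2 : s ^ 2 = 1 / M := by
      rw [hsdef, div_pow, Real.sq_sqrt hMp.le]; simp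
    have hs1 : s ^ 2 ≤ 1 := by
      rw [hs2, div_le_one hMp]; exact hM
    -- dot is linear
    have hdl : ∀ (t : ℝ) (u a : A → ℝ), dot (fun y => t * u y) a = t * dot u a := by
      intro t u a
      unfold dot
      rw [Finset.mul_sum]
      exact Finset.sum_congr rfl fun y _ => by ring
    have hdr : ∀ (t : ℝ) (u a : A → ℝ), dot u (fun y => t * a y) = t * dot u a := by
      intro t u a
      unfold dot
      rw [Finset.mul_sum]
      exact Finset.sum_congr rfl fun y _ => by ring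
    have hq : ∀ (t : ℝ) (v : B), q (loc c (fun y => t * g y) v) = t ^ 2 * q (loc c g v) := by
      intro t v
      unfold q loc
      rw [Finset.mul_sum]
      refine Finset.sum_congr rfl fun i _ => ?_
      rw [Finset.mul_sum]
      exact Finset.sum_congr rfl fun j _ => by ring
    have hq0 : ∀ v : B, 0 ≤ q (loc c g v) := by
      intro v
      unfold q
      exact Finset.sum_nonneg fun i _ => Finset.sum_nonneg fun j _ => sq_nonneg _
    -- the exponential lower bound for both signs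
    have hexp : ∀ ε : ℝ, ε ^ 2 = 1 → Real.exp k0 ≤ ∫ a, Real.exp (ε * s * dot l a) ∂mu w c p 0 := by
      intro ε hε
      have h1 := hlow hN (fun y => ε * s * l y) (fun y => ε * (μ0 * s) * g y) (by simp [hg])
      simp only [hdl, hdr, hq] at h1
      refine le_trans (Real.exp_le_exp.mpr ?_) h1
      have h2 : ∑ v, ((ε * (μ0 * s)) ^ 2 * q (loc c g v) + ((ε * (μ0 * s)) ^ 2 * q (loc c g v)) ^ 2) ≤
          (μ0 ^ 2 * s ^ 2) * (D * M) := by
        refine le_trans ?_ (mul_le_mul_of_nonneg_left hs (by positivity))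
        rw [Finset.mul_sum]
        refine Finset.sum_le_sum fun v _ => ?_
        have e1 : (ε * (μ0 * s)) ^ 2 = μ0 ^ 2 * s ^ 2 := by
          rw [mul_pow, hε, one_mul, mul_pow]
        rw [e1]
        have e2 : μ0 ^ 2 * s ^ 2 ≤ 1 := by
          have : μ0 ^ 2 ≤ 1 := by nlinarith
          nlinarith [sq_nonneg s]
        have e3 : 0 ≤ μ0 ^ 2 * s ^ 2 := by positivity
        have e4 : (μ0 ^ 2 * s ^ 2 * q (loc c g v)) ^ 2 ≤ μ0 ^ 2 * s ^ 2 * q (loc c g v) ^ 2 := by
          have : (μ0 ^ 2 * s ^ 2) ^ 2 ≤ μ0 ^ 2 * s ^ 2 := by nlinarith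
          calc (μ0 ^ 2 * s ^ 2 * q (loc c g v)) ^ 2 = (μ0 ^ 2 * s ^ 2) ^ 2 * q (loc c g v) ^ 2 := by ring
            _ ≤ _ := mul_le_mul_of_nonneg_right this (sq_nonneg _)
        linarith
      have h3 : (μ0 ^ 2 * s ^ 2) * (D * M) = μ0 ^ 2 * D := by
        rw [hs2]; field_simp
      rw [h3] at h2
      have h4 : ε * (μ0 * s) * (ε * s * dot l g) = μ0 * (dot l g / M) := by
        calc ε * (μ0 * s) * (ε * s * dot l g) = ε ^ 2 * μ0 * s ^ 2 * dot l g := by ring
          _ = μ0 * (dot l g / M) := by rw [hε, hs2]; ring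
      have h5 : 1 / D ≤ dot l g / M := by
        rw [div_le_div_iff₀ hD hMp]; linarith
      have h6 : K1 * ∑ v, ((ε * (μ0 * s)) ^ 2 * q (loc c g v) + ((ε * (μ0 * s)) ^ 2 * q (loc c g v)) ^ 2) ≤
          K1 * (μ0 ^ 2 * D) := mul_le_mul_of_nonneg_left h2 hK1p.le
      have h7 : K1 * (μ0 ^ 2 * D) ≤ μ0 * (1 / (2 * D)) := by
        calc K1 * (μ0 ^ 2 * D) = μ0 * (K1 * μ0 * D) := by ring
          _ ≤ μ0 * (1 / (2 * D)) := mul_le_mul_of_nonneg_left hμ2 hμpos.le
      have h8 : μ0 * (1 / D) ≤ μ0 * (dot l g / M) := mul_le_mul_of_nonneg_left h5 hμpos.le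
      have h9 : k0 = μ0 * (1 / D) - μ0 * (1 / (2 * D)) := by
        rw [hk0]; field_simp; ring
      linarith [h4.le, h4.ge]
    -- integrability
    have hmeas : Measurable fun a : A → ℝ => dot l a := by
      unfold dot
      fun_prop
    have hdabs : ∀ a : A → ℝ, |dot l a| ≤ (∑ y, |l y|) * ∑ y, |a y| := by
      intro a
      unfold dot
      refine (Finset.abs_sum_le_sum_abs _ _).trans ?_
      rw [Finset.sum_mul]
      refine Finset.sum_le_sum fun y _ => ?_
      rw [abs_mul]
      exact mul_le_mul_of_nonneg_left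
        (Finset.single_le_sum (f := fun y => |a y|) (fun _ _ => abs_nonneg _) (Finset.mem_univ y))
        (abs_nonneg _)
    have hL0 : 0 ≤ ∑ y, |l y| := Finset.sum_nonneg fun _ _ => abs_nonneg _
    have hint : ∀ t : ℝ, Integrable (fun a => Real.exp (t * dot l a)) (mu w c p 0) := by
      intro t
      refine mu_int hw hN 0 (by fun_prop) ⟨1 + |t| * ∑ y, |l y|, fun a => ?_⟩
      rw [Real.abs_exp]
      have hK : 1 ≤ 1 + |t| * ∑ y, |l y| := by
        have : 0 ≤ |t| * ∑ y, |l y| := by positivity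
        linarith
      have hS : 0 ≤ ∑ y, |a y| := Finset.sum_nonneg fun _ _ => abs_nonneg _
      have h1 : t * dot l a ≤ (1 + |t| * ∑ y, |l y|) * ∑ y, |a y| := by
        have h2 : t * dot l a ≤ |t| * |dot l a| := by rw [← abs_mul]; exact le_abs_self _
        have h3 : |t| * |dot l a| ≤ |t| * ((∑ y, |l y|) * ∑ y, |a y|) :=
          mul_le_mul_of_nonneg_left (hdabs a) (abs_nonneg _)
        nlinarith
      calc Real.exp (t * dot l a) ≤ Real.exp ((1 + |t| * ∑ y, |l y|) * ∑ y, |a y|) :=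
            Real.exp_le_exp.mpr h1
        _ ≤ (1 + |t| * ∑ y, |l y|) * Real.exp ((1 + |t| * ∑ y, |l y|) * ∑ y, |a y|) :=
            le_mul_of_one_le_left (Real.exp_pos _).le hK
    have hint2 : Integrable (fun a => dot l a ^ 2) (mu w c p 0) := by
      refine mu_int hw hN 0 (by fun_prop) ⟨2 + 2 * ∑ y, |l y|, fun a => ?_⟩
      have hS : 0 ≤ ∑ y, |a y| := Finset.sum_nonneg fun _ _ => abs_nonneg _
      have h7 : dot l a ^ 2 ≤ 2 * Real.exp |dot l a| := by
        have := Real.quadratic_le_exp_of_nonneg (abs_nonneg (dot l a))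
        rw [sq_abs] at this
        nlinarith [abs_nonneg (dot l a)]
      rw [abs_of_nonneg (sq_nonneg _)]
      refine h7.trans ?_
      have h8 : |dot l a| ≤ (2 + 2 * ∑ y, |l y|) * ∑ y, |a y| := by
        have := hdabs a
        nlinarith
      calc 2 * Real.exp |dot l a| ≤ 2 * Real.exp ((2 + 2 * ∑ y, |l y|) * ∑ y, |a y|) := by
            have := Real.exp_le_exp.mpr h8
            linarith
        _ ≤ (2 + 2 * ∑ y, |l y|) * Real.exp ((2 + 2 * ∑ y, |l y|) * ∑ y, |a y|) := by
            apply mul_le_mul_of_nonneg_right _ (Real.exp_pos _).le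
            linarith
    -- subgaussian upper bounds
    have hsg := (hsub hN l (D * M) (by positivity) hl).1
    have hup : ∀ ε : ℝ, ε ^ 2 = 9 → ∫ a, Real.exp (ε * s * dot l a) ∂mu w c p 0 ≤
        Real.exp (9 * K2 * D) := by
      intro ε hε
      refine (hsg (ε * s)).trans (Real.exp_le_exp.mpr ?_)
      have : K2 * (ε * s) ^ 2 * (D * M) = 9 * K2 * D := by
        rw [mul_pow, hε, hs2]; field_simp
      exact this.le
    -- integrate the pointwise inequality
    have hpt : ∀ a : A → ℝ, Real.exp (s * dot l a) + Real.exp (-s * dot l a) ≤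
        2 + s ^ 2 / (2 * θ) * dot l a ^ 2 + θ * (Real.exp (3 * s * dot l a) + Real.exp (-3 * s * dot l a)) := by
      intro a
      have := fr_pt (s * dot l a) θ hθp
      have e1 : -(s * dot l a) = -s * dot l a := by ring
      have e2 : 3 * (s * dot l a) = 3 * s * dot l a := by ring
      have e3 : -(3 * s * dot l a) = -3 * s * dot l a := by ring
      have e4 : (s * dot l a) ^ 2 / (2 * θ) = s ^ 2 / (2 * θ) * dot l a ^ 2 := by ring
      rw [e1, e2, e3, e4] at this
      exact this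
    have hI := integral_mono ((hint s).add (hint (-s)))
      (((integrable_const (2 : ℝ)).add (hint2.const_mul (s ^ 2 / (2 * θ)))).add
        (((hint (3 * s)).add (hint (-3 * s))).const_mul θ)) hpt
    have hI1 : ∫ a, (Real.exp (s * dot l a) + Real.exp (-s * dot l a)) ∂mu w c p 0 =
        ∫ a, Real.exp (s * dot l a) ∂mu w c p 0 + ∫ a, Real.exp (-s * dot l a) ∂mu w c p 0 :=
      integral_add (hint s) (hint (-s))
    have hI2 : ∫ a, (2 + s ^ 2 / (2 * θ) * dot l a ^ 2 +
          θ * (Real.exp (3 * s * dot l a) + Real.exp (-3 * s * dot l a))) ∂mu w c p 0 =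
        2 + s ^ 2 / (2 * θ) * ∫ a, dot l a ^ 2 ∂mu w c p 0 +
          θ * (∫ a, Real.exp (3 * s * dot l a) ∂mu w c p 0 +
            ∫ a, Real.exp (-3 * s * dot l a) ∂mu w c p 0) := by
      have J1 : Integrable (fun a => 2 + s ^ 2 / (2 * θ) * dot l a ^ 2) (mu w c p 0) :=
        (integrable_const (2 : ℝ)).add (hint2.const_mul (s ^ 2 / (2 * θ)))
      have J2 : Integrable (fun a => θ * (Real.exp (3 * s * dot l a) + Real.exp (-3 * s * dot l a)))
          (mu w c p 0) := ((hint (3 * s)).add (hint (-3 * s))).const_mul θ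
      rw [integral_add J1 J2,
        integral_add (integrable_const (2 : ℝ)) (hint2.const_mul (s ^ 2 / (2 * θ))),
        integral_const_mul, integral_const_mul, integral_add (hint (3 * s)) (hint (-3 * s))]
      simp
    have hI' : ∫ a, (Real.exp (s * dot l a) + Real.exp (-s * dot l a)) ∂mu w c p 0 ≤
        ∫ a, (2 + s ^ 2 / (2 * θ) * dot l a ^ 2 +
          θ * (Real.exp (3 * s * dot l a) + Real.exp (-3 * s * dot l a))) ∂mu w c p 0 := hI
    rw [hI1, hI2] at hI'
    have ha := hexp 1 (by norm_num)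
    have hb := hexp (-1) (by norm_num)
    have hc := hup 3 (by norm_num)
    have hd' := hup (-3) (by norm_num)
    rw [one_mul] at ha
    have hb' : Real.exp k0 ≤ ∫ a, Real.exp (-s * dot l a) ∂mu w c p 0 := by
      have e : (-1 : ℝ) * s = -s := by ring
      rwa [e] at hb
    have hθT : θ * (∫ a, Real.exp (3 * s * dot l a) ∂mu w c p 0 +
            ∫ a, Real.exp (-3 * s * dot l a) ∂mu w c p 0) ≤ E0 := by
      calc θ * (∫ a, Real.exp (3 * s * dot l a) ∂mu w c p 0 +
            ∫ a, Real.exp (-3 * s * dot l a) ∂mu w c p 0) ≤ θ * (T / 2) := by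
            apply mul_le_mul_of_nonneg_left _ hθp.le
            rw [hT]; linarith
        _ = E0 := by rw [hθ]; field_simp
    have hfin : E0 ≤ s ^ 2 / (2 * θ) * ∫ a, dot l a ^ 2 ∂mu w c p 0 := by
      rw [hE0] at *
      linarith
    rw [hs2] at hfin
    have h1 : 1 / M / (2 * θ) * ∫ a, dot l a ^ 2 ∂mu w c p 0 =
        (∫ a, dot l a ^ 2 ∂mu w c p 0) / (2 * θ * M) := by
      field_simp
    rw [h1, le_div_iff₀ (by positivity)] at hfin
    linarith

end QG
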