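import Mathlib
import Pool.Agent.Lib_helper69.QG.Defs
import Pool.Agent.Lib_helper69.QG.Field
import Pool.Agent.Lib_helper69.QG.Geo

set_option autoImplicit false

namespace QG

open Finset

/-- the test function -/
noncomputable def tf {A : Type} (lev : A → ℕ) (K : ℕ) (y : A) : ℝ :=
  ∑ k ∈ range (K + 1), min 1 ((lev y : ℝ) / 2 ^ k)

theorem pl_geom (k j : ℕ) : ∑ i ∈ range (k + 1 + j), (1 / 2 : ℝ) ^ i * 4 ^ (min k i) ≤
    3 * 2 ^ k - 2 ^ k * (1 / 2 : ℝ) ^ j := by
  induction j with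
  | zero =>
    have h1 : ∀ n : ℕ, n ≤ k + 1 → ∑ i ∈ range n, (1 / 2 : ℝ) ^ i * 4 ^ (min k i) = 2 ^ n - 1 := by
      intro n
      induction n with
      | zero => intro _; simp
      | succ n ih =>
        intro hn
        rw [Finset.sum_range_succ, ih (by omega), min_eq_right (by omega : n ≤ k), ← mul_pow]
        norm_num
        ring
    rw [add_zero, h1 (k + 1) le_rfl]
    have h2 : (0 : ℝ) < 2 ^ k := by positivity
    rw [pow_succ, pow_zero]
    linarith
  | succ j ih =>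
    rw [← add_assoc, Finset.sum_range_succ, min_eq_left (by omega : k ≤ k + 1 + j)]
    have h3 : (1 / 2 : ℝ) ^ (k + 1 + j) * 4 ^ k = 2 ^ k * (1 / 2 : ℝ) ^ (j + 1) := by
      have h4 : k + 1 + j = k + (j + 1) := by omega
      rw [h4, pow_add (1 / 2 : ℝ) k (j + 1)]
      have h5 : (1 / 2 : ℝ) ^ k * 4 ^ k = 2 ^ k := by
        rw [← mul_pow]; norm_num
      calc (1 / 2 : ℝ) ^ k * (1 / 2 : ℝ) ^ (j + 1) * 4 ^ k
          = ((1 / 2 : ℝ) ^ k * 4 ^ k) * (1 / 2 : ℝ) ^ (j + 1) := by ring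
        _ = _ := by rw [h5]
    rw [h3]
    have h6 : (1 / 2 : ℝ) ^ (j + 1) = (1 / 2 : ℝ) ^ j * (1 / 2) := pow_succ _ _
    have h7 : (2 : ℝ) ^ k * (1 / 2 : ℝ) ^ (j + 1) = 2 ^ k * (1 / 2 : ℝ) ^ j * (1 / 2) := by
      rw [h6]; ring
    linarith

section
variable {A B : Type} [Fintype B]

open Classical in
/-- the bound for the oscillation of the test function in a cell -/
noncomputable def pl_m (c : B → Fin 4 → A) (lev : A → ℕ) (K : ℕ) (v : B) : ℝ :=
  ∑ k ∈ range (K + 1), if v ∈ clv c lev k then (1 / 2 : ℝ) ^ k else 0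

theorem pl_m_nonneg (c : B → Fin 4 → A) (lev : A → ℕ) (K : ℕ) (v : B) : 0 ≤ pl_m c lev K v := by
  unfold pl_m
  apply Finset.sum_nonneg
  intro k _
  split_ifs <;> positivity

theorem pl_m_le (c : B → Fin 4 → A) (lev : A → ℕ) (K : ℕ) (v : B) : pl_m c lev K v ≤ 2 := by
  classical
  unfold pl_m
  have h1 : ∀ n : ℕ, ∑ k ∈ range n, (1 / 2 : ℝ) ^ k = 2 - 2 * (1 / 2 : ℝ) ^ n := by
    intro n
    induction n with
    | zero => simp
    | succ n ih => rw [Finset.sum_range_succ, ih, pow_succ]; ring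
  have h2 : ∑ k ∈ range (K + 1), (if v ∈ clv c lev k then (1 / 2 : ℝ) ^ k else 0) ≤
      ∑ k ∈ range (K + 1), (1 / 2 : ℝ) ^ k := by
    apply Finset.sum_le_sum
    intro k _
    split_ifs
    · exact le_rfl
    · positivity
  have h3 : (0 : ℝ) < (1 / 2 : ℝ) ^ (K + 1) := by positivity
  rw [h1] at h2
  linarith

theorem pl_osc {c : B → Fin 4 → A} {lev : A → ℕ} (K : ℕ)
    (hadj : ∀ v i j, lev (c v i) ≤ lev (c v j) + 1) (v : B) (i j : Fin 4) :
    |tf lev K (c v i) - tf lev K (c v j)| ≤ pl_m c lev K v := by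
  unfold tf pl_m
  rw [← Finset.sum_sub_distrib]
  refine le_trans (Finset.abs_sum_le_sum_abs _ _) ?_
  apply Finset.sum_le_sum
  intro k _
  have hk : (0 : ℝ) < 2 ^ k := by positivity
  split_ifs with hv
  · refine le_trans (abs_min_sub_min_le_max _ _ _ _) ?_
    rw [sub_self, abs_zero]
    apply max_le (by positivity)
    rw [← sub_div, abs_div, abs_of_pos hk, div_le_iff₀ hk, ← mul_pow]
    have h1 : ((lev (c v i) : ℕ) : ℝ) ≤ (lev (c v j) : ℝ) + 1 := by exact_mod_cast hadj v i j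
    have h2 : ((lev (c v j) : ℕ) : ℝ) ≤ (lev (c v i) : ℝ) + 1 := by exact_mod_cast hadj v j i
    norm_num
    rw [abs_le]
    constructor <;> linarith
  · have h1 : ∀ s : Fin 4, 2 ^ k ≤ lev (c v s) := by
      intro s
      by_contra hs
      apply hv
      unfold clv
      rw [Finset.mem_filter]
      refine ⟨Finset.mem_univ _, fun r => ?_⟩
      have := hadj v r s
      omega
    have h2 : ∀ s : Fin 4, min 1 ((lev (c v s) : ℝ) / 2 ^ k) = 1 := by
      intro s
      apply min_eq_left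
      rw [le_div_iff₀ hk, one_mul]
      exact_mod_cast h1 s
    rw [h2, h2, sub_self, abs_zero]

theorem pl_q {c : B → Fin 4 → A} {lev : A → ℕ} (K : ℕ)
    (hadj : ∀ v i j, lev (c v i) ≤ lev (c v j) + 1) (v : B) :
    q (loc c (tf lev K) v) ≤ 12 * pl_m c lev K v ^ 2 := by
  have h1 : ∀ i j : Fin 4, (tf lev K (c v i) - tf lev K (c v j)) ^ 2 ≤ pl_m c lev K v ^ 2 := by
    intro i j
    rw [← sq_abs]
    exact pow_le_pow_left₀ (abs_nonneg _) (pl_osc K hadj v i j) 2
  simp only [q, loc, Fin.sum_univ_four, sub_self]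
  have h01 := h1 0 1
  have h02 := h1 0 2
  have h03 := h1 0 3
  have h10 := h1 1 0
  have h12 := h1 1 2
  have h13 := h1 1 3
  have h20 := h1 2 0
  have h21 := h1 2 1
  have h23 := h1 2 3
  have h30 := h1 3 0
  have h31 := h1 3 1
  have h32 := h1 3 2
  linarith

theorem pl_sum [Fintype A] [DecidableEq A] {c : B → Fin 4 → A} {p : A} {lev : A → ℕ} {K : ℕ} {N Cg : ℝ}
    (hL : Local c p lev K N Cg) : ∑ v, pl_m c lev K v ^ 2 ≤ 3 * Cg * (K + 1) := by
  classical
  have hC : 0 ≤ Cg := by linarith [hL.one_le]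
  have h1 : ∀ v, pl_m c lev K v ^ 2 = ∑ k ∈ range (K + 1), ∑ k' ∈ range (K + 1),
      (if v ∈ clv c lev k then (1 / 2 : ℝ) ^ k else 0) *
        (if v ∈ clv c lev k' then (1 / 2 : ℝ) ^ k' else 0) := by
    intro v
    rw [sq, pl_m, Finset.sum_mul_sum]
  simp only [h1]
  rw [Finset.sum_comm]
  have h2 : ∀ k ∈ range (K + 1), ∑ v, ∑ k' ∈ range (K + 1),
      (if v ∈ clv c lev k then (1 / 2 : ℝ) ^ k else 0) *
        (if v ∈ clv c lev k' then (1 / 2 : ℝ) ^ k' else 0) ≤ 3 * Cg := by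
    intro k hk
    rw [Finset.mem_range] at hk
    rw [Finset.sum_comm]
    have h3 : ∀ k' ∈ range (K + 1), ∑ v, (if v ∈ clv c lev k then (1 / 2 : ℝ) ^ k else 0) *
        (if v ∈ clv c lev k' then (1 / 2 : ℝ) ^ k' else 0) ≤
        (1 / 2 : ℝ) ^ k * Cg * ((1 / 2 : ℝ) ^ k' * 4 ^ (min k k')) := by
      intro k' hk'
      rw [Finset.mem_range] at hk'
      have h4 : ∑ v, (if v ∈ clv c lev k then (1 / 2 : ℝ) ^ k else 0) *
          (if v ∈ clv c lev k' then (1 / 2 : ℝ) ^ k' else 0) ≤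
          ∑ v, if v ∈ clv c lev (min k k') then (1 / 2 : ℝ) ^ k * (1 / 2 : ℝ) ^ k' else 0 := by
        apply Finset.sum_le_sum
        intro v _
        rcases le_total k k' with hle | hle
        · rw [min_eq_left hle]
          split_ifs
          · exact le_rfl
          · rw [mul_zero]; positivity
          · rw [zero_mul]
          · rw [zero_mul]
        · rw [min_eq_right hle]
          split_ifs
          · exact le_rfl
          · rw [mul_zero]
          · rw [zero_mul]; positivity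
          · rw [zero_mul]
      refine le_trans h4 ?_
      rw [Finset.sum_ite_mem, Finset.univ_inter, Finset.sum_const, nsmul_eq_mul]
      have h5 := hL.count (min k k') (by omega)
      have h6 : (0 : ℝ) ≤ (1 / 2 : ℝ) ^ k * (1 / 2 : ℝ) ^ k' := by positivity
      calc ((clv c lev (min k k')).card : ℝ) * ((1 / 2 : ℝ) ^ k * (1 / 2 : ℝ) ^ k')
          ≤ (Cg * 4 ^ (min k k')) * ((1 / 2 : ℝ) ^ k * (1 / 2 : ℝ) ^ k') :=
            mul_le_mul_of_nonneg_right h5 h6
        _ = _ := by ring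
    refine le_trans (Finset.sum_le_sum h3) ?_
    rw [← Finset.mul_sum]
    obtain ⟨j, hj⟩ : ∃ j, K + 1 = k + 1 + j := ⟨K - k, by omega⟩
    have h7 := pl_geom k j
    rw [hj]
    have h8 : (0 : ℝ) ≤ 2 ^ k * (1 / 2 : ℝ) ^ j := by positivity
    have h9 : (1 / 2 : ℝ) ^ k * 2 ^ k = 1 := by rw [← mul_pow]; norm_num
    calc (1 / 2 : ℝ) ^ k * Cg * ∑ i ∈ range (k + 1 + j), (1 / 2 : ℝ) ^ i * 4 ^ (min k i)
        ≤ (1 / 2 : ℝ) ^ k * Cg * (3 * 2 ^ k) :=
          mul_le_mul_of_nonneg_left (by linarith) (by positivity)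
      _ = 3 * Cg * ((1 / 2 : ℝ) ^ k * 2 ^ k) := by ring
      _ = 3 * Cg := by rw [h9, mul_one]
  refine le_trans (Finset.sum_le_sum h2) ?_
  rw [Finset.sum_const, Finset.card_range, nsmul_eq_mul]
  push_cast
  linarith

end

theorem tf_energy {A B : Type} [Fintype A] [DecidableEq A] [Fintype B] {c : B → Fin 4 → A} {p : A}
    {lev : A → ℕ} {K : ℕ} {N Cg : ℝ} (hL : Local c p lev K N Cg) :
    ∑ v, (q (loc c (tf lev K) v) + q (loc c (tf lev K) v) ^ 2) ≤ 2000 * Cg * (K + 1) := by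
  have h1 : ∀ v : B, q (loc c (tf lev K) v) + q (loc c (tf lev K) v) ^ 2 ≤
      588 * pl_m c lev K v ^ 2 := by
    intro v
    have h2 := pl_q K hL.adj v
    have h3 := pl_m_le c lev K v
    have h4 := pl_m_nonneg c lev K v
    have h5 : 0 ≤ q (loc c (tf lev K) v) := by
      unfold q
      exact Finset.sum_nonneg fun i _ => Finset.sum_nonneg fun j _ => sq_nonneg _
    have h6 : pl_m c lev K v ^ 2 ≤ 4 := by nlinarith
    have h7 : q (loc c (tf lev K) v) ≤ 48 := by linarith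
    nlinarith
  refine le_trans (Finset.sum_le_sum fun v _ => h1 v) ?_
  rw [← Finset.mul_sum]
  have h8 := pl_sum hL
  have h9 : 0 ≤ Cg * ((K : ℝ) + 1) := by
    have := hL.one_le
    positivity
  nlinarith

theorem tf_value {A : Type} (lev : A → ℕ) (K : ℕ) (y : A) :
    (lev y = 0 → tf lev K y = 0) ∧ (2 ^ K ≤ lev y → tf lev K y = K + 1) := by
  constructor
  · intro h
    unfold tf
    apply Finset.sum_eq_zero
    intro k _
    rw [h]
    simp
  · intro h
    unfold tf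
    have h1 : ∀ k ∈ range (K + 1), min 1 ((lev y : ℝ) / 2 ^ k) = 1 := by
      intro k hk
      rw [Finset.mem_range] at hk
      apply min_eq_left
      have hk2 : (0 : ℝ) < 2 ^ k := by positivity
      rw [le_div_iff₀ hk2, one_mul]
      have h2 : 2 ^ k ≤ lev y := le_trans (Nat.pow_le_pow_right (by norm_num) (by omega)) h
      exact_mod_cast h2
    rw [Finset.sum_congr rfl h1, Finset.sum_const, Finset.card_range, nsmul_eq_mul, mul_one]
    push_cast
    ring

end QG
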