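import Mathlib
import Pool.Agent.Lib_helper69.QG.Defs
import Pool.Agent.Lib_helper69.QG.Field
import Pool.Agent.Lib_helper69.QG.Geo
import Pool.Agent.Lib_helper69.QG.W.fe
import Pool.Agent.Lib_helper69.QG.W.fi
import Pool.Agent.Lib_helper69.QG.W.fp
import Pool.Agent.Lib_helper69.QG.W.fr
import Pool.Agent.Lib_helper69.QG.W.pl

set_option autoImplicit false

namespace QG

open MeasureTheory

theorem tg_dot {A : Type} [Fintype A] [DecidableEq A] (x y : A) (a : A → ℝ) :
    dot (Pi.single x (1:ℝ) - Pi.single y (1:ℝ)) a = a x - a y := by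
  simp only [dot, Pi.sub_apply, sub_mul, Finset.sum_sub_distrib]
  congr 1
  · rw [Finset.sum_eq_single x]
    · simp
    · intro b _ hb
      simp [Pi.single_eq_of_ne hb]
    · intro h; exact absurd (Finset.mem_univ _) h
  · rw [Finset.sum_eq_single y]
    · simp
    · intro b _ hb
      simp [Pi.single_eq_of_ne hb]
    · intro h; exact absurd (Finset.mem_univ _) h

theorem tg_q {A B : Type} (c : B → Fin 4 → A) (g : A → ℝ) (r : ℝ) (v : B) :
    q (loc c (fun y => g y - r) v) = q (loc c g v) := by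
  simp only [q, loc]
  refine Finset.sum_congr rfl fun i _ => Finset.sum_congr rfl fun j _ => ?_
  ring

/-- moments of the height difference -/
theorem height_moments {w : (Fin 4 → ℝ) → ℝ} {G : Fin 4 → (Fin 4 → ℝ) → ℝ} {C : ℝ} (hw : Cell w G C)
    {Cg : ℝ} (hCg : 1 ≤ Cg) : ∃ C' κ : ℝ, 1 ≤ C' ∧ 0 < κ ∧
    ∀ {A B : Type} [Fintype A] [DecidableEq A] [Fintype B] {c : B → Fin 4 → A} {p : A} {R : ℝ}
      {K : ℕ} {z : Fin 2 → A} {lev : Fin 2 → A → ℕ} {ph : Fin 2 → ℕ → A → ℝ},
      Geo c p R K Cg z lev ph → 1 ≤ K →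
      κ * K ≤ ∫ a, (a (z 1) - a (z 0)) ^ 2 ∂mu w c p 0 ∧
        ∫ a, (a (z 1) - a (z 0)) ^ 2 ∂mu w c p 0 ≤ C' * K ∧
        ∫ a, (a (z 1) - a (z 0)) ^ 4 ∂mu w c p 0 ≤ C' * (K : ℝ) ^ 2 := by
  obtain ⟨Ks, hKs, hsub⟩ := subgauss hw
  obtain ⟨κ, hκ, hlow⟩ := var_lower hw (4000 * Cg)
  refine ⟨Ks * Cg ^ 2, κ, ?_, hκ, ?_⟩
  · have : (1:ℝ) ≤ Cg ^ 2 := one_le_pow₀ hCg
    nlinarith
  · intro A B _ _ _ c p R K z lev ph hG hK
    have hKR : (1:ℝ) ≤ K := by exact_mod_cast hK
    set l : A → ℝ := Pi.single (z 1) (1:ℝ) - Pi.single (z 0) (1:ℝ) with hl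
    have hdot : ∀ a : A → ℝ, dot l a = a (z 1) - a (z 0) := fun a => tg_dot _ _ _
    have hdiam : ∀ h : A → ℝ, dot l h ^ 2 ≤ (Cg * K) * En c h := by
      intro h
      rw [hdot]
      exact (hG.locl 0).diam (z 1) (z 0) h
    have hEn : ∀ h : A → ℝ, 0 ≤ En c h := by
      intro h
      refine Finset.sum_nonneg fun v _ => ?_
      rw [q]
      positivity
    obtain ⟨-, h2, h4⟩ := hsub hG.net l (Cg * K) (by positivity) hdiam
    simp only [hdot] at h2 h4
    refine ⟨?_, ?_, ?_⟩
    · set g : A → ℝ := fun y => tf (lev 0) K y - ((K:ℝ) + 1) with hg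
      have hgp : g p = 0 := by
        have := (tf_value (lev 0) K p).2 (hG.locl 0).far.le
        rw [hg]
        simp only
        rw [this]
        ring
      have hdg : dot l g = K + 1 := by
        rw [hdot, hg]
        simp only
        have e1 : 2 ^ K < lev 0 (z 1) := hG.sep 1 0 (z 1) (by decide) (by rw [hG.zero 1]; positivity)
        rw [(tf_value (lev 0) K (z 1)).2 e1.le, (tf_value (lev 0) K (z 0)).1 (hG.zero 0)]
        ring
      have hen : ∑ v, (q (loc c g v) + q (loc c g v) ^ 2) ≤ 4000 * Cg * K := by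
        have e1 := tf_energy (hG.locl 0)
        have e2 : ∀ v, q (loc c g v) = q (loc c (tf (lev 0) K) v) := fun v => tg_q c _ _ v
        simp only [e2]
        refine e1.trans ?_
        nlinarith
      have := hlow hG.net l g K hKR hgp (fun h => by
        refine (hdiam h).trans ?_
        have := hEn h
        gcongr
        linarith) (by rw [hdg]; nlinarith) hen
      simp only [hdot] at this
      exact this
    · refine h2.trans ?_
      have : Ks * (Cg * K) = Ks * Cg * K := by ring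
      rw [this]
      gcongr
      nlinarith
    · refine h4.trans (le_of_eq ?_)
      ring

end QG
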