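import Mathlib
import Pool.Agent.Lib_helper69.QG.Defs
import Pool.Agent.Lib_helper69.QG.Field
import Pool.Agent.Lib_helper69.QG.W.fe
import Pool.Agent.Lib_helper69.QG.W.fm
import Pool.Agent.Lib_helper69.QG.W.fp

set_option autoImplicit false

namespace QG

open MeasureTheory

variable {A B : Type} [Fintype A] [DecidableEq A] [Fintype B] {w : (Fin 4 → ℝ) → ℝ}
  {G : Fin 4 → (Fin 4 → ℝ) → ℝ} {C : ℝ} {c : B → Fin 4 → A} {p : A} {R : ℝ}

/-- polynomial growth is at most exponential growth -/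
theorem gc_growth (n : ℕ) {A1 : ℝ} (hA : 0 ≤ A1) :
    ∃ K : ℝ, ∀ S : ℝ, 0 ≤ S → ∀ x : ℝ, x ≤ A1 * (1 + S) ^ n → x ≤ K * Real.exp (K * S) := by
  refine ⟨A1 * (n.factorial * Real.exp 1) + 1, fun S hS x hx => ?_⟩
  have h1 : (1 + S) ^ n ≤ n.factorial * Real.exp (1 + S) := by
    have := Real.pow_div_factorial_le_exp (1 + S) (by linarith) n
    rw [div_le_iff₀ (by positivity)] at this
    linarith
  have h2 : A1 * (1 + S) ^ n ≤ (A1 * (n.factorial * Real.exp 1)) * Real.exp S := by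
    rw [Real.exp_add] at h1
    have := mul_le_mul_of_nonneg_left h1 hA
    nlinarith [this]
  have hB : 0 ≤ A1 * (n.factorial * Real.exp 1) := by positivity
  have h3 : Real.exp S ≤ Real.exp ((A1 * (n.factorial * Real.exp 1) + 1) * S) := by
    refine Real.exp_le_exp.mpr ?_
    nlinarith [mul_nonneg hB hS]
  have h4 : (A1 * (n.factorial * Real.exp 1)) * Real.exp S ≤
      (A1 * (n.factorial * Real.exp 1) + 1) *
        Real.exp ((A1 * (n.factorial * Real.exp 1) + 1) * S) :=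
    mul_le_mul (by linarith) h3 (Real.exp_pos _).le (by linarith)
  linarith

omit [DecidableEq A] in
theorem gc_abs_le (a : A → ℝ) (y : A) : |a y| ≤ ∑ y, |a y| :=
  Finset.single_le_sum (f := fun y => |a y|) (fun _ _ => abs_nonneg _) (Finset.mem_univ y)

/-- a difference of heights as a pairing -/
theorem gc_dot (a : A → ℝ) (x y : A) :
    dot (fun u => (if u = y then (1 : ℝ) else 0) - if u = x then (1 : ℝ) else 0) a = a y - a x := by
  unfold dot
  simp [sub_mul, Finset.sum_sub_distrib]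

/-- fourth moment of a difference under a coupling -/
theorem gc_diff4 (hw : Cell w G C) (hN : Net c p R) {K R1 : ℝ}
    (hK : ∀ (l : A → ℝ) (R1 : ℝ), 0 ≤ R1 →
      (∀ h : A → ℝ, dot l h ^ 2 ≤ R1 * En c h) →
      (∀ t : ℝ, ∫ a, Real.exp (t * dot l a) ∂mu w c p 0 ≤ Real.exp (K * t ^ 2 * R1)) ∧
      ∫ a, dot l a ^ 2 ∂mu w c p 0 ≤ K * R1 ∧ ∫ a, dot l a ^ 4 ∂mu w c p 0 ≤ K * R1 ^ 2)
    (hR : 0 ≤ R1) {x y : A} (hd : ∀ h : A → ℝ, (h y - h x) ^ 2 ≤ R1 * En c h)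
    {π : Measure ((A → ℝ) × (A → ℝ))} (hπ : Cpl w c p 0 π) :
    Integrable (fun z : (A → ℝ) × (A → ℝ) => ((z.2 - z.1) y - (z.2 - z.1) x) ^ 4) π ∧
    ∫ z, ((z.2 - z.1) y - (z.2 - z.1) x) ^ 4 ∂π ≤ 16 * K * R1 ^ 2 := by
  have hm : ∀ (s : A), Measurable fun z : (A → ℝ) × (A → ℝ) => z.1 s := fun s =>
    (measurable_pi_apply s).comp measurable_fst
  have hm2 : ∀ (s : A), Measurable fun z : (A → ℝ) × (A → ℝ) => z.2 s := fun s =>
    (measurable_pi_apply s).comp measurable_snd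
  have hbd : ∀ z : (A → ℝ) × (A → ℝ), ∀ s : A,
      |z.1 s| ≤ ∑ y, |z.1 y| + ∑ y, |z.2 y| ∧ |z.2 s| ≤ ∑ y, |z.1 y| + ∑ y, |z.2 y| := by
    intro z s
    have h1 := gc_abs_le z.1 s
    have h2 := gc_abs_le z.2 s
    have h3 : 0 ≤ ∑ y, |z.1 y| := Finset.sum_nonneg fun _ _ => abs_nonneg _
    have h4 : 0 ≤ ∑ y, |z.2 y| := Finset.sum_nonneg fun _ _ => abs_nonneg _
    exact ⟨by linarith, by linarith⟩
  have hS : ∀ z : (A → ℝ) × (A → ℝ), 0 ≤ ∑ y, |z.1 y| + ∑ y, |z.2 y| := fun z =>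
    add_nonneg (Finset.sum_nonneg fun _ _ => abs_nonneg _)
      (Finset.sum_nonneg fun _ _ => abs_nonneg _)
  obtain ⟨K1, hK1⟩ := gc_growth 4 (A1 := 256) (by norm_num)
  have key : ∀ F : (A → ℝ) × (A → ℝ) → ℝ, Measurable F →
      (∀ z, |F z| ≤ 4 * (∑ y, |z.1 y| + ∑ y, |z.2 y|)) →
      Integrable (fun z => F z ^ 4) π := by
    intro F hF hle
    refine cpl_int hw hN hπ (hF.pow_const 4) ⟨K1, fun z => hK1 _ (hS z) _ ?_⟩
    rw [abs_pow]
    have h5 := hle z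
    have h6 := hS z
    calc |F z| ^ 4 ≤ (4 * (1 + (∑ y, |z.1 y| + ∑ y, |z.2 y|))) ^ 4 :=
          pow_le_pow_left₀ (abs_nonneg _) (by linarith) 4
      _ = 256 * (1 + (∑ y, |z.1 y| + ∑ y, |z.2 y|)) ^ 4 := by ring
  have i1 : Integrable (fun z : (A → ℝ) × (A → ℝ) => (z.1 y - z.1 x) ^ 4) π := by
    refine key (fun z => z.1 y - z.1 x) ((hm y).sub (hm x)) fun z => ?_
    have h1 := (hbd z y).1
    have h2 := (hbd z x).1
    have h3 := abs_sub (z.1 y) (z.1 x)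
    have h4 := hS z
    linarith
  have i2 : Integrable (fun z : (A → ℝ) × (A → ℝ) => (z.2 y - z.2 x) ^ 4) π := by
    refine key (fun z => z.2 y - z.2 x) ((hm2 y).sub (hm2 x)) fun z => ?_
    have h1 := (hbd z y).2
    have h2 := (hbd z x).2
    have h3 := abs_sub (z.2 y) (z.2 x)
    have h4 := hS z
    linarith
  have i3 : Integrable (fun z : (A → ℝ) × (A → ℝ) => ((z.2 - z.1) y - (z.2 - z.1) x) ^ 4) π := by
    refine key (fun z => (z.2 - z.1) y - (z.2 - z.1) x) ?_ fun z => ?_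
    · simp only [Pi.sub_apply]
      exact ((hm2 y).sub (hm y)).sub ((hm2 x).sub (hm x))
    · simp only [Pi.sub_apply]
      have h1 := (hbd z y).1
      have h2 := (hbd z x).1
      have h1' := (hbd z y).2
      have h2' := (hbd z x).2
      have h3 := abs_sub (z.2 y - z.1 y) (z.2 x - z.1 x)
      have h4 := abs_sub (z.2 y) (z.1 y)
      have h5 := abs_sub (z.2 x) (z.1 x)
      linarith
  refine ⟨i3, ?_⟩
  have hmom := (hK (fun u => (if u = y then (1 : ℝ) else 0) - if u = x then (1 : ℝ) else 0) R1 hR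
    (fun h => by rw [gc_dot]; exact hd h)).2.2
  have hmom' : ∫ a, (a y - a x) ^ 4 ∂mu w c p 0 ≤ K * R1 ^ 2 := by
    have : (fun a : A → ℝ => dot (fun u => (if u = y then (1 : ℝ) else 0) -
        if u = x then (1 : ℝ) else 0) a ^ 4) = fun a => (a y - a x) ^ 4 := by
      funext a
      rw [gc_dot]
    rw [this] at hmom
    exact hmom
  have hF : Measurable fun a : A → ℝ => (a y - a x) ^ 4 :=
    ((measurable_pi_apply y).sub (measurable_pi_apply x)).pow_const 4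
  obtain ⟨e1, e2⟩ := cpl_fst hπ hF
  have hle : ∫ z, ((z.2 - z.1) y - (z.2 - z.1) x) ^ 4 ∂π ≤
      ∫ z, (8 * (z.1 y - z.1 x) ^ 4 + 8 * (z.2 y - z.2 x) ^ 4) ∂π := by
    refine integral_mono i3 ((i1.const_mul 8).add (i2.const_mul 8)) fun z => ?_
    simp only [Pi.sub_apply]
    nlinarith [sq_nonneg ((z.2 y - z.2 x) ^ 2 - (z.1 y - z.1 x) ^ 2),
      sq_nonneg ((z.2 y - z.2 x) + (z.1 y - z.1 x)),
      sq_nonneg ((z.2 y - z.2 x) - (z.1 y - z.1 x)),
      sq_nonneg (((z.2 y - z.2 x) + (z.1 y - z.1 x)) * ((z.2 y - z.2 x) - (z.1 y - z.1 x))),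
      sq_nonneg (((z.2 y - z.2 x) + (z.1 y - z.1 x)) ^ 2),
      mul_nonneg (sq_nonneg ((z.2 y - z.2 x) + (z.1 y - z.1 x)))
        (sq_nonneg ((z.2 y - z.2 x) - (z.1 y - z.1 x)))]
  rw [integral_add (i1.const_mul 8) (i2.const_mul 8), integral_const_mul, integral_const_mul,
    e1, e2] at hle
  linarith

/-- moments of the difference to the average over the annulus -/
theorem osc_moment {w : (Fin 4 → ℝ) → ℝ} {G : Fin 4 → (Fin 4 → ℝ) → ℝ} {C : ℝ} (hw : Cell w G C)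
    (Cg : ℝ) : ∃ K1 : ℝ, 1 ≤ K1 ∧ ∀ {A B : Type} [Fintype A] [DecidableEq A] [Fintype B]
      {c : B → Fin 4 → A} {p : A} {R : ℝ} {N : ℝ} {lev : A → ℕ} {K : ℕ}, Net c p R → 1 ≤ N →
      Local c p lev K N Cg → ∀ {π : Measure ((A → ℝ) × (A → ℝ))}, Cpl w c p 0 π →
      ∀ k, k < K → ∀ y : A, ∫ z, ((z.2 - z.1) y - kap lev k (z.2 - z.1)) ^ 4 ∂π ≤ K1 * N ^ 2 := by
  obtain ⟨K0, hK0, hsub⟩ := subgauss hw
  refine ⟨16 * K0 * Cg ^ 2 + 1, by nlinarith [mul_nonneg (by linarith : (0:ℝ) ≤ K0) (sq_nonneg Cg)],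
    ?_⟩
  intro A B _ _ _ c p R N lev K hN hN1 hL π hπ k hk y
  have hCg : 0 ≤ Cg * N := mul_nonneg (by linarith [hL.one_le]) (by linarith)
  have hne := hL.nonem k hk
  have hcard : (0 : ℝ) < (ann lev k).card := by exact_mod_cast hne.card_pos
  have hd : ∀ x : A, Integrable (fun z : (A → ℝ) × (A → ℝ) =>
      ((z.2 - z.1) y - (z.2 - z.1) x) ^ 4) π ∧
      ∫ z, ((z.2 - z.1) y - (z.2 - z.1) x) ^ 4 ∂π ≤ 16 * K0 * (Cg * N) ^ 2 := fun x =>
    gc_diff4 hw hN (hsub hN) hCg (fun h => hL.diam y x h) hπ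
  have hpt : ∀ z : (A → ℝ) × (A → ℝ), ((z.2 - z.1) y - kap lev k (z.2 - z.1)) ^ 4 ≤
      ∑ x ∈ ann lev k, (1 / ((ann lev k).card : ℝ)) *
        ((z.2 - z.1) y - (z.2 - z.1) x) ^ 4 := by
    intro z
    have h1 := Real.pow_arith_mean_le_arith_mean_pow_of_even (ann lev k)
      (fun _ => 1 / ((ann lev k).card : ℝ)) (fun x => (z.2 - z.1) y - (z.2 - z.1) x)
      (fun _ _ => by positivity) (by
        rw [Finset.sum_const, nsmul_eq_mul]
        field_simp) (n := 4) (by decide)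
    have h2 : ∑ x ∈ ann lev k, (1 / ((ann lev k).card : ℝ)) *
        ((z.2 - z.1) y - (z.2 - z.1) x) = (z.2 - z.1) y - kap lev k (z.2 - z.1) := by
      rw [← Finset.mul_sum, Finset.sum_sub_distrib, Finset.sum_const, nsmul_eq_mul]
      unfold kap
      field_simp
    rw [h2] at h1
    exact h1
  have hint : Integrable (fun z : (A → ℝ) × (A → ℝ) =>
      ∑ x ∈ ann lev k, (1 / ((ann lev k).card : ℝ)) *
        ((z.2 - z.1) y - (z.2 - z.1) x) ^ 4) π :=
    integrable_finsetSum _ fun x _ => (hd x).1.const_mul _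
  have hle : ∫ z, ((z.2 - z.1) y - kap lev k (z.2 - z.1)) ^ 4 ∂π ≤
      ∫ z, ∑ x ∈ ann lev k, (1 / ((ann lev k).card : ℝ)) *
        ((z.2 - z.1) y - (z.2 - z.1) x) ^ 4 ∂π := by
    refine integral_mono_of_nonneg (Filter.Eventually.of_forall fun z => ?_) hint
      (Filter.Eventually.of_forall hpt)
    exact (by decide : Even 4).pow_nonneg _
  rw [integral_finsetSum _ fun x _ => (hd x).1.const_mul _] at hle
  have hsum : ∑ x ∈ ann lev k, ∫ z, (1 / ((ann lev k).card : ℝ)) *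
        ((z.2 - z.1) y - (z.2 - z.1) x) ^ 4 ∂π ≤
      ∑ x ∈ ann lev k, (1 / ((ann lev k).card : ℝ)) * (16 * K0 * (Cg * N) ^ 2) := by
    refine Finset.sum_le_sum fun x _ => ?_
    rw [integral_const_mul]
    exact mul_le_mul_of_nonneg_left (hd x).2 (by positivity)
  have hfin : ∑ x ∈ ann lev k, (1 / ((ann lev k).card : ℝ)) * (16 * K0 * (Cg * N) ^ 2) =
      16 * K0 * (Cg * N) ^ 2 := by
    rw [Finset.sum_const, nsmul_eq_mul]
    field_simp
  rw [hfin] at hsum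
  have hlast : 16 * K0 * (Cg * N) ^ 2 ≤ (16 * K0 * Cg ^ 2 + 1) * N ^ 2 := by
    nlinarith [sq_nonneg N]
  exact hle.trans (hsum.trans hlast)

/-- the local dissipation is controlled by the local energies -/
theorem gc_DD_le (hw : Cell w G C) (t t' : Fin 4 → ℝ) :
    |DD G t t'| ≤ 16 * C * ((1 + q t) ^ 8 + (1 + q t') ^ 8) := by
  have hq : ∀ t : Fin 4 → ℝ, 0 ≤ q t := fun t =>
    Finset.sum_nonneg fun _ _ => Finset.sum_nonneg fun _ _ => sq_nonneg _
  have hd : ∀ (t : Fin 4 → ℝ) (i : Fin 4), |t i - t 0| ≤ 1 + q t := by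
    intro t i
    have h1 : (t i - t 0) ^ 2 ≤ q t := by
      unfold q
      have h2 : (t i - t 0) ^ 2 ≤ ∑ j, (t i - t j) ^ 2 :=
        Finset.single_le_sum (f := fun j => (t i - t j) ^ 2) (fun _ _ => sq_nonneg _)
          (Finset.mem_univ 0)
      have h3 : ∑ j, (t i - t j) ^ 2 ≤ ∑ i, ∑ j, (t i - t j) ^ 2 :=
        Finset.single_le_sum (f := fun i => ∑ j, (t i - t j) ^ 2)
          (fun _ _ => Finset.sum_nonneg fun _ _ => sq_nonneg _) (Finset.mem_univ i)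
      exact h2.trans h3
    have h4 := sq_abs (t i - t 0)
    nlinarith [sq_nonneg (|t i - t 0| - 1), abs_nonneg (t i - t 0)]
  have hDD : DD G t t' = ∑ i, ((t' i - t' 0) - (t i - t 0)) * (G i t' - G i t) := by
    have h5 : ∑ i, (G i t' - G i t) = 0 := by
      rw [Finset.sum_sub_distrib, hw.sumG, hw.sumG, sub_zero]
    have h6 : ∑ i, ((t' i - t' 0) - (t i - t 0)) * (G i t' - G i t) =
        ∑ i, (t' i - t i) * (G i t' - G i t) - (t' 0 - t 0) * ∑ i, (G i t' - G i t) := by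
      rw [Finset.mul_sum, ← Finset.sum_sub_distrib]
      refine Finset.sum_congr rfl fun i _ => ?_
      ring
    rw [h6, h5, mul_zero, sub_zero]
    rfl
  have hC : 0 ≤ C := by linarith [hw.one_le]
  set a := 1 + q t with ha
  set b := 1 + q t' with hb
  have ha1 : 1 ≤ a := by linarith [hq t]
  have hb1 : 1 ≤ b := by linarith [hq t']
  have hterm : ∀ i, |((t' i - t' 0) - (t i - t 0)) * (G i t' - G i t)| ≤
      (a + b) * (C * (a ^ 2 + b ^ 2)) := by
    intro i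
    rw [abs_mul]
    refine mul_le_mul ?_ ?_ (abs_nonneg _) (by linarith)
    · have := abs_sub (t' i - t' 0) (t i - t 0)
      have h1 := hd t i
      have h2 := hd t' i
      linarith
    · have := abs_sub (G i t') (G i t)
      have h1 := hw.grow i t
      have h2 := hw.grow i t'
      rw [← ha] at h1
      rw [← hb] at h2
      linarith
  have hsum : |DD G t t'| ≤ 4 * ((a + b) * (C * (a ^ 2 + b ^ 2))) := by
    rw [hDD]
    refine (Finset.abs_sum_le_sum_abs _ _).trans ?_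
    refine (Finset.sum_le_sum fun i _ => hterm i).trans ?_
    rw [Finset.sum_const, Finset.card_univ, Fintype.card_fin, nsmul_eq_mul]
    norm_num
  have hpoly : (a + b) * (a ^ 2 + b ^ 2) ≤ 4 * (a ^ 8 + b ^ 8) := by
    have h1 : (a + b) * (a ^ 2 + b ^ 2) ≤ 4 * (a ^ 3 + b ^ 3) := by
      nlinarith [mul_nonneg (by linarith : (0:ℝ) ≤ a + b) (sq_nonneg (a - b)),
        pow_nonneg (by linarith : (0:ℝ) ≤ a) 3, pow_nonneg (by linarith : (0:ℝ) ≤ b) 3]
    have h2 : a ^ 3 ≤ a ^ 8 := pow_le_pow_right₀ ha1 (by norm_num)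
    have h3 : b ^ 3 ≤ b ^ 8 := pow_le_pow_right₀ hb1 (by norm_num)
    linarith
  calc |DD G t t'| ≤ 4 * ((a + b) * (C * (a ^ 2 + b ^ 2))) := hsum
    _ = 4 * C * ((a + b) * (a ^ 2 + b ^ 2)) := by ring
    _ ≤ 4 * C * (4 * (a ^ 8 + b ^ 8)) := mul_le_mul_of_nonneg_left hpoly (by positivity)
    _ = 16 * C * (a ^ 8 + b ^ 8) := by ring

theorem gc_DD_nonneg (hw : Cell w G C) (t t' : Fin 4 → ℝ) : 0 ≤ DD G t t' := by
  have h := (sq_nonneg _).trans (hw.quar t t')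
  exact nonneg_of_mul_nonneg_right h (by linarith [hw.one_le])

theorem gc_q_nonneg (t : Fin 4 → ℝ) : 0 ≤ q t :=
  Finset.sum_nonneg fun _ _ => Finset.sum_nonneg fun _ _ => sq_nonneg _

theorem gc_q_meas : Measurable q := by
  unfold q
  fun_prop

omit [Fintype A] [DecidableEq A] [Fintype B] in
theorem gc_loc_meas (c : B → Fin 4 → A) (v : B) : Measurable fun a : A → ℝ => loc c a v := by
  unfold loc
  exact measurable_pi_lambda _ fun i => measurable_pi_apply _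

omit [DecidableEq A] [Fintype B] in
theorem gc_q_le (c : B → Fin 4 → A) (a : A → ℝ) (v : B) {S : ℝ} (hS : ∑ y, |a y| ≤ S) :
    1 + q (loc c a v) ≤ 64 * (1 + S) ^ 2 := by
  have hS0 : 0 ≤ S := (Finset.sum_nonneg fun _ _ => abs_nonneg _).trans hS
  have h1 : ∀ i j, (loc c a v i - loc c a v j) ^ 2 ≤ 4 * S ^ 2 := by
    intro i j
    have h2 : |loc c a v i - loc c a v j| ≤ 2 * S := by
      have h3 := abs_sub (loc c a v i) (loc c a v j)
      have h4 : |loc c a v i| ≤ S := (gc_abs_le a (c v i)).trans hS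
      have h5 : |loc c a v j| ≤ S := (gc_abs_le a (c v j)).trans hS
      linarith
    rw [← sq_abs]
    nlinarith [abs_nonneg (loc c a v i - loc c a v j)]
  have h6 : q (loc c a v) ≤ ∑ _i : Fin 4, ∑ _j : Fin 4, 4 * S ^ 2 :=
    Finset.sum_le_sum fun i _ => Finset.sum_le_sum fun j _ => h1 i j
  have h7 : ∑ _i : Fin 4, ∑ _j : Fin 4, 4 * S ^ 2 = 64 * S ^ 2 := by
    simp only [Finset.sum_const, Finset.card_univ, Fintype.card_fin, nsmul_eq_mul]
    norm_num
    ring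
  nlinarith

/-- integrability of the local quantities -/
theorem gc_DD_int (hw : Cell w G C) (hN : Net c p R) {π : Measure ((A → ℝ) × (A → ℝ))}
    (hπ : Cpl w c p 0 π) (v : B) :
    Integrable (fun z : (A → ℝ) × (A → ℝ) => DD G (loc c z.1 v) (loc c z.2 v)) π ∧
    Integrable (fun z : (A → ℝ) × (A → ℝ) => (1 + q (loc c z.1 v)) ^ 8) π ∧
    Integrable (fun z : (A → ℝ) × (A → ℝ) => (1 + q (loc c z.2 v)) ^ 8) π := by
  have hC : 0 ≤ C := by linarith [hw.one_le]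
  have hS : ∀ z : (A → ℝ) × (A → ℝ), 0 ≤ ∑ y, |z.1 y| + ∑ y, |z.2 y| := fun z =>
    add_nonneg (Finset.sum_nonneg fun _ _ => abs_nonneg _)
      (Finset.sum_nonneg fun _ _ => abs_nonneg _)
  have hl1 : Measurable fun z : (A → ℝ) × (A → ℝ) => loc c z.1 v :=
    (gc_loc_meas c v).comp measurable_fst
  have hl2 : Measurable fun z : (A → ℝ) × (A → ℝ) => loc c z.2 v :=
    (gc_loc_meas c v).comp measurable_snd
  have hq1 : ∀ z : (A → ℝ) × (A → ℝ), (1 + q (loc c z.1 v)) ^ 8 ≤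
      64 ^ 8 * (1 + (∑ y, |z.1 y| + ∑ y, |z.2 y|)) ^ 16 := by
    intro z
    have h1 := gc_q_le c z.1 v (S := ∑ y, |z.1 y| + ∑ y, |z.2 y|)
      (le_add_of_nonneg_right (Finset.sum_nonneg fun _ _ => abs_nonneg _))
    have h0 := gc_q_nonneg (loc c z.1 v)
    calc (1 + q (loc c z.1 v)) ^ 8 ≤ (64 * (1 + (∑ y, |z.1 y| + ∑ y, |z.2 y|)) ^ 2) ^ 8 :=
          pow_le_pow_left₀ (by linarith) h1 8
      _ = 64 ^ 8 * (1 + (∑ y, |z.1 y| + ∑ y, |z.2 y|)) ^ 16 := by ring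
  have hq2 : ∀ z : (A → ℝ) × (A → ℝ), (1 + q (loc c z.2 v)) ^ 8 ≤
      64 ^ 8 * (1 + (∑ y, |z.1 y| + ∑ y, |z.2 y|)) ^ 16 := by
    intro z
    have h1 := gc_q_le c z.2 v (S := ∑ y, |z.1 y| + ∑ y, |z.2 y|)
      (le_add_of_nonneg_left (Finset.sum_nonneg fun _ _ => abs_nonneg _))
    have h0 := gc_q_nonneg (loc c z.2 v)
    calc (1 + q (loc c z.2 v)) ^ 8 ≤ (64 * (1 + (∑ y, |z.1 y| + ∑ y, |z.2 y|)) ^ 2) ^ 8 :=
          pow_le_pow_left₀ (by linarith) h1 8
      _ = 64 ^ 8 * (1 + (∑ y, |z.1 y| + ∑ y, |z.2 y|)) ^ 16 := by ring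
  refine ⟨?_, ?_, ?_⟩
  · obtain ⟨K1, hK1⟩ := gc_growth 16 (A1 := 32 * C * 64 ^ 8) (by positivity)
    refine cpl_int hw hN hπ ?_ ⟨K1, fun z => hK1 _ (hS z) _ ?_⟩
    · unfold DD
      refine Finset.measurable_sum _ fun i _ => ?_
      refine Measurable.mul ?_ ?_
      · exact ((measurable_pi_apply i).comp hl2).sub ((measurable_pi_apply i).comp hl1)
      · exact ((hw.contG i).measurable.comp hl2).sub ((hw.contG i).measurable.comp hl1)
    · refine (gc_DD_le hw _ _).trans ?_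
      have h1 := hq1 z
      have h2 := hq2 z
      have h3 := mul_le_mul_of_nonneg_left (add_le_add h1 h2) (by positivity : 0 ≤ 16 * C)
      refine h3.trans (le_of_eq ?_)
      ring
  · obtain ⟨K1, hK1⟩ := gc_growth 16 (A1 := 64 ^ 8) (by positivity)
    refine cpl_int hw hN hπ ?_ ⟨K1, fun z => hK1 _ (hS z) _ ?_⟩
    · exact (measurable_const.add (gc_q_meas.comp hl1)).pow_const 8
    · rw [abs_of_nonneg (by positivity [gc_q_nonneg (loc c z.1 v)])]
      exact hq1 z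
  · obtain ⟨K1, hK1⟩ := gc_growth 16 (A1 := 64 ^ 8) (by positivity)
    refine cpl_int hw hN hπ ?_ ⟨K1, fun z => hK1 _ (hS z) _ ?_⟩
    · exact (measurable_const.add (gc_q_meas.comp hl2)).pow_const 8
    · rw [abs_of_nonneg (by positivity [gc_q_nonneg (loc c z.2 v)])]
      exact hq2 z

/-- the trivial bound for the dissipation -/
theorem Dk_trivial {w : (Fin 4 → ℝ) → ℝ} {G : Fin 4 → (Fin 4 → ℝ) → ℝ} {C : ℝ} (hw : Cell w G C)
    (Cg : ℝ) : ∃ K1 : ℝ, 1 ≤ K1 ∧ ∀ {A B : Type} [Fintype A] [DecidableEq A] [Fintype B]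
      {c : B → Fin 4 → A} {p : A} {R : ℝ} {N : ℝ} {lev : A → ℕ} {K : ℕ}, Net c p R →
      Local c p lev K N Cg → ∀ {π : Measure ((A → ℝ) × (A → ℝ))}, Cpl w c p 0 π →
      ∀ k, k ≤ K → Dk G c lev π k ≤ K1 * 4 ^ k := by
  obtain ⟨K0, hK0, hmom⟩ := q_moment hw
  have hC : 0 ≤ C := by linarith [hw.one_le]
  refine ⟨32 * C * K0 * |Cg| + 1, by
    have : 0 ≤ 32 * C * K0 * |Cg| := by positivity
    linarith, ?_⟩
  intro A B _ _ _ c p R N lev K hN hL π hπ k hk
  have hint := fun v => gc_DD_int hw hN hπ v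
  unfold Dk
  rw [integral_finsetSum _ fun v _ => (hint v).1]
  have hv : ∀ v, ∫ z, DD G (loc c z.1 v) (loc c z.2 v) ∂π ≤ 32 * C * K0 := by
    intro v
    obtain ⟨i0, i1, i2⟩ := hint v
    have h1 : ∫ z, DD G (loc c z.1 v) (loc c z.2 v) ∂π ≤
        ∫ z, (16 * C * (1 + q (loc c z.1 v)) ^ 8 + 16 * C * (1 + q (loc c z.2 v)) ^ 8) ∂π := by
      refine integral_mono i0 ((i1.const_mul _).add (i2.const_mul _)) fun z => ?_
      have := (le_abs_self _).trans (gc_DD_le hw (loc c z.1 v) (loc c z.2 v))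
      refine this.trans (le_of_eq ?_)
      ring
    rw [integral_add (i1.const_mul _) (i2.const_mul _), integral_const_mul,
      integral_const_mul] at h1
    have hF : Measurable fun a : A → ℝ => (1 + q (loc c a v)) ^ 8 :=
      (measurable_const.add (gc_q_meas.comp (gc_loc_meas c v))).pow_const 8
    obtain ⟨e1, e2⟩ := cpl_fst hπ hF
    rw [e1, e2] at h1
    have h2 := hmom hN v
    have h3 := mul_le_mul_of_nonneg_left h2 (by positivity : 0 ≤ 16 * C)
    linarith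
  refine (Finset.sum_le_sum fun v _ => hv v).trans ?_
  rw [Finset.sum_const, nsmul_eq_mul]
  have h4 := hL.count k hk
  have h5 : Cg * 4 ^ k ≤ |Cg| * 4 ^ k :=
    mul_le_mul_of_nonneg_right (le_abs_self _) (by positivity)
  have h6 : (0 : ℝ) ≤ 32 * C * K0 := by positivity
  have h7 := mul_le_mul_of_nonneg_right (h4.trans h5) h6
  have h8 : (0 : ℝ) < 4 ^ k := by positivity
  nlinarith

/-- the dissipation is nonnegative and monotone -/
theorem Dk_mono (hw : Cell w G C) (hN : Net c p R) (lev : A → ℕ)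
    {π : Measure ((A → ℝ) × (A → ℝ))} (hπ : Cpl w c p 0 π) (k : ℕ) :
    0 ≤ Dk G c lev π k ∧ Dk G c lev π k ≤ Dk G c lev π (k + 1) := by
  unfold Dk
  refine ⟨integral_nonneg fun z => Finset.sum_nonneg fun v _ => gc_DD_nonneg hw _ _, ?_⟩
  refine integral_mono (integrable_finsetSum _ fun v _ => (gc_DD_int hw hN hπ v).1)
    (integrable_finsetSum _ fun v _ => (gc_DD_int hw hN hπ v).1) fun z => ?_
  refine Finset.sum_le_sum_of_subset_of_nonneg ?_ fun v _ _ => gc_DD_nonneg hw _ _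
  intro v hv
  unfold clv at hv ⊢
  rw [Finset.mem_filter] at hv ⊢
  refine ⟨hv.1, fun i => (hv.2 i).trans ?_⟩
  exact Nat.pow_le_pow_right (by norm_num) (Nat.le_succ k)

end QG
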