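import Mathlib
import Pool.Agent.Lib_helper69.QG.Defs
import Pool.Agent.Lib_helper69.QG.Field
import Pool.Agent.Lib_helper69.QG.W.fj

set_option autoImplicit false

namespace QG

open MeasureTheory

variable {A B : Type} [Fintype A] [DecidableEq A] [Fintype B] {w : (Fin 4 → ℝ) → ℝ}
  {G : Fin 4 → (Fin 4 → ℝ) → ℝ} {C : ℝ} {c : B → Fin 4 → A} {p : A} {R : ℝ}

/-- the cut-off function at scale `2 ^ k` -/
noncomputable def chi (lev : A → ℕ) (k : ℕ) (y : A) : ℝ := max 0 (min 1 (2 - 2 * (lev y : ℝ) / 2 ^ k))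

theorem chi_basic (lev : A → ℕ) (k : ℕ) (y : A) : 0 ≤ chi lev k y ∧ chi lev k y ≤ 1 ∧
    (2 ^ k ≤ lev y → chi lev k y = 0) ∧ (2 * lev y ≤ 2 ^ k → chi lev k y = 1) ∧
    ∀ x, |chi lev k x - chi lev k y| ≤ 2 * |(lev x : ℝ) - lev y| / 2 ^ k := by
  have h2 : (0 : ℝ) < 2 ^ k := by positivity
  unfold chi
  refine ⟨le_max_left _ _, max_le zero_le_one (min_le_left _ _), fun h => ?_, fun h => ?_,
    fun x => ?_⟩
  · have h' : (2 : ℝ) ^ k ≤ lev y := by exact_mod_cast h
    have h3 : 2 - 2 * (lev y : ℝ) / 2 ^ k ≤ 0 := by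
      have : 2 ≤ 2 * (lev y : ℝ) / 2 ^ k := by
        rw [le_div_iff₀ h2]
        linarith
      linarith
    exact max_eq_left ((min_le_right _ _).trans h3)
  · have h' : 2 * (lev y : ℝ) ≤ 2 ^ k := by exact_mod_cast h
    have h3 : 1 ≤ 2 - 2 * (lev y : ℝ) / 2 ^ k := by
      have : 2 * (lev y : ℝ) / 2 ^ k ≤ 1 := by
        rw [div_le_one h2]
        exact h'
      linarith
    rw [min_eq_left h3]
    exact max_eq_right zero_le_one
  · have h4 : |max 0 (min 1 (2 - 2 * (lev x : ℝ) / 2 ^ k)) -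
        max 0 (min 1 (2 - 2 * (lev y : ℝ) / 2 ^ k))| ≤
        |(2 - 2 * (lev x : ℝ) / 2 ^ k) - (2 - 2 * (lev y : ℝ) / 2 ^ k)| := by
      refine (abs_max_sub_max_le_max _ _ _ _).trans (max_le (by simp) ?_)
      exact (abs_min_sub_min_le_max _ _ _ _).trans (max_le (by simp) le_rfl)
    refine h4.trans (le_of_eq ?_)
    have h5 : (2 - 2 * (lev x : ℝ) / 2 ^ k) - (2 - 2 * (lev y : ℝ) / 2 ^ k) =
        -(2 * ((lev x : ℝ) - lev y) / 2 ^ k) := by ring
    rw [h5, abs_neg, abs_div, abs_mul, abs_of_pos h2, abs_of_pos (by norm_num : (0 : ℝ) < 2)]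

theorem ga_DD_nonneg (hw : Cell w G C) (t t' : Fin 4 → ℝ) : 0 ≤ DD G t t' := by
  have h := hw.quar t t'
  have h1 := hw.one_le
  by_contra hneg
  push Not at hneg
  have h2 : C * DD G t t' < 0 := mul_neg_of_pos_of_neg (by linarith) hneg
  have h3 := sq_nonneg (q (fun i => t' i - t i))
  linarith

/-- one cell -/
theorem ga_cell {N Cg : ℝ} {lev : A → ℕ} {K : ℕ} (hw : Cell w G C) (hL : Local c p lev K N Cg)
    (k : ℕ) (a a' : A → ℝ) (κ : ℝ) (v : B) :
    (if ∀ i, lev (c v i) ≤ 2 ^ k then DD G (loc c a v) (loc c a' v) else 0) ≤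
      (∑ i, chi lev (k + 1) (c v i) ^ 2 * ((a' (c v i) - a (c v i)) - κ) *
        (G i (loc c a' v) - G i (loc c a v))) +
      (if (∀ i, lev (c v i) ≤ 2 ^ (k + 1)) ∧ ¬ ∀ i, lev (c v i) ≤ 2 ^ k then
        4 / 2 ^ (k + 1) * ∑ i,
          |(a' (c v i) - a (c v i)) - κ| * |G i (loc c a' v) - G i (loc c a v)| else 0) := by
  have hDD := ga_DD_nonneg hw (loc c a v) (loc c a' v)
  have hDDeq : ∑ i, ((a' (c v i) - a (c v i)) - κ) * (G i (loc c a' v) - G i (loc c a v)) =
      DD G (loc c a v) (loc c a' v) := by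
    have h1 : ∑ i, ((a' (c v i) - a (c v i)) - κ) * (G i (loc c a' v) - G i (loc c a v)) =
        DD G (loc c a v) (loc c a' v) -
          κ * (∑ i, G i (loc c a' v) - ∑ i, G i (loc c a v)) := by
      unfold DD loc
      rw [← Finset.sum_sub_distrib, Finset.mul_sum, ← Finset.sum_sub_distrib]
      exact Finset.sum_congr rfl fun i _ => by ring
    rw [h1, hw.sumG, hw.sumG]
    ring
  by_cases h1 : ∀ i, lev (c v i) ≤ 2 ^ k
  · rw [if_pos h1, if_neg (by simp [h1]), add_zero]
    refine le_of_eq ?_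
    rw [← hDDeq]
    refine Finset.sum_congr rfl fun i _ => ?_
    have h2 : chi lev (k + 1) (c v i) = 1 :=
      (chi_basic lev (k + 1) (c v i)).2.2.2.1 (by
        have := h1 i
        rw [pow_succ]
        omega)
    rw [h2]
    ring
  · rw [if_neg h1]
    by_cases h2 : ∀ i, lev (c v i) ≤ 2 ^ (k + 1)
    · rw [if_pos ⟨h2, h1⟩]
      have h3 : ∑ i, chi lev (k + 1) (c v i) ^ 2 * ((a' (c v i) - a (c v i)) - κ) *
          (G i (loc c a' v) - G i (loc c a v)) =
          chi lev (k + 1) (c v 0) ^ 2 * DD G (loc c a v) (loc c a' v) +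
          ∑ i, (chi lev (k + 1) (c v i) ^ 2 - chi lev (k + 1) (c v 0) ^ 2) *
            ((a' (c v i) - a (c v i)) - κ) * (G i (loc c a' v) - G i (loc c a v)) := by
        rw [← hDDeq, Finset.mul_sum, ← Finset.sum_add_distrib]
        exact Finset.sum_congr rfl fun i _ => by ring
      have h4 : -(4 / 2 ^ (k + 1) * ∑ i,
          |(a' (c v i) - a (c v i)) - κ| * |G i (loc c a' v) - G i (loc c a v)|) ≤
          ∑ i, (chi lev (k + 1) (c v i) ^ 2 - chi lev (k + 1) (c v 0) ^ 2) *
            ((a' (c v i) - a (c v i)) - κ) * (G i (loc c a' v) - G i (loc c a v)) := by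
        rw [Finset.mul_sum, ← Finset.sum_neg_distrib]
        refine Finset.sum_le_sum fun i _ => ?_
        have h5 : |chi lev (k + 1) (c v i) ^ 2 - chi lev (k + 1) (c v 0) ^ 2| ≤
            4 / 2 ^ (k + 1) := by
          obtain ⟨ha0, ha1, -, -, -⟩ := chi_basic lev (k + 1) (c v i)
          obtain ⟨hb0, hb1, -, -, hb⟩ := chi_basic lev (k + 1) (c v 0)
          have h6 := hb (c v i)
          have h7 : |(lev (c v i) : ℝ) - lev (c v 0)| ≤ 1 := by
            have e1 : (lev (c v i) : ℝ) ≤ lev (c v 0) + 1 := by exact_mod_cast hL.adj v i 0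
            have e2 : (lev (c v 0) : ℝ) ≤ lev (c v i) + 1 := by exact_mod_cast hL.adj v 0 i
            rw [abs_le]
            constructor <;> linarith
          have h8 : (0 : ℝ) < 2 ^ (k + 1) := by positivity
          have h9 : |chi lev (k + 1) (c v i) - chi lev (k + 1) (c v 0)| ≤ 2 / 2 ^ (k + 1) := by
            refine h6.trans ?_
            refine div_le_div_of_nonneg_right ?_ h8.le
            linarith
          have h10 : chi lev (k + 1) (c v i) ^ 2 - chi lev (k + 1) (c v 0) ^ 2 =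
              (chi lev (k + 1) (c v i) + chi lev (k + 1) (c v 0)) *
                (chi lev (k + 1) (c v i) - chi lev (k + 1) (c v 0)) := by ring
          rw [h10, abs_mul, abs_of_nonneg (by linarith)]
          calc (chi lev (k + 1) (c v i) + chi lev (k + 1) (c v 0)) *
                |chi lev (k + 1) (c v i) - chi lev (k + 1) (c v 0)| ≤ 2 * (2 / 2 ^ (k + 1)) :=
                mul_le_mul (by linarith) h9 (abs_nonneg _) (by norm_num)
            _ = 4 / 2 ^ (k + 1) := by ring
        have h11 : |(chi lev (k + 1) (c v i) ^ 2 - chi lev (k + 1) (c v 0) ^ 2) *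
            ((a' (c v i) - a (c v i)) - κ) * (G i (loc c a' v) - G i (loc c a v))| ≤
            4 / 2 ^ (k + 1) *
              (|(a' (c v i) - a (c v i)) - κ| * |G i (loc c a' v) - G i (loc c a v)|) := by
          rw [abs_mul, abs_mul, mul_assoc]
          exact mul_le_mul_of_nonneg_right h5 (by positivity)
        exact (abs_le.1 h11).1
      have h12 : 0 ≤ chi lev (k + 1) (c v 0) ^ 2 * DD G (loc c a v) (loc c a' v) := by positivity
      rw [h3]
      linarith
    · rw [if_neg (by tauto), add_zero]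
      push Not at h2
      obtain ⟨j, hj⟩ := h2
      refine le_of_eq (Eq.symm ?_)
      refine Finset.sum_eq_zero fun i _ => ?_
      have h3 : chi lev (k + 1) (c v i) = 0 :=
        (chi_basic lev (k + 1) (c v i)).2.2.1 (by
          have := hL.adj v j i
          omega)
      rw [h3]
      ring

/-- the algebra of the Caccioppoli inequality -/
theorem cacc_point {N Cg : ℝ} {lev : A → ℕ} {K : ℕ} (hw : Cell w G C) (hL : Local c p lev K N Cg)
    (k : ℕ) (a a' : A → ℝ) (κ : ℝ) :
    ∑ v ∈ clv c lev k, DD G (loc c a v) (loc c a' v) ≤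
      (∑ y, chi lev (k + 1) y ^ 2 * ((a' y - a y) - κ) * (Fo G c a' y - Fo G c a y)) +
      4 / 2 ^ (k + 1) * ∑ v ∈ shl c lev k, ∑ i,
        |(a' (c v i) - a (c v i)) - κ| * |G i (loc c a' v) - G i (loc c a v)| := by
  rw [sum_Fo (c := c) (G := G) a a' (fun y => chi lev (k + 1) y ^ 2 * ((a' y - a y) - κ)),
    Finset.mul_sum, clv, shl, Finset.sum_filter, Finset.sum_filter, ← Finset.sum_add_distrib]
  exact Finset.sum_le_sum fun v _ => ga_cell hw hL k a a' κ v

end QG
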