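import Mathlib
import Pool.Agent.Lib_helper69.QG.Defs
import Pool.Agent.Lib_helper69.QG.Field
import Pool.Agent.Lib_helper69.QG.W.fe
import Pool.Agent.Lib_helper69.QG.W.ga

set_option autoImplicit false

namespace QG

open MeasureTheory

section gb
variable {A : Type} [Fintype A]

/-- measurable functions of at most exponential growth -/
def gb_Gr (F : (A → ℝ) × (A → ℝ) → ℝ) : Prop :=
  Measurable F ∧ ∃ K : ℝ, 0 ≤ K ∧
    ∀ z, |F z| ≤ K * Real.exp (K * (∑ y, |z.1 y| + ∑ y, |z.2 y|))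

theorem gb_r (z : (A → ℝ) × (A → ℝ)) : 0 ≤ ∑ y, |z.1 y| + ∑ y, |z.2 y| :=
  add_nonneg (Finset.sum_nonneg fun _ _ => abs_nonneg _)
    (Finset.sum_nonneg fun _ _ => abs_nonneg _)

theorem gb_dom {F H : (A → ℝ) × (A → ℝ) → ℝ} (hF : Measurable F) (hH : gb_Gr H)
    (h : ∀ z, |F z| ≤ |H z|) : gb_Gr F := by
  obtain ⟨-, K, hK, hb⟩ := hH
  exact ⟨hF, K, hK, fun z => (h z).trans (hb z)⟩

theorem gb_const (t : ℝ) : gb_Gr (fun _ : (A → ℝ) × (A → ℝ) => t) := by
  refine ⟨measurable_const, |t|, abs_nonneg t, fun z => ?_⟩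
  have h : 1 ≤ Real.exp (|t| * (∑ y, |z.1 y| + ∑ y, |z.2 y|)) :=
    Real.one_le_exp (mul_nonneg (abs_nonneg t) (gb_r z))
  calc |t| = |t| * 1 := (mul_one _).symm
    _ ≤ _ := mul_le_mul_of_nonneg_left h (abs_nonneg t)

theorem gb_fst (y : A) : gb_Gr (fun z : (A → ℝ) × (A → ℝ) => z.1 y) := by
  refine ⟨(measurable_pi_apply y).comp measurable_fst, 1, zero_le_one, fun z => ?_⟩
  have h1 : |z.1 y| ≤ ∑ x, |z.1 x| :=
    Finset.single_le_sum (f := fun x => |z.1 x|) (fun _ _ => abs_nonneg _) (Finset.mem_univ y)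
  have h2 : 0 ≤ ∑ x, |z.2 x| := Finset.sum_nonneg fun _ _ => abs_nonneg _
  have h3 := Real.add_one_le_exp (1 * (∑ x, |z.1 x| + ∑ x, |z.2 x|))
  linarith

theorem gb_snd (y : A) : gb_Gr (fun z : (A → ℝ) × (A → ℝ) => z.2 y) := by
  refine ⟨(measurable_pi_apply y).comp measurable_snd, 1, zero_le_one, fun z => ?_⟩
  have h1 : |z.2 y| ≤ ∑ x, |z.2 x| :=
    Finset.single_le_sum (f := fun x => |z.2 x|) (fun _ _ => abs_nonneg _) (Finset.mem_univ y)
  have h2 : 0 ≤ ∑ x, |z.1 x| := Finset.sum_nonneg fun _ _ => abs_nonneg _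
  have h3 := Real.add_one_le_exp (1 * (∑ x, |z.1 x| + ∑ x, |z.2 x|))
  linarith

theorem gb_add {F H : (A → ℝ) × (A → ℝ) → ℝ} (hF : gb_Gr F) (hH : gb_Gr H) :
    gb_Gr (fun z => F z + H z) := by
  obtain ⟨mF, K, hK, bF⟩ := hF
  obtain ⟨mH, L, hL, bH⟩ := hH
  refine ⟨mF.add mH, K + L, add_nonneg hK hL, fun z => ?_⟩
  have hr := gb_r z
  have e1 : Real.exp (K * (∑ y, |z.1 y| + ∑ y, |z.2 y|)) ≤
      Real.exp ((K + L) * (∑ y, |z.1 y| + ∑ y, |z.2 y|)) :=
    Real.exp_le_exp.mpr (mul_le_mul_of_nonneg_right (by linarith) hr)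
  have e2 : Real.exp (L * (∑ y, |z.1 y| + ∑ y, |z.2 y|)) ≤
      Real.exp ((K + L) * (∑ y, |z.1 y| + ∑ y, |z.2 y|)) :=
    Real.exp_le_exp.mpr (mul_le_mul_of_nonneg_right (by linarith) hr)
  calc |F z + H z| ≤ |F z| + |H z| := abs_add_le _ _
    _ ≤ K * Real.exp (K * (∑ y, |z.1 y| + ∑ y, |z.2 y|)) +
        L * Real.exp (L * (∑ y, |z.1 y| + ∑ y, |z.2 y|)) := add_le_add (bF z) (bH z)
    _ ≤ K * Real.exp ((K + L) * (∑ y, |z.1 y| + ∑ y, |z.2 y|)) +
        L * Real.exp ((K + L) * (∑ y, |z.1 y| + ∑ y, |z.2 y|)) :=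
        add_le_add (mul_le_mul_of_nonneg_left e1 hK) (mul_le_mul_of_nonneg_left e2 hL)
    _ = (K + L) * Real.exp ((K + L) * (∑ y, |z.1 y| + ∑ y, |z.2 y|)) := by ring

theorem gb_mul {F H : (A → ℝ) × (A → ℝ) → ℝ} (hF : gb_Gr F) (hH : gb_Gr H) :
    gb_Gr (fun z => F z * H z) := by
  obtain ⟨mF, K, hK, bF⟩ := hF
  obtain ⟨mH, L, hL, bH⟩ := hH
  refine ⟨mF.mul mH, K * L + K + L, by positivity, fun z => ?_⟩
  have hr := gb_r z
  have e1 : Real.exp ((K + L) * (∑ y, |z.1 y| + ∑ y, |z.2 y|)) ≤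
      Real.exp ((K * L + K + L) * (∑ y, |z.1 y| + ∑ y, |z.2 y|)) :=
    Real.exp_le_exp.mpr (mul_le_mul_of_nonneg_right (by nlinarith [mul_nonneg hK hL]) hr)
  calc |F z * H z| = |F z| * |H z| := abs_mul _ _
    _ ≤ (K * Real.exp (K * (∑ y, |z.1 y| + ∑ y, |z.2 y|))) *
        (L * Real.exp (L * (∑ y, |z.1 y| + ∑ y, |z.2 y|))) :=
        mul_le_mul (bF z) (bH z) (abs_nonneg _) (by positivity)
    _ = K * L * Real.exp ((K + L) * (∑ y, |z.1 y| + ∑ y, |z.2 y|)) := by
        rw [add_mul, Real.exp_add]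
        ring
    _ ≤ K * L * Real.exp ((K * L + K + L) * (∑ y, |z.1 y| + ∑ y, |z.2 y|)) :=
        mul_le_mul_of_nonneg_left e1 (by positivity)
    _ ≤ (K * L + K + L) * Real.exp ((K * L + K + L) * (∑ y, |z.1 y| + ∑ y, |z.2 y|)) :=
        mul_le_mul_of_nonneg_right (by linarith) (Real.exp_pos _).le

theorem gb_sub {F H : (A → ℝ) × (A → ℝ) → ℝ} (hF : gb_Gr F) (hH : gb_Gr H) :
    gb_Gr (fun z => F z - H z) := by
  have h := gb_add hF (gb_mul (gb_const (-1)) hH)
  refine gb_dom (hF.1.sub hH.1) h fun z => le_of_eq ?_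
  congr 1
  ring

theorem gb_abs {F : (A → ℝ) × (A → ℝ) → ℝ} (hF : gb_Gr F) : gb_Gr (fun z => |F z|) :=
  gb_dom (measurable_abs.comp hF.1) hF fun z => le_of_eq (abs_abs _)

theorem gb_sum {ι : Type} (s : Finset ι) {F : ι → (A → ℝ) × (A → ℝ) → ℝ}
    (hF : ∀ i ∈ s, gb_Gr (F i)) : gb_Gr (fun z => ∑ i ∈ s, F i z) := by
  classical
  induction s using Finset.induction_on with
  | empty =>
    simp only [Finset.sum_empty]
    exact gb_const 0
  | insert a s ha ih =>
    have h := gb_add (hF a (Finset.mem_insert_self a s))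
      (ih fun i hi => hF i (Finset.mem_insert_of_mem hi))
    refine gb_dom ?_ h fun _ => ?_
    · simp only [Finset.sum_insert ha]
      exact h.1
    · rw [Finset.sum_insert ha]

theorem gb_pow {F : (A → ℝ) × (A → ℝ) → ℝ} (hF : gb_Gr F) (n : ℕ) :
    gb_Gr (fun z => F z ^ n) := by
  induction n with
  | zero =>
    simp only [pow_zero]
    exact gb_const 1
  | succ n ih =>
    simp only [pow_succ]
    exact gb_mul ih hF

end gb

variable {A B : Type} [Fintype A] [DecidableEq A] [Fintype B] {w : (Fin 4 → ℝ) → ℝ}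
  {G : Fin 4 → (Fin 4 → ℝ) → ℝ} {C : ℝ} {c : B → Fin 4 → A} {p : A} {R : ℝ}

omit [DecidableEq A] [Fintype B] in
theorem gb_q1 (v : B) : gb_Gr (fun z : (A → ℝ) × (A → ℝ) => q (loc c z.1 v)) := by
  unfold q loc
  exact gb_sum _ fun i _ => gb_sum _ fun j _ => gb_pow (gb_sub (gb_fst _) (gb_fst _)) 2

omit [DecidableEq A] [Fintype B] in
theorem gb_q2 (v : B) : gb_Gr (fun z : (A → ℝ) × (A → ℝ) => q (loc c z.2 v)) := by
  unfold q loc
  exact gb_sum _ fun i _ => gb_sum _ fun j _ => gb_pow (gb_sub (gb_snd _) (gb_snd _)) 2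

omit [DecidableEq A] [Fintype B] in
theorem gb_G1 (hw : Cell w G C) (v : B) (i : Fin 4) :
    gb_Gr (fun z : (A → ℝ) × (A → ℝ) => G i (loc c z.1 v)) := by
  have h := gb_mul (gb_const C) (gb_pow (gb_add (gb_const 1) (gb_q1 (A := A) (c := c) v)) 2)
  refine gb_dom ?_ h fun z => ?_
  · refine (hw.contG i).measurable.comp (measurable_pi_iff.mpr fun j => ?_)
    exact (gb_fst (A := A) (c v j)).1
  · exact (hw.grow i _).trans (le_abs_self _)

omit [DecidableEq A] [Fintype B] in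
theorem gb_G2 (hw : Cell w G C) (v : B) (i : Fin 4) :
    gb_Gr (fun z : (A → ℝ) × (A → ℝ) => G i (loc c z.2 v)) := by
  have h := gb_mul (gb_const C) (gb_pow (gb_add (gb_const 1) (gb_q2 (A := A) (c := c) v)) 2)
  refine gb_dom ?_ h fun z => ?_
  · refine (hw.contG i).measurable.comp (measurable_pi_iff.mpr fun j => ?_)
    exact (gb_snd (A := A) (c v j)).1
  · exact (hw.grow i _).trans (le_abs_self _)

omit [DecidableEq A] [Fintype B] in
theorem gb_DD (hw : Cell w G C) (v : B) :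
    gb_Gr (fun z : (A → ℝ) × (A → ℝ) => DD G (loc c z.1 v) (loc c z.2 v)) := by
  unfold DD
  exact gb_sum _ fun i _ => gb_mul (gb_sub (gb_snd (c v i)) (gb_fst (c v i)))
    (gb_sub (gb_G2 hw v i) (gb_G1 hw v i))

theorem gb_Fo (hw : Cell w G C) (y : A) :
    gb_Gr (fun z : (A → ℝ) × (A → ℝ) => Fo G c z.2 y - Fo G c z.1 y) := by
  unfold Fo
  refine gb_sub (gb_sum _ fun v _ => gb_sum _ fun i _ => ?_)
    (gb_sum _ fun v _ => gb_sum _ fun i _ => ?_)
  · by_cases h : c v i = y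
    · simp only [h, if_true]
      exact gb_G2 hw v i
    · simp only [h, if_false]
      exact gb_const 0
  · by_cases h : c v i = y
    · simp only [h, if_true]
      exact gb_G1 hw v i
    · simp only [h, if_false]
      exact gb_const 0

omit [DecidableEq A] in
theorem gb_kap (lev : A → ℕ) (k : ℕ) :
    gb_Gr (fun z : (A → ℝ) × (A → ℝ) => kap lev k (z.2 - z.1)) := by
  have h := gb_mul (gb_const (A := A) ((ann lev k).card : ℝ)⁻¹)
    (gb_sum (ann lev k) fun y _ => gb_sub (gb_snd y) (gb_fst y))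
  refine gb_dom ?_ h fun z => le_of_eq ?_
  · have e : (fun z : (A → ℝ) × (A → ℝ) => kap lev k (z.2 - z.1)) =
        fun z => ((ann lev k).card : ℝ)⁻¹ * ∑ y ∈ ann lev k, (z.2 y - z.1 y) := by
      funext z
      unfold kap
      rw [div_eq_inv_mul]
      rfl
    rw [e]
    exact h.1
  · congr 1
    unfold kap
    rw [div_eq_inv_mul]
    rfl

omit [Fintype A] [DecidableEq A] [Fintype B] in
theorem gb_M (hw : Cell w G C) (v : B) (a a' : A → ℝ) :
    0 < C * (1 + q (loc c a v) + q (loc c a' v)) := by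
  have h1 : ∀ t : Fin 4 → ℝ, 0 ≤ q t := fun t => by
    unfold q
    exact Finset.sum_nonneg fun _ _ => Finset.sum_nonneg fun _ _ => sq_nonneg _
  have h2 := h1 (loc c a v)
  have h3 := h1 (loc c a' v)
  have h4 := hw.one_le
  positivity

omit [Fintype A] [DecidableEq A] [Fintype B] in
theorem gb_DDnn (hw : Cell w G C) (v : B) (a a' : A → ℝ) :
    0 ≤ DD G (loc c a v) (loc c a' v) := by
  have h1 := hw.flux 0 (loc c a v) (loc c a' v)
  have h2 := gb_M (c := c) hw v a a'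
  have h3 : 0 ≤ C * (1 + q (loc c a v) + q (loc c a' v)) * DD G (loc c a v) (loc c a' v) :=
    (sq_nonneg _).trans h1
  by_contra hcon
  push Not at hcon
  have h4 := mul_neg_of_pos_of_neg h2 hcon
  linarith

/-- `2 |a| |b| ≤ l M a² + D / l` if `b² ≤ M D` -/
theorem gb_young {a b M D l : ℝ} (hM : 0 < M) (hl : 0 < l) (h : b ^ 2 ≤ M * D) :
    2 * (|a| * |b|) ≤ l * (M * a ^ 2) + D / l := by
  have h1 : b ^ 2 / (l * M) ≤ D / l := by
    rw [div_le_div_iff₀ (by positivity) hl]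
    nlinarith
  have h2 : 2 * (|a| * |b|) ≤ l * (M * a ^ 2) + b ^ 2 / (l * M) := by
    have h3 : 0 < l * M := by positivity
    rw [← sub_nonneg]
    have h4 : l * (M * a ^ 2) + b ^ 2 / (l * M) - 2 * (|a| * |b|) =
        (l * M * |a| - |b|) ^ 2 / (l * M) := by
      field_simp
      rw [← sq_abs a, ← sq_abs b]
      ring
    rw [h4]
    positivity
  linarith

/-- from all Young inequalities to Cauchy-Schwarz -/
theorem gb_cs {x Q E : ℝ} (hx : 0 ≤ x) (hQ : 0 ≤ Q) (h : ∀ l : ℝ, 0 < l → 2 * x ≤ l * Q + 4 * E / l) :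
    x ^ 2 ≤ 4 * (Q * E) := by
  rcases hx.eq_or_lt with hx0 | hx0
  · rw [← hx0]
    have h1 := h 1 one_pos
    rw [← hx0] at h1
    by_contra hcon
    push Not at hcon
    have hQE : Q * E < 0 := by nlinarith
    have hQ' : 0 < Q := by
      rcases hQ.eq_or_lt with hq | hq
      · rw [← hq] at hQE
        simp at hQE
      · exact hq
    have hE : E < 0 := by
      by_contra hE
      push Not at hE
      have := mul_nonneg hQ hE
      linarith
    have hl : 0 < Real.sqrt (-E / Q) := Real.sqrt_pos.mpr (div_pos (by linarith) hQ')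
    have h2 := h _ hl
    rw [← hx0] at h2
    have h3 : Real.sqrt (-E / Q) ^ 2 = -E / Q := Real.sq_sqrt (div_nonneg (by linarith) hQ)
    have h4 : 4 * E / Real.sqrt (-E / Q) = -4 * (Q * Real.sqrt (-E / Q)) := by
      rw [div_eq_iff hl.ne']
      have : -4 * (Q * Real.sqrt (-E / Q)) * Real.sqrt (-E / Q) =
          -4 * (Q * Real.sqrt (-E / Q) ^ 2) := by ring
      rw [this, h3]
      field_simp
    rw [h4] at h2
    nlinarith [mul_pos hQ' hl]
  · rcases hQ.eq_or_lt with hq | hq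
    · exfalso
      rw [← hq] at h
      have hE : 0 < E := by
        have := h 1 one_pos
        simp at this
        linarith
      have h1 := h (4 * E / x) (by positivity)
      have h2 : 4 * E / (4 * E / x) = x := by
        field_simp
      rw [h2] at h1
      linarith
    · have h1 := h (x / Q) (by positivity)
      have h2 : x / Q * Q = x := by field_simp
      have h3 : 4 * E / (x / Q) = 4 * (Q * E) / x := by
        field_simp
      rw [h2, h3] at h1
      have h4 : x ≤ 4 * (Q * E) / x := by linarith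
      rw [le_div_iff₀ hx0] at h4
      nlinarith

/-- the Caccioppoli inequality -/
theorem cacc {N Cg : ℝ} {lev : A → ℕ} {K m : ℕ} (hw : Cell w G C) (hN : Net c p R)
    (hL : Local c p lev K N Cg) {π : Measure ((A → ℝ) × (A → ℝ))}
    (hπ : FSeq w G c p 0 lev m π) {k : ℕ} (hk : k + 2 ≤ K) (hm : 2 ^ (k + 1) ≤ m)
    (hK : m ≤ 2 ^ K) :
    Dk G c lev π k ^ 2 ≤ 64 / 4 ^ (k + 1) * (Dk G c lev π (k + 1) - Dk G c lev π k) *
      ∫ z, ∑ v ∈ shl c lev k, C * (1 + q (loc c z.1 v) + q (loc c z.2 v)) *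
        ∑ i, ((z.2 - z.1) (c v i) - kap lev (k + 1) (z.2 - z.1)) ^ 2 ∂π := by
  have hcpl : Cpl w c p 0 π := ⟨hπ.prob, hπ.fst, hπ.snd⟩
  have hint : ∀ F : (A → ℝ) × (A → ℝ) → ℝ, gb_Gr F → Integrable F π := by
    intro F hF
    obtain ⟨mF, L, -, bF⟩ := hF
    exact cpl_int hw hN hcpl mF ⟨L, bF⟩
  -- abbreviations
  set Q : (A → ℝ) × (A → ℝ) → ℝ := fun z => ∑ v ∈ shl c lev k,
    C * (1 + q (loc c z.1 v) + q (loc c z.2 v)) *
        ∑ i, ((z.2 - z.1) (c v i) - kap lev (k + 1) (z.2 - z.1)) ^ 2 with hQdef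
  set E : (A → ℝ) × (A → ℝ) → ℝ := fun z => ∑ v ∈ shl c lev k,
    DD G (loc c z.1 v) (loc c z.2 v) with hEdef
  set S1 : (A → ℝ) × (A → ℝ) → ℝ := fun z => ∑ y, chi lev (k + 1) y ^ 2 *
    ((z.2 y - z.1 y) - kap lev (k + 1) (z.2 - z.1)) * (Fo G c z.2 y - Fo G c z.1 y) with hS1
  set S2 : (A → ℝ) × (A → ℝ) → ℝ := fun z => ∑ v ∈ shl c lev k, ∑ i,
        |(z.2 (c v i) - z.1 (c v i)) - kap lev (k + 1) (z.2 - z.1)| *
          |G i (loc c z.2 v) - G i (loc c z.1 v)| with hS2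
  set T : (A → ℝ) × (A → ℝ) → ℝ := fun z => ∑ v ∈ clv c lev k,
    DD G (loc c z.1 v) (loc c z.2 v) with hTdef
  have gha : ∀ v i, gb_Gr (fun z : (A → ℝ) × (A → ℝ) =>
      (z.2 (c v i) - z.1 (c v i)) - kap lev (k + 1) (z.2 - z.1)) := fun v i =>
    gb_sub (gb_sub (gb_snd _) (gb_fst _)) (gb_kap lev (k + 1))
  have gQ : gb_Gr Q := by
    refine gb_sum _ fun v _ => gb_mul (gb_mul (gb_const C) (gb_add (gb_add (gb_const 1)
      (gb_q1 v)) (gb_q2 v))) (gb_sum _ fun i _ => gb_pow (gha v i) 2)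
  have gE : gb_Gr E := gb_sum _ fun v _ => gb_DD hw v
  have gT : gb_Gr T := gb_sum _ fun v _ => gb_DD hw v
  have gS2 : gb_Gr S2 := gb_sum _ fun v _ => gb_sum _ fun i _ =>
    gb_mul (gb_abs (gha v i)) (gb_abs (gb_sub (gb_G2 hw v i) (gb_G1 hw v i)))
  have gS1y : ∀ y, gb_Gr (fun z : (A → ℝ) × (A → ℝ) => chi lev (k + 1) y ^ 2 *
      ((z.2 y - z.1 y) - kap lev (k + 1) (z.2 - z.1)) * (Fo G c z.2 y - Fo G c z.1 y)) := fun y =>
    gb_mul (gb_mul (gb_const _) (gb_sub (gb_sub (gb_snd _) (gb_fst _)) (gb_kap lev (k + 1))))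
      (gb_Fo hw y)
  have gS1 : gb_Gr S1 := gb_sum _ fun y _ => gS1y y
  -- the first sum
  have hS1le : ∫ z, S1 z ∂π ≤ 0 := by
    rw [hS1, integral_finsetSum _ fun y _ => hint _ (gS1y y)]
    refine Finset.sum_nonpos fun y _ => ?_
    by_cases hy : 2 ^ (k + 1) ≤ lev y
    · have h0 : chi lev (k + 1) y = 0 := (chi_basic lev (k + 1) y).2.2.1 hy
      simp [h0]
    · push Not at hy
      have hylt : lev y < m := lt_of_lt_of_le hy hm
      have hyp : y ≠ p := by
        intro h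
        rw [h] at hylt
        have := hL.far
        omega
      have hkey := hπ.key y hyp hylt
      have hzero : ∀ x ∈ ann lev (k + 1), ∫ z, (z.2 x - z.1 x) *
          (Fo G c z.2 y - Fo G c z.1 y) ∂π = 0 := by
        intro x hx
        have hx1 : 2 ^ (k + 1) < lev x := by
          have := (Finset.mem_filter.mp hx).2.1
          exact this
        have h := hπ.zero y x hyp hylt (hy.trans hx1)
        simpa using h
      have hkey' : ∫ z, (z.2 y - z.1 y) * (Fo G c z.2 y - Fo G c z.1 y) ∂π ≤ 0 := by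
        simpa using hkey
      have e1 : ∫ z, kap lev (k + 1) (z.2 - z.1) * (Fo G c z.2 y - Fo G c z.1 y) ∂π = 0 := by
        have e2 : (fun z : (A → ℝ) × (A → ℝ) => kap lev (k + 1) (z.2 - z.1) *
            (Fo G c z.2 y - Fo G c z.1 y)) = fun z => ((ann lev (k + 1)).card : ℝ)⁻¹ *
              ∑ x ∈ ann lev (k + 1), (z.2 x - z.1 x) * (Fo G c z.2 y - Fo G c z.1 y) := by
          funext z
          unfold kap
          rw [div_eq_inv_mul, mul_assoc, Finset.sum_mul]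
          rfl
        rw [e2, integral_const_mul, integral_finsetSum _ fun x _ =>
          hint _ (gb_mul (gb_sub (gb_snd x) (gb_fst x)) (gb_Fo hw y)), Finset.sum_eq_zero hzero,
          mul_zero]
      have e3 : ∫ z, chi lev (k + 1) y ^ 2 * ((z.2 y - z.1 y) - kap lev (k + 1) (z.2 - z.1)) *
          (Fo G c z.2 y - Fo G c z.1 y) ∂π = chi lev (k + 1) y ^ 2 *
            ∫ z, (z.2 y - z.1 y) * (Fo G c z.2 y - Fo G c z.1 y) ∂π := by
        have e4 : (fun z : (A → ℝ) × (A → ℝ) => chi lev (k + 1) y ^ 2 *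
            ((z.2 y - z.1 y) - kap lev (k + 1) (z.2 - z.1)) * (Fo G c z.2 y - Fo G c z.1 y)) =
            fun z => chi lev (k + 1) y ^ 2 * ((z.2 y - z.1 y) * (Fo G c z.2 y - Fo G c z.1 y) -
              kap lev (k + 1) (z.2 - z.1) * (Fo G c z.2 y - Fo G c z.1 y)) := by
          funext z
          ring
        rw [e4, integral_const_mul, integral_sub
          (hint _ (gb_mul (gb_sub (gb_snd y) (gb_fst y)) (gb_Fo hw y)))
          (hint _ (gb_mul (gb_kap lev (k + 1)) (gb_Fo hw y))), e1, sub_zero]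
      rw [e3]
      exact mul_nonpos_of_nonneg_of_nonpos (sq_nonneg _) hkey'
  -- the main inequality
  have hD : Dk G c lev π k ≤ 4 / 2 ^ (k + 1) * ∫ z, S2 z ∂π := by
    have h1 : Dk G c lev π k ≤ ∫ z, (S1 z + 4 / 2 ^ (k + 1) * S2 z) ∂π := by
      unfold Dk
      refine integral_mono (hint _ gT) (hint _ (gb_add gS1 (gb_mul (gb_const _) gS2))) fun z => ?_
      exact cacc_point hw hL k z.1 z.2 (kap lev (k + 1) (z.2 - z.1))
    rw [integral_add (hint _ gS1) (hint _ (gb_mul (gb_const _) gS2)), integral_const_mul] at h1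
    linarith
  have hD0 : 0 ≤ Dk G c lev π k := by
    unfold Dk
    exact integral_nonneg fun z => Finset.sum_nonneg fun v _ => gb_DDnn hw v _ _
  have hS20 : 0 ≤ ∫ z, S2 z ∂π := integral_nonneg fun z => Finset.sum_nonneg fun v _ =>
    Finset.sum_nonneg fun i _ => mul_nonneg (abs_nonneg _) (abs_nonneg _)
  have hQ0 : 0 ≤ ∫ z, Q z ∂π := integral_nonneg fun z => Finset.sum_nonneg fun v _ =>
    mul_nonneg (gb_M hw v _ _).le (Finset.sum_nonneg fun i _ => sq_nonneg _)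
  have hE : ∫ z, E z ∂π = Dk G c lev π (k + 1) - Dk G c lev π k := by
    classical
    unfold Dk
    rw [← integral_sub (hint _ (gb_sum _ fun v _ => gb_DD hw v)) (hint _ gT)]
    refine integral_congr_ae (Filter.Eventually.of_forall fun z => ?_)
    have h1 : shl c lev k = clv c lev (k + 1) \ clv c lev k := by
      ext v
      unfold shl clv
      simp only [Finset.mem_filter, Finset.mem_univ, true_and, Finset.mem_sdiff]
    have h2 : clv c lev k ⊆ clv c lev (k + 1) := by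
      intro v hv
      unfold clv at hv ⊢
      simp only [Finset.mem_filter, Finset.mem_univ, true_and] at hv ⊢
      intro i
      exact (hv i).trans (Nat.pow_le_pow_right (by norm_num) (Nat.le_succ k))
    have h3 := Finset.sum_sdiff (f := fun v => DD G (loc c z.1 v) (loc c z.2 v)) h2
    simp only [hEdef, hTdef]
    rw [h1]
    linarith
  have hyoung : ∀ l : ℝ, 0 < l → 2 * ∫ z, S2 z ∂π ≤ l * ∫ z, Q z ∂π + 4 * (∫ z, E z ∂π) / l := by
    intro l hl
    have h1 : ∫ z, 2 * S2 z ∂π ≤ ∫ z, (l * Q z + 4 / l * E z) ∂π := by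
      refine integral_mono (hint _ (gb_mul (gb_const 2) gS2))
        (hint _ (gb_add (gb_mul (gb_const l) gQ) (gb_mul (gb_const _) gE))) fun z => ?_
      simp only [hS2, hQdef, hEdef]
      rw [Finset.mul_sum, Finset.mul_sum, Finset.mul_sum, ← Finset.sum_add_distrib]
      refine Finset.sum_le_sum fun v _ => ?_
      have h2 : l * (C * (1 + q (loc c z.1 v) + q (loc c z.2 v)) *
          ∑ i, ((z.2 - z.1) (c v i) - kap lev (k + 1) (z.2 - z.1)) ^ 2) +
          4 / l * DD G (loc c z.1 v) (loc c z.2 v) =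
          ∑ i : Fin 4, (l * (C * (1 + q (loc c z.1 v) + q (loc c z.2 v)) *
            ((z.2 (c v i) - z.1 (c v i)) - kap lev (k + 1) (z.2 - z.1)) ^ 2) +
              DD G (loc c z.1 v) (loc c z.2 v) / l) := by
        rw [Finset.sum_add_distrib, Finset.mul_sum, Finset.mul_sum]
        simp only [Finset.sum_const, Finset.card_univ, Fintype.card_fin, nsmul_eq_mul,
          Pi.sub_apply]
        push_cast
        ring
      rw [h2, Finset.mul_sum]
      refine Finset.sum_le_sum fun i _ => ?_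
      exact gb_young (gb_M hw v _ _) hl (hw.flux i _ _)
    rw [integral_const_mul, integral_add (hint _ (gb_mul (gb_const l) gQ))
      (hint _ (gb_mul (gb_const _) gE)), integral_const_mul, integral_const_mul] at h1
    have h3 : 4 / l * ∫ z, E z ∂π = 4 * (∫ z, E z ∂π) / l := by ring
    rw [h3] at h1
    exact h1
  have hcs := gb_cs hS20 hQ0 hyoung
  rw [hE] at hcs
  have hsq : Dk G c lev π k ^ 2 ≤ (4 / 2 ^ (k + 1) * ∫ z, S2 z ∂π) ^ 2 :=
    pow_le_pow_left₀ hD0 hD 2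
  have h4 : (4 / 2 ^ (k + 1) * ∫ z, S2 z ∂π) ^ 2 = 16 / 4 ^ (k + 1) * (∫ z, S2 z ∂π) ^ 2 := by
    have h5 : ((4 : ℝ)) ^ (k + 1) = (2 ^ (k + 1)) ^ 2 := by
      rw [← pow_mul, mul_comm, pow_mul]
      norm_num
    rw [h5, mul_pow, div_pow]
    norm_num
  rw [h4] at hsq
  refine hsq.trans ?_
  have h6 : 16 / 4 ^ (k + 1) * (∫ z, S2 z ∂π) ^ 2 ≤ 16 / 4 ^ (k + 1) *
      (4 * ((∫ z, Q z ∂π) * (Dk G c lev π (k + 1) - Dk G c lev π k))) :=
    mul_le_mul_of_nonneg_left hcs (by positivity)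
  refine h6.trans (le_of_eq ?_)
  ring

end QG
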