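import Mathlib
import Pool.Agent.Lib_helper69.QG.Defs
import Pool.Agent.Lib_helper69.QG.Field
import Pool.Agent.Lib_helper69.QG.W.fe
import Pool.Agent.Lib_helper69.QG.W.fm
import Pool.Agent.Lib_helper69.QG.W.gb
import Pool.Agent.Lib_helper69.QG.W.gc

set_option autoImplicit false

namespace QG

open MeasureTheory

section gd_section
variable {A B : Type} [Fintype A] [DecidableEq A] [Fintype B] {w : (Fin 4 → ℝ) → ℝ}
  {G : Fin 4 → (Fin 4 → ℝ) → ℝ} {C : ℝ} {c : B → Fin 4 → A} {p : A} {R : ℝ}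

theorem gd_q_nonneg (t : Fin 4 → ℝ) : 0 ≤ q t :=
  Finset.sum_nonneg fun _ _ => Finset.sum_nonneg fun _ _ => sq_nonneg _

theorem gd_S_nonneg (z : (A → ℝ) × (A → ℝ)) : 0 ≤ ∑ y, |z.1 y| + ∑ y, |z.2 y| :=
  add_nonneg (Finset.sum_nonneg fun _ _ => abs_nonneg _) (Finset.sum_nonneg fun _ _ => abs_nonneg _)

theorem gd_q_le (c : B → Fin 4 → A) (v : B) (a : A → ℝ) (S : ℝ) (hS : ∀ y, |a y| ≤ S) :
    1 + q (loc c a v) ≤ 64 * (1 + S) ^ 2 := by
  have h0 : 0 ≤ S := le_trans (abs_nonneg _) (hS (c v 0))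
  have h1 : ∀ i j : Fin 4, (loc c a v i - loc c a v j) ^ 2 ≤ 4 * S ^ 2 := by
    intro i j
    have hi := abs_le.1 (hS (c v i))
    have hj := abs_le.1 (hS (c v j))
    have h2 : |loc c a v i - loc c a v j| ≤ 2 * S := by
      unfold loc
      rw [abs_le]
      constructor <;> linarith [hi.1, hi.2, hj.1, hj.2]
    calc (loc c a v i - loc c a v j) ^ 2 = |loc c a v i - loc c a v j| ^ 2 := (sq_abs _).symm
      _ ≤ (2 * S) ^ 2 := pow_le_pow_left₀ (abs_nonneg _) h2 2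
      _ = 4 * S ^ 2 := by ring
  have h2 : q (loc c a v) ≤ 16 * (4 * S ^ 2) := by
    unfold q
    calc ∑ i, ∑ j, (loc c a v i - loc c a v j) ^ 2 ≤ ∑ _i : Fin 4, ∑ _j : Fin 4, 4 * S ^ 2 :=
          Finset.sum_le_sum fun i _ => Finset.sum_le_sum fun j _ => h1 i j
      _ = 16 * (4 * S ^ 2) := by simp; ring
  nlinarith

theorem gd_abs_le_S (z : (A → ℝ) × (A → ℝ)) (y : A) :
    |z.1 y| ≤ ∑ y, |z.1 y| + ∑ y, |z.2 y| ∧ |z.2 y| ≤ ∑ y, |z.1 y| + ∑ y, |z.2 y| ∧
      |(z.2 - z.1) y| ≤ ∑ y, |z.1 y| + ∑ y, |z.2 y| := by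
  have h1 : |z.1 y| ≤ ∑ y, |z.1 y| :=
    Finset.single_le_sum (f := fun y => |z.1 y|) (fun _ _ => abs_nonneg _) (Finset.mem_univ y)
  have h2 : |z.2 y| ≤ ∑ y, |z.2 y| :=
    Finset.single_le_sum (f := fun y => |z.2 y|) (fun _ _ => abs_nonneg _) (Finset.mem_univ y)
  have h3 : |(z.2 - z.1) y| ≤ |z.2 y| + |z.1 y| := by
    rw [Pi.sub_apply]; exact abs_sub _ _
  have h4 := abs_nonneg (z.1 y)
  have h5 := abs_nonneg (z.2 y)
  refine ⟨?_, ?_, ?_⟩ <;> linarith

theorem gd_kap_le (lev : A → ℕ) (k : ℕ) (h : A → ℝ) (S : ℝ) (h0 : 0 ≤ S) (hS : ∀ y, |h y| ≤ S) :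
    |kap lev k h| ≤ S := by
  unfold kap
  rw [abs_div]
  rcases Nat.eq_zero_or_pos (ann lev k).card with h1 | h1
  · simp [h1, h0]
  · have h2 : (0 : ℝ) < (ann lev k).card := by exact_mod_cast h1
    rw [abs_of_pos h2, div_le_iff₀ h2]
    calc |∑ y ∈ ann lev k, h y| ≤ ∑ y ∈ ann lev k, |h y| := Finset.abs_sum_le_sum_abs _ _
      _ ≤ ∑ _y ∈ ann lev k, S := Finset.sum_le_sum fun y _ => hS y
      _ = S * (ann lev k).card := by rw [Finset.sum_const, nsmul_eq_mul]; ring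

/-- functions of polynomial growth are integrable -/
theorem gd_int (hw : Cell w G C) (hN : Net c p R) {π : Measure ((A → ℝ) × (A → ℝ))}
    (hπ : Cpl w c p 0 π) {F : (A → ℝ) × (A → ℝ) → ℝ} (hF : Measurable F) (P : ℝ) (n : ℕ)
    (h : ∀ z, |F z| ≤ P * (1 + (∑ y, |z.1 y| + ∑ y, |z.2 y|)) ^ n) : Integrable F π := by
  refine cpl_int hw hN hπ hF ⟨max |P| n, fun z => (h z).trans ?_⟩
  set S := ∑ y, |z.1 y| + ∑ y, |z.2 y| with hS
  have h0 : 0 ≤ S := gd_S_nonneg z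
  have h1 : (1 + S) ^ n ≤ Real.exp (max |P| n * S) := by
    calc (1 + S) ^ n ≤ (Real.exp S) ^ n :=
          pow_le_pow_left₀ (by linarith) (by linarith [Real.add_one_le_exp S]) n
      _ = Real.exp (n * S) := by rw [← Real.exp_nat_mul]
      _ ≤ Real.exp (max |P| n * S) :=
          Real.exp_le_exp.2 (mul_le_mul_of_nonneg_right (le_max_right _ _) h0)
  calc P * (1 + S) ^ n ≤ |P| * (1 + S) ^ n :=
        mul_le_mul_of_nonneg_right (le_abs_self P) (by positivity)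
    _ ≤ max |P| n * Real.exp (max |P| n * S) :=
        mul_le_mul (le_max_left _ _) h1 (by positivity) (le_trans (abs_nonneg _) (le_max_left _ _))

theorem gd_q8 (hw : Cell w G C) (hN : Net c p R) {π : Measure ((A → ℝ) × (A → ℝ))}
    (hπ : Cpl w c p 0 π) (v : B) :
    Integrable (fun z => (1 + q (loc c z.1 v)) ^ 8) π ∧
      Integrable (fun z => (1 + q (loc c z.2 v)) ^ 8) π := by
  have hb : ∀ (z : (A → ℝ) × (A → ℝ)) (a : A → ℝ),
      (∀ y, |a y| ≤ ∑ y, |z.1 y| + ∑ y, |z.2 y|) →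
      |(1 + q (loc c a v)) ^ 8| ≤ 64 ^ 8 * (1 + (∑ y, |z.1 y| + ∑ y, |z.2 y|)) ^ 16 := by
    intro z a ha
    have h1 := gd_q_le c v a _ ha
    have h2 := gd_q_nonneg (loc c a v)
    rw [abs_of_nonneg (by positivity)]
    calc (1 + q (loc c a v)) ^ 8 ≤ (64 * (1 + (∑ y, |z.1 y| + ∑ y, |z.2 y|)) ^ 2) ^ 8 :=
          pow_le_pow_left₀ (by positivity) h1 8
      _ = _ := by ring
  constructor
  · refine gd_int hw hN hπ ?_ (64 ^ 8) 16 fun z => hb z z.1 fun y => (gd_abs_le_S z y).1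
    unfold q loc
    fun_prop
  · refine gd_int hw hN hπ ?_ (64 ^ 8) 16 fun z => hb z z.2 fun y => (gd_abs_le_S z y).2.1
    unfold q loc
    fun_prop

theorem gd_osc_int (hw : Cell w G C) (hN : Net c p R) {π : Measure ((A → ℝ) × (A → ℝ))}
    (hπ : Cpl w c p 0 π) (lev : A → ℕ) (k : ℕ) (y : A) :
    Integrable (fun z => ((z.2 - z.1) y - kap lev k (z.2 - z.1)) ^ 4) π := by
  refine gd_int hw hN hπ ?_ 16 4 fun z => ?_
  · unfold kap
    simp only [Pi.sub_apply]
    fun_prop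
  · set S := ∑ y, |z.1 y| + ∑ y, |z.2 y| with hS
    have h0 : 0 ≤ S := gd_S_nonneg z
    have h1 := (gd_abs_le_S z y).2.2
    have h2 := gd_kap_le lev k (z.2 - z.1) S h0 fun y => (gd_abs_le_S z y).2.2
    rw [← hS] at h1
    have h3 : |(z.2 - z.1) y - kap lev k (z.2 - z.1)| ≤ 2 * (1 + S) := by
      refine (abs_sub _ _).trans ?_
      linarith
    rw [abs_pow]
    calc |(z.2 - z.1) y - kap lev k (z.2 - z.1)| ^ 4 ≤ (2 * (1 + S)) ^ 4 :=
          pow_le_pow_left₀ (abs_nonneg _) h3 4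
      _ = 16 * (1 + S) ^ 4 := by ring

end gd_section

/-- the a priori step of the recursion -/
theorem step_one {w : (Fin 4 → ℝ) → ℝ} {G : Fin 4 → (Fin 4 → ℝ) → ℝ} {C : ℝ} (hw : Cell w G C)
    (Cg : ℝ) : ∃ K1 : ℝ, 1 ≤ K1 ∧ ∀ {A B : Type} [Fintype A] [DecidableEq A] [Fintype B]
      {c : B → Fin 4 → A} {p : A} {R : ℝ} {N : ℝ} {lev : A → ℕ} {K m : ℕ}, Net c p R → 1 ≤ N →
      Local c p lev K N Cg → ∀ {π : Measure ((A → ℝ) × (A → ℝ))}, FSeq w G c p 0 lev m π →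
      m ≤ 2 ^ K → ∀ k, k + 2 ≤ K → 2 ^ (k + 1) ≤ m →
      Dk G c lev π k ^ 2 ≤ K1 * N * Dk G c lev π (k + 1) := by
  obtain ⟨Kq, hKq1, hKq⟩ := q_moment hw
  obtain ⟨Ko, hKo1, hKo⟩ := osc_moment hw Cg
  have hC := hw.one_le
  refine ⟨1 + 128 * C * |Cg| * (4 * Kq + Ko), ?_, ?_⟩
  · have : 0 ≤ 128 * C * |Cg| * (4 * Kq + Ko) := by positivity
    linarith
  intro A B _ _ _ c p R N lev K m hN hN1 hL π hπ hm k hk hkm
  have hπ' : Cpl w c p 0 π := ⟨hπ.prob, hπ.fst, hπ.snd⟩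
  have hCg := hL.one_le
  have hca := cacc hw hN hL hπ hk hkm hm
  obtain ⟨hD0, hD1⟩ := Dk_mono hw hN lev hπ' k
  obtain ⟨hD2, -⟩ := Dk_mono hw hN lev hπ' (k + 1)
  -- the integral
  have hI : ∫ z, ∑ v ∈ shl c lev k, C * (1 + q (loc c z.1 v) + q (loc c z.2 v)) *
        ∑ i, ((z.2 - z.1) (c v i) - kap lev (k + 1) (z.2 - z.1)) ^ 2 ∂π ≤
      Cg * 4 ^ (k + 1) * (C * (2 * N * (4 * Kq + Ko))) := by
    have hq := fun v : B => gd_q8 hw hN hπ' v
    have ho := fun y : A => gd_osc_int hw hN hπ' lev (k + 1) y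
    have hGi : ∀ v : B, ∀ i : Fin 4, Integrable (fun z : (A → ℝ) × (A → ℝ) =>
        N * ((1 + q (loc c z.1 v)) ^ 8 + (1 + q (loc c z.2 v)) ^ 8) +
          ((z.2 - z.1) (c v i) - kap lev (k + 1) (z.2 - z.1)) ^ 4 / (2 * N)) π := by
      intro v i
      exact (((hq v).1.add (hq v).2).const_mul N).add ((ho (c v i)).div_const _)
    have hGb : ∀ v : B, ∀ i : Fin 4, ∫ z : (A → ℝ) × (A → ℝ),
        (N * ((1 + q (loc c z.1 v)) ^ 8 + (1 + q (loc c z.2 v)) ^ 8) +
          ((z.2 - z.1) (c v i) - kap lev (k + 1) (z.2 - z.1)) ^ 4 / (2 * N)) ∂π ≤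
        N * (4 * Kq + Ko) / 2 := by
      intro v i
      have i1 : Integrable (fun z : (A → ℝ) × (A → ℝ) =>
          N * ((1 + q (loc c z.1 v)) ^ 8 + (1 + q (loc c z.2 v)) ^ 8)) π :=
        ((hq v).1.add (hq v).2).const_mul N
      have i2 : Integrable (fun z : (A → ℝ) × (A → ℝ) =>
          ((z.2 - z.1) (c v i) - kap lev (k + 1) (z.2 - z.1)) ^ 4 / (2 * N)) π :=
        (ho (c v i)).div_const _
      rw [integral_add i1 i2, integral_const_mul, integral_add (hq v).1 (hq v).2, integral_div]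
      have hmq : Measurable (fun a : A → ℝ => (1 + q (loc c a v)) ^ 8) := by
        unfold q loc
        fun_prop
      have h1 := cpl_fst hπ' (F := fun a : A → ℝ => (1 + q (loc c a v)) ^ 8) hmq
      rw [h1.1, h1.2]
      have h2 := hKq hN v
      have h3 := hKo hN hN1 hL hπ' (k + 1) (by omega) (c v i)
      have h4 : (∫ z, ((z.2 - z.1) (c v i) - kap lev (k + 1) (z.2 - z.1)) ^ 4 ∂π) / (2 * N) ≤
          Ko * N / 2 := by
        rw [div_le_iff₀ (by positivity)]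
        calc _ ≤ Ko * N ^ 2 := h3
          _ = _ := by ring
      nlinarith
    have hFm : ∀ v : B, ∀ i : Fin 4, ∀ z : (A → ℝ) × (A → ℝ),
        (1 + q (loc c z.1 v) + q (loc c z.2 v)) *
          ((z.2 - z.1) (c v i) - kap lev (k + 1) (z.2 - z.1)) ^ 2 ≤
        N * ((1 + q (loc c z.1 v)) ^ 8 + (1 + q (loc c z.2 v)) ^ 8) +
          ((z.2 - z.1) (c v i) - kap lev (k + 1) (z.2 - z.1)) ^ 4 / (2 * N) := by
      intro v i z
      set a := q (loc c z.1 v)
      set b := q (loc c z.2 v)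
      set s := (z.2 - z.1) (c v i) - kap lev (k + 1) (z.2 - z.1)
      have ha : 0 ≤ a := gd_q_nonneg _
      have hb : 0 ≤ b := gd_q_nonneg _
      have h1 : (1 + a) ^ 2 ≤ (1 + a) ^ 8 := pow_le_pow_right₀ (by linarith) (by norm_num)
      have h2 : (1 + b) ^ 2 ≤ (1 + b) ^ 8 := pow_le_pow_right₀ (by linarith) (by norm_num)
      have h3 : (1 + a + b) * s ^ 2 ≤ N * (1 + a + b) ^ 2 / 2 + s ^ 4 / (2 * N) := by
        have h5 : 0 ≤ (N * (1 + a + b) - s ^ 2) ^ 2 / (2 * N) := by positivity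
        have h6 : (N * (1 + a + b) - s ^ 2) ^ 2 / (2 * N) =
            N * (1 + a + b) ^ 2 / 2 + s ^ 4 / (2 * N) - (1 + a + b) * s ^ 2 := by
          have hN0 : N ≠ 0 := by positivity
          field_simp
          ring
        linarith
      have h4 : (1 + a + b) ^ 2 ≤ 2 * ((1 + a) ^ 2 + (1 + b) ^ 2) := by nlinarith [sq_nonneg (a - b)]
      have h7 : N * (1 + a + b) ^ 2 / 2 ≤ N * ((1 + a) ^ 8 + (1 + b) ^ 8) := by
        have : (1 + a + b) ^ 2 / 2 ≤ (1 + a) ^ 8 + (1 + b) ^ 8 := by linarith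
        calc N * (1 + a + b) ^ 2 / 2 = N * ((1 + a + b) ^ 2 / 2) := by ring
          _ ≤ _ := mul_le_mul_of_nonneg_left this (by linarith)
      linarith
    calc ∫ z, ∑ v ∈ shl c lev k, C * (1 + q (loc c z.1 v) + q (loc c z.2 v)) *
          ∑ i, ((z.2 - z.1) (c v i) - kap lev (k + 1) (z.2 - z.1)) ^ 2 ∂π ≤
        ∫ z, ∑ v ∈ shl c lev k, C * ∑ i,
          (N * ((1 + q (loc c z.1 v)) ^ 8 + (1 + q (loc c z.2 v)) ^ 8) +
          ((z.2 - z.1) (c v i) - kap lev (k + 1) (z.2 - z.1)) ^ 4 / (2 * N)) ∂π := by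
          refine integral_mono_of_nonneg (Filter.Eventually.of_forall fun z => ?_) ?_
            (Filter.Eventually.of_forall fun z => ?_)
          · refine Finset.sum_nonneg fun v _ => mul_nonneg (mul_nonneg (by linarith) ?_)
              (Finset.sum_nonneg fun _ _ => sq_nonneg _)
            have := gd_q_nonneg (loc c z.1 v)
            have := gd_q_nonneg (loc c z.2 v)
            linarith
          · exact integrable_finset_sum _ fun v _ =>
              (integrable_finset_sum _ fun i _ => hGi v i).const_mul C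
          · refine Finset.sum_le_sum fun v _ => ?_
            rw [mul_assoc, Finset.mul_sum]
            exact mul_le_mul_of_nonneg_left (Finset.sum_le_sum fun i _ => hFm v i z) (by linarith)
      _ = ∑ v ∈ shl c lev k, C * ∑ i, ∫ z : (A → ℝ) × (A → ℝ),
          (N * ((1 + q (loc c z.1 v)) ^ 8 + (1 + q (loc c z.2 v)) ^ 8) +
          ((z.2 - z.1) (c v i) - kap lev (k + 1) (z.2 - z.1)) ^ 4 / (2 * N)) ∂π := by
          rw [integral_finset_sum _ fun v _ =>
              (integrable_finset_sum _ fun i _ => hGi v i).const_mul C]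
          refine Finset.sum_congr rfl fun v _ => ?_
          rw [integral_const_mul, integral_finset_sum _ fun i _ => hGi v i]
      _ ≤ ∑ v ∈ shl c lev k, C * (2 * N * (4 * Kq + Ko)) := by
          refine Finset.sum_le_sum fun v _ => mul_le_mul_of_nonneg_left ?_ (by linarith)
          calc _ ≤ ∑ _i : Fin 4, N * (4 * Kq + Ko) / 2 := Finset.sum_le_sum fun i _ => hGb v i
            _ = _ := by simp; ring
      _ = ((shl c lev k).card : ℝ) * (C * (2 * N * (4 * Kq + Ko))) := by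
          rw [Finset.sum_const, nsmul_eq_mul]
      _ ≤ Cg * 4 ^ (k + 1) * (C * (2 * N * (4 * Kq + Ko))) := by
          refine mul_le_mul_of_nonneg_right ?_ (by positivity)
          refine le_trans ?_ (hL.count (k + 1) (by omega))
          exact_mod_cast Finset.card_le_card fun v hv => by
            unfold shl at hv
            unfold clv
            rw [Finset.mem_filter] at hv ⊢
            exact ⟨hv.1, hv.2.1⟩
  have h4 : (0 : ℝ) < 4 ^ (k + 1) := by positivity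
  have hd : 0 ≤ Dk G c lev π (k + 1) - Dk G c lev π k := by linarith
  calc Dk G c lev π k ^ 2 ≤ 64 / 4 ^ (k + 1) * (Dk G c lev π (k + 1) - Dk G c lev π k) *
        (Cg * 4 ^ (k + 1) * (C * (2 * N * (4 * Kq + Ko)))) :=
        hca.trans (mul_le_mul_of_nonneg_left hI (by positivity))
    _ = 128 * C * Cg * (4 * Kq + Ko) * N * (Dk G c lev π (k + 1) - Dk G c lev π k) := by
        field_simp
        ring
    _ ≤ 128 * C * Cg * (4 * Kq + Ko) * N * Dk G c lev π (k + 1) :=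
        mul_le_mul_of_nonneg_left (by linarith) (by positivity)
    _ ≤ (1 + 128 * C * |Cg| * (4 * Kq + Ko)) * N * Dk G c lev π (k + 1) := by
        refine mul_le_mul_of_nonneg_right (mul_le_mul_of_nonneg_right ?_ (by linarith)) hD2
        rw [abs_of_pos (by linarith)]
        linarith

end QG
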