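import Mathlib
import Pool.Agent.Lib_helper69.QG.Defs
import Pool.Agent.Lib_helper69.QG.Field
import Pool.Agent.Lib_helper69.QG.W.fe
import Pool.Agent.Lib_helper69.QG.W.fl
import Pool.Agent.Lib_helper69.QG.W.fm
import Pool.Agent.Lib_helper69.QG.W.gb
import Pool.Agent.Lib_helper69.QG.W.gc

set_option autoImplicit false

namespace QG

open MeasureTheory

section ge_section
variable {A B : Type} [Fintype A] [DecidableEq A] [Fintype B] {w : (Fin 4 → ℝ) → ℝ}
  {G : Fin 4 → (Fin 4 → ℝ) → ℝ} {C : ℝ} {c : B → Fin 4 → A} {p : A} {R : ℝ}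

theorem ge_q_nonneg (t : Fin 4 → ℝ) : 0 ≤ q t :=
  Finset.sum_nonneg fun _ _ => Finset.sum_nonneg fun _ _ => sq_nonneg _

theorem ge_S_nonneg (z : (A → ℝ) × (A → ℝ)) : 0 ≤ ∑ y, |z.1 y| + ∑ y, |z.2 y| :=
  add_nonneg (Finset.sum_nonneg fun _ _ => abs_nonneg _) (Finset.sum_nonneg fun _ _ => abs_nonneg _)

theorem ge_q_le (c : B → Fin 4 → A) (v : B) (a : A → ℝ) (S : ℝ) (hS : ∀ y, |a y| ≤ S) :
    1 + q (loc c a v) ≤ 64 * (1 + S) ^ 2 := by
  have h0 : 0 ≤ S := le_trans (abs_nonneg _) (hS (c v 0))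
  have h1 : ∀ i j : Fin 4, (loc c a v i - loc c a v j) ^ 2 ≤ 4 * S ^ 2 := by
    intro i j
    have hi := abs_le.1 (hS (c v i))
    have hj := abs_le.1 (hS (c v j))
    have h2 : |loc c a v i - loc c a v j| ≤ 2 * S := by
      unfold loc
      rw [abs_le]
      constructor <;> linarith [hi.1, hi.2, hj.1, hj.2]
    calc (loc c a v i - loc c a v j) ^ 2 = |loc c a v i - loc c a v j| ^ 2 := (sq_abs _).symm
      _ ≤ (2 * S) ^ 2 := pow_le_pow_left₀ (abs_nonneg _) h2 2
      _ = 4 * S ^ 2 := by ring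
  have h2 : q (loc c a v) ≤ 16 * (4 * S ^ 2) := by
    unfold q
    calc ∑ i, ∑ j, (loc c a v i - loc c a v j) ^ 2 ≤ ∑ _i : Fin 4, ∑ _j : Fin 4, 4 * S ^ 2 :=
          Finset.sum_le_sum fun i _ => Finset.sum_le_sum fun j _ => h1 i j
      _ = 16 * (4 * S ^ 2) := by simp; ring
  nlinarith

theorem ge_abs_le_S (z : (A → ℝ) × (A → ℝ)) (y : A) :
    |z.1 y| ≤ ∑ y, |z.1 y| + ∑ y, |z.2 y| ∧ |z.2 y| ≤ ∑ y, |z.1 y| + ∑ y, |z.2 y| ∧
      |(z.2 - z.1) y| ≤ ∑ y, |z.1 y| + ∑ y, |z.2 y| := by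
  have h1 : |z.1 y| ≤ ∑ y, |z.1 y| :=
    Finset.single_le_sum (f := fun y => |z.1 y|) (fun _ _ => abs_nonneg _) (Finset.mem_univ y)
  have h2 : |z.2 y| ≤ ∑ y, |z.2 y| :=
    Finset.single_le_sum (f := fun y => |z.2 y|) (fun _ _ => abs_nonneg _) (Finset.mem_univ y)
  have h3 : |(z.2 - z.1) y| ≤ |z.2 y| + |z.1 y| := by
    rw [Pi.sub_apply]; exact abs_sub _ _
  have h4 := abs_nonneg (z.1 y)
  have h5 := abs_nonneg (z.2 y)
  refine ⟨?_, ?_, ?_⟩ <;> linarith

theorem ge_kap_le (lev : A → ℕ) (k : ℕ) (h : A → ℝ) (S : ℝ) (h0 : 0 ≤ S) (hS : ∀ y, |h y| ≤ S) :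
    |kap lev k h| ≤ S := by
  unfold kap
  rw [abs_div]
  rcases Nat.eq_zero_or_pos (ann lev k).card with h1 | h1
  · simp [h1, h0]
  · have h2 : (0 : ℝ) < (ann lev k).card := by exact_mod_cast h1
    rw [abs_of_pos h2, div_le_iff₀ h2]
    calc |∑ y ∈ ann lev k, h y| ≤ ∑ y ∈ ann lev k, |h y| := Finset.abs_sum_le_sum_abs _ _
      _ ≤ ∑ _y ∈ ann lev k, S := Finset.sum_le_sum fun y _ => hS y
      _ = S * (ann lev k).card := by rw [Finset.sum_const, nsmul_eq_mul]; ring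

/-- functions of polynomial growth are integrable -/
theorem ge_int (hw : Cell w G C) (hN : Net c p R) {π : Measure ((A → ℝ) × (A → ℝ))}
    (hπ : Cpl w c p 0 π) {F : (A → ℝ) × (A → ℝ) → ℝ} (hF : Measurable F) (P : ℝ) (n : ℕ)
    (h : ∀ z, |F z| ≤ P * (1 + (∑ y, |z.1 y| + ∑ y, |z.2 y|)) ^ n) : Integrable F π := by
  refine cpl_int hw hN hπ hF ⟨max |P| n, fun z => (h z).trans ?_⟩
  set S := ∑ y, |z.1 y| + ∑ y, |z.2 y| with hS
  have h0 : 0 ≤ S := ge_S_nonneg z
  have h1 : (1 + S) ^ n ≤ Real.exp (max |P| n * S) := by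
    calc (1 + S) ^ n ≤ (Real.exp S) ^ n :=
          pow_le_pow_left₀ (by linarith) (by linarith [Real.add_one_le_exp S]) n
      _ = Real.exp (n * S) := by rw [← Real.exp_nat_mul]
      _ ≤ Real.exp (max |P| n * S) :=
          Real.exp_le_exp.2 (mul_le_mul_of_nonneg_right (le_max_right _ _) h0)
  calc P * (1 + S) ^ n ≤ |P| * (1 + S) ^ n :=
        mul_le_mul_of_nonneg_right (le_abs_self P) (by positivity)
    _ ≤ max |P| n * Real.exp (max |P| n * S) :=
        mul_le_mul (le_max_left _ _) h1 (by positivity) (le_trans (abs_nonneg _) (le_max_left _ _))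

theorem ge_q8 (hw : Cell w G C) (hN : Net c p R) {π : Measure ((A → ℝ) × (A → ℝ))}
    (hπ : Cpl w c p 0 π) (v : B) :
    Integrable (fun z => (1 + q (loc c z.1 v)) ^ 8) π ∧
      Integrable (fun z => (1 + q (loc c z.2 v)) ^ 8) π := by
  have hb : ∀ (z : (A → ℝ) × (A → ℝ)) (a : A → ℝ),
      (∀ y, |a y| ≤ ∑ y, |z.1 y| + ∑ y, |z.2 y|) →
      |(1 + q (loc c a v)) ^ 8| ≤ 64 ^ 8 * (1 + (∑ y, |z.1 y| + ∑ y, |z.2 y|)) ^ 16 := by
    intro z a ha
    have h1 := ge_q_le c v a _ ha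
    have h2 := ge_q_nonneg (loc c a v)
    rw [abs_of_nonneg (by positivity)]
    calc (1 + q (loc c a v)) ^ 8 ≤ (64 * (1 + (∑ y, |z.1 y| + ∑ y, |z.2 y|)) ^ 2) ^ 8 :=
          pow_le_pow_left₀ (by positivity) h1 8
      _ = _ := by ring
  constructor
  · refine ge_int hw hN hπ ?_ (64 ^ 8) 16 fun z => hb z z.1 fun y => (ge_abs_le_S z y).1
    unfold q loc
    fun_prop
  · refine ge_int hw hN hπ ?_ (64 ^ 8) 16 fun z => hb z z.2 fun y => (ge_abs_le_S z y).2.1
    unfold q loc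
    fun_prop


theorem ge_DD_nonneg (hw : Cell w G C) (t t' : Fin 4 → ℝ) : 0 ≤ DD G t t' := by
  have h1 := hw.quar t t'
  have h2 : 0 ≤ C * DD G t t' := le_trans (sq_nonneg _) h1
  have h3 : 0 < C := by linarith [hw.one_le]
  exact nonneg_of_mul_nonneg_right h2 h3

theorem ge_q_sub (t t' : Fin 4 → ℝ) : q (fun i => t' i - t i) ≤ 2 * (q t + q t') := by
  unfold q
  rw [← Finset.sum_add_distrib, Finset.mul_sum]
  refine Finset.sum_le_sum fun i _ => ?_
  rw [← Finset.sum_add_distrib, Finset.mul_sum]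
  refine Finset.sum_le_sum fun j _ => ?_
  nlinarith [sq_nonneg ((t' i - t' j) + (t i - t j))]

theorem ge_DD_int (hw : Cell w G C) (hN : Net c p R) {π : Measure ((A → ℝ) × (A → ℝ))}
    (hπ : Cpl w c p 0 π) (v : B) :
    Integrable (fun z => DD G (loc c z.1 v) (loc c z.2 v)) π := by
  have hC := hw.one_le
  refine ge_int hw hN hπ ?_ (32768 * C) 5 fun z => ?_
  · have h1 : ∀ i, Measurable (fun z : (A → ℝ) × (A → ℝ) => G i (loc c z.1 v)) := fun i =>
      (hw.contG i).measurable.comp (by unfold loc; fun_prop)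
    have h2 : ∀ i, Measurable (fun z : (A → ℝ) × (A → ℝ) => G i (loc c z.2 v)) := fun i =>
      (hw.contG i).measurable.comp (by unfold loc; fun_prop)
    unfold DD
    refine Finset.measurable_sum _ fun i _ => Measurable.mul ?_ ((h2 i).sub (h1 i))
    unfold loc
    fun_prop
  · set S := ∑ y, |z.1 y| + ∑ y, |z.2 y| with hS
    have h0 : 0 ≤ S := ge_S_nonneg z
    have hq1 := ge_q_le c v z.1 S fun y => (ge_abs_le_S z y).1
    have hq2 := ge_q_le c v z.2 S fun y => (ge_abs_le_S z y).2.1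
    have hG : ∀ (i : Fin 4) (a : A → ℝ), 1 + q (loc c a v) ≤ 64 * (1 + S) ^ 2 →
        |G i (loc c a v)| ≤ 4096 * C * (1 + S) ^ 4 := by
      intro i a ha
      have h1 := ge_q_nonneg (loc c a v)
      calc |G i (loc c a v)| ≤ C * (1 + q (loc c a v)) ^ 2 := hw.grow i _
        _ ≤ C * (64 * (1 + S) ^ 2) ^ 2 :=
            mul_le_mul_of_nonneg_left (pow_le_pow_left₀ (by linarith) ha 2) (by linarith)
        _ = _ := by ring
    unfold DD
    calc |∑ i, (loc c z.2 v i - loc c z.1 v i) * (G i (loc c z.2 v) - G i (loc c z.1 v))| ≤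
        ∑ i, |(loc c z.2 v i - loc c z.1 v i) * (G i (loc c z.2 v) - G i (loc c z.1 v))| :=
          Finset.abs_sum_le_sum_abs _ _
      _ ≤ ∑ _i : Fin 4, (1 + S) * (8192 * C * (1 + S) ^ 4) := by
          refine Finset.sum_le_sum fun i _ => ?_
          rw [abs_mul]
          refine mul_le_mul ?_ ?_ (abs_nonneg _) (by linarith)
          · have := (ge_abs_le_S z (c v i)).2.2
            rw [Pi.sub_apply] at this
            unfold loc
            linarith
          · refine (abs_sub _ _).trans ?_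
            linarith [hG i z.1 hq1, hG i z.2 hq2]
      _ = 32768 * C * (1 + S) ^ 5 := by simp; ring

theorem ge_qh_int (hw : Cell w G C) (hN : Net c p R) {π : Measure ((A → ℝ) × (A → ℝ))}
    (hπ : Cpl w c p 0 π) (v : B) :
    Integrable (fun z => q (loc c (z.2 - z.1) v) ^ 2) π := by
  refine ge_int hw hN hπ ?_ 4096 4 fun z => ?_
  · unfold q loc
    simp only [Pi.sub_apply]
    fun_prop
  · have h1 := ge_q_le c v (z.2 - z.1) _ fun y => (ge_abs_le_S z y).2.2
    have h2 := ge_q_nonneg (loc c (z.2 - z.1) v)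
    rw [abs_of_nonneg (by positivity)]
    calc q (loc c (z.2 - z.1) v) ^ 2 ≤ (64 * (1 + (∑ y, |z.1 y| + ∑ y, |z.2 y|)) ^ 2) ^ 2 :=
          pow_le_pow_left₀ h2 (by linarith) 2
      _ = _ := by ring

theorem ge_qh_bound (hw : Cell w G C) (hN : Net c p R) {π : Measure ((A → ℝ) × (A → ℝ))}
    (hπ : Cpl w c p 0 π) (v : B) {Kq : ℝ}
    (hKq : ∫ a, (1 + q (loc c a v)) ^ 8 ∂mu w c p 0 ≤ Kq) :
    ∫ z, q (loc c (z.2 - z.1) v) ^ 2 ∂π ≤ 16 * Kq := by
  have hq := ge_q8 hw hN hπ v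
  have i1 : Integrable (fun z : (A → ℝ) × (A → ℝ) =>
      8 * ((1 + q (loc c z.1 v)) ^ 8 + (1 + q (loc c z.2 v)) ^ 8)) π := (hq.1.add hq.2).const_mul 8
  calc ∫ z, q (loc c (z.2 - z.1) v) ^ 2 ∂π ≤
      ∫ z, 8 * ((1 + q (loc c z.1 v)) ^ 8 + (1 + q (loc c z.2 v)) ^ 8) ∂π := by
        refine integral_mono (ge_qh_int hw hN hπ v) i1 fun z => ?_
        set a := q (loc c z.1 v) with ha'
        set b := q (loc c z.2 v) with hb'
        have ha : 0 ≤ a := ge_q_nonneg _
        have hb : 0 ≤ b := ge_q_nonneg _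
        have h1 : (1 + a) ^ 2 ≤ (1 + a) ^ 8 := pow_le_pow_right₀ (by linarith) (by norm_num)
        have h2 : (1 + b) ^ 2 ≤ (1 + b) ^ 8 := pow_le_pow_right₀ (by linarith) (by norm_num)
        have h3 : q (loc c (z.2 - z.1) v) ≤ 2 * (a + b) := ge_q_sub (loc c z.1 v) (loc c z.2 v)
        have h4 := ge_q_nonneg (loc c (z.2 - z.1) v)
        have h5 : q (loc c (z.2 - z.1) v) ^ 2 ≤ (2 * (a + b)) ^ 2 := pow_le_pow_left₀ h4 h3 2
        show q (loc c (z.2 - z.1) v) ^ 2 ≤ 8 * ((1 + a) ^ 8 + (1 + b) ^ 8)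
        nlinarith [sq_nonneg (a - b)]
    _ = 8 * (∫ a, (1 + q (loc c a v)) ^ 8 ∂mu w c p 0 + ∫ a, (1 + q (loc c a v)) ^ 8 ∂mu w c p 0) := by
        have hmq : Measurable (fun a : A → ℝ => (1 + q (loc c a v)) ^ 8) := by
          unfold q loc
          fun_prop
        have h1 := cpl_fst hπ (F := fun a : A → ℝ => (1 + q (loc c a v)) ^ 8) hmq
        rw [integral_const_mul, integral_add hq.1 hq.2, h1.1, h1.2]
    _ ≤ 16 * Kq := by linarith

/-- one cell -/
theorem ge_cell (hw : Cell w G C) (hN : Net c p R) {π : Measure ((A → ℝ) × (A → ℝ))}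
    (hπ : Cpl w c p 0 π) (v : B) {Kq : ℝ}
    (hKq : ∫ a, (1 + q (loc c a v)) ^ 8 ∂mu w c p 0 ≤ Kq) {s : ℝ} (hs : 0 ≤ s) :
    Integrable (fun z => q (loc c (z.2 - z.1) v)) π ∧
    ∫ z, q (loc c (z.2 - z.1) v) ∂π ≤ C * (1 + s) * ∫ z, DD G (loc c z.1 v) (loc c z.2 v) ∂π +
      (8 * Kq + 6) * Real.exp (-(s ^ 2 / (4608 * C ^ 3))) := by
  classical
  have hC := hw.one_le
  haveI := hπ.prob
  set ε := Real.exp (-(s ^ 2 / (4608 * C ^ 3))) with hε
  have hε0 : 0 < ε := Real.exp_pos _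
  have hqi : Integrable (fun z : (A → ℝ) × (A → ℝ) => q (loc c (z.2 - z.1) v)) π := by
    refine ge_int hw hN hπ ?_ 64 2 fun z => ?_
    · unfold q loc
      simp only [Pi.sub_apply]
      fun_prop
    · have h1 := ge_q_le c v (z.2 - z.1) _ fun y => (ge_abs_le_S z y).2.2
      have h2 := ge_q_nonneg (loc c (z.2 - z.1) v)
      rw [abs_of_nonneg h2]
      linarith
  refine ⟨hqi, ?_⟩
  have hset : MeasurableSet {a : A → ℝ | s ≤ q (loc c a v)} := by
    refine measurableSet_le measurable_const ?_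
    unfold q loc
    fun_prop
  set F : (A → ℝ) → ℝ := Set.indicator {a : A → ℝ | s ≤ q (loc c a v)} (fun _ => (1 : ℝ)) with hF
  have hFm : Measurable F := measurable_const.indicator hset
  have hFi : Integrable (fun z : (A → ℝ) × (A → ℝ) => F z.1) π := by
    refine Integrable.of_bound (C := 1) (hFm.comp measurable_fst).aestronglyMeasurable
      (Filter.Eventually.of_forall fun z => ?_)
    rw [hF]
    by_cases h : z.1 ∈ {a : A → ℝ | s ≤ q (loc c a v)}
    · simp [Set.indicator_of_mem h]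
    · simp [Set.indicator_of_notMem h]
  have hFint : ∫ z, F z.1 ∂π ≤ 12 * ε ^ 2 := by
    rw [(cpl_fst hπ hFm).1, hF, integral_indicator_const _ hset]
    have h1 := q_tail hw hN v hs
    have h2 : ε ^ 2 = Real.exp (-(s ^ 2 / (2304 * C ^ 3))) := by
      rw [hε, ← Real.exp_nat_mul]
      congr 1
      push_cast
      have : C ≠ 0 := by positivity
      field_simp
      ring
    rw [h2]
    simpa using h1
  have i1 := ge_DD_int hw hN hπ v
  have i2 := ge_qh_int hw hN hπ v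
  have j1 : Integrable (fun z : (A → ℝ) × (A → ℝ) =>
      C * (1 + s) * DD G (loc c z.1 v) (loc c z.2 v)) π := i1.const_mul _
  have j2 : Integrable (fun z : (A → ℝ) × (A → ℝ) =>
      ε / 2 * q (loc c (z.2 - z.1) v) ^ 2) π := i2.const_mul _
  have j3 : Integrable (fun z : (A → ℝ) × (A → ℝ) => 1 / (2 * ε) * F z.1) π := hFi.const_mul _
  have j12 : Integrable (fun z : (A → ℝ) × (A → ℝ) =>
      C * (1 + s) * DD G (loc c z.1 v) (loc c z.2 v) + ε / 2 * q (loc c (z.2 - z.1) v) ^ 2) π :=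
    j1.add j2
  calc ∫ z, q (loc c (z.2 - z.1) v) ∂π ≤ ∫ z, (C * (1 + s) * DD G (loc c z.1 v) (loc c z.2 v) +
        ε / 2 * q (loc c (z.2 - z.1) v) ^ 2 + 1 / (2 * ε) * F z.1) ∂π := by
        refine integral_mono hqi (j12.add j3) fun z => ?_
        show q (loc c (z.2 - z.1) v) ≤ C * (1 + s) * DD G (loc c z.1 v) (loc c z.2 v) +
          ε / 2 * q (loc c (z.2 - z.1) v) ^ 2 + 1 / (2 * ε) * F z.1
        have hd := ge_DD_nonneg hw (loc c z.1 v) (loc c z.2 v)
        have hq0 := ge_q_nonneg (loc c z.1 v)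
        by_cases h : s ≤ q (loc c z.1 v)
        · have h1 : F z.1 = 1 := by
            rw [hF]
            exact Set.indicator_of_mem (s := {a : A → ℝ | s ≤ q (loc c a v)}) h _
          rw [h1]
          have h2 : 0 ≤ (ε * q (loc c (z.2 - z.1) v) - 1) ^ 2 / (2 * ε) := by positivity
          have h3 : (ε * q (loc c (z.2 - z.1) v) - 1) ^ 2 / (2 * ε) =
              ε / 2 * q (loc c (z.2 - z.1) v) ^ 2 + 1 / (2 * ε) * 1 - q (loc c (z.2 - z.1) v) := by
            field_simp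
            ring
          have h4 : 0 ≤ C * (1 + s) * DD G (loc c z.1 v) (loc c z.2 v) := by positivity
          linarith
        · have h1 : F z.1 = 0 := by
            rw [hF]
            exact Set.indicator_of_notMem (s := {a : A → ℝ | s ≤ q (loc c a v)}) h _
          rw [h1]
          push_neg at h
          have h2 : q (loc c (z.2 - z.1) v) ≤
              C * (1 + q (loc c z.1 v)) * DD G (loc c z.1 v) (loc c z.2 v) :=
            hw.coer (loc c z.1 v) (loc c z.2 v)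
          have h3 : C * (1 + q (loc c z.1 v)) * DD G (loc c z.1 v) (loc c z.2 v) ≤
              C * (1 + s) * DD G (loc c z.1 v) (loc c z.2 v) :=
            mul_le_mul_of_nonneg_right (mul_le_mul_of_nonneg_left (by linarith) (by linarith)) hd
          have h4 : 0 ≤ ε / 2 * q (loc c (z.2 - z.1) v) ^ 2 := by positivity
          linarith
    _ = C * (1 + s) * ∫ z, DD G (loc c z.1 v) (loc c z.2 v) ∂π +
        ε / 2 * ∫ z, q (loc c (z.2 - z.1) v) ^ 2 ∂π + 1 / (2 * ε) * ∫ z, F z.1 ∂π := by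
        rw [integral_add j12 j3, integral_add j1 j2, integral_const_mul, integral_const_mul,
          integral_const_mul]
    _ ≤ C * (1 + s) * ∫ z, DD G (loc c z.1 v) (loc c z.2 v) ∂π +
        ε / 2 * (16 * Kq) + 1 / (2 * ε) * (12 * ε ^ 2) := by
        have h1 := mul_le_mul_of_nonneg_left (ge_qh_bound hw hN hπ v hKq)
          (show (0 : ℝ) ≤ ε / 2 by positivity)
        have h2 := mul_le_mul_of_nonneg_left hFint (show (0 : ℝ) ≤ 1 / (2 * ε) by positivity)
        linarith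
    _ = C * (1 + s) * ∫ z, DD G (loc c z.1 v) (loc c z.2 v) ∂π + (8 * Kq + 6) * ε := by
        field_simp
        ring

end ge_section

/-- the energy of the difference up to scale `k` is controlled by the dissipation -/
theorem energy_le {w : (Fin 4 → ℝ) → ℝ} {G : Fin 4 → (Fin 4 → ℝ) → ℝ} {C : ℝ} (hw : Cell w G C)
    (Cg : ℝ) : ∃ K1 : ℝ, 1 ≤ K1 ∧ ∀ {A B : Type} [Fintype A] [DecidableEq A] [Fintype B]
      {c : B → Fin 4 → A} {p : A} {R : ℝ} {M : ℝ} {lev : A → ℕ} {K : ℕ}, Net c p R → 1 ≤ M →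
      Local c p lev K (M ^ 4) Cg → ∀ {π : Measure ((A → ℝ) × (A → ℝ))}, Cpl w c p 0 π →
      ∀ k, k ≤ K → ∫ z, EnOn c (clv c lev k) (z.2 - z.1) ∂π ≤
        K1 * M ^ 2 * Dk G c lev π k + K1 * Real.exp (-(M ^ 4)) := by
  obtain ⟨Kq, hKq1, hKq⟩ := q_moment hw
  have hC := hw.one_le
  set L : ℝ := Real.sqrt (4608 * C ^ 3 * (|Cg| + 1)) with hL'
  have hL0 : 0 ≤ L := Real.sqrt_nonneg _
  have hL2 : L ^ 2 = 4608 * C ^ 3 * (|Cg| + 1) := Real.sq_sqrt (by positivity)
  refine ⟨1 + C * (1 + L) + |Cg| * (8 * Kq + 6), ?_, ?_⟩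
  · have h1 : 0 ≤ C * (1 + L) := by positivity
    have h2 : 0 ≤ |Cg| * (8 * Kq + 6) := by positivity
    linarith
  intro A B _ _ _ c p R M lev K hN hM hL π hπ k hk
  have hCg := hL.one_le
  have hCga : |Cg| = Cg := abs_of_pos (by linarith)
  have hM4 : 0 ≤ M ^ 4 := by positivity
  set s : ℝ := L * M ^ 2 with hs
  have hs0 : 0 ≤ s := by positivity
  have hexp : Real.exp (-(s ^ 2 / (4608 * C ^ 3))) = Real.exp (-((Cg + 1) * M ^ 4)) := by
    congr 1
    have h1 : s ^ 2 = 4608 * C ^ 3 * (Cg + 1) * M ^ 4 := by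
      rw [hs, mul_pow, hL2, hCga]; ring
    rw [h1]
    have : C ≠ 0 := by positivity
    field_simp
  have hcell := fun v : B => ge_cell hw hN hπ v (hKq hN v) hs0
  have hDi := fun v : B => ge_DD_int hw hN hπ v
  have hcard : ((clv c lev k).card : ℝ) ≤ Cg * Real.exp (Cg * M ^ 4) := by
    refine (hL.count k hk).trans (mul_le_mul_of_nonneg_left ?_ (by linarith))
    exact (pow_le_pow_right₀ (by norm_num) hk).trans hL.big
  have hD0 := (Dk_mono hw hN lev hπ k).1
  calc ∫ z, EnOn c (clv c lev k) (z.2 - z.1) ∂π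
      = ∑ v ∈ clv c lev k, ∫ z, q (loc c (z.2 - z.1) v) ∂π := by
        unfold EnOn
        rw [integral_finset_sum _ fun v _ => (hcell v).1]
    _ ≤ ∑ v ∈ clv c lev k, (C * (1 + s) * ∫ z, DD G (loc c z.1 v) (loc c z.2 v) ∂π +
        (8 * Kq + 6) * Real.exp (-(s ^ 2 / (4608 * C ^ 3)))) :=
        Finset.sum_le_sum fun v _ => (hcell v).2
    _ = C * (1 + s) * Dk G c lev π k +
        (clv c lev k).card * ((8 * Kq + 6) * Real.exp (-((Cg + 1) * M ^ 4))) := by
        rw [Finset.sum_add_distrib, ← Finset.mul_sum, Finset.sum_const, nsmul_eq_mul, hexp]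
        unfold Dk
        rw [integral_finset_sum _ fun v _ => hDi v]
    _ ≤ C * (1 + L) * M ^ 2 * Dk G c lev π k + Cg * (8 * Kq + 6) * Real.exp (-(M ^ 4)) := by
        have h1 : C * (1 + s) * Dk G c lev π k ≤ C * (1 + L) * M ^ 2 * Dk G c lev π k := by
          refine mul_le_mul_of_nonneg_right ?_ hD0
          have h2 : 1 ≤ M ^ 2 := one_le_pow₀ hM
          rw [hs]
          nlinarith
        have h3 : (clv c lev k).card * ((8 * Kq + 6) * Real.exp (-((Cg + 1) * M ^ 4))) ≤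
            Cg * (8 * Kq + 6) * Real.exp (-(M ^ 4)) := by
          have h4 : Real.exp (Cg * M ^ 4) * Real.exp (-((Cg + 1) * M ^ 4)) =
              Real.exp (-(M ^ 4)) := by
            rw [← Real.exp_add]
            congr 1
            ring
          calc (clv c lev k).card * ((8 * Kq + 6) * Real.exp (-((Cg + 1) * M ^ 4))) ≤
              Cg * Real.exp (Cg * M ^ 4) * ((8 * Kq + 6) * Real.exp (-((Cg + 1) * M ^ 4))) :=
                mul_le_mul_of_nonneg_right hcard (by positivity)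
            _ = Cg * (8 * Kq + 6) * (Real.exp (Cg * M ^ 4) * Real.exp (-((Cg + 1) * M ^ 4))) := by
                ring
            _ = _ := by rw [h4]
        linarith
    _ ≤ (1 + C * (1 + L) + |Cg| * (8 * Kq + 6)) * M ^ 2 * Dk G c lev π k +
        (1 + C * (1 + L) + |Cg| * (8 * Kq + 6)) * Real.exp (-(M ^ 4)) := by
        have h1 : 0 ≤ C * (1 + L) := by positivity
        have h2 : 0 ≤ |Cg| * (8 * Kq + 6) := by positivity
        refine add_le_add ?_ ?_
        · exact mul_le_mul_of_nonneg_right (mul_le_mul_of_nonneg_right (by linarith)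
            (by positivity)) hD0
        · refine mul_le_mul_of_nonneg_right ?_ (Real.exp_pos _).le
          rw [hCga]
          rw [hCga] at h2
          linarith

end QG
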