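import Mathlib
import Pool.Agent.Lib_helper69.QG.Defs
import Pool.Agent.Lib_helper69.QG.Field
import Pool.Agent.Lib_helper69.QG.W.fe
import Pool.Agent.Lib_helper69.QG.W.fl
import Pool.Agent.Lib_helper69.QG.W.fm
import Pool.Agent.Lib_helper69.QG.W.gb
import Pool.Agent.Lib_helper69.QG.W.gc
import Pool.Agent.Lib_helper69.QG.W.ge

set_option autoImplicit false

namespace QG

open MeasureTheory

/-- measurable functions of at most exponential growth -/
def gf_Gr {A : Type} [Fintype A] (F : (A → ℝ) × (A → ℝ) → ℝ) : Prop :=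
  Measurable F ∧ ∃ K : ℝ, 0 ≤ K ∧ ∀ z, |F z| ≤ K * Real.exp (K * (∑ y, |z.1 y| + ∑ y, |z.2 y|))

theorem gf_S_nonneg {A : Type} [Fintype A] (z : (A → ℝ) × (A → ℝ)) :
    0 ≤ ∑ y, |z.1 y| + ∑ y, |z.2 y| :=
  add_nonneg (Finset.sum_nonneg fun _ _ => abs_nonneg _) (Finset.sum_nonneg fun _ _ => abs_nonneg _)

theorem gf_Gr.const {A : Type} [Fintype A] (r : ℝ) :
    gf_Gr (fun _ : (A → ℝ) × (A → ℝ) => r) := by
  refine ⟨measurable_const, |r|, abs_nonneg r, fun z => ?_⟩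
  have h := Real.one_le_exp (mul_nonneg (abs_nonneg r) (gf_S_nonneg z))
  have h2 := mul_le_mul_of_nonneg_left h (abs_nonneg r)
  linarith

theorem gf_Gr.dom {A : Type} [Fintype A] {F H : (A → ℝ) × (A → ℝ) → ℝ} (hF : Measurable F)
    (hH : gf_Gr H) (h : ∀ z, |F z| ≤ |H z|) : gf_Gr F := by
  obtain ⟨_, K, hK, h2⟩ := hH
  exact ⟨hF, K, hK, fun z => (h z).trans (h2 z)⟩

theorem gf_Gr.c1 {A : Type} [Fintype A] (y : A) :
    gf_Gr (fun z : (A → ℝ) × (A → ℝ) => z.1 y) := by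
  refine ⟨(measurable_pi_apply y).comp measurable_fst, 1, zero_le_one, fun z => ?_⟩
  have h1 : |z.1 y| ≤ ∑ y, |z.1 y| :=
    Finset.single_le_sum (f := fun y => |z.1 y|) (fun _ _ => abs_nonneg _) (Finset.mem_univ y)
  have h2 : 0 ≤ ∑ y, |z.2 y| := Finset.sum_nonneg fun _ _ => abs_nonneg _
  have h3 := Real.add_one_le_exp (∑ y, |z.1 y| + ∑ y, |z.2 y|)
  simp only [one_mul]
  linarith

theorem gf_Gr.c2 {A : Type} [Fintype A] (y : A) :
    gf_Gr (fun z : (A → ℝ) × (A → ℝ) => z.2 y) := by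
  refine ⟨(measurable_pi_apply y).comp measurable_snd, 1, zero_le_one, fun z => ?_⟩
  have h1 : |z.2 y| ≤ ∑ y, |z.2 y| :=
    Finset.single_le_sum (f := fun y => |z.2 y|) (fun _ _ => abs_nonneg _) (Finset.mem_univ y)
  have h2 : 0 ≤ ∑ y, |z.1 y| := Finset.sum_nonneg fun _ _ => abs_nonneg _
  have h3 := Real.add_one_le_exp (∑ y, |z.1 y| + ∑ y, |z.2 y|)
  simp only [one_mul]
  linarith

theorem gf_Gr.add {A : Type} [Fintype A] {F H : (A → ℝ) × (A → ℝ) → ℝ} (hF : gf_Gr F)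
    (hH : gf_Gr H) : gf_Gr (fun z => F z + H z) := by
  obtain ⟨m1, K, hK, h1⟩ := hF
  obtain ⟨m2, L, hL, h2⟩ := hH
  refine ⟨m1.add m2, K + L, add_nonneg hK hL, fun z => ?_⟩
  have hS := gf_S_nonneg z
  have e1 : Real.exp (K * (∑ y, |z.1 y| + ∑ y, |z.2 y|)) ≤
      Real.exp ((K + L) * (∑ y, |z.1 y| + ∑ y, |z.2 y|)) :=
    Real.exp_le_exp.2 (by nlinarith [mul_nonneg hL hS])
  have e2 : Real.exp (L * (∑ y, |z.1 y| + ∑ y, |z.2 y|)) ≤
      Real.exp ((K + L) * (∑ y, |z.1 y| + ∑ y, |z.2 y|)) :=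
    Real.exp_le_exp.2 (by nlinarith [mul_nonneg hK hS])
  calc |F z + H z| ≤ |F z| + |H z| := abs_add_le _ _
    _ ≤ K * Real.exp (K * (∑ y, |z.1 y| + ∑ y, |z.2 y|)) +
        L * Real.exp (L * (∑ y, |z.1 y| + ∑ y, |z.2 y|)) := add_le_add (h1 z) (h2 z)
    _ ≤ K * Real.exp ((K + L) * (∑ y, |z.1 y| + ∑ y, |z.2 y|)) +
        L * Real.exp ((K + L) * (∑ y, |z.1 y| + ∑ y, |z.2 y|)) :=
        add_le_add (mul_le_mul_of_nonneg_left e1 hK) (mul_le_mul_of_nonneg_left e2 hL)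
    _ = (K + L) * Real.exp ((K + L) * (∑ y, |z.1 y| + ∑ y, |z.2 y|)) := by ring

theorem gf_Gr.mul {A : Type} [Fintype A] {F H : (A → ℝ) × (A → ℝ) → ℝ} (hF : gf_Gr F)
    (hH : gf_Gr H) : gf_Gr (fun z => F z * H z) := by
  obtain ⟨m1, K, hK, h1⟩ := hF
  obtain ⟨m2, L, hL, h2⟩ := hH
  refine ⟨m1.mul m2, K + L + K * L, by positivity, fun z => ?_⟩
  have hS := gf_S_nonneg z
  set S := ∑ y, |z.1 y| + ∑ y, |z.2 y| with hSd
  have e1 : Real.exp (K * S + L * S) ≤ Real.exp ((K + L + K * L) * S) :=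
    Real.exp_le_exp.2 (by nlinarith [mul_nonneg (mul_nonneg hK hL) hS])
  calc |F z * H z| = |F z| * |H z| := abs_mul _ _
    _ ≤ (K * Real.exp (K * S)) * (L * Real.exp (L * S)) :=
        mul_le_mul (h1 z) (h2 z) (abs_nonneg _) (by positivity)
    _ = (K * L) * Real.exp (K * S + L * S) := by rw [Real.exp_add]; ring
    _ ≤ (K * L) * Real.exp ((K + L + K * L) * S) :=
        mul_le_mul_of_nonneg_left e1 (mul_nonneg hK hL)
    _ ≤ (K + L + K * L) * Real.exp ((K + L + K * L) * S) :=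
        mul_le_mul_of_nonneg_right (by linarith) (Real.exp_pos _).le

theorem gf_Gr.neg {A : Type} [Fintype A] {F : (A → ℝ) × (A → ℝ) → ℝ} (hF : gf_Gr F) :
    gf_Gr (fun z => -F z) := by
  obtain ⟨m1, K, hK, h1⟩ := hF
  exact ⟨m1.neg, K, hK, fun z => by rw [abs_neg]; exact h1 z⟩

theorem gf_Gr.sub {A : Type} [Fintype A] {F H : (A → ℝ) × (A → ℝ) → ℝ} (hF : gf_Gr F)
    (hH : gf_Gr H) : gf_Gr (fun z => F z - H z) := by
  have h := hF.add hH.neg
  simpa [sub_eq_add_neg] using h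

theorem gf_Gr.sum {A ι : Type} [Fintype A] (s : Finset ι) {F : ι → (A → ℝ) × (A → ℝ) → ℝ}
    (hF : ∀ i ∈ s, gf_Gr (F i)) : gf_Gr (fun z => ∑ i ∈ s, F i z) := by
  classical
  induction s using Finset.induction_on with
  | empty => simpa using gf_Gr.const (A := A) 0
  | insert i s hi ih =>
    have h := (hF i (Finset.mem_insert_self _ _)).add
      (ih fun j hj => hF j (Finset.mem_insert_of_mem hj))
    simpa [Finset.sum_insert hi] using h

theorem gf_Gr.pow {A : Type} [Fintype A] {F : (A → ℝ) × (A → ℝ) → ℝ} (hF : gf_Gr F) (n : ℕ) :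
    gf_Gr (fun z => F z ^ n) := by
  induction n with
  | zero => simpa using gf_Gr.const (A := A) 1
  | succ n ih => simpa [pow_succ] using ih.mul hF

theorem gf_Gr.q1 {A B : Type} [Fintype A] (c : B → Fin 4 → A) (v : B) :
    gf_Gr (fun z : (A → ℝ) × (A → ℝ) => q (loc c z.1 v)) := by
  unfold q loc
  exact gf_Gr.sum _ fun i _ => gf_Gr.sum _ fun j _ =>
    ((gf_Gr.c1 (c v i)).sub (gf_Gr.c1 (c v j))).pow 2

theorem gf_Gr.q2 {A B : Type} [Fintype A] (c : B → Fin 4 → A) (v : B) :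
    gf_Gr (fun z : (A → ℝ) × (A → ℝ) => q (loc c z.2 v)) := by
  unfold q loc
  exact gf_Gr.sum _ fun i _ => gf_Gr.sum _ fun j _ =>
    ((gf_Gr.c2 (c v i)).sub (gf_Gr.c2 (c v j))).pow 2


theorem gf_Gr.integrable {A B : Type} [Fintype A] [DecidableEq A] [Fintype B]
    {w : (Fin 4 → ℝ) → ℝ} {G : Fin 4 → (Fin 4 → ℝ) → ℝ} {C : ℝ} {c : B → Fin 4 → A} {p : A}
    {R : ℝ} (hw : Cell w G C) (hN : Net c p R) {l : A → ℝ}
    {π : Measure ((A → ℝ) × (A → ℝ))} (hπ : Cpl w c p l π) {F : (A → ℝ) × (A → ℝ) → ℝ}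
    (hF : gf_Gr F) : Integrable F π := by
  obtain ⟨m, K, _, h⟩ := hF
  exact cpl_int hw hN hπ m ⟨K, h⟩

theorem gf_q_nonneg (t : Fin 4 → ℝ) : 0 ≤ q t :=
  Finset.sum_nonneg fun _ _ => Finset.sum_nonneg fun _ _ => sq_nonneg _

theorem gf_kap {A : Type} [Fintype A] (lev : A → ℕ) (k : ℕ) :
    gf_Gr (fun z : (A → ℝ) × (A → ℝ) => kap lev k (z.2 - z.1)) := by
  unfold kap
  simp_rw [div_eq_mul_inv]
  refine gf_Gr.mul (gf_Gr.sum _ fun y _ => ?_) (gf_Gr.const _)
  simpa using (gf_Gr.c2 (A := A) y).sub (gf_Gr.c1 y)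

/-- the cell factor -/
theorem gf_Mv {A B : Type} [Fintype A] (C : ℝ) (c : B → Fin 4 → A) (v : B) :
    gf_Gr (fun z : (A → ℝ) × (A → ℝ) => C * (1 + q (loc c z.1 v) + q (loc c z.2 v))) :=
  (gf_Gr.const C).mul (((gf_Gr.const 1).add (gf_Gr.q1 c v)).add (gf_Gr.q2 c v))

theorem gf_meas_q {A B : Type} [Fintype A] (c : B → Fin 4 → A) (v : B) :
    Measurable fun a : A → ℝ => q (loc c a v) := by
  unfold q loc
  exact Finset.measurable_sum _ fun i _ => Finset.measurable_sum _ fun j _ =>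
    ((measurable_pi_apply (c v i)).sub (measurable_pi_apply (c v j))).pow_const 2

/-- tail of the cell factor -/
theorem gf_tail {w : (Fin 4 → ℝ) → ℝ} {G : Fin 4 → (Fin 4 → ℝ) → ℝ} {C : ℝ} (hw : Cell w G C) :
    ∃ K : ℝ, 1 ≤ K ∧ ∀ {A B : Type} [Fintype A] [DecidableEq A] [Fintype B] {c : B → Fin 4 → A}
      {p : A} {R : ℝ}, Net c p R → ∀ {π : Measure ((A → ℝ) × (A → ℝ))}, Cpl w c p 0 π →
      ∀ (v : B) (M : ℝ), 1 ≤ M →
      π.real {z | M < C * (1 + q (loc c z.1 v) + q (loc c z.2 v))} ≤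
        K * Real.exp (-(M ^ 2 / K)) := by
  have hC := hw.one_le
  have hC5 : (1 : ℝ) ≤ C ^ 5 := one_le_pow₀ hC
  refine ⟨36864 * C ^ 5, by linarith, ?_⟩
  intro A B _ _ _ c p R hN π hπ v M hM
  have := hπ.prob
  set K := 36864 * C ^ 5 with hK
  have hKpos : 0 < K := by linarith
  by_cases h2 : 2 * C ≤ M
  · have hsub : {z : (A → ℝ) × (A → ℝ) | M < C * (1 + q (loc c z.1 v) + q (loc c z.2 v))} ⊆
        (Prod.fst ⁻¹' {a : A → ℝ | M / (4 * C) ≤ q (loc c a v)}) ∪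
          (Prod.snd ⁻¹' {a : A → ℝ | M / (4 * C) ≤ q (loc c a v)}) := by
      intro z hz
      simp only [Set.mem_ofPred_eq] at hz
      by_contra hcon
      simp only [Set.mem_union, Set.mem_preimage, Set.mem_ofPred_eq, not_or, not_le] at hcon
      obtain ⟨h3, h4⟩ := hcon
      have hCp : 0 < C := by linarith
      rw [lt_div_iff₀ (by positivity)] at h3 h4
      nlinarith
    have hms : MeasurableSet {a : A → ℝ | M / (4 * C) ≤ q (loc c a v)} :=
      measurableSet_le measurable_const (gf_meas_q c v)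
    have e1 : π.real (Prod.fst ⁻¹' {a : A → ℝ | M / (4 * C) ≤ q (loc c a v)}) =
        (mu w c p 0).real {a : A → ℝ | M / (4 * C) ≤ q (loc c a v)} := by
      rw [← hπ.fst, map_measureReal_apply measurable_fst hms]
    have e2 : π.real (Prod.snd ⁻¹' {a : A → ℝ | M / (4 * C) ≤ q (loc c a v)}) =
        (mu w c p 0).real {a : A → ℝ | M / (4 * C) ≤ q (loc c a v)} := by
      conv_rhs => rw [← hπ.snd]
      rw [map_measureReal_apply measurable_snd hms]
    have ht := q_tail hw hN v (s := M / (4 * C)) (by positivity)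
    have hexp : (M / (4 * C)) ^ 2 / (2304 * C ^ 3) = M ^ 2 / K := by
      have hCp : C ≠ 0 := by linarith
      rw [hK]; field_simp; ring
    rw [hexp] at ht
    calc π.real {z | M < C * (1 + q (loc c z.1 v) + q (loc c z.2 v))}
        ≤ π.real ((Prod.fst ⁻¹' {a : A → ℝ | M / (4 * C) ≤ q (loc c a v)}) ∪
          (Prod.snd ⁻¹' {a : A → ℝ | M / (4 * C) ≤ q (loc c a v)})) :=
          measureReal_mono hsub
      _ ≤ π.real (Prod.fst ⁻¹' {a : A → ℝ | M / (4 * C) ≤ q (loc c a v)}) +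
          π.real (Prod.snd ⁻¹' {a : A → ℝ | M / (4 * C) ≤ q (loc c a v)}) :=
          measureReal_union_le _ _
      _ ≤ 24 * Real.exp (-(M ^ 2 / K)) := by rw [e1, e2]; linarith
      _ ≤ K * Real.exp (-(M ^ 2 / K)) :=
          mul_le_mul_of_nonneg_right (by linarith) (Real.exp_pos _).le
  · have h1 : π.real {z : (A → ℝ) × (A → ℝ) | M < C * (1 + q (loc c z.1 v) + q (loc c z.2 v))} ≤
        1 := measureReal_le_one
    have h3 : M ^ 2 / K ≤ 1 := by
      rw [div_le_one hKpos]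
      have h4 : M ^ 2 ≤ (2 * C) ^ 2 := by
        apply pow_le_pow_left₀ (by linarith); linarith
      have h5 : C ^ 2 ≤ C ^ 5 := pow_le_pow_right₀ hC (by norm_num)
      nlinarith
    have h6 : Real.exp (-1) ≤ Real.exp (-(M ^ 2 / K)) := Real.exp_le_exp.2 (by linarith)
    have h7 : (1 : ℝ) / 4 ≤ Real.exp (-1) := by
      have h8 := Real.exp_one_lt_d9
      rw [Real.exp_neg, one_div]
      exact inv_anti₀ (Real.exp_pos 1) (by linarith)
    have h9 : (4 : ℝ) * (1 / 4) ≤ K * Real.exp (-(M ^ 2 / K)) :=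
      mul_le_mul (by linarith) (h7.trans h6) (by norm_num) hKpos.le
    linarith

/-- fourth moment of the cell factor -/
theorem gf_mom {w : (Fin 4 → ℝ) → ℝ} {G : Fin 4 → (Fin 4 → ℝ) → ℝ} {C : ℝ} (hw : Cell w G C) :
    ∃ K : ℝ, 1 ≤ K ∧ ∀ {A B : Type} [Fintype A] [DecidableEq A] [Fintype B] {c : B → Fin 4 → A}
      {p : A} {R : ℝ}, Net c p R → ∀ {π : Measure ((A → ℝ) × (A → ℝ))}, Cpl w c p 0 π →
      ∀ (v : B), ∫ z, (C * (1 + q (loc c z.1 v) + q (loc c z.2 v))) ^ 4 ∂π ≤ K := by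
  obtain ⟨Kq, hKq, h8⟩ := q_moment hw
  have hC := hw.one_le
  refine ⟨C ^ 4 * Kq, one_le_mul_of_one_le_of_one_le (one_le_pow₀ hC) hKq, ?_⟩
  intro A B _ _ _ c p R hN π hπ v
  have := hπ.prob
  have i1 : Integrable (fun z : (A → ℝ) × (A → ℝ) => (1 + q (loc c z.1 v)) ^ 8) π :=
    (((gf_Gr.const 1).add (gf_Gr.q1 c v)).pow 8).integrable hw hN hπ
  have i2 : Integrable (fun z : (A → ℝ) × (A → ℝ) => (1 + q (loc c z.2 v)) ^ 8) π :=
    (((gf_Gr.const 1).add (gf_Gr.q2 c v)).pow 8).integrable hw hN hπ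
  have e := cpl_fst hπ (F := fun a : A → ℝ => (1 + q (loc c a v)) ^ 8)
    ((measurable_const.add (gf_meas_q c v)).pow_const 8)
  have h81 := h8 hN v
  calc ∫ z, (C * (1 + q (loc c z.1 v) + q (loc c z.2 v))) ^ 4 ∂π
      ≤ ∫ z, C ^ 4 / 2 * ((1 + q (loc c z.1 v)) ^ 8 + (1 + q (loc c z.2 v)) ^ 8) ∂π := by
        refine integral_mono (((gf_Mv C c v).pow 4).integrable hw hN hπ)
          ((i1.add i2).const_mul _) fun z => ?_
        have h1 := gf_q_nonneg (loc c z.1 v)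
        have h2 := gf_q_nonneg (loc c z.2 v)
        set x := q (loc c z.1 v)
        set y := q (loc c z.2 v)
        have h3 : (1 + x + y) ^ 4 ≤ ((1 + x) * (1 + y)) ^ 4 :=
          pow_le_pow_left₀ (by positivity) (by nlinarith) 4
        have h4 : ((1 + x) * (1 + y)) ^ 4 ≤ ((1 + x) ^ 8 + (1 + y) ^ 8) / 2 := by
          nlinarith [sq_nonneg ((1 + x) ^ 4 - (1 + y) ^ 4)]
        have h5 := mul_le_mul_of_nonneg_left (h3.trans h4) (pow_nonneg (by linarith : 0 ≤ C) 4)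
        calc (C * (1 + x + y)) ^ 4 = C ^ 4 * (1 + x + y) ^ 4 := by ring
          _ ≤ C ^ 4 * (((1 + x) ^ 8 + (1 + y) ^ 8) / 2) := h5
          _ = C ^ 4 / 2 * ((1 + x) ^ 8 + (1 + y) ^ 8) := by ring
    _ = C ^ 4 / 2 * (∫ z, (1 + q (loc c z.1 v)) ^ 8 ∂π + ∫ z, (1 + q (loc c z.2 v)) ^ 8 ∂π) := by
        rw [integral_const_mul, integral_add i1 i2]
    _ ≤ C ^ 4 * Kq := by
        rw [e.1, e.2]
        have h6 : 0 ≤ C ^ 4 := pow_nonneg (by linarith) 4
        nlinarith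

/-- the truncated factor -/
noncomputable def gf_a {A B : Type} [Fintype A] (C M : ℝ) (c : B → Fin 4 → A) (v : B)
    (z : (A → ℝ) × (A → ℝ)) : ℝ :=
  if M < C * (1 + q (loc c z.1 v) + q (loc c z.2 v)) then
    C * (1 + q (loc c z.1 v) + q (loc c z.2 v)) else 0

theorem gf_a_meas {A B : Type} [Fintype A] (C M : ℝ) (c : B → Fin 4 → A) (v : B) :
    Measurable (gf_a C M c v) :=
  Measurable.ite (measurableSet_lt measurable_const (gf_Mv C c v).1) (gf_Mv C c v).1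
    measurable_const

theorem gf_a_Gr {A B : Type} [Fintype A] (C M : ℝ) (c : B → Fin 4 → A) (v : B) :
    gf_Gr (gf_a C M c v) := by
  refine gf_Gr.dom (gf_a_meas C M c v) (gf_Mv C c v) fun z => ?_
  unfold gf_a
  split_ifs
  · exact le_rfl
  · rw [abs_zero]; exact abs_nonneg _

theorem gf_trunc {w : (Fin 4 → ℝ) → ℝ} {G : Fin 4 → (Fin 4 → ℝ) → ℝ} {C : ℝ} (hw : Cell w G C) :
    ∃ K : ℝ, 1 ≤ K ∧ ∀ {A B : Type} [Fintype A] [DecidableEq A] [Fintype B] {c : B → Fin 4 → A}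
      {p : A} {R : ℝ}, Net c p R → ∀ {π : Measure ((A → ℝ) × (A → ℝ))}, Cpl w c p 0 π →
      ∀ (v : B) (M : ℝ), 1 ≤ M → ∫ z, gf_a C M c v z ^ 2 ∂π ≤ K * Real.exp (-(M ^ 2 / K)) := by
  obtain ⟨Kt, hKt, ht⟩ := gf_tail hw
  obtain ⟨Km, hKm, hm⟩ := gf_mom hw
  refine ⟨Km + 2 * Kt, by linarith, ?_⟩
  intro A B _ _ _ c p R hN π hπ v M hM
  have := hπ.prob
  have t1 := ht hN hπ v M hM
  have m1 := hm hN hπ v
  set δ := Real.exp (-(M ^ 2 / (2 * Kt))) with hδ
  have hδ0 : 0 < δ := Real.exp_pos _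
  have hδ2 : Real.exp (-(M ^ 2 / Kt)) = δ * δ := by
    rw [hδ, ← Real.exp_add]
    congr 1
    have : Kt ≠ 0 := by linarith
    field_simp
    ring
  have hS : MeasurableSet {z : (A → ℝ) × (A → ℝ) |
      M < C * (1 + q (loc c z.1 v) + q (loc c z.2 v))} :=
    measurableSet_lt measurable_const (gf_Mv C c v).1
  set S := {z : (A → ℝ) × (A → ℝ) | M < C * (1 + q (loc c z.1 v) + q (loc c z.2 v))} with hSd
  have i4 := ((gf_Mv (A := A) C c v).pow 4).integrable hw hN hπ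
  have iS : Integrable (S.indicator fun _ => (1 : ℝ)) π :=
    (integrable_const (1 : ℝ)).indicator hS
  have eS : ∫ z, S.indicator (fun _ => (1 : ℝ)) z ∂π = π.real S := by
    rw [integral_indicator hS]; simp
  calc ∫ z, gf_a C M c v z ^ 2 ∂π
      ≤ ∫ z, (δ / 2 * (C * (1 + q (loc c z.1 v) + q (loc c z.2 v))) ^ 4 +
          1 / (2 * δ) * S.indicator (fun _ => (1 : ℝ)) z) ∂π := by
        refine integral_mono (((gf_a_Gr C M c v).pow 2).integrable hw hN hπ)
          ((i4.const_mul _).add (iS.const_mul _)) fun z => ?_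
        unfold gf_a
        by_cases hz : M < C * (1 + q (loc c z.1 v) + q (loc c z.2 v))
        · have hzS : z ∈ S := hz
          simp only [if_pos hz, Set.indicator_of_mem hzS]
          set x := C * (1 + q (loc c z.1 v) + q (loc c z.2 v))
          have h1 : x ^ 2 = δ / 2 * x ^ 4 + 1 / (2 * δ) * 1 - (δ * x ^ 2 - 1) ^ 2 / (2 * δ) := by
            field_simp
            ring
          rw [h1]
          have : 0 ≤ (δ * x ^ 2 - 1) ^ 2 / (2 * δ) := by positivity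
          linarith
        · have hzS : z ∉ S := hz
          simp only [if_neg hz, Set.indicator_of_notMem hzS]
          have : 0 ≤ (C * (1 + q (loc c z.1 v) + q (loc c z.2 v))) ^ 4 := by positivity
          nlinarith
    _ = δ / 2 * ∫ z, (C * (1 + q (loc c z.1 v) + q (loc c z.2 v))) ^ 4 ∂π +
          1 / (2 * δ) * π.real S := by
        rw [integral_add (i4.const_mul _) (iS.const_mul _), integral_const_mul,
          integral_const_mul, eS]
    _ ≤ δ / 2 * Km + 1 / (2 * δ) * (Kt * (δ * δ)) := by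
        rw [← hδ2]
        exact add_le_add (mul_le_mul_of_nonneg_left m1 (by positivity))
          (mul_le_mul_of_nonneg_left t1 (by positivity))
    _ = (Km / 2 + Kt / 2) * δ := by field_simp
    _ ≤ (Km + 2 * Kt) * Real.exp (-(M ^ 2 / (Km + 2 * Kt))) := by
        have h1 : δ ≤ Real.exp (-(M ^ 2 / (Km + 2 * Kt))) := by
          rw [hδ]
          refine Real.exp_le_exp.2 (neg_le_neg ?_)
          exact div_le_div_of_nonneg_left (sq_nonneg M) (by linarith) (by linarith)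
        exact mul_le_mul (by linarith) h1 hδ0.le (by linarith)

/-- sums over cells and their corners -/
theorem gf_sites {A B : Type} [Fintype A] [DecidableEq A] [Fintype B]
    {c : B → Fin 4 → A} {p : A} {R : ℝ} (hN : Net c p R) {lev : A → ℕ} {K : ℕ} {N Cg : ℝ}
    (hL : Local c p lev K N Cg) (k : ℕ) (β : A → ℝ) (hβ : ∀ y, 0 ≤ β y) :
    ∑ v ∈ shl c lev k, ∑ i, β (c v i) ≤
      4 * ∑ y ∈ Finset.univ.filter (fun y => lev y ≤ 2 ^ (k + 1 + 1)), β y := by
  classical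
  set T := Finset.univ.filter (fun y : A => lev y ≤ 2 ^ (k + 1 + 1)) with hT
  have h1 : ∀ v ∈ shl c lev k, ∑ i, β (c v i) ≤
      ∑ y ∈ T, if ∃ i, c v i = y then β y else 0 := by
    intro v hv
    have hv1 : ∀ i, lev (c v i) ≤ 2 ^ (k + 1) := by
      simp only [shl, Finset.mem_filter] at hv
      exact hv.2.1
    rw [← Finset.sum_filter]
    rw [← Finset.sum_image (f := β) (g := c v) (s := Finset.univ)
      (fun i _ j _ h => hN.inj v h)]
    refine Finset.sum_le_sum_of_subset_of_nonneg ?_ fun y _ _ => hβ y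
    intro y hy
    obtain ⟨i, _, hi⟩ := Finset.mem_image.1 hy
    refine Finset.mem_filter.2 ⟨Finset.mem_filter.2 ⟨Finset.mem_univ _, ?_⟩, i, hi⟩
    rw [← hi]
    exact (hv1 i).trans (Nat.pow_le_pow_right (by norm_num) (by omega))
  calc ∑ v ∈ shl c lev k, ∑ i, β (c v i)
      ≤ ∑ v ∈ shl c lev k, ∑ y ∈ T, (if ∃ i, c v i = y then β y else 0) :=
        Finset.sum_le_sum h1
    _ = ∑ y ∈ T, ∑ v ∈ shl c lev k, (if ∃ i, c v i = y then β y else 0) := Finset.sum_comm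
    _ ≤ ∑ y ∈ T, 4 * β y := by
        refine Finset.sum_le_sum fun y _ => ?_
        rw [← Finset.sum_filter, Finset.sum_const, nsmul_eq_mul]
        refine mul_le_mul_of_nonneg_right ?_ (hβ y)
        have h2 : ((shl c lev k).filter fun v => ∃ i, c v i = y).card ≤ 4 := by
          refine (Finset.card_le_card ?_).trans (hL.mult y)
          exact Finset.filter_subset_filter _ (Finset.subset_univ _)
        exact_mod_cast h2
    _ = 4 * ∑ y ∈ T, β y := by rw [Finset.mul_sum]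

/-- the main step of the recursion -/
theorem step_two {w : (Fin 4 → ℝ) → ℝ} {G : Fin 4 → (Fin 4 → ℝ) → ℝ} {C : ℝ} (hw : Cell w G C)
    (Cg : ℝ) : ∃ K1 : ℝ, 1 ≤ K1 ∧ ∀ {A B : Type} [Fintype A] [DecidableEq A] [Fintype B]
      {c : B → Fin 4 → A} {p : A} {R : ℝ} {M : ℝ} {lev : A → ℕ} {K m : ℕ}, Net c p R → 1 ≤ M →
      Local c p lev K (M ^ 4) Cg → ∀ {π : Measure ((A → ℝ) × (A → ℝ))}, FSeq w G c p 0 lev m π →
      m ≤ 2 ^ K → ∀ k, k + 2 ≤ K → 2 ^ (k + 1) ≤ m →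
      Dk G c lev π k ^ 2 ≤ K1 * (Dk G c lev π (k + 2) - Dk G c lev π k) *
        (M ^ 3 * Dk G c lev π (k + 2) + M ^ 4 * Real.exp (-(M ^ 2 / K1))) := by
  obtain ⟨Ke, hKe, he⟩ := energy_le hw Cg
  obtain ⟨Ko, hKo, ho⟩ := osc_moment hw Cg
  obtain ⟨K2, hK2, h2⟩ := gf_trunc hw
  set Kab := (K2 + Ko) / 2 with hKab
  have hKab0 : 0 < Kab := by rw [hKab]; linarith
  set K1 := 256 * |Cg| * (Ke + Kab) + 2 * K2 + 1 with hK1
  have hK1a : 0 ≤ 256 * |Cg| * (Ke + Kab) := by positivity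
  refine ⟨K1, by linarith, ?_⟩
  intro A B _ _ _ c p R M lev K m hN hM hL π hπ hmK k hk hm
  have hC : Cpl w c p 0 π := ⟨hπ.prob, hπ.fst, hπ.snd⟩
  have := hπ.prob
  have hCg := hL.one_le
  have hcc := cacc hw hN hL hπ hk hm hmK
  have hC1 := hw.one_le
  -- abbreviations
  set b : B → Fin 4 → (A → ℝ) × (A → ℝ) → ℝ := fun v i z =>
    ((z.2 - z.1) (c v i) - kap lev (k + 1) (z.2 - z.1)) ^ 2 with hb
  have hbGr : ∀ y : A, gf_Gr (fun z : (A → ℝ) × (A → ℝ) =>
      (z.2 - z.1) y - kap lev (k + 1) (z.2 - z.1)) := fun y => by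
    have h := ((gf_Gr.c2 (A := A) y).sub (gf_Gr.c1 y)).sub (gf_kap lev (k + 1))
    simpa using h
  set ε := Real.exp (-(M ^ 2 / (2 * K2))) with hε
  have hε0 : 0 < ε := Real.exp_pos _
  have hε2 : Real.exp (-(M ^ 2 / K2)) = ε * ε := by
    rw [hε, ← Real.exp_add]
    congr 1
    have : K2 ≠ 0 := by linarith
    field_simp
    ring
  have hM4 : 0 < M ^ 4 := by positivity
  -- second part, one term
  have hab : ∀ v i, ∫ z, gf_a C M c v z * b v i z ∂π ≤ Kab * M ^ 4 * ε := by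
    intro v i
    have ia := ((gf_a_Gr C M c v).pow 2).integrable hw hN hC
    have ib : Integrable (fun z : (A → ℝ) × (A → ℝ) =>
        ((z.2 - z.1) (c v i) - kap lev (k + 1) (z.2 - z.1)) ^ 4) π :=
      ((hbGr (c v i)).pow 4).integrable hw hN hC
    have o1 := ho hN (by nlinarith [pow_le_pow_left₀ zero_le_one hM 4] : (1 : ℝ) ≤ M ^ 4) hL hC
      (k + 1) (by omega) (c v i)
    have t1 := h2 hN hC v M hM
    rw [hε2] at t1
    calc ∫ z, gf_a C M c v z * b v i z ∂π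
        ≤ ∫ z, (M ^ 4 / (2 * ε) * gf_a C M c v z ^ 2 + ε / (2 * M ^ 4) *
            ((z.2 - z.1) (c v i) - kap lev (k + 1) (z.2 - z.1)) ^ 4) ∂π := by
          refine integral_mono (((gf_a_Gr C M c v).mul ((hbGr (c v i)).pow 2)).integrable hw hN hC)
            ((ia.const_mul _).add (ib.const_mul _)) fun z => ?_
          simp only [hb]
          set x := gf_a C M c v z
          set y := (z.2 - z.1) (c v i) - kap lev (k + 1) (z.2 - z.1)
          have h1 : x * y ^ 2 = M ^ 4 / (2 * ε) * x ^ 2 + ε / (2 * M ^ 4) * y ^ 4 -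
              (M ^ 4 * x - ε * y ^ 2) ^ 2 / (2 * ε * M ^ 4) := by
            field_simp
            ring
          rw [h1]
          have : 0 ≤ (M ^ 4 * x - ε * y ^ 2) ^ 2 / (2 * ε * M ^ 4) := by positivity
          linarith
      _ = M ^ 4 / (2 * ε) * ∫ z, gf_a C M c v z ^ 2 ∂π + ε / (2 * M ^ 4) *
            ∫ z, ((z.2 - z.1) (c v i) - kap lev (k + 1) (z.2 - z.1)) ^ 4 ∂π := by
          rw [integral_add (ia.const_mul _) (ib.const_mul _), integral_const_mul,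
            integral_const_mul]
      _ ≤ M ^ 4 / (2 * ε) * (K2 * (ε * ε)) + ε / (2 * M ^ 4) * (Ko * (M ^ 4) ^ 2) :=
          add_le_add (mul_le_mul_of_nonneg_left t1 (by positivity))
            (mul_le_mul_of_nonneg_left o1 (by positivity))
      _ = Kab * M ^ 4 * ε := by rw [hKab]; field_simp
  -- first part
  have hen : ∀ z : (A → ℝ) × (A → ℝ), ∑ v ∈ shl c lev k, ∑ i, b v i z ≤
      4 * (Cg * 4 ^ (k + 1) * EnOn c (clv c lev (k + 1 + 1)) (z.2 - z.1)) := by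
    intro z
    have h1 := gf_sites hN hL k
      (fun y => ((z.2 - z.1) y - kap lev (k + 1) (z.2 - z.1)) ^ 2) fun y => sq_nonneg _
    have h3 := hL.poin (k + 1) (by omega) (z.2 - z.1)
    exact h1.trans (mul_le_mul_of_nonneg_left h3 (by norm_num))
  have hEnGr : gf_Gr (fun z : (A → ℝ) × (A → ℝ) =>
      EnOn c (clv c lev (k + 1 + 1)) (z.2 - z.1)) := by
    unfold EnOn q loc
    refine gf_Gr.sum _ fun v _ => gf_Gr.sum _ fun i _ => gf_Gr.sum _ fun j _ => ?_
    have h := (((gf_Gr.c2 (A := A) (c v i)).sub (gf_Gr.c1 (c v i))).sub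
      ((gf_Gr.c2 (c v j)).sub (gf_Gr.c1 (c v j)))).pow 2
    simpa using h
  have hE := he hN hM hL hC (k + 1 + 1) (by omega)
  -- pointwise bound
  have hpt : ∀ z : (A → ℝ) × (A → ℝ),
      ∑ v ∈ shl c lev k, C * (1 + q (loc c z.1 v) + q (loc c z.2 v)) * ∑ i, b v i z ≤
        M * (4 * (Cg * 4 ^ (k + 1) * EnOn c (clv c lev (k + 1 + 1)) (z.2 - z.1))) +
          ∑ v ∈ shl c lev k, ∑ i, gf_a C M c v z * b v i z := by
    intro z
    have h1 : ∀ v ∈ shl c lev k,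
        C * (1 + q (loc c z.1 v) + q (loc c z.2 v)) * ∑ i, b v i z ≤
          M * ∑ i, b v i z + ∑ i, gf_a C M c v z * b v i z := by
      intro v _
      have hs : 0 ≤ ∑ i, b v i z := Finset.sum_nonneg fun i _ => by
        simp only [hb]; exact sq_nonneg _
      rw [← Finset.mul_sum, ← add_mul]
      refine mul_le_mul_of_nonneg_right ?_ hs
      unfold gf_a
      split_ifs with h
      · linarith
      · push Not at h; linarith
    refine (Finset.sum_le_sum h1).trans ?_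
    rw [Finset.sum_add_distrib, ← Finset.mul_sum]
    exact add_le_add (mul_le_mul_of_nonneg_left (hen z) (by linarith)) le_rfl
  have hJ : ∫ z, ∑ v ∈ shl c lev k, C * (1 + q (loc c z.1 v) + q (loc c z.2 v)) *
        ∑ i, b v i z ∂π ≤
      M * (4 * (Cg * 4 ^ (k + 1) *
        (Ke * M ^ 2 * Dk G c lev π (k + 1 + 1) + Ke * Real.exp (-(M ^ 4))))) +
        4 * (Cg * 4 ^ (k + 1)) * (Kab * M ^ 4 * ε) := by
    have iab : ∀ v i, Integrable (fun z => gf_a C M c v z * b v i z) π := fun v i =>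
      ((gf_a_Gr C M c v).mul ((hbGr (c v i)).pow 2)).integrable hw hN hC
    have iE := hEnGr.integrable hw hN hC
    have iL : Integrable (fun z : (A → ℝ) × (A → ℝ) => ∑ v ∈ shl c lev k,
        C * (1 + q (loc c z.1 v) + q (loc c z.2 v)) * ∑ i, b v i z) π :=
      (gf_Gr.sum _ fun v _ => (gf_Mv C c v).mul
        (gf_Gr.sum _ fun i _ => (hbGr (c v i)).pow 2)).integrable hw hN hC
    have iR : Integrable (fun z => ∑ v ∈ shl c lev k, ∑ i, gf_a C M c v z * b v i z) π :=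
      integrable_finsetSum _ fun v _ => integrable_finsetSum _ fun i _ => iab v i
    have iR1 : Integrable (fun z : (A → ℝ) × (A → ℝ) =>
        M * (4 * (Cg * 4 ^ (k + 1) * EnOn c (clv c lev (k + 1 + 1)) (z.2 - z.1)))) π :=
      ((iE.const_mul _).const_mul _).const_mul _
    calc ∫ z, ∑ v ∈ shl c lev k, C * (1 + q (loc c z.1 v) + q (loc c z.2 v)) *
          ∑ i, b v i z ∂π
        ≤ ∫ z, (M * (4 * (Cg * 4 ^ (k + 1) * EnOn c (clv c lev (k + 1 + 1)) (z.2 - z.1))) +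
          ∑ v ∈ shl c lev k, ∑ i, gf_a C M c v z * b v i z) ∂π :=
          integral_mono iL (iR1.add iR) hpt
      _ = M * (4 * (Cg * 4 ^ (k + 1) *
            ∫ z, EnOn c (clv c lev (k + 1 + 1)) (z.2 - z.1) ∂π)) +
          ∑ v ∈ shl c lev k, ∑ i, ∫ z, gf_a C M c v z * b v i z ∂π := by
          rw [integral_add iR1 iR, integral_const_mul, integral_const_mul, integral_const_mul,
            integral_finsetSum _ fun v _ => integrable_finsetSum _ fun i _ => iab v i]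
          congr 1
          refine Finset.sum_congr rfl fun v _ => ?_
          rw [integral_finsetSum _ fun i _ => iab v i]
      _ ≤ _ := by
          have hcard : ((shl c lev k).card : ℝ) ≤ Cg * 4 ^ (k + 1) := by
            refine le_trans ?_ (hL.count (k + 1) (by omega))
            have : (shl c lev k).card ≤ (clv c lev (k + 1)).card := by
              refine Finset.card_le_card fun v hv => ?_
              simp only [shl, clv, Finset.mem_filter, Finset.mem_univ, true_and] at hv ⊢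
              exact hv.1
            exact_mod_cast this
          refine add_le_add ?_ ?_
          · refine mul_le_mul_of_nonneg_left (mul_le_mul_of_nonneg_left
              (mul_le_mul_of_nonneg_left hE (by positivity)) (by norm_num)) (by linarith)
          · calc ∑ v ∈ shl c lev k, ∑ i, ∫ z, gf_a C M c v z * b v i z ∂π
                ≤ ∑ v ∈ shl c lev k, ∑ _i : Fin 4, Kab * M ^ 4 * ε :=
                  Finset.sum_le_sum fun v _ => Finset.sum_le_sum fun i _ => hab v i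
              _ = (shl c lev k).card * (4 * (Kab * M ^ 4 * ε)) := by
                  simp [Finset.sum_const, nsmul_eq_mul]
              _ ≤ (Cg * 4 ^ (k + 1)) * (4 * (Kab * M ^ 4 * ε)) :=
                  mul_le_mul_of_nonneg_right hcard (by positivity)
              _ = _ := by ring
  -- conclusion
  obtain ⟨hD0, hD01⟩ := Dk_mono hw hN lev hC k
  obtain ⟨hD1, hD12⟩ := Dk_mono hw hN lev hC (k + 1)
  have hD2 : 0 ≤ Dk G c lev π (k + 1 + 1) := hD1.trans hD12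
  set D0 := Dk G c lev π k
  set D1 := Dk G c lev π (k + 1)
  have ek : k + 2 = k + 1 + 1 := rfl
  rw [ek]
  set D2 := Dk G c lev π (k + 1 + 1)
  have hp4 : (0 : ℝ) < 4 ^ (k + 1) := by positivity
  have hexp1 : Real.exp (-(M ^ 4)) ≤ Real.exp (-(M ^ 2 / K1)) := by
    refine Real.exp_le_exp.2 (neg_le_neg ?_)
    have h3 : M ^ 2 / K1 ≤ M ^ 2 := div_le_self (sq_nonneg M) (by linarith)
    have h4 : M ^ 2 ≤ M ^ 4 := pow_le_pow_right₀ hM (by norm_num)
    linarith
  have hexp2 : ε ≤ Real.exp (-(M ^ 2 / K1)) := by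
    rw [hε]
    refine Real.exp_le_exp.2 (neg_le_neg ?_)
    exact div_le_div_of_nonneg_left (sq_nonneg M) (by linarith) (by linarith)
  set E1 := Real.exp (-(M ^ 2 / K1))
  have hE1 : 0 < E1 := Real.exp_pos _
  have hMM : M ≤ M ^ 4 := by
    calc M = M ^ 1 := (pow_one M).symm
      _ ≤ M ^ 4 := pow_le_pow_right₀ hM (by norm_num)
  have hJ2 : M * (4 * (Cg * 4 ^ (k + 1) * (Ke * M ^ 2 * D2 + Ke * Real.exp (-(M ^ 4))))) +
        4 * (Cg * 4 ^ (k + 1)) * (Kab * M ^ 4 * ε) ≤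
      4 ^ (k + 1) * (4 * Cg * (Ke + Kab) * (M ^ 3 * D2 + M ^ 4 * E1)) := by
    have a1 : M * Real.exp (-(M ^ 4)) ≤ M ^ 4 * E1 :=
      mul_le_mul hMM hexp1 (Real.exp_pos _).le (by positivity)
    have a2 : M ^ 4 * ε ≤ M ^ 4 * E1 := mul_le_mul_of_nonneg_left hexp2 (by positivity)
    have a3 : 0 ≤ M ^ 3 * D2 := by positivity
    have hCg0 : 0 ≤ Cg := by linarith
    calc M * (4 * (Cg * 4 ^ (k + 1) * (Ke * M ^ 2 * D2 + Ke * Real.exp (-(M ^ 4))))) +
        4 * (Cg * 4 ^ (k + 1)) * (Kab * M ^ 4 * ε)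
        = 4 ^ (k + 1) * (4 * Cg * (Ke * (M ^ 3 * D2) + Ke * (M * Real.exp (-(M ^ 4))) +
          Kab * (M ^ 4 * ε))) := by ring
      _ ≤ 4 ^ (k + 1) * (4 * Cg * (Ke * (M ^ 3 * D2) + Ke * (M ^ 4 * E1) +
          Kab * (M ^ 4 * E1))) := by gcongr
      _ ≤ 4 ^ (k + 1) * (4 * Cg * (Ke + Kab) * (M ^ 3 * D2 + M ^ 4 * E1)) := by
          have : 0 ≤ Kab * (M ^ 3 * D2) := mul_nonneg hKab0.le a3
          have h5 : Ke * (M ^ 3 * D2) + Ke * (M ^ 4 * E1) + Kab * (M ^ 4 * E1) ≤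
              (Ke + Kab) * (M ^ 3 * D2 + M ^ 4 * E1) := by nlinarith
          rw [mul_assoc (4 * Cg)]
          gcongr
  have hfin : D0 ^ 2 ≤ 64 / 4 ^ (k + 1) * (D1 - D0) *
      (4 ^ (k + 1) * (4 * Cg * (Ke + Kab) * (M ^ 3 * D2 + M ^ 4 * E1))) :=
    hcc.trans (mul_le_mul_of_nonneg_left (hJ.trans hJ2)
      (mul_nonneg (by positivity) (by linarith)))
  have hX : 0 ≤ M ^ 3 * D2 + M ^ 4 * E1 := by positivity
  calc D0 ^ 2 ≤ _ := hfin
    _ = (256 * Cg * (Ke + Kab)) * (D1 - D0) * (M ^ 3 * D2 + M ^ 4 * E1) := by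
        field_simp
        ring
    _ ≤ K1 * (D2 - D0) * (M ^ 3 * D2 + M ^ 4 * E1) := by
        refine mul_le_mul_of_nonneg_right ?_ hX
        have habs : |Cg| = Cg := abs_of_nonneg (by linarith)
        refine mul_le_mul ?_ (by linarith) (by linarith) (by linarith)
        rw [hK1, habs]
        linarith

end QG
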