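import Mathlib
import Pool.Agent.Lib_helper69.QG.Defs
import Pool.Agent.Lib_helper69.QG.Field

set_option autoImplicit false

namespace QG

open MeasureTheory

theorem gg_phase1 {D : ℕ → ℝ} {A T : ℝ} (hA : 0 < A) (hD : ∀ k, 0 ≤ D k) (m : ℕ)
    (h1 : ∀ k, k + 1 ≤ m → D k ^ 2 ≤ A * D (k + 1)) (h0 : D m ≤ A * Real.exp T) :
    ∀ j, j ≤ m → D (m - j) ≤ A * Real.exp (T / 2 ^ j) := by
  intro j
  induction j with
  | zero => intro _; simpa using h0
  | succ j ih =>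
    intro hj
    have h2 := ih (by omega)
    have h3 := h1 (m - (j + 1)) (by omega)
    have e1 : m - (j + 1) + 1 = m - j := by omega
    rw [e1] at h3
    have h4 : A * D (m - j) ≤ A * (A * Real.exp (T / 2 ^ j)) := mul_le_mul_of_nonneg_left h2 hA.le
    have h5 : A * (A * Real.exp (T / 2 ^ j)) = (A * Real.exp (T / 2 ^ (j + 1))) ^ 2 := by
      have e2 : T / 2 ^ j = T / 2 ^ (j + 1) + T / 2 ^ (j + 1) := by
        rw [pow_succ]; field_simp; ring
      rw [e2, Real.exp_add]; ring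
    have h6 : D (m - (j + 1)) ^ 2 ≤ (A * Real.exp (T / 2 ^ (j + 1))) ^ 2 := by
      rw [← h5]; exact h3.trans h4
    exact (pow_le_pow_iff_left₀ (hD _) (by positivity) (by norm_num)).1 h6

theorem gg_contract {a b B : ℝ} (hB : 1 ≤ B) (ha : 0 ≤ a) (hab : a ≤ b)
    (h : a ^ 2 ≤ B * b * (b - a)) : a ≤ (1 - 1 / (4 * B)) * b := by
  have hB0 : 0 < B := by linarith
  have hb : 0 ≤ b := ha.trans hab
  have h1 : 1 / (4 * B) ≤ 1 / 2 := by
    apply one_div_le_one_div_of_le (by norm_num) (by linarith)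
  by_cases hc : a ≤ b / 2
  · nlinarith
  · push Not at hc
    have hb0 : 0 < b := by
      rcases hb.lt_or_eq with h2 | h2
      · exact h2
      · exfalso; rw [← h2] at hc hab; linarith
    have h3 : b ^ 2 / 4 ≤ B * b * (b - a) := by nlinarith
    have h4 : b / 4 ≤ B * (b - a) := by
      by_contra h5
      push Not at h5
      have : B * b * (b - a) < b ^ 2 / 4 := by
        have := mul_lt_mul_of_pos_left h5 hb0
        nlinarith
      linarith
    have h6 : (1 - 1 / (4 * B)) * b = b - (b / 4) / B := by field_simp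
    rw [h6]
    have h7 : (b / 4) / B ≤ b - a := by
      rw [div_le_iff₀ hB0]; linarith
    linarith

theorem gg_phase2 {D : ℕ → ℝ} {B E : ℝ} (hB : 1 ≤ B) (hD : ∀ k, 0 ≤ D k)
    (hm : ∀ k, D k ≤ D (k + 1)) (m : ℕ)
    (h1 : ∀ k, k + 2 ≤ m → E < D (k + 2) → D k ^ 2 ≤ B * D (k + 2) * (D (k + 2) - D k)) :
    ∀ n, 2 * n ≤ m → D (m - 2 * n) ≤ E ∨ D (m - 2 * n) ≤ (1 - 1 / (4 * B)) ^ n * D m := by
  intro n
  induction n with
  | zero => intro _; right; simp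
  | succ n ih =>
    intro hn
    have e1 : m - 2 * (n + 1) + 2 = m - 2 * n := by omega
    have hmm : D (m - 2 * (n + 1)) ≤ D (m - 2 * (n + 1) + 2) := (hm _).trans (hm _)
    by_cases hE : D (m - 2 * n) ≤ E
    · left
      rw [e1] at hmm
      exact hmm.trans hE
    · right
      push Not at hE
      have h2 := (ih (by omega)).resolve_left (not_le.2 hE)
      have h3 := h1 (m - 2 * (n + 1)) (by omega) (by rw [e1]; exact hE)
      have h4 := gg_contract hB (hD _) hmm h3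
      rw [e1] at h4
      have h5 : (0 : ℝ) ≤ 1 - 1 / (4 * B) := by
        have : 1 / (4 * B) ≤ 1 / 2 := one_div_le_one_div_of_le (by norm_num) (by linarith)
        linarith
      calc D (m - 2 * (n + 1)) ≤ (1 - 1 / (4 * B)) * D (m - 2 * n) := h4
        _ ≤ (1 - 1 / (4 * B)) * ((1 - 1 / (4 * B)) ^ n * D m) := mul_le_mul_of_nonneg_left h2 h5
        _ = (1 - 1 / (4 * B)) ^ (n + 1) * D m := by ring

theorem gg_ev {K1 α ε : ℝ} (hK1 : 1 ≤ K1) (hα : 0 < α) (hε : 0 < ε) :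
    ∃ M0 : ℝ, 1 ≤ M0 ∧ ∀ M : ℝ, M0 ≤ M →
      K1 * M ^ 4 ≤ 2 ^ ⌊α * M ^ 4 / 4⌋₊ ∧ M * Real.exp (-(M ^ 2 / K1)) ≤ ε ∧
      3 * K1 * M ^ 4 * Real.exp (-(α * M / (32 * K1))) ≤ ε ∧ 24 ≤ α * M ^ 4 := by
  have hK0 : 0 < K1 := by linarith
  have t4 : Filter.Tendsto (fun M : ℝ => α * M ^ 4) Filter.atTop Filter.atTop :=
    (Filter.tendsto_pow_atTop (by norm_num)).const_mul_atTop hα
  have e5 : ∀ᶠ M : ℝ in Filter.atTop, 24 ≤ α * M ^ 4 := t4.eventually_ge_atTop 24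
  have tfl : Filter.Tendsto (fun M : ℝ => ⌊α * M ^ 4 / 4⌋₊) Filter.atTop Filter.atTop :=
    tendsto_nat_floor_atTop.comp (t4.atTop_div_const (by norm_num))
  have e2' : ∀ᶠ n : ℕ in Filter.atTop, (n : ℝ) ^ 1 / 2 ^ n < α / (8 * K1) :=
    (tendsto_pow_const_div_const_pow_of_one_lt 1 (by norm_num : (1 : ℝ) < 2)).eventually_lt_const
      (by positivity)
  have e2 := tfl.eventually e2'
  have e3 : ∀ᶠ M : ℝ in Filter.atTop, M * Real.exp (-(M ^ 2 / K1)) ≤ ε := by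
    have h1 : Filter.Tendsto (fun M : ℝ => M ^ 1 * Real.exp (-M)) Filter.atTop (nhds 0) :=
      Real.tendsto_pow_mul_exp_neg_atTop_nhds_zero 1
    have h2 : ∀ᶠ M : ℝ in Filter.atTop, M ^ 1 * Real.exp (-M) < ε := h1.eventually_lt_const hε
    filter_upwards [h2, Filter.eventually_ge_atTop K1, Filter.eventually_ge_atTop 1] with M h3 h4 h5
    have h6 : M ≤ M ^ 2 / K1 := by
      rw [le_div_iff₀ hK0]; nlinarith
    have h7 : Real.exp (-(M ^ 2 / K1)) ≤ Real.exp (-M) := Real.exp_le_exp.2 (by linarith)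
    have h8 : M * Real.exp (-(M ^ 2 / K1)) ≤ M * Real.exp (-M) :=
      mul_le_mul_of_nonneg_left h7 (by linarith)
    rw [pow_one] at h3
    linarith
  have e4 : ∀ᶠ M : ℝ in Filter.atTop, 3 * K1 * M ^ 4 * Real.exp (-(α * M / (32 * K1))) ≤ ε := by
    have hc : 0 < α / (32 * K1) := by positivity
    have h1 : Filter.Tendsto (fun x : ℝ => x ^ 4 * Real.exp (-x)) Filter.atTop (nhds 0) :=
      Real.tendsto_pow_mul_exp_neg_atTop_nhds_zero 4
    have h2 : Filter.Tendsto (fun M : ℝ => α / (32 * K1) * M) Filter.atTop Filter.atTop :=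
      Filter.tendsto_id.const_mul_atTop hc
    have h3 := h1.comp h2
    have h4 : ∀ᶠ M : ℝ in Filter.atTop,
        ((fun x : ℝ => x ^ 4 * Real.exp (-x)) ∘ fun M : ℝ => α / (32 * K1) * M) M <
          ε * (α / (32 * K1)) ^ 4 / (3 * K1) := h3.eventually_lt_const (by positivity)
    filter_upwards [h4] with M h5
    simp only [Function.comp] at h5
    have h6 : α * M / (32 * K1) = α / (32 * K1) * M := by ring
    rw [h6]
    rw [lt_div_iff₀ (by positivity)] at h5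
    have h7 : (3 * K1 * M ^ 4 * Real.exp (-(α / (32 * K1) * M))) * (α / (32 * K1)) ^ 4 ≤
        ε * (α / (32 * K1)) ^ 4 := by
      refine le_trans (le_of_eq ?_) h5.le
      ring
    exact le_of_mul_le_mul_right h7 (by positivity)
  have hall := (((e2.and e3).and e4).and e5).and (Filter.eventually_ge_atTop (1 : ℝ))
  obtain ⟨M0, hM0⟩ := Filter.eventually_atTop.1 hall
  refine ⟨max M0 1, le_max_right _ _, fun M hM => ?_⟩
  obtain ⟨⟨⟨⟨a2, a3⟩, a4⟩, a5⟩, a6⟩ := hM0 M ((le_max_left _ _).trans hM)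
  refine ⟨?_, a3, a4, a5⟩
  have hx : 6 ≤ α * M ^ 4 / 4 := by linarith
  have hfl : α * M ^ 4 / 4 < (⌊α * M ^ 4 / 4⌋₊ : ℝ) + 1 := Nat.lt_floor_add_one _
  have hn1 : (1 : ℝ) ≤ (⌊α * M ^ 4 / 4⌋₊ : ℝ) := by linarith
  rw [pow_one, div_lt_iff₀ (by positivity)] at a2
  have h8 : α * M ^ 4 ≤ 8 * (⌊α * M ^ 4 / 4⌋₊ : ℝ) := by linarith
  have h9 : α * (K1 * M ^ 4) ≤ α * 2 ^ ⌊α * M ^ 4 / 4⌋₊ := by
    have h10 : K1 * (α * M ^ 4) ≤ K1 * (8 * (⌊α * M ^ 4 / 4⌋₊ : ℝ)) :=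
      mul_le_mul_of_nonneg_left h8 hK0.le
    have h11 : 8 * K1 * (⌊α * M ^ 4 / 4⌋₊ : ℝ) ≤
        8 * K1 * (α / (8 * K1) * 2 ^ ⌊α * M ^ 4 / 4⌋₊) :=
      mul_le_mul_of_nonneg_left a2.le (by positivity)
    have h12 : 8 * K1 * (α / (8 * K1) * 2 ^ ⌊α * M ^ 4 / 4⌋₊) = α * 2 ^ ⌊α * M ^ 4 / 4⌋₊ := by
      field_simp
    linarith
  exact le_of_mul_le_mul_left h9 hα

/-- the recursion -/
theorem recursion {K1 α ε : ℝ} (hK1 : 1 ≤ K1) (hα : 0 < α) (hε : 0 < ε) :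
    ∃ M0 : ℝ, 1 ≤ M0 ∧ ∀ M : ℝ, M0 ≤ M → ∀ (D : ℕ → ℝ) (ki ko : ℕ), ki ≤ ko →
      α * M ^ 4 ≤ (ko : ℝ) - ki → (∀ k, 0 ≤ D k) → (∀ k, D k ≤ D (k + 1)) →
      D ko ≤ K1 * Real.exp (K1 * M ^ 4) →
      (∀ k, k + 2 ≤ ko → D k ^ 2 ≤ K1 * M ^ 4 * D (k + 1)) →
      (∀ k, k + 2 ≤ ko → D k ^ 2 ≤ K1 * (D (k + 2) - D k) *
        (M ^ 3 * D (k + 2) + M ^ 4 * Real.exp (-(M ^ 2 / K1)))) → D ki ≤ ε := by
  obtain ⟨M0, hM0, hev⟩ := gg_ev hK1 hα hε
  refine ⟨M0, hM0, fun M hM D ki ko hk hkk hD hm hko h1 h2 => ?_⟩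
  obtain ⟨a1, a2, a3, a4⟩ := hev M hM
  have hM1 : 1 ≤ M := hM0.trans hM
  have hM4 : 1 ≤ M ^ 4 := one_le_pow₀ hM1
  have hM3 : 1 ≤ M ^ 3 := one_le_pow₀ hM1
  have hK0 : 0 < K1 := by linarith
  have hmono : Monotone D := monotone_nat_of_le_succ hm
  set j : ℕ := ⌊α * M ^ 4 / 4⌋₊ with hj
  have hjle : (j : ℝ) ≤ α * M ^ 4 / 4 := Nat.floor_le (by positivity)
  have hjm : j + 1 + ki ≤ ko := by
    have : ((j + 1 + ki : ℕ) : ℝ) ≤ (ko : ℝ) := by push_cast; linarith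
    exact_mod_cast this
  have hA : 0 < K1 * M ^ 4 := by positivity
  have p1 := gg_phase1 hA hD (ko - 1) (T := K1 * M ^ 4) (fun k hk1 => h1 k (by omega)) (by
    have : D (ko - 1) ≤ D ko := hmono (by omega)
    have h3 : K1 * Real.exp (K1 * M ^ 4) ≤ K1 * M ^ 4 * Real.exp (K1 * M ^ 4) := by
      have : K1 * 1 * Real.exp (K1 * M ^ 4) ≤ K1 * M ^ 4 * Real.exp (K1 * M ^ 4) := by gcongr
      linarith
    linarith) j (by omega)
  have h2j : K1 * M ^ 4 / 2 ^ j ≤ 1 := by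
    rw [div_le_one (by positivity)]; exact a1
  have p2 : D (ko - 1 - j) ≤ 3 * K1 * M ^ 4 := by
    have h3 : Real.exp (K1 * M ^ 4 / 2 ^ j) ≤ Real.exp 1 := Real.exp_le_exp.2 h2j
    have h4 : Real.exp 1 ≤ 3 := by
      have := Real.exp_one_lt_d9; linarith
    have h5 : K1 * M ^ 4 * Real.exp (K1 * M ^ 4 / 2 ^ j) ≤ K1 * M ^ 4 * 3 :=
      mul_le_mul_of_nonneg_left (h3.trans h4) hA.le
    linarith
  set m : ℕ := ko - 1 - j with hmdef
  set B : ℝ := 2 * K1 * M ^ 3 with hB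
  set E : ℝ := M * Real.exp (-(M ^ 2 / K1)) with hE
  have hB1 : 1 ≤ B := by
    have : 1 * 1 ≤ K1 * M ^ 3 := mul_le_mul hK1 hM3 (by norm_num) (by linarith)
    rw [hB]; linarith
  have hcon : ∀ k, k + 2 ≤ m → E < D (k + 2) →
      D k ^ 2 ≤ B * D (k + 2) * (D (k + 2) - D k) := by
    intro k hk1 hk2
    have h3 := h2 k (by omega)
    have h4 : M ^ 4 * Real.exp (-(M ^ 2 / K1)) = M ^ 3 * E := by rw [hE]; ring
    have h5 : M ^ 3 * E ≤ M ^ 3 * D (k + 2) := mul_le_mul_of_nonneg_left hk2.le (by positivity)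
    have h6 : 0 ≤ D (k + 2) - D k := by
      have := hmono (by omega : k ≤ k + 2); linarith
    have h7 : K1 * (D (k + 2) - D k) * (M ^ 3 * D (k + 2) + M ^ 4 * Real.exp (-(M ^ 2 / K1))) ≤
        K1 * (D (k + 2) - D k) * (2 * M ^ 3 * D (k + 2)) := by
      apply mul_le_mul_of_nonneg_left _ (by positivity)
      rw [h4]; linarith
    refine h3.trans (h7.trans (le_of_eq ?_))
    rw [hB]; ring
  set n : ℕ := (m - ki) / 2 with hn
  have hn2 : 2 * n ≤ m - ki := Nat.mul_div_le _ _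
  have hn3 : m - ki ≤ 2 * n + 1 := by omega
  have hmR : (m : ℝ) = ko - 1 - j := by
    have : m + 1 + j = ko := by omega
    have h3 : ((m + 1 + j : ℕ) : ℝ) = (ko : ℝ) := by exact_mod_cast this
    push_cast at h3; linarith
  have hnR : α * M ^ 4 / 4 ≤ (n : ℝ) := by
    have h3 : m ≤ 2 * n + 1 + ki := by omega
    have h4 : (m : ℝ) ≤ 2 * n + 1 + ki := by exact_mod_cast h3
    linarith
  have hfin : D ki ≤ D (m - 2 * n) := hmono (by omega)
  rcases gg_phase2 hB1 hD hm m hcon n (by omega) with h3 | h3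
  · linarith
  · have h4 : (1 - 1 / (4 * B)) ^ n ≤ Real.exp (-(α * M / (32 * K1))) := by
      have h5 : 1 - 1 / (4 * B) ≤ Real.exp (-(1 / (4 * B))) := by
        have := Real.add_one_le_exp (-(1 / (4 * B))); linarith
      have h6 : (0 : ℝ) ≤ 1 - 1 / (4 * B) := by
        have : 1 / (4 * B) ≤ 1 / 2 := one_div_le_one_div_of_le (by norm_num) (by linarith)
        linarith
      calc (1 - 1 / (4 * B)) ^ n ≤ (Real.exp (-(1 / (4 * B)))) ^ n := pow_le_pow_left₀ h6 h5 n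
        _ = Real.exp (-(n / (4 * B))) := by rw [← Real.exp_nat_mul]; congr 1; ring
        _ ≤ Real.exp (-(α * M / (32 * K1))) := by
          apply Real.exp_le_exp.2
          have h7 : α * M / (32 * K1) = (α * M ^ 4 / 4) / (4 * B) := by
            have : M ≠ 0 := by linarith
            rw [hB]; field_simp; ring
          rw [h7]
          have h8 : (α * M ^ 4 / 4) / (4 * B) ≤ n / (4 * B) :=
            div_le_div_of_nonneg_right hnR (by positivity)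
          linarith
    have h9 : (1 - 1 / (4 * B)) ^ n * D m ≤
        Real.exp (-(α * M / (32 * K1))) * (3 * K1 * M ^ 4) :=
      mul_le_mul h4 p2 (hD _) (Real.exp_pos _).le
    linarith

end QG
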