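import Mathlib
import Pool.Agent.Lib_helper69.QG.Defs
import Pool.Agent.Lib_helper69.QG.Field
import Pool.Agent.Lib_helper69.QG.W.fe
import Pool.Agent.Lib_helper69.QG.W.fh
import Pool.Agent.Lib_helper69.QG.W.fo
import Pool.Agent.Lib_helper69.QG.W.gc
import Pool.Agent.Lib_helper69.QG.W.gd
import Pool.Agent.Lib_helper69.QG.W.gf
import Pool.Agent.Lib_helper69.QG.W.gg

set_option autoImplicit false

namespace QG

open MeasureTheory

theorem gh_cpl {A B : Type} [Fintype A] [DecidableEq A] [Fintype B] {w : (Fin 4 → ℝ) → ℝ}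
    {G : Fin 4 → (Fin 4 → ℝ) → ℝ} {c : B → Fin 4 → A} {p : A} {l : A → ℝ} {lev : A → ℕ} {m : ℕ}
    {π : Measure ((A → ℝ) × (A → ℝ))} (h : FSeq w G c p l lev m π) : Cpl w c p l π :=
  ⟨h.prob, h.fst, h.snd⟩

theorem gh_dot {A : Type} [Fintype A] (l : A → ℝ) : Continuous (fun a : A → ℝ => dot l a) := by
  unfold dot
  fun_prop

theorem gh_sub {A : Type} [Fintype A] (l a b : A → ℝ) : dot l (b - a) = dot l b - dot l a := by
  unfold dot
  rw [← Finset.sum_sub_distrib]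
  refine Finset.sum_congr rfl fun y _ => ?_
  rw [Pi.sub_apply]
  ring

theorem gh_dle {A : Type} [Fintype A] (l a : A → ℝ) :
    |dot l a| ≤ (∑ y, |l y|) * ∑ y, |a y| := by
  unfold dot
  refine (Finset.abs_sum_le_sum_abs _ _).trans ?_
  rw [Finset.sum_mul]
  apply Finset.sum_le_sum
  intro y _
  rw [abs_mul]
  exact mul_le_mul_of_nonneg_left
    (Finset.single_le_sum (f := fun y => |a y|) (fun y _ => abs_nonneg _) (Finset.mem_univ y))
    (abs_nonneg _)

/-- decoupling of scales -/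
theorem decouple {w : (Fin 4 → ℝ) → ℝ} {G : Fin 4 → (Fin 4 → ℝ) → ℝ} {C : ℝ} (hw : Cell w G C)
    {Cg α ε : ℝ} (hα : 0 < α) (hε : 0 < ε) : ∃ M0 : ℝ, 1 ≤ M0 ∧
      ∀ {A B : Type} [Fintype A] [DecidableEq A] [Fintype B]
      {c : B → Fin 4 → A} {p : A} {R : ℝ} {M : ℝ} {lev : A → ℕ} {K : ℕ}, Net c p R → M0 ≤ M →
      Local c p lev K (M ^ 4) Cg → ∀ ki ko : ℕ, ki ≤ ko → ko ≤ K → α * M ^ 4 ≤ (ko : ℝ) - ki →
      ∀ (l : A → ℝ) (R1 : ℝ), 0 ≤ R1 →
      (∀ h : A → ℝ, dot l h ^ 2 ≤ R1 * EnOn c (clv c lev ki) h) →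
      ∀ U : (A → ℝ) → ℝ, Measurable U → (∀ a, |U a| ≤ 1) →
      (∀ a b : A → ℝ, (∀ y, 2 ^ ko ≤ lev y → a y = b y) → U a = U b) →
      ∀ F : ℝ → ℝ, (∀ s, |F s| ≤ 1) → (∀ s t, |F s - F t| ≤ |s - t|) →
      |∫ a, U a * F (dot l a) ∂mu w c p 0 -
        (∫ a, U a ∂mu w c p 0) * ∫ a, F (dot l a) ∂mu w c p 0| ≤ ε * Real.sqrt R1 := by
  obtain ⟨Ka, hKa1, hKa⟩ := step_one hw Cg
  obtain ⟨Kb, hKb1, hKb⟩ := step_two hw Cg
  obtain ⟨Kt, hKt1, hKt⟩ := Dk_trivial hw Cg
  obtain ⟨Kl, hKl1, hKl⟩ := lin_bound hw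
  obtain ⟨K1, hK1⟩ : ∃ K1 : ℝ, K1 = Ka + Kb + Kt + |Cg| := ⟨_, rfl⟩
  have hCg0 : 0 ≤ |Cg| := abs_nonneg _
  have k1 : 1 ≤ K1 := by linarith
  have kl0 : 0 < Kl := by linarith
  obtain ⟨M0, hM01, hM0⟩ := recursion (K1 := K1) (α := α) (ε := ε ^ 2 / Kl) k1 hα (by positivity)
  refine ⟨M0, hM01, ?_⟩
  intro A B _ _ _ c p R M lev K hN hM hL ki ko hk hko hkk l R1 hR1 hl U hUm hU1 hU F hF1 hF2
  have hM1 : 1 ≤ M := hM01.trans hM
  have hM4 : 1 ≤ M ^ 4 := one_le_pow₀ hM1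
  obtain ⟨π, hπ⟩ := fseq_exists hw hN (0 : A → ℝ) lev (2 ^ ko)
  have hc : Cpl w c p 0 π := gh_cpl hπ
  have hprob : IsProbabilityMeasure π := hπ.prob
  have hD0 : ∀ k, 0 ≤ Dk G c lev π k := fun k => (Dk_mono hw hN lev hc k).1
  have hD1 : ∀ k, Dk G c lev π k ≤ Dk G c lev π (k + 1) := fun k => (Dk_mono hw hN lev hc k).2
  have hpow : (2 : ℕ) ^ ko ≤ 2 ^ K := Nat.pow_le_pow_right (by norm_num) hko
  have hmain : Dk G c lev π ki ≤ ε ^ 2 / Kl := by
    refine hM0 M hM (fun k => Dk G c lev π k) ki ko hk hkk hD0 hD1 ?_ ?_ ?_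
    · have h1 := hKt hN hL hc ko hko
      have h2 : (4 : ℝ) ^ ko ≤ 4 ^ K := pow_le_pow_right₀ (by norm_num) hko
      have h3 : (4 : ℝ) ^ K ≤ Real.exp (Cg * M ^ 4) := hL.big
      have h4 : Real.exp (Cg * M ^ 4) ≤ Real.exp (K1 * M ^ 4) := by
        apply Real.exp_le_exp.2
        apply mul_le_mul_of_nonneg_right _ (by positivity)
        have := le_abs_self Cg
        linarith
      have h5 : (4 : ℝ) ^ ko ≤ Real.exp (K1 * M ^ 4) := (h2.trans h3).trans h4
      calc Dk G c lev π ko ≤ Kt * 4 ^ ko := h1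
        _ ≤ K1 * Real.exp (K1 * M ^ 4) := mul_le_mul (by linarith) h5 (by positivity) (by linarith)
    · intro k hk2
      have h1 := hKa hN hM4 hL hπ hpow k (by omega)
        (Nat.pow_le_pow_right (by norm_num) (by omega))
      have h2 : Ka * M ^ 4 * Dk G c lev π (k + 1) ≤ K1 * M ^ 4 * Dk G c lev π (k + 1) := by
        apply mul_le_mul_of_nonneg_right _ (hD0 _)
        apply mul_le_mul_of_nonneg_right _ (by positivity)
        linarith
      exact h1.trans h2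
    · intro k hk2
      have h1 := hKb hN hM1 hL hπ hpow k (by omega)
        (Nat.pow_le_pow_right (by norm_num) (by omega))
      have hd : 0 ≤ Dk G c lev π (k + 2) - Dk G c lev π k := by
        have := hD1 k
        have := hD1 (k + 1)
        linarith
      have h3 : Real.exp (-(M ^ 2 / Kb)) ≤ Real.exp (-(M ^ 2 / K1)) := by
        apply Real.exp_le_exp.2
        apply neg_le_neg
        exact div_le_div_of_nonneg_left (by positivity) (by linarith) (by linarith)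
      have h4 : M ^ 3 * Dk G c lev π (k + 2) + M ^ 4 * Real.exp (-(M ^ 2 / Kb)) ≤
          M ^ 3 * Dk G c lev π (k + 2) + M ^ 4 * Real.exp (-(M ^ 2 / K1)) := by
        have := mul_le_mul_of_nonneg_left h3 (show (0 : ℝ) ≤ M ^ 4 by positivity)
        linarith
      have h5 : 0 ≤ M ^ 3 * Dk G c lev π (k + 2) + M ^ 4 * Real.exp (-(M ^ 2 / Kb)) := by
        have := hD0 (k + 2)
        positivity
      have h6 : Kb * (Dk G c lev π (k + 2) - Dk G c lev π k) ≤
          K1 * (Dk G c lev π (k + 2) - Dk G c lev π k) :=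
        mul_le_mul_of_nonneg_right (by linarith) hd
      exact h1.trans (mul_le_mul h6 h4 h5 (mul_nonneg (by linarith) hd))
  have hlin := hKl hN hc (clv c lev ki) l R1 hR1 hl
  obtain ⟨I, hI⟩ : ∃ I : ℝ, I = ∫ z, |dot l (z.2 - z.1)| ∂π := ⟨_, rfl⟩
  have hI0 : 0 ≤ I := by
    rw [hI]
    exact integral_nonneg fun z => abs_nonneg _
  have hI1 : I ≤ ε * Real.sqrt R1 := by
    rw [← hI] at hlin
    have h1 : I ^ 2 ≤ (ε * Real.sqrt R1) ^ 2 := by
      have h2 : Kl * R1 * Dk G c lev π ki ≤ Kl * R1 * (ε ^ 2 / Kl) :=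
        mul_le_mul_of_nonneg_left hmain (by positivity)
      have h3 : Kl * R1 * (ε ^ 2 / Kl) = (ε * Real.sqrt R1) ^ 2 := by
        rw [mul_pow, Real.sq_sqrt hR1]
        field_simp
      rw [← h3]
      exact le_trans hlin h2
    exact le_of_sq_le_sq h1 (by positivity)
  refine le_trans ?_ hI1
  have hFc : Continuous F := by
    rw [Metric.continuous_iff]
    intro b e he
    refine ⟨e, he, fun a ha => ?_⟩
    rw [Real.dist_eq] at ha ⊢
    exact lt_of_le_of_lt (hF2 a b) ha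
  have hW : Measurable (fun a : A → ℝ => F (dot l a)) := (hFc.comp (gh_dot l)).measurable
  have hUF : Measurable (fun a : A → ℝ => U a * F (dot l a)) := hUm.mul hW
  have e1 : ∫ a, U a * F (dot l a) ∂mu w c p 0 = ∫ z, U z.1 * F (dot l z.1) ∂π :=
    ((cpl_fst hc hUF).1).symm
  have e2 := hπ.indep U (fun a => F (dot l a)) hUm hW ⟨1, hU1⟩ ⟨1, fun a => hF1 _⟩ hU
  rw [e1, ← e2]
  have i1 : Integrable (fun z : (A → ℝ) × (A → ℝ) => U z.1 * F (dot l z.1)) π := by
    refine Integrable.of_bound (C := 1) ?_ ?_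
    · exact (hUF.comp measurable_fst).aestronglyMeasurable
    · refine Filter.Eventually.of_forall fun z => ?_
      rw [Real.norm_eq_abs, abs_mul]
      exact mul_le_one₀ (hU1 _) (abs_nonneg _) (hF1 _)
  have i2 : Integrable (fun z : (A → ℝ) × (A → ℝ) => U z.1 * F (dot l z.2)) π := by
    refine Integrable.of_bound (C := 1) ?_ ?_
    · exact ((hUm.comp measurable_fst).mul (hW.comp measurable_snd)).aestronglyMeasurable
    · refine Filter.Eventually.of_forall fun z => ?_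
      rw [Real.norm_eq_abs, abs_mul]
      exact mul_le_one₀ (hU1 _) (abs_nonneg _) (hF1 _)
  have i3 : Integrable (fun z : (A → ℝ) × (A → ℝ) => |dot l (z.2 - z.1)|) π := by
    refine cpl_int hw hN hc ?_ ⟨∑ y, |l y| + 1, fun z => ?_⟩
    · exact (((gh_dot l).comp (continuous_snd.sub continuous_fst)).abs).measurable
    · rw [abs_abs]
      have h1 := gh_dle l (z.2 - z.1)
      have h2 : ∑ y, |(z.2 - z.1) y| ≤ ∑ y, |z.1 y| + ∑ y, |z.2 y| := by
        rw [← Finset.sum_add_distrib]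
        apply Finset.sum_le_sum
        intro y _
        rw [Pi.sub_apply]
        have := abs_sub (z.2 y) (z.1 y)
        linarith
      set T : ℝ := ∑ y, |z.1 y| + ∑ y, |z.2 y| with hT
      have hT0 : 0 ≤ T := by positivity
      set L : ℝ := ∑ y, |l y| with hLL
      have hL0 : 0 ≤ L := Finset.sum_nonneg fun y _ => abs_nonneg _
      have h3 : T ≤ Real.exp ((L + 1) * T) := by
        have h4 := Real.add_one_le_exp ((L + 1) * T)
        have h5 : 0 ≤ L * T := mul_nonneg hL0 hT0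
        linarith
      calc |dot l (z.2 - z.1)| ≤ L * ∑ y, |(z.2 - z.1) y| := h1
        _ ≤ L * T := mul_le_mul_of_nonneg_left h2 hL0
        _ ≤ (L + 1) * Real.exp ((L + 1) * T) :=
            mul_le_mul (by linarith) h3 hT0 (by linarith)
  rw [← integral_sub i1 i2, hI]
  refine (abs_integral_le_integral_abs).trans ?_
  apply integral_mono (i1.sub i2).abs i3
  intro z
  change |U z.1 * F (dot l z.1) - U z.1 * F (dot l z.2)| ≤ |dot l (z.2 - z.1)|
  rw [← mul_sub, abs_mul, gh_sub]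
  calc |U z.1| * |F (dot l z.1) - F (dot l z.2)| ≤ 1 * |dot l z.1 - dot l z.2| :=
        mul_le_mul (hU1 _) (hF2 _ _) (abs_nonneg _) zero_le_one
    _ = |dot l z.2 - dot l z.1| := by rw [one_mul, abs_sub_comm]

end QG
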