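import Mathlib
import Pool.Agent.Lib_helper69.QG.Defs
import Pool.Agent.Lib_helper69.QG.Field
import Pool.Agent.Lib_helper69.QG.Geo
import Pool.Agent.Lib_helper69.QG.W.gh
import Pool.Agent.Lib_helper69.QG.W.tb

set_option autoImplicit false

namespace QG

open MeasureTheory

theorem tf_sqrt4 {K : ℝ} (h : 0 ≤ K) : Real.sqrt (Real.sqrt K) ^ 4 = K := by
  have h1 : Real.sqrt (Real.sqrt K) ^ 2 = Real.sqrt K := Real.sq_sqrt (Real.sqrt_nonneg _)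
  have h2 : Real.sqrt K ^ 2 = K := Real.sq_sqrt h
  calc Real.sqrt (Real.sqrt K) ^ 4 = (Real.sqrt (Real.sqrt K) ^ 2) ^ 2 := by ring
    _ = K := by rw [h1, h2]

theorem tf_dot {A : Type} [Fintype A] (t : ℝ) (l a : A → ℝ) :
    dot (fun y => t * l y) a = t * dot l a := by
  unfold dot
  rw [Finset.mul_sum]
  exact Finset.sum_congr rfl fun y _ => by ring

theorem tf_le_sqrt4 {M K : ℝ} (h : M ^ 4 ≤ K) : M ≤ Real.sqrt (Real.sqrt K) := by
  apply Real.le_sqrt_of_sq_le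
  apply Real.le_sqrt_of_sq_le
  calc (M ^ 2) ^ 2 = M ^ 4 := by ring
    _ ≤ K := h

/-- the size of the functionals -/
theorem tf_size {t T K J Cg : ℝ} (hK : 0 < K) (hJ : 1 ≤ J) (hCg : 0 ≤ Cg) (hT : 0 ≤ T)
    (ht : |t| ≤ T / Real.sqrt K) :
    Real.sqrt (t ^ 2 * (Cg * (K / J))) ≤ T * Real.sqrt Cg := by
  have hsK : 0 < Real.sqrt K := Real.sqrt_pos.2 hK
  have h1 : |t| * Real.sqrt K ≤ T := (le_div_iff₀ hsK).1 ht
  have h2 : t ^ 2 * K ≤ T ^ 2 := by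
    have h3 : (|t| * Real.sqrt K) ^ 2 ≤ T ^ 2 :=
      pow_le_pow_left₀ (mul_nonneg (abs_nonneg _) hsK.le) h1 2
    rwa [mul_pow, sq_abs, Real.sq_sqrt hK.le] at h3
  apply Real.sqrt_le_iff.2
  refine ⟨mul_nonneg hT (Real.sqrt_nonneg _), ?_⟩
  rw [mul_pow, Real.sq_sqrt hCg]
  have hJ0 : 0 < J := lt_of_lt_of_le one_pos hJ
  have h4 : K / J ≤ K := div_le_self hK.le hJ
  calc t ^ 2 * (Cg * (K / J)) ≤ t ^ 2 * (Cg * K) :=
        mul_le_mul_of_nonneg_left (mul_le_mul_of_nonneg_left h4 hCg) (sq_nonneg t)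
    _ = (t ^ 2 * K) * Cg := by ring
    _ ≤ T ^ 2 * Cg := mul_le_mul_of_nonneg_right h2 hCg

/-- the characteristic function of the sum of the blocks factorises -/
theorem factor {w : (Fin 4 → ℝ) → ℝ} {G : Fin 4 → (Fin 4 → ℝ) → ℝ} {C : ℝ} (hw : Cell w G C)
    {Cg ε T : ℝ} (J : ℕ) (hJ : 2 ≤ J) (hε : 0 < ε) (hT : 0 ≤ T) : ∃ K0 : ℕ,
    ∀ {A B : Type} [Fintype A] [DecidableEq A] [Fintype B] {c : B → Fin 4 → A} {p : A} {R : ℝ}
      {K : ℕ} {z : Fin 2 → A} {lev : Fin 2 → A → ℕ} {ph : Fin 2 → ℕ → A → ℝ},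
      Geo c p R K Cg z lev ph → K0 ≤ K →
      ∀ (l : Fin (2 * J) → A → ℝ) (s : Fin (2 * J) → Fin 2) (ki ko : Fin (2 * J) → ℕ),
        (∀ i, ki i ≤ ko i ∧ ko i ≤ K ∧ (K : ℝ) / (2 * J ^ 5) ≤ (ko i : ℝ) - ki i) →
        (∀ i (h : A → ℝ), dot (l i) h ^ 2 ≤ (Cg * (K / J)) * EnOn c (clv c (lev (s i)) (ki i)) h) →
        (∀ i j, i < j → ∀ y, l j y ≠ 0 → 2 ^ (ko i) ≤ lev (s i) y) →
        ∀ t : ℝ, |t| ≤ T / Real.sqrt K →
        ‖∫ a, Complex.exp ((t * ∑ i, dot (l i) a : ℝ) * Complex.I) ∂mu w c p 0 -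
          ∏ i, ∫ a, Complex.exp ((t * dot (l i) a : ℝ) * Complex.I) ∂mu w c p 0‖ ≤ ε := by
  have hJr : (2 : ℝ) ≤ (J : ℝ) := by exact_mod_cast hJ
  have hJ0 : (0 : ℝ) < (J : ℝ) := by linarith
  have hα : (0 : ℝ) < 1 / (2 * (J : ℝ) ^ 5) := by positivity
  have hTC : 0 ≤ T * Real.sqrt Cg := mul_nonneg hT (Real.sqrt_nonneg _)
  have hε' : 0 < ε / (8 * J * (T * Real.sqrt Cg + 1)) := by positivity
  obtain ⟨M0, hM0, hdec⟩ := decouple hw (Cg := Cg) hα hε'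
  refine ⟨⌈M0 ^ 4⌉₊, ?_⟩
  intro A B _ _ _ c p R K z lev ph hG hK l s ki ko hk hl hs t ht
  have hKr : M0 ^ 4 ≤ (K : ℝ) := (Nat.le_ceil _).trans (by exact_mod_cast hK)
  have hM4 : (1 : ℝ) ≤ M0 ^ 4 := one_le_pow₀ hM0
  have hK0 : (0 : ℝ) < (K : ℝ) := by linarith
  have hM : M0 ≤ Real.sqrt (Real.sqrt K) := tf_le_sqrt4 hKr
  have hMK : Real.sqrt (Real.sqrt (K : ℝ)) ^ 4 = K := tf_sqrt4 hK0.le
  have : IsProbabilityMeasure (mu w c p (0 : A → ℝ)) := mu_prob hw hG.net 0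
  have hCg : 0 ≤ Cg := by linarith [(hG.locl 0).one_le]
  have key := peel (μ := mu w c p (0 : A → ℝ)) (2 * J) (fun i y => t * l i y)
    (fun i => {y | 2 ^ (ko i) ≤ lev (s i) y})
    (ε / (8 * J * (T * Real.sqrt Cg + 1)) * (T * Real.sqrt Cg)) ?_ ?_
  · simp only [tf_dot, ← Finset.mul_sum] at key
    refine key.trans ?_
    push_cast
    have h1 : T * Real.sqrt Cg / (T * Real.sqrt Cg + 1) ≤ 1 := by
      rw [div_le_one (by linarith)]
      linarith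
    have h2 : 4 * (2 * (J : ℝ)) * (ε / (8 * J * (T * Real.sqrt Cg + 1)) * (T * Real.sqrt Cg)) =
        ε * (T * Real.sqrt Cg / (T * Real.sqrt Cg + 1)) := by
      have h3 : T * Real.sqrt Cg + 1 ≠ 0 := by linarith
      field_simp
      ring
    rw [h2]
    calc ε * (T * Real.sqrt Cg / (T * Real.sqrt Cg + 1)) ≤ ε * 1 :=
          mul_le_mul_of_nonneg_left h1 hε.le
      _ = ε := mul_one ε
  · intro i U hU hU1 hUd F hF1 hF2
    have hloc : Local c p (lev (s i)) K (Real.sqrt (Real.sqrt (K : ℝ)) ^ 4) Cg := by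
      rw [hMK]
      exact hG.locl (s i)
    have h3 := hdec hG.net hM hloc (ki i) (ko i) (hk i).1 (hk i).2.1
      (by
        rw [hMK]
        have := (hk i).2.2
        calc 1 / (2 * (J : ℝ) ^ 5) * K = (K : ℝ) / (2 * J ^ 5) := by ring
          _ ≤ _ := this)
      (fun y => t * l i y) (t ^ 2 * (Cg * (K / J))) (by positivity)
      (by
        intro h
        rw [tf_dot, mul_pow, mul_assoc (t ^ 2)]
        exact mul_le_mul_of_nonneg_left (hl i h) (sq_nonneg t))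
      U hU hU1 hUd F hF1 hF2
    refine h3.trans (mul_le_mul_of_nonneg_left ?_ hε'.le)
    exact tf_size hK0 (by linarith) hCg hT ht
  · intro i j hij y hy
    exact hs i j hij y (right_ne_zero_of_mul hy)

end QG
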