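import Mathlib
import Pool.Agent.Lib_helper69.QG.Defs
import Pool.Agent.Lib_helper69.QG.Field
import Pool.Agent.Lib_helper69.QG.Geo
import Pool.Agent.Lib_helper69.QG.W.fe
import Pool.Agent.Lib_helper69.QG.W.fi
import Pool.Agent.Lib_helper69.QG.W.fp
import Pool.Agent.Lib_helper69.QG.W.td
import Pool.Agent.Lib_helper69.QG.W.te
import Pool.Agent.Lib_helper69.QG.W.tf
import Pool.Agent.Lib_helper69.QG.W.tg

set_option autoImplicit false

namespace QG

open MeasureTheory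

section th_section
variable {A B : Type} [Fintype A] [DecidableEq A] [Fintype B]

theorem th_q_nonneg (t : Fin 4 → ℝ) : 0 ≤ q t :=
  Finset.sum_nonneg fun _ _ => Finset.sum_nonneg fun _ _ => sq_nonneg _

theorem th_EnOn_le (c : B → Fin 4 → A) (S : Finset B) (h : A → ℝ) : EnOn c S h ≤ En c h :=
  Finset.sum_le_sum_of_subset_of_nonneg (Finset.subset_univ S) fun _ _ _ => th_q_nonneg _

theorem th_En_nonneg (c : B → Fin 4 → A) (h : A → ℝ) : 0 ≤ En c h :=
  Finset.sum_nonneg fun _ _ => th_q_nonneg _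

theorem th_meas (l : A → ℝ) : Measurable (fun a : A → ℝ => dot l a) := by
  unfold dot
  exact Finset.measurable_sum _ fun y _ => (measurable_pi_apply y).const_mul _

theorem th_bound (l a : A → ℝ) : |dot l a| ≤ (∑ y, |l y|) * ∑ y, |a y| := by
  unfold dot
  refine (Finset.abs_sum_le_sum_abs _ _).trans ?_
  rw [Finset.sum_mul]
  refine Finset.sum_le_sum fun y _ => ?_
  rw [abs_mul]
  exact mul_le_mul_of_nonneg_left
    (Finset.single_le_sum (f := fun y => |a y|) (fun _ _ => abs_nonneg _) (Finset.mem_univ y))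
    (abs_nonneg _)

theorem th_int4 {w : (Fin 4 → ℝ) → ℝ} {G : Fin 4 → (Fin 4 → ℝ) → ℝ} {C : ℝ} {c : B → Fin 4 → A}
    {p : A} {R : ℝ} (hw : Cell w G C) (hN : Net c p R) (l : A → ℝ) :
    Integrable (fun a => dot l a ^ 4) (mu w c p 0) := by
  refine mu_int hw hN 0 ((th_meas l).pow_const 4) ⟨24 + ∑ y, |l y|, fun a => ?_⟩
  have hL : 0 ≤ ∑ y, |l y| := Finset.sum_nonneg fun _ _ => abs_nonneg _
  have hS : 0 ≤ ∑ y, |a y| := Finset.sum_nonneg fun _ _ => abs_nonneg _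
  have h1 : |dot l a ^ 4| ≤ ((∑ y, |l y|) * ∑ y, |a y|) ^ 4 := by
    rw [abs_pow]
    exact pow_le_pow_left₀ (abs_nonneg _) (th_bound l a) 4
  have h2 := Real.pow_div_factorial_le_exp ((∑ y, |l y|) * ∑ y, |a y|) (mul_nonneg hL hS) 4
  have h3 : (Nat.factorial 4 : ℝ) = 24 := by norm_num [Nat.factorial]
  rw [h3, div_le_iff₀ (by norm_num)] at h2
  have h4 : Real.exp ((∑ y, |l y|) * ∑ y, |a y|) ≤
      Real.exp ((24 + ∑ y, |l y|) * ∑ y, |a y|) := by
    apply Real.exp_le_exp.2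
    nlinarith
  have h5 := Real.exp_pos ((24 + ∑ y, |l y|) * ∑ y, |a y|)
  calc |dot l a ^ 4| ≤ ((∑ y, |l y|) * ∑ y, |a y|) ^ 4 := h1
    _ ≤ Real.exp ((∑ y, |l y|) * ∑ y, |a y|) * 24 := h2
    _ ≤ Real.exp ((24 + ∑ y, |l y|) * ∑ y, |a y|) * 24 := by linarith
    _ ≤ (24 + ∑ y, |l y|) * Real.exp ((24 + ∑ y, |l y|) * ∑ y, |a y|) := by nlinarith

theorem th_neg (l a : A → ℝ) : dot l (-a) = -dot l a := by
  unfold dot
  rw [← Finset.sum_neg_distrib]
  exact Finset.sum_congr rfl fun y _ => by simp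

theorem th_single (x : A) (a : A → ℝ) : dot (Pi.single x 1) a = a x := by
  unfold dot
  rw [Finset.sum_eq_single x]
  · simp
  · intro y _ hy
    rw [Pi.single_eq_of_ne hy, zero_mul]
  · intro h
    exact absurd (Finset.mem_univ x) h

theorem th_sub (l l' a : A → ℝ) : dot (l - l') a = dot l a - dot l' a := by
  unfold dot
  rw [← Finset.sum_sub_distrib]
  exact Finset.sum_congr rfl fun y _ => by simp [sub_mul]

theorem th_sum {I : Type} [Fintype I] (l : I → A → ℝ) (a : A → ℝ) :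
    dot (fun y => ∑ i, l i y) a = ∑ i, dot (l i) a := by
  unfold dot
  rw [Finset.sum_comm]
  exact Finset.sum_congr rfl fun y _ => by rw [Finset.sum_mul]

theorem th_height (z : Fin 2 → A) (a : A → ℝ) :
    dot (Pi.single (z 1) 1 - Pi.single (z 0) 1) a = a (z 1) - a (z 0) := by
  rw [th_sub, th_single, th_single]

end th_section

/-- the central limit theorem for the height difference on a network -/
theorem net_clt {w : (Fin 4 → ℝ) → ℝ} {G : Fin 4 → (Fin 4 → ℝ) → ℝ} {C : ℝ} (hw : Cell w G C)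
    {Cg : ℝ} (hCg : 1 ≤ Cg) (τ : ℝ) {δ : ℝ} (hδ : 0 < δ) : ∃ K0 : ℕ,
    ∀ {A B : Type} [Fintype A] [DecidableEq A] [Fintype B] {c : B → Fin 4 → A} {p : A} {R : ℝ}
      {K : ℕ} {z : Fin 2 → A} {lev : Fin 2 → A → ℕ} {ph : Fin 2 → ℕ → A → ℝ},
      Geo c p R K Cg z lev ph → K0 ≤ K →
      ‖∫ a, Complex.exp ((τ / Real.sqrt (∫ a, (a (z 1) - a (z 0)) ^ 2 ∂mu w c p 0) *
          (a (z 1) - a (z 0)) : ℝ) * Complex.I) ∂mu w c p 0 -
        (Real.exp (-(τ ^ 2 / 2)) : ℝ)‖ ≤ δ := by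
  obtain ⟨C', κ, hC', hκ, hmom⟩ := height_moments hw hCg
  obtain ⟨Kq, hKq, hsub⟩ := subgauss hw
  have hCg2 : 1 ≤ Cg ^ 2 := one_le_pow₀ hCg
  have hKC : 0 ≤ Kq * Cg := by positivity
  have hKC2 : 0 ≤ Kq * Cg ^ 2 := by positivity
  have hKC3 : Kq * Cg ≤ Kq * Cg ^ 2 := by nlinarith
  obtain ⟨J, ε, T, K1, hJ, hε, hT, hlim⟩ := clt_limit (C := C' + 100 * (Kq * Cg ^ 2)) (κ := κ)
    (by linarith) hκ τ hδ
  obtain ⟨K2, hK2⟩ := blocks_exist hCg J hJ
  obtain ⟨K3, hK3⟩ := factor hw (Cg := Cg) (ε := ε) (T := T) J hJ hε hT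
  refine ⟨K1 + K2 + K3 + 1, ?_⟩
  intro A B _ _ _ c p R K z lev ph hGeo hK
  obtain ⟨l, s, ki, ko, hk, hl, hsep, hrest⟩ := hK2 hGeo (by omega)
  have hfac := hK3 hGeo (by omega) l s ki ko hk hl hsep
  haveI : IsProbabilityMeasure (mu w c p 0) := mu_prob hw hGeo.net 0
  obtain ⟨hm1, hm2, hm3⟩ := hmom hGeo (by omega)
  have hJ0 : (0 : ℝ) < J := by
    have : 0 < J := by omega
    exact_mod_cast this
  have hKn : (0 : ℝ) ≤ K := Nat.cast_nonneg K
  have hKJ : (0 : ℝ) ≤ (K : ℝ) / J := by positivity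
  have hlE : ∀ i (h : A → ℝ), dot (l i) h ^ 2 ≤ (Cg * (K / J)) * En c h := fun i h =>
    (hl i h).trans (mul_le_mul_of_nonneg_left (th_EnOn_le c _ h) (by positivity))
  have hsubl := fun i => hsub hGeo.net (l i) (Cg * (K / J)) (by positivity) (hlE i)
  have hrl : ∀ a : A → ℝ, dot (Pi.single (z 1) 1 - Pi.single (z 0) 1 - fun y => ∑ i, l i y) a =
      a (z 1) - a (z 0) - ∑ i, dot (l i) a := by
    intro a
    rw [th_sub, th_height, th_sum]
  have hR0 : (0 : ℝ) ≤ (K : ℝ) / J ^ 3 + (J : ℝ) ^ 2 := by positivity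
  have hsubr := hsub hGeo.net (Pi.single (z 1) 1 - Pi.single (z 0) 1 - fun y => ∑ i, l i y)
    (100 * Cg * ((K : ℝ) / J ^ 3 + (J : ℝ) ^ 2)) (by positivity) (fun h => by
      rw [hrl]; exact hrest h)
  have hmX : Measurable fun a : A → ℝ => a (z 1) - a (z 0) :=
    (measurable_pi_apply _).sub (measurable_pi_apply _)
  refine hlim (μ := mu w c p 0) (fun a => a (z 1) - a (z 0)) (fun i a => dot (l i) a) K (by omega)
    (by omega) hmX (fun i => th_meas (l i)) ?_ (fun i => th_int4 hw hGeo.net (l i))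
    ?_ ?_ hm1 ?_ ?_ ?_ ?_ hfac
  · have := th_int4 hw hGeo.net (Pi.single (z 1) 1 - Pi.single (z 0) 1)
    simpa only [th_height] using this
  · exact mu_odd hw hGeo.net hmX fun a => by simp only [Pi.neg_apply]; ring
  · exact fun i => mu_odd hw hGeo.net (th_meas (l i)) fun a => th_neg _ _
  · exact hm3.trans (mul_le_mul_of_nonneg_right (by linarith) (by positivity))
  · intro i
    refine (hsubl i).2.1.trans ?_
    have : Kq * (Cg * (K / J)) = (Kq * Cg) * (K / J) := by ring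
    rw [this]
    exact mul_le_mul_of_nonneg_right (by linarith) hKJ
  · intro i
    refine (hsubl i).2.2.trans ?_
    have : Kq * (Cg * (K / J)) ^ 2 = (Kq * Cg ^ 2) * ((K : ℝ) / J) ^ 2 := by ring
    rw [this]
    exact mul_le_mul_of_nonneg_right (by linarith) (by positivity)
  · have h1 := hsubr.2.1
    simp only [hrl] at h1
    refine h1.trans ?_
    have : Kq * (100 * Cg * ((K : ℝ) / J ^ 3 + (J : ℝ) ^ 2)) =
        (100 * (Kq * Cg)) * ((K : ℝ) / J ^ 3 + (J : ℝ) ^ 2) := by ring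
    rw [this]
    exact mul_le_mul_of_nonneg_right (by linarith) hR0

end QG
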